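import Pool.Agent.Clo.Ram

/-!
# Ramification indices which are prime to the residue characteristic

Let `N` be a finite Galois extension of the field of rational numbers, `W` a valuation ring above
the prime number `l`, and `D` a number prime to `l` with `σ ^ D = 1` for all automorphisms `σ` of
`N`. Then the inertia group `I` of the prime ideal `P` given by `W` is cyclic of an order which
divides `D`: for a uniformizer `π` the map `σ ↦ σ(π) / π` modulo `P` is a homomorphism from `I` to
the multiplicative group of the residue field, and it is injective, since its kernel acts trivially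
on the quotients of all groups `P ^ i / P ^ (i + 1)`, so that an element of order `D` in it is
trivial. Hence the ramification index of `P` over `l` divides `D` (`values_tame`).
-/

set_option autoImplicit false

noncomputable section

namespace Pool.Agent.Clo

open Pool.Agent.ZCyc Pool.Agent.Dess

open IsDedekindDomain NumberField

section Values

variable {F : Type} [Field F] [NumberField F]

omit [NumberField F] in
private theorem int_MTame (j : F →+* QQ) (W : ValuationSubring QQ) (x : 𝓞 F) : j x ∈ W :=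
  int_mem_Ram W ((RingOfIntegers.isIntegral_coe x).map j.toIntAlgHom)

/-- The values of a number field at `W` for all embeddings with the same prime ideal. -/
theorem values_MTame {l : ℕ} (hl : l.Prime) (P : Ideal (𝓞 F)) [hP : P.IsPrime]
    (hlP : (l : 𝓞 F) ∈ P) (W : ValuationSubring QQ) (hW : (l : QQ) ∈ W.nonunits) :
    ∃ (π : F) (ν : F → ℤ), π ≠ 0 ∧ ∀ (j : F →+* QQ),
      (∀ x : 𝓞 F, x ∈ P ↔ W.valuation (j x) < 1) →
      W.valuation (j π) < 1 ∧ (∀ c : F, c ≠ 0 → W.valuation (j c) = W.valuation (j π) ^ ν c) ∧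
      W.valuation (l : QQ) = W.valuation (j π) ^ (P.ramificationIdx ℤ) ∧
      ∀ x : F, W.valuation (j x) ≤ 1 → ∃ a s : 𝓞 F, W.valuation (j s) = 1 ∧ x * s = a := by
  have hl0 : (l : 𝓞 F) ≠ 0 := by exact_mod_cast hl.ne_zero
  have hWl : W.valuation (l : QQ) < 1 := (W.mem_nonunits_iff).1 hW
  have hPne : P ≠ ⊥ := by
    intro h
    rw [h, Ideal.mem_bot] at hlP
    exact hl0 hlP
  obtain ⟨v, rfl⟩ : ∃ v : HeightOneSpectrum (𝓞 F), v.asIdeal = P := ⟨⟨P, hP, hPne⟩, rfl⟩
  obtain ⟨π, hπ⟩ := v.valuation_exists_uniformizer F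
  have hπ0 : π ≠ 0 := by
    rintro rfl
    rw [map_zero] at hπ
    exact WithZero.exp_ne_zero hπ.symm
  refine ⟨π, fun c => -WithZero.log (v.valuation F c), hπ0, fun j hPW => ?_⟩
  have hs : ∀ s : v.asIdeal.primeCompl, W.valuation (j ((s : 𝓞 F) : F)) = 1 := by
    intro s
    refine le_antisymm ((W.valuation_le_one_iff _).2 (int_MTame j W _)) ?_
    exact not_lt.1 fun h => s.2 ((hPW _).2 h)
  have key0 : ∀ x : F, v.valuation F x ≤ 1 → ∃ a s : 𝓞 F, W.valuation (j s) = 1 ∧ x * s = a := by
    intro x hx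
    obtain ⟨n, e, hne⟩ := v.exists_primeCompl_mul_eq_of_integer (K := F) x hx
    exact ⟨n, e, hs e, hne⟩
  have key : ∀ x : F, v.valuation F x ≤ 1 → W.valuation (j x) ≤ 1 := by
    intro x hx
    obtain ⟨n, e, h2, hne⟩ := key0 x hx
    have h1 : W.valuation (j (n : F)) ≤ 1 := (W.valuation_le_one_iff _).2 (int_MTame j W n)
    have h3 : j x * j (e : F) = j (n : F) := by
      rw [← map_mul]
      exact congrArg j hne
    rw [← h3, map_mul, h2, mul_one] at h1
    exact h1
  have key2 : ∀ x : F, v.valuation F x = 1 → W.valuation (j x) = 1 := by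
    intro x hx
    have hx0 : x ≠ 0 := by
      rintro rfl
      rw [map_zero] at hx
      exact zero_ne_one hx
    have h1 := key x hx.le
    have h2 := key x⁻¹ (by rw [map_inv₀, hx, inv_one])
    rw [map_inv₀, map_inv₀] at h2
    have h3 : W.valuation (j x) ≠ 0 := (Valuation.ne_zero_iff _).2
      ((map_ne_zero_iff j j.injective).2 hx0)
    refine le_antisymm h1 ?_
    exact (inv_le_one₀ (zero_lt_iff.2 h3)).1 h2
  have h4 : W.valuation (j π) ≠ 0 := (Valuation.ne_zero_iff _).2
    ((map_ne_zero_iff j j.injective).2 hπ0)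
  have key3 : ∀ (x : F) (n : ℤ), v.valuation F x = WithZero.exp (-n) →
      W.valuation (j x) = W.valuation (j π) ^ n := by
    intro x n hx
    have h1 : v.valuation F (x / π ^ n) = 1 := by
      rw [map_div₀, map_zpow₀, hx, hπ, ← WithZero.exp_zsmul]
      have h2 : n • (-1 : ℤ) = -n := by rw [smul_eq_mul]; ring
      rw [h2]
      exact div_self WithZero.exp_ne_zero
    have h3 := key2 _ h1
    rw [map_div₀, map_div₀, map_zpow₀, map_zpow₀] at h3
    exact (div_eq_one_iff_eq (zpow_ne_zero n h4)).1 h3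
  have hWlπ : W.valuation (l : QQ) = W.valuation (j π) ^ (v.asIdeal.ramificationIdx ℤ) := by
    have h1 := key3 (l : F) _ (idx_Ram hl v hlP)
    rw [map_natCast, zpow_natCast] at h1
    exact h1
  have hπ1 : W.valuation (j π) < 1 := by
    have h1 := key π (by
      rw [hπ, ← WithZero.exp_zero, WithZero.exp_le_exp]
      norm_num)
    refine lt_of_le_of_ne h1 fun h => ?_
    rw [h, one_pow] at hWlπ
    exact hWl.ne hWlπ
  have hval : ∀ c : F, c ≠ 0 → v.valuation F c =
      WithZero.exp (-(-WithZero.log (v.valuation F c))) := by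
    intro c hc
    rw [neg_neg, WithZero.exp_log ((Valuation.ne_zero_iff _).2 hc)]
  refine ⟨hπ1, fun c hc => key3 c _ (hval c hc), hWlπ, fun x hx => ?_⟩
  rcases eq_or_ne x 0 with rfl | hx0
  · exact key0 0 (by rw [map_zero]; exact zero_le)
  · refine key0 x ?_
    have h1 := key3 x _ (hval x hx0)
    rw [h1] at hx
    rw [hval x hx0, ← WithZero.exp_zero, WithZero.exp_le_exp]
    by_contra hneg
    have h2 : -WithZero.log (v.valuation F x) < 0 := by omega
    have h3 : 1 < W.valuation (j π) ^ (-WithZero.log (v.valuation F x)) :=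
      one_lt_zpow_of_neg₀ (zero_lt_iff.2 h4) hπ1 h2
    exact (not_lt.2 hx) h3

end Values

section Core

variable {N : Type} [Field N] [NumberField N]

/-- Let `σ ^ D = 1` for all automorphisms `σ` of the Galois extension `N` of the field of rational
numbers, and let `l` be a prime number which does not divide `D`. Then the ramification indices of
`N` over `l` divide `D`. -/
private theorem card_dvd_MTame [IsGalois ℚ N] (j : N →+* QQ) {l D : ℕ} (hl : l.Prime)
    (hlD : ¬ l ∣ D) (hD : ∀ (σ : N ≃+* N) (x : N), (⇑σ)^[D] x = x) {W : ValuationSubring QQ}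
    (hW : (l : QQ) ∈ W.nonunits) (P : Ideal (𝓞 N)) [hP : P.IsPrime]
    (hPW : ∀ x : 𝓞 N, x ∈ P ↔ W.valuation (j x) < 1) : P.ramificationIdx ℤ ∣ D := by
  have hWl : W.valuation (l : QQ) < 1 := (W.mem_nonunits_iff).1 hW
  have hlP : (l : 𝓞 N) ∈ P := by
    rw [hPW]
    have h1 : j ((l : 𝓞 N) : N) = (l : QQ) := by simp
    rw [h1]
    exact hWl
  obtain ⟨π, ν, hπ0, hv⟩ := values_MTame hl P hlP W hW
  obtain ⟨hπ1, hνj, hlj, hfr⟩ := hv j hPW
  have he0 : P.ramificationIdx ℤ ≠ 0 := by
    intro h
    rw [h, pow_zero] at hlj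
    exact hWl.ne hlj
  -- the values are invariant
  have T2 : ∀ σ ∈ P.inertia Gal(N/ℚ), ∀ x : N, W.valuation (j (σ x)) = W.valuation (j x) := by
    intro σ hσ x
    have hPW' : ∀ x : 𝓞 N, x ∈ P ↔
        W.valuation ((j.comp (σ : N →+* N)) (x : N)) < 1 := by
      intro x
      have h1 : (j.comp (σ : N →+* N)) (x : N) = j ((σ • x : 𝓞 N) : N) := rfl
      rw [h1, ← hPW]
      have h2 : σ • x - x ∈ P := hσ x
      constructor
      · intro h
        have h3 := P.add_mem h2 h
        rwa [sub_add_cancel] at h3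
      · intro h
        have h3 := P.sub_mem h h2
        rwa [sub_sub_cancel] at h3
    obtain ⟨-, hνj', hlj', -⟩ := hv (j.comp (σ : N →+* N)) hPW'
    rcases eq_or_ne x 0 with rfl | hx
    · rw [map_zero]
    · have h1 := (pow_left_inj₀ zero_le zero_le he0).1 (hlj'.symm.trans hlj)
      have h2 := hνj' x hx
      rw [h1] at h2
      exact h2.trans (hνj x hx).symm
  -- the residues are invariant
  have T1 : ∀ σ ∈ P.inertia Gal(N/ℚ), ∀ x : N, W.valuation (j x) ≤ 1 →
      W.valuation (j (σ x) - j x) < 1 := by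
    intro σ hσ x hx
    obtain ⟨a, s, hs, hxs⟩ := hfr x hx
    have hs' : W.valuation (j (σ s)) = 1 := (T2 σ hσ s).trans hs
    have hint : ∀ y : 𝓞 N, W.valuation (j (σ y) - j y) < 1 := by
      intro y
      have h1 : j (σ y) - j y = j ((σ • y - y : 𝓞 N) : N) := by
        rw [← map_sub]
        rfl
      rw [h1, ← hPW]
      exact hσ y
    have ha := hint a
    have hss := hint s
    have h1 : (j (σ x) - j x) * (j s) * (j (σ s)) =
        (j (σ a) - j a) * j s - j a * (j (σ s) - j s) := by
      rw [← hxs, map_mul σ, map_mul j, map_mul j]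
      ring
    have h2 : W.valuation (j (σ x) - j x) = W.valuation ((j (σ x) - j x) * (j s) * (j (σ s))) := by
      rw [map_mul, map_mul, hs, hs', mul_one, mul_one]
    rw [h2, h1]
    refine lt_of_le_of_lt (Valuation.map_sub _ _ _) (max_lt ?_ ?_)
    · rw [map_mul, hs, mul_one]
      exact ha
    · rw [map_mul]
      refine lt_of_le_of_lt ?_ hss
      exact mul_le_of_le_one_left' ((W.valuation_le_one_iff _).2 (int_MTame j W a))
  -- a character of the inertia group
  have hjπ : j π ≠ 0 := (map_ne_zero_iff j j.injective).2 hπ0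
  have hWπ : W.valuation (j π) ≠ 0 := (Valuation.ne_zero_iff _).2 hjπ
  have hu : ∀ σ ∈ P.inertia Gal(N/ℚ), W.valuation (j (σ π) / j π) = 1 := by
    intro σ hσ
    rw [map_div₀, T2 σ hσ π]
    exact div_self hWπ
  have hres : ∀ a b : W, IsLocalRing.residue W a = IsLocalRing.residue W b ↔
      W.valuation ((a : QQ) - b) < 1 := by
    intro a b
    rw [← sub_eq_zero, ← map_sub, IsLocalRing.residue_eq_zero_iff,
      ValuationSubring.valuation_lt_one_iff]
    rfl
  let χ : P.inertia Gal(N/ℚ) →* IsLocalRing.ResidueField W :=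
    { toFun := fun σ => IsLocalRing.residue W
        ⟨j (σ.1 π) / j π, (W.valuation_le_one_iff _).1 (hu σ.1 σ.2).le⟩
      map_one' := by
        rw [← map_one (IsLocalRing.residue W)]
        congr 1
        apply Subtype.ext
        exact div_self hjπ
      map_mul' := by
        intro σ τ
        rw [← map_mul, hres]
        have h1 : W.valuation (j (τ.1 π / π)) = 1 := by
          rw [map_div₀ j]
          exact hu τ.1 τ.2
        have h2 := T1 σ.1 σ.2 (τ.1 π / π) h1.le
        have h3 : j ((σ * τ : P.inertia Gal(N/ℚ)).1 π) / j π -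
            (j (σ.1 π) / j π) * (j (τ.1 π) / j π) =
            (j (σ.1 π) / j π) * (j (σ.1 (τ.1 π / π)) - j (τ.1 π / π)) := by
          have h4 : (σ * τ : P.inertia Gal(N/ℚ)).1 π = σ.1 (τ.1 π) := rfl
          have h5 : j (σ.1 π) ≠ 0 := by
            rw [Ne, map_eq_zero_iff j j.injective, map_eq_zero_iff σ.1 σ.1.injective]
            exact hπ0
          rw [h4, map_div₀ σ.1, map_div₀ j, map_div₀ j]
          field_simp
        refine (congrArg (fun z => W.valuation z < 1) h3).mpr ?_
        rw [map_mul, hu σ.1 σ.2, one_mul]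
        exact h2 }
  have hχ : Function.Injective χ := by
    rw [injective_iff_map_eq_one]
    intro σ hσ
    have hU0 : W.valuation (j (σ.1 π) / j π - 1) < 1 := by
      have h1 : χ σ = χ 1 := by rw [hσ, map_one]
      have h2 := (hres _ _).1 h1
      have h3 : j ((1 : P.inertia Gal(N/ℚ)).1 π) / j π = 1 := div_self hjπ
      refine (congrArg (fun z => W.valuation (j (σ.1 π) / j π - z) < 1) h3).mp h2
    have hσj : ∀ x : N, x ≠ 0 → j (σ.1 x) ≠ 0 := fun x hx => by
      rw [Ne, map_eq_zero_iff j j.injective, map_eq_zero_iff σ.1 σ.1.injective]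
      exact hx
    have hjx : ∀ x : N, x ≠ 0 → j x ≠ 0 := fun x hx => (map_ne_zero_iff j j.injective).2 hx
    have hU : ∀ x : N, x ≠ 0 → W.valuation (j (σ.1 x) / j x - 1) < 1 := by
      intro x hx
      let y : N := x / π ^ ν x
      have hy0 : y ≠ 0 := div_ne_zero hx (zpow_ne_zero _ hπ0)
      have hy : W.valuation (j y) = 1 := by
        rw [map_div₀, map_zpow₀, map_div₀, map_zpow₀, hνj x hx]
        exact div_self (zpow_ne_zero _ hWπ)
      have hy1 : W.valuation (j (σ.1 y) / j y - 1) < 1 := by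
        have h1 := T1 σ.1 σ.2 y hy.le
        have h2 : j (σ.1 y) / j y - 1 = (j (σ.1 y) - j y) / j y := by
          rw [sub_div, div_self (hjx y hy0)]
        rw [h2, map_div₀, hy, div_one]
        exact h1
      let a : QQˣ := Units.mk0 (j (σ.1 π) / j π) (div_ne_zero (hσj π hπ0) hjπ)
      let b : QQˣ := Units.mk0 (j (σ.1 y) / j y) (div_ne_zero (hσj y hy0) (hjx y hy0))
      have ha : a ∈ W.principalUnitGroup := hU0
      have hb : b ∈ W.principalUnitGroup := hy1
      have hab := W.principalUnitGroup.mul_mem (W.principalUnitGroup.zpow_mem ha (ν x)) hb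
      rw [ValuationSubring.mem_principalUnitGroup_iff] at hab
      have h1 : ((a ^ ν x * b : QQˣ) : QQ) = j (σ.1 x) / j x := by
        have h2 : ((a ^ ν x * b : QQˣ) : QQ) =
            (j (σ.1 π) / j π) ^ ν x * (j (σ.1 y) / j y) := by
          rw [Units.val_mul, Units.val_zpow_eq_zpow_val]
          rfl
        have h3 : σ.1 x = (σ.1 π) ^ ν x * σ.1 y := by
          rw [← map_zpow₀, ← map_mul, mul_div_cancel₀ _ (zpow_ne_zero _ hπ0)]
        have h4 : x = π ^ ν x * y := (mul_div_cancel₀ _ (zpow_ne_zero _ hπ0)).symm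
        have h5 : j x = (j π) ^ ν x * j y := by
          conv_lhs => rw [h4]
          rw [map_mul, map_zpow₀]
        rw [h2, h3, h5, map_mul, map_zpow₀, div_zpow]
        exact div_mul_div_comm _ _ _ _
      rwa [h1] at hab
    have hV : ∀ x : N, x ≠ 0 → W.valuation (j (σ.1 x) - j x) < W.valuation (j x) := by
      intro x hx
      have h1 : j (σ.1 x) - j x = (j (σ.1 x) / j x - 1) * j x := by
        rw [sub_mul, div_mul_cancel₀ _ (hjx x hx), one_mul]
      rw [h1, map_mul]
      refine mul_lt_of_lt_one_left ?_ (hU x hx)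
      exact zero_lt_iff.2 ((Valuation.ne_zero_iff _).2 (hjx x hx))
    apply Subtype.ext
    apply AlgEquiv.ext
    intro x
    by_contra hne
    have hy0 : σ.1 x - x ≠ 0 := sub_ne_zero.2 hne
    set y : N := σ.1 x - x with hy
    have hind : ∀ i : ℕ, W.valuation (j ((⇑σ.1)^[i] x - x - i * y)) < W.valuation (j y) := by
      intro i
      induction i with
      | zero =>
        rw [Function.iterate_zero, id, sub_self, Nat.cast_zero, zero_mul, sub_zero, map_zero,
          map_zero]
        exact zero_lt_iff.2 ((Valuation.ne_zero_iff _).2 (hjx y hy0))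
      | succ i ih =>
        have h1 : (⇑σ.1)^[i + 1] x - x - ((i + 1 : ℕ) : N) * y =
            σ.1 ((⇑σ.1)^[i] x - x - i * y) + i * (σ.1 y - y) := by
          rw [Function.iterate_succ_apply', map_sub, map_sub, map_mul, map_natCast]
          push_cast
          rw [hy]
          ring
        rw [h1, map_add j]
        refine lt_of_le_of_lt (Valuation.map_add _ _ _) (max_lt ?_ ?_)
        · rw [T2 σ.1 σ.2]
          exact ih
        · rw [map_mul, map_mul, map_natCast, map_sub]
          refine lt_of_le_of_lt ?_ (hV y hy0)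
          refine mul_le_of_le_one_left' ((W.valuation_le_one_iff _).2 ?_)
          exact natCast_mem W i
    have h1 := hind D
    have h2 : (⇑σ.1)^[D] x = x := hD σ.1.toRingEquiv x
    rw [h2, sub_self, zero_sub, map_neg, Valuation.map_neg, map_mul, map_mul, map_natCast] at h1
    have h3 : W.valuation (D : QQ) < 1 := by
      by_contra h4
      have h5 : W.valuation (D : QQ) = 1 :=
        le_antisymm ((W.valuation_le_one_iff _).2 (natCast_mem W D)) (not_lt.1 h4)
      rw [h5, one_mul] at h1
      exact lt_irrefl _ h1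
    obtain ⟨a, b, hab⟩ : ∃ a b : ℤ, a * D + b * l = 1 := by
      have h4 : IsCoprime (D : ℤ) (l : ℤ) :=
        Nat.isCoprime_iff_coprime.2 ((Nat.Prime.coprime_iff_not_dvd hl).2 hlD).symm
      obtain ⟨a, b, h5⟩ := h4
      exact ⟨a, b, h5⟩
    have h6 : ((a : QQ) * D + b * l) = 1 := by exact_mod_cast hab
    have h7 : W.valuation ((a : QQ) * D + b * l) < 1 := by
      refine lt_of_le_of_lt (Valuation.map_add _ _ _) (max_lt ?_ ?_)
      · rw [map_mul]
        refine lt_of_le_of_lt ?_ h3
        exact mul_le_of_le_one_left' ((W.valuation_le_one_iff _).2 (intCast_mem W a))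
      · rw [map_mul]
        refine lt_of_le_of_lt ?_ hWl
        exact mul_le_of_le_one_left' ((W.valuation_le_one_iff _).2 (intCast_mem W b))
    rw [h6, map_one] at h7
    exact lt_irrefl _ h7
  have hcyc : IsCyclic (P.inertia Gal(N/ℚ)) := isCyclic_of_injective_ringHom χ hχ
  have h1 : Nat.card (P.inertia Gal(N/ℚ)) ∣ D := by
    rw [← IsCyclic.exponent_eq_card]
    refine Monoid.exponent_dvd_of_forall_pow_eq_one fun σ => ?_
    apply Subtype.ext
    apply AlgEquiv.ext
    intro x
    have h2 := hD σ.1.toRingEquiv x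
    have h3 : (σ ^ D).1 = σ.1 ^ D := rfl
    rw [h3, AlgEquiv.coe_pow]
    exact h2
  have i1 : IsGaloisGroup Gal(N/ℚ) ℤ (𝓞 N) :=
    IsGaloisGroup.of_isFractionRing Gal(N/ℚ) ℤ (𝓞 N) ℚ N
  have h2 := Ideal.card_inertia_eq_ramificationIdxIn (G := Gal(N/ℚ)) (P.under ℤ) P
  rw [Ideal.ramificationIdxIn_eq_ramificationIdx (P.under ℤ) P Gal(N/ℚ)] at h2
  rw [← h2]
  exact h1

/-- Let `σ ^ D = 1` for all automorphisms `σ` of the Galois extension `N` of the field of rational
numbers, and let `l` be a prime number which does not divide `D`. Then the values of `N` at a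
valuation ring above `l` are powers of `g`, and the value of `l` is `g ^ e` with `e ∣ D`. -/
private theorem core_MTame [IsGalois ℚ N] (j : N →+* QQ) {l D : ℕ} (hl : l.Prime)
    (hlD : ¬ l ∣ D) (hD : ∀ (σ : N ≃+* N) (x : N), (⇑σ)^[D] x = x) {W : ValuationSubring QQ}
    (hW : (l : QQ) ∈ W.nonunits) : ∃ e : ℕ, e ∣ D ∧ ∃ g : W.ValueGroup, 0 < g ∧ g < 1 ∧
      W.valuation (l : QQ) = g ^ e ∧ ∀ c : N, c ≠ 0 → ∃ n : ℤ, W.valuation (j c) = g ^ n := by
  have hO : ∀ x : 𝓞 N, j x ∈ W := int_MTame j W
  let f : 𝓞 N →+* W :=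
    { toFun := fun x => ⟨j x, hO x⟩
      map_one' := Subtype.ext (map_one j)
      map_mul' := fun x y => Subtype.ext (map_mul j (x : N) y)
      map_zero' := Subtype.ext (map_zero j)
      map_add' := fun x y => Subtype.ext (map_add j (x : N) y) }
  obtain ⟨P, hPdef⟩ : ∃ P : Ideal (𝓞 N), P = (IsLocalRing.maximalIdeal W).comap f := ⟨_, rfl⟩
  have hPmem : ∀ x : 𝓞 N, x ∈ P ↔ W.valuation (j x) < 1 := by
    intro x
    rw [hPdef, Ideal.mem_comap, ValuationSubring.valuation_lt_one_iff]
    rfl
  have hP : P.IsPrime := by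
    rw [hPdef]
    exact Ideal.comap_isPrime _ _
  have hlP : (l : 𝓞 N) ∈ P := by
    rw [hPmem]
    have h1 : j ((l : 𝓞 N) : N) = (l : QQ) := by simp
    rw [h1]
    exact (W.mem_nonunits_iff).1 hW
  obtain ⟨π, ν, hπ0, hv⟩ := values_MTame hl P hlP W hW
  obtain ⟨hπ1, hνj, hlj, -⟩ := hv j hPmem
  exact ⟨P.ramificationIdx ℤ, card_dvd_MTame j hl hlD hD hW P hPmem, W.valuation (j π),
    zero_lt_iff.2 ((Valuation.ne_zero_iff _).2 ((map_ne_zero_iff j j.injective).2 hπ0)), hπ1, hlj,
    fun c hc => ⟨ν c, hνj c hc⟩⟩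

end Core

private theorem core_alg_MTame {N : Type} [Field N] [NumberField N] {i : Algebra ℚ N}
    (hG : @IsGalois ℚ _ N _ i) (j : N →+* QQ) {l D : ℕ} (hl : l.Prime)
    (hlD : ¬ l ∣ D) (hD : ∀ (σ : N ≃+* N) (x : N), (⇑σ)^[D] x = x) {W : ValuationSubring QQ}
    (hW : (l : QQ) ∈ W.nonunits) : ∃ e : ℕ, e ∣ D ∧ ∃ g : W.ValueGroup, 0 < g ∧ g < 1 ∧
      W.valuation (l : QQ) = g ^ e ∧ ∀ c : N, c ≠ 0 → ∃ n : ℤ, W.valuation (j c) = g ^ n := by
  have h : i = DivisionRing.toRatAlgebra := Subsingleton.elim _ _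
  subst h
  exact core_MTame j hl hlD hD hW

/-- Let `T` be a finite set of algebraic numbers which contains the images of its elements under
all automorphisms and which consists of numbers fixed by `σ ^ D`, for all automorphisms `σ` of the
field generated by it. Let `l` be a prime number which does not divide `D`. Then the values of this
field at a valuation ring above `l` are powers of `g`, and the value of `l` is `g ^ e` with
`e ∣ D`. -/
theorem values_tame {T : Set QQ} (hT : T.Finite) (hconj : ∀ (σ : QQ →+* QQ), ∀ x ∈ T, σ x ∈ T)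
    {l D : ℕ} (hl : l.Prime) (hlD : ¬ l ∣ D)
    (hD : ∀ (σ : IntermediateField.adjoin ℚ T ≃+* IntermediateField.adjoin ℚ T)
      (x : IntermediateField.adjoin ℚ T), (x : QQ) ∈ T → (⇑σ)^[D] x = x)
    {W : ValuationSubring QQ} (hW : (l : QQ) ∈ W.nonunits) :
    ∃ e : ℕ, e ∣ D ∧ ∃ g : W.ValueGroup, 0 < g ∧ g < 1 ∧ W.valuation (l : QQ) = g ^ e ∧
      ∀ c ∈ IntermediateField.adjoin ℚ T, c ≠ 0 → ∃ n : ℤ, W.valuation c = g ^ n := by
  set N := IntermediateField.adjoin ℚ T with hN
  have halg : ∀ y : QQ, IsIntegral ℚ y := fun y =>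
    (AlgebraicClosure.isAlgebraic ℚ).isIntegral.isIntegral y
  have hfin : FiniteDimensional ℚ N := by
    have : Finite T := hT
    exact IntermediateField.finiteDimensional_adjoin fun y _ => halg y
  have hNf : NumberField N := numberField_Ram N
  have hnQ : Normal ℚ QQ := normal_Ram
  have hNn : @Normal ℚ N _ _ N.algebra' := by
    rw [IntermediateField.normal_iff_forall_map_le]
    intro σ
    rw [hN, IntermediateField.adjoin_map, IntermediateField.adjoin_le_iff]
    rintro _ ⟨x, hx, rfl⟩
    exact IntermediateField.subset_adjoin ℚ T (hconj σ.toRingHom x hx)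
  have hG : @IsGalois ℚ _ N _ N.algebra' :=
    @IsGalois.mk ℚ _ N _ N.algebra' inferInstance hNn
  have hD' : ∀ (σ : N ≃+* N) (x : N), (⇑σ)^[D] x = x := by
    intro σ x
    obtain ⟨x, hx⟩ := x
    have h1 : ∀ y : N, (⇑σ)^[D] y = ((σ : N →+* N) ^ D : N →+* N) y := fun y => by
      rw [RingHom.coe_pow]
      rfl
    rw [h1]
    induction hx using IntermediateField.adjoin_induction with
    | mem y hy =>
      rw [← h1]
      exact hD σ _ hy
    | algebraMap q =>
      have h2 : (⟨algebraMap ℚ QQ q, algebraMap_mem N q⟩ : N) = (q : N) := by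
        apply Subtype.ext
        exact (eq_ratCast (algebraMap ℚ QQ) q).trans (map_ratCast (algebraMap N QQ) q).symm
      rw [h2, map_ratCast]
    | add y z hy hz h2 h3 =>
      have h4 : (⟨y + z, N.add_mem hy hz⟩ : N) = ⟨y, hy⟩ + ⟨z, hz⟩ := rfl
      rw [h4, map_add, h2, h3]
    | inv y hy h2 =>
      have h4 : (⟨y⁻¹, N.inv_mem hy⟩ : N) = (⟨y, hy⟩ : N)⁻¹ := rfl
      rw [h4, map_inv₀, h2]
    | mul y z hy hz h2 h3 =>
      have h4 : (⟨y * z, N.mul_mem hy hz⟩ : N) = ⟨y, hy⟩ * ⟨z, hz⟩ := rfl
      rw [h4, map_mul, h2, h3]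
  obtain ⟨e, he, g, hg0, hg1, hlg, hc⟩ := core_alg_MTame hG (algebraMap N QQ) hl hlD hD' hW
  exact ⟨e, he, g, hg0, hg1, hlg,
    fun c hc' hc0 => hc ⟨c, hc'⟩ fun h => hc0 (congrArg Subtype.val h)⟩

end Pool.Agent.Clo
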