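import Pool.Agent.Dess.Defs

/-!
# Fields with mild ramification at infinitely many primes

`K` is a field of algebraic numbers, possibly of infinite degree over `ℚ`.
-/

set_option autoImplicit false

noncomputable section

namespace Pool.Agent.Clo

open Pool.Agent.ZCyc Pool.Agent.Dess

/-- The field `K` of algebraic numbers is mildly ramified at infinitely many primes: for every `N`
there are a prime number `l > N` and a place of the field of algebraic numbers above `l` such that
the group of values of `K` is not divisible by `p`, for all prime numbers `p ≤ N`. -/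
def Mild (K : IntermediateField ℚ QQ) : Prop :=
  ∀ N : ℕ, ∃ l : ℕ, l.Prime ∧ N < l ∧ ∃ W : ValuationSubring QQ, (l : QQ) ∈ W.nonunits ∧
    ∀ p : ℕ, p.Prime → p ≤ N → ∃ c ∈ K, ∀ b ∈ K, W.valuation b ^ p ≠ W.valuation c

end Pool.Agent.Clo
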