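import Pool.Agent.Clo.ArAlm
import Pool.Agent.Clo.MTame
import Pool.Agent.Clo.MildDef

/-!
# The algebraic numbers of degree at most `d` generate a mildly ramified field
-/

set_option autoImplicit false

noncomputable section

namespace Pool.Agent.Clo

open Pool.Agent.ZCyc Pool.Agent.Dess

open NumberField Polynomial

/-- A zero of a polynomial of degree at most `d` is fixed by `σ ^ d!`. -/
theorem iterate_MDeg {F : Type} [Field F] [CharZero F] (σ : F ≃+* F) {x : F} {q : ℚ[X]}
    (hq : q ≠ 0) {d : ℕ} (hd : q.natDegree ≤ d) (hx : q.eval₂ (Rat.castHom F) x = 0) :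
    (⇑σ)^[d.factorial] x = x := by
  classical
  have hq0 : q.map (Rat.castHom F) ≠ 0 := (Polynomial.map_ne_zero_iff
    (Rat.castHom F).injective).2 hq
  have hroot : ∀ i : ℕ, (⇑σ)^[i] x ∈ (q.map (Rat.castHom F)).roots.toFinset := by
    intro i
    rw [Multiset.mem_toFinset, mem_roots hq0, IsRoot.def, eval_map]
    induction i with
    | zero => exact hx
    | succ i ih =>
      have h1 := Polynomial.hom_eval₂ q (Rat.castHom F) (σ : F →+* F) ((⇑σ)^[i] x)
      rw [ih, map_zero] at h1
      have h2 : (σ : F →+* F).comp (Rat.castHom F) = Rat.castHom F := Subsingleton.elim _ _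
      rw [h2] at h1
      rw [Function.iterate_succ_apply']
      exact h1.symm
  have hcard : (q.map (Rat.castHom F)).roots.toFinset.card < (Finset.range (d + 1)).card := by
    rw [Finset.card_range]
    have h1 := Multiset.toFinset_card_le (q.map (Rat.castHom F)).roots
    have h2 := Polynomial.card_roots' (q.map (Rat.castHom F))
    rw [natDegree_map] at h2
    omega
  obtain ⟨a, ha, b, hb, hab, he⟩ := Finset.exists_ne_map_eq_of_card_lt_of_maps_to hcard
    (f := fun i => (⇑σ)^[i] x) (fun i _ => hroot i)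
  have key : ∀ a b : ℕ, a < b → b ≤ d → (⇑σ)^[a] x = (⇑σ)^[b] x → (⇑σ)^[d.factorial] x = x := by
    intro a b hab hb he
    have h1 : (⇑σ)^[b - a] x = x := by
      have h2 : (⇑σ)^[a] ((⇑σ)^[b - a] x) = (⇑σ)^[a] x := by
        rw [← Function.iterate_add_apply, Nat.add_sub_cancel' hab.le]
        exact he.symm
      exact (σ.injective.iterate a) h2
    have h3 : Function.IsPeriodicPt σ (b - a) x := h1
    exact h3.trans_dvd (Nat.dvd_factorial (by omega) (by omega))
  rw [Finset.mem_range] at ha hb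
  rcases lt_or_gt_of_ne hab with h | h
  · exact key a b h (by omega) he
  · exact key b a h (by omega) he.symm

/-- Let `K` be contained in the field generated by all algebraic numbers of degree at most `d`.
Then `K` is mildly ramified: for all prime numbers `l > d` the value of `l` is not a `p ^ k`-th
power in `K` if `p ^ k > d!`. -/
theorem mild_of_degree {K : IntermediateField ℚ QQ} (d : ℕ)
    (hK : K ≤ IntermediateField.adjoin ℚ {x : QQ | (minpoly ℚ x).natDegree ≤ d}) : Mild K := by
  classical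
  intro N
  obtain ⟨l, hlN, hl⟩ := Nat.exists_infinite_primes (max N d + 1)
  obtain ⟨W, hW⟩ := exists_over hl
  have hl1 : N < l := by omega
  have hl2 : d < l := by omega
  have hlD : ¬ l ∣ d.factorial := by
    rw [hl.dvd_factorial]
    omega
  refine ⟨l, hl, hl1, W, hW, fun p hp _ => ?_⟩
  by_contra hcon
  have hdiv : ∀ c ∈ K, ∃ b ∈ K, W.valuation b ^ p = W.valuation c := by
    intro c hc
    by_contra h
    exact hcon ⟨c, hc, fun b hb he => h ⟨b, hb, he⟩⟩
  have hseq : ∀ k : ℕ, ∃ b ∈ K, W.valuation b ^ (p ^ k) = W.valuation (l : QQ) := by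
    intro k
    induction k with
    | zero => exact ⟨l, natCast_mem K l, by rw [pow_zero, pow_one]⟩
    | succ k ih =>
      obtain ⟨c, hc, hcl⟩ := ih
      obtain ⟨b, hb, hbc⟩ := hdiv c hc
      refine ⟨b, hb, ?_⟩
      rw [pow_succ', pow_mul, hbc, hcl]
  obtain ⟨b, hbK, hbl⟩ := hseq d.factorial
  obtain ⟨T, hT, hbT⟩ := IntermediateField.exists_finset_of_mem_adjoin (hK hbK)
  have halg : ∀ y : QQ, IsIntegral ℚ y := fun y =>
    (AlgebraicClosure.isAlgebraic ℚ).isIntegral.isIntegral y
  have hmin : ∀ t : QQ, minpoly ℚ t ≠ 0 := fun t => minpoly.ne_zero (halg t)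
  let T' : Finset QQ := T.biUnion fun t => ((minpoly ℚ t).map (Rat.castHom QQ)).roots.toFinset
  have hT' : ∀ y : QQ, y ∈ T' ↔ ∃ t ∈ T, (minpoly ℚ t).eval₂ (Rat.castHom QQ) y = 0 := by
    intro y
    rw [Finset.mem_biUnion]
    refine exists_congr fun t => and_congr_right fun _ => ?_
    rw [Multiset.mem_toFinset, mem_roots ((Polynomial.map_ne_zero_iff
      (Rat.castHom QQ).injective).2 (hmin t)), IsRoot.def, eval_map]
  have hTT : (T : Set QQ) ⊆ (T' : Set QQ) := by
    intro t ht
    refine Finset.mem_coe.2 ((hT' t).2 ⟨t, Finset.mem_coe.1 ht, ?_⟩)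
    have h1 : Rat.castHom QQ = algebraMap ℚ QQ := Subsingleton.elim _ _
    rw [h1, ← aeval_def]
    exact minpoly.aeval ℚ t
  obtain ⟨e, he, g, hg0, hg1, hlg, hc⟩ := values_tame (T := (T' : Set QQ)) T'.finite_toSet
    (fun σ x hx => by
      obtain ⟨t, ht, hxt⟩ := (hT' x).1 (Finset.mem_coe.1 hx)
      refine Finset.mem_coe.2 ((hT' (σ x)).2 ⟨t, ht, ?_⟩)
      have h1 := Polynomial.hom_eval₂ (minpoly ℚ t) (Rat.castHom QQ) σ x
      have h2 : σ.comp (Rat.castHom QQ) = Rat.castHom QQ := Subsingleton.elim _ _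
      rw [hxt, map_zero, h2] at h1
      exact h1.symm) hl hlD
    (fun σ x hx => by
      obtain ⟨t, ht, hxt⟩ := (hT' x).1 (Finset.mem_coe.1 hx)
      refine iterate_MDeg σ (hmin t) (hT (Finset.mem_coe.2 ht)) ?_
      have h1 := Polynomial.hom_eval₂ (minpoly ℚ t) (Rat.castHom _)
        (algebraMap (IntermediateField.adjoin ℚ (T' : Set QQ)) QQ) x
      have h2 : (algebraMap (IntermediateField.adjoin ℚ (T' : Set QQ)) QQ).comp
        (Rat.castHom _) = Rat.castHom QQ := Subsingleton.elim _ _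
      rw [h2] at h1
      refine (algebraMap (IntermediateField.adjoin ℚ (T' : Set QQ)) QQ).injective ?_
      rw [map_zero, h1]
      exact hxt) hW
  have hb0 : b ≠ 0 := by
    rintro rfl
    rw [map_zero, zero_pow (pow_ne_zero _ hp.ne_zero)] at hbl
    have h1 : (l : QQ) ≠ 0 := by exact_mod_cast hl.ne_zero
    exact (Valuation.ne_zero_iff _).2 h1 hbl.symm
  obtain ⟨n, hn⟩ := hc b (IntermediateField.adjoin.mono ℚ _ _ hTT hbT) hb0
  have h1 : g ^ (n * (p ^ d.factorial : ℕ)) = g ^ ((e : ℕ) : ℤ) := by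
    rw [zpow_mul, ← hn, zpow_natCast, zpow_natCast, ← hlg]
    exact hbl
  have h2 := zpow_right_injective₀ hg0 hg1.ne h1
  have h3 : p ^ d.factorial ∣ e := by
    have h4 : ((p ^ d.factorial : ℕ) : ℤ) ∣ (e : ℤ) := ⟨n, by rw [mul_comm]; exact h2.symm⟩
    exact_mod_cast h4
  have h4 := Nat.le_of_dvd d.factorial_pos (h3.trans he)
  exact absurd (Nat.lt_pow_self hp.one_lt) (not_lt.2 h4)

end Pool.Agent.Clo
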