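import Pool.Agent.Dess.Defs

/-!
# Values of a compositum with a number field which is unramified at a prime

Let `W` be a valuation ring of the field of algebraic numbers above the prime number `l`, and `L` a
number field, the discriminant of which is not divisible by `l`. For every field `K` of algebraic
numbers (of finite or infinite degree) the value group of `K L` at `W` is equal to the one of `K`
(`value_sup`). The proof reduces to a number field `K`; in a finite Galois extension `N` of `ℚ`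
which contains `K` and `L` let `P` be the prime ideal given by `W`. Its inertia group `I` has the
order `e(P | l)`, and for every subfield `E` of `N` the group of those elements of `I` which fix `E`
has the order `e(P | P ∩ E)`. As `e(P ∩ L | l) = 1`, the group `I` fixes `L`; so
`e(P | P ∩ K) = e(P | P ∩ K L)`, hence `P ∩ K` and `P ∩ K L` have the same ramification index over
`l`, and a uniformizer of `P ∩ K` is a uniformizer of `P ∩ K L`.
-/

set_option autoImplicit false

noncomputable section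

namespace Pool.Agent.Clo

open Pool.Agent.ZCyc Pool.Agent.Dess

open IsDedekindDomain NumberField

section Values

theorem int_mem_Ram (W : ValuationSubring QQ) {x : QQ} (hx : IsIntegral ℤ x) :
    x ∈ W := by
  have h1 : IsIntegral W x := hx.tower_top
  obtain ⟨y, hy⟩ := (IsIntegrallyClosed.isIntegral_iff (R := W) (K := QQ)).1 h1
  rw [← hy]
  exact y.2

theorem idx_Ram {F : Type} [Field F] [NumberField F] {l : ℕ} (hl : l.Prime)
    (v : HeightOneSpectrum (𝓞 F)) (hlP : (l : 𝓞 F) ∈ v.asIdeal) :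
    v.valuation F (l : F) = WithZero.exp (-(v.asIdeal.ramificationIdx ℤ : ℤ)) := by
  have hP : v.asIdeal.IsPrime := v.isPrime
  have hpr : Prime (l : ℤ) := Nat.prime_iff_prime_int.1 hl
  have hl0 : (l : 𝓞 F) ≠ 0 := by exact_mod_cast hl.ne_zero
  obtain ⟨n, hn⟩ : ∃ n : ℕ, v.intValuation (l : 𝓞 F) = WithZero.exp (-(n : ℤ)) :=
    ⟨_, v.intValuation_if_neg hl0⟩
  have h1 : (l : 𝓞 F) ∈ v.asIdeal ^ n :=
    (v.intValuation_le_pow_iff_mem _ _).1 hn.le
  have h2 : (l : 𝓞 F) ∉ v.asIdeal ^ (n + 1) := by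
    intro h
    have h3 := (v.intValuation_le_pow_iff_mem _ _).2 h
    rw [hn, WithZero.exp_le_exp] at h3
    push_cast at h3
    omega
  have hlu : (l : ℤ) ∈ v.asIdeal.under ℤ := by
    rw [Ideal.mem_comap]
    simpa using hlP
  have hne : v.asIdeal.under ℤ ≠ ⊥ := by
    intro h
    rw [h, Ideal.mem_bot] at hlu
    exact hpr.ne_zero hlu
  have hsp : Ideal.span {(l : ℤ)} = v.asIdeal.under ℤ := by
    have hmax : (Ideal.span {(l : ℤ)}).IsMaximal :=
      PrincipalIdealRing.isMaximal_of_irreducible hpr.irreducible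
    refine hmax.eq_of_le ?_ ?_
    · exact (Ideal.IsPrime.under ℤ v.asIdeal).ne_top
    · rw [Ideal.span_singleton_le_iff_mem]
      exact hlu
  have hmap : ∀ m : ℕ, Ideal.map (algebraMap ℤ (𝓞 F)) (v.asIdeal.under ℤ) ≤ v.asIdeal ^ m ↔
      (l : 𝓞 F) ∈ v.asIdeal ^ m := by
    intro m
    rw [← hsp, Ideal.map_span, Set.image_singleton, Ideal.span_singleton_le_iff_mem]
    simp
  have h3 : (v.asIdeal.under ℤ).ramificationIdx' v.asIdeal = n :=
    Ideal.ramificationIdx'_spec ((hmap n).2 h1) fun h => h2 ((hmap (n + 1)).1 h)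
  rw [Ideal.ramificationIdx'_eq_ramificationIdx (v.asIdeal.under ℤ) v.asIdeal hne] at h3
  have h0 : (l : F) = algebraMap (𝓞 F) F (l : 𝓞 F) := by simp
  rw [h0, v.valuation_of_algebraMap, hn, h3]

/-- The values of a number field `F`, embedded into the field of algebraic numbers, at `W`. -/
theorem values_Ram {F : Type} [Field F] [NumberField F] (j : F →+* QQ) {l : ℕ}
    (hl : l.Prime) {W : ValuationSubring QQ} (hW : (l : QQ) ∈ W.nonunits) (P : Ideal (𝓞 F))
    [hP : P.IsPrime] (hPW : ∀ x : 𝓞 F, x ∈ P ↔ W.valuation (j x) < 1) :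
    ∃ π : F, π ≠ 0 ∧ W.valuation (j π) < 1 ∧
      (∀ c : F, c ≠ 0 → ∃ n : ℤ, W.valuation (j c) = W.valuation (j π) ^ n) ∧
      W.valuation (l : QQ) = W.valuation (j π) ^ (P.ramificationIdx ℤ) := by
  have hl0 : (l : 𝓞 F) ≠ 0 := by exact_mod_cast hl.ne_zero
  have hWl : W.valuation (l : QQ) < 1 := (W.mem_nonunits_iff).1 hW
  have hlP : (l : 𝓞 F) ∈ P := by
    rw [hPW]
    have h1 : j ((l : 𝓞 F) : F) = (l : QQ) := by simp
    rw [h1]
    exact hWl
  have hPne : P ≠ ⊥ := by
    intro h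
    rw [h, Ideal.mem_bot] at hlP
    exact hl0 hlP
  have hO : ∀ x : 𝓞 F, j x ∈ W := fun x =>
    int_mem_Ram W ((RingOfIntegers.isIntegral_coe x).map j.toIntAlgHom)
  obtain ⟨v, rfl⟩ : ∃ v : HeightOneSpectrum (𝓞 F), v.asIdeal = P := ⟨⟨P, hP, hPne⟩, rfl⟩
  have key : ∀ x : F, v.valuation F x ≤ 1 → W.valuation (j x) ≤ 1 := by
    intro x hx
    obtain ⟨n, e, hne⟩ := v.exists_primeCompl_mul_eq_of_integer (K := F) x hx
    have h1 : W.valuation (j (n : F)) ≤ 1 := (W.valuation_le_one_iff _).2 (hO n)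
    have h2 : W.valuation (j ((e : 𝓞 F) : F)) = 1 := by
      refine le_antisymm ((W.valuation_le_one_iff _).2 (hO _)) ?_
      exact not_lt.1 fun h => e.2 ((hPW _).2 h)
    have h3 : j x * j ((e : 𝓞 F) : F) = j (n : F) := by
      rw [← map_mul]
      exact congrArg j hne
    rw [← h3, map_mul, h2, mul_one] at h1
    exact h1
  have key2 : ∀ x : F, v.valuation F x = 1 → W.valuation (j x) = 1 := by
    intro x hx
    have hx0 : x ≠ 0 := by
      rintro rfl
      rw [map_zero] at hx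
      exact zero_ne_one hx
    have h1 := key x hx.le
    have h2 := key x⁻¹ (by rw [map_inv₀, hx, inv_one])
    rw [map_inv₀, map_inv₀] at h2
    have h3 : W.valuation (j x) ≠ 0 := (Valuation.ne_zero_iff _).2
      ((map_ne_zero_iff j j.injective).2 hx0)
    refine le_antisymm h1 ?_
    exact (inv_le_one₀ (zero_lt_iff.2 h3)).1 h2
  obtain ⟨π, hπ⟩ := v.valuation_exists_uniformizer F
  have hπ0 : π ≠ 0 := by
    rintro rfl
    rw [map_zero] at hπ
    exact WithZero.exp_ne_zero hπ.symm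
  have key3 : ∀ (x : F) (n : ℤ), v.valuation F x = WithZero.exp (-n) →
      W.valuation (j x) = W.valuation (j π) ^ n := by
    intro x n hx
    have h1 : v.valuation F (x / π ^ n) = 1 := by
      rw [map_div₀, map_zpow₀, hx, hπ, ← WithZero.exp_zsmul]
      have h2 : n • (-1 : ℤ) = -n := by rw [smul_eq_mul]; ring
      rw [h2]
      exact div_self WithZero.exp_ne_zero
    have h3 := key2 _ h1
    have h4 : W.valuation (j π) ≠ 0 := (Valuation.ne_zero_iff _).2
      ((map_ne_zero_iff j j.injective).2 hπ0)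
    rw [map_div₀, map_div₀, map_zpow₀, map_zpow₀] at h3
    exact (div_eq_one_iff_eq (zpow_ne_zero n h4)).1 h3
  have hWlπ : W.valuation (l : QQ) = W.valuation (j π) ^ (v.asIdeal.ramificationIdx ℤ) := by
    have h1 := key3 (l : F) _ (idx_Ram hl v hlP)
    rw [map_natCast, zpow_natCast] at h1
    exact h1
  refine ⟨π, hπ0, ?_, ?_, hWlπ⟩
  · have h1 := key π (by
      rw [hπ, ← WithZero.exp_zero, WithZero.exp_le_exp]
      norm_num)
    refine lt_of_le_of_ne h1 fun h => ?_
    rw [h, one_pow] at hWlπ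
    exact hWl.ne hWlπ
  · intro c hc
    have hvc : v.valuation F c ≠ 0 := (Valuation.ne_zero_iff _).2 hc
    refine ⟨-WithZero.log (v.valuation F c), key3 c _ ?_⟩
    rw [neg_neg, WithZero.exp_log hvc]

end Values

section Core

variable {N : Type} [Field N] [NumberField N]

/-- The discriminant criterion, with ramification indices. -/
private theorem not_dvd_iff_Ram {l : ℕ} (hl : l.Prime) :
    ¬ (l : ℤ) ∣ discr N ↔ ∀ (P : Ideal (𝓞 N)) [P.IsPrime], (l : 𝓞 N) ∈ P →
      P.ramificationIdx ℤ = 1 := by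
  have hpr : Prime (l : ℤ) := Nat.prime_iff_prime_int.1 hl
  rw [NumberField.not_dvd_discr_iff_forall_mem N (𝓞 N) hpr]
  constructor
  · intro h P hP hlP
    exact Ideal.ramificationIdx_eq_one_iff.2 (h P hP (by exact_mod_cast hlP))
  · intro h P hP hlP
    exact Ideal.ramificationIdx_eq_one_iff.1 (h P (by exact_mod_cast hlP))

theorem card_inertia_Ram [IsGalois ℚ N] (E : IntermediateField ℚ N)
    (P : Ideal (𝓞 N)) [P.IsPrime] :
    Nat.card (P.inertia Gal(N/ℚ)) = (P.under (𝓞 E)).ramificationIdx ℤ *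
      Nat.card ↥(P.inertia Gal(N/ℚ) ⊓ fixingSubgroup Gal(N/ℚ) (E : Set N)) := by
  have i1 : IsGaloisGroup Gal(N/ℚ) ℤ (𝓞 N) :=
    IsGaloisGroup.of_isFractionRing Gal(N/ℚ) ℤ (𝓞 N) ℚ N
  have i2 : IsGaloisGroup (fixingSubgroup Gal(N/ℚ) (E : Set N)) (𝓞 E) (𝓞 N) :=
    IsGaloisGroup.of_isFractionRing _ (𝓞 E) (𝓞 N) E N
  have h0 : Nat.card (P.inertia (fixingSubgroup Gal(N/ℚ) (E : Set N))) =
      Nat.card ↥(P.inertia Gal(N/ℚ) ⊓ fixingSubgroup Gal(N/ℚ) (E : Set N)) := by
    have h0 : Nat.card (P.inertia (fixingSubgroup Gal(N/ℚ) (E : Set N))) =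
      Nat.card ((P.inertia Gal(N/ℚ)).subgroupOf (fixingSubgroup Gal(N/ℚ) (E : Set N))) := rfl
    rw [h0]
    rw [← Subgroup.subgroupOf_map_subtype]
    exact (Nat.card_congr (Subgroup.equivMapOfInjective _ _
      (Subgroup.subtype_injective _)).toEquiv)
  have h1 := Ideal.card_inertia_eq_ramificationIdxIn (G := Gal(N/ℚ)) (P.under ℤ) P
  rw [Ideal.ramificationIdxIn_eq_ramificationIdx (P.under ℤ) P Gal(N/ℚ)] at h1
  have h2 := Ideal.card_inertia_eq_ramificationIdxIn
    (G := fixingSubgroup Gal(N/ℚ) (E : Set N)) (P.under (𝓞 E)) P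
  rw [Ideal.ramificationIdxIn_eq_ramificationIdx (P.under (𝓞 E)) P
    (fixingSubgroup Gal(N/ℚ) (E : Set N))] at h2
  rw [← h0, h1, h2]
  exact Ideal.ramificationIdx_tower (P.under (𝓞 E)) P

private theorem inertia_le_Ram [IsGalois ℚ N] (E : IntermediateField ℚ N)
    (P : Ideal (𝓞 N)) [P.IsPrime] (h2 : (P.under (𝓞 E)).ramificationIdx ℤ = 1) :
    P.inertia Gal(N/ℚ) ≤ fixingSubgroup Gal(N/ℚ) (E : Set N) := by
  have h := card_inertia_Ram E P
  rw [h2, one_mul] at h
  have h3 := Subgroup.eq_of_le_of_card_ge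
    (inf_le_left : P.inertia Gal(N/ℚ) ⊓ fixingSubgroup Gal(N/ℚ) (E : Set N) ≤ _) h.le
  rw [← h3]
  exact inf_le_right

private theorem idx_sup_Ram [IsGalois ℚ N] (E L : IntermediateField ℚ N)
    (P : Ideal (𝓞 N)) [P.IsPrime] (hL : (P.under (𝓞 L)).ramificationIdx ℤ = 1) :
    (P.under (𝓞 ↥(E ⊔ L))).ramificationIdx ℤ = (P.under (𝓞 E)).ramificationIdx ℤ := by
  have h1 := card_inertia_Ram E P
  have h2 := card_inertia_Ram (E ⊔ L) P
  have h3 : fixingSubgroup Gal(N/ℚ) ((E ⊔ L : IntermediateField ℚ N) : Set N) =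
      fixingSubgroup Gal(N/ℚ) (E : Set N) ⊓ fixingSubgroup Gal(N/ℚ) (L : Set N) :=
    IntermediateField.fixingSubgroup_sup
  rw [h3, ← inf_assoc, inf_right_comm, inf_eq_left.2 (inertia_le_Ram L P hL), h1] at h2
  have hpos : 0 < Nat.card ↥(P.inertia Gal(N/ℚ) ⊓ fixingSubgroup Gal(N/ℚ) (E : Set N)) :=
    Nat.card_pos
  exact (Nat.eq_of_mul_eq_mul_right hpos h2).symm

private theorem core_Ram [IsGalois ℚ N] (j : N →+* QQ) (E L : IntermediateField ℚ N) {l : ℕ}
    (hl : l.Prime) (hd : ¬ (l : ℤ) ∣ discr L) {W : ValuationSubring QQ}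
    (hW : (l : QQ) ∈ W.nonunits) {b : N} (hb : b ∈ E ⊔ L) (hb0 : b ≠ 0) :
    ∃ c ∈ E, c ≠ 0 ∧ W.valuation (j b) = W.valuation (j c) := by
  have hO : ∀ x : 𝓞 N, j x ∈ W := fun x =>
    int_mem_Ram W ((RingOfIntegers.isIntegral_coe x).map j.toIntAlgHom)
  let f : 𝓞 N →+* W :=
    { toFun := fun x => ⟨j x, hO x⟩
      map_one' := Subtype.ext (map_one j)
      map_mul' := fun x y => Subtype.ext (map_mul j (x : N) y)
      map_zero' := Subtype.ext (map_zero j)
      map_add' := fun x y => Subtype.ext (map_add j (x : N) y) }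
  obtain ⟨P, hPdef⟩ : ∃ P : Ideal (𝓞 N), P = (IsLocalRing.maximalIdeal W).comap f := ⟨_, rfl⟩
  have hPmem : ∀ x : 𝓞 N, x ∈ P ↔ W.valuation (j x) < 1 := by
    intro x
    rw [hPdef, Ideal.mem_comap, ValuationSubring.valuation_lt_one_iff]
    rfl
  have hP : P.IsPrime := by
    rw [hPdef]
    exact Ideal.comap_isPrime _ _
  have hlP : (l : 𝓞 N) ∈ P := by
    rw [hPmem]
    have h1 : j ((l : 𝓞 N) : N) = (l : QQ) := by simp
    rw [h1]
    exact (W.mem_nonunits_iff).1 hW
  have hL : (P.under (𝓞 L)).ramificationIdx ℤ = 1 := by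
    refine (not_dvd_iff_Ram hl).1 hd (P.under (𝓞 L)) ?_
    rw [Ideal.mem_comap, map_natCast]
    exact hlP
  have hidx := idx_sup_Ram E L P hL
  have hmem : ∀ (A : IntermediateField ℚ N) (x : 𝓞 A), x ∈ P.under (𝓞 A) ↔
      W.valuation ((j.comp (algebraMap A N)) x) < 1 := by
    intro A x
    rw [Ideal.mem_comap, hPmem]
    rfl
  obtain ⟨π, hπ0, hπ1, -, hπl⟩ := values_Ram (j.comp (algebraMap E N)) hl hW
    (P.under (𝓞 E)) (hmem E)
  obtain ⟨ϖ, hϖ0, hϖ1, hϖ, hϖl⟩ := values_Ram (j.comp (algebraMap ↥(E ⊔ L) N)) hl hW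
    (P.under (𝓞 ↥(E ⊔ L))) (hmem (E ⊔ L))
  rw [hidx] at hϖl
  set e := (P.under (𝓞 E)).ramificationIdx ℤ with he
  have hW1 : W.valuation (l : QQ) < 1 := (W.mem_nonunits_iff).1 hW
  have he0 : e ≠ 0 := by
    intro h
    rw [h, pow_zero] at hπl
    exact hW1.ne hπl
  have heq : W.valuation ((j.comp (algebraMap E N)) π) =
      W.valuation ((j.comp (algebraMap ↥(E ⊔ L) N)) ϖ) := by
    have h1 := hπl.symm.trans hϖl
    exact (pow_left_inj₀ zero_le zero_le he0).1 h1
  obtain ⟨n, hn⟩ := hϖ ⟨b, hb⟩ (fun h => hb0 (congrArg Subtype.val h))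
  refine ⟨(π : N) ^ n, zpow_mem π.2 n, zpow_ne_zero n (fun h => hπ0 (Subtype.ext h)), ?_⟩
  rw [← heq] at hn
  have h1 : (j.comp (algebraMap ↥(E ⊔ L) N)) ⟨b, hb⟩ = j b := rfl
  have h2 : (j.comp (algebraMap E N)) π = j (π : N) := rfl
  rw [h1, h2] at hn
  rw [hn, map_zpow₀, map_zpow₀]

end Core

theorem numberField_Ram (L : IntermediateField ℚ QQ) [FiniteDimensional ℚ L] :
    NumberField L := by
  have h0 : CharZero L := inferInstance
  refine { to_charZero := h0, to_finiteDimensional := ?_ }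
  have h1 : FiniteDimensional ℚ L := inferInstance
  convert h1

theorem finite_Ram (L : IntermediateField ℚ QQ) [NumberField L] :
    FiniteDimensional ℚ L := by
  have h1 : FiniteDimensional ℚ L := NumberField.to_finiteDimensional
  convert h1

theorem normal_Ram : Normal ℚ QQ := by
  have h : @Normal ℚ QQ _ _ (AlgebraicClosure.instAlgebra ℚ) :=
    @IsAlgClosure.normal ℚ QQ _ _ (AlgebraicClosure.instAlgebra ℚ) inferInstance
  have e : (DivisionRing.toRatAlgebra : Algebra ℚ QQ) = AlgebraicClosure.instAlgebra ℚ :=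
    Subsingleton.elim _ _
  rw [e]
  exact h

theorem exists_fin_Ram {K₁ K₂ : IntermediateField ℚ QQ} {x : QQ} (hx : x ∈ K₁ ⊔ K₂) :
    ∃ E₁ E₂ : IntermediateField ℚ QQ, E₁ ≤ K₁ ∧ E₂ ≤ K₂ ∧ FiniteDimensional ℚ E₁ ∧
      FiniteDimensional ℚ E₂ ∧ x ∈ E₁ ⊔ E₂ := by
  classical
  have h1 : x ∈ IntermediateField.adjoin ℚ ((K₁ : Set QQ) ∪ K₂) := by
    have h2 : K₁ ⊔ K₂ ≤ IntermediateField.adjoin ℚ ((K₁ : Set QQ) ∪ K₂) :=
      sup_le (fun y hy => IntermediateField.subset_adjoin _ _ (Or.inl hy))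
        (fun y hy => IntermediateField.subset_adjoin _ _ (Or.inr hy))
    exact h2 hx
  obtain ⟨T, hT, hxT⟩ := IntermediateField.exists_finset_of_mem_adjoin h1
  have halg : ∀ y : QQ, IsIntegral ℚ y := fun y =>
    (AlgebraicClosure.isAlgebraic ℚ).isIntegral.isIntegral y
  have hfin : ∀ U : Finset QQ, FiniteDimensional ℚ (IntermediateField.adjoin ℚ (U : Set QQ)) :=
    fun U => by
      have : Finite (U : Set QQ) := inferInstance
      exact IntermediateField.finiteDimensional_adjoin fun y _ => halg y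
  refine ⟨IntermediateField.adjoin ℚ ((T.filter (· ∈ K₁) : Finset QQ) : Set QQ),
    IntermediateField.adjoin ℚ ((T.filter (· ∈ K₂) : Finset QQ) : Set QQ), ?_, ?_,
    hfin _, hfin _, ?_⟩
  · rw [IntermediateField.adjoin_le_iff]
    intro y hy
    exact (Finset.mem_filter.1 (Finset.mem_coe.1 hy)).2
  · rw [IntermediateField.adjoin_le_iff]
    intro y hy
    exact (Finset.mem_filter.1 (Finset.mem_coe.1 hy)).2
  · have h3 : IntermediateField.adjoin ℚ (T : Set QQ) ≤
        IntermediateField.adjoin ℚ ((T.filter (· ∈ K₁) : Finset QQ) : Set QQ) ⊔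
          IntermediateField.adjoin ℚ ((T.filter (· ∈ K₂) : Finset QQ) : Set QQ) := by
      rw [IntermediateField.adjoin_le_iff]
      intro y hy
      rcases hT hy with h | h
      · have h4 := IntermediateField.subset_adjoin ℚ ((T.filter (· ∈ K₁) : Finset QQ) : Set QQ)
          (Finset.mem_coe.2 (Finset.mem_filter.2 ⟨Finset.mem_coe.1 hy, h⟩))
        exact SetLike.le_def.1 le_sup_left h4
      · have h4 := IntermediateField.subset_adjoin ℚ ((T.filter (· ∈ K₂) : Finset QQ) : Set QQ)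
          (Finset.mem_coe.2 (Finset.mem_filter.2 ⟨Finset.mem_coe.1 hy, h⟩))
        exact SetLike.le_def.1 le_sup_right h4
    exact h3 hxT

private theorem core_alg_Ram {N : Type} [Field N] [NumberField N] {i : Algebra ℚ N}
    (hG : @IsGalois ℚ _ N _ i) (j : N →+* QQ) (E L : @IntermediateField ℚ N _ _ i)
    (_ : NumberField L) {l : ℕ} (hl : l.Prime) (hd : ¬ (l : ℤ) ∣ discr L)
    {W : ValuationSubring QQ} (hW : (l : QQ) ∈ W.nonunits) {b : N} (hb : b ∈ E ⊔ L)
    (hb0 : b ≠ 0) : ∃ c ∈ E, c ≠ 0 ∧ W.valuation (j b) = W.valuation (j c) := by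
  have h : i = DivisionRing.toRatAlgebra := Subsingleton.elim _ _
  subst h
  exact core_Ram j E L hl hd hW hb hb0

/-- Let `L` be a number field, the discriminant of which is not divisible by the prime number `l`.
Then the values of `K L` at a valuation ring above `l` are values of `K`, for all fields `K` of
algebraic numbers. -/
theorem value_sup {K L : IntermediateField ℚ QQ} [NumberField L] {l : ℕ} (hl : l.Prime)
    (hd : ¬ (l : ℤ) ∣ discr L) {W : ValuationSubring QQ} (hW : (l : QQ) ∈ W.nonunits) {b : QQ}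
    (hb : b ∈ K ⊔ L) (hb0 : b ≠ 0) : ∃ c ∈ K, c ≠ 0 ∧ W.valuation b = W.valuation c := by
  obtain ⟨E, E₂, hE, hE₂, hf, -, hmem⟩ := exists_fin_Ram hb
  have hmem' : b ∈ E ⊔ L := (sup_le_sup_left hE₂ E) hmem
  have hLf : FiniteDimensional ℚ L := finite_Ram L
  have hnQ : Normal ℚ QQ := normal_Ram
  obtain ⟨N, hN, hNf, hNn⟩ : ∃ N : IntermediateField ℚ QQ, E ⊔ L ≤ N ∧
      FiniteDimensional ℚ N ∧ @Normal ℚ N _ _ N.algebra' :=
    ⟨IntermediateField.normalClosure ℚ ↥(E ⊔ L) QQ, IntermediateField.le_normalClosure _,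
      inferInstance, normalClosure.normal ℚ _ _⟩
  have : NumberField N := numberField_Ram N
  have hG : @IsGalois ℚ _ N _ N.algebra' :=
    @IsGalois.mk ℚ _ N _ N.algebra' inferInstance hNn
  have j2 : NumberField ↥(IntermediateField.restrict (le_sup_right.trans hN : L ≤ N)) :=
    NumberField.of_ringEquiv _ _ (IntermediateField.restrictAlgEquiv
      (le_sup_right.trans hN : L ≤ N)).toRingEquiv
  have k2 : ¬ (l : ℤ) ∣ discr ↥(IntermediateField.restrict (le_sup_right.trans hN : L ≤ N)) := by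
    rw [← discr_eq_discr_of_ringEquiv _ (IntermediateField.restrictAlgEquiv
      (le_sup_right.trans hN : L ≤ N)).toRingEquiv]
    exact hd
  have k4 : IntermediateField.restrict (le_sup_left.trans hN : E ≤ N) ⊔
      IntermediateField.restrict (le_sup_right.trans hN : L ≤ N) =
      IntermediateField.restrict hN := by
    apply IntermediateField.lift_injective
    rw [IntermediateField.lift_sup, IntermediateField.lift_restrict,
      IntermediateField.lift_restrict, IntermediateField.lift_restrict]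
  have k5 : (⟨b, hN hmem'⟩ : N) ∈ IntermediateField.restrict (le_sup_left.trans hN : E ≤ N) ⊔
      IntermediateField.restrict (le_sup_right.trans hN : L ≤ N) := by
    rw [k4, IntermediateField.mem_restrict]
    exact hmem'
  obtain ⟨c, hc, hc0, hcW⟩ := core_alg_Ram hG (algebraMap N QQ) _ _ j2 hl k2 hW k5
    (fun h => hb0 (congrArg Subtype.val h))
  refine ⟨c, hE ((IntermediateField.mem_restrict _ _).1 hc), fun h => hc0 (Subtype.ext h), hcW⟩

/-- Let `L` be a number field, the discriminant of which is not divisible by the prime number `l`.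
Then the values of `L` at a valuation ring above `l` are powers of the value of `l`. -/
theorem value_unr {L : IntermediateField ℚ QQ} [NumberField L] {l : ℕ} (hl : l.Prime)
    (hd : ¬ (l : ℤ) ∣ discr L) {W : ValuationSubring QQ} (hW : (l : QQ) ∈ W.nonunits) {c : QQ}
    (hc : c ∈ L) (hc0 : c ≠ 0) : ∃ m : ℤ, W.valuation c = W.valuation (l : QQ) ^ m := by
  have hO : ∀ x : 𝓞 L, algebraMap L QQ x ∈ W := fun x =>
    int_mem_Ram W ((RingOfIntegers.isIntegral_coe x).map (algebraMap L QQ).toIntAlgHom)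
  let f : 𝓞 L →+* W :=
    { toFun := fun x => ⟨algebraMap L QQ x, hO x⟩
      map_one' := rfl
      map_mul' := fun _ _ => rfl
      map_zero' := rfl
      map_add' := fun _ _ => rfl }
  obtain ⟨P, hPdef⟩ : ∃ P : Ideal (𝓞 L), P = (IsLocalRing.maximalIdeal W).comap f := ⟨_, rfl⟩
  have hPmem : ∀ x : 𝓞 L, x ∈ P ↔ W.valuation (algebraMap L QQ x) < 1 := by
    intro x
    rw [hPdef, Ideal.mem_comap, ValuationSubring.valuation_lt_one_iff]
    rfl
  have hP : P.IsPrime := by
    rw [hPdef]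
    exact Ideal.comap_isPrime _ _
  have hlP : (l : 𝓞 L) ∈ P := by
    rw [hPmem]
    have h1 : algebraMap L QQ ((l : 𝓞 L) : L) = (l : QQ) := by simp
    rw [h1]
    exact (W.mem_nonunits_iff).1 hW
  obtain ⟨π, -, -, hπ, hπl⟩ := values_Ram (algebraMap L QQ) hl hW P hPmem
  rw [(not_dvd_iff_Ram hl).1 hd P hlP, pow_one] at hπl
  obtain ⟨n, hn⟩ := hπ ⟨c, hc⟩ (fun h => hc0 (congrArg Subtype.val h))
  refine ⟨n, ?_⟩
  rw [hπl]
  exact hn

end Pool.Agent.Clo
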