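import Pool.Agent.Clo.BNoAlt
import Pool.Agent.Clo.MDeg
import Pool.Agent.Clo.Ram

/-!
# Examples of normal extensions without large alternating groups

`noAlt_sup`: the class of the fields with `NoAlt n` (`n ≥ 5`) is closed under composita.
`noAlt_finite`: finite normal extensions of `ℚ`. `noAlt_of_solvable`: extensions `K` of a finite
normal extension `F` of `ℚ` which are normal over `ℚ`, such that the Galois groups of the minimal
polynomials over `F` of the elements of `K` are solvable; in particular `noAlt_rad`: all algebraic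
numbers which can be expressed by radicals and elements of a number field; `noAlt_rad_bot`: all
algebraic numbers which can be expressed by radicals, with `n = 5`. `noAlt_degree`: the field
generated by all algebraic numbers of degree at most `d`, with `n = max (5, 2 d)`.

The proofs use that the alternating group of degree `N ≥ 5` is simple, so that a normal subgroup of
a group which is mapped onto it is mapped to the trivial group or onto it; a prime number between
`d` and `2 d` does not divide the order of `σ` on the field generated by the numbers of degree at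
most `d`, since `σ ^ d! = 1`.
-/

set_option autoImplicit false

noncomputable section

namespace Pool.Agent.Clo

open Pool.Agent.ZCyc Pool.Agent.Dess

section Groups

private theorem alt_not_solvable {N : ℕ} (hN : 5 ≤ N) :
    ¬ Group.IsSolvable (alternatingGroup (Fin N)) := by
  intro h
  refine Equiv.Perm.not_isSolvable (Fin N) ?_ ?_
  · rw [Cardinal.mk_fin]
    exact_mod_cast hN
  · refine Group.isSolvable_of_ker_le_range (alternatingGroup (Fin N)).subtype
      (Equiv.Perm.sign : Equiv.Perm (Fin N) →* ℤˣ) ?_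
    rw [Subgroup.range_subtype]
    exact le_rfl

/-- A surjective homomorphism with a kernel containing the kernel of a homomorphism to a solvable
group has solvable values. -/
private theorem solvable_of_ker {Q A S : Type*} [Group Q] [Group A] [Group S]
    [Group.IsSolvable S] (f : Q →* A) (h : Q →* S) (hf : Function.Surjective f)
    (hk : h.ker ≤ f.ker) : Group.IsSolvable A := by
  have hk' : h.rangeRestrict.ker ≤ f.ker := by
    rw [MonoidHom.ker_rangeRestrict]
    exact hk
  refine Group.isSolvable_of_surjective (f := MonoidHom.liftOfSurjective h.rangeRestrict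
    h.rangeRestrict_surjective ⟨f, hk'⟩) ?_
  intro y
  obtain ⟨x, rfl⟩ := hf y
  exact ⟨h.rangeRestrict x, MonoidHom.liftOfRightInverse_comp_apply _ _ _ _ _⟩

/-- A normal subgroup of a group with a surjection to a large alternating group is either mapped to
the trivial group or onto it. -/
private theorem alt_dichotomy {Q : Type*} [Group Q] {N : ℕ} (hN : 5 ≤ N)
    (f : Q →* alternatingGroup (Fin N)) (hf : Function.Surjective f) (H : Subgroup Q)
    [hH : H.Normal] : H ≤ f.ker ∨ Function.Surjective (f.comp H.subtype) := by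
  have h5 : 5 ≤ Nat.card (Fin N) := by
    rw [Nat.card_eq_fintype_card, Fintype.card_fin]
    exact hN
  have := alternatingGroup.isSimpleGroup (α := Fin N) h5
  have h1 : (H.map f).Normal := hH.map f hf
  rcases h1.eq_bot_or_eq_top with h | h
  · left
    intro x hx
    have h2 : f x ∈ H.map f := ⟨x, hx, rfl⟩
    rw [h] at h2
    exact h2
  · right
    intro y
    have h2 : y ∈ H.map f := by
      rw [h]
      exact Subgroup.mem_top y
    obtain ⟨x, hx, hy⟩ := h2
    exact ⟨⟨x, hx⟩, hy⟩

end Groups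

section Fields

theorem normal_iff_NoAltEx (K : IntermediateField ℚ QQ) :
    Normal ℚ K ↔ ∀ σ : Gam, ∀ x ∈ K, σ x ∈ K := by
  have hnQ : Normal ℚ QQ := normal_Ram
  have h : K.algebra' = DivisionRing.toRatAlgebra := Subsingleton.elim _ _
  have h1 : @Normal ℚ K _ _ K.algebra' ↔ ∀ σ : Gam, ∀ x ∈ K, σ x ∈ K := by
    rw [IntermediateField.normal_iff_forall_map_le']
    refine forall_congr' fun σ => ?_
    constructor
    · intro h x hx
      exact h ⟨x, hx, rfl⟩
    · rintro h _ ⟨x, hx, rfl⟩
      exact h x hx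
  rw [h] at h1
  exact h1

private theorem exists_normal_gen {k L : Type*} [Field k] [Field L] [Algebra k L] [Normal k L]
    {K E : IntermediateField k L} (hK : Normal k K) (hE : E ≤ K) (hf : FiniteDimensional k E) :
    ∃ E' : IntermediateField k L, E ≤ E' ∧ E' ≤ K ∧ FiniteDimensional k E' ∧ Normal k E' := by
  refine ⟨IntermediateField.normalClosure k E L, IntermediateField.le_normalClosure _, ?_,
    inferInstance, normalClosure.normal k _ _⟩
  rw [IntermediateField.normalClosure_def'', iSup_le_iff]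
  intro σ
  rw [IntermediateField.normal_iff_forall_map_le'] at hK
  exact (IntermediateField.map_mono _ hE).trans (hK σ)

theorem exists_normal_NoAltEx {K E : IntermediateField ℚ QQ} (hK : Normal ℚ K)
    (hE : E ≤ K) (hf : FiniteDimensional ℚ E) :
    ∃ E' : IntermediateField ℚ QQ, E ≤ E' ∧ E' ≤ K ∧ FiniteDimensional ℚ E' ∧ Normal ℚ E' := by
  have hnQ : Normal ℚ QQ := normal_Ram
  have h : ∀ E : IntermediateField ℚ QQ, E.algebra' = DivisionRing.toRatAlgebra :=
    fun E => Subsingleton.elim _ _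
  have hK' : @Normal ℚ K _ _ K.algebra' := by
    rw [h K]
    exact hK
  obtain ⟨E', h1, h2, h3, h4⟩ := exists_normal_gen hK' hE hf
  refine ⟨E', h1, h2, h3, ?_⟩
  rw [h E'] at h4
  exact h4

/-- restriction -/
private theorem exists_res {E : IntermediateField ℚ QQ} (hE : Normal ℚ E) :
    ∃ r : Gam →* (E ≃ₐ[ℚ] E), Function.Surjective r ∧
      ∀ (ρ : Gam) (x : E), ((r ρ x : E) : QQ) = ρ x := by
  have hnQ : Normal ℚ QQ := normal_Ram
  have hst : IsScalarTower ℚ E QQ := IsScalarTower.of_algebraMap_eq' (Subsingleton.elim _ _)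
  exact ⟨AlgEquiv.restrictNormalHom E, AlgEquiv.restrictNormalHom_surjective QQ,
    fun ρ x => AlgEquiv.restrictNormal_commutes ρ E x⟩

/-- A criterion in terms of the absolute Galois group. -/
theorem noAlt_of_gam {n : ℕ} {K : IntermediateField ℚ QQ} (hK : Normal ℚ K)
    (h : ∀ E : IntermediateField ℚ QQ, E ≤ K → FiniteDimensional ℚ E → Normal ℚ E →
      ∀ N : ℕ, n ≤ N → ∀ (Q : Subgroup Gam) (f : Q →* alternatingGroup (Fin N)),
        (∀ ρ : Q, (∀ c ∈ E, (ρ : Gam) c = c) → f ρ = 1) → ¬ Function.Surjective f) :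
    NoAlt n K := by
  refine ⟨hK, fun E hE hfin hn N hN P f hf => ?_⟩
  obtain ⟨r, hr, hr'⟩ := exists_res hn
  refine h E hE hfin hn N hN (P.comap r) (f.comp (r.subgroupComap P)) ?_ ?_
  · intro ρ hρ
    have h1 : r.subgroupComap P ρ = 1 := by
      apply Subtype.ext
      apply AlgEquiv.ext
      intro x
      apply Subtype.ext
      exact (hr' ρ x).trans (hρ x x.2)
    rw [MonoidHom.comp_apply, h1, map_one]
  · exact hf.comp (r.subgroupComap_surjective_of_surjective P hr)

/-- The condition in terms of the absolute Galois group. -/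
theorem noAlt_gam {n : ℕ} {K : IntermediateField ℚ QQ} (h : NoAlt n K)
    {E : IntermediateField ℚ QQ} (hE : E ≤ K) (hfin : FiniteDimensional ℚ E) (hn : Normal ℚ E)
    {N : ℕ} (hN : n ≤ N) (Q : Subgroup Gam) (f : Q →* alternatingGroup (Fin N))
    (hf : ∀ ρ : Q, (∀ c ∈ E, (ρ : Gam) c = c) → f ρ = 1) : ¬ Function.Surjective f := by
  intro hs
  obtain ⟨r, hr, hr'⟩ := exists_res hn
  have hk : (r.subgroupMap Q).ker ≤ f.ker := by
    intro ρ hρ
    refine hf ρ fun c hc => ?_
    have h1 : r ρ = 1 := congrArg Subtype.val (MonoidHom.mem_ker.1 hρ)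
    have h2 := hr' ρ ⟨c, hc⟩
    rw [h1] at h2
    exact h2.symm
  refine h.2 E hE hfin hn N hN (Q.map r) (MonoidHom.liftOfSurjective (r.subgroupMap Q)
    (r.subgroupMap_surjective Q) ⟨f, hk⟩) fun y => ?_
  obtain ⟨x, rfl⟩ := hs y
  exact ⟨r.subgroupMap Q x, MonoidHom.liftOfRightInverse_comp_apply _ _ _ _ _⟩

theorem noAlt_mono {n m : ℕ} (h : n ≤ m) {K : IntermediateField ℚ QQ} (hK : NoAlt n K) :
    NoAlt m K :=
  ⟨hK.1, fun E hE hf hn N hN => hK.2 E hE hf hn N (h.trans hN)⟩

private theorem le_card_alt {N : ℕ} (hN : 5 ≤ N) : N ≤ Nat.card (alternatingGroup (Fin N)) := by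
  have : Nontrivial (Fin N) := Fin.nontrivial_iff_two_le.2 (by omega)
  have h1 := two_mul_nat_card_alternatingGroup (α := Fin N)
  rw [Nat.card_perm, Nat.card_fin] at h1
  have h2 : 2 * N ≤ N.factorial := by
    obtain ⟨m, rfl⟩ : ∃ m, N = m + 3 := ⟨N - 3, by omega⟩
    rw [Nat.factorial_succ, Nat.factorial_succ]
    have h3 : 1 ≤ (m + 1).factorial := Nat.factorial_pos _
    have h4 : 2 ≤ (m + 1 + 1) * (m + 1).factorial := by
      calc 2 ≤ (m + 1 + 1) * 1 := by omega
        _ ≤ (m + 1 + 1) * (m + 1).factorial := Nat.mul_le_mul_left _ h3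
    calc 2 * (m + 3) = (m + 2 + 1) * 2 := by ring
      _ ≤ _ := Nat.mul_le_mul_left _ h4
  omega

/-- Number fields: the order of the Galois group is at most the degree. -/
theorem noAlt_finite {F : IntermediateField ℚ QQ} (hf : FiniteDimensional ℚ F)
    (hn : Normal ℚ F) {n : ℕ} (h5 : 5 ≤ n) (h : Nat.card (F ≃ₐ[ℚ] F) < n) : NoAlt n F := by
  refine noAlt_of_gam hn fun E hE _ _ N hN Q f hf' hs => ?_
  obtain ⟨r, hr, hr'⟩ := exists_res hn
  have hk : (r.subgroupMap Q).ker ≤ f.ker := by
    intro ρ hρ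
    refine hf' ρ fun c hc => ?_
    have h1 : r ρ = 1 := congrArg Subtype.val (MonoidHom.mem_ker.1 hρ)
    have h2 := hr' ρ ⟨c, hE hc⟩
    rw [h1] at h2
    exact h2.symm
  let f' : Q.map r →* alternatingGroup (Fin N) := MonoidHom.liftOfSurjective
    (r.subgroupMap Q) (r.subgroupMap_surjective Q) ⟨f, hk⟩
  have hs' : Function.Surjective f' := by
    intro y
    obtain ⟨x, rfl⟩ := hs y
    exact ⟨r.subgroupMap Q x, MonoidHom.liftOfRightInverse_comp_apply _ _ _ _ _⟩
  have hfin : Finite (F ≃ₐ[ℚ] F) := by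
    have : FiniteDimensional ℚ F := by convert hf
    infer_instance
  have h1 := Nat.card_le_card_of_surjective f' hs'
  have h2 := Subgroup.card_le_card_group (Q.map r)
  have h3 := le_card_alt (h5.trans hN)
  omega

private theorem exists_primitive_NoAltEx {k L : Type*} [Field k] [Field L] [Algebra k L]
    [CharZero k] {E : IntermediateField k L} (hE : FiniteDimensional k E) :
    ∃ θ : L, E = IntermediateField.adjoin k {θ} := by
  obtain ⟨θ, hθ⟩ := Field.exists_primitive_element k E
  refine ⟨θ, ?_⟩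
  rw [← IntermediateField.lift_adjoin_simple, hθ, IntermediateField.lift_top]

theorem noAlt_sup {n : ℕ} (h5 : 5 ≤ n) {K1 K2 : IntermediateField ℚ QQ} (h1 : NoAlt n K1)
    (h2 : NoAlt n K2) : NoAlt n (K1 ⊔ K2) := by
  have hn : Normal ℚ ↥(K1 ⊔ K2) := by
    rw [normal_iff_NoAltEx]
    have h3 := (normal_iff_NoAltEx K1).1 h1.1
    have h4 := (normal_iff_NoAltEx K2).1 h2.1
    intro σ
    have h5 : K1 ⊔ K2 ≤ (K1 ⊔ K2).comap (σ : QQ →ₐ[ℚ] QQ) :=
      sup_le (fun x hx => SetLike.le_def.1 le_sup_left (h3 σ x hx))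
        (fun x hx => SetLike.le_def.1 le_sup_right (h4 σ x hx))
    exact fun x hx => h5 hx
  refine noAlt_of_gam hn fun E hE hfin hEn N hN Q f hf hs => ?_
  obtain ⟨E1, E2, hE1, hE2, hf1, hf2, hn1, hn2, hEE⟩ : ∃ E1 E2 : IntermediateField ℚ QQ,
      E1 ≤ K1 ∧ E2 ≤ K2 ∧ FiniteDimensional ℚ E1 ∧ FiniteDimensional ℚ E2 ∧ Normal ℚ E1 ∧
        Normal ℚ E2 ∧ E ≤ E1 ⊔ E2 := by
    obtain ⟨θ, hθ⟩ := exists_primitive_NoAltEx hfin
    have hθE : θ ∈ E := by
      rw [hθ]
      exact IntermediateField.mem_adjoin_simple_self ℚ θ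
    obtain ⟨A1, A2, hA1, hA2, hfA1, hfA2, hA⟩ := exists_fin_Ram (hE hθE)
    obtain ⟨E1, a1, b1, c1, d1⟩ := exists_normal_NoAltEx h1.1 hA1 hfA1
    obtain ⟨E2, a2, b2, c2, d2⟩ := exists_normal_NoAltEx h2.1 hA2 hfA2
    refine ⟨E1, E2, b1, b2, c1, c2, d1, d2, ?_⟩
    rw [hθ, IntermediateField.adjoin_simple_le_iff]
    exact (sup_le_sup a1 a2) hA
  have hN1 := (normal_iff_NoAltEx E1).1 hn1
  let H : Subgroup Q := E1.fixingSubgroup.subgroupOf Q
  have hH : H.Normal := by
    refine ⟨fun x hx g => ?_⟩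
    rw [Subgroup.mem_subgroupOf] at hx ⊢
    rw [IntermediateField.mem_fixingSubgroup_iff] at hx ⊢
    intro c hc
    have h3 := hx _ (hN1 (g : Gam)⁻¹ c hc)
    have h4 : ((g * x * g⁻¹ : Q) : Gam) c = (g : Gam) ((x : Gam) ((g : Gam)⁻¹ c)) := rfl
    have h5 : (g : Gam) ((g : Gam)⁻¹ c) = c := (g : Gam).apply_symm_apply c
    rw [h4, h3, h5]
  rcases alt_dichotomy (h5.trans hN) f hs H with h | h
  · refine noAlt_gam h1 hE1 hf1 hn1 hN Q f (fun ρ hρ => h ?_) hs
    rw [Subgroup.mem_subgroupOf, IntermediateField.mem_fixingSubgroup_iff]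
    exact hρ
  · let f' : ↥(H.map Q.subtype) →* alternatingGroup (Fin N) :=
      (f.comp H.subtype).comp (H.equivMapOfInjective Q.subtype Q.subtype_injective).symm.toMonoidHom
    refine noAlt_gam h2 hE2 hf2 hn2 hN (H.map Q.subtype) f' ?_ ?_
    · intro ρ hρ
      obtain ⟨ρ', rfl⟩ := (H.equivMapOfInjective Q.subtype Q.subtype_injective).surjective ρ
      have h3 : f' (H.equivMapOfInjective Q.subtype Q.subtype_injective ρ') = f ρ'.1 := by
        show f ((H.equivMapOfInjective Q.subtype Q.subtype_injective).symm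
          (H.equivMapOfInjective Q.subtype Q.subtype_injective ρ')).1 = f ρ'.1
        rw [MulEquiv.symm_apply_apply]
      rw [h3]
      refine hf _ fun c hc => ?_
      have h6 : ((ρ'.1 : Q) : Gam) ∈ (E1 ⊔ E2).fixingSubgroup := by
        rw [IntermediateField.fixingSubgroup_sup]
        exact ⟨Subgroup.mem_subgroupOf.1 ρ'.2,
          (IntermediateField.mem_fixingSubgroup_iff _ _).2 hρ⟩
      exact (IntermediateField.mem_fixingSubgroup_iff _ _).1 h6 c (hEE hc)
    · exact h.comp (H.equivMapOfInjective Q.subtype Q.subtype_injective).symm.surjective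

private theorem fix_adjoin_NoAltEx {S : Set QQ} (ρ : Gam) (h : ∀ y ∈ S, ρ y = y) :
    ∀ c ∈ IntermediateField.adjoin ℚ S, ρ c = c := by
  intro c hc
  induction hc using IntermediateField.adjoin_induction with
  | mem y hy => exact h y hy
  | algebraMap q => exact ρ.commutes q
  | add y z hy hz h2 h3 => rw [map_add, h2, h3]
  | inv y hy h2 => rw [map_inv₀, h2]
  | mul y z hy hz h2 h3 => rw [map_mul, h2, h3]

/-- Let `K` be a normal extension of `ℚ` which contains the finite normal extension `F`, with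
`|Gal(F/ℚ)| < n`, such that the Galois groups of the minimal polynomials over `F` of the elements of
`K` are solvable. -/
theorem noAlt_of_solvable {F K : IntermediateField ℚ QQ} (hf : FiniteDimensional ℚ F)
    (hn : Normal ℚ F) (hK : Normal ℚ K) {n : ℕ} (h5 : 5 ≤ n)
    (h : Nat.card (F ≃ₐ[ℚ] F) < n)
    (hs : ∀ θ ∈ K, Group.IsSolvable (minpoly F θ).Gal) : NoAlt n K := by
  refine noAlt_of_gam hK fun E hE hfin hEn N hN Q f hf' hsur => ?_
  have hN1 := (normal_iff_NoAltEx F).1 hn
  let H : Subgroup Q := F.fixingSubgroup.subgroupOf Q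
  have hH : H.Normal := by
    refine ⟨fun x hx g => ?_⟩
    rw [Subgroup.mem_subgroupOf] at hx ⊢
    rw [IntermediateField.mem_fixingSubgroup_iff] at hx ⊢
    intro c hc
    have h3 := hx _ (hN1 (g : Gam)⁻¹ c hc)
    have h4 : ((g * x * g⁻¹ : Q) : Gam) c = (g : Gam) ((x : Gam) ((g : Gam)⁻¹ c)) := rfl
    have h5 : (g : Gam) ((g : Gam)⁻¹ c) = c := (g : Gam).apply_symm_apply c
    rw [h4, h3, h5]
  rcases alt_dichotomy (h5.trans hN) f hsur H with h' | h'
  · refine noAlt_gam (noAlt_finite hf hn h5 h) le_rfl hf hn hN Q f (fun ρ hρ => h' ?_) hsur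
    rw [Subgroup.mem_subgroupOf, IntermediateField.mem_fixingSubgroup_iff]
    exact hρ
  · obtain ⟨θ, hθ⟩ := exists_primitive_NoAltEx hfin
    have hθE : θ ∈ E := by
      rw [hθ]
      exact IntermediateField.mem_adjoin_simple_self ℚ θ
    have hsθ := hs θ (hE hθE)
    have hint : IsIntegral F θ := by
      have h1 : IsIntegral ℚ θ := (AlgebraicClosure.isAlgebraic ℚ).isIntegral.isIntegral θ
      have hst : IsScalarTower ℚ F QQ := IsScalarTower.of_algebraMap_eq' (Subsingleton.elim _ _)
      exact h1.tower_top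
    have hp0 : minpoly F θ ≠ 0 := minpoly.ne_zero hint
    have hsp : Fact (((minpoly F θ).map (algebraMap F QQ)).Splits) := ⟨IsAlgClosed.splits _⟩
    let r : H →* (minpoly F θ).Gal := ((Polynomial.Gal.restrict (minpoly F θ) QQ).comp
      (IntermediateField.fixingSubgroupEquiv F).toMonoidHom).comp
        (Q.subtype.subgroupComap F.fixingSubgroup)
    refine alt_not_solvable (h5.trans hN) (solvable_of_ker (f.comp H.subtype) r h' ?_)
    intro ρ hρ
    have h1 : Polynomial.Gal.restrict (minpoly F θ) QQ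
      (IntermediateField.fixingSubgroupEquiv F (Q.subtype.subgroupComap F.fixingSubgroup ρ)) = 1 :=
      hρ
    have hmem : θ ∈ (minpoly F θ).rootSet QQ := by
      rw [Polynomial.mem_rootSet_of_ne hp0]
      exact minpoly.aeval F θ
    have h2 := Polynomial.Gal.restrict_smul (p := minpoly F θ) (E := QQ)
      (IntermediateField.fixingSubgroupEquiv F (Q.subtype.subgroupComap F.fixingSubgroup ρ))
      ⟨θ, hmem⟩
    rw [h1, one_smul] at h2
    have h3 : ((ρ.1 : Q) : Gam) θ = θ := h2.symm
    refine hf' ρ.1 fun c hc => ?_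
    rw [hθ] at hc
    exact fix_adjoin_NoAltEx _ (fun y hy => by rw [Set.mem_singleton_iff.1 hy, h3]) c hc

/-- The smallest field which contains `F` and all roots of its elements: the algebraic numbers which
can be expressed by radicals and elements of `F`. -/
def Rad (F : IntermediateField ℚ QQ) : IntermediateField ℚ QQ :=
  sInf {L | F ≤ L ∧ ∀ (x : QQ) (n : ℕ), n ≠ 0 → x ^ n ∈ L → x ∈ L}

theorem le_rad (F : IntermediateField ℚ QQ) : F ≤ Rad F :=
  le_sInf fun _ h => h.1

theorem rad_root {F : IntermediateField ℚ QQ} {x : QQ} {n : ℕ} (hn : n ≠ 0)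
    (hx : x ^ n ∈ Rad F) : x ∈ Rad F := by
  rw [Rad, IntermediateField.mem_sInf] at hx ⊢
  exact fun L hL => hL.2 x n hn (hx L hL)

theorem rad_le {F L : IntermediateField ℚ QQ} (h : F ≤ L)
    (h' : ∀ (x : QQ) (n : ℕ), n ≠ 0 → x ^ n ∈ L → x ∈ L) : Rad F ≤ L :=
  sInf_le ⟨h, h'⟩

theorem rad_mono {F F' : IntermediateField ℚ QQ} (h : F ≤ F') : Rad F ≤ Rad F' :=
  rad_le (h.trans (le_rad F')) fun _ _ hn hx => rad_root hn hx

private theorem rad_normal {F : IntermediateField ℚ QQ} (hF : Normal ℚ F) :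
    Normal ℚ (Rad F) := by
  rw [normal_iff_NoAltEx] at hF ⊢
  intro σ
  have h : Rad F ≤ (Rad F).comap (σ : QQ →ₐ[ℚ] QQ) := by
    refine rad_le (fun x hx => le_rad F (hF σ x hx)) fun x n hn hx => ?_
    have h1 : (σ x) ^ n ∈ Rad F := by
      rw [← map_pow]
      exact hx
    exact rad_root hn h1
  exact fun x hx => h hx

private theorem rad_solvable {F : IntermediateField ℚ QQ} {θ : QQ} (hθ : θ ∈ Rad F) :
    Group.IsSolvable (minpoly F θ).Gal := by
  have hst : IsScalarTower ℚ F QQ := IsScalarTower.of_algebraMap_eq' (Subsingleton.elim _ _)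
  refine isSolvable_gal_minpoly ?_
  have h : Rad F ≤ (solvableByRad F QQ).restrictScalars ℚ := by
    refine rad_le (fun x hx => ?_) fun x n hn hx => ?_
    · exact (solvableByRad F QQ).algebraMap_mem ⟨x, hx⟩
    · exact solvableByRad.rad_mem hn hx
  exact h hθ

/-- The algebraic numbers which can be expressed by radicals and elements of a number field `F`
are contained in a normal extension of `ℚ` without large alternating groups. -/
theorem noAlt_rad (F : IntermediateField ℚ QQ) (hf : FiniteDimensional ℚ F) :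
    ∃ (n : ℕ) (K : IntermediateField ℚ QQ), 5 ≤ n ∧ NoAlt n K ∧ Rad F ≤ K := by
  have hn : Normal ℚ (⊤ : IntermediateField ℚ QQ) := by
    rw [normal_iff_NoAltEx]
    exact fun _ _ _ => IntermediateField.mem_top
  obtain ⟨F', h1, -, h3, h4⟩ := exists_normal_NoAltEx hn le_top hf
  refine ⟨Nat.card (F' ≃ₐ[ℚ] F') + 5, Rad F', by omega, ?_, rad_mono h1⟩
  exact noAlt_of_solvable h3 h4 (rad_normal h4) (by omega) (by omega)
    fun θ hθ => rad_solvable hθ

/-- The algebraic numbers which can be expressed by radicals. -/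
theorem noAlt_rad_bot : NoAlt 5 (Rad ⊥) := by
  have hn : Normal ℚ (⊥ : IntermediateField ℚ QQ) := by
    rw [normal_iff_NoAltEx]
    rintro σ _ ⟨q, rfl⟩
    exact ⟨q, (σ.commutes q).symm⟩
  refine noAlt_of_solvable inferInstance hn (rad_normal hn) le_rfl ?_ fun θ hθ => rad_solvable hθ
  have h1 : Subsingleton ((⊥ : IntermediateField ℚ QQ) ≃ₐ[ℚ] (⊥ : IntermediateField ℚ QQ)) := by
    refine ⟨fun σ τ => ?_⟩
    apply AlgEquiv.ext
    rintro ⟨_, q, rfl⟩
    have h2 : ∀ σ : (⊥ : IntermediateField ℚ QQ) ≃ₐ[ℚ] (⊥ : IntermediateField ℚ QQ),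
        ∀ x : (⊥ : IntermediateField ℚ QQ), (x : QQ) = (q : QQ) → σ x = x := by
      intro σ x hx
      have h3 : x = (q : (⊥ : IntermediateField ℚ QQ)) := Subtype.ext hx
      rw [h3, map_ratCast]
    rw [h2 σ _ (eq_ratCast _ q), h2 τ _ (eq_ratCast _ q)]
  have h2 := Finite.card_le_one_iff_subsingleton.2 h1
  omega

/-- The field generated by all algebraic numbers of degree at most `d`. -/
theorem noAlt_degree {d n : ℕ} (hd : 2 ≤ d) (h5 : 5 ≤ n) (hn : 2 * d ≤ n) :
    NoAlt n (IntermediateField.adjoin ℚ {x : QQ | (minpoly ℚ x).natDegree ≤ d}) := by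
  have hN : Normal ℚ (IntermediateField.adjoin ℚ {x : QQ | (minpoly ℚ x).natDegree ≤ d}) := by
    rw [normal_iff_NoAltEx]
    intro σ
    have h : IntermediateField.adjoin ℚ {x : QQ | (minpoly ℚ x).natDegree ≤ d} ≤
        (IntermediateField.adjoin ℚ {x : QQ | (minpoly ℚ x).natDegree ≤ d}).comap
          (σ : QQ →ₐ[ℚ] QQ) := by
      rw [IntermediateField.adjoin_le_iff]
      intro x hx
      refine IntermediateField.subset_adjoin ℚ _ ?_
      have h1 : minpoly ℚ (σ x) = minpoly ℚ x := minpoly.algEquiv_eq σ x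
      show (minpoly ℚ (σ x)).natDegree ≤ d
      rw [h1]
      exact hx
    exact fun x hx => h hx
  refine noAlt_of_gam hN fun E hE _ _ N hN Q f hf hs => ?_
  obtain ⟨l, hl, hl1, hl2⟩ := Nat.exists_prime_lt_and_le_two_mul d (by omega)
  have hcard : l ∣ Nat.card (alternatingGroup (Fin N)) := by
    have : Nontrivial (Fin N) := Fin.nontrivial_iff_two_le.2 (by omega)
    have h1 := two_mul_nat_card_alternatingGroup (α := Fin N)
    rw [Nat.card_perm, Nat.card_fin] at h1
    have h2 : l ∣ 2 * Nat.card (alternatingGroup (Fin N)) := by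
      rw [h1, hl.dvd_factorial]
      omega
    rcases (Nat.Prime.dvd_mul hl).1 h2 with h3 | h3
    · have := Nat.le_of_dvd (by norm_num) h3
      omega
    · exact h3
  have : Fact l.Prime := ⟨hl⟩
  obtain ⟨y, hy⟩ := exists_prime_orderOf_dvd_card' l hcard
  obtain ⟨ρ, rfl⟩ := hs y
  have h1 : f ρ ^ d.factorial = 1 := by
    rw [← map_pow]
    refine hf _ fun c hc => ?_
    refine fix_adjoin_NoAltEx _ (fun x hx => ?_) c (hE hc)
    have h2 := iterate_MDeg ((ρ : Gam) : QQ ≃+* QQ) (x := x) (q := minpoly ℚ x)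
      (minpoly.ne_zero ((AlgebraicClosure.isAlgebraic ℚ).isIntegral.isIntegral x)) hx ?_
    · have h3 : ((ρ ^ d.factorial : Q) : Gam) x = (⇑((ρ : Gam) : QQ ≃+* QQ))^[d.factorial] x := by
        rw [Subgroup.coe_pow, AlgEquiv.coe_pow]
        rfl
      rw [h3, h2]
    · have h3 : Rat.castHom QQ = algebraMap ℚ QQ := Subsingleton.elim _ _
      rw [h3, ← Polynomial.aeval_def]
      exact minpoly.aeval ℚ x
  have h2 : l ∣ d.factorial := by
    rw [← hy]
    exact orderOf_dvd_of_pow_eq_one h1
  rw [hl.dvd_factorial] at h2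
  omega

end Fields

end Pool.Agent.Clo
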