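import Pool.Agent.Clo.Defs
import Pool.Agent.Dess.Pole
import Pool.Agent.ZCyc.Places

/-!
# The action of semilinear automorphisms on the points of a curve

PROOFS. `act r h p` has the valuation ring `p.ring.comap r.symm`; it contains the constants because
`r.symm (algebraMap c) = algebraMap (ρ.symm c)` (apply `r` and use `h`), and it is not everything
because `r` is bijective. `Moves r p p'` says: `r f ∈ p'.ring ↔ f ∈ p.ring`
(`ValuationSubring.mem_comap`). So `moves_right`, `moves_left` (both determine each other) are clear
by bijectivity (`Place.ext`, `r (r.symm f) = f`). `moves_at`: `p.At f c` means `f - c` is a nonunit;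
use `Place.vanishes_iff_or` and `r (f - c) = r f - ρ c`. `moves_pole`: if `w` is regular away from
`p` and has a pole at `p`, and `r w = w`, then `w` has a pole at `p'` (`r w ∉ p'.ring` as
`w ∉ p.ring`), so `p' = p`. `exists_pole`: the function `w` of `exists_single_pole` (file
`Pool/Agent/Dess/Pole.lean`); as `w⁻¹` is transcendental, it vanishes somewhere (`exists_place` of
`Pool/Agent/ZCyc/Places.lean` with the value `0`, `Place.at_zero_iff`, `Place.vanishes_iff_or`).
-/

set_option autoImplicit false

noncomputable section

namespace Pool.Agent.Clo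

open Pool.Agent.ZCyc Pool.Agent.Dess
open scoped Classical

section Act

variable {F : Type} [Field F] [Algebra QQ F]

/-- the image of the point `p` under the automorphism `r` -/
def act {ρ : Gam} (r : F ≃+* F) (h : ∀ c : QQ, r (algebraMap QQ F c) = algebraMap QQ F (ρ c))
    (p : Place QQ F) : Place QQ F where
  ring := p.ring.comap (r.symm : F →+* F)
  const_mem := by
    intro c
    rw [ValuationSubring.mem_comap]
    have h1 : (r.symm : F →+* F) (algebraMap QQ F c) = algebraMap QQ F (ρ.symm c) := by
      change r.symm (algebraMap QQ F c) = _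
      rw [RingEquiv.symm_apply_eq, h, AlgEquiv.apply_symm_apply]
    rw [h1]
    exact p.const_mem _
  ne_top := by
    intro h1
    apply p.ne_top
    ext x
    constructor
    · intro _
      exact ValuationSubring.mem_top x
    · intro _
      have h2 : r x ∈ p.ring.comap (r.symm : F →+* F) := by
        rw [h1]
        exact ValuationSubring.mem_top _
      rw [ValuationSubring.mem_comap] at h2
      have h3 : (r.symm : F →+* F) (r x) = x := r.symm_apply_apply x
      rwa [h3] at h2

variable {ρ : Gam} {r : F ≃+* F}

theorem moves_iff {p p' : Place QQ F} : Moves r p p' ↔ ∀ f, r f ∈ p'.ring ↔ f ∈ p.ring := by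
  unfold Moves
  constructor
  · intro h f
    rw [← h, ValuationSubring.mem_comap]
    rfl
  · intro h
    ext f
    rw [ValuationSubring.mem_comap]
    exact h f

theorem moves_act (h : ∀ c : QQ, r (algebraMap QQ F c) = algebraMap QQ F (ρ c))
    (p : Place QQ F) : Moves r p (act r h p) := by
  rw [moves_iff]
  intro f
  change r f ∈ p.ring.comap (r.symm : F →+* F) ↔ f ∈ p.ring
  rw [ValuationSubring.mem_comap]
  have h3 : (r.symm : F →+* F) (r f) = f := r.symm_apply_apply f
  rw [h3]

theorem moves_right {p p' p'' : Place QQ F} (h' : Moves r p p') (h'' : Moves r p p'') :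
    p' = p'' := by
  rw [moves_iff] at h' h''
  apply Place.ext
  ext x
  have h1 := h' (r.symm x)
  have h2 := h'' (r.symm x)
  rw [r.apply_symm_apply] at h1 h2
  rw [h1, h2]

theorem moves_left {p p' p'' : Place QQ F} (h : Moves r p p'') (h' : Moves r p' p'') :
    p = p' := by
  rw [moves_iff] at h h'
  apply Place.ext
  ext x
  rw [← h x, ← h' x]

theorem moves_eq (h : ∀ c : QQ, r (algebraMap QQ F c) = algebraMap QQ F (ρ c))
    {p p' : Place QQ F} (h' : Moves r p p') : p' = act r h p :=
  moves_right h' (moves_act h p)

theorem moves_trans {r' : F ≃+* F} {p p' p'' : Place QQ F} (h : Moves r p p')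
    (h' : Moves r' p' p'') : Moves (r.trans r') p p'' := by
  rw [moves_iff] at h h' ⊢
  intro f
  rw [RingEquiv.trans_apply, h', h]

theorem moves_at (h : ∀ c : QQ, r (algebraMap QQ F c) = algebraMap QQ F (ρ c))
    {p p' : Place QQ F} (h' : Moves r p p') (f : F) (c : QQ) :
    p'.At (r f) (ρ c) ↔ p.At f c := by
  rw [moves_iff] at h'
  unfold Place.At
  rw [Place.vanishes_iff_or, Place.vanishes_iff_or, ← h c, ← map_sub, ← map_inv₀, h',
    map_eq_zero_iff r r.injective]

/-- a point which is the only pole of a fixed function is fixed -/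
theorem moves_pole {p p' : Place QQ F} (h : Moves r p p') {w : F} (hw : r w = w)
    (hp : w ∉ p.ring) (hreg : ∀ v : Place QQ F, v ≠ p → w ∈ v.ring) : p' = p := by
  by_contra hne
  rw [moves_iff] at h
  have h1 := (h w).1 (by rw [hw]; exact hreg p' hne)
  exact hp h1

/-- the composition of semilinear automorphisms -/
theorem fixes_trans {S : Finset F} {ρ' : Gam} {r' : F ≃+* F} (h : Fixes S ρ r)
    (h' : Fixes S ρ' r') : Fixes S (ρ.trans ρ') (r.trans r') := by
  refine ⟨fun s hs => ?_, fun c => ?_⟩
  · rw [RingEquiv.trans_apply, h.1 s hs, h'.1 s hs]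
  · rw [RingEquiv.trans_apply, h.2, h'.2, AlgEquiv.trans_apply]

theorem fixes_mono {S S' : Finset F} (hS : S ⊆ S') (h : Fixes S' ρ r) : Fixes S ρ r :=
  ⟨fun s hs => h.1 s (hS hs), h.2⟩

theorem inv_mono {S S' : Finset F} (hS : S ⊆ S') {A : Place QQ F → Place QQ F → ℝ}
    (h : Inv S A) : Inv S' A :=
  fun ρ r hr p p' q q' hp hq => h ρ r (fixes_mono hS hr) p p' q q' hp hq

/-- a function with a pole at the given point only -/
theorem exists_pole (hF : IsCurve QQ F) (p : Place QQ F) :
    ∃ w : F, w ∉ p.ring ∧ ∀ v : Place QQ F, v ≠ p → w ∈ v.ring := by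
  have hch : CharZero F := charZero_of_injective_algebraMap (algebraMap QQ F).injective
  obtain ⟨w, hw, hreg⟩ := exists_single_pole hF p
  refine ⟨w, ?_, hreg⟩
  have hwi : Transcendental QQ w⁻¹ := by
    intro h1
    exact hw (by simpa using h1.inv)
  obtain ⟨u, hu⟩ := exists_place hwi 0
  rw [Place.at_zero_iff, Place.vanishes_iff_or, inv_inv] at hu
  rcases hu with hu | hu
  · exfalso
    apply hw
    rw [inv_eq_zero] at hu
    rw [hu]
    exact isAlgebraic_zero
  · by_cases hup : u = p
    · rwa [← hup]
    · exact absurd (hreg u hup) hu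

end Act

end Pool.Agent.Clo
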