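import Pool.Agent.Dess.Model

/-!
# Lifting Galois automorphisms to a function field

## Proof

Copy from `Pool/Agent/Dess/Model.lean` the private declarations `cm`, `ev`, `model_stable`,
`cm_symm`, `model_hom`, `model_ext`, `model_equiv`, `model_fg` (rename them, suffix `_lift`).
Let `T = T₀ ∪ S` with the finite set `T₀` of generators (`model_fg`); `T` also generates. The kernel
of `ev T` is generated by a finite set `G` of polynomials; let `C` be the set of all their
coefficients (as in the proof of `exists_model`); `model_equiv` gives `r`.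

`exists_move`: apply `exists_pull` to the automorphism `ρ.symm` of `QQ` and to
`r.symm : F →+* F` and to `V = x`; this gives `x'` with `x.ring.comap r.symm = x'.ring`, and
then `x'.ring.comap r = x.ring` (`ext`, `ValuationSubring.mem_comap`, `r.symm_apply_apply`).
The second part is `tuple_at` (`Pool/Agent/Dess/Tuple.lean`) for `φ = r`.
-/

set_option autoImplicit false

noncomputable section

namespace Pool.Agent.Clo

open Pool.Agent.ZCyc Pool.Agent.Dess

variable {F : Type} [Field F] [Algebra QQ F]

section Lift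

variable {L : Type} [Field L] [Algebra QQ L]

open Polynomial
open scoped Classical

/-- the action on the coefficients -/
private abbrev cm_lift {σ : Type} (ρ : Gam) : MvPolynomial σ QQ →+* MvPolynomial σ QQ :=
  MvPolynomial.map (ρ : QQ →+* QQ)

private abbrev ev_lift (T : Finset L) : MvPolynomial T QQ →ₐ[QQ] L :=
  MvPolynomial.aeval (fun x : T => (x : L))

/-- polynomial relations with coefficients fixed by `ρ` generate a stable ideal -/
private lemma model_stable_lift (T : Finset L) (G : Finset (MvPolynomial T QQ))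
    (hG : Ideal.span (G : Set (MvPolynomial T QQ)) = RingHom.ker (ev_lift T))
    (ρ : Gam) (hρ : ∀ p ∈ G, ∀ m, ρ (p.coeff m) = p.coeff m) (p : MvPolynomial T QQ)
    (hp : ev_lift T p = 0) : ev_lift T (cm_lift ρ p) = 0 := by
  have h1 : p ∈ Ideal.span (G : Set (MvPolynomial T QQ)) := by
    rw [hG]
    exact hp
  have h2 : Ideal.span (G : Set (MvPolynomial T QQ)) ≤
      (RingHom.ker (ev_lift T)).comap (cm_lift ρ) := by
    rw [Ideal.span_le]
    intro q hq
    have h3 : cm_lift ρ q = q := by
      ext m
      rw [MvPolynomial.coeff_map]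
      exact hρ q hq m
    have h4 : q ∈ RingHom.ker (ev_lift T) := by
      rw [← hG]
      exact Ideal.subset_span hq
    simp only [Ideal.coe_comap, Set.mem_preimage, SetLike.mem_coe]
    rw [h3]
    exact h4
  exact h2 h1

private lemma cm_symm_lift {σ : Type} (ρ : Gam) (p : MvPolynomial σ QQ) :
    cm_lift ρ.symm (cm_lift ρ p) = p := by
  ext m
  rw [MvPolynomial.coeff_map, MvPolynomial.coeff_map]
  exact ρ.symm_apply_apply _

/-- the semilinear endomorphism -/
private lemma model_hom_lift (T : Finset L) (hT : IntermediateField.adjoin QQ (T : Set L) = ⊤)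
    (G : Finset (MvPolynomial T QQ))
    (hG : Ideal.span (G : Set (MvPolynomial T QQ)) = RingHom.ker (ev_lift T))
    (ρ : Gam) (hρ : ∀ p ∈ G, ∀ m, ρ (p.coeff m) = p.coeff m) :
    ∃ r : L →+* L, (∀ c, r (algebraMap QQ L c) = algebraMap QQ L (ρ c)) ∧
      ∀ x ∈ T, r x = x := by
  let f : MvPolynomial T QQ →+* L := (ev_lift T : MvPolynomial T QQ →+* L)
  let R := MvPolynomial T QQ ⧸ (RingHom.ker f)
  let ι : R →+* L := RingHom.kerLift f
  have hι : Function.Injective ι := RingHom.kerLift_injective f
  let _ : Algebra R L := ι.toAlgebra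
  have hal : ∀ x, algebraMap R L x = ι x := fun x => rfl
  have : FaithfulSMul R L := (faithfulSMul_iff_algebraMap_injective R L).mpr hι
  have : IsFractionRing R L := by
    apply IsFractionRing.of_field
    intro z
    have hz : z ∈ IntermediateField.adjoin QQ (T : Set L) := by
      rw [hT]
      exact IntermediateField.mem_top
    obtain ⟨p, q, hpq⟩ := (IntermediateField.mem_adjoin_iff QQ (S := (T : Set L)) z).mp hz
    exact ⟨Ideal.Quotient.mk _ p, Ideal.Quotient.mk _ q, hpq⟩
  let g : R →+* L := Ideal.Quotient.lift (RingHom.ker f) (f.comp (cm_lift ρ)) (by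
    intro p hp
    exact model_stable_lift T G hG ρ hρ p hp)
  have hg : Function.Injective g := by
    rw [injective_iff_map_eq_zero]
    intro x hx
    obtain ⟨p, rfl⟩ := Ideal.Quotient.mk_surjective x
    rw [Ideal.Quotient.eq_zero_iff_mem]
    have h1 : ev_lift T (cm_lift ρ p) = 0 := hx
    have h2 := model_stable_lift T G hG ρ.symm (by
      intro q hq m
      have := hρ q hq m
      conv_lhs => rw [← this]
      exact ρ.symm_apply_apply _) _ h1
    rw [cm_symm_lift] at h2
    exact h2
  refine ⟨IsFractionRing.lift hg, ?_, ?_⟩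
  · intro c
    have h1 : algebraMap QQ L c = algebraMap R L (Ideal.Quotient.mk _ (MvPolynomial.C c)) := by
      have : ι (Ideal.Quotient.mk _ (MvPolynomial.C c)) = f (MvPolynomial.C c) :=
        RingHom.kerLift_mk f _
      rw [hal, this]
      exact (MvPolynomial.aeval_C _ c).symm
    rw [h1, IsFractionRing.lift_algebraMap]
    have h2 : g (Ideal.Quotient.mk _ (MvPolynomial.C c)) = f (cm_lift ρ (MvPolynomial.C c)) := rfl
    rw [h2, cm_lift, MvPolynomial.map_C]
    exact MvPolynomial.aeval_C (fun x : T => (x : L)) ((ρ : QQ →+* QQ) c)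
  · intro x hx
    have h1 : x = algebraMap R L (Ideal.Quotient.mk _ (MvPolynomial.X ⟨x, hx⟩)) := by
      have : ι (Ideal.Quotient.mk _ (MvPolynomial.X ⟨x, hx⟩)) = f (MvPolynomial.X ⟨x, hx⟩) :=
        RingHom.kerLift_mk f _
      rw [hal, this]
      exact (MvPolynomial.aeval_X (fun x : T => (x : L)) (⟨x, hx⟩ : T)).symm
    conv_lhs => rw [h1]
    rw [IsFractionRing.lift_algebraMap]
    have h2 : g (Ideal.Quotient.mk _ (MvPolynomial.X ⟨x, hx⟩)) =
      f (cm_lift ρ (MvPolynomial.X ⟨x, hx⟩)) := rfl
    rw [h2, cm_lift, MvPolynomial.map_X]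
    exact MvPolynomial.aeval_X (fun x : T => (x : L)) (⟨x, hx⟩ : T)

private lemma model_ext_lift (T : Set L) (hT : IntermediateField.adjoin QQ T = ⊤) (f g : L →+* L)
    (h1 : ∀ c, f (algebraMap QQ L c) = g (algebraMap QQ L c)) (h2 : ∀ x ∈ T, f x = g x) :
    f = g := by
  let E : IntermediateField QQ L := (RingHom.eqLocusField f g).toIntermediateField h1
  have h3 : (⊤ : IntermediateField QQ L) ≤ E := by
    rw [← hT, IntermediateField.adjoin_le_iff]
    intro x hx
    exact h2 x hx
  ext x
  exact h3 (IntermediateField.mem_top : x ∈ (⊤ : IntermediateField QQ L))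

private lemma model_equiv_lift (T : Finset L) (hT : IntermediateField.adjoin QQ (T : Set L) = ⊤)
    (G : Finset (MvPolynomial T QQ))
    (hG : Ideal.span (G : Set (MvPolynomial T QQ)) = RingHom.ker (ev_lift T))
    (ρ : Gam) (hρ : ∀ p ∈ G, ∀ m, ρ (p.coeff m) = p.coeff m) :
    ∃ r : L ≃+* L, (∀ c, r (algebraMap QQ L c) = algebraMap QQ L (ρ c)) ∧
      ∀ x ∈ T, r x = x := by
  obtain ⟨r, hr1, hr2⟩ := model_hom_lift T hT G hG ρ hρ
  obtain ⟨s, hs1, hs2⟩ := model_hom_lift T hT G hG ρ.symm (by
      intro q hq m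
      have := hρ q hq m
      conv_lhs => rw [← this]
      exact ρ.symm_apply_apply _)
  have h1 : s.comp r = RingHom.id L := by
    apply model_ext_lift (T : Set L) hT
    · intro c
      rw [RingHom.comp_apply, hr1, hs1, RingHom.id_apply]
      exact congrArg _ (ρ.symm_apply_apply _)
    · intro x hx
      rw [RingHom.comp_apply, hr2 x hx, hs2 x hx, RingHom.id_apply]
  have h2 : r.comp s = RingHom.id L := by
    apply model_ext_lift (T : Set L) hT
    · intro c
      rw [RingHom.comp_apply, hs1, hr1, RingHom.id_apply]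
      exact congrArg _ (ρ.apply_symm_apply _)
    · intro x hx
      rw [RingHom.comp_apply, hs2 x hx, hr2 x hx, RingHom.id_apply]
  refine ⟨RingEquiv.ofRingHom r s h2 h1, ?_, ?_⟩
  · intro c
    exact hr1 c
  · intro x hx
    exact hr2 x hx

/-- a curve has a finitely generated function field -/
private lemma model_fg_lift (hL : IsCurve QQ L) :
    ∃ T : Finset L, IntermediateField.adjoin QQ (T : Set L) = ⊤ := by
  obtain ⟨t, _, hfin⟩ := hL
  obtain ⟨S, hS⟩ := hfin.fg_top
  refine ⟨insert t S, ?_⟩
  rw [eq_top_iff]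
  intro x _
  have hx : x ∈ Submodule.span (IntermediateField.adjoin QQ {t}) (S : Set L) := by
    rw [hS]
    exact Submodule.mem_top
  have hle : IntermediateField.adjoin QQ {t} ≤
      IntermediateField.adjoin QQ ((insert t S : Finset L) : Set L) := by
    apply IntermediateField.adjoin.mono
    intro z hz
    rw [Set.mem_singleton_iff] at hz
    rw [hz]
    simp
  induction hx using Submodule.span_induction with
  | mem x h =>
    apply IntermediateField.subset_adjoin
    simp [h]
  | zero => exact zero_mem _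
  | add x y _ _ hx hy => exact add_mem (hx IntermediateField.mem_top) (hy IntermediateField.mem_top)
  | smul c x _ hx =>
    rw [Algebra.smul_def]
    exact mul_mem (hle c.2) (hx IntermediateField.mem_top)

end Lift

private theorem at_lift {L M : Type} [Field L] [Field M] [Algebra QQ L]
    [Algebra QQ M] {v : Place QQ L} {V : Place QQ M} {φ : L →+* M} (h : V.ring.comap φ = v.ring)
    (τ : Gam) (hφ : ∀ c, φ (algebraMap QQ L c) = algebraMap QQ M (τ c)) (f : L) (c : QQ) :
    v.At f c ↔ V.At (φ f) (τ c) := by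
  unfold Place.At
  rw [← hφ, ← map_sub, v.vanishes_iff_or, V.vanishes_iff_or, ← map_inv₀, ← h,
    ValuationSubring.mem_comap, map_eq_zero_iff φ φ.injective]

theorem exists_lift (hF : IsCurve QQ F) (S : Finset F) : ∃ C : Finset QQ, ∀ ρ : Gam,
    (∀ c ∈ C, ρ c = c) → ∃ r : F ≃+* F, (∀ c, r (algebraMap QQ F c) = algebraMap QQ F (ρ c)) ∧
      ∀ s ∈ S, r s = s := by
  classical
  obtain ⟨T₀, hT₀⟩ := model_fg_lift hF
  set T : Finset F := S ∪ T₀ with hTdef
  have hT : IntermediateField.adjoin QQ (T : Set F) = ⊤ := by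
    rw [eq_top_iff, ← hT₀]
    apply IntermediateField.adjoin.mono
    intro x hx
    have : x ∈ T₀ := hx
    simp [hTdef, this]
  obtain ⟨G, hG⟩ : (RingHom.ker (ev_lift T)).FG := IsNoetherian.noetherian _
  refine ⟨G.biUnion fun p => p.support.image fun m => p.coeff m, fun ρ hρ => ?_⟩
  have hρ' : ∀ p ∈ G, ∀ m, ρ (p.coeff m) = p.coeff m := by
    intro p hp m
    by_cases hm : p.coeff m = 0
    · rw [hm, map_zero]
    · apply hρ
      rw [Finset.mem_biUnion]
      refine ⟨p, hp, ?_⟩
      rw [Finset.mem_image]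
      exact ⟨m, MvPolynomial.mem_support_iff.mpr hm, rfl⟩
  obtain ⟨r, hr1, hr2⟩ := model_equiv_lift T hT G hG ρ hρ'
  exact ⟨r, hr1, fun s hs => hr2 s (Finset.mem_union_left _ hs)⟩

theorem exists_move (hF : IsCurve QQ F) (ρ : Gam) (r : F ≃+* F)
    (hr : ∀ c, r (algebraMap QQ F c) = algebraMap QQ F (ρ c)) (x : Place QQ F) :
    ∃ x' : Place QQ F, x'.ring.comap (r : F →+* F) = x.ring ∧
      ∀ (f : F) (c : QQ), x.At f c ↔ x'.At (r f) (ρ c) := by
  have hr' : ∀ c, (r.symm : F →+* F) (algebraMap QQ F c) =
      algebraMap QQ F ((ρ.symm : QQ ≃+* QQ) c) := by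
    intro c
    have h1 := hr (ρ.symm c)
    rw [AlgEquiv.apply_symm_apply] at h1
    change r.symm (algebraMap QQ F c) = algebraMap QQ F (ρ.symm c)
    rw [← h1, RingEquiv.symm_apply_apply]
  obtain ⟨x', hx'⟩ := exists_pull hF hF (ρ.symm : QQ ≃+* QQ) (r.symm : F →+* F) hr' x
  have hc : x'.ring.comap (r : F →+* F) = x.ring := by
    ext y
    rw [ValuationSubring.mem_comap, ← hx', ValuationSubring.mem_comap]
    have h2 : (r.symm : F →+* F) ((r : F →+* F) y) = y := r.symm_apply_apply y
    rw [h2]
  exact ⟨x', hc, fun f c => at_lift hc ρ hr f c⟩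

end Pool.Agent.Clo
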