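import Mathlib.NumberTheory.Height.NumberField
import Mathlib.RingTheory.Ideal.Norm.RelNorm
import Pool.Agent.Dess.Defs

/-!
# Heights of algebraic numbers, sums, products and roots of polynomials

PROOFS. `absLogHeight_eq`: the absolute height of `x : QQ` can be computed in every number field
`K ⊆ QQ` which contains `x`: `absLogHeight₁ x = logHeight₁ (x : K) / [K : ℚ]`. By definition it is
computed in `ℚ⟮x⟯`; for `K ⊇ ℚ⟮x⟯` the places of `K` above a place `v` of `ℚ⟮x⟯` have local degrees
with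
sum `[K : ℚ⟮x⟯]`. (See `Pool/Agent/Clo/ArHt.lean` and the files on heights in Mathlib, what is
known;
if this is hard, here is a way around it which is enough for `ht_root`: work with the
normalization-free characterisation below.)
Alternative: it is enough to prove the inequalities of this file with the height defined through
ONE number field: choose `K` = a Galois number field which contains all the numbers in question;
`logHeight₁ (x : K) = [K : ℚ⟮x⟯] logHeight₁ (x : ℚ⟮x⟯)` is the only fact needed. Proof of it: the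
Mahler
measure, or: for an infinite place `v` of `k = ℚ⟮x⟯` the places of `K` above `v` satisfy
`∑ mult w = [K : k] mult v`, and for a finite place `v` (prime ideal `P`) the places of `K` above
`v`
are the primes `Q` over `P`, `|x|_Q = N(Q) ^ (- ord_Q x) = N(P) ^ (- f e ord_P x)`, and
`∑ e f = [K : k]` (`Ideal.sum_ramification_inertia`).

`ht_add`, `ht_mul`: in a number field which contains both numbers, Mathlib has
`Height.logHeight₁_add_le`, `Height.logHeight₁_mul_le` (`totalWeight K = [K : ℚ]`). `ht_inv`: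
`Height.logHeight₁_inv`. `ht_eval`: induction on the polynomial (or Horner's scheme).
`ht_root`: let `c` be a root of `P ≠ 0`, `natDegree P = d ≤ n`; dividing by the leading
coefficient we may assume that `P` is monic with coefficients `a_j` of height `≤ 2 B`. In a number
field `K` which contains all, at every archimedean place `|c| ≤ max (1, d max |a_j|)`
`≤ d ∏ max (1, |a_j|)`, since otherwise `|c| ^ d > ∑ |a_j| |c| ^ j`, and at every nonarchimedean
place `max (1, |c|) ≤ ∏ max (1, |a_j|)`. So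
`logHeight₁ c ≤ [K : ℚ] log d + ∑ j, logHeight₁ a_j`, and `absLogHeight₁ c ≤ log n + 2 n B` for
`B ≥ 0`. (Heights are nonnegative, so for `B < 0` there is nothing to prove.)
-/

set_option autoImplicit false

noncomputable section

namespace Pool.Agent.Clo

open Pool.Agent.Dess NumberField

/-- products over infinite places as products over embeddings -/
private theorem prodInf_Root {K : Type} [Field K] [NumberField K] (g : InfinitePlace K → ℝ) :
    ∏ w, g w ^ w.mult = ∏ φ : K →+* ℂ, g (InfinitePlace.mk φ) := by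
  classical
  rw [← Finset.prod_fiberwise Finset.univ (fun φ : K →+* ℂ => InfinitePlace.mk φ)]
  refine Finset.prod_congr rfl fun w _ => ?_
  rw [Finset.prod_congr rfl (g := fun _ => g w) (fun φ hφ => by
    rw [(Finset.mem_filter.1 hφ).2]), Finset.prod_const, InfinitePlace.card_filter_mk_eq]

/-- the number of extensions of an embedding -/
private theorem cardExt_Root {k K : Type} [Field k] [NumberField k] [Field K] [NumberField K]
    [Algebra k K] (σ : k →+* ℂ) [DecidableEq (k →+* ℂ)] :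
    (Finset.univ.filter fun φ : K →+* ℂ => φ.comp (algebraMap k K) = σ).card =
      Module.finrank k K := by
  let _ := σ.toAlgebra
  rw [← AlgHom.card k K ℂ, ← Fintype.card_subtype]
  refine Fintype.card_congr ⟨fun φ => ⟨φ.1, fun x => ?_⟩, fun ψ => ⟨ψ.toRingHom, ?_⟩,
    fun φ => ?_, fun ψ => ?_⟩
  · have h := congrArg (fun τ : k →+* ℂ => τ x) φ.2
    exact h
  · ext x
    exact ψ.commutes x
  · rfl
  · rfl

private theorem prodExt_Root {k K : Type} [Field k] [NumberField k] [Field K] [NumberField K]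
    [Algebra k K] (f : InfinitePlace k → ℝ) :
    ∏ w : InfinitePlace K, f (w.comap (algebraMap k K)) ^ w.mult =
      (∏ v : InfinitePlace k, f v ^ v.mult) ^ Module.finrank k K := by
  classical
  rw [prodInf_Root f, prodInf_Root (fun w : InfinitePlace K => f (w.comap (algebraMap k K))),
    ← Finset.prod_fiberwise Finset.univ (fun φ : K →+* ℂ => φ.comp (algebraMap k K)),
    ← Finset.prod_pow]
  refine Finset.prod_congr rfl fun σ _ => ?_
  rw [Finset.prod_congr rfl (g := fun _ => f (InfinitePlace.mk σ)) (fun φ hφ => by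
    rw [InfinitePlace.comap_mk, (Finset.mem_filter.1 hφ).2]), Finset.prod_const]
  congr 1
  convert cardExt_Root (K := K) σ

/-- the height in an extension field -/
private theorem ext_Root {k K : Type} [Field k] [NumberField k] [Field K] [NumberField K]
    [Algebra k K] (x : k) : Height.mulHeight₁ (algebraMap k K x) =
      Height.mulHeight₁ x ^ Module.finrank k K := by
  obtain ⟨a, b, hb, rfl⟩ := IsFractionRing.div_surjective (A := 𝓞 k) x
  have hb0 : b ≠ 0 := nonZeroDivisors.ne_zero hb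
  have hcast : ∀ c : 𝓞 k, algebraMap k K (algebraMap (𝓞 k) k c) =
      algebraMap (𝓞 K) K (algebraMap (𝓞 k) (𝓞 K) c) := fun c => rfl
  rw [map_div₀, hcast, hcast, Height.mulHeight₁_div_eq_mulHeight,
    Height.mulHeight₁_div_eq_mulHeight]
  have hinj : Function.Injective (algebraMap (𝓞 k) (𝓞 K)) := by
    exact RingOfIntegers.algebraMap.injective k K
  have hne : (![a, b] : Fin 2 → 𝓞 k) ≠ 0 := by
    intro h0
    exact hb0 (congrFun h0 1)
  have hne' : (![algebraMap (𝓞 k) (𝓞 K) a, algebraMap (𝓞 k) (𝓞 K) b] : Fin 2 → 𝓞 K) ≠ 0 := by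
    intro h0
    have h1 : algebraMap (𝓞 k) (𝓞 K) b = 0 := congrFun h0 1
    exact hb0 (hinj (by rw [h1, map_zero]))
  have h1 := absNorm_mul_finprod_finitePlace_eq_one hne
  have h2 := absNorm_mul_finprod_finitePlace_eq_one hne'
  have hspan : Ideal.span (Set.range
      ![algebraMap (𝓞 k) (𝓞 K) a, algebraMap (𝓞 k) (𝓞 K) b]) =
      (Ideal.span (Set.range ![a, b])).map (algebraMap (𝓞 k) (𝓞 K)) := by
    rw [Ideal.map_span, ← Set.range_comp]
    congr 2
    ext i
    fin_cases i <;> rfl
  rw [hspan, Ideal.absNorm_algebraMap, ← IsFractionRing.finrank_eq (𝓞 k) k (𝓞 K) K] at h2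
  have hc1 : ∀ i : Fin 2, ((![a, b] i : 𝓞 k) : k) =
      ![algebraMap (𝓞 k) k a, algebraMap (𝓞 k) k b] i := by
    intro i
    fin_cases i <;> rfl
  have hc2 : ∀ i : Fin 2,
      ((![algebraMap (𝓞 k) (𝓞 K) a, algebraMap (𝓞 k) (𝓞 K) b] i : 𝓞 K) : K) =
      ![algebraMap (𝓞 K) K (algebraMap (𝓞 k) (𝓞 K) a),
        algebraMap (𝓞 K) K (algebraMap (𝓞 k) (𝓞 K) b)] i := by
    intro i
    fin_cases i <;> rfl
  simp only [hc1] at h1
  simp only [hc2] at h2
  have hc3 : ∀ i : Fin 2, ![algebraMap (𝓞 K) K (algebraMap (𝓞 k) (𝓞 K) a),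
        algebraMap (𝓞 K) K (algebraMap (𝓞 k) (𝓞 K) b)] i =
      algebraMap k K (![algebraMap (𝓞 k) k a, algebraMap (𝓞 k) k b] i) := by
    intro i
    fin_cases i <;> rfl
  have hn1 : (![algebraMap (𝓞 k) k a, algebraMap (𝓞 k) k b] : Fin 2 → k) ≠ 0 := by
    intro h0
    have h3 : algebraMap (𝓞 k) k b = 0 := congrFun h0 1
    exact hb0 (RingOfIntegers.coe_injective (by rw [h3]; rfl))
  have hn2 : (![algebraMap (𝓞 K) K (algebraMap (𝓞 k) (𝓞 K) a),
        algebraMap (𝓞 K) K (algebraMap (𝓞 k) (𝓞 K) b)] : Fin 2 → K) ≠ 0 := by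
    intro h0
    have h3 : algebraMap (𝓞 K) K (algebraMap (𝓞 k) (𝓞 K) b) = 0 := congrFun h0 1
    exact hb0 (hinj (RingOfIntegers.coe_injective (by rw [h3, map_zero]; rfl)))
  rw [NumberField.mulHeight_eq hn1, NumberField.mulHeight_eq hn2, mul_pow]
  have hN : ((Ideal.span (Set.range ![a, b])).absNorm : ℝ) ≠ 0 := left_ne_zero_of_mul_eq_one h1
  congr 1
  · rw [← prodExt_Root (K := K)]
    refine Finset.prod_congr rfl fun w _ => ?_
    congr 1
    refine iSup_congr fun i => ?_
    rw [hc3, InfinitePlace.comap_apply]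
  · refine mul_left_cancel₀ (pow_ne_zero (Module.finrank k K) hN) ?_
    rw [← mul_pow, h1, one_pow]
    push_cast at h2
    exact h2

private theorem oneLe_Root {K : Type} [Field K] (v : AbsoluteValue K ℝ) (d : ℕ) (a : ℕ → K) :
    (1 : ℝ) ≤ ∏ j ∈ Finset.range d, max (v (a j)) 1 := by
  induction d with
  | zero => simp
  | succ d ih =>
    rw [Finset.prod_range_succ]
    exact one_le_mul_of_one_le_of_one_le ih (le_max_right _ _)

private theorem monoProd_Root {K : Type} [Field K] (v : AbsoluteValue K ℝ) {d : ℕ}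
    (a b : ℕ → K) (h : ∀ j < d, v (b j) ≤ v (a j)) :
    ∏ j ∈ Finset.range d, max (v (b j)) 1 ≤ ∏ j ∈ Finset.range d, max (v (a j)) 1 := by
  refine Finset.prod_le_prod (fun j _ => le_trans zero_le_one (le_max_right _ _)) fun j hj => ?_
  exact max_le_max (h j (Finset.mem_range.1 hj)) le_rfl

private theorem root_Root {K : Type} [Field K] {v : AbsoluteValue K ℝ} {d : ℕ} (hd : 0 < d)
    (a : ℕ → K) (c : K) (h : c ^ d = ∑ j ∈ Finset.range d, a j * c ^ j) (hc : 1 < v c) :
    ∃ b : ℕ → K, c = ∑ j ∈ Finset.range d, b j ∧ ∀ j < d, v (b j) ≤ v (a j) := by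
  have hc0 : c ≠ 0 := by
    rintro rfl
    rw [map_zero] at hc
    linarith
  refine ⟨fun j => a j * (c ^ j / c ^ (d - 1)), ?_, fun j hj => ?_⟩
  · have h1 : c ^ d = c * c ^ (d - 1) := by
      rw [← pow_succ']
      congr 1
      omega
    have h2 : c * c ^ (d - 1) = (∑ j ∈ Finset.range d, a j * (c ^ j / c ^ (d - 1))) *
        c ^ (d - 1) := by
      rw [← h1, h, Finset.sum_mul]
      refine Finset.sum_congr rfl fun j _ => ?_
      rw [mul_assoc, div_mul_cancel₀ _ (pow_ne_zero _ hc0)]
    exact mul_right_cancel₀ (pow_ne_zero _ hc0) h2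
  · show v (a j * (c ^ j / c ^ (d - 1))) ≤ v (a j)
    rw [map_mul, map_div₀, map_pow, map_pow]
    refine mul_le_of_le_one_right (v.nonneg _) ?_
    rw [div_le_one (pow_pos (by linarith) _)]
    exact pow_le_pow_right₀ hc.le (by omega)

/-- the local estimate for the roots of a monic polynomial -/
private theorem loc_Root {K : Type} [Field K] (v : AbsoluteValue K ℝ) {d : ℕ} (hd : 0 < d)
    (a : ℕ → K) (c : K) (h : c ^ d = ∑ j ∈ Finset.range d, a j * c ^ j) :
    max (v c) 1 ≤ d * ∏ j ∈ Finset.range d, max (v (a j)) 1 := by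
  have hp := oneLe_Root v d a
  have hd1 : (1 : ℝ) ≤ d := by exact_mod_cast hd
  rcases le_or_gt (v c) 1 with h1 | h1
  · rw [max_eq_right h1]
    nlinarith
  · obtain ⟨b, hb, hb'⟩ := root_Root hd a c h h1
    have h2 := Finset.max_abv_sum_one_le v (s := Finset.range d)
      ⟨0, Finset.mem_range.2 hd⟩ b
    rw [← hb, Finset.card_range] at h2
    exact h2.trans (mul_le_mul_of_nonneg_left (monoProd_Root v a b hb') (by linarith))

private theorem locNon_Root {K : Type} [Field K] {v : AbsoluteValue K ℝ}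
    (hv : IsNonarchimedean v) {d : ℕ} (hd : 0 < d)
    (a : ℕ → K) (c : K) (h : c ^ d = ∑ j ∈ Finset.range d, a j * c ^ j) :
    max (v c) 1 ≤ ∏ j ∈ Finset.range d, max (v (a j)) 1 := by
  have hp := oneLe_Root v d a
  rcases le_or_gt (v c) 1 with h1 | h1
  · rw [max_eq_right h1]
    exact hp
  · obtain ⟨b, hb, hb'⟩ := root_Root hd a c h h1
    have h2 := Finset.max_abv_sum_one_le_of_isNonarchimedean hv (Finset.range d) b
    rw [← hb] at h2
    exact h2.trans (monoProd_Root v a b hb')

open Height AdmissibleAbsValues Finset Multiset in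
private theorem monic_Root {K : Type} [Field K] [NumberField K] {d : ℕ} (hd : 0 < d)
    (a : ℕ → K) (c : K) (h : c ^ d = ∑ j ∈ Finset.range d, a j * c ^ j) :
    Height.mulHeight₁ c ≤ (d : ℝ) ^ totalWeight K *
      ∏ j ∈ Finset.range d, Height.mulHeight₁ (a j) := by
  simp only [Height.mulHeight₁_eq, totalWeight]
  rw [prod_mul_distrib, ← prod_replicate, ← map_const, ← finprod_prod_comm _ _ (by fun_prop),
    ← prod_map_prod, ← mul_assoc, ← prod_map_mul]
  simp only [Function.const_apply]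
  gcongr
  · exact finprod_nonneg fun _ ↦ by positivity
  · exact prod_map_nonneg fun _ h ↦ by positivity
  · exact prod_map_le_prod_map₀ _ _ (fun _ _ ↦ by positivity) fun v _ ↦ loc_Root v hd a c h
  · exact finprod_le_finprod (by fun_prop) (fun _ ↦ by positivity) (by fun_prop) <|
      fun v ↦ locNon_Root (isNonarchimedean _ v.prop) hd a c h

private theorem int_Root (x : QQ) : IsIntegral ℚ x :=
  (AlgebraicClosure.isAlgebraic ℚ).isAlgebraic x |>.isIntegral

/-- every finite set of algebraic numbers is contained in a number field -/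
private theorem exists_Root (T : Finset QQ) : ∃ K : IntermediateField ℚ QQ,
    FiniteDimensional ℚ K ∧ ∀ x ∈ T, x ∈ K := by
  refine ⟨IntermediateField.adjoin ℚ (T : Set QQ), ?_, fun x hx =>
    IntermediateField.subset_adjoin ℚ _ hx⟩
  exact IntermediateField.finiteDimensional_adjoin fun x _ => int_Root x

open IntermediateField in
/-- the absolute height can be computed in every number field -/
private theorem abs_Root (K : IntermediateField ℚ QQ) [FiniteDimensional ℚ K]
    [NumberField K] {x : QQ} (hx : x ∈ K) :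
    absLogHeight₁ x = Height.logHeight₁ (⟨x, hx⟩ : K) / Module.finrank ℚ K := by
  have hint : IsIntegral ℚ x := int_Root x
  unfold absLogHeight₁ absMulHeight₁
  rw [dif_pos hint]
  have : FiniteDimensional ℚ ℚ⟮x⟯ := adjoin.finiteDimensional hint
  have : NumberField ℚ⟮x⟯ := {}
  have hle : ℚ⟮x⟯ ≤ K := by
    rw [adjoin_simple_le_iff]
    exact hx
  let _ : Algebra ℚ⟮x⟯ K := (inclusion hle).toAlgebra
  have h1 := ext_Root (k := ℚ⟮x⟯) (K := K) (AdjoinSimple.gen ℚ x)
  have h2 : algebraMap ℚ⟮x⟯ K (AdjoinSimple.gen ℚ x) = ⟨x, hx⟩ := rfl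
  have : IsScalarTower ℚ ℚ⟮x⟯ K := IsScalarTower.of_algebraMap_eq fun q => rfl
  have : Module.Free ℚ⟮x⟯ K := Module.Free.of_divisionRing _ _
  have : Module.Free ℚ ℚ⟮x⟯ := Module.Free.of_divisionRing _ _
  have h3 : Module.finrank ℚ ℚ⟮x⟯ * Module.finrank ℚ⟮x⟯ K = Module.finrank ℚ K :=
    Module.finrank_mul_finrank _ _ _
  rw [h2] at h1
  have h4 : (0 : ℝ) < Module.finrank ℚ ℚ⟮x⟯ := by
    exact_mod_cast Module.finrank_pos
  have h5 : (0 : ℝ) < Module.finrank ℚ⟮x⟯ K := by
    have : 0 < Module.finrank ℚ K := Module.finrank_pos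
    rw [← h3] at this
    exact_mod_cast pos_of_mul_pos_right this (Nat.zero_le _)
  rw [Height.logHeight₁_eq_log_mulHeight₁, h1, Real.log_pow, ← h3,
    Real.log_rpow (Height.mulHeight₁_pos _)]
  push_cast
  field_simp

private theorem neg_Root (x : QQ) : absLogHeight₁ (-x) = absLogHeight₁ x := by
  obtain ⟨K, hK, hx⟩ := exists_Root {x}
  have hx1 : x ∈ K := hx x (by simp)
  have : NumberField K := {}
  have h : (⟨-x, K.neg_mem hx1⟩ : K) = -(⟨x, hx1⟩ : K) := rfl
  rw [abs_Root K hx1, abs_Root K (K.neg_mem hx1), h, Height.logHeight₁_neg]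

private theorem aux_Root {d : ℕ} (hd : 0 < d) (a : ℕ → QQ) (c : QQ)
    (h : c ^ d = ∑ j ∈ Finset.range d, a j * c ^ j) :
    absLogHeight₁ c ≤ Real.log d + ∑ j ∈ Finset.range d, absLogHeight₁ (a j) := by
  classical
  obtain ⟨K, hK, hx⟩ := exists_Root (insert c ((Finset.range d).image a))
  have hc : c ∈ K := hx c (Finset.mem_insert_self _ _)
  have ha : ∀ j ∈ Finset.range d, a j ∈ K := fun j hj =>
    hx _ (Finset.mem_insert_of_mem (Finset.mem_image_of_mem a hj))
  have : NumberField K := {}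
  obtain ⟨b, hb⟩ : ∃ b : ℕ → K, ∀ j (hj : j ∈ Finset.range d), b j = ⟨a j, ha j hj⟩ :=
    ⟨fun j => if hj : j ∈ Finset.range d then ⟨a j, ha j hj⟩ else 0,
      fun j hj => dif_pos hj⟩
  have hK' : (⟨c, hc⟩ : K) ^ d = ∑ j ∈ Finset.range d, b j * (⟨c, hc⟩ : K) ^ j := by
    apply Subtype.ext
    push_cast
    rw [h]
    refine Finset.sum_congr rfl fun j hj => ?_
    rw [hb j hj]
  have h1 := monic_Root hd b ⟨c, hc⟩ hK'
  have hd' : (0 : ℝ) < d := by exact_mod_cast hd
  have h2 := Real.log_le_log (Height.mulHeight₁_pos _) h1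
  have hprod : (∏ j ∈ Finset.range d, Height.mulHeight₁ (b j)) ≠ 0 :=
    Finset.prod_ne_zero_iff.2 fun j _ => Height.mulHeight₁_ne_zero _
  rw [Real.log_mul (pow_ne_zero _ hd'.ne') hprod, Real.log_pow,
    Real.log_prod fun j _ => Height.mulHeight₁_ne_zero _, totalWeight_eq_finrank] at h2
  have h3 : (0 : ℝ) < Module.finrank ℚ K := by
    exact_mod_cast Module.finrank_pos
  have h4 : ∑ j ∈ Finset.range d, absLogHeight₁ (a j) =
      (∑ j ∈ Finset.range d, Real.log (Height.mulHeight₁ (b j))) / Module.finrank ℚ K := by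
    rw [Finset.sum_div]
    refine Finset.sum_congr rfl fun j hj => ?_
    rw [abs_Root K (ha j hj), hb j hj, Height.logHeight₁_eq_log_mulHeight₁]
  rw [abs_Root K hc, h4, Height.logHeight₁_eq_log_mulHeight₁, div_le_iff₀ h3, add_mul,
    div_mul_cancel₀ _ h3.ne']
  linarith

theorem ht_nonneg (x : QQ) : 0 ≤ absLogHeight₁ x := by
  obtain ⟨K, hK, hx⟩ := exists_Root {x}
  have : NumberField K := {}
  rw [abs_Root K (hx x (by simp))]
  exact div_nonneg (Height.zero_le_logHeight₁ _) (Nat.cast_nonneg _)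

theorem ht_inv (x : QQ) : absLogHeight₁ x⁻¹ = absLogHeight₁ x := by
  obtain ⟨K, hK, hx⟩ := exists_Root {x}
  have hx1 : x ∈ K := hx x (by simp)
  have : NumberField K := {}
  have h : (⟨x⁻¹, K.inv_mem hx1⟩ : K) = (⟨x, hx1⟩ : K)⁻¹ := rfl
  rw [abs_Root K hx1, abs_Root K (K.inv_mem hx1), h, Height.logHeight₁_inv]

theorem ht_mul (x y : QQ) :
    absLogHeight₁ (x * y) ≤ absLogHeight₁ x + absLogHeight₁ y := by
  classical
  obtain ⟨K, hK, hx⟩ := exists_Root {x, y}
  have hx1 : x ∈ K := hx x (by simp)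
  have hy1 : y ∈ K := hx y (by simp)
  have : NumberField K := {}
  have h : (⟨x * y, K.mul_mem hx1 hy1⟩ : K) = (⟨x, hx1⟩ : K) * ⟨y, hy1⟩ := rfl
  rw [abs_Root K hx1, abs_Root K hy1, abs_Root K (K.mul_mem hx1 hy1), ← add_div, h]
  exact div_le_div_of_nonneg_right (Height.logHeight₁_mul_le _ _) (Nat.cast_nonneg _)

theorem ht_add (x y : QQ) :
    absLogHeight₁ (x + y) ≤ absLogHeight₁ x + absLogHeight₁ y + Real.log 2 := by
  classical
  obtain ⟨K, hK, hx⟩ := exists_Root {x, y}
  have hx1 : x ∈ K := hx x (by simp)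
  have hy1 : y ∈ K := hx y (by simp)
  have : NumberField K := {}
  have h : (⟨x + y, K.add_mem hx1 hy1⟩ : K) = (⟨x, hx1⟩ : K) + ⟨y, hy1⟩ := rfl
  have h3 : (0 : ℝ) < Module.finrank ℚ K := by
    exact_mod_cast Module.finrank_pos
  have h1 := Height.logHeight₁_add_le (⟨x, hx1⟩ : K) ⟨y, hy1⟩
  rw [totalWeight_eq_finrank] at h1
  rw [abs_Root K hx1, abs_Root K hy1, abs_Root K (K.add_mem hx1 hy1), ← add_div, h,
    div_le_iff₀ h3, add_mul, div_mul_cancel₀ _ h3.ne']
  linarith

theorem ht_eval (P : Polynomial QQ) (B : ℝ) :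
    ∃ C : ℝ, ∀ x : QQ, absLogHeight₁ x ≤ B → absLogHeight₁ (P.eval x) ≤ C := by
  induction P using Polynomial.induction_on' with
  | add p q hp hq =>
    obtain ⟨C₁, h₁⟩ := hp
    obtain ⟨C₂, h₂⟩ := hq
    refine ⟨C₁ + C₂ + Real.log 2, fun x hx => ?_⟩
    rw [Polynomial.eval_add]
    have h3 := ht_add (p.eval x) (q.eval x)
    linarith [h₁ x hx, h₂ x hx]
  | monomial n a =>
    refine ⟨absLogHeight₁ a + (absLogHeight₁ (1 : QQ) + n * B), fun x hx => ?_⟩
    have hpow : ∀ n : ℕ, absLogHeight₁ (x ^ n) ≤ absLogHeight₁ (1 : QQ) + n * B := by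
      intro n
      induction n with
      | zero => simp
      | succ n ih =>
        rw [pow_succ]
        have h3 := ht_mul (x ^ n) x
        push_cast
        linarith
    rw [Polynomial.eval_monomial]
    linarith [ht_mul a (x ^ n), hpow n]

theorem ht_root (n : ℕ) (B : ℝ) :
    ∃ C : ℝ, ∀ (P : Polynomial QQ) (c : QQ), P ≠ 0 → P.natDegree ≤ n →
      (∀ j, absLogHeight₁ (P.coeff j) ≤ B) → P.eval c = 0 → absLogHeight₁ c ≤ C := by
  refine ⟨Real.log n + n * (B + B), fun P c hP hdeg hco hev => ?_⟩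
  have hB : 0 ≤ B := (ht_nonneg _).trans (hco 0)
  have hd : 0 < P.natDegree := by
    by_contra hcon
    have h0 : P.natDegree = 0 := by omega
    rw [Polynomial.eq_C_of_natDegree_eq_zero h0, Polynomial.eval_C] at hev
    apply hP
    rw [Polynomial.eq_C_of_natDegree_eq_zero h0, hev, Polynomial.C_0]
  have hlc : P.leadingCoeff ≠ 0 := Polynomial.leadingCoeff_ne_zero.2 hP
  have hrel : c ^ P.natDegree = ∑ j ∈ Finset.range P.natDegree,
      (P.coeff j * (-P.leadingCoeff)⁻¹) * c ^ j := by
    rw [Polynomial.eval_eq_sum_range, Finset.sum_range_succ] at hev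
    have h1 : ∑ j ∈ Finset.range P.natDegree, P.coeff j * c ^ j =
        -P.leadingCoeff * c ^ P.natDegree := by
      rw [Polynomial.leadingCoeff]
      linear_combination hev
    have h2 : ∑ j ∈ Finset.range P.natDegree, (P.coeff j * (-P.leadingCoeff)⁻¹) * c ^ j =
        (-P.leadingCoeff)⁻¹ * ∑ j ∈ Finset.range P.natDegree, P.coeff j * c ^ j := by
      rw [Finset.mul_sum]
      exact Finset.sum_congr rfl fun j _ => by ring
    rw [h2, h1, inv_mul_cancel_left₀ (neg_ne_zero.2 hlc)]
  have h1 := aux_Root hd _ c hrel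
  have h2 : ∀ j ∈ Finset.range P.natDegree,
      absLogHeight₁ (P.coeff j * (-P.leadingCoeff)⁻¹) ≤ B + B := by
    intro j _
    refine (ht_mul _ _).trans (add_le_add (hco j) ?_)
    rw [ht_inv, neg_Root]
    exact hco _
  have h3 := Finset.sum_le_sum h2
  rw [Finset.sum_const, Finset.card_range, nsmul_eq_mul] at h3
  have h4 : (P.natDegree : ℝ) ≤ n := by exact_mod_cast hdeg
  have h5 : (0 : ℝ) < P.natDegree := by exact_mod_cast hd
  have h6 := Real.log_le_log h5 h4
  have h7 : (P.natDegree : ℝ) * (B + B) ≤ n * (B + B) :=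
    mul_le_mul_of_nonneg_right h4 (by linarith)
  linarith

end Pool.Agent.Clo
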