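import Pool.Agent.Dess.Dede
import Pool.Agent.Clo.Root

/-!
# Comparison of heights on a curve

PROOF. `f` is algebraic over `QQ(g)` (`fin_adjoin`): let `P ∈ QQ[X][Y]` be a nonzero polynomial with
`P(g, f) = 0`. There are only finitely many `d ∈ QQ` with `P(d, Y) = 0` (common roots of the
coefficients), and only finitely many places above them (`finite_at`); take the maximum of the
heights of the values of `f` at these places. For the other `d` the value `c` of `f` is a root of
the
nonzero polynomial `P(d, Y)`, of degree at most `deg_Y P`, the coefficients of which are values of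
fixed polynomials at `d`, so their heights are bounded (`ht_eval`, `ht_root` of
`Root.lean`).
-/

set_option autoImplicit false

noncomputable section

namespace Pool.Agent.Clo

open Pool.Agent.ZCyc Pool.Agent.Dess
open scoped Classical

open scoped IntermediateField.algebraAdjoinAdjoin in
open Polynomial in
/-- The relation between two functions. -/
private theorem rel_Cmp {F : Type} [Field F] [Algebra QQ F] (hF : IsCurve QQ F) (f : F) {g : F}
    (hg : Transcendental QQ g) :
    ∃ P : QQ[X][X], P ≠ 0 ∧ P.eval₂ (aeval g : QQ[X] →ₐ[QQ] F).toRingHom f = 0 := by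
  have h1 := fin_adjoin hF hg
  have h2 : Algebra.IsAlgebraic (IntermediateField.adjoin QQ {g}) F := inferInstance
  have h3 : Algebra.IsAlgebraic (Algebra.adjoin QQ {g}) F :=
    (IsFractionRing.comap_isAlgebraic_iff (A := Algebra.adjoin QQ {g})
      (K := IntermediateField.adjoin QQ {g}) (C := F)).2 h2
  obtain ⟨q, hq0, hq⟩ := h3.isAlgebraic f
  set φ : QQ[X] →+* Algebra.adjoin QQ {g} :=
    (aeval (⟨g, Algebra.self_mem_adjoin_singleton QQ g⟩ : Algebra.adjoin QQ {g})).toRingHom
    with hφ
  have hcomp : (algebraMap (Algebra.adjoin QQ {g}) F).comp φ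
      = (aeval g : QQ[X] →ₐ[QQ] F).toRingHom := by
    have h4 : ((Algebra.adjoin QQ {g}).val.comp
        (aeval (⟨g, Algebra.self_mem_adjoin_singleton QQ g⟩ : Algebra.adjoin QQ {g})))
        = (aeval g : QQ[X] →ₐ[QQ] F) := by
      apply Polynomial.algHom_ext
      simp
    rw [← h4]
    rfl
  have hsurj : Function.Surjective φ := by
    rintro ⟨a, ha⟩
    have ha' := ha
    rw [Algebra.adjoin_singleton_eq_range_aeval] at ha'
    obtain ⟨r, hr⟩ := ha'
    refine ⟨r, Subtype.ext ?_⟩
    have h5 := RingHom.congr_fun hcomp r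
    exact h5.trans hr
  obtain ⟨P, hP⟩ := Polynomial.map_surjective φ hsurj q
  refine ⟨P, ?_, ?_⟩
  · rintro rfl
    exact hq0 (by rw [← hP, Polynomial.map_zero])
  · rw [← hcomp, ← Polynomial.eval₂_map, hP]
    exact hq

open Polynomial in
theorem height_compare {F : Type} [Field F] [Algebra QQ F] (hF : IsCurve QQ F) {f g : F}
    (hg : Transcendental QQ g) (B : ℝ) : ∃ C : ℝ, ∀ (p : Place QQ F) (c d : QQ),
      p.At f c → p.At g d → NumberField.absLogHeight₁ d ≤ B →
        NumberField.absLogHeight₁ c ≤ C := by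
  obtain ⟨P, hP0, hP⟩ := rel_Cmp hF f hg
  -- the value is a root
  have hroot : ∀ (p : Place QQ F) (c d : QQ), p.At f c → p.At g d →
      (P.map (Polynomial.evalRingHom d)).eval c = 0 := by
    intro p c d hc hd
    have h1 : p.At (P.eval₂ (aeval g : QQ[X] →ₐ[QQ] F).toRingHom f)
        (∑ i ∈ Finset.range (P.natDegree + 1), (P.coeff i).eval d * c ^ i) := by
      rw [Polynomial.eval₂_eq_sum_range]
      exact Place.At.sum fun i _ => (hd.aeval (P.coeff i)).mul (hc.pow i)
    rw [hP] at h1
    have h2 : p.At (0 : F) 0 := by simpa using Place.at_const (v := p) (0 : QQ)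
    rw [Polynomial.eval_map, Polynomial.eval₂_eq_sum_range]
    exact h1.unique h2
  choose C hC using fun j => ht_eval (P.coeff j) B
  obtain ⟨B', hB'⟩ : ∃ B' : ℝ, B' = ∑ j ∈ Finset.range (P.natDegree + 2), |C j| := ⟨_, rfl⟩
  have hCB : ∀ j ∈ Finset.range (P.natDegree + 2), C j ≤ B' := fun j hj => by
    rw [hB']
    exact (le_abs_self _).trans
      (Finset.single_le_sum (f := fun j => |C j|) (fun i _ => abs_nonneg _) hj)
  have hco : ∀ (d : QQ), NumberField.absLogHeight₁ d ≤ B → ∀ j,
      NumberField.absLogHeight₁ ((P.map (Polynomial.evalRingHom d)).coeff j) ≤ B' := by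
    intro d hd j
    rw [Polynomial.coeff_map, Polynomial.coe_evalRingHom]
    by_cases hj : j < P.natDegree + 2
    · exact (hC j d hd).trans (hCB j (Finset.mem_range.2 hj))
    · have h1 : P.coeff j = P.coeff (P.natDegree + 1) := by
        rw [Polynomial.coeff_eq_zero_of_natDegree_lt (by omega),
          Polynomial.coeff_eq_zero_of_natDegree_lt (by omega)]
      rw [h1]
      exact (hC _ d hd).trans (hCB _ (Finset.mem_range.2 (by omega)))
  obtain ⟨C₁, hC₁⟩ := ht_root P.natDegree B'
  -- the finitely many other values of `g`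
  obtain ⟨i₀, hi₀⟩ : ∃ i, P.coeff i ≠ 0 := by
    by_contra h
    rw [not_exists] at h
    exact hP0 (Polynomial.ext fun i => by rw [not_not.1 (h i), Polynomial.coeff_zero])
  have hfin : (⋃ d ∈ (P.coeff i₀).roots.toFinset, {p : Place QQ F | p.At g d}).Finite :=
    Set.Finite.biUnion (Finset.finite_toSet _) fun d _ => finite_at hF hg d
  obtain ⟨val, hval⟩ : ∃ val : Place QQ F → ℝ, ∀ p, 0 ≤ val p ∧ ∀ c, p.At f c →
      NumberField.absLogHeight₁ c ≤ val p := by
    refine ⟨fun p => if h : ∃ c, p.At f c then NumberField.absLogHeight₁ h.choose else 0,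
      fun p => ⟨?_, fun c hc => ?_⟩⟩
    · show 0 ≤ if h : ∃ c, p.At f c then NumberField.absLogHeight₁ h.choose else 0
      split_ifs
      · exact ht_nonneg _
      · exact le_rfl
    · have h : ∃ c, p.At f c := ⟨c, hc⟩
      have h1 := h.choose_spec.unique hc
      show _ ≤ if h : ∃ c, p.At f c then NumberField.absLogHeight₁ h.choose else 0
      rw [dif_pos h, h1]
  refine ⟨max C₁ (∑ p ∈ hfin.toFinset, val p), fun p c d hc hd hB => ?_⟩
  by_cases h0 : P.map (Polynomial.evalRingHom d) = 0
  · have h1 : (P.coeff i₀).eval d = 0 := by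
      have h2 := congrArg (fun Q => Q.coeff i₀) h0
      simpa [Polynomial.coeff_map] using h2
    have h2 : p ∈ hfin.toFinset := by
      rw [Set.Finite.mem_toFinset]
      refine Set.mem_biUnion (x := d) ?_ hd
      simp [hi₀, h1]
    refine ((hval p).2 c hc).trans (le_trans ?_ (le_max_right _ _))
    exact Finset.single_le_sum (f := val) (fun q _ => (hval q).1) h2
  · exact (hC₁ _ c h0 Polynomial.natDegree_map_le (hco d hB) (hroot p c d hc hd)).trans
      (le_max_left _ _)

end Pool.Agent.Clo
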