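import Pool.Agent.Clo.Defs

/-!
# Positive semidefinite kernels

`PSD K`: the kernel `K` on the set `X` is symmetric and positive semidefinite.

PROOFS. `psd_mul` is Schur's product theorem: in Mathlib it is `Matrix.PosSemidef.hadamard` (file
`Mathlib/Analysis/Matrix/Order.lean`; search for `hadamard`). For a finset `s` consider the real
matrices `fun x y : s => K x y`, `K' x y`; they are positive semidefinite (the quadratic form of a
vector `c : s → ℝ` is the sum in `PSD` for the extension of `c` by zero; `Finset.sum_coe_sort` or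
`Finset.sum_attach`). `psd_add`, `psd_smul`, `psd_const`, `psd_comap` are direct: for `psd_comap`
(the map `g : Y → X` need not be injective) put `c' x = ∑ y ∈ s with g y = x, c y`, and use the
finset `s.image g`; `Finset.sum_fiberwise_of_maps_to`. `psd_sum`, `psd_prod`: induction on `s`.
`psd_abs`: for `x = y` clear (`0 ≤ K x x` from the finset `{x}`). For `x ≠ y` use the finset
`{x, y}` with `c = (1, ± 1)`: `0 ≤ K x x ± 2 K x y + K y y`, so `2 |K x y| ≤ K x x + K y y ≤ 2 C`.
`psd_lower`: induction on the finset `t`; with `P = ∏ i ∈ t, (1 + b i)`, `Σ = ∑ i ∈ t, b i`,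
`(1 + b a) P - 1 - (b a + Σ) = (P - 1 - Σ) (1 + b a) + b a * Σ`.
-/

set_option autoImplicit false

noncomputable section

namespace Pool.Agent.Clo

open scoped Classical

/-- positive semidefinite kernels -/
def PSD {X : Type} (K : X → X → ℝ) : Prop :=
  (∀ x y, K x y = K y x) ∧
    ∀ (s : Finset X) (c : X → ℝ), 0 ≤ ∑ x ∈ s, ∑ y ∈ s, c x * c y * K x y

section Basic

variable {X Y : Type} {K K' : X → X → ℝ}

private theorem psd_iff (K : X → X → ℝ) : PSD K ↔ Matrix.PosSemidef (Matrix.of K) := by
  constructor
  · rintro ⟨h1, h2⟩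
    refine ⟨?_, fun x => ?_⟩
    · ext i j
      rw [Matrix.conjTranspose_apply, Matrix.of_apply, Matrix.of_apply, star_trivial, h1]
    · refine (h2 x.support x).trans (le_of_eq ?_)
      rw [Finsupp.sum]
      refine Finset.sum_congr rfl fun i _ => ?_
      rw [Finsupp.sum]
      refine Finset.sum_congr rfl fun j _ => ?_
      rw [Matrix.of_apply, star_trivial]
      ring
  · rintro ⟨h1, h2⟩
    refine ⟨fun x y => ?_, fun s c => ?_⟩
    · have h3 := congrFun (congrFun h1 x) y
      rw [Matrix.conjTranspose_apply, Matrix.of_apply, Matrix.of_apply, star_trivial] at h3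
      exact h3.symm
    · let x : X →₀ ℝ := Finsupp.onFinset s (fun i => if i ∈ s then c i else 0) (by
        intro i hi
        by_contra hc
        exact hi (if_neg hc))
      have hx : ∀ i ∈ s, x i = c i := fun i hi => if_pos hi
      refine (h2 x).trans (le_of_eq ?_)
      rw [Finsupp.sum_of_support_subset x Finsupp.support_onFinset_subset]
      · refine Finset.sum_congr rfl fun i hi => ?_
        rw [Finsupp.sum_of_support_subset x Finsupp.support_onFinset_subset]
        · refine Finset.sum_congr rfl fun j hj => ?_
          rw [Matrix.of_apply, star_trivial, hx i hi, hx j hj]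
          ring
        · intro j _
          rw [mul_zero]
      · intro i _
        simp

theorem psd_mul (h : PSD K) (h' : PSD K') : PSD fun x y => K x y * K' x y := by
  rw [psd_iff] at h h' ⊢
  exact h.hadamard h'

theorem psd_add (h : PSD K) (h' : PSD K') : PSD fun x y => K x y + K' x y := by
  refine ⟨fun x y => congrArg₂ _ (h.1 x y) (h'.1 x y), fun s c => ?_⟩
  refine (add_nonneg (h.2 s c) (h'.2 s c)).trans (le_of_eq ?_)
  rw [← Finset.sum_add_distrib]
  refine Finset.sum_congr rfl fun i _ => ?_
  rw [← Finset.sum_add_distrib]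
  refine Finset.sum_congr rfl fun j _ => ?_
  ring

theorem psd_const {a : ℝ} (ha : 0 ≤ a) : PSD fun _ _ : X => a := by
  refine ⟨fun _ _ => rfl, fun s c => ?_⟩
  have h1 : ∑ x ∈ s, ∑ y ∈ s, c x * c y * a = a * (∑ x ∈ s, c x) ^ 2 := by
    rw [pow_two, Finset.sum_mul_sum, Finset.mul_sum]
    refine Finset.sum_congr rfl fun i _ => ?_
    rw [Finset.mul_sum]
    refine Finset.sum_congr rfl fun j _ => ?_
    ring
  rw [h1]
  positivity

theorem psd_comap (h : PSD K) (g : Y → X) : PSD fun x y : Y => K (g x) (g y) := by
  rw [psd_iff] at h ⊢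
  exact h.submatrix g

theorem psd_diag (h : PSD K) (x : X) : 0 ≤ K x x := by
  have h1 := h.2 {x} fun _ => 1
  rw [Finset.sum_singleton, Finset.sum_singleton, one_mul, one_mul] at h1
  exact h1

theorem psd_abs (h : PSD K) {x y : X} {C : ℝ} (hx : K x x ≤ C) (hy : K y y ≤ C) :
    |K x y| ≤ C := by
  by_cases hxy : x = y
  · subst hxy
    rw [abs_of_nonneg (psd_diag h x)]
    exact hx
  · have key : ∀ r : ℝ, 0 ≤ K x x + 2 * r * K x y + r ^ 2 * K y y := by
      intro r
      have h1 := h.2 {x, y} fun z => if z = x then 1 else r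
      rw [Finset.sum_pair hxy, Finset.sum_pair hxy, Finset.sum_pair hxy, if_pos rfl,
        if_neg (Ne.symm hxy), h.1 y x] at h1
      refine h1.trans (le_of_eq ?_)
      ring
    have h1 := key 1
    have h2 := key (-1)
    rw [abs_le]
    constructor <;> linarith

end Basic

section Fin

variable {ι : Type} {X : Type}

theorem psd_sum (t : Finset ι) {K : ι → X → X → ℝ} (h : ∀ i ∈ t, PSD (K i)) :
    PSD fun x y => ∑ i ∈ t, K i x y := by
  induction t using Finset.induction_on with
  | empty =>
    simp only [Finset.sum_empty]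
    exact psd_const le_rfl
  | insert a t ha ih =>
    simp only [Finset.sum_insert ha]
    exact psd_add (h a (Finset.mem_insert_self a t))
      (ih fun i hi => h i (Finset.mem_insert_of_mem hi))

theorem psd_prod (t : Finset ι) {K : ι → X → X → ℝ} (h : ∀ i ∈ t, PSD (K i)) :
    PSD fun x y => ∏ i ∈ t, K i x y := by
  induction t using Finset.induction_on with
  | empty =>
    simp only [Finset.prod_empty]
    exact psd_const zero_le_one
  | insert a t ha ih =>
    simp only [Finset.prod_insert ha]
    exact psd_mul (h a (Finset.mem_insert_self a t))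
      (ih fun i hi => h i (Finset.mem_insert_of_mem hi))

theorem psd_lower (t : Finset ι) {b : ι → X → X → ℝ} (h : ∀ i ∈ t, PSD (b i)) :
    PSD fun x y => (∏ i ∈ t, (1 + b i x y)) - 1 - ∑ i ∈ t, b i x y := by
  induction t using Finset.induction_on with
  | empty =>
    simp only [Finset.prod_empty, Finset.sum_empty, sub_self]
    exact psd_const le_rfl
  | insert a t ha ih =>
    have h0 := h a (Finset.mem_insert_self a t)
    have h1 := ih fun i hi => h i (Finset.mem_insert_of_mem hi)
    have h2 := psd_sum t fun i hi => h i (Finset.mem_insert_of_mem hi)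
    have h3 := psd_add (psd_mul h1 (psd_add (psd_const zero_le_one) h0)) (psd_mul h0 h2)
    simp only [Finset.prod_insert ha, Finset.sum_insert ha]
    refine cast ?_ h3
    congr 1
    funext x y
    ring

end Fin

end Pool.Agent.Clo
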