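import Pool.Agent.Clo.Act
import Pool.Agent.Clo.Psd
import Pool.Agent.Clo.Cmp

/-!
# Operations on kernels

PROOFS. `kernel_const`: `psd_const`. `kernel_mul`: `psd_mul` (both directions between `PSD` and the
fields of `Kernel` are clear), and for the bound: `0 ≤ A p p ≤ C`, `0 ≤ B p p ≤ C'` (`psd_diag`)
give
`A p p * B p p ≤ C * C'`. `kernel_add`: clear. `inv_mul`: the union of the finsets, `inv_mono`.
`exists_gens`: a function field is finitely generated: see `model_fg` in
`Pool/Agent/Dess/Model.lean`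
(private; copy the proof).

`kernel_pull`: positive semidefinite by `psd_comap`. Bound: let `f` be transcendental in `F` and
`B : ℝ`. Let `h₀ ∈ L` be transcendental (`IsCurve`), with image `h ∈ F`. By `height_compare` there
is
`C₁` with `absLogHeight₁ c' ≤ C₁` if `v.At h c'`, `v.At f c`, `absLogHeight₁ c ≤ B`. By the bound
of `A` for `h₀` and `C₁` there is `C₂` with `A p p ≤ C₂` if `p.At h₀ c'`, `absLogHeight₁ c' ≤ C₁`.
If `v` is a point with `v.At f c`, and `h` is regular at `v`, it has a value `c'` (`exists_at`), and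
`(g v).At h₀ c'` (`comap_at` of `Pool/Agent/Dess4/Local.lean`, or directly), so `A (g v) (g v) ≤
C₂`.
The set of the points `v` where `h` is not regular is finite (`finite_pole`); take the maximum of
`C₂` and of the values at these points.

`inv_pull`: let `A` be invariant with respect to `S`, and `S₁` a finite set of generators of `L`.
Put `S' = (S ∪ S₁).image f`. Let `Fixes S' ρ r`. Then `r` maps the image of `L` onto itself: the set
of the `x ∈ L` with `r (f x) ∈ f.range` is a subfield which contains the constants and `S₁`, so it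
is
everything (`IntermediateField.adjoin_le_iff` or `adjoin_induction`), and the same holds for
`r.symm` (it fixes `S'` and acts on the constants by `ρ.symm`). So there is `r₀ : L ≃+* L` with
`f (r₀ x) = r (f x)` (`RingEquiv.ofBijective`, or with the inverse constructed in the same way),
`Fixes S ρ r₀`. If `Moves r p p'`, then `Moves r₀ (g p) (g p')`: `r₀ x ∈ (g p').ring` iff
`f (r₀ x) = r (f x) ∈ p'.ring` iff `f x ∈ p.ring` iff `x ∈ (g p).ring`.
-/

set_option autoImplicit false

noncomputable section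

namespace Pool.Agent.Clo

open Pool.Agent.ZCyc Pool.Agent.Dess
open scoped Classical

section Ops

variable {F : Type} [Field F] [Algebra QQ F] {A B : Place QQ F → Place QQ F → ℝ}

private theorem psd_Pull (hA : Kernel A) : PSD A := ⟨hA.symm, hA.psd⟩

theorem kernel_const {a : ℝ} (ha : 0 ≤ a) : Kernel fun _ _ : Place QQ F => a where
  symm := (psd_const ha).1
  psd := (psd_const ha).2
  bdd := fun _ _ _ => ⟨a, fun _ _ _ _ => le_rfl⟩

theorem kernel_mul (hA : Kernel A) (hB : Kernel B) : Kernel fun p q => A p q * B p q where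
  symm := (psd_mul (psd_Pull hA) (psd_Pull hB)).1
  psd := (psd_mul (psd_Pull hA) (psd_Pull hB)).2
  bdd := by
    intro f hf b
    obtain ⟨C, hC⟩ := hA.bdd f hf b
    obtain ⟨C', hC'⟩ := hB.bdd f hf b
    refine ⟨C * C', fun p c hc hb => ?_⟩
    have h1 := psd_diag (psd_Pull hA) p
    have h2 := psd_diag (psd_Pull hB) p
    exact mul_le_mul (hC p c hc hb) (hC' p c hc hb) h2 (h1.trans (hC p c hc hb))

theorem kernel_add (hA : Kernel A) (hB : Kernel B) : Kernel fun p q => A p q + B p q where
  symm := (psd_add (psd_Pull hA) (psd_Pull hB)).1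
  psd := (psd_add (psd_Pull hA) (psd_Pull hB)).2
  bdd := by
    intro f hf b
    obtain ⟨C, hC⟩ := hA.bdd f hf b
    obtain ⟨C', hC'⟩ := hB.bdd f hf b
    exact ⟨C + C', fun p c hc hb => add_le_add (hC p c hc hb) (hC' p c hc hb)⟩

theorem inv_const (a : ℝ) : Inv (∅ : Finset F) fun _ _ : Place QQ F => a :=
  fun _ _ _ _ _ _ _ _ _ => rfl

theorem inv_mul {S T : Finset F} (hA : Inv S A) (hB : Inv T B) :
    Inv (S ∪ T) fun p q => A p q * B p q := by
  intro ρ r h p p' q q' hp hq
  show A p' q' * B p' q' = A p q * B p q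
  rw [hA ρ r (fixes_mono Finset.subset_union_left h) p p' q q' hp hq,
    hB ρ r (fixes_mono Finset.subset_union_right h) p p' q q' hp hq]

theorem exists_gens (hF : IsCurve QQ F) :
    ∃ S : Finset F, IntermediateField.adjoin QQ (S : Set F) = ⊤ := by
  obtain ⟨t, _, hfin⟩ := hF
  obtain ⟨S, hS⟩ := hfin.fg_top
  refine ⟨insert t S, ?_⟩
  rw [eq_top_iff]
  intro x _
  have hx : x ∈ Submodule.span (IntermediateField.adjoin QQ {t}) (S : Set F) := by
    rw [hS]
    exact Submodule.mem_top
  have hle : IntermediateField.adjoin QQ {t} ≤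
      IntermediateField.adjoin QQ ((insert t S : Finset F) : Set F) := by
    apply IntermediateField.adjoin.mono
    intro z hz
    rw [Set.mem_singleton_iff] at hz
    rw [hz]
    simp
  induction hx using Submodule.span_induction with
  | mem x h =>
    apply IntermediateField.subset_adjoin
    simp [h]
  | zero => exact zero_mem _
  | add x y _ _ hx hy => exact add_mem (hx IntermediateField.mem_top) (hy IntermediateField.mem_top)
  | smul c x _ hx =>
    rw [Algebra.smul_def]
    exact mul_mem (hle c.2) (hx IntermediateField.mem_top)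

end Ops

section Pull

variable {F L : Type} [Field F] [Algebra QQ F] [Field L] [Algebra QQ L]

private theorem mem_Pull {f : L →ₐ[QQ] F} {v : Place QQ F} {w : Place QQ L}
    (h : w.ring = v.ring.comap (f : L →+* F)) (x : L) : x ∈ w.ring ↔ f x ∈ v.ring := by
  rw [h, ValuationSubring.mem_comap]
  rfl

private theorem inj_Pull (f : L →ₐ[QQ] F) : Function.Injective f := (f : L →+* F).injective

private theorem at_Pull {f : L →ₐ[QQ] F} {v : Place QQ F} {w : Place QQ L}
    (h : w.ring = v.ring.comap (f : L →+* F)) (x : L) (c : QQ) : v.At (f x) c → w.At x c := by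
  intro h1
  unfold Place.At at h1 ⊢
  rw [v.vanishes_iff_or] at h1
  rw [w.vanishes_iff_or, mem_Pull h, map_inv₀, map_sub, AlgHom.commutes]
  rcases h1 with h1 | h1
  · left
    apply inj_Pull f
    rw [map_sub, AlgHom.commutes, h1, map_zero]
  · exact Or.inr h1

theorem kernel_pull (hL : IsCurve QQ L) (hF : IsCurve QQ F) (f : L →ₐ[QQ] F)
    (g : Place QQ F → Place QQ L) (hg : ∀ v, (g v).ring = v.ring.comap (f : L →+* F))
    {A : Place QQ L → Place QQ L → ℝ} (hA : Kernel A) : Kernel fun v w => A (g v) (g w) where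
  symm := fun v w => hA.symm _ _
  psd := (psd_comap (psd_Pull hA) g).2
  bdd := by
    intro f' hf' b
    obtain ⟨t, ht, _⟩ := hL
    have hft : Transcendental QQ (f t) := fun h => ht ((isAlgebraic_algHom_iff f (inj_Pull f)).1 h)
    obtain ⟨C₁, hC₁⟩ := height_compare hF (f := f t) hf' b
    obtain ⟨C₂, hC₂⟩ := hA.bdd t ht C₁
    obtain ⟨E, hE⟩ : ∃ E : Finset (Place QQ F), ∀ v, v ∈ E ↔ f t ∉ v.ring :=
      ⟨(finite_pole hF hft).toFinset, fun v => by simp⟩
    have h0 : 0 ≤ ∑ v ∈ E, |A (g v) (g v)| := Finset.sum_nonneg fun _ _ => abs_nonneg _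
    refine ⟨|C₂| + ∑ v ∈ E, |A (g v) (g v)|, fun v c hc hb => ?_⟩
    by_cases hv : v ∈ E
    · have h1 := Finset.single_le_sum (f := fun v => |A (g v) (g v)|)
        (fun _ _ => abs_nonneg _) hv
      have h2 := le_abs_self (A (g v) (g v))
      have h3 := abs_nonneg C₂
      linarith
    · rw [hE, not_not] at hv
      obtain ⟨c', hc'⟩ := exists_at hF v hv
      have h1 := hC₂ (g v) c' (at_Pull (hg v) t c' hc') (hC₁ v c' c hc' hc hb)
      have h2 := le_abs_self C₂
      linarith

theorem inv_pull (hL : IsCurve QQ L) (f : L →ₐ[QQ] F)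
    (g : Place QQ F → Place QQ L) (hg : ∀ v, (g v).ring = v.ring.comap (f : L →+* F))
    {A : Place QQ L → Place QQ L → ℝ} (hA : ∃ S, Inv S A) :
    ∃ S, Inv S fun v w => A (g v) (g w) := by
  obtain ⟨S, hS⟩ := hA
  obtain ⟨S₁, hS₁⟩ := exists_gens hL
  refine ⟨(S ∪ S₁).image f, ?_⟩
  have key : ∀ (ρ : Gam) (r : F ≃+* F), (∀ s ∈ S₁, r (f s) = f s) →
      (∀ c : QQ, r (algebraMap QQ F c) = algebraMap QQ F (ρ c)) →
      ∀ x : L, ∃ y : L, f y = r (f x) := by
    intro ρ r h1 h2 x
    have hx : x ∈ IntermediateField.adjoin QQ (S₁ : Set L) := by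
      rw [hS₁]
      exact IntermediateField.mem_top
    refine IntermediateField.adjoin_induction (F := QQ) (s := (S₁ : Set L))
      (p := fun x _ => ∃ y : L, f y = r (f x)) ?_ ?_ ?_ ?_ ?_ hx
    · intro x hx
      exact ⟨x, (h1 x hx).symm⟩
    · intro c
      refine ⟨algebraMap QQ L (ρ c), ?_⟩
      rw [AlgHom.commutes, AlgHom.commutes, h2]
    · rintro x y _ _ ⟨x', hx'⟩ ⟨y', hy'⟩
      exact ⟨x' + y', by rw [map_add, map_add, map_add, hx', hy']⟩
    · rintro x _ ⟨x', hx'⟩
      exact ⟨x'⁻¹, by rw [map_inv₀, map_inv₀, map_inv₀, hx']⟩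
    · rintro x y _ _ ⟨x', hx'⟩ ⟨y', hy'⟩
      exact ⟨x' * y', by rw [map_mul, map_mul, map_mul, hx', hy']⟩
  intro ρ r hr p p' q q' hp hq
  have hfix : ∀ s ∈ S ∪ S₁, r (f s) = f s := fun s hs => hr.1 _ (Finset.mem_image_of_mem _ hs)
  have k1 := key ρ r (fun s hs => hfix s (Finset.mem_union_right _ hs)) hr.2
  have k2 := key ρ.symm r.symm
    (fun s hs => by
      rw [RingEquiv.symm_apply_eq]
      exact (hfix s (Finset.mem_union_right _ hs)).symm)
    (fun c => by
      rw [RingEquiv.symm_apply_eq, hr.2, AlgEquiv.apply_symm_apply])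
  choose r₀ hr₀ using k1
  choose s₀ hs₀ using k2
  obtain ⟨e, he⟩ : ∃ e : L ≃+* L, ∀ x, f (e x) = r (f x) :=
    ⟨{ toFun := r₀
       invFun := s₀
       left_inv := fun x => inj_Pull f (by rw [hs₀, hr₀, RingEquiv.symm_apply_apply])
       right_inv := fun x => inj_Pull f (by rw [hr₀, hs₀, RingEquiv.apply_symm_apply])
       map_mul' := fun x y => inj_Pull f (by rw [hr₀, map_mul, map_mul, map_mul, hr₀, hr₀])
       map_add' := fun x y => inj_Pull f (by rw [hr₀, map_add, map_add, map_add, hr₀, hr₀]) },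
      hr₀⟩
  have hefix : Fixes S ρ e := by
    constructor
    · intro s hs
      apply inj_Pull f
      rw [he]
      exact hfix s (Finset.mem_union_left _ hs)
    · intro c
      apply inj_Pull f
      rw [he, AlgHom.commutes, AlgHom.commutes, hr.2]
  have hmov : ∀ {v v' : Place QQ F}, Moves r v v' → Moves e (g v) (g v') := by
    intro v v' h
    rw [moves_iff]
    intro x
    rw [mem_Pull (hg v'), mem_Pull (hg v), he]
    exact moves_iff.1 h (f x)
  exact hS ρ e hefix _ _ _ _ (hmov hp) (hmov hq)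

end Pull

end Pool.Agent.Clo
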