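import Pool.Agent.Clo.Defs
import Pool.Agent.Clo.Act
import Pool.Agent.Clo.ArLift
import Pool.Agent.Clo.Pull

/-!
# The action of the Galois group on a fibre

PROOF of `fixes_unique`: the elements `f` with `r f = r' f` form a subfield which contains the
constants and `S`. `exists_act`: for `ρ` in the fixing subgroup of `E` let `r ρ` be the unique
automorphism with `Fixes S ρ (r ρ)`; by uniqueness `r (ρ ρ') = r ρ ∘ r ρ'`
(`fixes_trans`; note that the product in the Galois group is the composition) and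
`r ρ⁻¹ = (r ρ)⁻¹`. For every place `x` there is a unique place `x'` with `Moves (r ρ) x x'`
(`exists_move` of `ArLift.lean`; uniqueness: `x'.ring` is determined, `Place.ext`). If `x.At φ t`
then `x'.At φ t`, because `r ρ φ = φ` and `ρ t = t` (see `orbRel_at` in `Orbit.lean`, or the second
statement of `exists_move`). This defines the homomorphism. `exists_act_ker`: for every `x ∈ s` let
`g x` be a function which has a pole at `x` and which is regular at all other places (`exists_pole`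
in `AlbInv.lean` or `Pull.lean`); let `Y` be the finite set of `exists_lift` for the finite set
`S ∪ {g x}`. If `ρ` fixes `Y` and `E`, the lift of `ρ` given by `exists_lift` fixes `S` and all
`g x`; by uniqueness it is the automorphism used for `a ρ`; it moves `x ∈ s` to a place where `g x`
has a pole, that is to `x` (`moves_pole`).
-/

set_option autoImplicit false

noncomputable section

namespace Pool.Agent.Clo

open Pool.Agent.ZCyc Pool.Agent.Dess
open scoped Classical

variable {F : Type} [Field F] [Algebra QQ F]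

theorem fixes_unique {S : Finset F} (hS : IntermediateField.adjoin QQ (S : Set F) = ⊤)
    {ρ : Gam} {r r' : F ≃+* F} (h : Fixes S ρ r) (h' : Fixes S ρ r') : r = r' := by
  let E : IntermediateField QQ F :=
    (RingHom.eqLocusField (r : F →+* F) (r' : F →+* F)).toIntermediateField (by
      intro c
      change r (algebraMap QQ F c) = r' (algebraMap QQ F c)
      rw [h.2, h'.2])
  have h3 : (⊤ : IntermediateField QQ F) ≤ E := by
    rw [← hS, IntermediateField.adjoin_le_iff]
    intro x hx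
    change r x = r' x
    rw [h.1 x hx, h'.1 x hx]
  ext x
  exact h3 (IntermediateField.mem_top : x ∈ (⊤ : IntermediateField QQ F))

theorem exists_act (hF : IsCurve QQ F) {S : Finset F}
    (hS : IntermediateField.adjoin QQ (S : Set F) = ⊤) {E : IntermediateField ℚ QQ}
    (hlift : ∀ ρ : Gam, (∀ c ∈ E, ρ c = c) → ∃ r : F ≃+* F, Fixes S ρ r) {φ : F} (hφ : φ ∈ S)
    {t : QQ} (ht : t ∈ E) {s : Finset (Place QQ F)} (hs : ∀ v, v ∈ s ↔ v.At φ t) :
    ∃ a : E.fixingSubgroup →* Equiv.Perm s, ∀ (ρ : E.fixingSubgroup) (x : s),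
      ∃ r : F ≃+* F, Fixes S (ρ : Gam) r ∧ Moves r x.1 (a ρ x).1 := by
  have _ := hF
  have hmem : ∀ ρ : E.fixingSubgroup, ∀ c ∈ E, (ρ : Gam) c = c := fun ρ =>
    (IntermediateField.mem_fixingSubgroup_iff E (ρ : Gam)).1 ρ.2
  choose r hr using fun ρ : E.fixingSubgroup => hlift (ρ : Gam) (hmem ρ)
  have hat : ∀ (ρ : E.fixingSubgroup) (x : s), act (r ρ) (hr ρ).2 x.1 ∈ s := by
    intro ρ x
    rw [hs]
    have h1 := (hs x.1).1 x.2
    have h2 := (moves_at (hr ρ).2 (moves_act (hr ρ).2 x.1) φ t).2 h1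
    rwa [(hr ρ).1 φ hφ, hmem ρ t ht] at h2
  obtain ⟨f, hf⟩ : ∃ f : E.fixingSubgroup → s → s, ∀ ρ x, Moves (r ρ) x.1 (f ρ x).1 :=
    ⟨fun ρ x => ⟨act (r ρ) (hr ρ).2 x.1, hat ρ x⟩, fun ρ x => moves_act (hr ρ).2 x.1⟩
  have h1 : f 1 = id := by
    funext x
    have h2 : Fixes S ((1 : E.fixingSubgroup) : Gam) (RingEquiv.refl F) :=
      ⟨fun _ _ => rfl, fun _ => rfl⟩
    have h3 : r 1 = RingEquiv.refl F := fixes_unique hS (hr 1) h2
    have h4 := hf 1 x
    rw [h3] at h4
    have h5 : Moves (RingEquiv.refl F) x.1 x.1 := by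
      rw [moves_iff]
      intro g
      rfl
    exact Subtype.ext (moves_right h4 h5)
  have hmul : ∀ ρ ρ' : E.fixingSubgroup, f (ρ * ρ') = f ρ ∘ f ρ' := by
    intro ρ ρ'
    funext x
    have h2 : Fixes S ((ρ * ρ' : E.fixingSubgroup) : Gam) ((r ρ').trans (r ρ)) :=
      fixes_trans (hr ρ') (hr ρ)
    have h3 : r (ρ * ρ') = (r ρ').trans (r ρ) := fixes_unique hS (hr _) h2
    have h4 := hf (ρ * ρ') x
    rw [h3] at h4
    exact Subtype.ext (moves_right h4 (moves_trans (hf ρ' x) (hf ρ (f ρ' x))))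
  let a₀ : E.fixingSubgroup →* Function.End s :=
    { toFun := f
      map_one' := h1
      map_mul' := hmul }
  refine ⟨a₀.toHomPerm, fun ρ x => ⟨r ρ, hr ρ, ?_⟩⟩
  exact hf ρ x

theorem exists_act_ker (hF : IsCurve QQ F) {S : Finset F}
    (hS : IntermediateField.adjoin QQ (S : Set F) = ⊤) {E : IntermediateField ℚ QQ}
    {s : Finset (Place QQ F)} {a : E.fixingSubgroup →* Equiv.Perm s}
    (ha : ∀ (ρ : E.fixingSubgroup) (x : s),
      ∃ r : F ≃+* F, Fixes S (ρ : Gam) r ∧ Moves r x.1 (a ρ x).1) :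
    ∃ Y : Finset QQ, ∀ ρ : E.fixingSubgroup, (∀ c ∈ Y, (ρ : Gam) c = c) → a ρ = 1 := by
  choose g hg1 hg2 using exists_pole hF
  obtain ⟨Y, hY⟩ := exists_lift hF (S ∪ s.image g)
  refine ⟨Y, fun ρ hρ => ?_⟩
  obtain ⟨r, hr1, hr2⟩ := hY ρ hρ
  refine Equiv.Perm.ext fun x => Subtype.ext ?_
  obtain ⟨r', hr', hm⟩ := ha ρ x
  have h1 : r' = r :=
    fixes_unique hS hr' ⟨fun y hy => hr2 y (Finset.mem_union_left _ hy), hr1⟩
  rw [h1] at hm
  exact moves_pole hm
    (hr2 _ (Finset.mem_union_right _ (Finset.mem_image_of_mem g x.2))) (hg1 x.1) (hg2 x.1)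

end Pool.Agent.Clo
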