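import Pool.Agent.Clo.BJordan

/-!
# Transitive groups of prime degree

PROOF. `G` is primitive (`MulAction.IsPreprimitive.of_prime_card`). By Cauchy's theorem
(`exists_prime_orderOf_dvd_card'`) there is `g ∈ G` of order `q`. Its cycle type consists of copies
of `q` (`Equiv.Perm.cycleType_prime_order`), their sum is the number of elements of the support, at
most `N < 2 q`, so there is exactly one: `g` is a cycle and its support has `q` elements. Apply
`jordan_prime`.
-/

set_option autoImplicit false

noncomputable section

namespace Pool.Agent.Clo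

theorem alt_le_of_prime_degree {α : Type} [Fintype α] [DecidableEq α]
    {G : Subgroup (Equiv.Perm α)} (ht : MulAction.IsPretransitive G α)
    (hN : (Fintype.card α).Prime) {q : ℕ} (hq : q.Prime) (hqG : q ∣ Nat.card G)
    (h1 : Fintype.card α < 2 * q) (h2 : q + 3 ≤ Fintype.card α) :
    alternatingGroup α ≤ G := by
  have hprim : MulAction.IsPreprimitive G α :=
    MulAction.IsPreprimitive.of_prime_card (by rwa [Nat.card_eq_fintype_card])
  have : Fact q.Prime := ⟨hq⟩
  obtain ⟨g, hg⟩ := exists_prime_orderOf_dvd_card' (G := G) q hqG
  have ho : orderOf (g : Equiv.Perm α) = q := by rw [Subgroup.orderOf_coe, hg]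
  have hc : (g : Equiv.Perm α).IsCycle :=
    Equiv.Perm.isCycle_of_prime_order' (by rwa [ho]) (by rwa [ho])
  exact jordan_prime hprim hq (by rwa [Nat.card_eq_fintype_card]) hc
    (by rw [← hc.orderOf, ho]) g.2

end Pool.Agent.Clo
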