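import Pool.Agent.Clo.ArAlm

/-!
# Approximation at two places

PROOF of `exists_small`: `x⁻¹` is algebraic over `ℤ`, so there is an integer `y ≠ 0` such that
`y x⁻¹` is integral over `ℤ` (see `mem_almost_all` in `ArAlm.lean`), hence in `W` (a valuation ring
is
integrally closed). So the value of `y` is at most the value of `x`. Let `y = l ^ s y'` with `y'`
prime
to `l`; the value of `y'` is `1` (`val_coprime`, or `val_int`), so the value of `l ^ (s + 1)` is
strictly smaller than the value of `x`.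
PROOF of `exists_approx`: by `exists_small` let `r` be such that `W(l) ^ r < W(π)` and
`W'(l') ^ r < W'(π⁻¹)` (and `r ≥ 1`). By the Chinese remainder theorem (`Nat.chineseRemainder`, or
`Int.isCoprime_iff_gcd_eq_one` and Bezout: `u l ^ r + v l' ^ r = 1`; then `A = v l' ^ r`,
`B = u l ^ r`, `A + B = 1`). `W(A) = 1` because `1 - A = B` has value `< 1`; `W(B) ≤ W(l) ^ r <
W(π)`
(`u ∈ W`); `W'(B) = 1`, `W'(A) ≤ W'(l') ^ r`. Put `a = π A + B`. Then `W(a) = W(π A) = W(π)` (the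
value of `B` is smaller), and `W'(π A) < 1`, `W'(B) = 1`, so `W'(a) = 1`.
-/

set_option autoImplicit false

noncomputable section

namespace Pool.Agent.Clo

open Pool.Agent.ZCyc Pool.Agent.Dess

private theorem mCrt_int_le (W : ValuationSubring QQ) (n : ℤ) : W.valuation (n : QQ) ≤ 1 :=
  (W.valuation_le_one_iff _).2 (intCast_mem W n)

private theorem mCrt_pow_le {l : ℕ} {W : ValuationSubring QQ} (hW : (l : QQ) ∈ W.nonunits)
    {m n : ℕ} (h : m ≤ n) : W.valuation (l : QQ) ^ n ≤ W.valuation (l : QQ) ^ m :=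
  pow_le_pow_right_of_le_one' (W.mem_nonunits_iff.1 hW).le h

theorem exists_small {l : ℕ} (hl : l.Prime) {W : ValuationSubring QQ}
    (hW : (l : QQ) ∈ W.nonunits) {x : QQ} (hx : x ≠ 0) :
    ∃ r : ℕ, W.valuation (l : QQ) ^ r < W.valuation x := by
  have halg : Algebra.IsAlgebraic ℤ QQ :=
    (IsFractionRing.comap_isAlgebraic_iff (A := ℤ) (K := ℚ) (C := QQ)).2
      (AlgebraicClosure.isAlgebraic ℚ)
  obtain ⟨y, hy, hint⟩ := Algebra.IsAlgebraic.exists_integral_multiples ℤ {x⁻¹}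
  have h1 : IsIntegral W (y • x⁻¹) := (hint x⁻¹ (Finset.mem_singleton_self _)).tower_top
  obtain ⟨z, hz⟩ := IsIntegrallyClosed.isIntegral_iff.1 h1
  have h2 : W.valuation (y • x⁻¹) ≤ 1 := by
    rw [← hz]
    exact (W.valuation_le_one_iff _).2 z.2
  have hx0 : W.valuation x ≠ 0 := (Valuation.ne_zero_iff _).2 hx
  have h3 : W.valuation (y : QQ) ≤ W.valuation x := by
    rw [zsmul_eq_mul, map_mul, map_inv₀] at h2
    calc W.valuation (y : QQ) = W.valuation (y : QQ) * (W.valuation x)⁻¹ * W.valuation x := by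
          rw [mul_assoc, inv_mul_cancel₀ hx0, mul_one]
      _ ≤ 1 * W.valuation x := mul_le_mul_left h2 _
      _ = W.valuation x := one_mul _
  have hn : y.natAbs ≠ 0 := Int.natAbs_ne_zero.2 hy
  obtain ⟨s, y', hy', he⟩ := Nat.exists_eq_pow_mul_and_not_dvd hn l hl.one_lt.ne'
  have h4 : W.valuation (y : QQ) = W.valuation ((y.natAbs : ℕ) : QQ) := by
    rcases Int.natAbs_eq y with h | h
    · conv_lhs => rw [h]
      rw [Int.cast_natCast]
    · conv_lhs => rw [h]
      rw [Int.cast_neg, Int.cast_natCast, Valuation.map_neg]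
  have h5 : W.valuation (y' : QQ) = 1 :=
    val_coprime ((Nat.Prime.coprime_iff_not_dvd hl).2 hy') W hW
  have h6 : W.valuation (y : QQ) = W.valuation (l : QQ) ^ s := by
    rw [h4, he, Nat.cast_mul, Nat.cast_pow, map_mul, map_pow, h5, mul_one]
  have hl1 : W.valuation (l : QQ) < 1 := W.mem_nonunits_iff.1 hW
  have hl0 : 0 < W.valuation (l : QQ) :=
    zero_lt_iff.2 ((Valuation.ne_zero_iff _).2 (Nat.cast_ne_zero.2 hl.ne_zero))
  refine ⟨s + 1, lt_of_lt_of_le ?_ h3⟩
  rw [h6]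
  exact pow_lt_pow_right_of_lt_one₀ hl0 hl1 (Nat.lt_succ_self s)

theorem exists_approx {l l' : ℕ} (hl : l.Prime) (hl' : l'.Prime) (hne : l ≠ l')
    {W W' : ValuationSubring QQ} (hW : (l : QQ) ∈ W.nonunits) (hW' : (l' : QQ) ∈ W'.nonunits)
    {K : IntermediateField ℚ QQ} {π : QQ} (hπ : π ∈ K) (h0 : π ≠ 0) :
    ∃ a ∈ K, W.valuation a = W.valuation π ∧ W'.valuation a = 1 := by
  obtain ⟨r₁, hr₁⟩ := exists_small hl hW h0
  obtain ⟨r₂, hr₂⟩ := exists_small hl' hW' (inv_ne_zero h0)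
  obtain ⟨r, hr⟩ : ∃ r : ℕ, r = max r₁ r₂ + 1 := ⟨_, rfl⟩
  have hra : W.valuation (l : QQ) ^ r < W.valuation π :=
    lt_of_le_of_lt (mCrt_pow_le hW (by rw [hr]; exact (le_max_left _ _).trans (Nat.le_succ _))) hr₁
  have hrb : W'.valuation (l' : QQ) ^ r < W'.valuation π⁻¹ :=
    lt_of_le_of_lt (mCrt_pow_le hW' (by rw [hr]; exact (le_max_right _ _).trans (Nat.le_succ _)))
      hr₂
  have hrc : W.valuation (l : QQ) ^ r < 1 :=
    lt_of_le_of_lt (mCrt_pow_le hW (m := 1) (by rw [hr]; exact Nat.le_add_left _ _))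
      (by rw [pow_one]; exact W.mem_nonunits_iff.1 hW)
  have hrd : W'.valuation (l' : QQ) ^ r < 1 :=
    lt_of_le_of_lt (mCrt_pow_le hW' (m := 1) (by rw [hr]; exact Nat.le_add_left _ _))
      (by rw [pow_one]; exact W'.mem_nonunits_iff.1 hW')
  have hcop : IsCoprime ((l : ℤ) ^ r) ((l' : ℤ) ^ r) :=
    (Nat.isCoprime_iff_coprime.2 ((Nat.coprime_primes hl hl').2 hne)).pow
  obtain ⟨u, v, huv⟩ := hcop
  obtain ⟨A, hA⟩ : ∃ A : QQ, A = (v : QQ) * (l' : QQ) ^ r := ⟨_, rfl⟩
  obtain ⟨B, hB⟩ : ∃ B : QQ, B = (u : QQ) * (l : QQ) ^ r := ⟨_, rfl⟩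
  have hAB : B + A = 1 := by
    have h := congrArg (fun n : ℤ => (n : QQ)) huv
    push_cast at h
    rw [hA, hB]
    exact h
  have hWB : W.valuation B ≤ W.valuation (l : QQ) ^ r := by
    rw [hB, map_mul, map_pow]
    exact mul_le_of_le_one_left' (mCrt_int_le W u)
  have hWA' : W'.valuation A ≤ W'.valuation (l' : QQ) ^ r := by
    rw [hA, map_mul, map_pow]
    exact mul_le_of_le_one_left' (mCrt_int_le W' v)
  have hWA : W.valuation A = 1 := by
    have h : A = 1 - B := by rw [← hAB]; ring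
    rw [h]
    exact Valuation.map_one_sub_of_lt _ (lt_of_le_of_lt hWB hrc)
  have hWB' : W'.valuation B = 1 := by
    have h : B = 1 - A := by rw [← hAB]; ring
    rw [h]
    exact Valuation.map_one_sub_of_lt _ (lt_of_le_of_lt hWA' hrd)
  refine ⟨π * A + B, ?_, ?_, ?_⟩
  · refine add_mem (mul_mem hπ ?_) ?_
    · rw [hA]
      exact mul_mem (intCast_mem K v) (pow_mem (natCast_mem K l') r)
    · rw [hB]
      exact mul_mem (intCast_mem K u) (pow_mem (natCast_mem K l) r)
  · have h1 : W.valuation (π * A) = W.valuation π := by rw [map_mul, hWA, mul_one]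
    rw [Valuation.map_add_eq_of_lt_left, h1]
    rw [h1]
    exact lt_of_le_of_lt hWB hra
  · rw [Valuation.map_add_eq_of_lt_right, hWB']
    rw [hWB', map_mul]
    have hπ0 : 0 < W'.valuation π := zero_lt_iff.2 ((Valuation.ne_zero_iff _).2 h0)
    calc W'.valuation π * W'.valuation A < W'.valuation π * W'.valuation π⁻¹ :=
          mul_lt_mul_of_pos_left (lt_of_le_of_lt hWA' hrb) hπ0
      _ = 1 := by rw [map_inv₀, mul_inv_cancel₀ hπ0.ne']

end Pool.Agent.Clo
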