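import Pool.Agent.Clo.Ram
import Pool.Agent.Clo.MCrt

/-!
# The order of the image of the Galois group is divisible by a ramification index

Let `N` be a finite normal extension of the field of rational numbers which contains `b`, `c` and
`Y`, and `Δ` the image of the fixing subgroup of `E` in its Galois group; the fixed field of `Δ` is
`E ∩ N`, and the homomorphism `a` factors through `Δ`. Let `P` be the prime ideal of `N` given by
`W`, `I` its inertia group and `H` the kernel of `a` on `Δ`, with the fixed field `M`. Then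
`e(P ∩ M | l) |I ∩ H| = |I| = e(P ∩ E | l) |I ∩ Δ|`, so `e(P ∩ M | l) = e(P ∩ E | l) k`, where
`k` is the order of `a(I ∩ Δ)`, a divisor of the order of the image of `a`. The value of a
uniformizer of `P ∩ E` is the `k`-th power of the value `g` of a uniformizer of `P ∩ M`. So
`W(c) = g ^ (k n)` and `W(b) = g ^ m` with `p m = k n e`. The prime number `p` divides neither `e`
nor `n` (otherwise `W(c)` is the `p`-th power of a value of `E`), so it divides `k`.
-/

set_option autoImplicit false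

noncomputable section

namespace Pool.Agent.Clo

open Pool.Agent.ZCyc Pool.Agent.Dess

open NumberField

private theorem card_BDvd {Γ G : Type} [Group Γ] [Group G] [Finite Γ] (I Δ : Subgroup Γ)
    (a : Δ →* G) : Nat.card ↥(I ⊓ Δ) = Nat.card ((I.subgroupOf Δ).map a) *
      Nat.card ↥(I ⊓ a.ker.map Δ.subtype) := by
  let f : ↥(I ⊓ Δ) →* G := a.comp (Subgroup.inclusion inf_le_right)
  have h1 : f.range = (I.subgroupOf Δ).map a := by
    ext y
    rw [MonoidHom.mem_range, Subgroup.mem_map]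
    constructor
    · rintro ⟨x, rfl⟩
      exact ⟨⟨x.1, x.2.2⟩, Subgroup.mem_subgroupOf.2 x.2.1, rfl⟩
    · rintro ⟨x, hx, rfl⟩
      exact ⟨⟨x.1, Subgroup.mem_subgroupOf.1 hx, x.2⟩, rfl⟩
  have h2 : f.ker.map (I ⊓ Δ).subtype = I ⊓ a.ker.map Δ.subtype := by
    ext y
    rw [Subgroup.mem_map, Subgroup.mem_inf, Subgroup.mem_map]
    constructor
    · rintro ⟨x, hx, rfl⟩
      exact ⟨x.2.1, ⟨x.1, x.2.2⟩, hx, rfl⟩
    · rintro ⟨hy, x, hx, rfl⟩
      exact ⟨⟨x.1, hy, x.2⟩, hx, rfl⟩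
  have h3 : Nat.card ↥(I ⊓ a.ker.map Δ.subtype) = Nat.card f.ker := by
    rw [← h2]
    exact (Nat.card_congr (Subgroup.equivMapOfInjective _ _
      (Subgroup.subtype_injective _)).toEquiv).symm
  rw [h3, ← h1, ← Subgroup.index_ker, mul_comm]
  exact (Subgroup.card_mul_index _).symm

section Core

variable {N : Type} [Field N] [NumberField N]

/-- Number fields: the group `a(I)`, where `I` is the inertia group, has the order
`e(P | E)  / e(P | M)`. -/
private theorem core_BDvd [IsGalois ℚ N] (j : N →+* QQ) {G : Type} [Group G] [Finite G]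
    (Δ : Subgroup Gal(N/ℚ)) (a : Δ →* G) {W : ValuationSubring QQ} {l : ℕ} (hl : l.Prime)
    (hW : (l : QQ) ∈ W.nonunits) {p e : ℕ} (hp : p.Prime) (he : Nat.Coprime e p) {b c : N}
    (hc : ∀ ρ ∈ Δ, ρ c = c) (hc0 : c ≠ 0)
    (hdiv : ∀ d : N, (∀ ρ ∈ Δ, ρ d = d) → W.valuation (j d) ^ p ≠ W.valuation (j c))
    (hb : W.valuation (j b) ^ p = W.valuation (j c) ^ e)
    (hfix : ∀ ρ : Δ, a ρ = 1 → (ρ : Gal(N/ℚ)) b = b) : p ∣ Nat.card a.range := by
  have hO : ∀ x : 𝓞 N, j x ∈ W := fun x =>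
    int_mem_Ram W ((RingOfIntegers.isIntegral_coe x).map j.toIntAlgHom)
  let f : 𝓞 N →+* W :=
    { toFun := fun x => ⟨j x, hO x⟩
      map_one' := Subtype.ext (map_one j)
      map_mul' := fun x y => Subtype.ext (map_mul j (x : N) y)
      map_zero' := Subtype.ext (map_zero j)
      map_add' := fun x y => Subtype.ext (map_add j (x : N) y) }
  obtain ⟨P, hPdef⟩ : ∃ P : Ideal (𝓞 N), P = (IsLocalRing.maximalIdeal W).comap f := ⟨_, rfl⟩
  have hPmem : ∀ x : 𝓞 N, x ∈ P ↔ W.valuation (j x) < 1 := by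
    intro x
    rw [hPdef, Ideal.mem_comap, ValuationSubring.valuation_lt_one_iff]
    rfl
  have hP : P.IsPrime := by
    rw [hPdef]
    exact Ideal.comap_isPrime _ _
  have hmem : ∀ (A : IntermediateField ℚ N) (x : 𝓞 A), x ∈ P.under (𝓞 A) ↔
      W.valuation ((j.comp (algebraMap A N)) x) < 1 := by
    intro A x
    rw [Ideal.mem_comap, hPmem]
    rfl
  let H : Subgroup Gal(N/ℚ) := a.ker.map Δ.subtype
  let E : IntermediateField ℚ N := IntermediateField.fixedField Δ
  let M : IntermediateField ℚ N := IntermediateField.fixedField H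
  have hE : fixingSubgroup Gal(N/ℚ) (E : Set N) = Δ := IntermediateField.fixingSubgroup_fixedField Δ
  have hM : fixingSubgroup Gal(N/ℚ) (M : Set N) = H := IntermediateField.fixingSubgroup_fixedField H
  have hIE := card_inertia_Ram E P
  have hIM := card_inertia_Ram M P
  rw [hE] at hIE
  rw [hM] at hIM
  obtain ⟨π, hπ0, hπ1, hπ, hπl⟩ := values_Ram (j.comp (algebraMap E N)) hl hW
    (P.under (𝓞 E)) (hmem E)
  obtain ⟨ϖ, hϖ0, hϖ1, hϖ, hϖl⟩ := values_Ram (j.comp (algebraMap M N)) hl hW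
    (P.under (𝓞 M)) (hmem M)
  set I := P.inertia Gal(N/ℚ) with hI
  -- the order of the image of the inertia group
  let J : Subgroup Δ := I.subgroupOf Δ
  have hJ : Nat.card ↥(I ⊓ Δ) = Nat.card (J.map a) * Nat.card ↥(I ⊓ H) :=
    card_BDvd I Δ a
  have hJ' : Nat.card (J.map a) ∣ Nat.card a.range := by
    refine Subgroup.card_dvd_of_le ?_
    rw [MonoidHom.range_eq_map]
    exact Subgroup.map_mono le_top
  refine Dvd.dvd.trans ?_ hJ'
  set k := Nat.card (J.map a) with hk
  have hidx : (P.under (𝓞 M)).ramificationIdx ℤ = (P.under (𝓞 E)).ramificationIdx ℤ * k := by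
    have h1 : 0 < Nat.card ↥(I ⊓ H) := Nat.card_pos
    refine Nat.eq_of_mul_eq_mul_right h1 ?_
    rw [← hIM, hIE, hJ, mul_assoc]
  have hW1 : W.valuation (l : QQ) < 1 := (W.mem_nonunits_iff).1 hW
  have he0 : (P.under (𝓞 E)).ramificationIdx ℤ ≠ 0 := by
    intro h
    rw [h, pow_zero] at hπl
    exact hW1.ne hπl
  set g := W.valuation ((j.comp (algebraMap M N)) ϖ) with hg
  have hg0 : 0 < g := zero_lt_iff.2 ((Valuation.ne_zero_iff _).2
    ((map_ne_zero_iff _ (j.comp (algebraMap M N)).injective).2 hϖ0))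
  have hπg : W.valuation ((j.comp (algebraMap E N)) π) = g ^ k := by
    refine (pow_left_inj₀ zero_le zero_le he0).1 ?_
    rw [← hπl, hϖl, hidx, ← pow_mul, mul_comm]
  have hcE : c ∈ E := (IntermediateField.mem_fixedField_iff _ _).2 hc
  have hbM : b ∈ M := by
    rintro ⟨_, x, hx, rfl⟩
    exact hfix x hx
  obtain ⟨n, hn⟩ := hπ ⟨c, hcE⟩ fun h => hc0 (congrArg Subtype.val h)
  have hn' : W.valuation (j c) = W.valuation ((j.comp (algebraMap E N)) π) ^ n := hn
  have hb0 : b ≠ 0 := by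
    rintro rfl
    rw [map_zero, map_zero, zero_pow hp.ne_zero] at hb
    exact pow_ne_zero e ((Valuation.ne_zero_iff _).2 ((map_ne_zero_iff j j.injective).2 hc0))
      hb.symm
  obtain ⟨m, hm⟩ := hϖ ⟨b, hbM⟩ fun h => hb0 (congrArg Subtype.val h)
  have hm' : W.valuation (j b) = g ^ m := hm
  have hpn : ¬ (p : ℤ) ∣ n := by
    rintro ⟨i, rfl⟩
    refine hdiv ((π : N) ^ i) (fun ρ hρ => ?_) ?_
    · have h1 : ((π : N) ^ i) ∈ E := zpow_mem π.2 i
      exact h1 ⟨ρ, hρ⟩
    · have h2 : j ((π : N) ^ i) = ((j.comp (algebraMap E N)) π) ^ i := by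
        rw [map_zpow₀]
        rfl
      rw [hn', h2, map_zpow₀, ← zpow_natCast, ← zpow_mul, mul_comm]
  have h1 : g ^ (m * (p : ℤ)) = g ^ ((k : ℤ) * n * (e : ℤ)) := by
    rw [zpow_mul, ← hm', zpow_natCast, hb, hn', hπg, zpow_mul, zpow_mul, zpow_natCast,
      zpow_natCast]
  have h2 := zpow_right_injective₀ hg0 hϖ1.ne h1
  have h3 : (p : ℤ) ∣ (k : ℤ) * n * (e : ℤ) := ⟨m, h2.symm.trans (mul_comm _ _)⟩
  have hpr : Prime (p : ℤ) := Nat.prime_iff_prime_int.1 hp
  rcases hpr.dvd_or_dvd h3 with h4 | h4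
  · rcases hpr.dvd_or_dvd h4 with h5 | h5
    · exact_mod_cast h5
    · exact absurd h5 hpn
  · exfalso
    have h5 : p ∣ e := by exact_mod_cast h4
    have h6 : p ∣ 1 := by
      rw [← he]
      exact Nat.dvd_gcd h5 dvd_rfl
    exact hp.one_lt.ne' (Nat.dvd_one.1 h6)

end Core

private theorem galois_BDvd : IsGalois ℚ QQ := by
  have hn : Normal ℚ QQ := normal_Ram
  exact @IsGalois.mk ℚ _ QQ _ _ inferInstance hn

/-- The prime number `p` divides the order of the image of `a`, if the value of `c ∈ E` is not the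
`p`-th power of a value of `E`, but a power of it prime to `p` is the `p`-th power of the value of
an element which is fixed by the kernel of `a`. -/
theorem prime_dvd_card {E : IntermediateField ℚ QQ} {G : Type} [Group G] [Finite G]
    (a : E.fixingSubgroup →* G) (Y : Finset QQ)
    (hY : ∀ ρ : E.fixingSubgroup, (∀ c ∈ Y, (ρ : Gam) c = c) → a ρ = 1)
    {W : ValuationSubring QQ} {l : ℕ} (hl : l.Prime) (hW : (l : QQ) ∈ W.nonunits)
    {p e : ℕ} (hp : p.Prime) (he : Nat.Coprime e p) {b c : QQ} (hc : c ∈ E) (hc0 : c ≠ 0)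
    (hdiv : ∀ d ∈ E, W.valuation d ^ p ≠ W.valuation c)
    (hb : W.valuation b ^ p = W.valuation c ^ e)
    (hfix : ∀ ρ : E.fixingSubgroup, a ρ = 1 → (ρ : Gam) b = b) : p ∣ Nat.card a.range := by
  classical
  have halg : ∀ y : QQ, IsIntegral ℚ y := fun y =>
    (AlgebraicClosure.isAlgebraic ℚ).isIntegral.isIntegral y
  have hnQ : Normal ℚ QQ := normal_Ram
  have hGQ : IsGalois ℚ QQ := galois_BDvd
  let Y' : Finset QQ := insert b (insert c Y)
  have hfinY : FiniteDimensional ℚ (IntermediateField.adjoin ℚ (Y' : Set QQ)) := by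
    have : Finite (Y' : Set QQ) := inferInstance
    exact IntermediateField.finiteDimensional_adjoin fun y _ => halg y
  obtain ⟨N, hN, hNf, hNn⟩ : ∃ N : IntermediateField ℚ QQ,
      IntermediateField.adjoin ℚ (Y' : Set QQ) ≤ N ∧
      FiniteDimensional ℚ N ∧ @Normal ℚ N _ _ N.algebra' :=
    ⟨IntermediateField.normalClosure ℚ ↥(IntermediateField.adjoin ℚ (Y' : Set QQ)) QQ,
      IntermediateField.le_normalClosure _, inferInstance, normalClosure.normal ℚ _ _⟩
  have : NumberField N := numberField_Ram N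
  have hNn' : Normal ℚ N := by
    have h : N.algebra' = DivisionRing.toRatAlgebra := Subsingleton.elim _ _
    rw [← h]
    exact hNn
  have hG : IsGalois ℚ N := IsGalois.mk
  have hst : IsScalarTower ℚ N QQ := IsScalarTower.of_algebraMap_eq' (Subsingleton.elim _ _)
  have hYN : ∀ y ∈ Y', y ∈ N := fun y hy =>
    hN (IntermediateField.subset_adjoin ℚ _ (Finset.mem_coe.2 hy))
  have hbN : b ∈ N := hYN b (Finset.mem_insert_self _ _)
  have hcN : c ∈ N := hYN c (Finset.mem_insert_of_mem (Finset.mem_insert_self _ _))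
  let r : E.fixingSubgroup →* (N ≃ₐ[ℚ] N) :=
    (AlgEquiv.restrictNormalHom N).comp E.fixingSubgroup.subtype
  have hr : ∀ (ρ : E.fixingSubgroup) (x : N), ((r ρ x : N) : QQ) = (ρ : Gam) x := fun ρ x =>
    AlgEquiv.restrictNormal_commutes (ρ : Gam) N x
  have hker : r.rangeRestrict.ker ≤ a.ker := by
    intro ρ hρ
    rw [MonoidHom.ker_rangeRestrict, MonoidHom.mem_ker] at hρ
    rw [MonoidHom.mem_ker]
    refine hY ρ fun y hy => ?_
    have h1 := hr ρ ⟨y, hYN y (Finset.mem_insert_of_mem (Finset.mem_insert_of_mem hy))⟩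
    rw [hρ] at h1
    exact h1.symm
  let a' : r.range →* G := MonoidHom.liftOfSurjective r.rangeRestrict
    r.rangeRestrict_surjective ⟨a, hker⟩
  have ha' : ∀ ρ : E.fixingSubgroup, a' (r.rangeRestrict ρ) = a ρ := fun ρ =>
    MonoidHom.liftOfRightInverse_comp_apply _ _ _ _ _
  have hrange : a'.range = a.range := by
    ext y
    rw [MonoidHom.mem_range, MonoidHom.mem_range]
    constructor
    · rintro ⟨x, rfl⟩
      obtain ⟨ρ, rfl⟩ := r.rangeRestrict_surjective x
      exact ⟨ρ, (ha' ρ).symm⟩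
    · rintro ⟨ρ, rfl⟩
      exact ⟨r.rangeRestrict ρ, ha' ρ⟩
  rw [← hrange]
  refine core_BDvd (algebraMap N QQ) r.range a' hl hW hp he (b := ⟨b, hbN⟩)
    (c := ⟨c, hcN⟩) ?_ (fun h => hc0 (congrArg Subtype.val h)) ?_ hb ?_
  · rintro _ ⟨ρ, rfl⟩
    apply Subtype.ext
    rw [hr]
    exact ρ.2 ⟨c, hc⟩
  · intro d hd
    refine hdiv d ?_
    have h1 := InfiniteGalois.fixedField_fixingSubgroup E
    rw [← h1, IntermediateField.mem_fixedField_iff]
    intro ρ hρ
    have h2 := hr ⟨ρ, hρ⟩ d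
    rw [hd _ ⟨⟨ρ, hρ⟩, rfl⟩] at h2
    exact h2.symm
  · intro x hx
    obtain ⟨ρ, rfl⟩ := r.rangeRestrict_surjective x
    rw [ha'] at hx
    apply Subtype.ext
    have h1 := hr ρ ⟨b, hbN⟩
    exact h1.trans (hfix ρ hx)

end Pool.Agent.Clo
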