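import Pool.Agent.Dess.Alg

/-!
# Normal extensions without large alternating groups

PROOF of `alt_le_of_noAlt`. Step 1: let `E₂ ≤ K2` be finite and normal over `ℚ`; claim: there is
`ρ` in `Γ = E.fixingSubgroup` which fixes `E₂` with `a ρ = g`. Let `R` be the restriction from `Γ`
to
`E₂ ≃ₐ[ℚ] E₂` (`AlgEquiv.restrictNormalHom`), `H` the image under `a` of the kernel of `R`; it is
normalized by the image of `a`, which contains the alternating group `A`; so `H ⊓ A` is normal in
`A`, and `A` is simple (`alternatingGroup.isSimpleGroup`). If `H ⊓ A` is `A` the claim holds.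
Otherwise it is trivial. Let `P` be the image under `R` of the subgroup `a ⁻¹ (A)` of `Γ`. For
`σ = R ρ` in `P`, `a ρ ∈ A`, put `f σ = a ρ`; this is well defined: if `R ρ = R ρ'`, then
`a (ρ⁻¹ ρ') ∈ H ⊓ A = 1`; `f` is a homomorphism onto `A`, which is isomorphic to the
alternating group of `Fin N` with `N = card α ≥ n`, a contradiction.
Step 2: compactness. `T E₂ = {ρ : Gam | ρ ∈ Γ, ρ fixes E₂, a ρ = g}` is closed: the fixing
subgroups are closed, and `{ρ ∈ Γ | a ρ = g}` is a union of cosets of the closed subgroup of those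
`ρ ∈ Γ` which fix `Y`, of finite index in `Γ` (its complement in `Γ` is such a union, too; both are
open in `Γ`). It is not empty, and `T (E₂ ⊔ E₂') ⊆ T E₂ ∩ T E₂'`. The group `Gam` with the Krull
topology is compact. So the intersection of all `T E₂` is not empty
(`IsCompact.nonempty_iInter_of_directed_nonempty_isCompact_isClosed`), and its elements fix `K2`,
because `K2` is the union of its finite normal subextensions. (Alternatively: let `M` be the
fixed field of the kernel of `a`, finite over `E`; the field `K2 ⊔ E` meets it in a finite extension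
of `E`, which is generated by finitely many elements of `K2 ⊔ E`, so contained in `E₂ ⊔ E` for some
finite normal `E₂ ≤ K2`; use the Galois correspondence.)
-/

set_option autoImplicit false

noncomputable section

namespace Pool.Agent.Clo

open Pool.Agent.ZCyc Pool.Agent.Dess

/-- The field `K` is normal over `ℚ`, and for `N ≥ n` the alternating group of degree `N` is not a
quotient of a subgroup of the Galois group of a finite normal extension of `ℚ` contained in
`K`. -/
def NoAlt (n : ℕ) (K : IntermediateField ℚ QQ) : Prop :=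
  Normal ℚ K ∧ ∀ E : IntermediateField ℚ QQ, E ≤ K → FiniteDimensional ℚ E → Normal ℚ E →
    ∀ N : ℕ, n ≤ N → ∀ (P : Subgroup (E ≃ₐ[ℚ] E)) (f : P →* alternatingGroup (Fin N)),
      ¬ Function.Surjective f

private theorem group_BNoAlt {Γ Q : Type*} [Group Γ] [Group Q] {α : Type*} [Fintype α]
    [DecidableEq α] (h5 : 5 ≤ Nat.card α) (a : Γ →* Equiv.Perm α) (R : Γ →* Q)
    (hA : alternatingGroup α ≤ a.range)
    (hno : ∀ (P : Subgroup Q) (f : P →* alternatingGroup α), ¬ Function.Surjective f)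
    {g : Equiv.Perm α} (hg : g ∈ alternatingGroup α) : ∃ ρ : Γ, R ρ = 1 ∧ a ρ = g := by
  classical
  let Γ' : Subgroup Γ := (alternatingGroup α).comap a
  let a' : Γ' →* alternatingGroup α :=
    { toFun := fun ρ => ⟨a ρ, ρ.2⟩
      map_one' := by
        apply Subtype.ext
        exact map_one a
      map_mul' := fun x y => by
        apply Subtype.ext
        exact map_mul a _ _ }
  have ha' : Function.Surjective a' := by
    rintro ⟨x, hx⟩
    obtain ⟨ρ, hρ⟩ := hA hx
    refine ⟨⟨ρ, ?_⟩, Subtype.ext hρ⟩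
    show a ρ ∈ alternatingGroup α
    rw [hρ]
    exact hx
  let R' : Γ' →* Q := R.comp Γ'.subtype
  have hN : (R'.ker.map a').Normal := Subgroup.Normal.map inferInstance a' ha'
  have := alternatingGroup.isSimpleGroup (α := α) h5
  rcases hN.eq_bot_or_eq_top with h | h
  · exfalso
    have hle : R'.rangeRestrict.ker ≤ a'.ker := by
      intro ρ hρ
      have h0 : R' ρ = 1 := by
        have := congrArg Subtype.val (MonoidHom.mem_ker.1 hρ)
        exact this
      have h1 : a' ρ ∈ R'.ker.map a' := ⟨ρ, h0, rfl⟩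
      rw [h] at h1
      exact h1
    refine hno R'.range (R'.rangeRestrict.liftOfSurjective R'.rangeRestrict_surjective
      ⟨a', hle⟩) ?_
    intro x
    obtain ⟨ρ, rfl⟩ := ha' x
    exact ⟨R'.rangeRestrict ρ, MonoidHom.liftOfRightInverse_comp_apply _ _ _ ⟨a', hle⟩ ρ⟩
  · have h1 : (⟨g, hg⟩ : alternatingGroup α) ∈ R'.ker.map a' := by
      rw [h]
      trivial
    obtain ⟨ρ, h2, h3⟩ := h1
    exact ⟨ρ, h2, congrArg Subtype.val h3⟩

private theorem core_BNoAlt {k L : Type} [Field k] [Field L] [Algebra k L] [IsGalois k L]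
    {K2 : IntermediateField k L} (hK : Normal k K2) {α : Type} [Fintype α] [DecidableEq α]
    (h5 : 5 ≤ Nat.card α)
    (hno : ∀ E : IntermediateField k L, E ≤ K2 → FiniteDimensional k E → Normal k E →
      ∀ (P : Subgroup (E ≃ₐ[k] E)) (f : P →* alternatingGroup α), ¬ Function.Surjective f)
    {E : IntermediateField k L} (a : E.fixingSubgroup →* Equiv.Perm α) (Y : Finset L)
    (hY : ∀ ρ : E.fixingSubgroup, (∀ c ∈ Y, (ρ : L ≃ₐ[k] L) c = c) → a ρ = 1)
    (hA : alternatingGroup α ≤ a.range) {g : Equiv.Perm α} (hg : g ∈ alternatingGroup α) :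
    ∃ ρ : E.fixingSubgroup, (∀ c ∈ K2, (ρ : L ≃ₐ[k] L) c = c) ∧ a ρ = g := by
  classical
  -- step 1
  have step1 : ∀ E₂ : IntermediateField k L, E₂ ≤ K2 → FiniteDimensional k E₂ →
      Normal k E₂ → ∃ ρ : E.fixingSubgroup, (∀ c ∈ E₂, (ρ : L ≃ₐ[k] L) c = c) ∧ a ρ = g := by
    intro E₂ hE2 hfin hnor
    let R : E.fixingSubgroup →* (E₂ ≃ₐ[k] E₂) :=
      (AlgEquiv.restrictNormalHom E₂).comp E.fixingSubgroup.subtype
    obtain ⟨ρ, h1, h2⟩ := group_BNoAlt h5 a R hA (hno E₂ hE2 hfin hnor) hg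
    refine ⟨ρ, fun c hc => ?_, h2⟩
    have h3 := AlgEquiv.restrictNormalHom_apply E₂ (ρ : (L ≃ₐ[k] L)) ⟨c, hc⟩
    have h4 : AlgEquiv.restrictNormalHom E₂ (ρ : (L ≃ₐ[k] L)) = 1 := h1
    rw [h4] at h3
    exact h3.symm
  -- step 2
  let S : Set (L ≃ₐ[k] L) := {ρ | ∃ h : ρ ∈ E.fixingSubgroup, a ⟨ρ, h⟩ = g}
  have hEc : IsClosed (E.fixingSubgroup : Set (L ≃ₐ[k] L)) := InfiniteGalois.fixingSubgroup_isClosed E
  have hS : IsClosed S := by
    refine ⟨isOpen_iff_mem_nhds.2 fun σ hσ => ?_⟩
    by_cases hE : σ ∈ E.fixingSubgroup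
    · let U : IntermediateField k L := IntermediateField.adjoin k (Y : Set L)
      have : FiniteDimensional k U := IntermediateField.finiteDimensional_adjoin
        fun x _ => Algebra.IsIntegral.isIntegral x
      have hU : IsOpen (U.fixingSubgroup : Set (L ≃ₐ[k] L)) := U.fixingSubgroup_isOpen
      have hU2 : IsOpen ((fun ρ : (L ≃ₐ[k] L) => σ⁻¹ * ρ) ⁻¹' (U.fixingSubgroup : Set (L ≃ₐ[k] L))) :=
        hU.preimage (continuous_const.mul continuous_id)
      refine Filter.mem_of_superset (hU2.mem_nhds ?_) ?_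
      · show σ⁻¹ * σ ∈ U.fixingSubgroup
        rw [inv_mul_cancel]
        exact one_mem _
      · intro ρ hρ hρS
        obtain ⟨hρE, hρg⟩ := hρS
        apply hσ
        refine ⟨hE, ?_⟩
        have h1 : a (⟨σ, hE⟩⁻¹ * ⟨ρ, hρE⟩) = 1 := by
          refine hY _ fun c hc => ?_
          have h2 : σ⁻¹ * ρ ∈ U.fixingSubgroup := hρ
          have h3 : c ∈ U := IntermediateField.subset_adjoin k _ hc
          exact (IntermediateField.mem_fixingSubgroup_iff U (σ⁻¹ * ρ)).1 h2 c h3
        rw [map_mul, map_inv, inv_mul_eq_one] at h1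
        rw [h1, hρg]
    · refine Filter.mem_of_superset (hEc.isOpen_compl.mem_nhds hE) ?_
      rintro ρ hρ ⟨hρE, -⟩
      exact hρ hρE
  let ι : Type := {E₂ : IntermediateField k L //
    E₂ ≤ K2 ∧ FiniteDimensional k E₂ ∧ Normal k E₂}
  have : Nonempty ι := ⟨⟨⊥, bot_le, inferInstance, inferInstance⟩⟩
  let T : ι → Set (L ≃ₐ[k] L) := fun i => S ∩ (i.1.fixingSubgroup : Set (L ≃ₐ[k] L))
  have hTc : ∀ i, IsClosed (T i) := fun i =>
    hS.inter (InfiniteGalois.fixingSubgroup_isClosed i.1)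
  have hT : (⋂ i, T i).Nonempty := by
    refine IsCompact.nonempty_iInter_of_directed_nonempty_isCompact_isClosed T ?_ ?_
      (fun i => (hTc i).isCompact) hTc
    · intro i j
      have := i.2.2.1
      have := i.2.2.2
      have := j.2.2.1
      have := j.2.2.2
      refine ⟨⟨i.1 ⊔ j.1, sup_le i.2.1 j.2.1, inferInstance, inferInstance⟩, ?_, ?_⟩
      · rintro ρ ⟨h1, h2⟩
        exact ⟨h1, IntermediateField.fixingSubgroup_antitone (le_sup_left : i.1 ≤ i.1 ⊔ j.1) h2⟩
      · rintro ρ ⟨h1, h2⟩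
        exact ⟨h1, IntermediateField.fixingSubgroup_antitone (le_sup_right : j.1 ≤ i.1 ⊔ j.1) h2⟩
    · intro i
      obtain ⟨ρ, h1, h2⟩ := step1 i.1 i.2.1 i.2.2.1 i.2.2.2
      exact ⟨ρ, ⟨ρ.2, h2⟩, (IntermediateField.mem_fixingSubgroup_iff _ _).2 h1⟩
  obtain ⟨ρ, hρ⟩ := hT
  have hρ' : ∀ i : ι, ρ ∈ T i := fun i => Set.mem_iInter.1 hρ i
  obtain ⟨⟨hρE, hρg⟩, -⟩ := hρ' ⟨⊥, bot_le, inferInstance, inferInstance⟩
  refine ⟨⟨ρ, hρE⟩, fun c hc => ?_, hρg⟩
  let C : IntermediateField k L := IntermediateField.adjoin k {c}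
  have : FiniteDimensional k C :=
    IntermediateField.adjoin.finiteDimensional (Algebra.IsIntegral.isIntegral c)
  have hC : C ≤ K2 := by
    rw [IntermediateField.adjoin_simple_le_iff]
    exact hc
  have hN : IntermediateField.normalClosure k C L ≤ K2 :=
    IntermediateField.normalClosure_le_iff_of_normal.2 hC
  have h7 := (hρ' ⟨IntermediateField.normalClosure k C L, hN, inferInstance,
    inferInstance⟩).2
  have h8 : c ∈ IntermediateField.normalClosure k C L :=
    C.le_normalClosure (IntermediateField.mem_adjoin_simple_self k c)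
  exact (IntermediateField.mem_fixingSubgroup_iff _ _).1 h7 c h8

private theorem transfer_BNoAlt {F : Type} [Field F] {i j : Algebra ℚ F} {N : ℕ}
    (H : ∀ (P : Subgroup (@AlgEquiv ℚ F F _ _ _ i i)) (f : P →* alternatingGroup (Fin N)),
      ¬ Function.Surjective f) (P : Subgroup (@AlgEquiv ℚ F F _ _ _ j j))
    (f : P →* alternatingGroup (Fin N)) : ¬ Function.Surjective f := by
  have h : i = j := Subsingleton.elim _ _
  subst h
  exact H P f

theorem alt_le_of_noAlt {n : ℕ} {K2 : IntermediateField ℚ QQ} (h : NoAlt n K2) (hn : 5 ≤ n)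
    {E : IntermediateField ℚ QQ} {α : Type} [Fintype α] [DecidableEq α]
    (hα : n ≤ Fintype.card α) (a : E.fixingSubgroup →* Equiv.Perm α) (Y : Finset QQ)
    (hY : ∀ ρ : E.fixingSubgroup, (∀ c ∈ Y, (ρ : Gam) c = c) → a ρ = 1)
    (hA : alternatingGroup α ≤ a.range) {g : Equiv.Perm α} (hg : g ∈ alternatingGroup α) :
    ∃ ρ : E.fixingSubgroup, (∀ c ∈ K2, (ρ : Gam) c = c) ∧ a ρ = g := by
  classical
  have h5 : 5 ≤ Nat.card α := by
    rw [Nat.card_eq_fintype_card]
    omega
  have hK : @Normal ℚ K2 _ _ K2.algebra' := by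
    have e : (K2.algebra' : Algebra ℚ K2) = DivisionRing.toRatAlgebra := Subsingleton.elim _ _
    rw [e]
    exact h.1
  refine core_BNoAlt (k := ℚ) (L := QQ) hK h5 ?_ a Y hY hA hg
  intro E₂ hE2 hfin hnor P f hf
  have hnor' : Normal ℚ E₂ := by
    have e : (DivisionRing.toRatAlgebra : Algebra ℚ E₂) = E₂.algebra' := Subsingleton.elim _ _
    rw [e]
    exact hnor
  refine transfer_BNoAlt (h.2 E₂ hE2 hfin hnor' (Fintype.card α) hα) P
    ((Fintype.equivFin α).altCongrHom.toMonoidHom.comp f) ?_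
  exact (Fintype.equivFin α).altCongrHom.surjective.comp hf

end Pool.Agent.Clo
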