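import Pool.Agent.Clo.Phi

/-!
# The function `φ` with prescribed orders of the poles

PROOF. Let `g₀ ≥ 1` be large enough for `exists_poles` at `p` and at `q`: for `j ≥ g₀` there are
functions `f j` (`h j`) with a pole of order exactly `j` at `p` (at `q`) and regular at all other
places. Put `g = 4 g₀ + 1`. Let `n1, n2 ≥ g` and `A = n1 - g₀`, `B = n2 - g₀`. Let `r` be a place
different from `p` and `q`. As in the proof of `exists_phi` (`Phi.lean`; copy its private lemmas,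
renamed) the `A + B - 2 g₀ + 2` functions `f j` (`g₀ ≤ j ≤ A`) and `h j` (`g₀ ≤ j ≤ B`) are
linearly independent, so by `exists_vanish` there is a nonzero combination `ψ` with order at `r` at
least `m₀ = A + B - 2 g₀ + 1`. The orders of `ψ` at `p` and `q` are at least `-A` and `-B`; `ψ` is
regular at all other places, so by `degree_zero` they are `-a` and `-b` with `a + b ≥ m₀`, `a ≤ A`,
`b ≤ B`, hence `a ≥ m₀ - B > 0` and `b ≥ m₀ - A > 0`. Now `n1 - a ≥ g₀` and `n2 - b ≥ g₀`. Let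
`f' = f (n1 - a) + c` and `h' = h (n2 - b) + c'` with constants `c`, `c'` such that the value of
`f'`
at `q` and the value of `h'` at `p` is not zero (a place has a value there: `exists_at`; choose
`c` different from minus the value, and `c'` in the same way): the orders at the poles are unchanged
(`hasOrd_add`, `hasOrd_const`) and the order of `f'` at `q`, of `h'` at `p` is zero. Let
`φ = ψ f' h'`. Its order at `p` is `-a - (n1 - a) + 0 = -n1`, at `q` it is `-n2`, at `r` it is some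
`m ≥ m₀` (`f'` and `h'` are regular at `r`), and `φ` is regular at all other places. Finally
`m ≥ m₀ = n1 + n2 - 4 g₀ + 1 > n1, n2`.
-/

set_option autoImplicit false

noncomputable section

namespace Pool.Agent.Clo

open Pool.Agent.ZCyc Pool.Agent.Dess
open scoped Classical

section BPhi

variable {F : Type} [Field F] [Algebra QQ F]

/-- a uniformizer has order one -/
private theorem ordUnif_BPhi (hF : IsCurve QQ F) {v : Place QQ F} {π : F} (hπ : IsUnif v π) :
    HasOrd v π 1 := by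
  rw [hasOrd_iff hF hπ, zpow_one, div_self hπ.1]
  exact ⟨one_mem _, by rw [inv_one]; exact one_mem _⟩

private theorem ordPow_BPhi (hF : IsCurve QQ F) {v : Place QQ F} {π : F} (hπ : IsUnif v π)
    (e : ℕ) : HasOrd v (π ^ e) (e : ℤ) := by
  have h := hasOrd_pow hF (ordUnif_BPhi hF hπ) e
  rwa [mul_one] at h

private theorem vanSum_BPhi {v : Place QQ F} {ι : Type} (s : Finset ι) (f : ι → F)
    (h : ∀ i ∈ s, v.Vanishes (f i)) : v.Vanishes (∑ i ∈ s, f i) :=
  Finset.sum_induction f (fun x => v.Vanishes x) (fun _ _ ha hb => ha.add v hb)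
    v.vanishes_zero h

/-- functions with poles of different orders at `v` -/
private theorem indep_BPhi (hF : IsCurve QQ F) (v : Place QQ F) {ι : Type} [Fintype ι]
    (u : ι → F) (P : ι → Prop) (e : ι → ℕ) (h0 : ∀ i, P i → u i ≠ 0)
    (h1 : ∀ i, P i → HasOrd v (u i) (-(e i : ℤ))) (h2 : ∀ i, P i → 0 < e i)
    (h3 : ∀ i j, P i → P j → e i = e j → i = j) (h4 : ∀ i, ¬ P i → u i ∈ v.ring)
    (c : ι → QQ) (hc : ∑ i, c i • u i = 0) : ∀ i, P i → c i = 0 := by
  by_contra hcon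
  push Not at hcon
  obtain ⟨i₁, hi₁, hi₁'⟩ := hcon
  obtain ⟨i₀, hi₀, hmax⟩ := Finset.exists_max_image
    (Finset.univ.filter fun i => P i ∧ c i ≠ 0) e
    ⟨i₁, Finset.mem_filter.2 ⟨Finset.mem_univ _, hi₁, hi₁'⟩⟩
  simp only [Finset.mem_filter, Finset.mem_univ, true_and] at hi₀ hmax
  obtain ⟨π, hπ⟩ := exists_unif hF v
  have hπ2 : HasOrd v (π ^ e i₀) (e i₀ : ℤ) := ordPow_BPhi hF hπ (e i₀)
  have hterm : ∀ i, P i → c i ≠ 0 →
      HasOrd v (c i • u i * π ^ e i₀) (-(e i : ℤ) + e i₀) := by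
    intro i hi hci
    rw [Algebra.smul_def]
    have h5 := hasOrd_mul hF (hasOrd_mul hF (hasOrd_const hF v hci) (h1 i hi)) hπ2
    rwa [zero_add] at h5
  have hne : ∀ i, P i → c i ≠ 0 → c i • u i * π ^ e i₀ ≠ 0 := by
    intro i hi hci
    exact mul_ne_zero (smul_ne_zero hci (h0 i hi)) (pow_ne_zero _ hπ.1)
  have hvan : ∀ i ∈ Finset.univ.erase i₀, v.Vanishes (c i • u i * π ^ e i₀) := by
    intro i hi
    have hi' := (Finset.mem_erase.1 hi).1
    by_cases hci : c i = 0
    · rw [hci, zero_smul, zero_mul]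
      exact v.vanishes_zero
    by_cases hPi : P i
    · rw [hasOrd_pos hF (hne i hPi hci) (hterm i hPi hci)]
      have h5 := hmax i ⟨hPi, hci⟩
      have h6 : e i ≠ e i₀ := fun h => hi' (h3 i i₀ hPi hi₀.1 h)
      omega
    · refine Place.Vanishes.mul' v (hπ.2.1.pow v (h2 i₀ hi₀.1).ne') ?_
      rw [Algebra.smul_def]
      exact mul_mem (v.const_mem _) (h4 i hPi)
  have hsum : ∑ i, c i • u i * π ^ e i₀ = 0 := by
    rw [← Finset.sum_mul, hc, zero_mul]
  rw [← Finset.add_sum_erase _ _ (Finset.mem_univ i₀)] at hsum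
  have h5 := vanSum_BPhi _ _ hvan
  have h6 : v.Vanishes (c i₀ • u i₀ * π ^ e i₀) := by
    rw [eq_neg_of_add_eq_zero_left hsum]
    exact h5.neg v
  rw [hasOrd_pos hF (hne i₀ hi₀.1 hi₀.2) (hterm i₀ hi₀.1 hi₀.2)] at h6
  omega

/-- the functions `f` for which `f * a` is regular at `v` -/
private def sub_BPhi (v : Place QQ F) (a : F) : Submodule QQ F where
  carrier := {f | f * a ∈ v.ring}
  add_mem' := by
    intro f g hf hg
    rw [Set.mem_ofPred_eq, add_mul]
    exact add_mem hf hg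
  zero_mem' := by
    rw [Set.mem_ofPred_eq, zero_mul]
    exact zero_mem _
  smul_mem' := by
    intro c f hf
    rw [Set.mem_ofPred_eq, Algebra.smul_def, mul_assoc]
    exact mul_mem (v.const_mem c) hf

private theorem span_BPhi {v : Place QQ F} {a : F} {ι : Type} {u : ι → F}
    (h : ∀ i, u i * a ∈ v.ring) {φ : F} (hφ : φ ∈ Submodule.span QQ (Set.range u)) :
    φ * a ∈ v.ring := by
  have h1 : Submodule.span QQ (Set.range u) ≤ sub_BPhi v a := by
    rw [Submodule.span_le]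
    rintro _ ⟨i, rfl⟩
    exact h i
  exact h1 hφ

/-- a function with a pole of order `n` at `p` and of order zero at `q` -/
private theorem fix_BPhi (hF : IsCurve QQ F) {p q : Place QQ F} (hpq : p ≠ q) {f : F} {n : ℕ}
    (hn : 0 < n) (hf0 : f ≠ 0) (hf : HasOrd p f (-(n : ℤ)))
    (hr : ∀ v : Place QQ F, v ≠ p → f ∈ v.ring) :
    ∃ f' : F, f' ≠ 0 ∧ HasOrd p f' (-(n : ℤ)) ∧ HasOrd q f' 0 ∧
      ∀ v : Place QQ F, v ≠ p → f' ∈ v.ring := by
  obtain ⟨c, hc⟩ := exists_at hF q (hr q hpq.symm)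
  have hat : q.At (f + algebraMap QQ F (1 - c)) 1 := by
    have h1 := Place.At.add hc (Place.at_const (v := q) (1 - c))
    rwa [add_sub_cancel] at h1
  have hnv : ¬ q.Vanishes (f + algebraMap QQ F (1 - c)) := by
    intro h1
    exact one_ne_zero (Place.At.unique hat (Place.at_zero_iff.2 h1))
  have hne : f + algebraMap QQ F (1 - c) ≠ 0 := by
    intro h1
    rw [h1] at hnv
    exact hnv q.vanishes_zero
  have hreg : ∀ v : Place QQ F, v ≠ p → f + algebraMap QQ F (1 - c) ∈ v.ring := fun v hv =>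
    add_mem (hr v hv) (v.const_mem _)
  refine ⟨f + algebraMap QQ F (1 - c), hne, ?_, ?_, hreg⟩
  · by_cases h0 : 1 - c = 0
    · rw [h0, map_zero, add_zero]
      exact hf
    · refine hasOrd_add hF hf0 ?_ hf (hasOrd_const hF p h0) (by omega)
      intro h1
      exact h0 ((algebraMap QQ F).injective (h1.trans (map_zero _).symm))
  · obtain ⟨a, ha⟩ := hasOrd_exists hF q hne
    have h1 := (hasOrd_nonneg hF hne ha).1 (hreg q hpq.symm)
    rw [hasOrd_pos hF hne ha] at hnv
    have h2 : a = 0 := by omega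
    rwa [h2] at ha

theorem exists_phi_exact {F : Type} [Field F] [Algebra QQ F] (hF : IsCurve QQ F)
    {p q : Place QQ F} (hpq : p ≠ q) : ∃ g : ℕ, ∀ n1 n2 : ℕ, g ≤ n1 → g ≤ n2 →
      ∃ (φ : F) (r : Place QQ F) (m : ℕ), φ ≠ 0 ∧ HasOrd p φ (-(n1 : ℤ)) ∧
        HasOrd q φ (-(n2 : ℤ)) ∧ (∀ v : Place QQ F, v ≠ p → v ≠ q → φ ∈ v.ring) ∧
        HasOrd r φ (m : ℤ) ∧ n1 < m ∧ n2 < m := by
  obtain ⟨g₁, hg₁⟩ := exists_poles hF p
  obtain ⟨g₂, hg₂⟩ := exists_poles hF q
  obtain ⟨g, hgdef⟩ : ∃ g : ℕ, g = max (max g₁ g₂) 1 := ⟨_, rfl⟩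
  have hg1 : g₁ ≤ g := by omega
  have hg2 : g₂ ≤ g := by omega
  have hg0 : 1 ≤ g := by omega
  choose! f hf0 hf hfr using hg₁
  choose! h hh0 hh hhr using hg₂
  refine ⟨4 * g + 1, fun n1 n2 hn1 hn2 => ?_⟩
  obtain ⟨A, hA⟩ : ∃ A, n1 = A + g := ⟨n1 - g, by omega⟩
  obtain ⟨B, hB⟩ : ∃ B, n2 = B + g := ⟨n2 - g, by omega⟩
  obtain ⟨K, hK⟩ : ∃ K, K = A - g + 1 := ⟨_, rfl⟩
  obtain ⟨m₀, hm₀⟩ : ∃ m₀, m₀ = A + B - 2 * g + 1 := ⟨_, rfl⟩
  obtain ⟨r, hr⟩ := exists_notMem hF {p, q}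
  have hrp : r ≠ p := fun h' => hr (by simp [h'])
  have hrq : r ≠ q := fun h' => hr (by simp [h'])
  obtain ⟨u, hu⟩ : ∃ u : Fin (m₀ + 1) → F,
      ∀ i, u i = if (i : ℕ) < K then f (g + i) else h (i - K + g) := ⟨_, fun _ => rfl⟩
  have hu1 : ∀ i : Fin (m₀ + 1), (i : ℕ) < K → u i = f (g + i) :=
    fun i hi => by rw [hu, if_pos hi]
  have hu2 : ∀ i : Fin (m₀ + 1), ¬ (i : ℕ) < K → u i = h (i - K + g) :=
    fun i hi => by rw [hu, if_neg hi]
  have hureg : ∀ i (v : Place QQ F), v ≠ p → v ≠ q → u i ∈ v.ring := by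
    intro i v hvp hvq
    by_cases hi : (i : ℕ) < K
    · rw [hu1 i hi]
      exact hfr _ (by omega) v hvp
    · rw [hu2 i hi]
      exact hhr _ (by omega) v hvq
  have hlin : LinearIndependent QQ u := by
    rw [Fintype.linearIndependent_iff]
    intro c hc i
    by_cases hi : (i : ℕ) < K
    · refine indep_BPhi hF p u (fun i => (i : ℕ) < K) (fun i => g + i) ?_ ?_ ?_ ?_ ?_ c hc i hi
      · intro i hi
        rw [hu1 i hi]
        exact hf0 _ (by omega)
      · intro i hi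
        rw [hu1 i hi]
        exact hf _ (by omega)
      · intro i _
        show 0 < g + (i : ℕ)
        omega
      · intro i j _ _ hij
        have hij' : g + (i : ℕ) = g + j := hij
        exact Fin.ext (by omega)
      · intro i hi
        rw [hu2 i hi]
        exact hhr _ (by omega) p hpq
    · refine indep_BPhi hF q u (fun i => ¬ (i : ℕ) < K) (fun i => i - K + g) ?_ ?_ ?_ ?_ ?_ c hc
        i hi
      · intro i hi
        rw [hu2 i hi]
        exact hh0 _ (by omega)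
      · intro i hi
        rw [hu2 i hi]
        exact hh _ (by omega)
      · intro i hi
        show 0 < (i : ℕ) - K + g
        omega
      · intro i j hi hj hij
        have hij' : (i : ℕ) - K + g = j - K + g := hij
        exact Fin.ext (by omega)
      · intro i hi
        rw [not_not] at hi
        rw [hu1 i hi]
        exact hfr _ (by omega) q hpq.symm
  obtain ⟨πr, hπr⟩ := exists_unif hF r
  obtain ⟨πp, hπp⟩ := exists_unif hF p
  obtain ⟨πq, hπq⟩ := exists_unif hF q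
  obtain ⟨φ, hspan, hφ0, hφr⟩ := exists_vanish hF hπr m₀ u hlin
    (fun i => hureg i r hrp hrq)
  have hφreg : ∀ v : Place QQ F, v ≠ p → v ≠ q → φ ∈ v.ring := by
    intro v hvp hvq
    have h1 := span_BPhi (v := v) (a := 1) (u := u)
      (fun i => by rw [mul_one]; exact hureg i v hvp hvq) hspan
    rwa [mul_one] at h1
  have hφp : φ * πp ^ A ∈ p.ring := by
    refine span_BPhi (u := u) (fun i => ?_) hspan
    by_cases hi : (i : ℕ) < K
    · rw [hu1 i hi, hasOrd_nonneg hF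
        (mul_ne_zero (hf0 _ (by omega)) (pow_ne_zero _ hπp.1))
        (hasOrd_mul hF (hf _ (by omega)) (ordPow_BPhi hF hπp _))]
      push_cast
      omega
    · rw [hu2 i hi]
      exact mul_mem (hhr _ (by omega) p hpq) (pow_mem (hπp.2.1.mem p) _)
  have hφq : φ * πq ^ B ∈ q.ring := by
    refine span_BPhi (u := u) (fun i => ?_) hspan
    by_cases hi : (i : ℕ) < K
    · rw [hu1 i hi]
      exact mul_mem (hfr _ (by omega) q hpq.symm) (pow_mem (hπq.2.1.mem q) _)
    · have hi3 := i.isLt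
      rw [hu2 i hi, hasOrd_nonneg hF
        (mul_ne_zero (hh0 _ (by omega)) (pow_ne_zero _ hπq.1))
        (hasOrd_mul hF (hh _ (by omega)) (ordPow_BPhi hF hπq _))]
      omega
  choose n hn using fun v : Place QQ F => hasOrd_exists hF v hφ0
  have hnp : -(A : ℤ) ≤ n p := by
    have h1 := (hasOrd_nonneg hF (mul_ne_zero hφ0 (pow_ne_zero _ hπp.1))
      (hasOrd_mul hF (hn p) (ordPow_BPhi hF hπp A))).1 hφp
    linarith
  have hnq : -(B : ℤ) ≤ n q := by
    have h1 := (hasOrd_nonneg hF (mul_ne_zero hφ0 (pow_ne_zero _ hπq.1))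
      (hasOrd_mul hF (hn q) (ordPow_BPhi hF hπq B))).1 hφq
    linarith
  have hnr : (m₀ : ℤ) ≤ n r := by
    have h0 : φ / πr ^ m₀ ≠ 0 := div_ne_zero hφ0 (pow_ne_zero _ hπr.1)
    obtain ⟨a, ha⟩ := hasOrd_exists hF r h0
    have h1 := (hasOrd_nonneg hF h0 ha).1 hφr
    have h2 := hasOrd_mul hF ha (ordPow_BPhi hF hπr m₀)
    rw [div_mul_cancel₀ _ (pow_ne_zero _ hπr.1)] at h2
    have h3 := Dess4.hasOrd_unique hF hφ0 (hn r) h2
    linarith
  have hφt : Transcendental QQ φ := by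
    intro halg
    obtain ⟨c, hc⟩ := minpoly.mem_range_of_degree_eq_one QQ φ
      (IsAlgClosed.degree_eq_one_of_irreducible QQ (minpoly.irreducible halg.isIntegral))
    have hc0 : c ≠ 0 := by
      rintro rfl
      rw [map_zero] at hc
      exact hφ0 hc.symm
    have h1 : r.Vanishes φ := (hasOrd_pos hF hφ0 (hn r)).2 (by omega)
    rw [← hc] at h1
    exact r.const_unit hc0 h1
  obtain ⟨S, hS⟩ : ∃ S : Finset (Place QQ F), S = (finite_at hF hφt 0).toFinset ∪ {p, q, r} :=
    ⟨_, rfl⟩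
  have hdeg := Dess4.degree_zero hF hφ0 S n (fun v _ => hn v) (fun v hv => by
    have h1 : ¬ v.Vanishes φ := by
      intro h2
      apply hv
      rw [hS, Finset.mem_union, Set.Finite.mem_toFinset]
      exact Or.inl (Place.at_zero_iff.2 h2)
    have h2 : v ≠ p ∧ v ≠ q := by
      constructor
      · rintro rfl
        exact hv (by rw [hS]; simp)
      · rintro rfl
        exact hv (by rw [hS]; simp)
    have h3 := (hasOrd_nonneg hF hφ0 (hn v)).1 (hφreg v h2.1 h2.2)
    rw [hasOrd_pos hF hφ0 (hn v)] at h1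
    have h4 : n v = 0 := by omega
    rw [← h4]
    exact hn v)
  have hle : ∑ v ∈ ({p, q, r} : Finset (Place QQ F)), n v ≤ ∑ v ∈ S, n v := by
    refine Finset.sum_le_sum_of_subset_of_nonneg ?_ ?_
    · rw [hS]
      exact Finset.subset_union_right
    · intro v _ hv
      have hvp : v ≠ p := fun h' => hv (by simp [h'])
      have hvq : v ≠ q := fun h' => hv (by simp [h'])
      exact (hasOrd_nonneg hF hφ0 (hn v)).1 (hφreg v hvp hvq)
  rw [hdeg, Finset.sum_insert (by simp [hpq, hrp.symm]), Finset.sum_insert (by simp [hrq.symm]),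
    Finset.sum_singleton] at hle
  -- correction of the orders
  obtain ⟨a, ha⟩ : ∃ a : ℕ, n p = -(a : ℤ) := ⟨(-n p).toNat, by omega⟩
  obtain ⟨b, hb⟩ : ∃ b : ℕ, n q = -(b : ℤ) := ⟨(-n q).toNat, by omega⟩
  obtain ⟨f', hf'0, hf'p, hf'q, hf'r⟩ := fix_BPhi hF hpq (n := n1 - a) (by omega)
    (hf0 _ (by omega)) (hf (n1 - a) (by omega)) (hfr _ (by omega))
  obtain ⟨h', hh'0, hh'q, hh'p, hh'r⟩ := fix_BPhi hF hpq.symm (n := n2 - b) (by omega)
    (hh0 _ (by omega)) (hh (n2 - b) (by omega)) (hhr _ (by omega))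
  obtain ⟨s, hs⟩ := hasOrd_exists hF r hf'0
  obtain ⟨t, ht⟩ := hasOrd_exists hF r hh'0
  have hs0 := (hasOrd_nonneg hF hf'0 hs).1 (hf'r r hrp)
  have ht0 := (hasOrd_nonneg hF hh'0 ht).1 (hh'r r hrq)
  refine ⟨φ * f' * h', r, (n r + s + t).toNat, mul_ne_zero (mul_ne_zero hφ0 hf'0) hh'0, ?_, ?_,
    fun v hvp hvq => mul_mem (mul_mem (hφreg v hvp hvq) (hf'r v hvp)) (hh'r v hvq), ?_, ?_, ?_⟩
  · have h1 := hasOrd_mul hF (hasOrd_mul hF (hn p) hf'p) hh'p
    rwa [show n p + -((n1 - a : ℕ) : ℤ) + 0 = -(n1 : ℤ) by omega] at h1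
  · have h1 := hasOrd_mul hF (hasOrd_mul hF (hn q) hf'q) hh'q
    rwa [show n q + 0 + -((n2 - b : ℕ) : ℤ) = -(n2 : ℤ) by omega] at h1
  · rw [Int.toNat_of_nonneg (by omega)]
    exact hasOrd_mul hF (hasOrd_mul hF (hn r) hs) ht
  · omega
  · omega

end BPhi

end Pool.Agent.Clo
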