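import Mathlib

/-!
# Two prime numbers of the same size, but not too close

PROOF. Suppose that this is wrong for some `c`; we may assume `c ≥ 2` (a larger `c` is a stronger
claim). Then for every prime `q ≥ c` there is no prime in the interval `[q + c, 2 q)`. Let `q 0` be
a prime `≥ c` and let `q (i + 1)` be the smallest prime `≥ q i + c`; then `q (i + 1) ≥ 2 * q i`, so
`q i ≥ 2 ^ i`. Every prime `≥ q 0` lies in one of the intervals `[q i, q i + c)`. So the sum of the
inverses of the primes converges: it is at most a finite sum plus `∑ c / q i ≤ ∑ c / 2 ^ i`. This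
contradicts `Nat.Primes.not_summable_one_div` (or `not_summable_one_div_on_primes`). In place of
the summability one can count: there are at most `q 0 + c * (k + 1)` primes below `2 ^ k`, and
compare with a Chebyshev bound of Mathlib.
-/

set_option autoImplicit false

noncomputable section

namespace Pool.Agent.Clo

theorem exists_prime_pair (c : ℕ) :
    ∃ q N : ℕ, q.Prime ∧ N.Prime ∧ c ≤ q ∧ q + c ≤ N ∧ N < 2 * q := by
  classical
  by_contra hcon
  push Not at hcon
  have hcard : ∀ n : ℕ, c ≤ n → ((Finset.Ico n (2 * n)).filter Nat.Prime).card ≤ c := by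
    intro n hn
    rcases ((Finset.Ico n (2 * n)).filter Nat.Prime).eq_empty_or_nonempty with h | h
    · rw [h, Finset.card_empty]
      exact Nat.zero_le c
    · obtain ⟨q, hq⟩ : ∃ q, q = ((Finset.Ico n (2 * n)).filter Nat.Prime).min' h := ⟨_, rfl⟩
      have hqm : q ∈ (Finset.Ico n (2 * n)).filter Nat.Prime := by
        rw [hq]
        exact Finset.min'_mem _ h
      have hsub : (Finset.Ico n (2 * n)).filter Nat.Prime ⊆ Finset.Ico q (q + c) := by
        intro p hp
        have h1 : q ≤ p := by
          rw [hq]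
          exact Finset.min'_le _ _ hp
        rw [Finset.mem_filter, Finset.mem_Ico] at hp hqm
        rw [Finset.mem_Ico]
        refine ⟨h1, ?_⟩
        by_contra h2
        push Not at h2
        have h3 := hcon q p hqm.2 hp.2 (by omega) h2
        omega
      refine (Finset.card_le_card hsub).trans (le_of_eq ?_)
      rw [Nat.card_Ico]
      omega
  apply not_summable_one_div_on_primes
  have hf0 : ∀ n : ℕ, 0 ≤ Set.indicator {p | Nat.Prime p} (fun n : ℕ => (1 : ℝ) / n) n :=
    fun n => Set.indicator_nonneg (fun x _ => by positivity) n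
  generalize hf : Set.indicator {p | Nat.Prime p} (fun n : ℕ => (1 : ℝ) / n) = f at hf0
  have hstep : ∀ k : ℕ, c ≤ 2 ^ k → ∑ n ∈ Finset.range (2 ^ (k + 1)), f n ≤
      ∑ n ∈ Finset.range (2 ^ k), f n + c * (1 / 2 ^ k) := by
    intro k hk
    have h1 : ∑ n ∈ Finset.range (2 ^ (k + 1)), f n = ∑ n ∈ Finset.range (2 ^ k), f n +
        ∑ n ∈ Finset.Ico (2 ^ k) (2 ^ (k + 1)), f n := by
      rw [Finset.sum_range_add_sum_Ico _ (Nat.pow_le_pow_right (by norm_num) (Nat.le_succ k))]
    rw [h1]
    have h2 : ∑ n ∈ Finset.Ico (2 ^ k) (2 ^ (k + 1)), f n =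
        ∑ n ∈ (Finset.Ico (2 ^ k) (2 * 2 ^ k)).filter Nat.Prime, (1 : ℝ) / n := by
      rw [pow_succ, mul_comm, Finset.sum_filter]
      refine Finset.sum_congr rfl fun n _ => ?_
      rw [← hf, Set.indicator_apply]
      rfl
    have h3 : ∑ n ∈ (Finset.Ico (2 ^ k) (2 * 2 ^ k)).filter Nat.Prime, (1 : ℝ) / n ≤
        ∑ n ∈ (Finset.Ico (2 ^ k) (2 * 2 ^ k)).filter Nat.Prime, (1 : ℝ) / 2 ^ k := by
      refine Finset.sum_le_sum fun n hn => ?_
      rw [Finset.mem_filter, Finset.mem_Ico] at hn
      have h4 : ((2 : ℝ) ^ k) ≤ n := by exact_mod_cast hn.1.1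
      exact one_div_le_one_div_of_le (by positivity) h4
    rw [Finset.sum_const, nsmul_eq_mul] at h3
    have h5 : ((((Finset.Ico (2 ^ k) (2 * 2 ^ k)).filter Nat.Prime).card : ℕ) : ℝ) ≤ c := by
      exact_mod_cast hcard (2 ^ k) hk
    have h6 := mul_le_mul_of_nonneg_right h5 (by positivity : (0 : ℝ) ≤ 1 / 2 ^ k)
    rw [h2]
    linarith
  have hind : ∀ j : ℕ, ∑ n ∈ Finset.range (2 ^ (c + j)), f n ≤
      ∑ n ∈ Finset.range (2 ^ c), f n + 2 * c * (1 - 1 / 2 ^ j) := by
    intro j
    induction j with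
    | zero => simp
    | succ j ih =>
      have h1 := hstep (c + j) (Nat.lt_two_pow_self.le.trans
        (Nat.pow_le_pow_right (by norm_num) (Nat.le_add_right c j)))
      have h2 : (c : ℝ) * (1 / 2 ^ (c + j)) ≤ c * (1 / 2 ^ j) := by
        refine mul_le_mul_of_nonneg_left ?_ (Nat.cast_nonneg c)
        exact one_div_le_one_div_of_le (by positivity)
          (pow_le_pow_right₀ (by norm_num) (Nat.le_add_left j c))
      have h3 : (2 : ℝ) * c * (1 - 1 / 2 ^ (j + 1)) =
          2 * c * (1 - 1 / 2 ^ j) + c * (1 / 2 ^ j) := by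
        rw [pow_succ]
        field_simp
        ring
      rw [h3]
      have e : c + (j + 1) = c + j + 1 := by ring
      rw [e]
      linarith
  refine summable_of_sum_range_le (c := ∑ n ∈ Finset.range (2 ^ c), f n + 2 * c) hf0 fun n => ?_
  have h1 : ∑ i ∈ Finset.range n, f i ≤ ∑ i ∈ Finset.range (2 ^ (c + n)), f i := by
    refine Finset.sum_le_sum_of_subset_of_nonneg (Finset.range_subset_range.2 ?_)
      fun i _ _ => hf0 i
    exact Nat.lt_two_pow_self.le.trans
      (Nat.pow_le_pow_right (by norm_num) (Nat.le_add_left n c))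
  have h2 := hind n
  have h3 : (2 : ℝ) * c * (1 - 1 / 2 ^ n) ≤ 2 * c := by
    have h4 : (0 : ℝ) ≤ 2 * c * (1 / 2 ^ n) := by positivity
    linarith
  linarith

end Pool.Agent.Clo
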