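import Pool.Agent.Clo.Prod
import Pool.Agent.Dess.Func
import Pool.Agent.Dess4.Deg

/-!
# Cycles in the kernel of the Albanese map are orthogonal to all cycles

`albKer b x y = 1 + ∑ i, b i (x i) (y i)`.

PROOFS. `albEnergy_eq`: `form` of a sum of kernels (`form_add_kernel`, induction over the finset
`Finset.univ`, or directly with `Finsupp.sum`), and `form (fun _ _ => 1) z z = (∑ z(x)) ^ 2`
(`Finsupp.sum` and `Finset.sum_mul_sum`). `sum_ratEq`: `AddSubgroup.closure_induction`; for a
generator `z = ∑ v ∈ S, single (φ v) (n v)` the sum is `∑ v ∈ S, n v = 0` by `degree_zero` of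
`Pool/Agent/Dess4/Deg.lean`. `ratEq_albKer`: `sum_ratEq`, and `map_mem`
(`Pool/Agent/Dess/Func.lean`)
for the projection `fun p _ => p i`, which is `IsMor` (with the identity `AlgHom.id`).
`form_albKer`: by linearity in `v` (`Finsupp.induction_linear`, `form_add_right`) one may assume
`v = single y m`; then the form is
`m * (∑ u(x)) + m * ∑ i, ∑ x, u(x) b i (x i) (y i)`, the first sum is zero, and the other one is the
sum in `HeightPairing.princ` for the cycle `u.mapDomain fun p _ => p i`
(`Finsupp.sum_mapDomain_index`). `form_albKer'`: symmetry of the kernel and `form_comm`.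
`albEnergy_congr`: `w = m • z + u` with `u = w - m • z` in the kernel of the Albanese map.
-/

set_option autoImplicit false

noncomputable section

namespace Pool.Agent.Clo

open Pool.Agent.ZCyc Pool.Agent.Dess
open scoped Classical

section AlbInv

variable {ι : Type} {L : ι → Type} [∀ i, Field (L i)] [∀ i, Algebra QQ (L i)]

theorem sum_ratEq {z : (∀ i, Place QQ (L i)) →₀ ℤ} (hz : z ∈ RatEq L) :
    (z.sum fun _ n => n) = 0 := by
  have hle : RatEq L ≤ (AddMonoidHom.mk' (fun z : (∀ i, Place QQ (L i)) →₀ ℤ => z.sum fun _ n => n)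
      (fun u v => Finsupp.sum_add_index' (fun _ => rfl) fun _ _ _ => rfl)).ker := by
    rw [RatEq, AddSubgroup.closure_le]
    rintro z ⟨F, _, _, φ, g, S, n, hF, hφ, hg, hS, hS', rfl⟩
    rw [SetLike.mem_coe, AddMonoidHom.mem_ker, map_sum]
    refine (Finset.sum_congr rfl fun v _ => ?_).trans (Dess4.degree_zero hF hg S n hS hS')
    show ((Finsupp.single (φ v) (n v)).sum fun _ n => n) = n v
    exact Finsupp.sum_single_index rfl
  exact hle hz

theorem ratEq_albKer {z : (∀ i, Place QQ (L i)) →₀ ℤ} (hz : z ∈ RatEq L) : AlbKer L z := by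
  refine ⟨sum_ratEq hz, fun i => map_mem (fun p (_ : Unit) => p i) ?_ hz⟩
  intro j
  right
  refine ⟨i, AlgHom.id QQ (L i), fun a => ?_⟩
  ext x
  rfl

variable [Fintype ι]

/-- the kernel of the form `albEnergy` -/
def albKer (b : ∀ i, Place QQ (L i) → Place QQ (L i) → ℝ) (x y : ∀ i, Place QQ (L i)) : ℝ :=
  1 + ∑ i, b i (x i) (y i)

variable {b : ∀ i, Place QQ (L i) → Place QQ (L i) → ℝ}

theorem albEnergy_eq (z : (∀ i, Place QQ (L i)) →₀ ℤ) :
    albEnergy b z = form (albKer b) z z := by
  have h : ∀ x y : ∀ i, Place QQ (L i), (z x : ℝ) * z y * albKer b x y =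
      (z x : ℝ) * z y + ∑ i, (z x : ℝ) * z y * b i (x i) (y i) := fun x y => by
    unfold albKer
    rw [mul_add, mul_one, Finset.mul_sum]
  unfold albEnergy form Finsupp.sum
  simp only [h, Finset.sum_add_distrib]
  rw [sq, Finset.sum_mul_sum]
  congr 1
  rw [Finset.sum_comm]
  refine Finset.sum_congr rfl fun x _ => ?_
  rw [Finset.sum_comm]

variable {S : ∀ i, Finset (L i)} {o : ∀ i, Place QQ (L i)}

theorem form_albKer (hb : ∀ i, HeightPairing (S i) (o i) (b i))
    {u : (∀ i, Place QQ (L i)) →₀ ℤ} (hu : AlbKer L u) (v : (∀ i, Place QQ (L i)) →₀ ℤ) :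
    form (albKer b) u v = 0 := by
  induction v using Finsupp.induction_linear with
  | zero => exact form_zero_right _ _
  | add v w hv hw => rw [form_add_right, hv, hw, add_zero]
  | single y m =>
    have h1 : form (albKer b) u (Finsupp.single y m) =
        m * (u.sum fun _ n => (n : ℝ)) + m * ∑ i, u.sum fun x n => (n : ℝ) * b i (x i) (y i) := by
      unfold form
      have h2 : ∀ (x : ∀ i, Place QQ (L i)) (n : ℤ), ((Finsupp.single y m).sum fun y m =>
          (n : ℝ) * m * albKer b x y) = n * m * albKer b x y := fun x n => by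
        refine Finsupp.sum_single_index ?_
        push_cast
        ring
      simp only [h2]
      unfold Finsupp.sum
      rw [Finset.sum_comm, Finset.mul_sum, Finset.mul_sum, ← Finset.sum_add_distrib]
      refine Finset.sum_congr rfl fun x _ => ?_
      unfold albKer
      show (u x : ℝ) * m * (1 + ∑ i, b i (x i) (y i)) =
        m * (u x : ℝ) + m * ∑ i, (u x : ℝ) * b i (x i) (y i)
      rw [mul_add, Finset.mul_sum, Finset.mul_sum]
      congr 1
      · ring
      · exact Finset.sum_congr rfl fun i _ => by ring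
    have h3 : (u.sum fun _ n => (n : ℝ)) = 0 := by
      have := hu.1
      have h6 : ((u.sum fun _ n => n : ℤ) : ℝ) = u.sum fun _ n => (n : ℝ) := by
        unfold Finsupp.sum
        push_cast
        rfl
      rw [← h6, this, Int.cast_zero]
    have h4 : ∀ i, (u.sum fun x n => (n : ℝ) * b i (x i) (y i)) = 0 := by
      intro i
      have h5 := (hb i).princ _ (hu.2 i) (y i)
      rw [Finsupp.sum_mapDomain_index (fun x => by push_cast; ring)
        (fun x a c => by push_cast; ring)] at h5
      exact h5
    rw [h1, h3, mul_zero, zero_add, Finset.sum_eq_zero fun i _ => h4 i, mul_zero]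

theorem form_albKer' (hb : ∀ i, HeightPairing (S i) (o i) (b i))
    {u : (∀ i, Place QQ (L i)) →₀ ℤ} (hu : AlbKer L u) (v : (∀ i, Place QQ (L i)) →₀ ℤ) :
    form (albKer b) v u = 0 := by
  rw [form_comm (fun x y => ?_)]
  · exact form_albKer hb hu v
  · unfold albKer
    congr 1
    exact Finset.sum_congr rfl fun i _ => (hb i).symm _ _

theorem albEnergy_congr (hb : ∀ i, HeightPairing (S i) (o i) (b i)) {m : ℕ}
    {w z : (∀ i, Place QQ (L i)) →₀ ℤ} (h : AlbKer L (w - m • z)) :
    albEnergy b w = (m : ℝ) ^ 2 * albEnergy b z := by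
  obtain ⟨u, hu⟩ : ∃ u, u = w - m • z := ⟨_, rfl⟩
  have hw : w = (m : ℤ) • z + u := by
    rw [hu, natCast_zsmul]
    abel
  rw [← hu] at h
  rw [albEnergy_eq, albEnergy_eq, hw, form_add_right, form_add_left, form_albKer' hb h,
    form_albKer hb h, form_zsmul_left, form_zsmul_right]
  push_cast
  ring

end AlbInv

end Pool.Agent.Clo
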