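import Pool.Agent.Dess.Defs

/-!
# Functions with two poles

The data for the construction of irreducible fibres: a function `φ` whose poles are the points `p`
and `q`, of orders `n1` and `n2`, and which has a zero of order `m` at the point `r`, where `m` is
larger than `n1` and `n2`; and functions `y`, `z`, `u` with exactly one pole, at `p`, `q` and `r`.
-/

set_option autoImplicit false

noncomputable section

namespace Pool.Agent.Clo

open Pool.Agent.ZCyc Pool.Agent.Dess

variable {F : Type} [Field F] [Algebra QQ F]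

/-- The function `φ` has poles of orders `n1`, `n2` at `p`, `q` and no other poles, and a zero of
order `m > n1, n2` at `r`. The function `y` has exactly one pole, at `p`, its order `e1` is prime
to `n1`, and `y` vanishes at `q`; `z` has exactly one pole, at `q`, its order `e2` is prime to `n2`,
and `z` vanishes at `p`; `u` has exactly one pole, at `r`, its order `e3` is prime to `m`, and `u`
vanishes at all other zeros of `φ`. (`HasOrd v f n` holds for `f = 0`, so that it is necessary to
say that the functions are not zero.) -/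
structure Fib (φ y z u : F) (p q r : Place QQ F) (n1 n2 m e1 e2 e3 : ℕ) : Prop where
  ne : p ≠ q
  phi_ne : φ ≠ 0
  y_ne : y ≠ 0
  z_ne : z ≠ 0
  u_ne : u ≠ 0
  ordp : HasOrd p φ (-(n1 : ℤ))
  ordq : HasOrd q φ (-(n2 : ℤ))
  reg : ∀ v : Place QQ F, v ≠ p → v ≠ q → φ ∈ v.ring
  ordr : HasOrd r φ (m : ℤ)
  n1_pos : 0 < n1
  n2_pos : 0 < n2
  lt1 : n1 < m
  lt2 : n2 < m
  y_ord : HasOrd p y (-(e1 : ℤ))
  y_reg : ∀ v : Place QQ F, v ≠ p → y ∈ v.ring
  y_van : q.Vanishes y
  e1_pos : 0 < e1
  y_cop : Nat.Coprime e1 n1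
  z_ord : HasOrd q z (-(e2 : ℤ))
  z_reg : ∀ v : Place QQ F, v ≠ q → z ∈ v.ring
  z_van : p.Vanishes z
  e2_pos : 0 < e2
  z_cop : Nat.Coprime e2 n2
  u_ord : HasOrd r u (-(e3 : ℤ))
  u_reg : ∀ v : Place QQ F, v ≠ r → u ∈ v.ring
  u_van : ∀ v : Place QQ F, v ≠ r → v.Vanishes φ → v.Vanishes u
  e3_pos : 0 < e3
  u_cop : Nat.Coprime e3 m

end Pool.Agent.Clo
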