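import Pool.Agent.Clo.Form

/-!
# The product kernel
-/

set_option autoImplicit false

noncomputable section

namespace Pool.Agent.Clo

open Pool.Agent.ZCyc Pool.Agent.Dess

section Curve

variable {F : Type} [Field F] [Algebra QQ F]

theorem Kernel.toPSD {A : Place QQ F → Place QQ F → ℝ} (h : Kernel A) : PSD A :=
  ⟨h.symm, h.psd⟩

end Curve

section Prod

variable {ι : Type} [Fintype ι] {L : ι → Type} [∀ i, Field (L i)] [∀ i, Algebra QQ (L i)]

/-- the product kernel -/
def prodKer (A : ∀ i, Place QQ (L i) → Place QQ (L i) → ℝ) (x y : ∀ i, Place QQ (L i)) : ℝ :=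
  ∏ i, A i (x i) (y i)

theorem energy_eq (A : ∀ i, Place QQ (L i) → Place QQ (L i) → ℝ)
    (w : (∀ i, Place QQ (L i)) →₀ ℤ) : energy A w = form (prodKer A) w w := rfl

theorem psd_prodKer {A : ∀ i, Place QQ (L i) → Place QQ (L i) → ℝ} (hA : ∀ i, PSD (A i)) :
    PSD (prodKer A) :=
  psd_prod (K := fun i (x y : ∀ i, Place QQ (L i)) => A i (x i) (y i)) Finset.univ
    (fun i _ => psd_comap (hA i) fun x : ∀ i, Place QQ (L i) => x i)

end Prod

end Pool.Agent.Clo
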