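import Pool.Agent.Clo.Act
import Pool.Agent.Clo.Prod
import Pool.Agent.Dess.Func

/-!
# The action of the Galois group on zero-cycles

`Auto S` is the set of the compatible families of semilinear automorphisms which fix the
generators. (It is a group, but we use only what is stated here.)

PROOFS. `map_injective`: `moves_left` with `moves_act`, in each component. `exists_comp`,
`exists_symm`:
compositions `(τ.r i).trans (σ.r i)` and inverses `(σ.r i).symm`, `σ.rho.symm`; use `fixes_trans`,
`moves_trans`, `moves_eq`. `rational_iff`: for `σ : Auto S`, `z.mapDomain σ.map` at `σ.map x` is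
`z x` (`Finsupp.mapDomain_apply σ.map_injective`), and `σ.map` is surjective by `exists_symm`;
conversely `x' = σ.map x` by `moves_eq`. `form_map'`: `form_map` and `Inv` (with `moves_act`).
-/

set_option autoImplicit false

noncomputable section

namespace Pool.Agent.Clo

open Pool.Agent.ZCyc Pool.Agent.Dess
open scoped Classical

section Auto

variable {ι : Type} {L : ι → Type} [∀ i, Field (L i)] [∀ i, Algebra QQ (L i)]
  {S : ∀ i, Finset (L i)}

/-- the Galois group of the models -/
structure Auto (S : ∀ i, Finset (L i)) where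
  rho : Gam
  r : ∀ i, L i ≃+* L i
  fix : ∀ i, Fixes (S i) rho (r i)

/-- the action on points -/
def Auto.map (σ : Auto S) (x : ∀ i, Place QQ (L i)) : ∀ i, Place QQ (L i) := fun i =>
  act (σ.r i) (σ.fix i).2 (x i)

theorem Auto.moves (σ : Auto S) (x : ∀ i, Place QQ (L i)) (i : ι) :
    Moves (σ.r i) (x i) (σ.map x i) :=
  moves_act _ _

theorem Auto.map_injective (σ : Auto S) : Function.Injective σ.map := by
  intro x y hxy
  funext i
  refine moves_left (σ.moves x i) ?_
  rw [hxy]
  exact σ.moves y i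

theorem Auto.exists_comp (σ τ : Auto S) : ∃ υ : Auto S, ∀ x, υ.map x = σ.map (τ.map x) := by
  refine ⟨⟨τ.rho.trans σ.rho, fun i => (τ.r i).trans (σ.r i),
    fun i => fixes_trans (τ.fix i) (σ.fix i)⟩, fun x => ?_⟩
  funext i
  exact (moves_eq (fixes_trans (τ.fix i) (σ.fix i)).2
    (moves_trans (τ.moves x i) (σ.moves (τ.map x) i))).symm

theorem Auto.exists_symm (σ : Auto S) : ∃ υ : Auto S, ∀ x, σ.map (υ.map x) = x := by
  have hfix : ∀ i, Fixes (S i) (σ.rho.symm : Gam) (σ.r i).symm := by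
    intro i
    refine ⟨fun s hs => ?_, fun c => ?_⟩
    · rw [RingEquiv.symm_apply_eq]
      exact ((σ.fix i).1 s hs).symm
    · rw [RingEquiv.symm_apply_eq, (σ.fix i).2, AlgEquiv.apply_symm_apply]
  obtain ⟨υ, hυ⟩ : ∃ υ : Auto S, ∀ i, υ.r i = (σ.r i).symm :=
    ⟨⟨σ.rho.symm, fun i => (σ.r i).symm, hfix⟩, fun i => rfl⟩
  refine ⟨υ, fun x => ?_⟩
  funext i
  have h1 := moves_iff.1 (υ.moves x i)
  refine (moves_eq (σ.fix i).2 (moves_iff.2 fun f => ?_)).symm
  rw [← h1 (σ.r i f), hυ i, RingEquiv.symm_apply_apply]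

theorem rational_iff {z : (∀ i, Place QQ (L i)) →₀ ℤ} :
    Rational S z ↔ ∀ σ : Auto S, z.mapDomain σ.map = z := by
  constructor
  · intro h σ
    ext x'
    obtain ⟨υ, hυ⟩ := σ.exists_symm
    rw [← hυ x', Finsupp.mapDomain_apply σ.map_injective]
    exact (h σ.rho σ.r σ.fix _ _ (σ.moves _)).symm
  · intro h ρ r hr x x' hx
    obtain ⟨σ, h1, h2⟩ : ∃ σ : Auto S, (∀ y, z.mapDomain σ.map y = z y) ∧ x' = σ.map x := by
      refine ⟨⟨ρ, r, hr⟩, fun y => by rw [h], ?_⟩
      funext i
      exact moves_eq (hr i).2 (hx i)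
    rw [h2, ← h1 (σ.map x), Finsupp.mapDomain_apply σ.map_injective]

theorem Auto.form_map' [Fintype ι] (σ : Auto S) {A : ∀ i, Place QQ (L i) → Place QQ (L i) → ℝ}
    (hA : ∀ i, Inv (S i) (A i)) (w : (∀ i, Place QQ (L i)) →₀ ℤ) :
    form (prodKer A) (w.mapDomain σ.map) (w.mapDomain σ.map) = form (prodKer A) w w := by
  rw [form_map]
  congr 1
  funext x y
  unfold prodKer
  exact Finset.prod_congr rfl fun i _ =>
    hA i σ.rho (σ.r i) (σ.fix i) _ _ _ _ (σ.moves x i) (σ.moves y i)

end Auto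

end Pool.Agent.Clo
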