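import Pool.Agent.Clo.Inv1
import Pool.Agent.Clo.RatAct
import Pool.Agent.Clo.ArFib
import Pool.Agent.Clo.ArLift
import Pool.Agent.Clo.AlbInv
import Pool.Agent.Dess.Joint

/-!
# The cycles `(x - σ x) × (y - σ y)`: definitions
-/

set_option autoImplicit false

noncomputable section

namespace Pool.Agent.Clo

open Pool.Agent.ZCyc Pool.Agent.Dess Pool.Agent.Dess4
open scoped Classical

section Defs

variable {ι : Type} {L : ι → Type} [∀ i, Field (L i)] [∀ i, Algebra QQ (L i)]

/-- The zero-cycle `(x i - x' i) × (x j - x' j) × ∏ x l`, the product over all `l ≠ i, j`. -/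
def mix (x x' : ∀ i, Place QQ (L i)) (i j : ι) : (∀ i, Place QQ (L i)) →₀ ℤ :=
  Finsupp.single x 1 - Finsupp.single (Function.update x i (x' i)) 1 -
    Finsupp.single (Function.update x j (x' j)) 1 +
    Finsupp.single (Function.update (Function.update x i (x' i)) j (x' j)) 1

/-- For all functions `f` on the curve `i`, the height of the value of `f` at the coordinate `x i`
is at most `B i f`. -/
def HtLe (B : ∀ i, L i → ℝ) (x : ∀ i, Place QQ (L i)) : Prop :=
  ∀ (i : ι) (f : L i) (c : QQ), (x i).At f c → NumberField.absLogHeight₁ c ≤ B i f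

/-- The zero-cycle `g` is, up to the sign, of the form `(x i - σ x i) × (x j - σ x j) × ∏ x l`, for
an automorphism `σ` which fixes the field `K` and the functions in the sets `S i`. The point `x`
and the point with the coordinates `σ x i`, `σ x j` and `x l` are in the set `E`. -/
def IsNew (K : IntermediateField ℚ QQ) (S : ∀ i, Finset (L i)) (E : Set (∀ i, Place QQ (L i)))
    (g : (∀ i, Place QQ (L i)) →₀ ℤ) : Prop :=
  ∃ (ρ : Gam) (r : ∀ i, L i ≃+* L i) (x x' : ∀ i, Place QQ (L i)) (i j : ι),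
    (∀ c ∈ K, ρ c = c) ∧ (∀ l, Fixes (S l) ρ (r l)) ∧ (∀ l, Moves (r l) (x l) (x' l)) ∧ i ≠ j ∧
    x ∈ E ∧ Function.update (Function.update x i (x' i)) j (x' j) ∈ E ∧
    (g = mix x x' i j ∨ g = -mix x x' i j)

/-- The class `𝒦` of fields of algebraic numbers has the property of the theorem on irreducible
fibres: for two points `p`, `q` of a curve there is a function `φ` with poles at `p` and `q` such
that, for every field `K` of the class, the Galois group of `K` acts transitively on some fibres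
of `φ` over numbers of height at most one. -/
def Orb (𝒦 : IntermediateField ℚ QQ → Prop) : Prop :=
  ∀ (F : Type) [Field F] [Algebra QQ F], IsCurve QQ F → ∀ p q : Place QQ F, p ≠ q →
    ∃ (φ y z u : F) (r : Place QQ F) (n1 n2 m e1 e2 e3 : ℕ),
      Fib φ y z u p q r n1 n2 m e1 e2 e3 ∧ ∀ K : IntermediateField ℚ QQ, 𝒦 K →
        ∀ (S : Finset F) (Bad : Finset QQ),
          ∃ t : QQ, t ∉ Bad ∧ NumberField.absLogHeight₁ t ≤ 1 ∧
            ∀ x x' : Place QQ F, x.At φ t → x'.At φ t → ∃ (ρ : Gam) (r : F ≃+* F),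
              (∀ c ∈ K, ρ c = c) ∧ Fixes S ρ r ∧ Moves r x x'

/-- some multiple is a sum of a bounded number of new cycles, for all fields with the property -/
def Gen (𝒦 : IntermediateField ℚ QQ → Prop) (z : (∀ i, Place QQ (L i)) →₀ ℤ) : Prop :=
  ∃ (m N : ℕ) (B : ∀ i, L i → ℝ), 0 < m ∧ ∀ K : IntermediateField ℚ QQ, 𝒦 K →
    ∀ S : ∀ i, Finset (L i), ∃ l : Multiset ((∀ i, Place QQ (L i)) →₀ ℤ),
      l.card ≤ N ∧ (∀ g ∈ l, IsNew K S {x | HtLe B x} g) ∧ l.sum - m • z ∈ RatEq L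

variable {𝒦 : IntermediateField ℚ QQ → Prop}

theorem IsNew.neg {K : IntermediateField ℚ QQ} {S : ∀ i, Finset (L i)}
    {E : Set (∀ i, Place QQ (L i))} {g : (∀ i, Place QQ (L i)) →₀ ℤ} (h : IsNew K S E g) :
    IsNew K S E (-g) := by
  obtain ⟨ρ, r, x, x', i, j, h1, h2, h3, h4, h5, h6, h7⟩ := h
  refine ⟨ρ, r, x, x', i, j, h1, h2, h3, h4, h5, h6, ?_⟩
  rcases h7 with h7 | h7
  · right
    rw [h7]
  · left
    rw [h7, neg_neg]

theorem IsNew.mono {K : IntermediateField ℚ QQ} {S : ∀ i, Finset (L i)}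
    {E E' : Set (∀ i, Place QQ (L i))} {g : (∀ i, Place QQ (L i)) →₀ ℤ} (h : IsNew K S E g)
    (hE : E ⊆ E') : IsNew K S E' g := by
  obtain ⟨ρ, r, x, x', i, j, h1, h2, h3, h4, h5, h6, h7⟩ := h
  exact ⟨ρ, r, x, x', i, j, h1, h2, h3, h4, hE h5, hE h6, h7⟩

theorem HtLe.mono {B B' : ∀ i, L i → ℝ} (hB : ∀ i f, B i f ≤ B' i f) :
    {x : ∀ i, Place QQ (L i) | HtLe B x} ⊆ {x | HtLe B' x} :=
  fun _ hx l f c hc => (hx l f c hc).trans (hB l f)

theorem gen_add {z z' : (∀ i, Place QQ (L i)) →₀ ℤ} (h : Gen 𝒦 z) (h' : Gen 𝒦 z') :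
    Gen 𝒦 (z + z') := by
  obtain ⟨m, N, B, hm, h⟩ := h
  obtain ⟨m', N', B', hm', h'⟩ := h'
  refine ⟨m * m', m' * N + m * N', fun i f => max (B i f) (B' i f), Nat.mul_pos hm hm',
    fun K hK S => ?_⟩
  obtain ⟨l, hl, hn, hr⟩ := h K hK S
  obtain ⟨l', hl', hn', hr'⟩ := h' K hK S
  refine ⟨m' • l + m • l', ?_, ?_, ?_⟩
  · rw [Multiset.card_add, Multiset.card_nsmul, Multiset.card_nsmul]
    exact add_le_add (Nat.mul_le_mul_left _ hl) (Nat.mul_le_mul_left _ hl')
  · intro g hg
    rcases Multiset.mem_add.1 hg with hg | hg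
    · exact (hn g (Multiset.mem_of_mem_nsmul hg)).mono (HtLe.mono fun i f => le_max_left _ _)
    · exact (hn' g (Multiset.mem_of_mem_nsmul hg)).mono (HtLe.mono fun i f => le_max_right _ _)
  · have h1 : (m' • l + m • l').sum - (m * m') • (z + z') =
        m' • (l.sum - m • z) + m • (l'.sum - m' • z') := by
      rw [Multiset.sum_add, Multiset.sum_nsmul, Multiset.sum_nsmul]
      module
    rw [h1]
    exact add_mem (AddSubgroup.nsmul_mem _ hr _) (AddSubgroup.nsmul_mem _ hr' _)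

theorem gen_neg {z : (∀ i, Place QQ (L i)) →₀ ℤ} (h : Gen 𝒦 z) : Gen 𝒦 (-z) := by
  obtain ⟨m, N, B, hm, h⟩ := h
  refine ⟨m, N, B, hm, fun K hK S => ?_⟩
  obtain ⟨l, hl, hn, hr⟩ := h K hK S
  refine ⟨l.map fun g => -g, ?_, ?_, ?_⟩
  · rwa [Multiset.card_map]
  · intro g hg
    obtain ⟨g', hg', rfl⟩ := Multiset.mem_map.1 hg
    exact (hn g' hg').neg
  · have h1 : (l.map fun g => -g).sum - m • (-z) = -(l.sum - m • z) := by
      rw [Multiset.sum_map_neg']
      module
    rw [h1]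
    exact (RatEq L).neg_mem hr

theorem gen_of_mem {z : (∀ i, Place QQ (L i)) →₀ ℤ} (h : z ∈ RatEq L) : Gen 𝒦 z := by
  refine ⟨1, 0, fun _ _ => 0, one_pos, fun K hK S => ⟨0, ?_, ?_, ?_⟩⟩
  · rw [Multiset.card_zero]
  · intro g hg
    exact absurd hg (Multiset.notMem_zero g)
  · rw [Multiset.sum_zero, zero_sub]
    exact (RatEq L).neg_mem ((RatEq L).nsmul_mem h _)

variable (𝒦) in
/-- the subgroup of the cycles with this property -/
def genGroup : AddSubgroup ((∀ i, Place QQ (L i)) →₀ ℤ) where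
  carrier := {z | Gen 𝒦 z}
  zero_mem' := gen_of_mem (zero_mem _)
  add_mem' := gen_add
  neg_mem' := gen_neg

theorem mem_genGroup {z : (∀ i, Place QQ (L i)) →₀ ℤ} : z ∈ genGroup 𝒦 ↔ Gen 𝒦 z := Iff.rfl

end Defs

section Square

variable {F : Type} [Field F] [Algebra QQ F]

theorem zt_square (s : Finset (Place QQ F)) :
    2 • zt s = ∑ x ∈ s, ∑ y ∈ s, square x y := by
  have h1 : ∀ x y : Place QQ F, square x y =
      (Finsupp.single (pair (L := fun _ => F) x x) (1 : ℤ) -
        Finsupp.single (pair (L := fun _ => F) x y) 1) +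
      (Finsupp.single (pair (L := fun _ => F) y y) (1 : ℤ) -
        Finsupp.single (pair (L := fun _ => F) y x) 1) := by
    intro x y
    unfold square sym
    abel
  simp only [h1, Finset.sum_add_distrib]
  rw [Finset.sum_comm (s := s) (t := s) (f := fun x y =>
    (Finsupp.single (pair (L := fun _ => F) y y) (1 : ℤ) -
      Finsupp.single (pair (L := fun _ => F) y x) 1))]
  have h2 : zt s = ∑ x ∈ s, ∑ y ∈ s, (Finsupp.single (pair (L := fun _ => F) x x) (1 : ℤ) -
      Finsupp.single (pair (L := fun _ => F) x y) 1) := by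
    unfold zt
    rw [Finset.smul_sum, ← Finset.sum_sub_distrib]
    refine Finset.sum_congr rfl fun x _ => ?_
    rw [Finset.sum_sub_distrib, Finset.sum_const, natCast_zsmul]
  rw [← h2, two_smul]

end Square

end Pool.Agent.Clo
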