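import Pool.Agent.Clo.Phi
import Pool.Agent.Clo.ArFib
import Pool.Agent.Dess4.Bel

/-!
# Existence of the functions `φ`, `y`, `z`, `u`

PROOFS. In the following `g` is the bound of `exists_poles` for the point in question.
`y`: let `e1 = g n1 + 1` and `f` with a pole of order `e1` at `p`, `y = f - f(q)` (`exists_at`); its
order at `p` is the same (`hasOrd_add`, `hasOrd_const`; if `f(q) = 0` nothing to do), `y ≠ 0`. In
the
same way `z` with `e2 = g n2 + 1`. `u`: let `Z` be the finite set of the zeros `v ≠ r` of `φ`, `f₀`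
a
function with one pole at `r`, of order `e₀ > 0`, and `P = ∏ v ∈ Z, (f₀ - f₀(v))`, with pole of
order
`e₀ |Z|` at `r`, `P` vanishes on `Z`. Let `f₁` have a pole at `r` only, of order `g' m' + 1` (`g'`
the
bound for `r`). Put `u = P ^ m' * f₁` : order `-(m' e₀ |Z| + g' m' + 1)` at `r`, prime to `m'`;
it vanishes on `Z` if `m' > 0` (true) and is regular away from `r`. (If `Z` is empty `P = 1`.)

`exists_fib`: combine `exists_phi`, `exists_y` for `(p, q, n1)` and for `(q, p, n2)`, and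
`exists_u` with
the finite set `Z` of the zeros `v ≠ r` of `φ` (`finite_at` with the value `0`,
`Place.at_zero_iff`; `φ` is
transcendental: it has a pole at `p`, and algebraic elements are constants).
-/

set_option autoImplicit false

noncomputable section

namespace Pool.Agent.Clo

open Pool.Agent.ZCyc Pool.Agent.Dess Pool.Agent.Dess4
open scoped Classical

section FibEx

variable {F : Type} [Field F] [Algebra QQ F]

/-- subtract the value at a point -/
private theorem fibEx_shift (hF : IsCurve QQ F) {p v : Place QQ F} (hpv : v ≠ p) {f : F} {e : ℕ}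
    (hf0 : f ≠ 0) (he : 0 < e) (hf : HasOrd p f (-(e : ℤ)))
    (hreg : ∀ w : Place QQ F, w ≠ p → f ∈ w.ring) :
    ∃ y : F, y ≠ 0 ∧ HasOrd p y (-(e : ℤ)) ∧ (∀ w : Place QQ F, w ≠ p → y ∈ w.ring) ∧
      v.Vanishes y := by
  obtain ⟨c, hc⟩ := exists_at hF v (hreg v hpv)
  have hfp : f ∉ p.ring := two_notMem hf0 he hf
  refine ⟨f - algebraMap QQ F c, ?_, ?_, fun w hw => sub_mem (hreg w hw) (w.const_mem c), hc⟩
  · intro h0
    apply hfp
    rw [sub_eq_zero.1 h0]
    exact p.const_mem c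
  · by_cases hc0 : c = 0
    · rw [hc0, map_zero, sub_zero]
      exact hf
    · have h1 : HasOrd p (algebraMap QQ F (-c)) 0 := hasOrd_const hF p (neg_ne_zero.2 hc0)
      have h2 : algebraMap QQ F (-c) ≠ 0 := by
        rw [Ne, map_eq_zero]
        exact neg_ne_zero.2 hc0
      have h3 := hasOrd_add hF hf0 h2 hf h1 (by omega)
      rwa [map_neg, ← sub_eq_add_neg] at h3

/-- a function with one pole which vanishes on a finite set -/
private theorem fibEx_prod (hF : IsCurve QQ F) (r : Place QQ F) (Z : Finset (Place QQ F))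
    (hZ : r ∉ Z) : ∃ (P : F) (E : ℕ), P ≠ 0 ∧ HasOrd r P (-(E : ℤ)) ∧
      (∀ v : Place QQ F, v ≠ r → P ∈ v.ring) ∧ ∀ v ∈ Z, v.Vanishes P := by
  induction Z using Finset.induction_on with
  | empty =>
    refine ⟨1, 0, one_ne_zero, ?_, fun v _ => one_mem _, by simp⟩
    have h1 := hasOrd_const hF r (one_ne_zero (α := QQ))
    rw [map_one] at h1
    simpa using h1
  | insert v Z hv ih =>
    rw [Finset.mem_insert, not_or] at hZ
    obtain ⟨P, E, h0, h1, h2, h3⟩ := ih hZ.2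
    obtain ⟨g, hg⟩ := exists_poles hF r
    obtain ⟨f, hf0, hf1, hf2⟩ := hg (g + 1) (by omega)
    obtain ⟨y, hy0, hy1, hy2, hy3⟩ := fibEx_shift hF (Ne.symm hZ.1) hf0 (Nat.succ_pos g) hf1 hf2
    refine ⟨P * y, E + (g + 1), mul_ne_zero h0 hy0, ?_, fun w hw => mul_mem (h2 w hw) (hy2 w hw),
      ?_⟩
    · have h4 := hasOrd_mul hF h1 hy1
      have h5 : (-((E + (g + 1) : ℕ) : ℤ)) = -(E : ℤ) + -((g + 1 : ℕ) : ℤ) := by
        push_cast
        ring
      rw [h5]
      exact h4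
    · intro w hw
      rw [Finset.mem_insert] at hw
      rcases hw with rfl | hw
      · exact Place.Vanishes.mul' w hy3 (h2 w (Ne.symm hZ.1))
      · have hwr : w ≠ r := by
          rintro rfl
          exact hZ.2 hw
        exact Place.Vanishes.mul w (h3 w hw) (hy2 w hwr)

/-- the functions `y` and `z` -/
theorem exists_y (hF : IsCurve QQ F) {p q : Place QQ F} (hpq : p ≠ q) {n : ℕ} (hn : 0 < n) :
    ∃ (y : F) (e : ℕ), y ≠ 0 ∧ HasOrd p y (-(e : ℤ)) ∧ (∀ v : Place QQ F, v ≠ p → y ∈ v.ring) ∧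
      q.Vanishes y ∧ 0 < e ∧ Nat.Coprime e n := by
  obtain ⟨g, hg⟩ := exists_poles hF p
  have h1 : g ≤ g * n + 1 := by nlinarith
  obtain ⟨f, hf0, hf1, hf2⟩ := hg (g * n + 1) h1
  obtain ⟨y, hy0, hy1, hy2, hy3⟩ := fibEx_shift hF hpq.symm hf0 (Nat.succ_pos _) hf1 hf2
  exact ⟨y, g * n + 1, hy0, hy1, hy2, hy3, Nat.succ_pos _, by simp⟩

/-- the function `u` -/
theorem exists_u (hF : IsCurve QQ F) (r : Place QQ F) (Z : Finset (Place QQ F)) (hZ : r ∉ Z)
    {m : ℕ} (hm : 0 < m) :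
    ∃ (u : F) (e : ℕ), u ≠ 0 ∧ HasOrd r u (-(e : ℤ)) ∧ (∀ v : Place QQ F, v ≠ r → u ∈ v.ring) ∧
      (∀ v ∈ Z, v.Vanishes u) ∧ 0 < e ∧ Nat.Coprime e m := by
  obtain ⟨P, E, h0, h1, h2, h3⟩ := fibEx_prod hF r Z hZ
  obtain ⟨g, hg⟩ := exists_poles hF r
  have h4 : g ≤ g * m + 1 := by nlinarith
  obtain ⟨f, hf0, hf1, hf2⟩ := hg (g * m + 1) h4
  refine ⟨P ^ m * f, (E + g) * m + 1, mul_ne_zero (pow_ne_zero m h0) hf0, ?_,
    fun v hv => mul_mem (pow_mem (h2 v hv) m) (hf2 v hv), ?_, Nat.succ_pos _, by simp⟩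
  · have h5 := hasOrd_mul hF (hasOrd_pow hF h1 m) hf1
    have h6 : (-(((E + g) * m + 1 : ℕ) : ℤ)) = (m : ℤ) * -(E : ℤ) + -((g * m + 1 : ℕ) : ℤ) := by
      push_cast
      ring
    rw [h6]
    exact h5
  · intro v hv
    have hvr : v ≠ r := by
      rintro rfl
      exact hZ hv
    exact Place.Vanishes.mul v (Place.Vanishes.pow v (h3 v hv) hm.ne') (hf2 v hvr)

theorem exists_fib (hF : IsCurve QQ F) {p q : Place QQ F} (hpq : p ≠ q) :
    ∃ (φ y z u : F) (r : Place QQ F) (n1 n2 m e1 e2 e3 : ℕ),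
      Fib φ y z u p q r n1 n2 m e1 e2 e3 := by
  obtain ⟨φ, r, n1, n2, m, h0, hp, hq, hreg, hr, hn1, hn2, hm1, hm2⟩ := exists_phi hF hpq
  obtain ⟨y, e1, y1, y2, y3, y4, y5, y6⟩ := exists_y hF hpq hn1
  obtain ⟨z, e2, z1, z2, z3, z4, z5, z6⟩ := exists_y hF hpq.symm hn2
  have hφt : Transcendental QQ φ := bel_transc (two_notMem h0 hn1 hp)
  obtain ⟨u, e3, u1, u2, u3, u4, u5, u6⟩ := exists_u hF r
    ((finite_at hF hφt 0).toFinset.erase r) (Finset.notMem_erase r _) (lt_trans hn1 hm1)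
  exact ⟨φ, y, z, u, r, n1, n2, m, e1, e2, e3,
    { ne := hpq, phi_ne := h0, y_ne := y1, z_ne := z1, u_ne := u1, ordp := hp, ordq := hq,
      reg := hreg, ordr := hr, n1_pos := hn1, n2_pos := hn2, lt1 := hm1, lt2 := hm2,
      y_ord := y2, y_reg := y3, y_van := y4, e1_pos := y5, y_cop := y6,
      z_ord := z2, z_reg := z3, z_van := z4, e2_pos := z5, z_cop := z6,
      u_ord := u2, u_reg := u3, u_van := fun v hvr hv => u4 v (by
        rw [Finset.mem_erase, Set.Finite.mem_toFinset]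
        exact ⟨hvr, Place.at_zero_iff.2 hv⟩), e3_pos := u5, u_cop := u6 }⟩

end FibEx

end Pool.Agent.Clo
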