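import Pool.Agent.Clo.Small

/-!
# Cycles whose multiples are small, with a linear bound

`IsSmallLin K z`: there are `m₀ > 0` and `C` such that, for all `M`, the cycle `M m₀ z` is
rationally equivalent to a cycle `w` with `form K w w ≤ C M`. This is stronger than `IsSmall K z`.
-/

set_option autoImplicit false

noncomputable section

namespace Pool.Agent.Clo

open Pool.Agent.ZCyc Pool.Agent.Dess
open scoped Classical

section SmallLin

variable {ι : Type} {L : ι → Type} [∀ i, Field (L i)] [∀ i, Algebra QQ (L i)]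

/-- The multiples `M m₀ z` of `z` are rationally equivalent to cycles whose energy is bounded by a
linear function of `M`. -/
def IsSmallLin (K : (∀ i, Place QQ (L i)) → (∀ i, Place QQ (L i)) → ℝ)
    (z : (∀ i, Place QQ (L i)) →₀ ℤ) : Prop :=
  ∃ (m₀ : ℕ) (C : ℝ), 0 < m₀ ∧ ∀ M : ℕ, ∃ w : (∀ i, Place QQ (L i)) →₀ ℤ,
    w - (M * m₀) • z ∈ RatEq L ∧ form K w w ≤ C * M

variable {K : (∀ i, Place QQ (L i)) → (∀ i, Place QQ (L i)) → ℝ}

theorem isSmallLin_add (hK : PSD K) {z z' : (∀ i, Place QQ (L i)) →₀ ℤ} (h : IsSmallLin K z)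
    (h' : IsSmallLin K z') : IsSmallLin K (z + z') := by
  obtain ⟨m, C, hm, h⟩ := h
  obtain ⟨m', C', hm', h'⟩ := h'
  refine ⟨m * m', 2 * (C * m' + C' * m), Nat.mul_pos hm hm', fun M => ?_⟩
  obtain ⟨w, hw, hwe⟩ := h (M * m')
  obtain ⟨w', hw', hwe'⟩ := h' (M * m)
  refine ⟨w + w', ?_, ?_⟩
  · have e1 : M * (m * m') = M * m' * m := by ring
    have e2 : M * (m * m') = M * m * m' := by ring
    have h1 : w + w' - (M * (m * m')) • (z + z') =
        (w - (M * m' * m) • z) + (w' - (M * m * m') • z') := by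
      rw [smul_add, ← e1, ← e2]
      abel
    rw [h1]
    exact (RatEq L).add_mem hw hw'
  · refine (form_add_le w w' hK one_pos).trans ?_
    push_cast at hwe hwe'
    nlinarith

theorem isSmallLin_neg {z : (∀ i, Place QQ (L i)) →₀ ℤ} (h : IsSmallLin K z) :
    IsSmallLin K (-z) := by
  obtain ⟨m, C, hm, h⟩ := h
  refine ⟨m, C, hm, fun M => ?_⟩
  obtain ⟨w, hw, hwe⟩ := h M
  refine ⟨-w, ?_, ?_⟩
  · have h1 : -w - (M * m) • (-z) = -(w - (M * m) • z) := by
      rw [smul_neg]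
      abel
    rw [h1]
    exact (RatEq L).neg_mem hw
  · have h1 : form K (-w) (-w) = form K w w := by
      have h2 : -w = (-1 : ℤ) • w := by rw [neg_smul, one_smul]
      rw [h2, form_zsmul_left, form_zsmul_right]
      push_cast
      ring
    rw [h1]
    exact hwe

theorem isSmallLin_of_mem {z : (∀ i, Place QQ (L i)) →₀ ℤ} (h : z ∈ RatEq L) :
    IsSmallLin K z := by
  refine ⟨1, 0, one_pos, fun M => ⟨0, ?_, ?_⟩⟩
  · rw [zero_sub]
    exact (RatEq L).neg_mem ((RatEq L).nsmul_mem h _)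
  · rw [form_zero_left, zero_mul]

theorem isSmallLin_of_nsmul {z : (∀ i, Place QQ (L i)) →₀ ℤ} {n : ℕ} (hn : 0 < n)
    (h : IsSmallLin K (n • z)) : IsSmallLin K z := by
  obtain ⟨m, C, hm, h⟩ := h
  refine ⟨m * n, C, Nat.mul_pos hm hn, fun M => ?_⟩
  obtain ⟨w, hw, hwe⟩ := h M
  refine ⟨w, ?_, hwe⟩
  rw [smul_smul, mul_assoc] at hw
  exact hw

/-- the subgroup of the cycles with a linear bound -/
def smallLin (hK : PSD K) : AddSubgroup ((∀ i, Place QQ (L i)) →₀ ℤ) where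
  carrier := {z | IsSmallLin K z}
  zero_mem' := isSmallLin_of_mem (zero_mem _)
  add_mem' := isSmallLin_add hK
  neg_mem' := isSmallLin_neg

theorem mem_smallLin (hK : PSD K) {z : (∀ i, Place QQ (L i)) →₀ ℤ} :
    z ∈ smallLin hK ↔ IsSmallLin K z := Iff.rfl

theorem IsSmallLin.isSmall {z : (∀ i, Place QQ (L i)) →₀ ℤ} (h : IsSmallLin K z) :
    IsSmall K z := by
  obtain ⟨m, C, hm, h⟩ := h
  intro ε hε
  obtain ⟨M, hM⟩ := exists_nat_gt (|C| / ε)
  have hM0 : (0 : ℝ) < M := lt_of_le_of_lt (by positivity) hM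
  have hM1 : 0 < M := by exact_mod_cast hM0
  obtain ⟨w, hw, hwe⟩ := h M
  refine ⟨M * m, w, Nat.mul_pos hM1 hm, hw, hwe.trans ?_⟩
  have h1 : |C| ≤ ε * M := by
    rw [div_lt_iff₀ hε] at hM
    linarith
  have h2 : (1 : ℝ) ≤ m := by exact_mod_cast hm
  have h3 : (1 : ℝ) ≤ (m : ℝ) ^ 2 := one_le_pow₀ h2
  push_cast
  calc C * M ≤ |C| * M := mul_le_mul_of_nonneg_right (le_abs_self C) hM0.le
    _ ≤ ε * M * M := mul_le_mul_of_nonneg_right h1 hM0.le
    _ = ε * (M : ℝ) ^ 2 * 1 := by ring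
    _ ≤ ε * (M : ℝ) ^ 2 * (m : ℝ) ^ 2 := mul_le_mul_of_nonneg_left h3 (by positivity)
    _ = ε * ((M : ℝ) * m) ^ 2 := by ring

end SmallLin

section Map

variable {ι ι' : Type} {L : ι → Type} [∀ i, Field (L i)] [∀ i, Algebra QQ (L i)]
  {L' : ι' → Type} [∀ i, Field (L' i)] [∀ i, Algebra QQ (L' i)]

theorem isSmallLin_map {K : (∀ i, Place QQ (L i)) → (∀ i, Place QQ (L i)) → ℝ}
    {K' : (∀ i, Place QQ (L' i)) → (∀ i, Place QQ (L' i)) → ℝ}
    {Φ : (∀ i, Place QQ (L i)) → ∀ j, Place QQ (L' j)} (hΦ : IsMor Φ)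
    (hK : ∀ x y, K' (Φ x) (Φ y) = K x y) {z : (∀ i, Place QQ (L i)) →₀ ℤ}
    (h : IsSmallLin K z) : IsSmallLin K' (z.mapDomain Φ) := by
  obtain ⟨m, C, hm, h⟩ := h
  refine ⟨m, C, hm, fun M => ?_⟩
  obtain ⟨w, hw, hwe⟩ := h M
  refine ⟨w.mapDomain Φ, ?_, ?_⟩
  · have h1 := map_mem Φ hΦ hw
    have h2 : (w - (M * m) • z).mapDomain Φ =
        w.mapDomain Φ - (M * m) • z.mapDomain Φ := by
      have h3 := map_sub (Finsupp.mapDomain.addMonoidHom (M := ℤ) Φ) w ((M * m) • z)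
      rw [map_nsmul] at h3
      exact h3
    rwa [h2] at h1
  · rw [form_map]
    have h1 : (fun x y => K' (Φ x) (Φ y)) = K := by
      funext x y
      exact hK x y
    rw [h1]
    exact hwe

end Map

end Pool.Agent.Clo
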