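import Pool.Agent.Clo.Seq
import Pool.Agent.Clo.FibEx
import Pool.Agent.Clo.SmallLin

/-!
# The cycles `(p - q) × (p - q)` are small

PROOF. Let `φ` etc. be as in `exists_fib`. By `Kernel.bdd` for `φ` and the bound `1` there are `C,
C'`
with `A x x ≤ C`, `B x x ≤ C'` for all points `x` with `φ(x) = t`, `absLogHeight₁ t ≤ 1`. Put
`m₀ = n1 * n2` and `C₀ = C * C' * (2 * (n1 + n2) ^ 2) ^ 2`. For `M : ℕ` let `s i` be as in
`exists_fibres` and `w = ∑ i, zt (s i)`. Then `w - (M * m₀) • square p q` is the sum of the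
`zt (s i) - (n1 * n2) • square p q`, which are in `RatEq` (`IsFibre.zt_ratEq`), and
`form K w w ≤ M * C₀` by `form_sum_orth` (with `zt_orth`, `zt_bound`, `IsFibre.card`, `form_comm`).
-/

set_option autoImplicit false

noncomputable section

namespace Pool.Agent.Clo

open Pool.Agent.ZCyc Pool.Agent.Dess
open scoped Classical

theorem square_small {F : Type} [Field F] [Algebra QQ F] (hF : IsCurve QQ F)
    {p q : Place QQ F} (hpq : p ≠ q) {A B : Place QQ F → Place QQ F → ℝ} (hA : Kernel A)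
    (hA' : ∃ S, Inv S A) (hB : Kernel B) (hB' : ∃ S, Inv S B) :
    IsSmallLin (L := fun _ : Bool => F) (ker2 A B) (square p q) := by
  obtain ⟨φ, y, z, u, r, n1, n2, m, e1, e2, e3, h⟩ := exists_fib hF hpq
  have htr := h.transc hF
  obtain ⟨C, hC⟩ := hA.bdd φ htr 1
  obtain ⟨C', hC'⟩ := hB.bdd φ htr 1
  obtain ⟨SA, hSA⟩ := hA'
  obtain ⟨SB, hSB⟩ := hB'
  have hPA : PSD A := ⟨hA.symm, hA.psd⟩
  have hPB : PSD B := ⟨hB.symm, hB.psd⟩
  refine ⟨n1 * n2, C * C' * (2 * ((n1 + n2 : ℕ) : ℝ) ^ 2) ^ 2,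
    Nat.mul_pos h.n1_pos h.n2_pos, fun M => ?_⟩
  obtain ⟨s, hs, horth⟩ := exists_fibres hF h hSA hSB M
  refine ⟨∑ i, zt (s i), ?_, ?_⟩
  · have h1 : ∑ i, zt (s i) - (M * (n1 * n2)) • square p q =
        ∑ i : Fin M, (zt (s i) - (n1 * n2) • square p q) := by
      rw [Finset.sum_sub_distrib, Finset.sum_const, Finset.card_univ, Fintype.card_fin, smul_smul]
    rw [h1]
    refine sum_mem fun i _ => ?_
    obtain ⟨t, -, ht⟩ := hs i
    exact ht.zt_ratEq
  · have h2 := form_sum_orth (K := ker2 A B) (psd_ker2 hPA hPB).1 (fun i => zt (s i))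
      (fun i j hij => zt_orth (fun x hx x' hx' y hy => (horth i j hij x hx x' hx' y hy).1)
        (fun x hx x' hx' y hy => (horth i j hij x hx x' hx' y hy).2))
      (C := C * C' * (2 * ((n1 + n2 : ℕ) : ℝ) ^ 2) ^ 2) (fun i => by
        obtain ⟨t, ht1, ht⟩ := hs i
        have h3 := zt_bound hPA hPB (s := s i) (C := C) (C' := C')
          (fun x hx => hC x t ((ht.mem x).1 hx) ht1) (fun x hx => hC' x t ((ht.mem x).1 hx) ht1)
        rwa [ht.card] at h3)
    rwa [mul_comm] at h2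

end Pool.Agent.Clo
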