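import Pool.Agent.Clo.OrbitB
import Pool.Agent.Clo.BPrime
import Pool.Agent.Clo.BPhi
import Pool.Agent.Clo.BDeg
import Pool.Agent.Clo.BAct
import Pool.Agent.Clo.BDvd
import Pool.Agent.Clo.BNoAlt
import Pool.Agent.Clo.New1
import Pool.Agent.Clo.Sq

/-!
# Fields without large alternating groups have the property `Orb`
-/

set_option autoImplicit false

noncomputable section

namespace Pool.Agent.Clo

open Pool.Agent.ZCyc Pool.Agent.Dess Pool.Agent.Dess4
open scoped Classical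

variable {F : Type} [Field F] [Algebra QQ F]

theorem exists_fib_prime (hF : IsCurve QQ F) {p q : Place QQ F} (hpq : p ≠ q) (X : ℕ) :
    ∃ (φ y z u : F) (r : Place QQ F) (n1 n2 m e1 e2 e3 : ℕ),
      Fib φ y z u p q r n1 n2 m e1 e2 e3 ∧ (n1 + n2).Prime ∧ n2.Prime ∧ X ≤ n1 + n2 ∧
        n1 + n2 < 2 * n2 ∧ n2 + 3 ≤ n1 + n2 := by
  obtain ⟨g, hg⟩ := exists_phi_exact hF hpq
  obtain ⟨n2, N, hn2, hN, h1, h2, h3⟩ := exists_prime_pair (g + X + 3)
  obtain ⟨n1, rfl⟩ : ∃ n1, N = n1 + n2 := ⟨N - n2, by omega⟩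
  obtain ⟨φ, r, m, h0, hp, hq, hreg, hr, hm1, hm2⟩ := hg n1 n2 (by omega) (by omega)
  have hn1' : 0 < n1 := by omega
  have hn2' : 0 < n2 := by omega
  obtain ⟨y, e1, y1, y2, y3, y4, y5, y6⟩ := exists_y hF hpq hn1'
  obtain ⟨z, e2, z1, z2, z3, z4, z5, z6⟩ := exists_y hF hpq.symm hn2'
  have hφt : Transcendental QQ φ := bel_transc (two_notMem h0 hn1' hp)
  obtain ⟨u, e3, u1, u2, u3, u4, u5, u6⟩ := exists_u hF r
    ((finite_at hF hφt 0).toFinset.erase r) (Finset.notMem_erase r _) (lt_trans hn1' hm1)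
  refine ⟨φ, y, z, u, r, n1, n2, m, e1, e2, e3,
    { ne := hpq, phi_ne := h0, y_ne := y1, z_ne := z1, u_ne := u1, ordp := hp, ordq := hq,
      reg := hreg, ordr := hr, n1_pos := hn1', n2_pos := hn2', lt1 := hm1, lt2 := hm2,
      y_ord := y2, y_reg := y3, y_van := y4, e1_pos := y5, y_cop := y6,
      z_ord := z2, z_reg := z3, z_van := z4, e2_pos := z5, z_cop := z6,
      u_ord := u2, u_reg := u3, u_van := fun v hvr hv => u4 v (by
        rw [Finset.mem_erase, Set.Finite.mem_toFinset]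
        exact ⟨hvr, Place.at_zero_iff.2 hv⟩), e3_pos := u5, u_cop := u6 }, hN, hn2, ?_, h3, ?_⟩
  · omega
  · omega

/-- the image of the Galois group contains the alternating group -/
theorem alt_range (hF : IsCurve QQ F) {φ y z u : F} {p q r : Place QQ F}
    {n1 n2 m e1 e2 e3 : ℕ} (h : Fib φ y z u p q r n1 n2 m e1 e2 e3) (hN : (n1 + n2).Prime)
    (hn2 : n2.Prime) (h1 : n1 + n2 < 2 * n2) (h2 : n2 + 3 ≤ n1 + n2) {t : QQ} {S' : Finset F}
    {E : IntermediateField ℚ QQ} (hz : z ∈ S')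
    (hgen : IntermediateField.adjoin QQ (S' : Set F) = ⊤) (htE : t ∈ E)
    {s : Finset (Place QQ F)} (hs : ∀ v, v ∈ s ↔ v.At φ t) (hcard : s.card = n1 + n2)
    (a : E.fixingSubgroup →* Equiv.Perm s)
    (ha : ∀ (ρ : E.fixingSubgroup) (x : s), ∃ r : F ≃+* F, Fixes S' (ρ : Gam) r ∧
      Moves r x.1 (a ρ x).1)
    (Y : Finset QQ) (hY : ∀ ρ : E.fixingSubgroup, (∀ c ∈ Y, (ρ : Gam) c = c) → a ρ = 1)
    (htrans : ∀ x x' : Place QQ F, x.At φ t → x'.At φ t → ∃ (ρ : Gam) (r : F ≃+* F),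
      (∀ c ∈ E, ρ c = c) ∧ Fixes S' ρ r ∧ Moves r x x')
    (hval : ∃ (W : ValuationSubring QQ) (l : ℕ) (x : Place QQ F) (b : QQ), l.Prime ∧
      (l : QQ) ∈ W.nonunits ∧ x.At φ t ∧ x.At z b ∧
      W.valuation b ^ n2 = W.valuation t ^ e2 ∧
      ∀ d ∈ E, W.valuation d ^ n2 ≠ W.valuation t) :
    alternatingGroup s ≤ a.range := by
  have hcard' : Fintype.card s = n1 + n2 := by
    rw [Fintype.card_coe, hcard]
  refine alt_le_of_prime_degree (q := n2) ?_ ?_ hn2 ?_ ?_ ?_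
  · refine ⟨fun x x' => ?_⟩
    obtain ⟨ρ, r, hρ, hr, hm⟩ := htrans x.1 x'.1 ((hs _).1 x.2) ((hs _).1 x'.2)
    have hρ' : ρ ∈ E.fixingSubgroup := (IntermediateField.mem_fixingSubgroup_iff E ρ).2 hρ
    refine ⟨⟨a ⟨ρ, hρ'⟩, ⟨_, rfl⟩⟩, ?_⟩
    obtain ⟨r', hr', hm'⟩ := ha ⟨ρ, hρ'⟩ x
    have e : r' = r := fixes_unique hgen hr' hr
    subst e
    show a ⟨ρ, hρ'⟩ x = x'
    apply Subtype.ext
    apply Place.ext
    ext f
    obtain ⟨f', rfl⟩ := r'.surjective f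
    exact (moves_iff.1 hm' f').trans (moves_iff.1 hm f').symm
  · rw [hcard']
    exact hN
  · obtain ⟨W, l, x, b, hl, hW, hx, hb, hbt, hd⟩ := hval
    have ht0 : t ≠ 0 := by
      rintro rfl
      apply hd 0 (zero_mem _)
      rw [map_zero, zero_pow hn2.ne_zero]
    refine prime_dvd_card a Y hY hl hW hn2 h.z_cop htE ht0 hd hbt ?_
    intro ρ hρ
    obtain ⟨r', hr', hm'⟩ := ha ρ ⟨x, (hs x).2 hx⟩
    rw [hρ] at hm'
    obtain ⟨x', hx', hat⟩ := exists_move hF (ρ : Gam) r' hr'.2 x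
    have e : x' = x := by
      apply Place.ext
      ext f
      obtain ⟨f', rfl⟩ := r'.surjective f
      exact (moves_iff.1 hx' f').trans (moves_iff.1 hm' f').symm
    subst e
    have h3 := (hat z b).1 hb
    rw [hr'.1 z hz] at h3
    exact (hb.unique h3).symm
  · rw [hcard']
    exact h1
  · rw [hcard']
    exact h2

/-- Every even permutation of some fibres of `φ` is induced by an automorphism which fixes the
mildly ramified field `K` and the functions in `S`. -/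
theorem alt_fibre (hF : IsCurve QQ F) {φ y z u : F} {p q r : Place QQ F}
    {n1 n2 m e1 e2 e3 : ℕ} (h : Fib φ y z u p q r n1 n2 m e1 e2 e3) (hN : (n1 + n2).Prime)
    (hn2 : n2.Prime) (h1 : n1 + n2 < 2 * n2) (h2 : n2 + 3 ≤ n1 + n2)
    {K : IntermediateField ℚ QQ} (hK : Mild K) (S : Finset F) (Bad : Finset QQ) :
    ∃ (t : QQ) (S' : Finset F) (E : IntermediateField ℚ QQ) (s : Finset (Place QQ F))
      (a : E.fixingSubgroup →* Equiv.Perm s) (Y : Finset QQ), t ∉ Bad ∧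
      (∃ k : ℕ, 0 < k ∧ t ^ k ∈ K) ∧ NumberField.absLogHeight₁ t ≤ 1 ∧ S ⊆ S' ∧ φ ∈ S' ∧
      K ≤ E ∧ t ∈ E ∧ (∀ v, v ∈ s ↔ v.At φ t) ∧ s.card = n1 + n2 ∧
      (∀ (ρ : E.fixingSubgroup) (x : s), ∃ r : F ≃+* F, Fixes S' (ρ : Gam) r ∧
        Moves r x.1 (a ρ x).1) ∧
      (∀ ρ : E.fixingSubgroup, (∀ c ∈ Y, (ρ : Gam) c = c) → a ρ = 1) ∧
      alternatingGroup s ≤ a.range := by
  have htr := h.transc hF
  have hBad := finite_crit hF htr
  obtain ⟨t, S', E, ht1, htk, ht2, hS, hφ, hz, hgen, hKE, htE, hlift, htrans, hval⟩ :=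
    one_orbit_data hF h hK S (Bad ∪ hBad.toFinset)
  rw [Finset.mem_union, not_or] at ht1
  obtain ⟨s, hs⟩ : ∃ s : Finset (Place QQ F), ∀ v, v ∈ s ↔ v.At φ t :=
    ⟨(finite_at hF htr t).toFinset, fun v => by simp⟩
  have hfib : IsFibre φ p q n1 n2 t s :=
    { curve := hF
      transc := htr
      ne := h.ne
      pole_p := h.ordp
      pole_q := h.ordq
      n1_pos := h.n1_pos
      n2_pos := h.n2_pos
      reg := h.reg
      mem := hs
      unif := by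
        intro v hv
        by_contra hu
        exact ht1.2 (hBad.mem_toFinset.2 ⟨v, hv, hu⟩) }
  obtain ⟨a, ha⟩ := exists_act hF hgen hlift hφ htE hs
  obtain ⟨Y, hY⟩ := exists_act_ker hF hgen ha
  exact ⟨t, S', E, s, a, Y, ht1.1, htk, ht2, hS, hφ, hKE, htE, hs, hfib.card, ha, hY,
    alt_range hF h hN hn2 h1 h2 hz hgen htE hs hfib.card a ha Y hY htrans (hval hn2)⟩

/-- the alternating group is transitive -/
private lemma exists_alt {α : Type} [Fintype α] [DecidableEq α] (hα : 3 ≤ Fintype.card α)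
    (x x' : α) : ∃ g ∈ alternatingGroup α, g x = x' := by
  by_cases hx : x = x'
  · exact ⟨1, one_mem _, by rw [hx]; rfl⟩
  · obtain ⟨y, hy⟩ : ∃ y : α, y ∉ ({x, x'} : Finset α) := by
      by_contra hc
      push Not at hc
      have h1 : (Finset.univ : Finset α) ⊆ {x, x'} := fun y _ => hc y
      have h2 := Finset.card_le_card h1
      rw [Finset.card_univ] at h2
      have h3 := Finset.card_le_two (a := x) (b := x')
      omega
    simp only [Finset.mem_insert, Finset.mem_singleton, not_or] at hy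
    refine ⟨Equiv.swap x x' * Equiv.swap x' y, ?_, ?_⟩
    · rw [Equiv.Perm.mem_alternatingGroup, map_mul, Equiv.Perm.sign_swap hx,
        Equiv.Perm.sign_swap (Ne.symm hy.2)]
      decide
    · rw [Equiv.Perm.mul_apply, Equiv.swap_apply_of_ne_of_ne hx (Ne.symm hy.1),
        Equiv.swap_apply_left]

/-- an automorphism which fixes `K1` and `K2` fixes their compositum -/
private lemma fix_sup {K1 K2 : IntermediateField ℚ QQ} {ρ : Gam} (h1 : ∀ c ∈ K1, ρ c = c)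
    (h2 : ∀ c ∈ K2, ρ c = c) : ∀ c ∈ K1 ⊔ K2, ρ c = c := by
  have key : ∀ (σ : Gam), σ ∈ Subgroup.zpowers ρ → ∀ c : QQ, ρ c = c → σ c = c := by
    rintro σ ⟨n, rfl⟩ c hc
    have h3 : ρ ∈ MulAction.stabilizer Gam c := hc
    exact (MulAction.stabilizer Gam c).zpow_mem h3 n
  have h3 : K1 ⊔ K2 ≤ IntermediateField.fixedField (Subgroup.zpowers ρ) :=
    sup_le (fun c hc σ => key σ.1 σ.2 c (h1 c hc)) fun c hc σ => key σ.1 σ.2 c (h2 c hc)
  intro c hc
  exact h3 hc ⟨ρ, Subgroup.mem_zpowers ρ⟩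

/-- The class of the subfields of the composita of a mildly ramified field `K1` and a normal
extension `K2` without alternating groups of degree at least `n`. -/
def Tame (n : ℕ) (K : IntermediateField ℚ QQ) : Prop :=
  ∃ K1 K2 : IntermediateField ℚ QQ, Mild K1 ∧ NoAlt n K2 ∧ K ≤ K1 ⊔ K2

theorem orb_tame {n : ℕ} (hn : 5 ≤ n) : Orb (Tame n) := by
  intro F _ _ hF p q hpq
  obtain ⟨φ, y, z, u, r, n1, n2, m, e1, e2, e3, h, hN, hn2, hX, h1, h2⟩ :=
    exists_fib_prime hF hpq n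
  refine ⟨φ, y, z, u, r, n1, n2, m, e1, e2, e3, h, ?_⟩
  rintro K ⟨K1, K2, hK1, hK2, hK⟩ S Bad
  obtain ⟨t, S', E, s, a, Y, ht1, -, ht2, hS, -, hKE, -, hs, hcard, ha, hY, hA⟩ :=
    alt_fibre hF h hN hn2 h1 h2 hK1 S Bad
  refine ⟨t, ht1, ht2, fun x x' hx hx' => ?_⟩
  have hc : Fintype.card s = n1 + n2 := by
    rw [Fintype.card_coe, hcard]
  obtain ⟨g, hg, hgx⟩ := exists_alt (by omega) (⟨x, (hs x).2 hx⟩ : s) ⟨x', (hs x').2 hx'⟩
  obtain ⟨ρ, hρ, hρg⟩ := alt_le_of_noAlt hK2 hn (by omega) a Y hY hA hg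
  obtain ⟨r', hr', hm⟩ := ha ρ ⟨x, (hs x).2 hx⟩
  rw [hρg, hgx] at hm
  refine ⟨(ρ : Gam), r', fun c hc => ?_, fixes_mono hS hr', hm⟩
  refine fix_sup (fun c hc => ?_) hρ c (hK hc)
  exact (IntermediateField.mem_fixingSubgroup_iff E _).1 ρ.2 c (hKE hc)

end Pool.Agent.Clo
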