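import Pool.Agent.Clo.MVal
import Pool.Agent.Clo.NoAltEx
import Pool.Agent.Clo.OrbB

/-!
# Examples of tame fields

The compositum of a mildly ramified field, the field of all algebraic numbers which can be expressed
by radicals and elements of a number field `F`, and the field generated by all algebraic numbers of
degree at most `d` is tame.
-/

set_option autoImplicit false

noncomputable section

namespace Pool.Agent.Clo

open Pool.Agent.ZCyc Pool.Agent.Dess

theorem tame_rad_degree (F : IntermediateField ℚ QQ) (hF : FiniteDimensional ℚ F) (d : ℕ) :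
    ∃ n : ℕ, 5 ≤ n ∧ ∀ K1 : IntermediateField ℚ QQ, Mild K1 →
      Tame n (K1 ⊔ (Rad F ⊔
        IntermediateField.adjoin ℚ {x : QQ | (minpoly ℚ x).natDegree ≤ d})) := by
  obtain ⟨m, K2, hm, hK2, hF2⟩ := noAlt_rad F hF
  have hle : IntermediateField.adjoin ℚ {x : QQ | (minpoly ℚ x).natDegree ≤ d} ≤
      IntermediateField.adjoin ℚ {x : QQ | (minpoly ℚ x).natDegree ≤ d + 2} :=
    IntermediateField.adjoin.mono ℚ _ _ fun x hx => Nat.le_trans hx (by omega)
  refine ⟨m + 2 * (d + 2) + 5, by omega, fun K1 hK1 => ⟨K1, K2 ⊔ _, hK1,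
    noAlt_sup (by omega) (noAlt_mono (by omega) hK2)
      (noAlt_degree (by omega) (by omega) (by omega)),
    sup_le_sup_left (sup_le_sup hF2 hle) K1⟩⟩

/-- Let `K1` be mildly ramified, for example a number field (`mild_of_finite`). The compositum of
`K1` and the field of all algebraic numbers which can be expressed by radicals is tame, for
`n = 5`. -/
theorem tame_rad_bot {K1 : IntermediateField ℚ QQ} (hK1 : Mild K1) : Tame 5 (K1 ⊔ Rad ⊥) :=
  ⟨K1, Rad ⊥, hK1, noAlt_rad_bot, le_rfl⟩

end Pool.Agent.Clo
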