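import Pool.Agent.Clo.TameDef
import Pool.Agent.Clo.TameEx

/-!
# Examples of fields without large alternating groups

The definitions `NoAltSec` and `NoAlt`, `TameField` and `Tame` are equivalent. The class of the
fields with `NoAltSec n` (`n ≥ 5`) is closed under composita (`noAltSec_sup`); it contains the
field of all numbers which can be expressed by radicals (`noAltSec_rad_bot`, `n = 5`), and the field
generated by all numbers of degree at most `d` (`noAltSec_degree`, `n ≥ 2 d`). The compositum of a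
mildly ramified field, of all numbers which can be expressed by radicals over a number field, and of
all numbers of degree at most `d` is a `TameField` (`tameField_rad_degree`).
-/

set_option autoImplicit false

noncomputable section

namespace Pool.Agent.Clo

open Pool.Agent.ZCyc Pool.Agent.Dess

theorem NoAlt.sec {n : ℕ} {K : IntermediateField ℚ QQ} (h : NoAlt n K) : NoAltSec n K := by
  classical
  refine ⟨h.1, ?_⟩
  rintro P Y N hN hY ⟨f, hmul, htriv, himg⟩
  have hfin : FiniteDimensional ℚ (IntermediateField.adjoin ℚ (Y : Set QQ)) := by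
    have : Finite (Y : Set QQ) := inferInstance
    exact IntermediateField.finiteDimensional_adjoin fun y _ =>
      (AlgebraicClosure.isAlgebraic ℚ).isIntegral.isIntegral y
  have hle : IntermediateField.adjoin ℚ (Y : Set QQ) ≤ K :=
    IntermediateField.adjoin_le_iff.2 fun c hc => hY c (Finset.mem_coe.1 hc)
  obtain ⟨E, h1, h2, h3, h4⟩ := exists_normal_NoAltEx h.1 hle hfin
  have hmem : ∀ ρ ∈ P, f ρ ∈ alternatingGroup (Fin N) := by
    intro ρ hρ
    have h5 : f ρ ∈ f '' (P : Set Gam) := ⟨ρ, hρ, rfl⟩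
    rw [himg] at h5
    exact h5
  let f' : P →* alternatingGroup (Fin N) :=
    { toFun := fun ρ => ⟨f ρ, hmem ρ ρ.2⟩
      map_one' := Subtype.ext (htriv 1 P.one_mem fun _ _ => rfl)
      map_mul' := fun ρ ρ' => Subtype.ext (hmul ρ ρ.2 ρ' ρ'.2) }
  refine noAlt_gam h h2 h3 h4 hN P f' (fun ρ hρ => ?_) fun y => ?_
  · exact Subtype.ext (htriv ρ ρ.2 fun c hc =>
      hρ c (h1 (IntermediateField.subset_adjoin ℚ _ (Finset.mem_coe.2 hc))))
  · have h5 : (y : Equiv.Perm (Fin N)) ∈ f '' (P : Set Gam) := by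
      rw [himg]
      exact y.2
    obtain ⟨ρ, hρ, hy⟩ := h5
    exact ⟨⟨ρ, hρ⟩, Subtype.ext hy⟩

theorem noAltSec_iff {n : ℕ} {K : IntermediateField ℚ QQ} : NoAltSec n K ↔ NoAlt n K :=
  ⟨fun h => h.noAlt, fun h => h.sec⟩

theorem tameField_iff {n : ℕ} {K : IntermediateField ℚ QQ} : TameField n K ↔ Tame n K := by
  refine ⟨fun h => h.tame, ?_⟩
  rintro ⟨K1, K2, h1, h2, h3⟩
  exact ⟨K1, K2, h1, h2.sec, h3⟩

/-- The class is closed under composita. -/
theorem noAltSec_sup {n : ℕ} (h5 : 5 ≤ n) {K1 K2 : IntermediateField ℚ QQ}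
    (h1 : NoAltSec n K1) (h2 : NoAltSec n K2) : NoAltSec n (K1 ⊔ K2) :=
  (noAlt_sup h5 h1.noAlt h2.noAlt).sec

/-- The field of all numbers which can be expressed by radicals. -/
theorem noAltSec_rad_bot : NoAltSec 5 (Rad ⊥) := noAlt_rad_bot.sec

/-- The numbers which can be expressed by radicals over a number field `F`. -/
theorem noAltSec_rad (F : IntermediateField ℚ QQ) (hf : FiniteDimensional ℚ F) :
    ∃ (n : ℕ) (K : IntermediateField ℚ QQ), 5 ≤ n ∧ NoAltSec n K ∧ Rad F ≤ K := by
  obtain ⟨n, K, h1, h2, h3⟩ := noAlt_rad F hf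
  exact ⟨n, K, h1, h2.sec, h3⟩

/-- The field generated by all numbers of degree at most `d`. -/
theorem noAltSec_degree {d n : ℕ} (hd : 2 ≤ d) (h5 : 5 ≤ n) (hn : 2 * d ≤ n) :
    NoAltSec n (IntermediateField.adjoin ℚ {x : QQ | (minpoly ℚ x).natDegree ≤ d}) :=
  (noAlt_degree hd h5 hn).sec

/-- Mildly ramified fields, in particular number fields (`mild_of_finite`), are tame. -/
theorem tameField_of_mild {K : IntermediateField ℚ QQ} (hK : Mild K) : TameField 5 K := by
  obtain ⟨K1, K2, h1, h2, h3⟩ := tame_rad_bot hK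
  exact ⟨K1, K2, h1, h2.sec, le_sup_left.trans h3⟩

/-- The compositum of a mildly ramified field, of all numbers which can be expressed by radicals
over a number field `F`, and of all numbers of degree at most `d`. -/
theorem tameField_rad_degree (F : IntermediateField ℚ QQ) (hF : FiniteDimensional ℚ F) (d : ℕ) :
    ∃ n : ℕ, 5 ≤ n ∧ ∀ K1 : IntermediateField ℚ QQ, Mild K1 →
      TameField n (K1 ⊔ (Rad F ⊔
        IntermediateField.adjoin ℚ {x : QQ | (minpoly ℚ x).natDegree ≤ d})) := by
  obtain ⟨n, h1, h2⟩ := tame_rad_degree F hF d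
  exact ⟨n, h1, fun K1 hK1 => tameField_iff.2 (h2 K1 hK1)⟩

end Pool.Agent.Clo
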