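import Pool.Agent.Clo.Root

/-!
# Northcott's theorem for algebraic numbers of bounded degree

(1) `emb_North`: the absolute height of `φ z`, for an embedding `φ` of a number field `k` in `QQ`,
is computed in `k` (`ext_North` for the isomorphism of `k` with its image). So conjugate numbers
have the same height (`ht_conj`).

(2) The coefficients of a product of `d` factors `X - c'` with `absLogHeight₁ c' ≤ B` have
bounded height (`coeff_North`, induction over `d`). This applies to the minimal polynomial of a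
number `c` of degree `≤ D` and height `≤ B`, whose roots are conjugate to `c`. (3) Only finitely
many rational numbers have bounded height (`rat_North`). (4) So `c` is a root of one of finitely
many polynomials (`Polynomial.bUnion_roots_finite`).
-/

set_option autoImplicit false

noncomputable section

namespace Pool.Agent.Clo

open Pool.Agent.Dess NumberField

/-- products over infinite places as products over embeddings -/
private theorem prodInf_North {K : Type} [Field K] [NumberField K] (g : InfinitePlace K → ℝ) :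
    ∏ w, g w ^ w.mult = ∏ φ : K →+* ℂ, g (InfinitePlace.mk φ) := by
  classical
  rw [← Finset.prod_fiberwise Finset.univ (fun φ : K →+* ℂ => InfinitePlace.mk φ)]
  refine Finset.prod_congr rfl fun w _ => ?_
  rw [Finset.prod_congr rfl (g := fun _ => g w) (fun φ hφ => by
    rw [(Finset.mem_filter.1 hφ).2]), Finset.prod_const, InfinitePlace.card_filter_mk_eq]

/-- the number of extensions of an embedding -/
private theorem cardExt_North {k K : Type} [Field k] [NumberField k] [Field K] [NumberField K]
    [Algebra k K] (σ : k →+* ℂ) [DecidableEq (k →+* ℂ)] :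
    (Finset.univ.filter fun φ : K →+* ℂ => φ.comp (algebraMap k K) = σ).card =
      Module.finrank k K := by
  let _ := σ.toAlgebra
  rw [← AlgHom.card k K ℂ, ← Fintype.card_subtype]
  refine Fintype.card_congr ⟨fun φ => ⟨φ.1, fun x => ?_⟩, fun ψ => ⟨ψ.toRingHom, ?_⟩,
    fun φ => ?_, fun ψ => ?_⟩
  · have h := congrArg (fun τ : k →+* ℂ => τ x) φ.2
    exact h
  · ext x
    exact ψ.commutes x
  · rfl
  · rfl

private theorem prodExt_North {k K : Type} [Field k] [NumberField k] [Field K] [NumberField K]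
    [Algebra k K] (f : InfinitePlace k → ℝ) :
    ∏ w : InfinitePlace K, f (w.comap (algebraMap k K)) ^ w.mult =
      (∏ v : InfinitePlace k, f v ^ v.mult) ^ Module.finrank k K := by
  classical
  rw [prodInf_North f, prodInf_North (fun w : InfinitePlace K => f (w.comap (algebraMap k K))),
    ← Finset.prod_fiberwise Finset.univ (fun φ : K →+* ℂ => φ.comp (algebraMap k K)),
    ← Finset.prod_pow]
  refine Finset.prod_congr rfl fun σ _ => ?_
  rw [Finset.prod_congr rfl (g := fun _ => f (InfinitePlace.mk σ)) (fun φ hφ => by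
    rw [InfinitePlace.comap_mk, (Finset.mem_filter.1 hφ).2]), Finset.prod_const]
  congr 1
  convert cardExt_North (K := K) σ

/-- the height in an extension field -/
private theorem ext_North {k K : Type} [Field k] [NumberField k] [Field K] [NumberField K]
    [Algebra k K] (x : k) : Height.mulHeight₁ (algebraMap k K x) =
      Height.mulHeight₁ x ^ Module.finrank k K := by
  obtain ⟨a, b, hb, rfl⟩ := IsFractionRing.div_surjective (A := 𝓞 k) x
  have hb0 : b ≠ 0 := nonZeroDivisors.ne_zero hb
  have hcast : ∀ c : 𝓞 k, algebraMap k K (algebraMap (𝓞 k) k c) =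
      algebraMap (𝓞 K) K (algebraMap (𝓞 k) (𝓞 K) c) := fun c => rfl
  rw [map_div₀, hcast, hcast, Height.mulHeight₁_div_eq_mulHeight,
    Height.mulHeight₁_div_eq_mulHeight]
  have hinj : Function.Injective (algebraMap (𝓞 k) (𝓞 K)) := by
    exact RingOfIntegers.algebraMap.injective k K
  have hne : (![a, b] : Fin 2 → 𝓞 k) ≠ 0 := by
    intro h0
    exact hb0 (congrFun h0 1)
  have hne' : (![algebraMap (𝓞 k) (𝓞 K) a, algebraMap (𝓞 k) (𝓞 K) b] : Fin 2 → 𝓞 K) ≠ 0 := by
    intro h0
    have h1 : algebraMap (𝓞 k) (𝓞 K) b = 0 := congrFun h0 1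
    exact hb0 (hinj (by rw [h1, map_zero]))
  have h1 := absNorm_mul_finprod_finitePlace_eq_one hne
  have h2 := absNorm_mul_finprod_finitePlace_eq_one hne'
  have hspan : Ideal.span (Set.range
      ![algebraMap (𝓞 k) (𝓞 K) a, algebraMap (𝓞 k) (𝓞 K) b]) =
      (Ideal.span (Set.range ![a, b])).map (algebraMap (𝓞 k) (𝓞 K)) := by
    rw [Ideal.map_span, ← Set.range_comp]
    congr 2
    ext i
    fin_cases i <;> rfl
  rw [hspan, Ideal.absNorm_algebraMap, ← IsFractionRing.finrank_eq (𝓞 k) k (𝓞 K) K] at h2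
  have hc1 : ∀ i : Fin 2, ((![a, b] i : 𝓞 k) : k) =
      ![algebraMap (𝓞 k) k a, algebraMap (𝓞 k) k b] i := by
    intro i
    fin_cases i <;> rfl
  have hc2 : ∀ i : Fin 2,
      ((![algebraMap (𝓞 k) (𝓞 K) a, algebraMap (𝓞 k) (𝓞 K) b] i : 𝓞 K) : K) =
      ![algebraMap (𝓞 K) K (algebraMap (𝓞 k) (𝓞 K) a),
        algebraMap (𝓞 K) K (algebraMap (𝓞 k) (𝓞 K) b)] i := by
    intro i
    fin_cases i <;> rfl
  simp only [hc1] at h1
  simp only [hc2] at h2
  have hc3 : ∀ i : Fin 2, ![algebraMap (𝓞 K) K (algebraMap (𝓞 k) (𝓞 K) a),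
        algebraMap (𝓞 K) K (algebraMap (𝓞 k) (𝓞 K) b)] i =
      algebraMap k K (![algebraMap (𝓞 k) k a, algebraMap (𝓞 k) k b] i) := by
    intro i
    fin_cases i <;> rfl
  have hn1 : (![algebraMap (𝓞 k) k a, algebraMap (𝓞 k) k b] : Fin 2 → k) ≠ 0 := by
    intro h0
    have h3 : algebraMap (𝓞 k) k b = 0 := congrFun h0 1
    exact hb0 (RingOfIntegers.coe_injective (by rw [h3]; rfl))
  have hn2 : (![algebraMap (𝓞 K) K (algebraMap (𝓞 k) (𝓞 K) a),
        algebraMap (𝓞 K) K (algebraMap (𝓞 k) (𝓞 K) b)] : Fin 2 → K) ≠ 0 := by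
    intro h0
    have h3 : algebraMap (𝓞 K) K (algebraMap (𝓞 k) (𝓞 K) b) = 0 := congrFun h0 1
    exact hb0 (hinj (RingOfIntegers.coe_injective (by rw [h3, map_zero]; rfl)))
  rw [NumberField.mulHeight_eq hn1, NumberField.mulHeight_eq hn2, mul_pow]
  have hN : ((Ideal.span (Set.range ![a, b])).absNorm : ℝ) ≠ 0 := left_ne_zero_of_mul_eq_one h1
  congr 1
  · rw [← prodExt_North (K := K)]
    refine Finset.prod_congr rfl fun w _ => ?_
    congr 1
    refine iSup_congr fun i => ?_
    rw [hc3, InfinitePlace.comap_apply]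
  · refine mul_left_cancel₀ (pow_ne_zero (Module.finrank k K) hN) ?_
    rw [← mul_pow, h1, one_pow]
    push_cast at h2
    exact h2

private theorem int_North (x : QQ) : IsIntegral ℚ x :=
  (AlgebraicClosure.isAlgebraic ℚ).isAlgebraic x |>.isIntegral

/-- every finite set of algebraic numbers is contained in a number field -/
private theorem exists_North (T : Finset QQ) : ∃ K : IntermediateField ℚ QQ,
    FiniteDimensional ℚ K ∧ ∀ x ∈ T, x ∈ K := by
  refine ⟨IntermediateField.adjoin ℚ (T : Set QQ), ?_, fun x hx =>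
    IntermediateField.subset_adjoin ℚ _ hx⟩
  exact IntermediateField.finiteDimensional_adjoin fun x _ => int_North x

open IntermediateField in
/-- the absolute height can be computed in every number field -/
private theorem abs_North (K : IntermediateField ℚ QQ) [FiniteDimensional ℚ K]
    [NumberField K] {x : QQ} (hx : x ∈ K) :
    absLogHeight₁ x = Height.logHeight₁ (⟨x, hx⟩ : K) / Module.finrank ℚ K := by
  have hint : IsIntegral ℚ x := int_North x
  unfold absLogHeight₁ absMulHeight₁
  rw [dif_pos hint]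
  have : FiniteDimensional ℚ ℚ⟮x⟯ := adjoin.finiteDimensional hint
  have : NumberField ℚ⟮x⟯ := {}
  have hle : ℚ⟮x⟯ ≤ K := by
    rw [adjoin_simple_le_iff]
    exact hx
  let _ : Algebra ℚ⟮x⟯ K := (inclusion hle).toAlgebra
  have h1 := ext_North (k := ℚ⟮x⟯) (K := K) (AdjoinSimple.gen ℚ x)
  have h2 : algebraMap ℚ⟮x⟯ K (AdjoinSimple.gen ℚ x) = ⟨x, hx⟩ := rfl
  have : IsScalarTower ℚ ℚ⟮x⟯ K := IsScalarTower.of_algebraMap_eq fun q => rfl
  have : Module.Free ℚ⟮x⟯ K := Module.Free.of_divisionRing _ _
  have : Module.Free ℚ ℚ⟮x⟯ := Module.Free.of_divisionRing _ _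
  have h3 : Module.finrank ℚ ℚ⟮x⟯ * Module.finrank ℚ⟮x⟯ K = Module.finrank ℚ K :=
    Module.finrank_mul_finrank _ _ _
  rw [h2] at h1
  have h4 : (0 : ℝ) < Module.finrank ℚ ℚ⟮x⟯ := by
    exact_mod_cast Module.finrank_pos
  have h5 : (0 : ℝ) < Module.finrank ℚ⟮x⟯ K := by
    have : 0 < Module.finrank ℚ K := Module.finrank_pos
    rw [← h3] at this
    exact_mod_cast pos_of_mul_pos_right this (Nat.zero_le _)
  rw [Height.logHeight₁_eq_log_mulHeight₁, h1, Real.log_pow, ← h3,
    Real.log_rpow (Height.mulHeight₁_pos _)]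
  push_cast
  field_simp

private theorem neg_North (x : QQ) : absLogHeight₁ (-x) = absLogHeight₁ x := by
  obtain ⟨K, hK, hx⟩ := exists_North {x}
  have hx1 : x ∈ K := hx x (by simp)
  have : NumberField K := {}
  have h : (⟨-x, K.neg_mem hx1⟩ : K) = -(⟨x, hx1⟩ : K) := rfl
  rw [abs_North K hx1, abs_North K (K.neg_mem hx1), h, Height.logHeight₁_neg]

/-- the absolute height of an element of a number field, computed in this field -/
private theorem emb_North {k : Type} [Field k] [NumberField k] (φ : k →ₐ[ℚ] QQ) (z : k) :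
    absLogHeight₁ (φ z) = Height.logHeight₁ z / Module.finrank ℚ k := by
  have hfd : FiniteDimensional ℚ φ.fieldRange :=
    LinearEquiv.finiteDimensional (AlgEquiv.ofInjectiveField φ).toLinearEquiv
  have hnf : NumberField φ.fieldRange := {}
  have hmem : φ z ∈ φ.fieldRange := ⟨z, rfl⟩
  let _ : Algebra k φ.fieldRange := (AlgEquiv.ofInjectiveField φ).toRingHom.toAlgebra
  have h1 := ext_North (k := k) (K := φ.fieldRange) z
  have h2 : algebraMap k φ.fieldRange z = ⟨φ z, hmem⟩ := rfl
  have _ : IsScalarTower ℚ k φ.fieldRange :=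
    IsScalarTower.of_algebraMap_eq fun q => (AlgEquiv.commutes (AlgEquiv.ofInjectiveField φ) q).symm
  have hfree : Module.Free k φ.fieldRange := Module.Free.of_divisionRing _ _
  have hfree' : Module.Free ℚ k := Module.Free.of_divisionRing _ _
  have h3 : Module.finrank ℚ k * Module.finrank k φ.fieldRange =
      Module.finrank ℚ φ.fieldRange := Module.finrank_mul_finrank _ _ _
  have h4 : Module.finrank ℚ k = Module.finrank ℚ φ.fieldRange :=
    LinearEquiv.finrank_eq (AlgEquiv.ofInjectiveField φ).toLinearEquiv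
  have h5 : 0 < Module.finrank ℚ k := Module.finrank_pos
  have h6 : Module.finrank k φ.fieldRange = 1 := by
    rw [← h4] at h3
    exact Nat.eq_of_mul_eq_mul_left h5 (by rw [h3, mul_one])
  rw [h2, h6, pow_one] at h1
  rw [abs_North φ.fieldRange hmem, Height.logHeight₁_eq_log_mulHeight₁, h1, ← h4,
    Height.logHeight₁_eq_log_mulHeight₁]

/-- conjugate algebraic numbers have the same height -/
theorem ht_conj {x y : QQ} (h : minpoly ℚ x = minpoly ℚ y) :
    absLogHeight₁ x = absLogHeight₁ y := by
  have hn : Normal ℚ QQ := normal_iff.2 fun z => ⟨int_North z, IsAlgClosed.splits _⟩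
  have hc : IsConjRoot ℚ x y := h
  obtain ⟨σ, hσ⟩ := isConjRoot_iff_exists_algEquiv.1 hc
  have hint : IsIntegral ℚ y := int_North y
  have hfd : FiniteDimensional ℚ (IntermediateField.adjoin ℚ {y}) :=
    IntermediateField.adjoin.finiteDimensional hint
  have hnf : NumberField (IntermediateField.adjoin ℚ {y}) := {}
  have h1 : absLogHeight₁ y = _ := emb_North (IntermediateField.adjoin ℚ {y}).val
    (IntermediateField.AdjoinSimple.gen ℚ y)
  have h2 : absLogHeight₁ (σ y) = _ :=
    emb_North ((σ : QQ →ₐ[ℚ] QQ).comp (IntermediateField.adjoin ℚ {y}).val)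
      (IntermediateField.AdjoinSimple.gen ℚ y)
  rw [← hσ, h1, h2]

private theorem sub_North (x y : QQ) :
    absLogHeight₁ (x - y) ≤ absLogHeight₁ x + absLogHeight₁ y + Real.log 2 := by
  have h := ht_add x (-y)
  rwa [← sub_eq_add_neg, neg_North] at h

private theorem coeff_North (B : ℝ) (d : ℕ) : ∃ C : ℝ, ∀ s : Multiset QQ, Multiset.card s = d →
    (∀ c ∈ s, absLogHeight₁ c ≤ B) →
    ∀ j, absLogHeight₁ ((s.map fun c => Polynomial.X - Polynomial.C c).prod.coeff j) ≤ C := by
  induction d with
  | zero =>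
    refine ⟨max (absLogHeight₁ (1 : QQ)) (absLogHeight₁ (0 : QQ)), fun s hs _ j => ?_⟩
    rw [Multiset.card_eq_zero] at hs
    rw [hs, Multiset.map_zero, Multiset.prod_zero, Polynomial.coeff_one]
    split_ifs
    · exact le_max_left _ _
    · exact le_max_right _ _
  | succ d ih =>
    obtain ⟨C, hC⟩ := ih
    refine ⟨max C (absLogHeight₁ (0 : QQ)) + (B + C) + Real.log 2, fun s hs hB j => ?_⟩
    obtain ⟨c, hcs⟩ := Multiset.card_pos_iff_exists_mem.1 (by omega : 0 < Multiset.card s)
    obtain ⟨t, rfl⟩ := Multiset.exists_cons_of_mem hcs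
    have ht : Multiset.card t = d := by
      rw [Multiset.card_cons] at hs
      omega
    have hc : absLogHeight₁ c ≤ B := hB c (Multiset.mem_cons_self c t)
    have ht' := hC t ht fun c' hc' => hB c' (Multiset.mem_cons_of_mem hc')
    rw [Multiset.map_cons, Multiset.prod_cons, sub_mul, Polynomial.coeff_sub,
      Polynomial.coeff_C_mul]
    refine (sub_North _ _).trans (add_le_add (add_le_add ?_ ?_) le_rfl)
    · rcases j with _ | j
      · rw [Polynomial.coeff_X_mul_zero]
        exact le_max_right _ _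
      · rw [Polynomial.coeff_X_mul]
        exact (ht' j).trans (le_max_left _ _)
    · exact (ht_mul _ _).trans (add_le_add hc (ht' j))

private theorem rat_North (B : ℝ) : {q : ℚ | absLogHeight₁ (algebraMap ℚ QQ q) ≤ B}.Finite := by
  refine (NumberField.finite_setOfPred_logHeight₁_le ℚ B).subset fun q hq => ?_
  have h : absLogHeight₁ (algebraMap ℚ QQ q) = _ := emb_North (Algebra.ofId ℚ QQ) q
  rw [Module.finrank_self, Nat.cast_one, div_one] at h
  have hq' : absLogHeight₁ (algebraMap ℚ QQ q) ≤ B := hq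
  rw [h] at hq'
  exact hq'

/-- Northcott's theorem: there are only finitely many algebraic numbers of bounded degree and
height -/
theorem northcott (D : ℕ) (B : ℝ) :
    {c : QQ | (minpoly ℚ c).natDegree ≤ D ∧ absLogHeight₁ c ≤ B}.Finite := by
  classical
  choose F hF using coeff_North B
  have hM : ∀ d ≤ D, F d ≤ ∑ i ∈ Finset.range (D + 1), |F i| := by
    intro d hd
    refine (le_abs_self _).trans ?_
    exact Finset.single_le_sum (f := fun i => |F i|) (fun i _ => abs_nonneg _)
      (Finset.mem_range.2 (Nat.lt_succ_of_le hd))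
  have hfin := Polynomial.bUnion_roots_finite (algebraMap ℚ QQ) D
    (rat_North (∑ i ∈ Finset.range (D + 1), |F i|))
  refine hfin.subset fun c hc => ?_
  obtain ⟨hc1, hc2⟩ := hc
  have hint : IsIntegral ℚ c := int_North c
  have hmon : (minpoly ℚ c).Monic := minpoly.monic hint
  have hne : (minpoly ℚ c).map (algebraMap ℚ QQ) ≠ 0 := (hmon.map _).ne_zero
  have hroot : ∀ c' ∈ ((minpoly ℚ c).map (algebraMap ℚ QQ)).roots, absLogHeight₁ c' ≤ B := by
    intro c' hc'
    have h1 := (Polynomial.mem_roots hne).1 hc'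
    have h2 : Polynomial.aeval c' (minpoly ℚ c) = 0 := by
      rw [Polynomial.aeval_def, ← Polynomial.eval_map]
      exact h1
    have h3 : minpoly ℚ c = minpoly ℚ c' :=
      minpoly.eq_of_irreducible_of_monic (minpoly.irreducible hint) h2 hmon
    rw [← ht_conj h3]
    exact hc2
  have hcard : Multiset.card ((minpoly ℚ c).map (algebraMap ℚ QQ)).roots ≤ D := by
    refine (Polynomial.card_roots' _).trans ?_
    rw [Polynomial.natDegree_map]
    exact hc1
  have hsplit := (IsAlgClosed.splits ((minpoly ℚ c).map (algebraMap ℚ QQ))).eq_prod_roots_of_monic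
    (hmon.map _)
  rw [Set.mem_iUnion₂]
  refine ⟨minpoly ℚ c, ⟨hc1, fun j => ?_⟩, ?_⟩
  · show absLogHeight₁ (algebraMap ℚ QQ ((minpoly ℚ c).coeff j)) ≤ _
    rw [← Polynomial.coeff_map, hsplit]
    exact (hF _ _ rfl hroot j).trans (hM _ hcard)
  · rw [Finset.mem_coe, Multiset.mem_toFinset, Polynomial.mem_roots hne, Polynomial.IsRoot,
      Polynomial.eval_map, ← Polynomial.aeval_def]
    exact minpoly.aeval ℚ c

end Pool.Agent.Clo
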