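import Pool.Agent.Clo.New3
import Pool.Agent.Clo.North

/-!
# A criterion for torsion
-/

set_option autoImplicit false

noncomputable section

namespace Pool.Agent.Clo

open Pool.Agent.ZCyc Pool.Agent.Dess
open scoped Classical

/-- The set `Ω` of algebraic numbers has the Northcott property: it has only finitely many elements
of height at most `B`, for all `B`. -/
def NorthcottSet (Ω : Set QQ) : Prop :=
  ∀ B : ℝ, {c : QQ | c ∈ Ω ∧ NumberField.absLogHeight₁ c ≤ B}.Finite

/-- The algebraic numbers of degree at most `D` have the Northcott property. -/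
theorem northcott_degree (D : ℕ) : NorthcottSet {c : QQ | (minpoly ℚ c).natDegree ≤ D} :=
  fun B => northcott D B

section Deg

variable {ι : Type} {L : ι → Type} [∀ i, Field (L i)] [∀ i, Algebra QQ (L i)]

/-- The value of the function `f i` at the coordinate `x i` is in the set `Ω`, for all `i` such that
`f i` is regular at `x i`. -/
def ValIn (f : ∀ i, L i) (Ω : Set QQ) (x : ∀ i, Place QQ (L i)) : Prop :=
  ∀ (i : ι) (c : QQ), (x i).At (f i) c → c ∈ Ω

theorem mix_self (x : ∀ i, Place QQ (L i)) (i j : ι) : mix x x i j = 0 := by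
  unfold mix
  rw [Function.update_eq_self, Function.update_eq_self]
  abel

theorem mix_congr {x x' y' : ∀ i, Place QQ (L i)} {i j : ι} (hi : x' i = y' i)
    (hj : x' j = y' j) : mix x x' i j = mix x y' i j := by
  unfold mix
  rw [hi, hj]

/-- the Northcott property for points of a curve -/
theorem northcott_points {F : Type} [Field F] [Algebra QQ F] (hF : IsCurve QQ F) {f : F}
    (hf : Transcendental QQ f) {Ω : Set QQ} (hΩ : NorthcottSet Ω) (B : ℝ) :
    {p : Place QQ F | ∀ c : QQ, p.At f c → NumberField.absLogHeight₁ c ≤ B ∧ c ∈ Ω}.Finite := by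
  refine ((finite_pole hF hf).union ((hΩ B).biUnion fun c _ => finite_at hF hf c)).subset ?_
  intro p hp
  by_cases h : f ∈ p.ring
  · right
    obtain ⟨c, hc⟩ := exists_at hF p h
    exact Set.mem_biUnion (show c ∈ _ from ⟨(hp c hc).2, (hp c hc).1⟩) hc
  · left
    exact h

/-- if the cycles can be chosen with points from a set with the Northcott property, then the cycle
is torsion -/
theorem torsion_of_northcott [Finite ι] (hL : ∀ i, IsCurve QQ (L i))
    {K : IntermediateField ℚ QQ} {f : ∀ i, L i} (hf : ∀ i, Transcendental QQ (f i))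
    {Ω : Set QQ} (hΩ : NorthcottSet Ω) (B : ∀ i, L i → ℝ) {z : (∀ i, Place QQ (L i)) →₀ ℤ}
    (h : ∀ S : ∀ i, Finset (L i), ∃ (m : ℕ) (l : Multiset ((∀ i, Place QQ (L i)) →₀ ℤ)), 0 < m ∧
      (∀ g ∈ l, IsNew K S {x | HtLe B x ∧ ValIn f Ω x} g) ∧ l.sum - m • z ∈ RatEq L) :
    RatTor L z := by
  choose T hT using fun i => (northcott_points (hL i) (hf i) hΩ (B i (f i))).exists_finset
  choose w hw1 hw2 using fun (i : ι) (p : Place QQ (L i)) => exists_pole (hL i) p
  obtain ⟨m, l, hm, hl, hr⟩ := h fun i => (T i).image (w i)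
  refine ⟨m, hm, ?_⟩
  have h0 : ∀ g ∈ l, g = 0 := by
    intro g hg
    obtain ⟨ρ, r, x, x', i, j, h1, h2, h3, h4, h5, h6, h7⟩ := hl g hg
    have hx : ∀ l, x' l = x l := by
      intro l
      have h8 : x l ∈ T l := (hT l _).2 fun c hc => ⟨h5.1 l (f l) c hc, h5.2 l c hc⟩
      exact moves_pole (h3 l) ((h2 l).1 _ (Finset.mem_image_of_mem (w l) h8)) (hw1 l _) (hw2 l _)
    have h9 : mix x x' i j = 0 := by
      rw [mix_congr (hx i) (hx j), mix_self]
    rcases h7 with h7 | h7
    · rw [h7, h9]
    · rw [h7, h9, neg_zero]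
  rw [Multiset.sum_eq_zero h0, zero_sub] at hr
  have h1 := (RatEq L).neg_mem hr
  rwa [neg_neg] at h1

end Deg

end Pool.Agent.Clo
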