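import Pool.Agent.Clo.SigMain
import Pool.Agent.Clo.New4

/-!
# Sums of new cycles: the notions used in the statement of the main theorem
-/

set_option autoImplicit false

noncomputable section

namespace Pool.Agent.Clo

open Pool.Agent.ZCyc Pool.Agent.Dess

/-- The field of the algebraic numbers which are fixed by the automorphism `τ`. -/
def FixF (τ : Gam) : IntermediateField ℚ QQ :=
  IntermediateField.fixedField (Subgroup.zpowers τ)

section Defs

variable {ι : Type} {L : ι → Type} [∀ i, Field (L i)] [∀ i, Algebra QQ (L i)]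

/-- The zero-cycle `z` is rationally equivalent to a sum of at most `N` zero-cycles `g` with
`IsNew K S E g`. -/
def NewSum (K : IntermediateField ℚ QQ) (S : ∀ i, Finset (L i)) (E : Set (∀ i, Place QQ (L i)))
    (N : ℕ) (z : (∀ i, Place QQ (L i)) →₀ ℤ) : Prop :=
  ∃ l : Multiset ((∀ i, Place QQ (L i)) →₀ ℤ), l.card ≤ N ∧ (∀ g ∈ l, IsNew K S E g) ∧
    l.sum - z ∈ RatEq L

/-- sums of new cycles are in the kernel of the Albanese map -/
theorem NewSum.albKer {K : IntermediateField ℚ QQ} {S : ∀ i, Finset (L i)}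
    {E : Set (∀ i, Place QQ (L i))} {N : ℕ} {z : (∀ i, Place QQ (L i)) →₀ ℤ}
    (h : NewSum K S E N z) : AlbKer L z := by
  obtain ⟨l, -, h1, h2⟩ := h
  rw [← one_smul ℕ z] at h2 ⊢
  exact albKer_of_new h1 h2

/-- `σ` is an automorphism such that all `z` in the kernel of the Albanese map are, up to torsion,
sums of new cycles over the field fixed by `σ ^ k`, for all `k > 0`. -/
theorem sigma_newSum [Fintype ι] (hL : ∀ i, IsCurve QQ (L i)) {n : ℕ} (hn : 5 ≤ n) :
    ∃ (m N : ((∀ i, Place QQ (L i)) →₀ ℤ) → ℕ → ℕ)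
      (B : ((∀ i, Place QQ (L i)) →₀ ℤ) → ℕ → ∀ i, L i → ℝ),
      ∀ K : IntermediateField ℚ QQ, Tame n K → ∀ S : ∀ i, Finset (L i),
        ∃ σ : Gam, (∀ c ∈ K, σ c = c) ∧ ∀ z, AlbKer L z → ∀ k, 0 < k → 0 < m z k ∧
          NewSum (FixF (σ ^ k)) S {x | HtLe (B z k) x} (N z k) (m z k • z) :=
  sigma hL hn

end Defs

end Pool.Agent.Clo
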