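import Pool.Agent.Clo.SigUniv
import Pool.Agent.Clo.SigState

/-!
# New cycles for all products of curves and one family of automorphisms
-/

set_option autoImplicit false

noncomputable section

namespace Pool.Agent.Clo

open Pool.Agent.ZCyc Pool.Agent.Dess Pool.Agent.Dess4
open scoped Classical

section Gen

variable {ι : Type} {L : ι → Type} [∀ i, Field (L i)] [∀ i, Algebra QQ (L i)]
  {w : QQ → ℝ} {𝒬 : IntermediateField ℚ QQ → (∀ i, Finset (L i)) → Prop}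

theorem NewSum.mono {K : IntermediateField ℚ QQ} {S : ∀ i, Finset (L i)}
    {E E' : Set (∀ i, Place QQ (L i))} {N N' : ℕ} {z : (∀ i, Place QQ (L i)) →₀ ℤ}
    (h : NewSum K S E N z) (hE : E ⊆ E') (hN : N ≤ N') : NewSum K S E' N' z := by
  obtain ⟨l, h1, h2, h3⟩ := h
  exact ⟨l, h1.trans hN, fun g hg => (h2 g hg).mono hE, h3⟩

theorem NewSum.nsmul {K : IntermediateField ℚ QQ} {S : ∀ i, Finset (L i)}
    {E : Set (∀ i, Place QQ (L i))} {N : ℕ} {z : (∀ i, Place QQ (L i)) →₀ ℤ}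
    (h : NewSum K S E N z) (a : ℕ) : NewSum K S E (a * N) (a • z) := by
  obtain ⟨l, h1, h2, h3⟩ := h
  refine ⟨a • l, ?_, fun g hg => h2 g (Multiset.mem_of_mem_nsmul hg), ?_⟩
  · rw [Multiset.card_nsmul]
    exact Nat.mul_le_mul_left _ h1
  · rw [Multiset.sum_nsmul, ← smul_sub]
    exact (RatEq L).nsmul_mem h3 _

theorem NewSum.add {K : IntermediateField ℚ QQ} {S : ∀ i, Finset (L i)}
    {E : Set (∀ i, Place QQ (L i))} {N N' : ℕ} {z z' : (∀ i, Place QQ (L i)) →₀ ℤ}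
    (h : NewSum K S E N z) (h' : NewSum K S E N' z') : NewSum K S E (N + N') (z + z') := by
  obtain ⟨l, h1, h2, h3⟩ := h
  obtain ⟨l', h1', h2', h3'⟩ := h'
  refine ⟨l + l', ?_, ?_, ?_⟩
  · rw [Multiset.card_add]
    exact add_le_add h1 h1'
  · intro g hg
    rcases Multiset.mem_add.1 hg with hg | hg
    · exact h2 g hg
    · exact h2' g hg
  · have e : (l + l').sum - (z + z') = l.sum - z + (l'.sum - z') := by
      rw [Multiset.sum_add]
      abel
    rw [e]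
    exact add_mem h3 h3'

theorem NewSum.neg {K : IntermediateField ℚ QQ} {S : ∀ i, Finset (L i)}
    {E : Set (∀ i, Place QQ (L i))} {N : ℕ} {z : (∀ i, Place QQ (L i)) →₀ ℤ}
    (h : NewSum K S E N z) : NewSum K S E N (-z) := by
  obtain ⟨l, h1, h2, h3⟩ := h
  refine ⟨l.map fun g => -g, ?_, ?_, ?_⟩
  · rwa [Multiset.card_map]
  · intro g hg
    obtain ⟨g', hg', rfl⟩ := Multiset.mem_map.1 hg
    exact (h2 g' hg').neg
  · have e : (l.map fun g => -g).sum - -z = -(l.sum - z) := by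
      rw [Multiset.sum_map_neg']
      abel
    rw [e]
    exact (RatEq L).neg_mem h3

theorem newSum_of_mem {K : IntermediateField ℚ QQ} {S : ∀ i, Finset (L i)}
    {E : Set (∀ i, Place QQ (L i))} {z : (∀ i, Place QQ (L i)) →₀ ℤ} (h : z ∈ RatEq L) :
    NewSum K S E 0 z := by
  refine ⟨0, ?_, fun g hg => absurd hg (Multiset.notMem_zero g), ?_⟩
  · rw [Multiset.card_zero]
  · rw [Multiset.sum_zero, zero_sub]
    exact (RatEq L).neg_mem h

theorem SzLe.mono {B B' : ∀ i, L i → ℝ} (hB : ∀ i f, B i f ≤ B' i f) :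
    {x : ∀ i, Place QQ (L i) | SzLe w B x} ⊆ {x | SzLe w B' x} :=
  fun _ hx l f c hc => (hx l f c hc).trans (hB l f)

/-- some multiple is a sum of a bounded number of new cycles, for all pairs with the property -/
def GenW (w : QQ → ℝ) (𝒬 : IntermediateField ℚ QQ → (∀ i, Finset (L i)) → Prop)
    (z : (∀ i, Place QQ (L i)) →₀ ℤ) : Prop :=
  ∃ (m N : ℕ) (B : ∀ i, L i → ℝ), 0 < m ∧ ∀ (K : IntermediateField ℚ QQ)
    (S : ∀ i, Finset (L i)), 𝒬 K S → NewSum K S {x | SzLe w B x} N (m • z)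

theorem genW_add {z z' : (∀ i, Place QQ (L i)) →₀ ℤ} (h : GenW w 𝒬 z) (h' : GenW w 𝒬 z') :
    GenW w 𝒬 (z + z') := by
  obtain ⟨m, N, B, hm, h⟩ := h
  obtain ⟨m', N', B', hm', h'⟩ := h'
  refine ⟨m * m', m' * N + m * N', fun i f => max (B i f) (B' i f), Nat.mul_pos hm hm',
    fun K S hK => ?_⟩
  have h1 : (m * m') • (z + z') = m' • (m • z) + m • (m' • z') := by
    module
  rw [h1]
  exact (((h K S hK).mono (SzLe.mono fun i f => le_max_left _ _) le_rfl).nsmul m').add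
    (((h' K S hK).mono (SzLe.mono fun i f => le_max_right _ _) le_rfl).nsmul m)

theorem genW_neg {z : (∀ i, Place QQ (L i)) →₀ ℤ} (h : GenW w 𝒬 z) : GenW w 𝒬 (-z) := by
  obtain ⟨m, N, B, hm, h⟩ := h
  refine ⟨m, N, B, hm, fun K S hK => ?_⟩
  rw [smul_neg]
  exact (h K S hK).neg

theorem genW_of_mem {z : (∀ i, Place QQ (L i)) →₀ ℤ} (h : z ∈ RatEq L) : GenW w 𝒬 z :=
  ⟨1, 0, fun _ _ => 0, one_pos, fun _ _ _ => newSum_of_mem ((RatEq L).nsmul_mem h _)⟩

variable (w 𝒬) in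
/-- the subgroup of the cycles with this property -/
def genWGroup : AddSubgroup ((∀ i, Place QQ (L i)) →₀ ℤ) where
  carrier := {z | GenW w 𝒬 z}
  zero_mem' := genW_of_mem (zero_mem _)
  add_mem' := genW_add
  neg_mem' := genW_neg

theorem mem_genWGroup {z : (∀ i, Place QQ (L i)) →₀ ℤ} : z ∈ genWGroup w 𝒬 ↔ GenW w 𝒬 z :=
  Iff.rfl

theorem albKer_genW [Fintype ι]
    (h : ∀ (i j : ι), i ≠ j → ∀ (a : ∀ l, Place QQ (L l)) (p : Place QQ (L i))
      (q : Place QQ (L j)), a i ≠ p → a j ≠ q → GenW w 𝒬 (symb a i j p q))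
    {z : (∀ i, Place QQ (L i)) →₀ ℤ} (hz : AlbKer L z) : GenW w 𝒬 z := by
  rw [← mem_genWGroup]
  refine of_symbols (T := genWGroup w 𝒬) (fun w hw => genW_of_mem hw) ?_ hz
  intro i j hij a p q
  by_cases hp : a i = p
  · have h0 : Finsupp.single a (1 : ℤ) - Finsupp.single (Function.update a i p) 1 -
        Finsupp.single (Function.update a j q) 1 +
        Finsupp.single (Function.update (Function.update a i p) j q) 1 = 0 := by
      rw [← hp, Function.update_eq_self]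
      abel
    rw [h0]
    exact zero_mem _
  by_cases hq : a j = q
  · have h0 : Finsupp.single a (1 : ℤ) - Finsupp.single (Function.update a i p) 1 -
        Finsupp.single (Function.update a j q) 1 +
        Finsupp.single (Function.update (Function.update a i p) j q) 1 = 0 := by
      rw [← hq, Function.update_eq_self, Function.update_comm hij, Function.update_eq_self]
      abel
    rw [h0]
    exact zero_mem _
  exact h i j hij a p q hp hq

end Gen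

section Coeff

variable {F : Type} [Field F] [Algebra QQ F]

/-- A semilinear automorphism which fixes generators and the coefficients of finitely many
functions fixes these functions. -/
theorem exists_coeffs {S₀ : Finset F} (hS₀ : IntermediateField.adjoin QQ (S₀ : Set F) = ⊤)
    (S : Finset F) : ∃ C : Finset QQ, ∀ (ρ : Gam) (r : F ≃+* F), (∀ c ∈ C, ρ c = c) →
      Fixes S₀ ρ r → Fixes S ρ r := by
  have key : ∀ x : F, ∃ C : Finset QQ, ∀ (ρ : Gam) (r : F ≃+* F), (∀ c ∈ C, ρ c = c) →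
      Fixes S₀ ρ r → r x = x := by
    intro x
    have hx : x ∈ IntermediateField.adjoin QQ (S₀ : Set F) := by
      rw [hS₀]
      trivial
    induction hx using IntermediateField.adjoin_induction with
    | mem x hx => exact ⟨∅, fun ρ r _ hr => hr.1 x hx⟩
    | algebraMap c =>
      refine ⟨{c}, fun ρ r hC hr => ?_⟩
      rw [hr.2, hC c (Finset.mem_singleton_self c)]
    | add x y _ _ hx hy =>
      obtain ⟨C, hC⟩ := hx
      obtain ⟨C', hC'⟩ := hy
      refine ⟨C ∪ C', fun ρ r h hr => ?_⟩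
      rw [map_add, hC ρ r (fun c hc => h c (Finset.mem_union_left _ hc)) hr,
        hC' ρ r (fun c hc => h c (Finset.mem_union_right _ hc)) hr]
    | inv x _ hx =>
      obtain ⟨C, hC⟩ := hx
      refine ⟨C, fun ρ r h hr => ?_⟩
      rw [map_inv₀, hC ρ r h hr]
    | mul x y _ _ hx hy =>
      obtain ⟨C, hC⟩ := hx
      obtain ⟨C', hC'⟩ := hy
      refine ⟨C ∪ C', fun ρ r h hr => ?_⟩
      rw [map_mul, hC ρ r (fun c hc => h c (Finset.mem_union_left _ hc)) hr,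
        hC' ρ r (fun c hc => h c (Finset.mem_union_right _ hc)) hr]
  choose C hC using key
  refine ⟨S.biUnion C, fun ρ r h hr => ⟨fun x hx => hC x ρ r (fun c hc => ?_) hr, hr.2⟩⟩
  exact h c (Finset.mem_biUnion.2 ⟨x, hx, hc⟩)

variable {ι : Type} [Fintype ι] {L : ι → Type} [∀ i, Field (L i)] [∀ i, Algebra QQ (L i)]

theorem exists_coeffs_newSum {S₀ : ∀ i, Finset (L i)}
    (hS₀ : ∀ i, IntermediateField.adjoin QQ (S₀ i : Set (L i)) = ⊤) (S : ∀ i, Finset (L i)) :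
    ∃ C : Finset QQ, ∀ (K : IntermediateField ℚ QQ), (∀ c ∈ C, c ∈ K) →
      ∀ (E : Set (∀ i, Place QQ (L i))) (N : ℕ) (z : (∀ i, Place QQ (L i)) →₀ ℤ),
        NewSum K S₀ E N z → NewSum K S E N z := by
  choose C hC using fun i => exists_coeffs (hS₀ i) (S i)
  refine ⟨Finset.univ.biUnion C, fun K hK E N z ⟨l, h1, h2, h3⟩ => ⟨l, h1, fun g hg => ?_, h3⟩⟩
  obtain ⟨ρ, r, x, x', i, j, hρ, hr, h⟩ := h2 g hg
  refine ⟨ρ, r, x, x', i, j, hρ, fun l => hC l ρ (r l) (fun c hc => ?_) (hr l), h⟩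
  exact hρ c (hK c (Finset.mem_biUnion.2 ⟨l, Finset.mem_univ l, hc⟩))

end Coeff

section Main

/-- The class of the subfields of the composita `K1 ⊔ K2` for a field `K1` which is unramified at
infinitely many primes, and a normal extension `K2` without alternating groups of degree at least
`n`. -/
def TameU (n : ℕ) (K : IntermediateField ℚ QQ) : Prop :=
  ∃ K1 K2 : IntermediateField ℚ QQ, ManyUnr K1 ∧ NoAlt n K2 ∧ K ≤ K1 ⊔ K2

variable {ι : Type} {L : ι → Type} [∀ i, Field (L i)] [∀ i, Algebra QQ (L i)]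

/-- For all functions `f` on the curve `i`, the degree of the value of `f` at the coordinate `x i`
is at most `D i f`. -/
def DegLe (D : ∀ i, L i → ℕ) (x : ∀ i, Place QQ (L i)) : Prop :=
  ∀ (i : ι) (f : L i) (c : QQ), (x i).At f c → (minpoly ℚ c).natDegree ≤ D i f

theorem fixes_of_mem {τ : Gam} {c : QQ} (h : c ∈ FixF τ) (j : ℕ) : (τ ^ j) c = c :=
  h ⟨τ ^ j, ⟨j, zpow_natCast _ _⟩⟩

theorem mem_FixF {τ : Gam} {c : QQ} (h : τ c = c) : c ∈ FixF τ := by
  rintro ⟨_, j, rfl⟩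
  have h3 : τ ∈ MulAction.stabilizer Gam c := h
  exact (MulAction.stabilizer Gam c).zpow_mem h3 j

theorem pow_fix {τ : Gam} {c : QQ} (h : τ c = c) (j : ℕ) : (τ ^ j) c = c :=
  fixes_of_mem (mem_FixF h) j

/-- one kind of sizes, one set of functions -/
theorem univ_genW {n : ℕ} {δ : ∀ θ : Task, FibDat (Mod θ.1.1) θ.2.1.1.1 θ.2.1.1.2}
    {σ : IntermediateField ℚ QQ → Gam} (hσ : ∀ (b : Bool) (K : IntermediateField ℚ QQ),
      TameB n b K → (∀ c ∈ K, σ K c = c) ∧ ∀ θ : Task, 0 < θ.2.2.2.1 → θ.2.2.2.2 = b →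
        OrbitsT (Par b) (δ θ).φ θ.2.2.2.1 θ.2.2.1 (σ K))
    [Fintype ι] (hL : ∀ i, IsCurve QQ (L i)) (b : Bool) {k : ℕ} (hk : 0 < k)
    (S : ∀ i, Finset (L i)) {z : (∀ i, Place QQ (L i)) →₀ ℤ} (hz : AlbKer L z) :
    ∃ (m N : ℕ) (B : ∀ i, L i → ℝ), 0 < m ∧ ∀ K, TameB n b K →
      NewSum (FixF (σ K ^ k)) S {x | SzLe (siz b) B x} N (m • z) := by
  obtain ⟨m, N, B, hm, h⟩ := albKer_genW (w := siz b)
    (𝒬 := fun K' S'' => (∃ K, TameB n b K ∧ K' = FixF (σ K ^ k)) ∧ S'' = S) (by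
      intro i j hij a p q hp hq
      obtain ⟨T, P, O, G, S', hF, hPO, hsz, hmain⟩ := symbol_model hL hij a hp hq
      obtain ⟨θ, hθ⟩ : ∃ θ : Task, θ = ⟨⟨T, hF⟩, ⟨(P, O), hPO⟩, S' S, k, b⟩ := ⟨_, rfl⟩
      obtain ⟨d, hd⟩ : ∃ d : FibDat (Mod T) P O, ∀ K, TameB n b K →
          OrbitsT (Par b) d.φ k (S' S) (σ K) :=
        ⟨δ ⟨⟨T, hF⟩, ⟨(P, O), hPO⟩, S' S, k, b⟩, fun K hK => (hσ b K hK).2
          ⟨⟨T, hF⟩, ⟨(P, O), hPO⟩, S' S, k, b⟩ hk rfl⟩
      choose B₀ hB₀ using fun f => size_compare hF (d.fib.transc hF) b f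
      obtain ⟨B, hB⟩ := hsz (siz b) B₀
      refine ⟨2 * (d.n1 * d.n2), (d.n1 + d.n2) * (d.n1 + d.n2), B,
        Nat.mul_pos two_pos (Nat.mul_pos d.fib.n1_pos d.fib.n2_pos), ?_⟩
      rintro _ S ⟨⟨K, hK, rfl⟩, rfl⟩
      obtain ⟨t, ht1, ht2, ht3⟩ := hd K hK
      refine hmain d.φ d.y d.z d.u d.r d.n1 d.n2 d.m d.e1 d.e2 d.e3 d.fib _ _ S
        ⟨t, ht1, fun x hx => hB x fun f c hc => hB₀ f x t c ht2 hx hc, fun x x' hx hx' => ?_⟩
      obtain ⟨e, r, hr1, hr2⟩ := ht3 x x' hx hx'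
      refine ⟨_, r, fun c hc => ?_, hr1, hr2⟩
      rw [pow_mul]
      exact fixes_of_mem hc e) hz
  exact ⟨m, N, B, hm, fun K hK => h _ S ⟨⟨K, hK, rfl⟩, rfl⟩⟩

theorem sigma_univ {n : ℕ} (hn : 5 ≤ n) : ∃ σ : IntermediateField ℚ QQ → Gam,
    (∀ K, Tame n K → ∀ c ∈ K, σ K c = c) ∧
    ∀ (ι : Type) [Fintype ι] (L : ι → Type) [∀ i, Field (L i)] [∀ i, Algebra QQ (L i)],
      (∀ i, IsCurve QQ (L i)) → ∀ z : (∀ i, Place QQ (L i)) →₀ ℤ, AlbKer L z → ∀ k : ℕ, 0 < k →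
      ∀ S : ∀ i, Finset (L i), ∃ (m N : ℕ) (B : ∀ i, L i → ℝ) (D : ∀ i, L i → ℕ), 0 < m ∧
        ∀ S' : ∀ i, Finset (L i), ∃ C : Finset QQ, ∀ K, Tame n K → (S' = S ∨ ∀ c ∈ C, c ∈ K) →
          NewSum (FixF (σ K ^ k)) S' {x | HtLe B x} N (m • z) ∧
          (TameU n K → NewSum (FixF (σ K ^ k)) S' {x | DegLe D x} N (m • z)) := by
  obtain ⟨δ, σ, hσ⟩ := univ_family hn
  refine ⟨σ, fun K hK => (hσ true K hK).1, ?_⟩
  intro ι _ L _ _ hL z hz k hk S
  choose S₁ hS₁ using fun i => exists_gens (hL i)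
  obtain ⟨S₀, hS₀⟩ : ∃ S₀ : ∀ i, Finset (L i), S₀ = fun i => S i ∪ S₁ i := ⟨_, rfl⟩
  have htop : ∀ i, IntermediateField.adjoin QQ (S₀ i : Set (L i)) = ⊤ := by
    intro i
    rw [eq_top_iff, ← hS₁ i, hS₀]
    refine IntermediateField.adjoin.mono QQ _ _ ?_
    rw [Finset.coe_union]
    exact Set.subset_union_right
  obtain ⟨m, N, B, hm, h⟩ := univ_genW hσ hL true hk S₀ hz
  obtain ⟨m', N', D, hm', h'⟩ := univ_genW hσ hL false hk S₀ hz
  refine ⟨m * m', m' * N + m * N', B, fun i f => ⌊D i f⌋₊, Nat.mul_pos hm hm', fun S' => ?_⟩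
  obtain ⟨C, hC⟩ := exists_coeffs_newSum htop S'
  refine ⟨C, fun K hK hS' => ?_⟩
  have key : ∀ (E : Set (∀ i, Place QQ (L i))) (M : ℕ) (y : (∀ i, Place QQ (L i)) →₀ ℤ),
      NewSum (FixF (σ K ^ k)) S₀ E M y → NewSum (FixF (σ K ^ k)) S' E M y := by
    intro E M y hy
    rcases hS' with rfl | hS'
    · obtain ⟨l, h1, h2, h3⟩ := hy
      refine ⟨l, h1, fun g hg => ?_, h3⟩
      obtain ⟨ρ, r, x, x', i, j, hρ, hr, h⟩ := h2 g hg
      refine ⟨ρ, r, x, x', i, j, hρ, fun l => ⟨fun s hs => (hr l).1 s ?_, (hr l).2⟩, h⟩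
      rw [hS₀]
      exact Finset.mem_union_left _ hs
    · exact hC _ (fun c hc => mem_FixF (pow_fix ((hσ true K hK).1 c (hS' c hc)) k)) E M y hy
  refine ⟨key _ _ _ ?_, fun hU => key _ _ _ ?_⟩
  · rw [mul_comm m m', mul_smul]
    exact ((h K hK).nsmul m').mono (fun x hx => hx) (Nat.le_add_right _ _)
  · rw [mul_smul]
    exact ((h' K hU).nsmul m).mono (fun x hx i f c hc => Nat.le_floor (hx i f c hc))
      (Nat.le_add_left _ _)

end Main

end Pool.Agent.Clo
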