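import Pool.Agent.Clo.TameDef
import Pool.Agent.Clo.SigUniv2

/-!
# One family of automorphisms, with the notions used in the statement of the main theorem
-/

set_option autoImplicit false

noncomputable section

namespace Pool.Agent.Clo

open Pool.Agent.ZCyc Pool.Agent.Dess

/-- The field `K` is contained in the compositum of a field `K1` which is unramified above infinitely
many prime numbers, and of a normal extension `K2` of `ℚ` such that alternating groups of degree at
least `n` are not involved in the Galois group of `K2`. -/
def UnrField (n : ℕ) (K : IntermediateField ℚ QQ) : Prop :=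
  ∃ K1 K2 : IntermediateField ℚ QQ, ManyUnr K1 ∧ NoAltSec n K2 ∧ K ≤ K1 ⊔ K2

theorem UnrField.tameU {n : ℕ} {K : IntermediateField ℚ QQ} (h : UnrField n K) : TameU n K := by
  obtain ⟨K1, K2, h1, h2, h3⟩ := h
  exact ⟨K1, K2, h1, h2.noAlt, h3⟩

theorem UnrField.tame {n : ℕ} {K : IntermediateField ℚ QQ} (h : UnrField n K) :
    TameField n K := by
  obtain ⟨K1, K2, h1, h2, h3⟩ := h
  exact ⟨K1, K2, mild_of_manyUnr h1, h2, h3⟩

end Pool.Agent.Clo
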