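import Pool.Agent.Clo.AlbInv

/-!
# A representative of the Albanese class with the smallest energy, and the lower bound

PROOFS. `exists_alb`: let `d = ∑ z(x)` be the degree of `z`. For `i : ι` let
`ι_i : p ↦ update o i p` be the inclusion of the factor, and `g_i x = update o i (x i)`. Put
`z' = d • single o + ∑ i, (z.mapDomain g_i - d • single o)`. (1) `AlbKer L (z - z')`: the degree
of `z.mapDomain g_i` is `d` (`Finsupp.sum_mapDomain_index`), so the degree of `z'` is `d`; for
`j : ι` the push-forward of `z'` to the factor `j` (the additive homomorphism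
`Finsupp.mapDomain.addMonoidHom`, `Finsupp.mapDomain_comp`) is
`d • single (o j) + (z_j - d • single (o j)) + ∑ i ≠ j, (d • single (o j) - d • single (o j)) = z_j`
where `z_j` is the push-forward of `z`, because `g_i x j = o j` for `i ≠ j` (so `z.mapDomain` of
this constant map is `d • single (o j)`) and `g_j x j = x j`. So all push-forwards of `z - z'` are
zero (even as cycles). (2) `energy (1 + b) z' = albEnergy b z'`: both are forms of `z'`, with the
kernels `∏ i, (1 + b i (x i) (y i))` and `1 + ∑ i, b i (x i) (y i)`. It suffices that the two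
kernels agree on the support of `z'` (write `form` as a sum over the support), and this is
contained in the set of all `update o i p`. For `x = update o i p`, `y = update o j q` with
`i ≠ j` all `b l (x l) (y l)` are zero, because one of the two points is the base point (`base`
and `symm`), and both kernels are `1`; if `i = j` both are `1 + b i p q` (`Finset.prod_eq_single`,
`Finset.sum_eq_single`). (3) `albEnergy b z' = albEnergy b z` by `albEnergy_congr` with `m = 1`
and (1).

`albEnergy_le`: `energy_eq`, `albEnergy_eq`, `form_mono` and `psd_lower` (with the kernels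
`fun x y => b i (x i) (y i)`, positive semidefinite by `psd_comap`).
-/

set_option autoImplicit false

noncomputable section

namespace Pool.Agent.Clo

open Pool.Agent.ZCyc Pool.Agent.Dess
open scoped Classical

section Alb

variable {ι : Type} [Fintype ι] {L : ι → Type} [∀ i, Field (L i)] [∀ i, Algebra QQ (L i)]
  {S : ∀ i, Finset (L i)} {o : ∀ i, Place QQ (L i)}
  {b : ∀ i, Place QQ (L i) → Place QQ (L i) → ℝ}

/-- the sum of the coefficients -/
private theorem deg_add {X : Type} (u v : X →₀ ℤ) :
    ((u + v).sum fun _ n => n) = (u.sum fun _ n => n) + v.sum fun _ n => n :=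
  Finsupp.sum_add_index' (fun _ => rfl) fun _ _ _ => rfl

/-- the sum of the coefficients as a homomorphism -/
private def dg (X : Type) : (X →₀ ℤ) →+ ℤ :=
  AddMonoidHom.mk' (fun z => z.sum fun _ n => n) deg_add

private theorem dg_eq {X : Type} (z : X →₀ ℤ) : dg X z = z.sum fun _ n => n := rfl

private theorem dg_single {X : Type} (x : X) (n : ℤ) : dg X (Finsupp.single x n) = n := by
  rw [dg_eq]
  exact Finsupp.sum_single_index rfl

private theorem dg_map {X Y : Type} (g : X → Y) (z : X →₀ ℤ) :
    dg Y (z.mapDomain g) = dg X z := by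
  rw [dg_eq, dg_eq]
  exact Finsupp.sum_mapDomain_index (fun _ => rfl) fun _ _ _ => rfl

private theorem map_const {X Y : Type} (z : X →₀ ℤ) (y : Y) :
    (z.mapDomain fun _ => y) = Finsupp.single y (dg X z) := by
  have h := Finsupp.single_sum z (fun _ n => n) y
  exact h.symm

omit [Fintype ι] in
private theorem albKer_of {u v : (∀ i, Place QQ (L i)) →₀ ℤ} (h0 : dg _ u = dg _ v)
    (h1 : ∀ j, (u.mapDomain fun p (_ : Unit) => p j) = v.mapDomain fun p (_ : Unit) => p j) :
    AlbKer L (u - v) := by
  refine ⟨?_, fun j => ?_⟩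
  · have h2 := map_sub (dg _) u v
    rw [h0, sub_self] at h2
    exact h2
  · have h2 := map_sub (Finsupp.mapDomain.addMonoidHom
      (fun (p : ∀ i, Place QQ (L i)) (_ : Unit) => p j)) u v
    have h3 : ((u - v).mapDomain fun p (_ : Unit) => p j) =
      (u.mapDomain fun p (_ : Unit) => p j) - v.mapDomain fun p (_ : Unit) => p j := h2
    rw [h3, h1 j, sub_self]
    exact AddSubgroup.zero_mem _

/-- the cycle on the coordinate axes -/
private def axes (o : ∀ i, Place QQ (L i)) (z : (∀ i, Place QQ (L i)) →₀ ℤ) :
    (∀ i, Place QQ (L i)) →₀ ℤ :=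
  Finsupp.single o (dg _ z) +
    ∑ i, ((z.mapDomain fun x => Function.update o i (x i)) - Finsupp.single o (dg _ z))

private theorem dg_axes (o : ∀ i, Place QQ (L i)) (z : (∀ i, Place QQ (L i)) →₀ ℤ) :
    dg _ (axes o z) = dg _ z := by
  unfold axes
  rw [map_add, map_sum, dg_single]
  have h : ∀ i ∈ Finset.univ, dg _ ((z.mapDomain fun x => Function.update o i (x i)) -
      Finsupp.single o (dg _ z)) = 0 := by
    intro i _
    rw [map_sub, dg_map, dg_single, sub_self]
  rw [Finset.sum_eq_zero h, add_zero]

private theorem push_axes (o : ∀ i, Place QQ (L i)) (z : (∀ i, Place QQ (L i)) →₀ ℤ) (j : ι) :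
    ((axes o z).mapDomain fun p (_ : Unit) => p j) = z.mapDomain fun p (_ : Unit) => p j := by
  have h1 : ∀ t : (∀ i, Place QQ (L i)) →₀ ℤ, (t.mapDomain fun p (_ : Unit) => p j) =
    Finsupp.mapDomain.addMonoidHom (fun (p : ∀ i, Place QQ (L i)) (_ : Unit) => p j) t :=
    fun t => rfl
  have h2 : ∀ i, i ≠ j → ((z.mapDomain fun x => Function.update o i (x i)).mapDomain
      fun p (_ : Unit) => p j) = Finsupp.single (fun _ => o j) (dg _ z) := by
    intro i hi
    rw [← Finsupp.mapDomain_comp, ← map_const]
    congr 1
    funext x u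
    exact Function.update_of_ne (Ne.symm hi) _ _
  have h3 : ((z.mapDomain fun x => Function.update o j (x j)).mapDomain
      fun p (_ : Unit) => p j) = z.mapDomain fun p (_ : Unit) => p j := by
    rw [← Finsupp.mapDomain_comp]
    congr 1
    funext x u
    exact Function.update_self j (x j) o
  rw [h1]
  unfold axes
  rw [map_add, map_sum, Finset.sum_eq_single j]
  · rw [map_sub, add_sub_cancel, ← h1, h3]
  · intro i _ hi
    rw [map_sub, ← h1, ← h1, h2 i hi, Finsupp.mapDomain_single, sub_self]
  · exact fun h => absurd (Finset.mem_univ j) h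

private theorem axes_supp {o : ∀ i, Place QQ (L i)} {z : (∀ i, Place QQ (L i)) →₀ ℤ}
    {x : ∀ i, Place QQ (L i)} (hx : axes o z x ≠ 0) (i j : ι) (hij : i ≠ j) :
    x i = o i ∨ x j = o j := by
  by_contra hc
  push Not at hc
  obtain ⟨hi, hj⟩ := hc
  refine hx ?_
  have h0 : ∀ n : ℤ, Finsupp.single o n x = 0 := fun n =>
    Finsupp.single_eq_of_ne (by
      rintro rfl
      exact hi rfl)
  unfold axes
  rw [Finsupp.add_apply, Finsupp.finsetSum_apply, h0, zero_add]
  refine Finset.sum_eq_zero fun l _ => ?_
  rw [Finsupp.sub_apply, h0, sub_zero]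
  refine Finsupp.mapDomain_of_notMem_range _ _ ?_
  rintro ⟨t, ht⟩
  have ht' : x = Function.update o l (t l) := ht.symm
  by_cases hl : l = i
  · subst hl
    refine hj ?_
    rw [ht']
    exact Function.update_of_ne (Ne.symm hij) _ _
  · refine hi ?_
    rw [ht']
    exact Function.update_of_ne (Ne.symm hl) _ _

private theorem prod_one_add {c : ι → ℝ} (h : ∀ i j, i ≠ j → c i = 0 ∨ c j = 0) :
    ∏ i, (1 + c i) = 1 + ∑ i, c i := by
  by_cases hc : ∃ i, c i ≠ 0
  · obtain ⟨i, hi⟩ := hc
    have h0 : ∀ j, j ≠ i → c j = 0 := fun j hj => (h j i hj).resolve_right hi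
    rw [Finset.prod_eq_single i (fun j _ hj => by rw [h0 j hj, add_zero]) fun h' =>
      absurd (Finset.mem_univ i) h', Finset.sum_eq_single i (fun j _ hj => h0 j hj) fun h' =>
      absurd (Finset.mem_univ i) h']
  · push Not at hc
    rw [Finset.sum_eq_zero fun i _ => hc i, add_zero]
    exact Finset.prod_eq_one fun i _ => by rw [hc i, add_zero]

private theorem form_congr {X : Type} {K K' : X → X → ℝ} {w : X →₀ ℤ}
    (h : ∀ x ∈ w.support, ∀ y, K x y = K' x y) : form K w w = form K' w w := by
  unfold form
  refine Finset.sum_congr rfl fun x hx => Finset.sum_congr rfl fun y _ => ?_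
  beta_reduce
  rw [h x hx y]

theorem exists_alb (hb : ∀ i, HeightPairing (S i) (o i) (b i))
    (z : (∀ i, Place QQ (L i)) →₀ ℤ) :
    ∃ z' : (∀ i, Place QQ (L i)) →₀ ℤ, AlbKer L (z - z') ∧
      form (prodKer fun i p q => 1 + b i p q) z' z' = albEnergy b z := by
  have h1 : AlbKer L (axes o z - z) := albKer_of (dg_axes o z) (push_axes o z)
  have h2 : AlbKer L (z - axes o z) :=
    albKer_of (dg_axes o z).symm fun j => (push_axes o z j).symm
  refine ⟨axes o z, h2, ?_⟩
  have h3 : form (prodKer fun i p q => 1 + b i p q) (axes o z) (axes o z) =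
      form (albKer b) (axes o z) (axes o z) := by
    refine form_congr fun x hx y => ?_
    refine prod_one_add fun i j hij => ?_
    rcases axes_supp (Finsupp.mem_support_iff.mp hx) i j hij with h | h
    · left
      rw [h]
      exact (hb i).base _
    · right
      rw [h]
      exact (hb j).base _
  have h4 : albEnergy b (axes o z) = ((1 : ℕ) : ℝ) ^ 2 * albEnergy b z := by
    refine albEnergy_congr hb ?_
    rw [one_smul]
    exact h1
  rw [h3, ← albEnergy_eq, h4]
  norm_num

theorem albEnergy_le (hb : ∀ i, HeightPairing (S i) (o i) (b i))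
    (w : (∀ i, Place QQ (L i)) →₀ ℤ) :
    albEnergy b w ≤ form (prodKer fun i p q => 1 + b i p q) w w := by
  rw [albEnergy_eq]
  refine form_mono w ?_
  have h := psd_lower (X := ∀ i, Place QQ (L i)) (b := fun i x y => b i (x i) (y i))
    Finset.univ fun i _ => psd_comap ((hb i).toKernel.toPSD) fun x : ∀ i, Place QQ (L i) => x i
  refine cast ?_ h
  congr 1
  funext x y
  unfold albKer prodKer
  ring

end Alb

end Pool.Agent.Clo
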