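import Pool.Agent.Dess.Defs

/-!
# Valuation rings above primes

## Proofs

`mem_almost_all`: every `c ∈ C` is algebraic over `ℤ`, so there is an integer `d ≠ 0` such that
`d * c` is integral over `ℤ` (`exists_integral_multiple` or
`IsAlgebraic.exists_integral_multiple`, `IsAlgebraic ℤ c` from `IsAlgebraic ℚ c`); let `N` be the
sum of all `|d|`. For `l > N` prime and `W` above `l`: the prime `l` does not divide `d`, so
`x l + y d = 1` with integers `x`, `y`; if `d` were a nonunit of `W`, then `1` would be a nonunit;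
so `d⁻¹ ∈ W`; and `d * c ∈ W` since `W` is integrally closed and contains `ℤ` (an element integral
over `ℤ` is integral over `W`, see the last four lines of `exists_bound_set` in `ArInt.lean`).

`val_coprime`: `x l + y l' = 1` in `ℤ`; `l'` is in `W`, and if it were a nonunit, then `1` would
be one. So `W.valuation l' = 1` (`ValuationSubring.valuation_eq_one_iff`,
`ValuationSubring.mem_nonunits_iff`, `ValuationSubring.valuation_le_one_iff`).

`exists_over`: `Ideal.image_subset_nonunits_valuationSubring` for the subring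
`(algebraMap ℤ QQ).range` of `QQ` and its ideal generated by `l`, which is not the whole ring
since `l` is not invertible in `ℤ` (the map `ℤ → QQ` is injective).
-/

set_option autoImplicit false

noncomputable section

namespace Pool.Agent.Clo

open Pool.Agent.ZCyc Pool.Agent.Dess

private theorem int_mem (W : ValuationSubring QQ) (n : ℤ) : (n : QQ) ∈ W := intCast_mem W n

private theorem val_int {l : ℕ} {d : ℤ} (h : IsCoprime (l : ℤ) d) (W : ValuationSubring QQ)
    (hl : (l : QQ) ∈ W.nonunits) : W.valuation (d : QQ) = 1 := by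
  have hl' : W.valuation (l : QQ) < 1 := W.mem_nonunits_iff.1 hl
  have hle : ∀ n : ℤ, W.valuation (n : QQ) ≤ 1 := fun n =>
    (W.valuation_le_one_iff _).2 (int_mem W n)
  refine le_antisymm (hle d) (not_lt.1 fun hd => ?_)
  obtain ⟨a, b, hab⟩ := h
  have h1 : (a : QQ) * (l : QQ) + (b : QQ) * (d : QQ) = 1 := by
    have := congrArg (fun n : ℤ => (n : QQ)) hab
    push_cast at this
    exact this
  have h2 : W.valuation ((a : QQ) * (l : QQ)) < 1 := by
    rw [map_mul]
    exact lt_of_le_of_lt (mul_le_of_le_one_left' (hle a)) hl'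
  have h3 : W.valuation ((b : QQ) * (d : QQ)) < 1 := by
    rw [map_mul]
    exact lt_of_le_of_lt (mul_le_of_le_one_left' (hle b)) hd
  have h4 := W.valuation.map_add_lt h2 h3
  rw [h1, map_one] at h4
  exact lt_irrefl _ h4

theorem mem_almost_all (C : Finset QQ) : ∃ N : ℕ, ∀ l : ℕ, l.Prime → N < l →
    ∀ W : ValuationSubring QQ, (l : QQ) ∈ W.nonunits → ∀ c ∈ C, c ∈ W := by
  have halg : Algebra.IsAlgebraic ℤ QQ :=
    (IsFractionRing.comap_isAlgebraic_iff (A := ℤ) (K := ℚ) (C := QQ)).2
      (AlgebraicClosure.isAlgebraic ℚ)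
  obtain ⟨y, hy, hint⟩ := Algebra.IsAlgebraic.exists_integral_multiples ℤ C
  refine ⟨y.natAbs, fun l hl hN W hW c hc => ?_⟩
  have hcop : IsCoprime (l : ℤ) y := by
    rw [Int.isCoprime_iff_gcd_eq_one]
    change Nat.gcd (Int.natAbs (l : ℤ)) y.natAbs = 1
    rw [Int.natAbs_natCast]
    refine (Nat.Prime.coprime_iff_not_dvd hl).2 fun hdvd => ?_
    exact absurd (Nat.le_of_dvd (Int.natAbs_pos.2 hy) hdvd) (not_le.2 hN)
  have hv := val_int hcop W hW
  have h1 : IsIntegral W (y • c) := (hint c hc).tower_top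
  obtain ⟨z, hz⟩ := IsIntegrallyClosed.isIntegral_iff.1 h1
  have h2 : W.valuation (y • c) ≤ 1 := by
    rw [← hz]
    exact (W.valuation_le_one_iff _).2 z.2
  rw [zsmul_eq_mul, map_mul, hv, one_mul] at h2
  exact (W.valuation_le_one_iff _).1 h2

theorem val_coprime {l l' : ℕ} (h : Nat.Coprime l l') (W : ValuationSubring QQ)
    (hl : (l : QQ) ∈ W.nonunits) : W.valuation (l' : QQ) = 1 := by
  have := val_int (Nat.isCoprime_iff_coprime.2 h) W hl
  rwa [Int.cast_natCast] at this

theorem exists_over {l : ℕ} (hl : l.Prime) : ∃ W : ValuationSubring QQ, (l : QQ) ∈ W.nonunits := by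
  let x : (algebraMap ℤ QQ).range := ⟨(l : QQ), (l : ℤ), by simp⟩
  have hI : Ideal.span {x} ≠ ⊤ := by
    intro h
    have h1 : (1 : (algebraMap ℤ QQ).range) ∈ Ideal.span {x} := by
      rw [h]
      exact Submodule.mem_top
    obtain ⟨a, ha⟩ := Ideal.mem_span_singleton'.1 h1
    obtain ⟨n, hn⟩ := a.2
    have h2 := congrArg Subtype.val ha
    change (a : QQ) * (l : QQ) = 1 at h2
    rw [← hn] at h2
    have h3 : n * (l : ℤ) = 1 := by
      have h4 : ((n * (l : ℤ) : ℤ) : QQ) = ((1 : ℤ) : QQ) := by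
        push_cast
        simpa using h2
      exact_mod_cast h4
    have h5 : (l : ℤ) ∣ 1 := ⟨n, by rw [mul_comm]; exact h3.symm⟩
    have h6 : l ∣ 1 := by exact_mod_cast h5
    exact hl.one_lt.ne' (Nat.dvd_one.1 h6)
  obtain ⟨W, -, hW⟩ := Ideal.image_subset_nonunits_valuationSubring _ hI
  exact ⟨W, hW ⟨x, Ideal.subset_span rfl, rfl⟩⟩

end Pool.Agent.Clo
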