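import Pool.Agent.Dess4.Deg

/-!
# The number of points of a fibre

## Proof

`φ` is transcendental since it has a pole at `p` (`bel_transc` in `Pool/Agent/Dess4/Bel.lean`, or
directly: an algebraic element is a constant, which lies in every `v.ring`; `φ ∉ p.ring` by
`HasOrd p φ (-n1)`, `n1 > 0`: otherwise `π ^ n1 * φ` is a unit of `p.ring`, which is a product of
a nonunit and an element of the ring). Finiteness: `finite_at` in `Pool/Agent/Dess/Dede.lean`. Let
`X` be the finite set of all `x` with `x.At φ t`, and `g = φ - t ≠ 0`. Every `x ∈ X` has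
an order `o x` of `g` at `x` (`exists_unif`, `exists_ord`), and `o x ≥ 1` because `g` vanishes at
`x` (if `o x ≤ 0` then `g⁻¹` would be in the ring, see `deg_sign` in `Pool/Agent/Dess4/Deg.lean`).
`g` has order `-n1` at `p` (`HasOrd p φ (-n1)` gives `φ / π ^ (-n1) = φ π ^ n1 = a` with a unit `a`,
and `g π ^ n1 = a - t π ^ n1` is a unit: it is in the ring, and it is not a nonunit because
`t π ^ n1` is a nonunit and `a` is a unit) and order `-n2` at `q`. At all other places `v ∉ X`,
`v ≠ p, q`: `φ ∈ v.ring`, so `v.At φ c` for some `c` (`exists_at`), `c ≠ t`, so `g` has the value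
`c - t ≠ 0`, it is a unit, `HasOrd v g 0` (any uniformizer). The places `p`, `q` are not in `X`
(`Place.At.mem`). By `degree_zero` for the set `{p, q} ∪ X`: `-n1 - n2 + ∑ x ∈ X, o x = 0`, so
`X.card ≤ ∑ x ∈ X, o x = n1 + n2` (`Finset.card_nsmul_le_sum`, `Set.ncard_eq_toFinset_card`).

The hypothesis `φ ≠ 0` is needed, since `HasOrd v 0 n` holds for every `n`.
-/

set_option autoImplicit false

noncomputable section

namespace Pool.Agent.Clo

open Pool.Agent.ZCyc Pool.Agent.Dess Pool.Agent.Dess4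

variable {F : Type} [Field F] [Algebra QQ F]

/-- an algebraic function is constant -/
private lemma count_const {g : F} (h : IsIntegral QQ g) : ∃ c : QQ, algebraMap QQ F c = g := by
  have h1 := IsAlgClosed.degree_eq_one_of_irreducible QQ (minpoly.irreducible h)
  exact minpoly.mem_range_of_degree_eq_one QQ g h1

/-- a nonzero function of negative order is not in the local ring -/
private lemma count_not_mem {v : Place QQ F} {g : F} (hg : g ≠ 0) {n : ℕ} (hn : 0 < n)
    (h : HasOrd v g (-(n : ℤ))) : g ∉ v.ring := by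
  obtain ⟨π, hπ, -, h2⟩ := h
  intro hm
  have h3 : v.Vanishes (g * π ^ n) := (Place.Vanishes.pow v hπ.2.1 hn.ne').mul' v hm
  have e : g / π ^ (-(n : ℤ)) = g * π ^ n := by
    rw [zpow_neg, div_inv_eq_mul, zpow_natCast]
  rw [e] at h2
  rcases (v.vanishes_iff_or _).1 h3 with h4 | h4
  · rcases mul_eq_zero.1 h4 with h5 | h5
    · exact hg h5
    · exact hπ.1 (pow_eq_zero_iff hn.ne' |>.1 h5)
  · exact h4 h2

/-- the order at a pole does not change if a constant is subtracted -/
private lemma count_sub {v : Place QQ F} {g : F} (hg : g ≠ 0) {n : ℕ} (hn : 0 < n)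
    (h : HasOrd v g (-(n : ℤ))) (t : QQ) : HasOrd v (g - algebraMap QQ F t) (-(n : ℤ)) := by
  obtain ⟨π, hπ, h1, h2⟩ := h
  have e : ∀ x : F, x / π ^ (-(n : ℤ)) = x * π ^ n := by
    intro x
    rw [zpow_neg, div_inv_eq_mul, zpow_natCast]
  rw [e] at h1 h2
  have hv : v.Vanishes (algebraMap QQ F t * π ^ n) :=
    (Place.Vanishes.pow v hπ.2.1 hn.ne').mul' v (v.const_mem t)
  have hm : (g - algebraMap QQ F t) * π ^ n ∈ v.ring := by
    rw [sub_mul]
    exact sub_mem h1 hv.mem
  refine ⟨π, hπ, ?_, ?_⟩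
  · rw [e]
    exact hm
  · rw [e]
    by_contra hc
    have h3 : v.Vanishes ((g - algebraMap QQ F t) * π ^ n) :=
      (v.vanishes_iff_or _).2 (Or.inr hc)
    have h4 : v.Vanishes (g * π ^ n) := by
      have := Place.Vanishes.add v h3 hv
      convert this using 1
      ring
    rcases (v.vanishes_iff_or _).1 h4 with h5 | h5
    · rcases mul_eq_zero.1 h5 with h6 | h6
      · exact hg h6
      · exact hπ.1 (pow_eq_zero_iff hn.ne' |>.1 h6)
    · exact h5 h2

theorem fiber_count (hF : IsCurve QQ F) {φ : F} {p q : Place QQ F} {n1 n2 : ℕ} (hpq : p ≠ q)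
    (hφ : φ ≠ 0) (h1 : 0 < n1) (h2 : 0 < n2) (hp : HasOrd p φ (-(n1 : ℤ)))
    (hq : HasOrd q φ (-(n2 : ℤ)))
    (hreg : ∀ v : Place QQ F, v ≠ p → v ≠ q → φ ∈ v.ring) (t : QQ) :
    {x : Place QQ F | x.At φ t}.Finite ∧ {x : Place QQ F | x.At φ t}.ncard ≤ n1 + n2 := by
  classical
  have hpm : φ ∉ p.ring := count_not_mem hφ h1 hp
  have hqm : φ ∉ q.ring := count_not_mem hφ h2 hq
  have hφt : Transcendental QQ φ := by
    intro hal
    have hint : IsIntegral QQ φ := hal.isIntegral
    obtain ⟨c, hc⟩ := count_const hint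
    exact hpm (hc ▸ p.const_mem c)
  have hfin := finite_at hF hφt t
  refine ⟨hfin, ?_⟩
  set X := hfin.toFinset with hX
  have hXm : ∀ x : Place QQ F, x ∈ X ↔ x.At φ t := fun x => by
    rw [hX, Set.Finite.mem_toFinset, Set.mem_ofPred_eq]
  have hpX : p ∉ X := fun h => hpm ((hXm p).1 h).mem
  have hqX : q ∉ X := fun h => hqm ((hXm q).1 h).mem
  set g := φ - algebraMap QQ F t with hgdef
  have hg0 : g ≠ 0 := by
    intro h
    rw [hgdef, sub_eq_zero] at h
    exact hpm (h ▸ p.const_mem t)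
  choose ϖ hϖ using fun v : Place QQ F => exists_unif hF v
  choose o ho1 ho2 using fun v : Place QQ F => exists_ord hF v (hϖ v) hg0
  have hord : ∀ v, HasOrd v g (o v) := fun v => ⟨ϖ v, hϖ v, ho1 v, ho2 v⟩
  have hop : o p = -(n1 : ℤ) := hasOrd_unique hF hg0 (hord p) (count_sub hφ h1 hp t)
  have hoq : o q = -(n2 : ℤ) := hasOrd_unique hF hg0 (hord q) (count_sub hφ h2 hq t)
  have hpos : ∀ x ∈ X, 1 ≤ o x := by
    intro x hx
    have hv : x.Vanishes g := (hXm x).1 hx
    by_contra hlt
    push Not at hlt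
    obtain ⟨l, hl⟩ := Int.eq_ofNat_of_zero_le (show (0 : ℤ) ≤ -o x by omega)
    have h3 : g⁻¹ ∈ x.ring := by
      have h4 : g⁻¹ = (g / ϖ x ^ o x)⁻¹ * ϖ x ^ (-o x) := by
        rw [zpow_neg]
        have := zpow_ne_zero (o x) (hϖ x).1
        field_simp
      rw [h4, hl, zpow_natCast]
      exact mul_mem (ho2 x) (pow_mem (hϖ x).2.1.mem _)
    rcases (x.vanishes_iff_or g).1 hv with h4 | h4
    · exact hg0 h4
    · exact h4 h3
  have hdeg := degree_zero hF hg0 (insert p (insert q X)) o (fun v _ => hord v) (by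
    intro v hv
    rw [Finset.mem_insert, Finset.mem_insert, not_or, not_or] at hv
    obtain ⟨hvp, hvq, hvX⟩ := hv
    obtain ⟨c, hc⟩ := exists_at hF v (hreg v hvp hvq)
    have hct : c - t ≠ 0 := by
      intro h
      rw [sub_eq_zero] at h
      exact hvX ((hXm v).2 (h ▸ hc))
    have hgc : v.At g (c - t) := hc.sub (Place.at_const t)
    refine ⟨ϖ v, hϖ v, ?_, ?_⟩
    · rw [zpow_zero, div_one]
      exact hgc.mem
    · rw [zpow_zero, div_one]
      exact (hgc.inv hct).mem)
  rw [Finset.sum_insert (by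
      rw [Finset.mem_insert, not_or]
      exact ⟨hpq, hpX⟩), Finset.sum_insert hqX, hop, hoq] at hdeg
  have hle : X.card • (1 : ℤ) ≤ ∑ x ∈ X, o x := Finset.card_nsmul_le_sum X o 1 hpos
  rw [nsmul_eq_mul, mul_one] at hle
  rw [Set.ncard_eq_toFinset_card _ hfin]
  have : (X.card : ℤ) ≤ ((n1 + n2 : ℕ) : ℤ) := by
    push_cast
    linarith
  exact_mod_cast this

end Pool.Agent.Clo
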