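import Mathlib

/-!
# The height of a root of a quotient of two integers

## Proof

`t` is integral over `ℚ` (root of `X ^ k - l' / l`). Unfold `NumberField.absLogHeight₁`,
`absMulHeight₁` (`dif_pos`). Let `K = ℚ⟮t⟯`, `x = AdjoinSimple.gen ℚ t : K`, `d = finrank ℚ K`.
In `K` we have `x ^ k = l' / l` (the map `K → QQ` is injective, `AdjoinSimple.algebraMap_gen`).
`Height.mulHeight₁_pow`: `mulHeight₁ x ^ k = mulHeight₁ (l' / l)`, and by
`Height.mulHeight₁_div_eq_mulHeight` this is `mulHeight ![l', l]`, and by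
`NumberField.mulHeight_eq` it is `(∏ v infinite, (⨆ i, v (![l', l] i)) ^ v.mult) *
∏ᶠ v finite, ⨆ i, v (![l', l] i)`. At the infinite places `v l = l`, `v l' = l'`
(`map_natCast`, `InfinitePlace` norm of a natural number), so the first factor is
`B ^ (∑ v.mult) = B ^ d`, `B = max l l'` (`NumberField.InfinitePlace.sum_mult_eq`,
`Finset.prod_pow_eq_pow_sum`). The second factor is `≤ 1`: all `v l, v l' ≤ 1` at finite places
(`NumberField.FinitePlace` norms of integers are `≤ 1`, `FinitePlace.norm_le_one`); use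
`finprod_le_one`-like lemma or `Finset.prod_le_one` after `finprod_eq_prod_of_mulSupport_subset`,
or use `NumberField.absNorm_mul_finprod_finitePlace_eq_one` of
`Mathlib/NumberTheory/Height/NumberField.lean`: the finite part is `1 / absNorm ≤ 1` for the
non-zero vector of integers `![l', l]`. So `mulHeight₁ x ^ k ≤ B ^ d`, take the logarithm:
`k log (mulHeight₁ x) ≤ d log B ≤ d k`, so `log (mulHeight₁ x) ≤ d`, and
`absLogHeight₁ t = log (mulHeight₁ x ^ (1 / d)) = log (mulHeight₁ x) / d ≤ 1`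
(`Real.log_rpow`, `Height.mulHeight₁_pos` or `one_le_mulHeight₁`, `d > 0`).
-/

set_option autoImplicit false

noncomputable section

namespace Pool.Agent.Clo

open Height NumberField in
private lemma fin_le_ArHt {F : Type*} [Field F] [NumberField F] {l l' : ℕ} (hl : 0 < l) :
    (∏ᶠ v : FinitePlace F, ⨆ i, v (![(l' : F), (l : F)] i)) ≤ 1 := by
  have hne : (![(l' : 𝓞 F), (l : 𝓞 F)] : Fin 2 → 𝓞 F) ≠ 0 := by
    intro h0
    have h1 := congrFun h0 1
    simp at h1
    omega
  have h1 := absNorm_mul_finprod_finitePlace_eq_one hne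
  have hcast : ∀ i : Fin 2, ((![(l' : 𝓞 F), (l : 𝓞 F)] i : 𝓞 F) : F) =
      ![(l' : F), (l : F)] i := by
    intro i
    fin_cases i <;> simp
  simp only [hcast] at h1
  have h2 : (0 : ℝ) ≤ ∏ᶠ v : FinitePlace F, ⨆ i, v (![(l' : F), (l : F)] i) :=
    finprod_nonneg fun _ => Real.iSup_nonneg_of_nonnegHomClass ..
  have h3 : (1 : ℝ) ≤ ((Ideal.span (Set.range ![(l' : 𝓞 F), (l : 𝓞 F)])).absNorm : ℝ) := by
    have h4 : (Ideal.span (Set.range ![(l' : 𝓞 F), (l : 𝓞 F)])).absNorm ≠ 0 := by
      intro h5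
      rw [h5] at h1
      simp at h1
    exact_mod_cast Nat.one_le_iff_ne_zero.2 h4
  nlinarith

open Height NumberField in
private lemma quot_le_ArHt {F : Type*} [Field F] [NumberField F] {l l' : ℕ} (hl : 0 < l) :
    mulHeight₁ ((l' : F) / (l : F)) ≤ (max (l : ℝ) (l' : ℝ)) ^ Module.finrank ℚ F := by
  have hlF : (l : F) ≠ 0 := by exact_mod_cast hl.ne'
  have hne : (![(l' : F), (l : F)] : Fin 2 → F) ≠ 0 := by
    intro h0
    have h1 := congrFun h0 1
    simp at h1
    omega
  have hB : (0 : ℝ) ≤ max (l : ℝ) (l' : ℝ) := le_max_of_le_left (Nat.cast_nonneg _)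
  rw [mulHeight₁_div_eq_mulHeight, NumberField.mulHeight_eq hne,
    ← InfinitePlace.sum_mult_eq, ← Finset.prod_pow_eq_pow_sum]
  have h1 : (∏ v : InfinitePlace F, (⨆ i, v (![(l' : F), (l : F)] i)) ^ v.mult) ≤
      ∏ v : InfinitePlace F, (max (l : ℝ) (l' : ℝ)) ^ v.mult := by
    refine Finset.prod_le_prod (fun v _ => ?_) fun v _ => ?_
    · exact pow_nonneg (Real.iSup_nonneg_of_nonnegHomClass ..) _
    · refine pow_le_pow_left₀ (Real.iSup_nonneg_of_nonnegHomClass ..) ?_ _
      refine ciSup_le fun i => ?_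
      fin_cases i
      · simp
      · simp
  have h2 := fin_le_ArHt (F := F) (l' := l') hl
  have h3 : (0 : ℝ) ≤ ∏ᶠ v : FinitePlace F, ⨆ i, v (![(l' : F), (l : F)] i) :=
    finprod_nonneg fun _ => Real.iSup_nonneg_of_nonnegHomClass ..
  have h4 : (0 : ℝ) ≤ ∏ v : InfinitePlace F, (max (l : ℝ) (l' : ℝ)) ^ v.mult :=
    Finset.prod_nonneg fun v _ => pow_nonneg hB _
  calc _ ≤ (∏ v : InfinitePlace F, (max (l : ℝ) (l' : ℝ)) ^ v.mult) * 1 :=
        mul_le_mul h1 h2 h3 h4
    _ = _ := mul_one _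

theorem height_root {K : Type} [Field K] [CharZero K] {t : K} {k l l' : ℕ} (hk : 0 < k)
    (hl : 0 < l) (hl' : 0 < l') (h : t ^ k = (l' : K) / (l : K))
    (h1 : Real.log (max (l : ℝ) (l' : ℝ)) ≤ k) : NumberField.absLogHeight₁ t ≤ 1 := by
  classical
  have hint : IsIntegral ℚ t := by
    refine IsIntegral.of_pow hk ?_
    rw [h]
    have h2 : (l' : K) / (l : K) = algebraMap ℚ K ((l' : ℚ) / (l : ℚ)) := by
      simp
    rw [h2]
    exact isIntegral_algebraMap
  unfold NumberField.absLogHeight₁ NumberField.absMulHeight₁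
  rw [dif_pos hint]
  have : FiniteDimensional ℚ (IntermediateField.adjoin ℚ {t}) :=
    IntermediateField.adjoin.finiteDimensional hint
  have : NumberField (IntermediateField.adjoin ℚ {t}) := {}
  have hx : (IntermediateField.AdjoinSimple.gen ℚ t) ^ k =
      (l' : IntermediateField.adjoin ℚ {t}) / (l : IntermediateField.adjoin ℚ {t}) := by
    apply Subtype.ext
    push_cast
    simpa using h
  have h3 : Height.mulHeight₁ (IntermediateField.AdjoinSimple.gen ℚ t) ^ k ≤
      (max (l : ℝ) (l' : ℝ)) ^ Module.finrank ℚ (IntermediateField.adjoin ℚ {t}) := by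
    rw [← Height.mulHeight₁_pow, hx]
    exact quot_le_ArHt hl
  have hpos : 0 < Height.mulHeight₁ (IntermediateField.AdjoinSimple.gen ℚ t) :=
    Height.mulHeight₁_pos _
  have hd : 0 < Module.finrank ℚ (IntermediateField.adjoin ℚ {t}) := Module.finrank_pos
  have h4 := Real.log_le_log (by positivity) h3
  rw [Real.log_pow, Real.log_pow] at h4
  have hk' : (0 : ℝ) < k := by exact_mod_cast hk
  have hd' : (0 : ℝ) < Module.finrank ℚ (IntermediateField.adjoin ℚ {t}) := by exact_mod_cast hd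
  have h5 : Real.log (Height.mulHeight₁ (IntermediateField.AdjoinSimple.gen ℚ t)) ≤
      Module.finrank ℚ (IntermediateField.adjoin ℚ {t}) := by
    have h6 := mul_le_mul_of_nonneg_left h1 hd'.le
    have h7 : (k : ℝ) * Real.log (Height.mulHeight₁ (IntermediateField.AdjoinSimple.gen ℚ t)) ≤
        k * Module.finrank ℚ (IntermediateField.adjoin ℚ {t}) := by linarith
    exact le_of_mul_le_mul_left h7 hk'
  rw [Real.log_rpow hpos, inv_mul_le_iff₀ hd']
  simpa using h5

end Pool.Agent.Clo
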