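import Mathlib

/-!
# Elements with distinct values are linearly independent

## Proof

Let `∑ i, c i * b i = 0` be a relation with coefficients in `L`, not all zero (use
`Fintype.linearIndependent_iff` or `linearIndependent_iff'`). The values `v (c i * b i)` of the
non-zero terms are distinct (this is `h`: `v (c i * b i) = v (c j * b j)` implies
`v (b i) = v ((c j / c i) * b j)`, so `i = j`). Take `i₀` such that `c i₀ ≠ 0` and
`v (c i₀ * b i₀)` is maximal (`Finset.exists_max_image` on the set of all `i` with `c i ≠ 0`). All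
other terms have a smaller value, so `v (∑ i ≠ i₀, c i * b i) < v (c i₀ * b i₀)`
(`Valuation.map_sum_lt`; `v (c i₀ * b i₀) ≠ 0`), but this sum is `- c i₀ * b i₀`; contradiction.
-/

set_option autoImplicit false

noncomputable section

namespace Pool.Agent.Clo

theorem val_independent {K : Type} [Field K] [Algebra ℚ K] (W : ValuationSubring K)
    (L : IntermediateField ℚ K) {ι : Type} [Fintype ι] (b : ι → K) (hb : ∀ i, b i ≠ 0)
    (h : ∀ i j, ∀ c ∈ L, c ≠ 0 → W.valuation (b i) = W.valuation (c * b j) → i = j) :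
    LinearIndependent L b := by
  classical
  rw [Fintype.linearIndependent_iff]
  intro c hc
  by_contra hne
  push Not at hne
  obtain ⟨k, hk⟩ := hne
  let T : Finset ι := Finset.univ.filter fun i => c i ≠ 0
  have hkT : k ∈ T := Finset.mem_filter.2 ⟨Finset.mem_univ _, hk⟩
  obtain ⟨i₀, hi₀, hmax⟩ := T.exists_max_image
    (fun i => W.valuation ((c i : K) * b i)) ⟨k, hkT⟩
  have hc0 : ∀ i, c i ≠ 0 → (c i : K) ≠ 0 := fun i hi h0 => hi (Subtype.ext h0)
  have hci₀ : c i₀ ≠ 0 := (Finset.mem_filter.1 hi₀).2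
  have hv0 : W.valuation ((c i₀ : K) * b i₀) ≠ 0 := by
    rw [Valuation.ne_zero_iff]
    exact mul_ne_zero (hc0 _ hci₀) (hb i₀)
  have hlt : ∀ i ∈ Finset.univ.erase i₀, W.valuation ((c i : K) * b i) <
      W.valuation ((c i₀ : K) * b i₀) := by
    intro i hi
    by_cases hci : c i = 0
    · rw [hci, ZeroMemClass.coe_zero, zero_mul, map_zero]
      exact zero_lt_iff.2 hv0
    · refine lt_of_le_of_ne (hmax i (Finset.mem_filter.2 ⟨Finset.mem_univ _, hci⟩)) ?_
      intro heq
      refine (Finset.ne_of_mem_erase hi) (h i i₀ ((c i₀ : K) / (c i : K)) ?_ ?_ ?_)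
      · exact L.div_mem (c i₀).2 (c i).2
      · exact div_ne_zero (hc0 _ hci₀) (hc0 _ hci)
      · have h1 : (c i₀ : K) / (c i : K) * b i₀ = (c i : K)⁻¹ * ((c i₀ : K) * b i₀) := by
          field_simp
        rw [h1, map_mul, ← heq, ← map_mul, inv_mul_cancel_left₀ (hc0 _ hci)]
  have hsum : W.valuation (∑ i ∈ Finset.univ.erase i₀, (c i : K) * b i) <
      W.valuation ((c i₀ : K) * b i₀) := Valuation.map_sum_lt _ hv0 hlt
  have h2 : (c i₀ : K) * b i₀ + ∑ i ∈ Finset.univ.erase i₀, (c i : K) * b i = 0 := by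
    rw [Finset.add_sum_erase _ (fun i => (c i : K) * b i) (Finset.mem_univ i₀)]
    rw [← hc]
    exact Finset.sum_congr rfl fun i _ => rfl
  have h3 : ∑ i ∈ Finset.univ.erase i₀, (c i : K) * b i = -((c i₀ : K) * b i₀) :=
    (neg_eq_of_add_eq_zero_right h2).symm
  rw [h3, Valuation.map_neg] at hsum
  exact lt_irrefl _ hsum

end Pool.Agent.Clo
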