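import Pool.Agent.Dess.Dede

/-!
# Specialisation of integral equations

The function `f` is integral over `k[g]`; if all coefficients of the equation are in the valuation
ring `W`, then `g(x) ∈ W` implies `f(x) ∈ W` for all points `x`.
-/

set_option autoImplicit false

noncomputable section

namespace Pool.Agent.Clo

open Pool.Agent.ZCyc Pool.Agent.Dess Polynomial
open scoped Classical

variable {F : Type} [Field F] [Algebra QQ F]

/-- If the function `f` is regular at all points where `g` is regular, then `f(x)` is in the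
valuation ring `W` if `g(x)` is, for all `W` which contain a finite set of constants. -/
theorem exists_bound_set (hF : IsCurve QQ F) {g f : F} (hg : Transcendental QQ g)
    (h : ∀ v : Place QQ F, g ∈ v.ring → f ∈ v.ring) :
    ∃ C : Finset QQ, ∀ W : ValuationSubring QQ, (∀ c ∈ C, c ∈ W) → ∀ (x : Place QQ F) (a b : QQ),
      x.At g a → x.At f b → a ∈ W → b ∈ W := by
  obtain ⟨P, hP, hPf⟩ := int_of_regular hF hg h
  have hc : ∀ i, ∃ c : QQ[X], aeval g c = (P.coeff i : F) := by
    intro i
    have h1 : ∀ y ∈ Algebra.adjoin QQ {g}, ∃ c : QQ[X], aeval g c = y := by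
      intro y hy
      rw [Algebra.adjoin_singleton_eq_range_aeval] at hy
      exact hy
    exact h1 _ (P.coeff i).2
  choose c hc using hc
  refine ⟨(Finset.range (P.natDegree + 1)).biUnion fun i => (c i).support.image (c i).coeff, ?_⟩
  intro W hW x a b ha hb haW
  have hcW : ∀ i ∈ Finset.range (P.natDegree + 1), (c i).eval a ∈ W := by
    intro i hi
    rw [eval_eq_sum_range]
    apply sum_mem
    intro j _
    apply mul_mem
    · by_cases hj : (c i).coeff j = 0
      · rw [hj]
        exact zero_mem _
      · apply hW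
        rw [Finset.mem_biUnion]
        exact ⟨i, hi, Finset.mem_image.2 ⟨j, mem_support_iff.2 hj, rfl⟩⟩
    · exact pow_mem haW j
  have h1 : x.At (∑ i ∈ Finset.range (P.natDegree + 1), aeval g (c i) * f ^ i)
      (∑ i ∈ Finset.range (P.natDegree + 1), (c i).eval a * b ^ i) :=
    Place.At.sum fun i _ => (ha.aeval (c i)).mul (hb.pow i)
  have h2 : (∑ i ∈ Finset.range (P.natDegree + 1), aeval g (c i) * f ^ i) = 0 := by
    rw [eval₂_eq_sum_range] at hPf
    rw [← hPf]
    apply Finset.sum_congr rfl
    intro i _
    rw [hc]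
    rfl
  rw [h2] at h1
  have h3 : (∑ i ∈ Finset.range (P.natDegree + 1), (c i).eval a * b ^ i) = 0 := by
    have := Place.at_const (v := x) (0 : QQ)
    rw [map_zero] at this
    exact h1.unique this
  have hlead : (c P.natDegree).eval a = 1 := by
    have e1 : x.At (aeval g (c P.natDegree)) ((c P.natDegree).eval a) := ha.aeval _
    rw [hc, hP.coeff_natDegree] at e1
    have e2 := Place.at_const (v := x) (1 : QQ)
    rw [map_one] at e2
    exact e1.unique e2
  rw [Finset.sum_range_succ, hlead, one_mul] at h3
  -- `b` is integral over `W`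
  let Q : W[X] := X ^ P.natDegree +
    ∑ i : Fin P.natDegree, C (⟨(c i).eval a, hcW i (Finset.mem_range.2 (by omega))⟩ : W) * X ^ (i : ℕ)
  have hQ : Q.Monic := by
    apply monic_X_pow_add
    apply degree_sum_fin_lt
  have hb' : IsIntegral W b := by
    refine ⟨Q, hQ, ?_⟩
    rw [eval₂_add, eval₂_pow, eval₂_X, eval₂_finsetSum]
    rw [Finset.sum_congr rfl fun i _ => by rw [eval₂_mul, eval₂_pow, eval₂_X, eval₂_C]]
    rw [Finset.sum_range] at h3
    rw [add_comm]
    exact h3
  obtain ⟨y, hy⟩ := IsIntegrallyClosed.isIntegral_iff.1 hb'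
  rw [← hy]
  exact y.2

end Pool.Agent.Clo
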