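import Pool.Agent.Clo.ArRel

/-!
# A point near the pole

If `σ` is not in the valuation ring `W`, then there is a point `x` with `s(x) = σ` and
`u(x) ∉ W`.

## Proof

Let `P` be the polynomial of `exists_relation`, `i` with `(P.coeff i).natDegree ≠ 0`, and
`c = P.coeff i`. Let `C` be the set of all coefficients of `c`, and the inverse of the leading
coefficient of `c`. (1) `c.eval σ ∉ W`: with the valuation `v` of `W` we have `v σ > 1`, the
leading coefficient has value `1` (it and its inverse are in `W`), the others have values `≤ 1`, so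
in `c(σ) = ∑ j, c_j σ ^ j` the top term has the value `v σ ^ d`, `d = natDegree > 0`, and all other
terms have values `≤ v σ ^ (d - 1) < v σ ^ d`; so `v (c(σ)) = v σ ^ d > 1`
(`Valuation.map_sum_lt`, `Valuation.map_add_eq_of_lt_left`). (2) Let
`Q = P.map (evalRingHom σ) : QQ[X]`, monic, it splits over the algebraically closed field `QQ`:
`Q = ∏ (X - C b)` over its multiset of roots (`IsAlgClosed.splits`,
`Polynomial.Splits.eq_prod_roots_of_monic` or `Polynomial.eq_prod_roots_of_monic_of_splits_id`).
If all roots are in `W`, then all coefficients of `Q` are in `W` (write `Q` as the image of the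
product over `W[X]`, or use `Polynomial.coeff_mem...`: for instance prove by `Multiset.induction`
that the product of `X - C b`, `b ∈ W`, lies in `Polynomial.lifts W.subtype`, whose members have
coefficients in `W`: `Polynomial.lifts_iff_coeff_lifts`). But the coefficient of index `i` is
`c.eval σ ∉ W` (`Polynomial.coeff_map`). So there is a root `b ∉ W`, and `exists_relation` gives
the point `x`.
-/

set_option autoImplicit false

noncomputable section

namespace Pool.Agent.Clo

open Pool.Agent.ZCyc Pool.Agent.Dess Polynomial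

variable {F : Type} [Field F] [Algebra QQ F]

/-- a polynomial with unit leading coefficient has a large value at a large argument -/
private theorem eval_ArNear (W : ValuationSubring QQ) (c : QQ[X]) (hd : c.natDegree ≠ 0)
    (hc : ∀ j, c.coeff j ∈ W) (hl : c.leadingCoeff⁻¹ ∈ W) {σ : QQ} (hσ : σ ∉ W) :
    c.eval σ ∉ W := by
  have hσ1 : 1 < W.valuation σ := by
    rw [← not_le, ValuationSubring.valuation_le_one_iff]
    exact hσ
  have hσ0 : (0 : W.ValueGroup) < W.valuation σ := lt_trans zero_lt_one hσ1
  have hc0 : c ≠ 0 := by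
    rintro rfl
    exact hd natDegree_zero
  have hl0 : c.leadingCoeff ≠ 0 := leadingCoeff_ne_zero.2 hc0
  have hl1 : W.valuation c.leadingCoeff = 1 := by
    refine le_antisymm ((ValuationSubring.valuation_le_one_iff _ _).2 (hc _)) ?_
    have h1 := (ValuationSubring.valuation_le_one_iff _ _).2 hl
    rw [map_inv₀] at h1
    exact (inv_le_one₀ ((Valuation.pos_iff _).2 hl0)).1 h1
  have htop : W.valuation (c.coeff c.natDegree * σ ^ c.natDegree) =
      W.valuation σ ^ c.natDegree := by
    rw [map_mul, map_pow]
    change W.valuation c.leadingCoeff * _ = _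
    rw [hl1, one_mul]
  have hlow : W.valuation (∑ j ∈ Finset.range c.natDegree, c.coeff j * σ ^ j) <
      W.valuation (c.coeff c.natDegree * σ ^ c.natDegree) := by
    rw [htop]
    refine Valuation.map_sum_lt _ (pow_ne_zero _ hσ0.ne') fun j hj => ?_
    rw [map_mul, map_pow]
    calc W.valuation (c.coeff j) * W.valuation σ ^ j ≤ 1 * W.valuation σ ^ j :=
          mul_le_mul_left ((ValuationSubring.valuation_le_one_iff _ _).2 (hc j)) _
      _ = W.valuation σ ^ j := one_mul _
      _ < W.valuation σ ^ c.natDegree := pow_lt_pow_right₀ hσ1 (Finset.mem_range.1 hj)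
  intro hmem
  rw [← ValuationSubring.valuation_le_one_iff, eval_eq_sum_range, Finset.sum_range_succ,
    Valuation.map_add_eq_of_lt_right _ hlow, htop] at hmem
  exact absurd (one_lt_pow₀ hσ1 hd) (not_lt.2 hmem)

/-- a product of linear factors with roots in `W` has its coefficients in `W` -/
private theorem coeff_ArNear (W : ValuationSubring QQ) (R : Multiset QQ) (hR : ∀ b ∈ R, b ∈ W)
    (i : ℕ) : ((R.map fun b => X - C b).prod).coeff i ∈ W := by
  have h1 : (R.map fun b => X - C b).prod ∈ Polynomial.lifts W.subtype := by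
    refine multiset_prod_mem _ fun f hf => ?_
    obtain ⟨b, hb, rfl⟩ := Multiset.mem_map.1 hf
    have h2 : X - C b = X + C (W.subtype (-⟨b, hR b hb⟩)) := by
      rw [map_neg, map_neg, sub_eq_add_neg]
      rfl
    rw [h2]
    exact add_mem (X_mem_lifts _) (C_mem_lifts _ _)
  rw [Polynomial.lifts_iff_coeff_lifts] at h1
  obtain ⟨w, hw⟩ := h1 i
  rw [← hw]
  exact w.2

theorem exists_near (hF : IsCurve QQ F) {s u : F} (hs : Transcendental QQ s)
    (hu : Transcendental QQ u) (h : ∀ v : Place QQ F, s ∈ v.ring → u ∈ v.ring) :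
    ∃ C : Finset QQ, ∀ W : ValuationSubring QQ, (∀ c ∈ C, c ∈ W) → ∀ σ : QQ, σ ∉ W →
      ∃ (x : Place QQ F) (a : QQ), x.At s σ ∧ x.At u a ∧ a ∉ W := by
  classical
  obtain ⟨P, hP, ⟨i, hi⟩, hx⟩ := exists_relation hF hs hu h
  refine ⟨(P.coeff i).support.image (P.coeff i).coeff ∪ {(P.coeff i).leadingCoeff⁻¹},
    fun W hW σ hσ => ?_⟩
  have h1 : ∀ j, (P.coeff i).coeff j ∈ W := by
    intro j
    by_cases hj : (P.coeff i).coeff j = 0
    · rw [hj]
      exact W.zero_mem
    · exact hW _ (Finset.mem_union_left _ (Finset.mem_image_of_mem _ (mem_support_iff.2 hj)))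
  have h2 : (P.coeff i).leadingCoeff⁻¹ ∈ W :=
    hW _ (Finset.mem_union_right _ (Finset.mem_singleton_self _))
  have h3 := eval_ArNear W (P.coeff i) hi h1 h2 hσ
  have h4 : (P.map (evalRingHom σ)).coeff i = (P.coeff i).eval σ := by
    rw [coeff_map, coe_evalRingHom]
  have hm : (P.map (evalRingHom σ)).Monic := hP.map _
  have h5 : P.map (evalRingHom σ) =
      ((P.map (evalRingHom σ)).roots.map fun b => X - C b).prod :=
    (IsAlgClosed.splits _).eq_prod_roots_of_monic hm
  obtain ⟨b, hb, hbW⟩ : ∃ b ∈ (P.map (evalRingHom σ)).roots, b ∉ W := by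
    by_contra hcon
    push Not at hcon
    refine h3 ?_
    rw [← h4, h5]
    exact coeff_ArNear W _ hcon i
  obtain ⟨x, hx1, hx2⟩ := hx σ b (isRoot_of_mem_roots hb)
  exact ⟨x, b, hx1, hx2, hbW⟩

end Pool.Agent.Clo
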