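import Pool.Agent.Dess.Defs

/-!
# The number of conjugates

If the elements `t ^ j * a ^ i`, `j < k`, `i < n`, are linearly independent over `L` and
`t ^ k ∈ L`, then `a` has at least `n` conjugates over `L(t)`.

## Proof

`K = IntermediateField.adjoin L {t}`, an intermediate field of `QQ / L`. `t` is a root of the
monic polynomial `X ^ k - t ^ k` over `L`, so `finrank L K ≤ k`
(`IntermediateField.adjoin.finrank`, `minpoly.natDegree_le_of...` or `minpoly.dvd` and
`Polynomial.natDegree_le_of_dvd`). `a` is integral over `K` (everything is algebraic over `ℚ`;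
`Algebra.IsAlgebraic`, `AlgebraicClosure.isAlgebraic ℚ`). Let `M = K⟮a⟯` (intermediate field of
`QQ / K`), `finrank K M = (minpoly K a).natDegree =: d`, and
`finrank L M = finrank L K * finrank K M ≤ k * d` (`Module.finrank_mul_finrank`). The family
`t ^ j * a ^ i` lies in `M` and is linearly independent over `L`, so
`k * n ≤ finrank L M` (`LinearIndependent.fintype_card_le_finrank`; to see the family in `M` use
`LinearIndependent.of_comp` for the inclusion `M → QQ`), so `n ≤ d` since `k > 0`. `QQ` is
algebraically closed of characteristic zero and the minimal polynomial is separable, so it has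
exactly `d` roots in `QQ` (`Polynomial.card_rootSet_eq_natDegree`, `minpoly.irreducible`,
`Irreducible.separable`, `IsAlgClosed.splits_codomain` or `IsAlgClosed.splits`). For every root `b`
there is an automorphism `ρ` of `QQ` over `K` with `ρ a = b` (`IsAlgClosure.equivOfAlgebraic...`,
or `minpoly.exists_algEquiv_of_root` / `exists_algHom_of_root` with `Normal K QQ`:
`IsAlgClosure.normal` or `normal_of_isAlgClosed...`); restrict scalars to `ℚ` (for instance
through `AlgEquiv.ofRingEquiv` or by building the `ℚ`-algebra equivalence from the ring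
equivalence; every ring equivalence of fields of characteristic zero is `ℚ`-linear). So the root
set is a subset of the set in the statement, which is finite because it consists of roots of
`minpoly ℚ a`; use `Set.ncard_le_ncard` and `Set.ncard_eq_toFinset_card'` or
`Set.ncard_coe_finset`.
-/

set_option autoImplicit false

noncomputable section

namespace Pool.Agent.Clo

open Pool.Agent.ZCyc Pool.Agent.Dess

/-- the degree of `L(t)` -/
private theorem finrank_ArOrb (L : IntermediateField ℚ QQ) {t : QQ} {k : ℕ} (hk : 0 < k)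
    (htk : t ^ k ∈ L) (ht : IsIntegral L t) :
    Module.finrank L (IntermediateField.adjoin L {t}) ≤ k := by
  rw [IntermediateField.adjoin.finrank ht]
  have h0 : (Polynomial.X ^ k - Polynomial.C (⟨t ^ k, htk⟩ : L)).Monic :=
    Polynomial.monic_X_pow_sub_C _ hk.ne'
  have h1 : minpoly L t ∣ Polynomial.X ^ k - Polynomial.C (⟨t ^ k, htk⟩ : L) := by
    refine minpoly.dvd L t ?_
    rw [map_sub, map_pow, Polynomial.aeval_X, Polynomial.aeval_C]
    exact sub_self _
  have h2 := Polynomial.natDegree_le_of_dvd h1 h0.ne_zero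
  rwa [Polynomial.natDegree_X_pow_sub_C] at h2

theorem conj_card (L : IntermediateField ℚ QQ) {t a : QQ} {k n : ℕ} (hk : 0 < k)
    (htk : t ^ k ∈ L)
    (h : LinearIndependent L (fun s : Fin k × Fin n => t ^ (s.1 : ℕ) * a ^ (s.2 : ℕ))) :
    n ≤ {b : QQ | ∃ ρ : Gam, (∀ c ∈ L, ρ c = c) ∧ ρ t = t ∧ ρ a = b}.ncard := by
  have hQ : Algebra.IsAlgebraic ℚ QQ := AlgebraicClosure.isAlgebraic ℚ
  have hL : Algebra.IsAlgebraic L QQ := Algebra.IsAlgebraic.tower_top (K := ℚ) L
  have ht : IsIntegral L t := Algebra.IsIntegral.isIntegral t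
  let K : IntermediateField L QQ := IntermediateField.adjoin L {t}
  have hfK : Module.finrank L K ≤ k := finrank_ArOrb L hk htk ht
  have hK : Algebra.IsAlgebraic K QQ := Algebra.IsAlgebraic.tower_top (K := L) K
  have ha : IsIntegral K a := Algebra.IsIntegral.isIntegral a
  have htK : t ∈ K := IntermediateField.mem_adjoin_simple_self L t
  have hfin1 : FiniteDimensional L K := IntermediateField.adjoin.finiteDimensional ht
  let M : IntermediateField K QQ := IntermediateField.adjoin K {a}
  have hfin2 : FiniteDimensional K M := IntermediateField.adjoin.finiteDimensional ha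
  have hfin3 : FiniteDimensional L M := Module.Finite.trans K M
  have htM : t ∈ M := by
    have := M.algebraMap_mem ⟨t, htK⟩
    exact this
  have haM : a ∈ M := IntermediateField.mem_adjoin_simple_self K a
  have hcard : k * n ≤ Module.finrank L M := by
    have h1 : LinearIndependent L (fun s : Fin k × Fin n =>
        ((⟨t, htM⟩ : M) ^ (s.1 : ℕ) * (⟨a, haM⟩ : M) ^ (s.2 : ℕ))) := by
      refine LinearIndependent.of_comp ((M.val.restrictScalars L).toLinearMap) ?_
      exact h
    have h2 := h1.fintype_card_le_finrank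
    rwa [Fintype.card_prod, Fintype.card_fin, Fintype.card_fin] at h2
  have hd : Module.finrank K M = (minpoly K a).natDegree :=
    IntermediateField.adjoin.finrank ha
  have hn : n ≤ (minpoly K a).natDegree := by
    have h1 := Module.finrank_mul_finrank L K M
    rw [hd] at h1
    have h2 : k * n ≤ k * (minpoly K a).natDegree :=
      (hcard.trans h1.ge).trans (Nat.mul_le_mul_right _ hfK)
    exact Nat.le_of_mul_le_mul_left h2 hk
  have hC : IsAlgClosure K QQ := ⟨inferInstance, hK⟩
  have hN : Normal K QQ := IsAlgClosure.normal K QQ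
  have hsub : (minpoly K a).rootSet QQ ⊆
      {b : QQ | ∃ ρ : Gam, (∀ c ∈ L, ρ c = c) ∧ ρ t = t ∧ ρ a = b} := by
    intro b hb
    have h1 := Polynomial.aeval_eq_zero_of_mem_rootSet hb
    obtain ⟨σ, hσ⟩ := minpoly.exists_algEquiv_of_root (hK.isAlgebraic a) h1
    refine ⟨σ.symm.restrictScalars ℚ, fun c hc => ?_, ?_, ?_⟩
    · exact σ.symm.commutes (algebraMap L K ⟨c, hc⟩)
    · exact σ.symm.commutes ⟨t, htK⟩
    · exact σ.symm_apply_eq.2 hσ.symm
  have hfin : {b : QQ | ∃ ρ : Gam, (∀ c ∈ L, ρ c = c) ∧ ρ t = t ∧ ρ a = b}.Finite := by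
    refine ((minpoly ℚ a).rootSet_finite QQ).subset ?_
    rintro b ⟨ρ, -, -, rfl⟩
    rw [Polynomial.mem_rootSet]
    refine ⟨minpoly.ne_zero (hQ.isAlgebraic a).isIntegral, ?_⟩
    have h1 : Polynomial.aeval (ρ a) (minpoly ℚ a) = ρ (Polynomial.aeval a (minpoly ℚ a)) :=
      Polynomial.aeval_algHom_apply ρ.toAlgHom a _
    rw [h1, minpoly.aeval, map_zero]
  have hroots : ((minpoly K a).rootSet QQ).ncard = (minpoly K a).natDegree := by
    have h1 : (minpoly K a).Separable := (minpoly.irreducible ha).separable
    rw [← Nat.card_coe_set_eq, Nat.card_eq_fintype_card]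
    exact Polynomial.card_rootSet_eq_natDegree h1 (IsAlgClosed.splits _)
  rw [← hroots] at hn
  exact hn.trans (Set.ncard_le_ncard hsub hfin)

end Pool.Agent.Clo
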