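import Pool.Agent.Dess.Dede

/-!
# The equation between two functions and its specialisations

The function `u` is integral over `k[s]`. It satisfies an equation `P(s, u) = 0`, monic in `u`,
such that every solution `(σ, b)` of `P(σ, b) = 0` is given by a point `x`: `s(x) = σ`, `u(x) = b`.

## Proof

Make `F` an algebra over `R = QQ[X]` by `algebraMap = aeval s` (`(aeval s).toRingHom.toAlgebra`, a
`letI`; `IsScalarTower QQ R F`); it is injective since `s` is transcendental, so
`FaithfulSMul R F` / `NoZeroSMulDivisors R F`. `u` is integral over `Algebra.adjoin QQ {s}`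
(`int_of_regular`), whose elements are `aeval s c`, so `u` is integral over `R`: lift the
coefficients of the monic equation (`Polynomial.lifts_and_natDegree_eq_and_monic` or directly
`IsIntegral.tower_bot`-like arguments; the ring map `R → Algebra.adjoin QQ {s}` is surjective,
and `IsIntegral.of_comp`-type lemma: if `f : R → A` is surjective, integral over `A` implies
integral over `R`). Let `P = minpoly R u : R[X] = QQ[X][X]`. It is monic, `aeval u P = 0`, and since
`R` is integrally closed (a PID), `aeval u Q = 0` implies `P ∣ Q`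
(`minpoly.isIntegrallyClosed_dvd`). If all coefficients of `P` are constants `C c_i`, then `u` is a
root of the monic polynomial over `QQ` with coefficients `c_i`, so it is algebraic over `QQ`:
contradiction to `hu`. This is (ii): there is `i` with `(P.coeff i).natDegree ≠ 0`.

(iii) Let `P(σ, b) = 0`, i.e. `(P.map (evalRingHom σ)).eval b = 0`. Let `A : Subring F` be the range
of the ring map `ev = eval₂RingHom (aeval s).toRingHom u : QQ[X][X] → F`, and `I` the ideal of `A`
generated by `s - σ` and `u - b`. `I ≠ ⊤`: if `1 = (s - σ) * g + (u - b) * h` with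
`g = ev G`, `h = ev H`, then `Q = C (X - C σ) * G + (X - C (C b)) * H - 1` has `ev Q = 0`, i.e.
`aeval u Q = 0`, so `Q = P * Q'`; apply the evaluation at `(σ, b)`, i.e. the ring map
`QQ[X][X] → QQ`, `Q ↦ (Q.map (evalRingHom σ)).eval b`: the left side gives `-1`, the right side
gives `0`; contradiction. By `Ideal.image_subset_nonunits_valuationSubring` there is a valuation
ring `V` of `F` which contains `A` and whose nonunits contain `s - σ` and `u - b`; `V` contains the
constants, `V ≠ ⊤` since `s - σ ≠ 0` is a nonunit (`s` is transcendental). Compare the proof of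
`exists_place` in `Pool/Agent/ZCyc/Places.lean`, which is the same argument for one function.
-/

set_option autoImplicit false

noncomputable section

namespace Pool.Agent.Clo

open Pool.Agent.ZCyc Pool.Agent.Dess Polynomial

variable {F : Type} [Field F] [Algebra QQ F]

private theorem lift_int_ArRel {s u : F} (h : IsIntegral (Algebra.adjoin QQ {s}) u) :
    ∃ q : QQ[X][X], q.Monic ∧ q.eval₂ (aeval s : QQ[X] →ₐ[QQ] F).toRingHom u = 0 := by
  obtain ⟨q, hq, hq'⟩ := h
  set f : QQ[X] →+* Algebra.adjoin QQ {s} :=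
    (aeval (⟨s, Algebra.self_mem_adjoin_singleton QQ s⟩ : Algebra.adjoin QQ {s})).toRingHom
    with hf
  have hcomp : (algebraMap (Algebra.adjoin QQ {s}) F).comp f
      = (aeval s : QQ[X] →ₐ[QQ] F).toRingHom := by
    have h1 : ((Algebra.adjoin QQ {s}).val.comp
        (aeval (⟨s, Algebra.self_mem_adjoin_singleton QQ s⟩ : Algebra.adjoin QQ {s})))
        = (aeval s : QQ[X] →ₐ[QQ] F) := by
      apply Polynomial.algHom_ext
      simp
    rw [← h1]
    rfl
  have hl : q ∈ Polynomial.lifts f := by
    rw [Polynomial.lifts_iff_coeff_lifts]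
    intro n
    have hc : ∀ y ∈ Algebra.adjoin QQ {s}, ∃ c : QQ[X], aeval s c = y := by
      intro y hy
      rw [Algebra.adjoin_singleton_eq_range_aeval] at hy
      exact hy
    obtain ⟨c, hc⟩ := hc _ (q.coeff n).2
    refine ⟨c, Subtype.ext ?_⟩
    have h2 := congrArg (fun g : QQ[X] →+* F => g c) hcomp
    exact h2.trans hc
  obtain ⟨q', h1, -, h3⟩ := Polynomial.lifts_and_natDegree_eq_and_monic hl hq
  refine ⟨q', h3, ?_⟩
  rw [← hcomp, ← Polynomial.eval₂_map, h1]
  exact hq'

private theorem exists_min_ArRel {s u : F} (hs : Transcendental QQ s)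
    (h : IsIntegral (Algebra.adjoin QQ {s}) u) :
    ∃ P : QQ[X][X], P.Monic ∧ P.eval₂ (aeval s : QQ[X] →ₐ[QQ] F).toRingHom u = 0 ∧
      ∀ Q : QQ[X][X], Q.eval₂ (aeval s : QQ[X] →ₐ[QQ] F).toRingHom u = 0 → P ∣ Q := by
  let _ : Algebra QQ[X] F := (aeval s : QQ[X] →ₐ[QQ] F).toRingHom.toAlgebra
  have hinj : Function.Injective (algebraMap QQ[X] F) := transcendental_iff_injective.1 hs
  have _ : FaithfulSMul QQ[X] F := (faithfulSMul_iff_algebraMap_injective QQ[X] F).2 hinj
  have hint : IsIntegral QQ[X] u := lift_int_ArRel h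
  refine ⟨minpoly QQ[X] u, minpoly.monic hint, minpoly.aeval QQ[X] u, fun Q hQ => ?_⟩
  exact minpoly.isIntegrallyClosed_dvd hint hQ

private theorem exists_pt_ArRel {s u : F} (hs : Transcendental QQ s) {P : QQ[X][X]}
    (h2 : ∀ Q : QQ[X][X], Q.eval₂ (aeval s : QQ[X] →ₐ[QQ] F).toRingHom u = 0 → P ∣ Q)
    {σ b : QQ} (hb : (P.map (evalRingHom σ)).eval b = 0) :
    ∃ x : Place QQ F, x.At s σ ∧ x.At u b := by
  set ev : QQ[X][X] →+* F := eval₂RingHom (aeval s : QQ[X] →ₐ[QQ] F).toRingHom u with hev
  set A : Subring F := ev.range with hA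
  have hevs : ∀ p : QQ[X], ev (C p) = aeval s p := by
    intro p
    rw [hev, coe_eval₂RingHom, eval₂_C]
    rfl
  have hevu : ev X = u := by
    rw [hev, coe_eval₂RingHom, eval₂_X]
  have hcA : ∀ c : QQ, algebraMap QQ F c ∈ A := by
    intro c
    refine ⟨C (C c), ?_⟩
    rw [hevs, aeval_C]
  have hsA : s - algebraMap QQ F σ ∈ A := by
    refine ⟨C (X - C σ), ?_⟩
    rw [hevs, map_sub, aeval_X, aeval_C]
  have huA : u - algebraMap QQ F b ∈ A := by
    refine ⟨X - C (C b), ?_⟩
    rw [map_sub, hevu, hevs, aeval_C]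
  set I : Ideal A := Ideal.span {⟨s - algebraMap QQ F σ, hsA⟩, ⟨u - algebraMap QQ F b, huA⟩}
    with hI
  have hItop : I ≠ ⊤ := by
    intro h
    rw [Ideal.eq_top_iff_one, hI, Ideal.mem_span_pair] at h
    obtain ⟨⟨g, ⟨G, hG⟩⟩, ⟨g', ⟨H, hH⟩⟩, h1⟩ := h
    have h3 : g * (s - algebraMap QQ F σ) + g' * (u - algebraMap QQ F b) = 1 :=
      congrArg Subtype.val h1
    have h4 : ev (G * C (X - C σ) + H * (X - C (C b)) - 1) = 0 := by
      rw [map_sub, map_add, _root_.map_mul, _root_.map_mul, map_one, hG, hH, hevs, map_sub,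
        aeval_X, aeval_C, map_sub, hevu, hevs, aeval_C, h3, sub_self]
    obtain ⟨Q', hQ'⟩ := h2 _ h4
    have h5 := congrArg (fun Q : QQ[X][X] => (Q.map (evalRingHom σ)).eval b) hQ'
    simp only [Polynomial.map_mul, eval_mul, hb, zero_mul, Polynomial.map_sub,
      Polynomial.map_add, Polynomial.map_one, eval_sub, eval_add, eval_one, Polynomial.map_C,
      Polynomial.map_X, eval_C, eval_X, coe_evalRingHom, sub_self, mul_zero, add_zero,
      zero_sub, neg_eq_zero] at h5
    exact one_ne_zero h5
  obtain ⟨V, hV1, hV2⟩ := Ideal.image_subset_nonunits_valuationSubring I hItop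
  have hmem : s - algebraMap QQ F σ ∈ V.nonunits := by
    apply hV2
    exact ⟨⟨s - algebraMap QQ F σ, hsA⟩, Ideal.subset_span (Set.mem_insert _ _), rfl⟩
  have hmem' : u - algebraMap QQ F b ∈ V.nonunits := by
    apply hV2
    exact ⟨⟨u - algebraMap QQ F b, huA⟩,
      Ideal.subset_span (Set.mem_insert_of_mem _ (Set.mem_singleton _)), rfl⟩
  have hne : s - algebraMap QQ F σ ≠ 0 := by
    intro h
    apply hs
    rw [sub_eq_zero.1 h]
    exact isAlgebraic_algebraMap σ
  refine ⟨⟨V, fun a => hV1 (hcA a), ?_⟩, hmem, hmem'⟩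
  rintro rfl
  rw [ValuationSubring.mem_nonunits_iff_or] at hmem
  rcases hmem with h | h
  · exact hne h
  · exact h (ValuationSubring.mem_top _)

theorem exists_relation (hF : IsCurve QQ F) {s u : F} (hs : Transcendental QQ s)
    (hu : Transcendental QQ u) (h : ∀ v : Place QQ F, s ∈ v.ring → u ∈ v.ring) :
    ∃ P : QQ[X][X], P.Monic ∧ (∃ i, (P.coeff i).natDegree ≠ 0) ∧
      ∀ σ b : QQ, (P.map (evalRingHom σ)).eval b = 0 → ∃ x : Place QQ F, x.At s σ ∧ x.At u b := by
  obtain ⟨P, hP, h1, h2⟩ := exists_min_ArRel hs (int_of_regular hF hs h)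
  refine ⟨P, hP, ?_, fun σ b hb => exists_pt_ArRel hs h2 hb⟩
  by_contra hcon
  push Not at hcon
  apply hu
  refine ⟨P.map (evalRingHom 0), (hP.map _).ne_zero, ?_⟩
  have h3 : P = (P.map (evalRingHom 0)).map C := by
    ext1 i
    rw [coeff_map, coeff_map, coe_evalRingHom]
    obtain ⟨c, hc⟩ := natDegree_eq_zero.1 (hcon i)
    rw [← hc, eval_C]
  have h4 : ((aeval s : QQ[X] →ₐ[QQ] F).toRingHom).comp C = algebraMap QQ F := by
    refine RingHom.ext fun c => ?_
    exact aeval_C s c
  rw [h3, eval₂_map, h4] at h1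
  exact h1

end Pool.Agent.Clo
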