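import Pool.Agent.Clo.ArInt

/-!
# The function `y ^ n / φ ^ e` is a unit near the common pole

At the point `p` the functions `φ` and `y` have poles of orders `n` and `e`. `y` has no other poles,
and it vanishes at all other poles of `φ`. Then `y(x) ^ n / φ(x) ^ e` is a unit of the valuation
ring `W` if `φ(x)` and `y(x)` are not in `W`.

## Proof

Let `w = y ^ n / φ ^ e`. Both `φ` and `y` are transcendental (they have poles, a constant has none;
an element algebraic over the algebraically closed field `QQ` is constant), so are `φ⁻¹` and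
`y⁻¹` (`IsAlgebraic.inv`). (i) `w` and `w⁻¹` are in the ring of `p`: take the uniformizer `π` of
`hφ` and `ϖ` of `hy`; `φ = a π ^ (-n)`, `y = b ϖ ^ (-e)` with units `a`, `b`, and `π / ϖ` is a
unit (`IsUnif`: `π / ϖ` and `ϖ / π` are in the ring), so `w = b ^ n / a ^ e * (π / ϖ) ^ (n e)`.
(ii) If `φ⁻¹ ∈ v.ring` then `w ∈ v.ring`: for `v = p` by (i), for `v ≠ p` we have
`y ∈ v.ring` by `hreg` and `w = y ^ n * (φ⁻¹) ^ e`. (iii) If `y⁻¹ ∈ v.ring` then `w⁻¹ ∈ v.ring`:
for `v = p` by (i). For `v ≠ p` the function `φ` is in `v.ring` (otherwise `y` vanishes at `v` by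
`hvan`, which contradicts `y⁻¹ ∈ v.ring`, `Place.vanishes_iff_or`, `y ≠ 0`), and
`w⁻¹ = φ ^ e * (y⁻¹) ^ n`. Apply `exists_bound_set` to `g = φ⁻¹`, `f = w` and to `g = y⁻¹`,
`f = w⁻¹ = φ ^ e / y ^ n`, and take the union of both finite sets. If `t ∉ W` then `t ≠ 0` and
`t⁻¹ ∈ W` (`ValuationSubring.mem_or_inv_mem`), and `x.At φ⁻¹ t⁻¹` by `Place.At.inv`,
`x.At (y ^ n / φ ^ e) (a ^ n / t ^ e)` by `Place.At.pow`, `Place.At.div`.
-/

set_option autoImplicit false

noncomputable section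

namespace Pool.Agent.Clo

open Pool.Agent.ZCyc Pool.Agent.Dess

variable {F : Type} [Field F] [Algebra QQ F]

private theorem transc_ArUnit (p : Place QQ F) {f : F} (hf : f ∉ p.ring) :
    Transcendental QQ f⁻¹ := by
  intro h
  have h1 : IsAlgebraic QQ f := by simpa using h.inv
  exact hf (int_mem (w := (0 : F)) p (zero_mem _) h1.isIntegral.tower_top)

private theorem val_one_ArUnit (v : Place QQ F) {f : F} (hf : f ≠ 0) (h1 : f ∈ v.ring)
    (h2 : f⁻¹ ∈ v.ring) : v.ring.valuation f = 1 := by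
  rw [← v.ring.valuation_le_one_iff] at h1 h2
  rw [map_inv₀] at h2
  have h3 : v.ring.valuation f ≠ 0 := (Valuation.ne_zero_iff _).2 hf
  exact le_antisymm h1 ((inv_le_one₀ (zero_lt_iff.2 h3)).1 h2)

private theorem val_ArUnit {p : Place QQ F} {f : F} {n : ℕ} (hf : f ≠ 0)
    (h : HasOrd p f (-(n : ℤ))) : ∃ π : F, IsUnif p π ∧
      p.ring.valuation f * p.ring.valuation π ^ n = 1 := by
  obtain ⟨π, hπ, h1, h2⟩ := h
  refine ⟨π, hπ, ?_⟩
  have h3 : f / π ^ (-(n : ℤ)) = f * π ^ n := by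
    rw [zpow_neg, zpow_natCast, div_inv_eq_mul]
  rw [h3] at h1 h2
  rw [← map_pow, ← map_mul]
  exact val_one_ArUnit p (mul_ne_zero hf (pow_ne_zero _ hπ.1)) h1 h2

private theorem pole_ArUnit {p : Place QQ F} {f π : F} {n : ℕ} (hn : 0 < n) (hπ : IsUnif p π)
    (h : p.ring.valuation f * p.ring.valuation π ^ n = 1) : f ∉ p.ring := by
  intro hf
  rw [← p.ring.valuation_le_one_iff] at hf
  have h1 : p.ring.valuation π < 1 := (p.vanishes_iff π).1 hπ.2.1
  have h2 : p.ring.valuation π ^ n < 1 := pow_lt_one₀ zero_le h1 hn.ne'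
  have h3 := mul_lt_one_of_nonneg_of_lt_one_right hf zero_le h2
  rw [h] at h3
  exact lt_irrefl _ h3

theorem unit_of_orders (hF : IsCurve QQ F) {φ y : F} {p : Place QQ F} {n e : ℕ} (hn : 0 < n)
    (he : 0 < e) (hφ : HasOrd p φ (-(n : ℤ))) (hy : HasOrd p y (-(e : ℤ)))
    (hreg : ∀ v : Place QQ F, v ≠ p → y ∈ v.ring)
    (hvan : ∀ v : Place QQ F, v ≠ p → φ ∉ v.ring → v.Vanishes y) :
    ∃ C : Finset QQ, ∀ W : ValuationSubring QQ, (∀ c ∈ C, c ∈ W) → ∀ (x : Place QQ F) (t a : QQ),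
      x.At φ t → x.At y a → t ∉ W → a ∉ W → a ^ n / t ^ e ∈ W ∧ t ^ e / a ^ n ∈ W := by
  by_cases hφ0 : φ = 0
  · refine ⟨∅, fun W _ x t a ht _ htW _ => ?_⟩
    rw [hφ0] at ht
    have h1 := Place.at_const (v := x) (0 : QQ)
    rw [map_zero] at h1
    rw [ht.unique h1] at htW
    exact absurd (zero_mem W) htW
  by_cases hy0 : y = 0
  · refine ⟨∅, fun W _ x t a _ ha _ haW => ?_⟩
    rw [hy0] at ha
    have h1 := Place.at_const (v := x) (0 : QQ)
    rw [map_zero] at h1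
    rw [ha.unique h1] at haW
    exact absurd (zero_mem W) haW
  obtain ⟨π, hπ, hφ1⟩ := val_ArUnit hφ0 hφ
  obtain ⟨ϖ, hϖ, hy1⟩ := val_ArUnit hy0 hy
  have hφp := pole_ArUnit hn hπ hφ1
  have hyp := pole_ArUnit he hϖ hy1
  have hπϖ : p.ring.valuation π = p.ring.valuation ϖ := by
    have h1 := hπ.2.2 ϖ hϖ.2.1
    have h2 := hϖ.2.2 π hπ.2.1
    have h3 := val_one_ArUnit p (div_ne_zero hϖ.1 hπ.1) h1 (by rwa [inv_div])
    rw [map_div₀] at h3
    exact (eq_of_div_eq_one h3).symm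
  have hV : p.ring.valuation (y ^ n / φ ^ e) = 1 := by
    have h0 : p.ring.valuation π ≠ 0 := (Valuation.ne_zero_iff _).2 hπ.1
    have h1 : p.ring.valuation φ = (p.ring.valuation π ^ n)⁻¹ := eq_inv_of_mul_eq_one_left hφ1
    have h2 : p.ring.valuation y = (p.ring.valuation π ^ e)⁻¹ := by
      rw [hπϖ]
      exact eq_inv_of_mul_eq_one_left hy1
    rw [map_div₀, map_pow, map_pow, h1, h2, inv_pow, inv_pow, ← pow_mul, ← pow_mul, mul_comm e n]
    exact div_self (inv_ne_zero (pow_ne_zero _ h0))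
  have hVi : p.ring.valuation (φ ^ e / y ^ n) = 1 := by
    rw [← inv_div, map_inv₀, hV, inv_one]
  obtain ⟨C1, hC1⟩ := exists_bound_set hF (transc_ArUnit p hφp) (f := y ^ n / φ ^ e) (by
    intro v hv
    by_cases hvp : v = p
    · rw [hvp, ← p.ring.valuation_le_one_iff, hV]
    · rw [div_eq_mul_inv, ← inv_pow]
      exact mul_mem (pow_mem (hreg v hvp) _) (pow_mem hv _))
  obtain ⟨C2, hC2⟩ := exists_bound_set hF (transc_ArUnit p hyp) (f := φ ^ e / y ^ n) (by
    intro v hv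
    by_cases hvp : v = p
    · rw [hvp, ← p.ring.valuation_le_one_iff, hVi]
    · rw [div_eq_mul_inv, ← inv_pow]
      refine mul_mem (pow_mem ?_ _) (pow_mem hv _)
      by_contra hcon
      rcases (v.vanishes_iff_or y).1 (hvan v hvp hcon) with h1 | h1
      · exact hy0 h1
      · exact h1 hv)
  classical
  refine ⟨C1 ∪ C2, fun W hW x t a ht ha htW haW => ?_⟩
  have ht0 : t ≠ 0 := by
    rintro rfl
    exact htW (zero_mem W)
  have ha0 : a ≠ 0 := by
    rintro rfl
    exact haW (zero_mem W)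
  have htW' : t⁻¹ ∈ W := (W.mem_or_inv_mem t).resolve_left htW
  have haW' : a⁻¹ ∈ W := (W.mem_or_inv_mem a).resolve_left haW
  exact ⟨hC1 W (fun c hc => hW c (Finset.mem_union_left _ hc)) x t⁻¹ (a ^ n / t ^ e) (ht.inv ht0)
      ((ha.pow n).div (ht.pow e) (pow_ne_zero _ ht0)) htW',
    hC2 W (fun c hc => hW c (Finset.mem_union_right _ hc)) x a⁻¹ (t ^ e / a ^ n) (ha.inv ha0)
      ((ht.pow e).div (ha.pow n) (pow_ne_zero _ ha0)) haW'⟩

end Pool.Agent.Clo
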