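import Pool.Agent.Dess.Defs

/-!
# Values of a number field at an unramified prime

`L` is a number field (a finite extension of `ℚ` in the field of algebraic numbers). For all large
primes `l`, the values of `L` at every valuation ring `W` above `l` are powers of the value of `l`.

## Proof

(Version with the ring of integers.) Let `O = 𝓞 L` (`NumberField L` from `FiniteDimensional ℚ L`)
and `N = |discr L|`. Let `l > N` be a prime; it does not divide `discr L ≠ 0`
(`NumberField.discr_ne_zero`). Let `W` be given, `P = {x ∈ O | x is a nonunit of W}`: this is the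
comap of the maximal ideal of `W` to `O` (`O ≤ W` since `W` is integrally closed and contains `ℤ`),
a prime ideal which contains `l`, so `P ≠ ⊥`, a height one prime. As `l` does not divide the
discriminant, `l` is unramified in `O` (`NumberField.not_dvd_discr_iff_forall_mem`, and
`Algebra.isUnramifiedAt_iff_map_eq`, `Ideal.ramificationIdx_eq_one_of_isUnramifiedAt`), i.e. the
exponent of `P` in the ideal `(l)` is one: `l ∈ P`, `l ∉ P ^ 2`. So the `P`-adic valuation of `l` is
`exp (-1)`; for `c ∈ L`, `c ≠ 0`, let `exp (-j)` be the `P`-adic valuation of `c`: then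
`c / l ^ j` and `l ^ j / c` have `P`-adic valuation one, so both are of the form `x / s` with
`x, s ∈ O`, `s ∉ P` (`IsDedekindDomain.HeightOneSpectrum.exists_primeCompl_mul_eq_of_integer`, see
its use in `Pool/Agent/Dess/Dede.lean`), hence both are in `W` (`s` is a unit of `W`), and
`W.valuation (c / l ^ j) = 1`.

(Elementary version, if the first one is awkward.) `L = ℚ(θ)` with `θ` integral over `ℤ`
(primitive element, `Field.exists_primitive_element`, times an integer), `f` its minimal polynomial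
over `ℤ`, `f` is separable over `ℚ`: `A f + B f' = 1` with `A, B ∈ ℚ[X]`, let `N` be larger than all
denominators in `A, B`. For `l > N` put `R = ℤ_(l)[θ]`, `P = R ∩ nonunits of W`. The residue class
of `θ` in the residue field of `W` has a minimal polynomial `g` over `ZMod l`; `f = g h` mod `l`
with `h(θ) ∉ P` since `f` mod `l` is separable. A lift of `g` gives `P = (l, g(θ))`, and
`g(θ) h(θ) ∈ l R`. So `P R_P = l R_P`, `R_P` is noetherian, thus a discrete valuation ring with
uniformizer `l`, its fraction field is `L`, it is dominated by `W`.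
-/

set_option autoImplicit false

noncomputable section

namespace Pool.Agent.Clo

open Pool.Agent.ZCyc Pool.Agent.Dess

open IsDedekindDomain NumberField

private theorem numberField_ArUnr (L : IntermediateField ℚ QQ) [FiniteDimensional ℚ L] :
    NumberField L := by
  have h0 : CharZero L := inferInstance
  refine { to_charZero := h0, to_finiteDimensional := ?_ }
  have h1 : FiniteDimensional ℚ L := inferInstance
  convert h1

private theorem int_mem_ArUnr (W : ValuationSubring QQ) {x : QQ} (hx : IsIntegral ℤ x) :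
    x ∈ W := by
  have h1 : IsIntegral W x := hx.tower_top
  obtain ⟨y, hy⟩ := (IsIntegrallyClosed.isIntegral_iff (R := W) (K := QQ)).1 h1
  rw [← hy]
  exact y.2

private theorem not_sq_ArUnr {K : Type} [Field K] [NumberField K] {l : ℕ} (hl : l.Prime)
    (hd : ¬ (l : ℤ) ∣ discr K) (P : Ideal (𝓞 K)) [hP : P.IsPrime] (hlP : (l : 𝓞 K) ∈ P) :
    (l : 𝓞 K) ∉ P ^ 2 := by
  intro hcon
  have hpr : Prime (l : ℤ) := Nat.prime_iff_prime_int.1 hl
  have hlP' : ((l : ℤ) : 𝓞 K) ∈ P := by exact_mod_cast hlP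
  have hunr : Algebra.IsUnramifiedAt ℤ P :=
    (NumberField.not_dvd_discr_iff_forall_mem K (𝓞 K) hpr).1 hd P hP hlP'
  have h1 : P.ramificationIdx ℤ = 1 := Ideal.ramificationIdx_eq_one P ℤ
  have hlu : (l : ℤ) ∈ P.under ℤ := by
    rw [Ideal.mem_comap]
    simpa using hlP
  have hne : P.under ℤ ≠ ⊥ := by
    intro h
    rw [h, Ideal.mem_bot] at hlu
    exact hpr.ne_zero hlu
  have h2 : (P.under ℤ).ramificationIdx' P = 1 := by
    rw [Ideal.ramificationIdx'_eq_ramificationIdx (P.under ℤ) P hne, h1]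
  have hsp : Ideal.span {(l : ℤ)} = P.under ℤ := by
    have hmax : (Ideal.span {(l : ℤ)}).IsMaximal :=
      PrincipalIdealRing.isMaximal_of_irreducible hpr.irreducible
    refine hmax.eq_of_le ?_ ?_
    · exact (Ideal.IsPrime.under ℤ P).ne_top
    · rw [Ideal.span_singleton_le_iff_mem]
      exact hlu
  have h3 : Ideal.map (algebraMap ℤ (𝓞 K)) (P.under ℤ) ≤ P ^ 2 := by
    rw [← hsp, Ideal.map_span, Set.image_singleton, Ideal.span_singleton_le_iff_mem]
    simpa using hcon
  have h4 : Ideal.map (algebraMap ℤ (𝓞 K)) (P.under ℤ) ≤ P := Ideal.map_comap_le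
  exact (Ideal.ramificationIdx'_ne_one_iff h4).2 h3 h2

theorem unramified_values (L : IntermediateField ℚ QQ) [FiniteDimensional ℚ L] :
    ∃ N : ℕ, ∀ l : ℕ, l.Prime → N < l → ∀ W : ValuationSubring QQ, (l : QQ) ∈ W.nonunits →
      ∀ c ∈ L, c ≠ 0 → ∃ m : ℤ, W.valuation c = W.valuation (l : QQ) ^ m := by
  have : NumberField L := numberField_ArUnr L
  refine ⟨(discr L).natAbs, fun l hl hN W hW c hc hc0 => ?_⟩
  have hd : ¬ (l : ℤ) ∣ discr L := by
    intro h
    have h1 := Int.natAbs_dvd_natAbs.2 h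
    rw [Int.natAbs_natCast] at h1
    have h2 := Nat.le_of_dvd (Int.natAbs_pos.2 (discr_ne_zero L)) h1
    omega
  have hO : ∀ x : 𝓞 L, (((x : L) : QQ)) ∈ W := fun x =>
    int_mem_ArUnr W ((RingOfIntegers.isIntegral_coe x).map (L.val.restrictScalars ℤ))
  let j : 𝓞 L →+* W :=
    { toFun := fun x => ⟨((x : L) : QQ), hO x⟩
      map_one' := rfl
      map_mul' := fun _ _ => rfl
      map_zero' := rfl
      map_add' := fun _ _ => rfl }
  obtain ⟨P, hPdef⟩ : ∃ P : Ideal (𝓞 L), P = (IsLocalRing.maximalIdeal W).comap j := ⟨_, rfl⟩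
  have hPmem : ∀ x : 𝓞 L, x ∈ P ↔ W.valuation ((x : L) : QQ) < 1 := by
    intro x
    rw [hPdef, Ideal.mem_comap, ValuationSubring.valuation_lt_one_iff]
    rfl
  have hP : P.IsPrime := by
    rw [hPdef]
    exact Ideal.comap_isPrime _ _
  have hlP : (l : 𝓞 L) ∈ P := by
    rw [hPmem]
    have h1 : (((l : 𝓞 L) : L) : QQ) = (l : QQ) := by simp
    rw [h1]
    exact (W.mem_nonunits_iff).1 hW
  have hl2 : (l : 𝓞 L) ∉ P ^ 2 := not_sq_ArUnr hl hd P hlP
  have hl0 : (l : 𝓞 L) ≠ 0 := by
    exact_mod_cast hl.ne_zero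
  have hPne : P ≠ ⊥ := by
    intro h
    rw [h, Ideal.mem_bot] at hlP
    exact hl0 hlP
  let v : HeightOneSpectrum (𝓞 L) := ⟨P, hP, hPne⟩
  have hvl : v.valuation L (l : L) = WithZero.exp (-1 : ℤ) := by
    have h0 : (l : L) = algebraMap (𝓞 L) L (l : 𝓞 L) := by simp
    rw [h0, v.valuation_of_algebraMap, v.intValuation_if_neg hl0]
    have h1 : v.intValuation (l : 𝓞 L) ≤ WithZero.exp (-((1 : ℕ) : ℤ)) :=
      (v.intValuation_le_pow_iff_mem _ _).2 (by rw [pow_one]; exact hlP)
    have h2 : ¬ v.intValuation (l : 𝓞 L) ≤ WithZero.exp (-((2 : ℕ) : ℤ)) := fun h =>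
      hl2 ((v.intValuation_le_pow_iff_mem _ _).1 h)
    rw [v.intValuation_if_neg hl0, WithZero.exp_le_exp] at h1 h2
    congr 1
    push_cast at h1 h2
    omega
  have key : ∀ x : L, v.valuation L x ≤ 1 → W.valuation (x : QQ) ≤ 1 := by
    intro x hx
    obtain ⟨n, e, hne⟩ := v.exists_primeCompl_mul_eq_of_integer (K := L) x hx
    have h1 : W.valuation (((n : L) : QQ)) ≤ 1 := (W.valuation_le_one_iff _).2 (hO n)
    have h2 : W.valuation ((((e : 𝓞 L) : L) : QQ)) = 1 := by
      refine le_antisymm ((W.valuation_le_one_iff _).2 (hO _)) ?_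
      exact not_lt.1 fun h => e.2 ((hPmem _).2 h)
    have h3 : (x : QQ) * (((e : 𝓞 L) : L) : QQ) = ((n : L) : QQ) := by
      exact_mod_cast congrArg (fun y : L => (y : QQ)) hne
    rw [← h3, map_mul, h2, mul_one] at h1
    exact h1
  have hcL : (⟨c, hc⟩ : L) ≠ 0 := fun h => hc0 (congrArg (fun y : L => (y : QQ)) h)
  have hvc : v.valuation L (⟨c, hc⟩ : L) ≠ 0 := (Valuation.ne_zero_iff _).2 hcL
  have hlL : (l : L) ≠ 0 := by exact_mod_cast hl.ne_zero
  have hlQ : (l : QQ) ≠ 0 := by exact_mod_cast hl.ne_zero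
  refine ⟨-WithZero.log (v.valuation L (⟨c, hc⟩ : L)), ?_⟩
  obtain ⟨m, hm⟩ : ∃ m : ℤ, m = -WithZero.log (v.valuation L (⟨c, hc⟩ : L)) := ⟨_, rfl⟩
  rw [← hm]
  have hvm : v.valuation L ((l : L) ^ m) = v.valuation L (⟨c, hc⟩ : L) := by
    rw [map_zpow₀, hvl, ← WithZero.exp_zsmul]
    rw [← WithZero.exp_log hvc]
    congr 1
    rw [smul_eq_mul, hm]
    ring
  have hvm0 : v.valuation L ((l : L) ^ m) ≠ 0 := by
    rw [hvm]
    exact hvc
  have k1 := key ((⟨c, hc⟩ : L) / (l : L) ^ m) (by
    rw [map_div₀, hvm, div_self hvc])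
  have k2 := key ((l : L) ^ m / (⟨c, hc⟩ : L)) (by
    rw [map_div₀, hvm, div_self hvc])
  have e1 : (((⟨c, hc⟩ : L) / (l : L) ^ m : L) : QQ) = c / (l : QQ) ^ m := by
    push_cast
    rfl
  have e2 : (((l : L) ^ m / (⟨c, hc⟩ : L) : L) : QQ) = (l : QQ) ^ m / c := by
    push_cast
    rfl
  rw [e1, map_div₀, map_zpow₀] at k1
  rw [e2, map_div₀, map_zpow₀] at k2
  have hW0 : W.valuation (l : QQ) ^ m ≠ 0 :=
    zpow_ne_zero _ ((Valuation.ne_zero_iff _).2 hlQ)
  have hWc : W.valuation c ≠ 0 := (Valuation.ne_zero_iff _).2 hc0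
  have k1' := (div_le_one₀ (zero_lt_iff.2 hW0)).1 k1
  have k2' := (div_le_one₀ (zero_lt_iff.2 hWc)).1 k2
  exact le_antisymm k1' k2'

end Pool.Agent.Clo
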