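import Pool.Agent.Clo.ArInd
import Pool.Agent.Dess.Defs

/-!
# Ramification and independence

`W` is a valuation ring of the field of algebraic numbers, with valuation `v`. The values of the
field `L` are powers of `v π`. If `v(t) ^ k = 1 / v(π)` and `v(a) ^ n = v(t) ^ e` with `e` prime
to `n`, then the elements `t ^ j * a ^ i`, `j < k`, `i < n`, are linearly independent over `L`.

## Proof

Apply `val_independent` to `ι = Fin k × Fin n`, `b (j, i) = t ^ j * a ^ i`. Non-zero: `t ≠ 0` since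
`v(t) ^ k ≠ 0`, `k > 0`; `a ≠ 0` since `v(a) ^ n = v(t) ^ e ≠ 0`, `n > 0`. Let
`v (t ^ j * a ^ i) = v (c * (t ^ j' * a ^ i'))`, `c ∈ L`, `c ≠ 0`, `v c = v(π) ^ m` with `m : ℤ`
(`hL`). Write `T = v t`, `A = v a`, `P = v π`, elements of a group with zero, all `≠ 0`. We have
`T ^ j * A ^ i = P ^ m * T ^ j' * A ^ i'`. Take the `n`-th power and use `A ^ n = T ^ e`:
`T ^ (n j + e i) = P ^ (n m) * T ^ (n j' + e i')`. Take the `k`-th power and use `T ^ k = P⁻¹`:
`P ^ (-(n j + e i)) = P ^ (k n m - (n j' + e i'))`. As `0 < P < 1` (`hπ`, `hπ0`;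
`ValuationSubring.mem_nonunits_iff`, `Valuation.ne_zero_iff`), the exponents are equal
(`zpow_right_injective₀` or `zpow_right_inj₀`):
`n (j' - j) + e (i' - i) = k n m`. So `n ∣ e (i' - i)`, `n ∣ i' - i` (`e` prime to `n`), and
`|i' - i| < n`, so `i = i'`; then `j' - j = k m`, and `|j' - j| < k`, so `j = j'`.
(`Int.eq_zero_of_abs_lt_dvd` or `Int.emod_emod_of_dvd`, `nlinarith`.)
-/

set_option autoImplicit false

noncomputable section

namespace Pool.Agent.Clo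

open Pool.Agent.ZCyc Pool.Agent.Dess

private theorem int_ArVal {k n e : ℕ} (hn : 0 < n) (hen : Nat.Coprime e n)
    {j j' : Fin k} {i i' : Fin n} {m : ℤ}
    (h : -((n : ℤ) * (j : ℕ) + e * (i : ℕ)) = m * n * k + -((n : ℤ) * (j' : ℕ) + e * (i' : ℕ))) :
    (j, i) = (j', i') := by
  have hi := i.2
  have hi' := i'.2
  have hj := j.2
  have hj' := j'.2
  have h1 : (n : ℤ) ∣ (e : ℤ) * (((i' : ℕ) : ℤ) - ((i : ℕ) : ℤ)) :=
    ⟨m * k - ((j' : ℕ) : ℤ) + ((j : ℕ) : ℤ), by linear_combination h⟩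
  have h2 : IsCoprime (n : ℤ) (e : ℤ) := (Nat.isCoprime_iff_coprime.2 hen).symm
  have h3 := h2.dvd_of_dvd_mul_left h1
  have h4 : ((i' : ℕ) : ℤ) - ((i : ℕ) : ℤ) = 0 := by
    refine Int.eq_zero_of_abs_lt_dvd h3 ?_
    rw [abs_lt]
    omega
  rw [h4] at h1
  have h5 : (n : ℤ) * (((j' : ℕ) : ℤ) - ((j : ℕ) : ℤ)) = n * (k * m) := by
    have h6 : ((i : ℕ) : ℤ) = ((i' : ℕ) : ℤ) := by omega
    rw [h6] at h
    linear_combination h
  have hn' : (n : ℤ) ≠ 0 := by exact_mod_cast hn.ne'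
  have h7 := mul_left_cancel₀ hn' h5
  have h8 : ((j' : ℕ) : ℤ) - ((j : ℕ) : ℤ) = 0 := by
    refine Int.eq_zero_of_abs_lt_dvd ⟨m, h7⟩ ?_
    rw [abs_lt]
    omega
  refine Prod.ext (Fin.ext ?_) (Fin.ext ?_)
  · show (j : ℕ) = (j' : ℕ)
    omega
  · show (i : ℕ) = (i' : ℕ)
    omega

private theorem grp_ArVal {G : Type*} [LinearOrderedCommGroupWithZero G] {P T A : G}
    (hP0 : 0 < P) (hP1 : P < 1) {k n e : ℕ} (hk : 0 < k) (ht : T ^ k * P = 1)
    (ha : A ^ n = T ^ e) {j j' i i' : ℕ} {m : ℤ}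
    (h : T ^ j * A ^ i = P ^ m * (T ^ j' * A ^ i')) :
    -((n : ℤ) * j + e * i) = m * n * k + -((n : ℤ) * j' + e * i') := by
  have hTk : T ^ k = P⁻¹ := eq_inv_of_mul_eq_one_left ht
  have key : ∀ j i : ℕ, ((T ^ j * A ^ i) ^ n) ^ k = P ^ (-((n : ℤ) * j + e * i)) := by
    intro j i
    have h1 : (T ^ j * A ^ i) ^ n = T ^ (n * j + e * i) := by
      rw [mul_pow, ← pow_mul, ← pow_mul, mul_comm j n, mul_comm i n, pow_mul A n i, ha,
        ← pow_mul, ← pow_add]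
    rw [h1, ← pow_mul, mul_comm _ k, pow_mul, hTk, zpow_neg, inv_pow]
    norm_cast
  have h2 := congrArg (fun x => (x ^ n) ^ k) h
  beta_reduce at h2
  rw [key, mul_pow, mul_pow, key, ← zpow_natCast, ← zpow_natCast, ← zpow_mul, ← zpow_mul,
    ← zpow_add₀ hP0.ne'] at h2
  have h3 := zpow_right_injective₀ hP0 hP1.ne h2
  linear_combination h3

theorem power_independent (W : ValuationSubring QQ) (L : IntermediateField ℚ QQ) {π t a : QQ}
    (hπ0 : π ≠ 0) (hπ : π ∈ W.nonunits)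
    (hL : ∀ c ∈ L, c ≠ 0 → ∃ m : ℤ, W.valuation c = W.valuation π ^ m) {k n e : ℕ} (hk : 0 < k)
    (hn : 0 < n) (ht : W.valuation t ^ k * W.valuation π = 1)
    (ha : W.valuation a ^ n = W.valuation t ^ e) (hen : Nat.Coprime e n) :
    LinearIndependent L (fun s : Fin k × Fin n => t ^ (s.1 : ℕ) * a ^ (s.2 : ℕ)) := by
  have hP0 : 0 < W.valuation π := zero_lt_iff.2 ((Valuation.ne_zero_iff _).2 hπ0)
  have hP1 : W.valuation π < 1 := (W.mem_nonunits_iff).1 hπ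
  have hT0 : W.valuation t ≠ 0 := by
    intro h0
    rw [h0, zero_pow hk.ne', zero_mul] at ht
    exact zero_ne_one ht
  have hA0 : W.valuation a ≠ 0 := by
    intro h0
    rw [h0, zero_pow hn.ne'] at ha
    exact pow_ne_zero e hT0 ha.symm
  refine val_independent W L _ (fun s => ?_) ?_
  · exact mul_ne_zero (pow_ne_zero _ ((Valuation.ne_zero_iff _).1 hT0))
      (pow_ne_zero _ ((Valuation.ne_zero_iff _).1 hA0))
  · rintro ⟨j, i⟩ ⟨j', i'⟩ c hc hc0 h
    obtain ⟨m, hm⟩ := hL c hc hc0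
    have h1 : W.valuation (t ^ (j : ℕ) * a ^ (i : ℕ)) =
      W.valuation (c * (t ^ (j' : ℕ) * a ^ (i' : ℕ))) := h
    rw [map_mul, map_mul, map_mul, map_pow, map_pow, map_pow, map_pow, hm] at h1
    exact int_ArVal hn hen (grp_ArVal hP0 hP1 hk ht ha h1)

end Pool.Agent.Clo
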