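import Mathlib

/-!
# Jordan's theorem for cycles of prime order

PROOF. If `p = 3` then `g` is a 3-cycle and
`Equiv.Perm.alternatingGroup_le_of_isPreprimitive_of_isThreeCycle_mem` applies. Let `p ≠ 3`. Let
`s` be the complement of the support of `g`; it has `N - p ≥ 3` elements. As in the proof of that
theorem in `Mathlib/GroupTheory/GroupAction/Jordan.lean` (`isPretransitive_of_isCycle_mem`,
`IsPreprimitive.of_prime_card`, `hG.isMultiplyPreprimitive`) the group `G` is `(N - p + 1)`-fold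
transitive. So for every permutation `τ` of `s` there is `h` in `G` with `h = τ` on `s`. Let
`K` be the subgroup of the elements of `G` which fix `s` pointwise, `P` the subgroup generated by
`g`, of order `p`. `K` acts faithfully on the support of `g`, which has `p` elements, so the order
of
`K` divides `p!`, which is not divisible by `p ^ 2`; so `P` is a Sylow `p`-subgroup of `K`. If `h ∈
G`
maps `s` to `s`, then `h P h⁻¹` is another Sylow subgroup of `K`, so there is `k ∈ K` such that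
`k h` normalizes `P`, and `k h = h` on `s`. So for every permutation `τ` of `s` there is an element
`h τ` of `G` which normalizes `P` with `h τ = τ` on `s`. A commutator of two such elements
centralizes `P`, since the automorphism group of the cyclic group `P` is commutative (if
`h g h⁻¹ = g ^ i` and `h' g h'⁻¹ = g ^ j`, the commutator maps `g` to `g`). Let `a, b, c` be three
elements of `s`; the commutator of the transpositions `(a b)` and `(a c)` is a 3-cycle. So there is
`u ∈ G` which commutes with `g` and which is a 3-cycle on `s`. On the support of `g` it is a power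
of `g` (it commutes with the cycle `g`: if `u x = g ^ i x` for one point `x` of the support then
this holds for all points). So `u ^ p` is trivial on the support of `g`, and on `s` it is the
`p`-th power of a 3-cycle, a 3-cycle since `p ≠ 3`. Apply the theorem on 3-cycles to `u ^ p`.
-/

set_option autoImplicit false

noncomputable section

open scoped Pointwise

namespace Pool.Agent.Clo

private theorem BJordan_ais {α : Type} (f : Equiv.Perm α) (x : α) : f (f⁻¹ x) = x :=
  Equiv.apply_symm_apply f x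

private theorem BJordan_pow {α : Type} {u v : Equiv.Perm α} {Q : α → Prop}
    (hv : ∀ x, Q x → Q (v x)) (h : ∀ x, Q x → u x = v x) (n : ℕ) :
    ∀ x, Q x → (u ^ n) x = (v ^ n) x := by
  induction n with
  | zero => intro x _; rfl
  | succ n ih =>
    intro x hx
    rw [pow_succ, pow_succ, Equiv.Perm.mul_apply, Equiv.Perm.mul_apply, h x hx]
    exact ih _ (hv x hx)

/-- the subgroup of the elements of `G` which fix every fixed point of `g` -/
private def BJordan_K {α : Type} (G : Subgroup (Equiv.Perm α)) (g : Equiv.Perm α) :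
    Subgroup (Equiv.Perm α) where
  carrier := {k | k ∈ G ∧ ∀ x, g x = x → k x = x}
  mul_mem' := by
    rintro a b ⟨ha, ha'⟩ ⟨hb, hb'⟩
    refine ⟨G.mul_mem ha hb, fun x hx => ?_⟩
    rw [Equiv.Perm.mul_apply, hb' x hx, ha' x hx]
  one_mem' := ⟨G.one_mem, fun x _ => rfl⟩
  inv_mem' := by
    rintro a ⟨ha, ha'⟩
    refine ⟨G.inv_mem ha, fun x hx => ?_⟩
    rw [Equiv.Perm.inv_eq_iff_eq, ha' x hx]

private theorem BJordan_card {α : Type} [Fintype α] [DecidableEq α]
    (G : Subgroup (Equiv.Perm α)) (g : Equiv.Perm α) :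
    Nat.card (BJordan_K G g) ∣ (g.support.card).factorial := by
  have h1 : BJordan_K G g ≤ BJordan_K ⊤ g := fun k hk => ⟨Subgroup.mem_top _, hk.2⟩
  refine (Subgroup.card_dvd_of_le h1).trans (dvd_of_eq ?_)
  have h2 : Nat.card (Equiv.Perm {a // a ∈ g.support}) =
      Nat.card {f : Equiv.Perm α // ∀ a, ¬ a ∈ g.support → f a = a} :=
    Nat.card_congr (Equiv.Perm.subtypeEquivSubtypePerm (fun a => a ∈ g.support))
  have h3 : Nat.card (BJordan_K ⊤ g) =
      Nat.card {f : Equiv.Perm α // ∀ a, ¬ a ∈ g.support → f a = a} := by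
    refine Nat.card_congr (Equiv.subtypeEquivRight fun f => ?_)
    constructor
    · intro hf a ha
      exact hf.2 a (Equiv.Perm.notMem_support.1 ha)
    · intro hf
      exact ⟨Subgroup.mem_top _, fun a ha => hf a (Equiv.Perm.notMem_support.2 ha)⟩
  rw [h3, ← h2, Nat.card_perm, Nat.card_eq_fintype_card, Fintype.card_coe]

private theorem BJordan_conj {α : Type} [Fintype α] [DecidableEq α]
    {G : Subgroup (Equiv.Perm α)} {p : ℕ} (hp : p.Prime) {g g' : Equiv.Perm α}
    (hgc : g.IsCycle) (hgp : g.support.card = p) (hg : g ∈ G) (hgc' : g'.IsCycle)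
    (hs : g'.support = g.support) (hg' : g' ∈ G) :
    ∃ k ∈ G, (∀ x, g x = x → k x = x) ∧ ∃ j : ℤ, k * g' * k⁻¹ = g ^ j := by
  have : Fact p.Prime := ⟨hp⟩
  have hgK : g ∈ BJordan_K G g := ⟨hg, fun x hx => hx⟩
  have hgK' : g' ∈ BJordan_K G g := by
    refine ⟨hg', fun x hx => ?_⟩
    rw [← Equiv.Perm.notMem_support, hs, Equiv.Perm.notMem_support]
    exact hx
  have ho : orderOf (⟨g, hgK⟩ : BJordan_K G g) = p := by
    rw [Subgroup.orderOf_mk, hgc.orderOf, hgp]
  have ho' : orderOf (⟨g', hgK'⟩ : BJordan_K G g) = p := by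
    rw [Subgroup.orderOf_mk, hgc'.orderOf, hs, hgp]
  have hpK : p ∣ Nat.card (BJordan_K G g) := by
    have h1 := orderOf_dvd_natCard (⟨g, hgK⟩ : BJordan_K G g)
    rwa [ho] at h1
  have hp2 : ¬ p ^ 2 ∣ Nat.card (BJordan_K G g) := by
    intro h
    have h1 : p ^ 2 ∣ p.factorial := by
      refine h.trans ?_
      have h2 := BJordan_card G g
      rwa [hgp] at h2
    have h3 : p.factorial = p * (p - 1).factorial := (Nat.mul_factorial_pred hp.ne_zero).symm
    rw [h3, pow_two] at h1
    have h4 := Nat.dvd_of_mul_dvd_mul_left hp.pos h1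
    have h5 := (Nat.Prime.dvd_factorial hp).1 h4
    have h6 := hp.pos
    omega
  have hf : (Nat.card (BJordan_K G g)).factorization p = 1 := by
    have hne : Nat.card (BJordan_K G g) ≠ 0 := Nat.card_pos.ne'
    refine le_antisymm ?_ ?_
    · by_contra h
      exact hp2 ((hp.pow_dvd_iff_le_factorization hne).2 (by omega))
    · refine (hp.pow_dvd_iff_le_factorization hne).1 ?_
      rwa [pow_one]
  have hP : Nat.card (Subgroup.zpowers (⟨g, hgK⟩ : BJordan_K G g)) =
      p ^ (Nat.card (BJordan_K G g)).factorization p := by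
    rw [Nat.card_zpowers, ho, hf, pow_one]
  have hP' : Nat.card (Subgroup.zpowers (⟨g', hgK'⟩ : BJordan_K G g)) =
      p ^ (Nat.card (BJordan_K G g)).factorization p := by
    rw [Nat.card_zpowers, ho', hf, pow_one]
  obtain ⟨k, hk⟩ := MulAction.exists_smul_eq (BJordan_K G g) (Sylow.ofCard _ hP')
    (Sylow.ofCard _ hP)
  have h1 : MulAut.conj k • (⟨g', hgK'⟩ : BJordan_K G g) ∈
      MulAut.conj k • Subgroup.zpowers (⟨g', hgK'⟩ : BJordan_K G g) :=
    Subgroup.smul_mem_pointwise_smul _ _ _ (Subgroup.mem_zpowers _)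
  have h2 : MulAut.conj k • Subgroup.zpowers (⟨g', hgK'⟩ : BJordan_K G g) =
      Subgroup.zpowers (⟨g, hgK⟩ : BJordan_K G g) := by
    have h3 := congrArg Sylow.toSubgroup hk
    rw [Sylow.coe_subgroup_smul] at h3
    exact h3
  rw [h2, Subgroup.mem_zpowers_iff] at h1
  obtain ⟨j, hj⟩ := h1
  refine ⟨k, k.2.1, k.2.2, j, ?_⟩
  have h3 := congrArg (Subtype.val : BJordan_K G g → Equiv.Perm α) hj
  exact h3.symm

private theorem BJordan_lift {α : Type} [Fintype α] [DecidableEq α]
    {G : Subgroup (Equiv.Perm α)} {p : ℕ} (hp : p.Prime) {g : Equiv.Perm α}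
    (hgc : g.IsCycle) (hgp : g.support.card = p) (hg : g ∈ G) {n : ℕ}
    (hn : (g.supportᶜ).card = n) (htr : MulAction.IsMultiplyPretransitive G α n)
    {τ : Equiv.Perm α} (hτ : ∀ x, g x ≠ x → τ x = x) :
    ∃ h ∈ G, (∀ x, g x = x → h x = τ x) ∧ ∃ j : ℤ, h * g * h⁻¹ = g ^ j := by
  have hτs : ∀ x, g x = x → g (τ x) = τ x := by
    intro x hx
    by_contra h
    have h1 := hτ (τ x) h
    rw [τ.injective h1] at h
    exact h hx
  have hτs' : ∀ x, g x = x → g (τ⁻¹ x) = τ⁻¹ x := by
    intro x hx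
    by_contra h
    have h1 := hτ (τ⁻¹ x) h
    rw [BJordan_ais] at h1
    rw [← h1] at h
    exact h hx
  have e : Fin n ≃ {x // x ∈ g.supportᶜ} := (Finset.equivFinOfCardEq hn).symm
  obtain ⟨h₁, hh₁⟩ := MulAction.exists_smul_eq G
    (e.toEmbedding.trans (Function.Embedding.subtype _))
    ((e.toEmbedding.trans (Function.Embedding.subtype _)).trans τ.toEmbedding)
  have hx1 : ∀ x, g x = x → (h₁ : Equiv.Perm α) x = τ x := by
    intro x hx
    have hxs : x ∈ g.supportᶜ := by
      rw [Finset.mem_compl, Equiv.Perm.notMem_support]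
      exact hx
    have h1 := DFunLike.congr_fun hh₁ (e.symm ⟨x, hxs⟩)
    have h2 : (e.toEmbedding.trans (Function.Embedding.subtype _)) (e.symm ⟨x, hxs⟩) = x := by
      show ((e (e.symm ⟨x, hxs⟩) : {x // x ∈ g.supportᶜ}) : α) = x
      rw [Equiv.apply_symm_apply]
    have h3 : (h₁ : Equiv.Perm α)
        ((e.toEmbedding.trans (Function.Embedding.subtype _)) (e.symm ⟨x, hxs⟩)) =
        τ ((e.toEmbedding.trans (Function.Embedding.subtype _)) (e.symm ⟨x, hxs⟩)) := h1
    rw [h2] at h3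
    exact h3
  have hx2 : ∀ x, g x = x → g ((h₁ : Equiv.Perm α) x) = (h₁ : Equiv.Perm α) x := by
    intro x hx
    rw [hx1 x hx]
    exact hτs x hx
  have hx3 : ∀ x, g x = x →
      g ((h₁ : Equiv.Perm α)⁻¹ x) = (h₁ : Equiv.Perm α)⁻¹ x := by
    intro x hx
    have h1 : (h₁ : Equiv.Perm α)⁻¹ x = τ⁻¹ x := by
      rw [Equiv.Perm.inv_eq_iff_eq, hx1 _ (hτs' x hx), BJordan_ais]
    rw [h1]
    exact hτs' x hx
  have hsupp : ((h₁ : Equiv.Perm α) * g * (h₁ : Equiv.Perm α)⁻¹).support = g.support := by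
    ext x
    rw [Equiv.Perm.mem_support, Equiv.Perm.mem_support, not_iff_not, Equiv.Perm.mul_apply,
      Equiv.Perm.mul_apply]
    constructor
    · intro hx
      have h1 : g ((h₁ : Equiv.Perm α)⁻¹ x) = (h₁ : Equiv.Perm α)⁻¹ x := by
        rw [eq_comm, Equiv.Perm.inv_eq_iff_eq]
        exact hx.symm
      have h2 := hx2 _ h1
      rwa [BJordan_ais] at h2
    · intro hx
      rw [hx3 x hx, BJordan_ais]
  obtain ⟨k, hkG, hkx, j, hj⟩ := BJordan_conj hp hgc hgp hg (hgc.conj) hsupp
    (G.mul_mem (G.mul_mem h₁.2 hg) (G.inv_mem h₁.2))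
  refine ⟨k * h₁, G.mul_mem hkG h₁.2, ?_, j, ?_⟩
  · intro x hx
    rw [Equiv.Perm.mul_apply, hkx _ (hx2 x hx), hx1 x hx]
  · rw [← hj]
    group

theorem jordan_prime {α : Type} [Fintype α] [DecidableEq α] {G : Subgroup (Equiv.Perm α)}
    (hG : MulAction.IsPreprimitive G α) {p : ℕ} (hp : p.Prime) (hp' : p + 3 ≤ Nat.card α)
    {g : Equiv.Perm α} (hgc : g.IsCycle) (hgp : g.support.card = p) (hg : g ∈ G) :
    alternatingGroup α ≤ G := by
  by_cases hp3 : p = 3
  · refine Equiv.Perm.alternatingGroup_le_of_isPreprimitive_of_isThreeCycle_mem hG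
      (g := g) ?_ hg
    rw [← card_support_eq_three_iff, hgp, hp3]
  have hp2 := hp.two_le
  obtain ⟨n, hn⟩ : ∃ n, Nat.card α = n + 1 + p := ⟨Nat.card α - p - 1, by omega⟩
  have hcc : (g.supportᶜ).card = n + 1 := by
    rw [Finset.card_compl, hgp, ← Nat.card_eq_fintype_card, hn]
    omega
  have hmp : MulAction.IsMultiplyPreprimitive G α (n + 2) := by
    refine hG.isMultiplyPreprimitive (s := (g.supportᶜ : Set α)) ?_ (by omega) ?_
    · apply Nat.add_left_cancel (n := (g.support : Set α).ncard)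
      rw [Set.ncard_add_ncard_compl, Set.ncard_coe_finset, hgp, hn]
      omega
    · have := Equiv.Perm.isPretransitive_of_isCycle_mem hgc hg
      apply MulAction.IsPreprimitive.of_prime_card
      have h1 : Nat.card (SubMulAction.ofFixingSubgroup G ((g.support : Set α)ᶜ)) = p := by
        classical
        rw [Nat.card_eq_fintype_card, Fintype.card_subtype, ← hgp]
        apply congr_arg
        ext x
        simp [SubMulAction.mem_ofFixingSubgroup_iff]
      rw [h1]
      exact hp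
  have h2 : MulAction.IsMultiplyPretransitive G α (n + 2) :=
    hmp.isMultiplyPretransitive
  have htr : MulAction.IsMultiplyPretransitive G α (n + 1) :=
    MulAction.isMultiplyPretransitive_of_le (n := n + 2) (by omega) (by omega)
  obtain ⟨a, b, c, ha, hb, hc, hab, hac, hbc⟩ := Finset.two_lt_card_iff.1
    (show 2 < (g.supportᶜ).card by omega)
  rw [Finset.mem_compl, Equiv.Perm.notMem_support] at ha hb hc
  have hsw : ∀ y z : α, g y = y → g z = z → ∀ x, g x ≠ x → Equiv.swap y z x = x := by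
    intro y z hy hz x hx
    refine Equiv.swap_apply_of_ne_of_ne ?_ ?_
    · rintro rfl
      exact hx hy
    · rintro rfl
      exact hx hz
  have hsw' : ∀ y z : α, g y = y → g z = z → ∀ x, g x = x →
      g (Equiv.swap y z x) = Equiv.swap y z x := by
    intro y z hy hz x hx
    by_cases h1 : x = y
    · rw [h1, Equiv.swap_apply_left]; exact hz
    · by_cases h2 : x = z
      · rw [h2, Equiv.swap_apply_right]; exact hy
      · rw [Equiv.swap_apply_of_ne_of_ne h1 h2]; exact hx
  obtain ⟨h₁, hh₁, h₁x, j₁, hj₁⟩ := BJordan_lift hp hgc hgp hg hcc htr (hsw a b ha hb)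
  obtain ⟨h₂, hh₂, h₂x, j₂, hj₂⟩ := BJordan_lift hp hgc hgp hg hcc htr (hsw a c ha hc)
  set T := Equiv.swap a b * Equiv.swap a c with hT
  have hT3 : T.IsThreeCycle := Equiv.Perm.isThreeCycle_swap_mul_swap_same hab hac hbc
  set u := (h₂ * h₁)⁻¹ * (h₁ * h₂) with hu
  have huG : u ∈ G := G.mul_mem (G.inv_mem (G.mul_mem hh₂ hh₁)) (G.mul_mem hh₁ hh₂)
  have hTs : ∀ x, g x = x → g (T x) = T x := by
    intro x hx
    rw [hT, Equiv.Perm.mul_apply]
    exact hsw' _ _ ha hb _ (hsw' _ _ ha hc _ hx)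
  have hT2s : ∀ x, g x = x → g ((T ^ 2) x) = (T ^ 2) x := by
    intro x hx
    rw [pow_two, Equiv.Perm.mul_apply]
    exact hTs _ (hTs x hx)
  have hus : ∀ x, g x = x → u x = (T ^ 2) x := by
    intro x hx
    rw [hu, Equiv.Perm.mul_apply, Equiv.Perm.inv_eq_iff_eq, Equiv.Perm.mul_apply,
      Equiv.Perm.mul_apply, h₁x _ (hT2s x hx), h₂x _ (hsw' _ _ ha hb _ (hT2s x hx)),
      h₂x x hx, h₁x _ (hsw' _ _ ha hc _ hx), pow_two, Equiv.Perm.mul_apply, hT,
      Equiv.Perm.mul_apply, Equiv.Perm.mul_apply, Equiv.swap_apply_self, Equiv.swap_apply_self]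
  have hcomm : Commute u g := by
    have h3 : h₁ * h₂ * g * (h₁ * h₂)⁻¹ = h₂ * h₁ * g * (h₂ * h₁)⁻¹ := by
      have h4 : h₁ * h₂ * g * (h₁ * h₂)⁻¹ = h₁ * (h₂ * g * h₂⁻¹) * h₁⁻¹ := by group
      have h5 : h₂ * h₁ * g * (h₂ * h₁)⁻¹ = h₂ * (h₁ * g * h₁⁻¹) * h₂⁻¹ := by group
      rw [h4, h5, hj₁, hj₂, ← conj_zpow, ← conj_zpow, hj₁, hj₂, ← zpow_mul, ← zpow_mul,
        mul_comm]
    show u * g = g * u
    have h4 : u * g = (h₂ * h₁)⁻¹ * (h₁ * h₂ * g * (h₁ * h₂)⁻¹) * (h₁ * h₂) := by
      rw [hu]; group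
    rw [h4, h3, hu]
    group
  have hud : ∀ x, g x ≠ x → (u ^ p) x = x := by
    obtain ⟨x₀, hx₀, hcyc⟩ := hgc
    have hux₀ : g (u x₀) ≠ u x₀ := by
      intro h
      have h3 : g (u x₀) = u (g x₀) := by
        rw [← Equiv.Perm.mul_apply, ← Equiv.Perm.mul_apply, hcomm.eq]
      rw [h3] at h
      exact hx₀ (u.injective h)
    obtain ⟨i, hi⟩ := hcyc hux₀
    have h3 : ∀ x, g x ≠ x → u x = (g ^ i) x := by
      intro x hx
      obtain ⟨j, hj⟩ := hcyc hx
      have h4 : Commute u (g ^ j) := hcomm.zpow_right j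
      rw [← hj, ← Equiv.Perm.mul_apply, h4.eq, Equiv.Perm.mul_apply, ← hi,
        ← Equiv.Perm.mul_apply, ← Equiv.Perm.mul_apply, ← zpow_add, ← zpow_add, add_comm]
    have h4 : ∀ x, g x ≠ x → g ((g ^ i) x) ≠ (g ^ i) x := by
      intro x hx h
      have h5 : g ((g ^ i) x) = (g ^ i) (g x) := by
        rw [← Equiv.Perm.mul_apply, ← Equiv.Perm.mul_apply,
          ((Commute.refl g).zpow_right i).eq]
      rw [h5] at h
      exact hx ((g ^ i).injective h)
    intro x hx
    rw [BJordan_pow h4 h3 p x hx]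
    have h5 : g ^ p = 1 := by
      have h6 : orderOf g = p := by
        rw [Equiv.Perm.IsCycle.orderOf ⟨x₀, hx₀, hcyc⟩, hgp]
      rw [← h6]
      exact pow_orderOf_eq_one g
    rw [← zpow_natCast, ← zpow_mul, mul_comm, zpow_mul, zpow_natCast, h5, one_zpow]
    rfl
  have hTd : ∀ x, g x ≠ x → T x = x := by
    intro x hx
    rw [hT, Equiv.Perm.mul_apply, hsw a c ha hc x hx, hsw a b ha hb x hx]
  have hup : u ^ p = (T ^ 2) ^ p := by
    ext x
    by_cases hx : g x = x
    · exact BJordan_pow hT2s hus p x hx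
    · rw [hud x hx, ← pow_mul]
      have h3 := BJordan_pow (u := T) (v := 1) (Q := fun x => g x ≠ x)
        (fun x hx => hx) (fun x hx => hTd x hx) (2 * p) x hx
      rw [h3, one_pow]
      rfl
  have hTG : T ∈ G := by
    have h3 : (u ^ p) ^ (2 * p) ∈ G := G.pow_mem (G.pow_mem huG p) _
    have h4 : (u ^ p) ^ (2 * p) = T := by
      rw [hup, ← pow_mul, ← pow_mul, ← pow_mod_orderOf, hT3.orderOf]
      have h5 : ¬ 3 ∣ p := by
        intro h
        exact hp3 ((Nat.prime_dvd_prime_iff_eq Nat.prime_three hp).1 h).symm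
      have h6 : 2 * (p * (2 * p)) % 3 = 1 := by
        have h7 : p % 3 = 1 ∨ p % 3 = 2 := by omega
        have h8 : 2 * (p * (2 * p)) = 4 * (p * p) := by ring
        rw [h8, Nat.mul_mod, Nat.mul_mod p p]
        rcases h7 with h7 | h7 <;> rw [h7]
      rw [h6, pow_one]
    rwa [h4] at h3
  exact Equiv.Perm.alternatingGroup_le_of_isPreprimitive_of_isThreeCycle_mem hG hT3 hTG

end Pool.Agent.Clo
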