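import Pool.Agent.Clo.MPow

/-!
# The values of `L(t)`

PROOF. Every element `d` of `L(t)` is a polynomial in `t` of degree `< k` with coefficients in `L`
(`t ^ k ∈ L`): `d = ∑ c j t ^ j`. The values of the nonzero terms are different: suppose that
`c j t ^ j` and `c i t ^ i` have the same value, `i < j`. Then the value of `t ^ (j - i)` is a
value of
`L`; its `k`-th power is `W(π) ^ (-(j - i))`, so `W(π) ^ s = C ^ k` with `s = j - i`, `0 < s < k`
and
a value `C` of `L`. Divide `s` and `k` by their greatest common divisor `g` (the group of values has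
no torsion, it is ordered): `W(π) ^ (s / g) = C ^ (k / g)` and `k / g > 1`; let `p'` be a prime
divisor
of `k / g`; it does not divide `s / g`, so `W(π)` is the `p'`-th power of a value of `L` (as in the
docstring of `MPow.lean`), a contradiction. So the value of `d ≠ 0` is the value of one term
`c t ^ j`, `c ∈ L`. Suppose that `W(d) ^ p = W(t)`. Then `W(t) ^ (1 - p j) = W(c) ^ p`; raise to the
power `k`: `W(π) ^ (p j - 1) = W(c) ^ (p k)`. Since `p j - 1` is prime to `p`, `W(π)` is the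
`p`-th power of a value of `L`, a contradiction to `hdiv`.
-/

set_option autoImplicit false

noncomputable section

namespace Pool.Agent.Clo

open Pool.Agent.ZCyc Pool.Agent.Dess

/-- an equality of powers, with an indivisible value -/
private theorem dvd_BVal {G : Type*} [LinearOrderedCommGroupWithZero G] {P C : G}
    (hP0 : P ≠ 0) (N : ℕ) (hN : 0 < N)
    (hdiv : ∀ p : ℕ, p.Prime → p ∣ N → ∀ u v : ℤ, (C ^ u * P ^ v) ^ p ≠ P) (s : ℤ)
    (h : P ^ s = C ^ N) : (N : ℤ) ∣ s := by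
  induction N using Nat.strong_induction_on generalizing s with
  | _ N ih =>
    by_cases h1 : N = 1
    · rw [h1]
      exact one_dvd s
    obtain ⟨p, hp, hpN⟩ := Nat.exists_prime_and_dvd h1
    obtain ⟨N', rfl⟩ := hpN
    have hN' : 0 < N' := Nat.pos_of_mul_pos_left hN
    by_cases hps : (p : ℤ) ∣ s
    · obtain ⟨s', rfl⟩ := hps
      have h2 : (P ^ s') ^ p = (C ^ N') ^ p := by
        rw [← zpow_natCast, ← zpow_mul, mul_comm s', h, ← pow_mul, mul_comm]
      have h3 : P ^ s' = C ^ N' := (pow_left_inj₀ zero_le zero_le hp.ne_zero).1 h2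
      have h4 := ih N' (by
        have := hp.two_le
        nlinarith) hN' (fun p' hp' hd => hdiv p' hp' (hd.mul_left p)) s' h3
      push_cast
      exact mul_dvd_mul_left _ h4
    · have h2 : IsCoprime s (p : ℤ) :=
        ((Nat.prime_iff_prime_int.1 hp).coprime_iff_not_dvd.2 hps).symm
      obtain ⟨u, v, huv⟩ := h2
      refine absurd ?_ (hdiv p hp (Dvd.intro _ rfl) (N' * u) v)
      have h3 : (C ^ ((N' : ℤ) * u) * P ^ v) ^ p = P ^ (u * s + v * p) := by
        rw [zpow_add₀ hP0, mul_comm u s, zpow_mul P s u, h, mul_pow, ← zpow_natCast (C ^ _) p,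
          ← zpow_mul, ← zpow_natCast (P ^ v) p, ← zpow_mul, ← zpow_natCast C, ← zpow_mul]
        push_cast
        congr 2
        ring
      rw [h3, huv, zpow_one]

private theorem grp1_BVal {G : Type*} [LinearOrderedCommGroupWithZero G] {P T C D : G}
    (hP0 : P ≠ 0) {k : ℕ} (ht : T ^ k * P = 1) (hD0 : D ≠ 0) {i j : ℕ}
    (h : C * T ^ i = D * T ^ j) : P ^ ((i : ℤ) - j) = (C / D) ^ k := by
  have hTk : T ^ k = P⁻¹ := eq_inv_of_mul_eq_one_left ht
  have key : ∀ i : ℕ, (T ^ i) ^ k = P ^ (-(i : ℤ)) := by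
    intro i
    rw [← pow_mul, mul_comm i k, pow_mul, hTk, zpow_neg, inv_pow, zpow_natCast]
  have h2 := congrArg (fun x => x ^ k) h
  beta_reduce at h2
  rw [mul_pow, mul_pow, key, key] at h2
  have hDk : D ^ k ≠ 0 := pow_ne_zero k hD0
  rw [div_pow, eq_div_iff hDk]
  have h3 : P ^ ((i : ℤ) - j) * D ^ k = P ^ (i : ℤ) * (D ^ k * P ^ (-(j : ℤ))) := by
    rw [sub_eq_add_neg, zpow_add₀ hP0, mul_assoc, mul_comm (P ^ (-(j : ℤ)))]
  rw [h3, ← h2, mul_comm (C ^ k), ← mul_assoc, ← zpow_add₀ hP0, add_neg_cancel, zpow_zero,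
    one_mul]

private theorem grp2_BVal {G : Type*} [LinearOrderedCommGroupWithZero G] {P T C : G}
    (hP0 : P ≠ 0) {k p : ℕ} (ht : T ^ k * P = 1) {j : ℕ}
    (h : (C * T ^ j) ^ p = T) : P ^ ((j : ℤ) * p - 1) = C ^ (k * p) := by
  have h1 : C ^ p * T ^ (j * p) = 1 * T ^ 1 := by
    rw [one_mul, pow_one, pow_mul, ← mul_pow, h]
  have h2 := grp1_BVal hP0 ht one_ne_zero h1
  rw [div_one, ← pow_mul, mul_comm p k] at h2
  rw [← h2]
  push_cast
  rfl

private theorem repr_BVal (L : IntermediateField ℚ QQ) {t : QQ} {k : ℕ} (hk : 0 < k)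
    (htL : t ^ k ∈ L) {d : QQ} (hd : d ∈ L ⊔ IntermediateField.adjoin ℚ {t}) :
    ∃ c : ℕ → QQ, (∀ j, c j ∈ L) ∧ d = ∑ j ∈ Finset.range k, c j * t ^ j := by
  set q : Polynomial L := Polynomial.X ^ k - Polynomial.C ⟨t ^ k, htL⟩ with hq
  have hmon : q.Monic := Polynomial.monic_X_pow_sub_C _ hk.ne'
  have hdeg : q.natDegree = k := Polynomial.natDegree_X_pow_sub_C
  have hroot : Polynomial.aeval t q = 0 := by
    rw [hq, map_sub, map_pow, Polynomial.aeval_X, Polynomial.aeval_C]
    exact sub_self _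
  have halg : IsAlgebraic L t := ⟨q, hmon.ne_zero, hroot⟩
  rw [← IntermediateField.restrictScalars_adjoin_eq_sup, IntermediateField.mem_restrictScalars,
    ← IntermediateField.mem_toSubalgebra,
    IntermediateField.adjoin_simple_toSubalgebra_of_isAlgebraic halg,
    Algebra.adjoin_singleton_eq_range_aeval] at hd
  obtain ⟨f, hf⟩ := hd
  have hf' : Polynomial.aeval t f = d := hf
  have hne : q ≠ 1 := by
    intro h
    rw [h, Polynomial.natDegree_one] at hdeg
    omega
  have hlt := Polynomial.natDegree_modByMonic_lt f hmon hne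
  rw [hdeg] at hlt
  have h1 := Polynomial.aeval_modByMonic_eq_self_of_root (p := f) hroot
  rw [Polynomial.aeval_eq_sum_range' hlt, hf'] at h1
  refine ⟨fun j => ((f %ₘ q).coeff j : QQ), fun j => ((f %ₘ q).coeff j).2, ?_⟩
  rw [← h1]
  refine Finset.sum_congr rfl fun j _ => ?_
  rw [Algebra.smul_def]
  rfl

theorem not_pow_adjoin (W : ValuationSubring QQ) (L : IntermediateField ℚ QQ) {π t : QQ}
    (hπ0 : π ≠ 0) (hπL : π ∈ L) {k : ℕ} (hk : 0 < k) (htL : t ^ k ∈ L)
    (ht : W.valuation t ^ k * W.valuation π = 1) {p : ℕ} (hp : p.Prime)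
    (hdiv : ∀ q : ℕ, q.Prime → q ∣ k * p → ∀ b ∈ L, W.valuation b ^ q ≠ W.valuation π) :
    ∀ d ∈ L ⊔ IntermediateField.adjoin ℚ {t}, W.valuation d ^ p ≠ W.valuation t := by
  classical
  intro d hd hcon
  have hP0 : W.valuation π ≠ 0 := (Valuation.ne_zero_iff _).2 hπ0
  have hT0 : W.valuation t ≠ 0 := by
    intro h0
    rw [h0, zero_pow hk.ne', zero_mul] at ht
    exact zero_ne_one ht
  have ht0 : t ≠ 0 := (Valuation.ne_zero_iff _).1 hT0
  have hd0 : d ≠ 0 := by
    rintro rfl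
    rw [map_zero, zero_pow hp.ne_zero] at hcon
    exact hT0 hcon.symm
  obtain ⟨c, hcL, hdc⟩ := repr_BVal L hk htL hd
  let T : Finset ℕ := (Finset.range k).filter fun j => c j ≠ 0
  have hTne : T.Nonempty := by
    rw [Finset.nonempty_iff_ne_empty]
    intro hT
    rw [Finset.filter_eq_empty_iff] at hT
    apply hd0
    rw [hdc]
    refine Finset.sum_eq_zero fun j hj => ?_
    have := hT hj
    push Not at this
    rw [this, zero_mul]
  obtain ⟨j₀, hj₀, hmax⟩ := T.exists_max_image (fun j => W.valuation (c j * t ^ j)) hTne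
  have hj₀' := Finset.mem_filter.1 hj₀
  have hval0 : W.valuation (c j₀ * t ^ j₀) ≠ 0 :=
    (Valuation.ne_zero_iff _).2 (mul_ne_zero hj₀'.2 (pow_ne_zero _ ht0))
  have hdist : ∀ i ∈ T, W.valuation (c i * t ^ i) = W.valuation (c j₀ * t ^ j₀) → i = j₀ := by
    intro i hi heq
    have hi' := Finset.mem_filter.1 hi
    rw [map_mul, map_mul, map_pow, map_pow] at heq
    have h1 := grp1_BVal hP0 ht ((Valuation.ne_zero_iff _).2 hj₀'.2) heq
    rw [← map_div₀] at h1
    have h2 := dvd_BVal hP0 k hk (fun q hq hqk u v => by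
      have h3 := hdiv q hq (hqk.mul_right p) ((c i / c j₀) ^ u * π ^ v)
        (mul_mem (zpow_mem (div_mem (hcL i) (hcL j₀)) u) (zpow_mem hπL v))
      rw [map_mul, map_zpow₀, map_zpow₀] at h3
      exact h3) _ h1
    have h4 : (i : ℤ) - j₀ = 0 := by
      refine Int.eq_zero_of_abs_lt_dvd h2 ?_
      have a1 := Finset.mem_range.1 hi'.1
      have a2 := Finset.mem_range.1 hj₀'.1
      rw [abs_lt]
      omega
    omega
  have hlt : ∀ i ∈ Finset.range k \ {j₀},
      W.valuation (c i * t ^ i) < W.valuation (c j₀ * t ^ j₀) := by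
    intro i hi
    rw [Finset.mem_sdiff, Finset.mem_singleton] at hi
    by_cases hci : c i = 0
    · rw [hci, zero_mul, map_zero]
      exact zero_lt_iff.2 hval0
    · have hiT : i ∈ T := Finset.mem_filter.2 ⟨hi.1, hci⟩
      exact lt_of_le_of_ne (hmax i hiT) fun h => hi.2 (hdist i hiT h)
  have hvd : W.valuation d = W.valuation (c j₀) * W.valuation t ^ j₀ := by
    rw [hdc, Valuation.map_sum_eq_of_lt _ hj₀'.1 hlt, map_mul, map_pow]
  rw [hvd] at hcon
  have h5 := grp2_BVal hP0 ht hcon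
  have h6 := dvd_BVal hP0 (k * p) (Nat.mul_pos hk hp.pos) (fun q hq hqk u v => by
    have h3 := hdiv q hq hqk (c j₀ ^ u * π ^ v)
      (mul_mem (zpow_mem (hcL j₀) u) (zpow_mem hπL v))
    rw [map_mul, map_zpow₀, map_zpow₀] at h3
    exact h3) _ h5
  have h7 : (p : ℤ) ∣ (j₀ : ℤ) * p - 1 := by
    refine dvd_trans ?_ h6
    push_cast
    exact dvd_mul_left _ _
  have h8 : (p : ℤ) ∣ 1 := by
    have h9 : (1 : ℤ) = (j₀ : ℤ) * p - ((j₀ : ℤ) * p - 1) := by ring
    rw [h9]
    exact dvd_sub (dvd_mul_left _ _) h7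
  have h10 := Int.eq_one_of_dvd_one (by positivity) h8
  exact hp.one_lt.ne' (by exact_mod_cast h10)

end Pool.Agent.Clo
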