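import Pool.Agent.Clo.Pull
import Pool.Agent.Clo.AlbInv

/-!
# A curve over the field of algebraic numbers has countably many places

PROOF. `QQ` is countable (it is algebraic over `ℚ`: `Algebra.IsAlgebraic.cardinalMk_le_max`, or
`Algebraic.countable`). `L` is generated by a finite set over `QQ` (`exists_gens`), so it is
countable: it is algebraic over `QQ(t)`, the field of fractions of a polynomial ring, for a function
`t` (or: every element is a quotient of values of polynomials with coefficients in `QQ` in finitely
many generators, and `MvPolynomial (Fin n) QQ` is countable). For every place `p` let `g p` be a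
function which is not regular at `p`, but regular at all other places (`exists_pole`). The map `g`
is injective.
-/

set_option autoImplicit false

noncomputable section

namespace Pool.Agent.Clo

open Pool.Agent.ZCyc Pool.Agent.Dess

private theorem countable_QQ : Countable QQ := by
  rw [← Cardinal.mk_le_aleph0_iff]
  have h1 : Algebra.IsAlgebraic ℚ (AlgebraicClosure ℚ) := AlgebraicClosure.isAlgebraic ℚ
  refine (Algebra.IsAlgebraic.cardinalMk_le_max ℚ (AlgebraicClosure ℚ)).trans ?_
  simp

private theorem countable_poly : Countable (Polynomial QQ) := by
  have h := countable_QQ
  rw [← Cardinal.mk_le_aleph0_iff] at h ⊢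
  exact Polynomial.cardinalMk_le_max.trans (max_le h le_rfl)

private theorem countable_simple {L : Type} [Field L] [Algebra QQ L] (t : L) :
    Countable (IntermediateField.adjoin QQ {t}) := by
  have h := countable_poly
  have h1 : (Set.range fun p : Polynomial QQ × Polynomial QQ =>
      Polynomial.aeval t p.1 / Polynomial.aeval t p.2).Countable := Set.countable_range _
  refine Set.Countable.to_subtype (h1.mono ?_)
  intro x hx
  obtain ⟨r, q, hrq⟩ := (IntermediateField.mem_adjoin_simple_iff QQ x).1 hx
  exact ⟨(r, q), hrq.symm⟩

private theorem countable_field {L : Type} [Field L] [Algebra QQ L] (hL : IsCurve QQ L) :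
    Countable L := by
  obtain ⟨t, _, hfin⟩ := hL
  have h1 := countable_simple t
  have h2 := Module.finBasis (IntermediateField.adjoin QQ {t}) L
  exact h2.equivFun.injective.countable

theorem countable_place {L : Type} [Field L] [Algebra QQ L] (hL : IsCurve QQ L) :
    Countable (Place QQ L) := by
  have h1 := countable_field hL
  choose g hg using fun p : Place QQ L => exists_pole hL p
  have hinj : Function.Injective g := by
    intro p q hpq
    by_contra hne
    apply (hg p).1
    rw [hpq]
    exact (hg q).2 p hne
  exact hinj.countable

end Pool.Agent.Clo
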