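import Pool.Agent.Dess.Defs
import Mathlib.NumberTheory.Height.NumberField

/-!
# Zero-cycles on products of curves, up to zero-cycles of small energy: definitions

A smooth projective curve `C` over the field `QQ` of algebraic numbers is given by its function
field `F`. A finite set `S` of generators of `F` over `QQ` defines a model of the curve over a
number field `K`: the automorphisms `ρ` of `QQ` which extend to an automorphism `r` of `F` with
`r s = s` for all `s ∈ S` are those which fix `K`, and the field `K(S)` is the function field of the
model (constants in `S` are allowed, so that `K` can be enlarged). For such an automorphism, `r` is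
determined by `ρ`, and it acts on the points of `C` as `ρ` does.
-/

set_option autoImplicit false

noncomputable section

namespace Pool.Agent.Clo

open Pool.Agent.ZCyc Pool.Agent.Dess

section Curve

variable {F : Type} [Field F] [Algebra QQ F]

/-- The automorphism `r` of the function field `F` fixes the functions in `S`, and it acts on the
constants by the automorphism `ρ` of the field of algebraic numbers. -/
def Fixes (S : Finset F) (ρ : Gam) (r : F ≃+* F) : Prop :=
  (∀ s ∈ S, r s = s) ∧ ∀ c : QQ, r (algebraMap QQ F c) = algebraMap QQ F (ρ c)

/-- The point `p'` is the image of the point `p` under the automorphism `r`: a function `f` is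
regular at `p` if and only if the function `r f` is regular at `p'`. -/
def Moves (r : F ≃+* F) (p p' : Place QQ F) : Prop :=
  p'.ring.comap (r : F →+* F) = p.ring

/-- The real function `A` of two points of the curve is invariant under the automorphisms which fix
the functions in `S`, i.e. under the absolute Galois group of a number field. -/
def Inv (S : Finset F) (A : Place QQ F → Place QQ F → ℝ) : Prop :=
  ∀ (ρ : Gam) (r : F ≃+* F), Fixes S ρ r → ∀ p p' q q' : Place QQ F,
    Moves r p p' → Moves r q q' → A p' q' = A p q

/-- `A` is a symmetric, positive semidefinite kernel on the set of points of the curve, and the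
values `A p p` are bounded on every set of points of bounded height. -/
structure Kernel (A : Place QQ F → Place QQ F → ℝ) : Prop where
  symm : ∀ p q, A p q = A q p
  psd : ∀ (s : Finset (Place QQ F)) (c : Place QQ F → ℝ),
    0 ≤ ∑ p ∈ s, ∑ q ∈ s, c p * c q * A p q
  bdd : ∀ f : F, Transcendental QQ f → ∀ B : ℝ, ∃ C : ℝ, ∀ (p : Place QQ F) (c : QQ),
    p.At f c → NumberField.absLogHeight₁ c ≤ B → A p p ≤ C

/-- The kernel `b` has the properties of the Néron-Tate height pairing of the Jacobian, on the
points of the curve, embedded into the Jacobian by means of the rational point `o`: it is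
invariant, it is zero at the base point, and it is linear in the divisor class. -/
structure HeightPairing (S : Finset F) (o : Place QQ F) (b : Place QQ F → Place QQ F → ℝ) :
    Prop extends Kernel b where
  inv : Inv S b
  base : ∀ q, b o q = 0
  princ : ∀ z : (Unit → Place QQ F) →₀ ℤ, z ∈ RatEq (fun _ : Unit => F) →
    ∀ q, (z.sum fun p n => (n : ℝ) * b (p ()) q) = 0

end Curve

section Product

variable {ι : Type} {L : ι → Type} [∀ i, Field (L i)] [∀ i, Algebra QQ (L i)]

/-- The zero-cycle `z` on the product of the curves with function fields `L i` is invariant under
the automorphisms which fix the generators in `S i`; this means that it is a zero-cycle on the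
product of the models over a number field. -/
def Rational (S : ∀ i, Finset (L i)) (z : (∀ i, Place QQ (L i)) →₀ ℤ) : Prop :=
  ∀ (ρ : Gam) (r : ∀ i, L i ≃+* L i), (∀ i, Fixes (S i) ρ (r i)) →
    ∀ x x' : ∀ i, Place QQ (L i), (∀ i, Moves (r i) (x i) (x' i)) → z x' = z x

variable [Fintype ι]

/-- The energy of the zero-cycle `w = ∑ w(x) x` with respect to the kernels `A i` on the factors:
`∑ w(x) w(y) ∏ A i (x i) (y i)`. -/
def energy (A : ∀ i, Place QQ (L i) → Place QQ (L i) → ℝ)
    (w : (∀ i, Place QQ (L i)) →₀ ℤ) : ℝ :=
  w.sum fun x n => w.sum fun y m => (n : ℝ) * m * ∏ i, A i (x i) (y i)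

/-- The sum of the square of the degree of the zero-cycle `z` and of the heights (with respect to
the pairings `b i`) of the push-forwards of `z` to the factors. It depends only on the degree of
`z` and on the image of `z` in the Albanese variety, i.e. the product of the Jacobians. -/
def albEnergy (b : ∀ i, Place QQ (L i) → Place QQ (L i) → ℝ)
    (z : (∀ i, Place QQ (L i)) →₀ ℤ) : ℝ :=
  (z.sum fun _ n => (n : ℝ)) ^ 2 +
    ∑ i, z.sum fun x n => z.sum fun y m => (n : ℝ) * m * b i (x i) (y i)

end Product

end Pool.Agent.Clo
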