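import Pool.Agent.Clo.MCrt

/-!
# An element whose value is not divisible by finitely many primes

PROOF. Let `s` be the finset of the prime divisors of `D`. For `p ∈ s` let `c p ∈ K` be as in `h`
(`c p ≠ 0`: take `b = 0` otherwise). Let `M p = ∏ q ∈ s.erase p, q`, prime to `p`, and
`x = ∏ p ∈ s, (c p) ^ (M p)`. Let `p ∈ s` and suppose that the value of `x` is the `p`-th power of
the
value of `b ∈ K`. For `q ∈ s`, `q ≠ p`, the exponent `M q` is divisible by `p`. So the value of
`(c p) ^ (M p)` is the `p`-th power of the value of an element of `K`; `u M p + v p = 1` with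
integers `u, v`, so the value of `c p = ((c p) ^ (M p)) ^ u ((c p) ^ v) ^ p` is such a `p`-th power,
too, a contradiction. Finally let `r` be such that `W(l) ^ r < W(x⁻¹)` (`exists_small`), and
`π = x l ^ (D r)` (`D ≥ 1`): its value is `< 1`, and for `p ∣ D`, `l ^ (D r)` is a `p`-th power in
`K`,
so the value of `π` is not a `p`-th power either.
-/

set_option autoImplicit false

noncomputable section

namespace Pool.Agent.Clo

open Pool.Agent.ZCyc Pool.Agent.Dess

theorem exists_indivisible {l : ℕ} (hl : l.Prime) {W : ValuationSubring QQ}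
    (hW : (l : QQ) ∈ W.nonunits) {K : IntermediateField ℚ QQ} {D : ℕ} (hD : D ≠ 0)
    (h : ∀ p : ℕ, p.Prime → p ∣ D → ∃ c ∈ K, ∀ b ∈ K, W.valuation b ^ p ≠ W.valuation c) :
    ∃ π ∈ K, π ≠ 0 ∧ π ∈ W.nonunits ∧
      ∀ p : ℕ, p.Prime → p ∣ D → ∀ b ∈ K, W.valuation b ^ p ≠ W.valuation π := by
  choose! c hcK hc using h
  -- the elements are not zero
  have hc0 : ∀ p ∈ D.primeFactors, c p ≠ 0 := by
    intro p hp h0
    have hpp := Nat.prime_of_mem_primeFactors hp
    refine hc p hpp (Nat.dvd_of_mem_primeFactors hp) 0 K.zero_mem ?_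
    rw [h0, map_zero, zero_pow hpp.ne_zero]
  set M : ℕ → ℕ := fun p => ∏ q ∈ D.primeFactors.erase p, q with hM
  set x : QQ := ∏ p ∈ D.primeFactors, c p ^ M p with hx
  have hxK : x ∈ K := by
    refine prod_mem ?_
    intro p hp
    exact pow_mem (hcK p (Nat.prime_of_mem_primeFactors hp) (Nat.dvd_of_mem_primeFactors hp)) _
  have hx0 : x ≠ 0 := by
    refine Finset.prod_ne_zero_iff.mpr ?_
    intro p hp
    exact pow_ne_zero _ (hc0 p hp)
  have hlK : (l : QQ) ∈ K := natCast_mem K l
  have hl0 : (l : QQ) ≠ 0 := Nat.cast_ne_zero.mpr hl.ne_zero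
  have hWl : W.valuation (l : QQ) < 1 := (W.mem_nonunits_iff).mp hW
  obtain ⟨r, hr⟩ := exists_small hl hW (inv_ne_zero hx0)
  have hxv : W.valuation x ≠ 0 := (Valuation.ne_zero_iff _).mpr hx0
  refine ⟨x * (l : QQ) ^ (D * r), mul_mem hxK (pow_mem hlK _), mul_ne_zero hx0
    (pow_ne_zero _ hl0), ?_, ?_⟩
  · rw [W.mem_nonunits_iff, map_mul, map_pow]
    have h1 : W.valuation (l : QQ) ^ (D * r) ≤ W.valuation (l : QQ) ^ r :=
      pow_le_pow_right_of_le_one' hWl.le (Nat.le_mul_of_pos_left r (Nat.pos_of_ne_zero hD))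
    have h2 : W.valuation (l : QQ) ^ (D * r) < (W.valuation x)⁻¹ := by
      rw [← map_inv₀]
      exact lt_of_le_of_lt h1 hr
    have h3 := (mul_lt_mul_iff_right₀ (zero_lt_iff.mpr hxv)).mpr h2
    rwa [mul_inv_cancel₀ hxv] at h3
  · intro p hp hpD b hb hbx
    have hps : p ∈ D.primeFactors := Nat.mem_primeFactors.mpr ⟨hp, hpD, hD⟩
    obtain ⟨D', hD'⟩ := hpD
    -- the other factors
    set y : QQ := ∏ q ∈ D.primeFactors.erase p, c q ^ (M q / p) with hy
    have hyp : y ^ p = ∏ q ∈ D.primeFactors.erase p, c q ^ M q := by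
      rw [hy, ← Finset.prod_pow]
      refine Finset.prod_congr rfl ?_
      intro q hq
      have hqp : p ∈ D.primeFactors.erase q :=
        Finset.mem_erase.mpr ⟨(Finset.mem_erase.mp hq).1.symm, hps⟩
      have hdvd : p ∣ M q := Finset.dvd_prod_of_mem (fun t => t) hqp
      rw [← pow_mul, Nat.div_mul_cancel hdvd]
    have hyK : y ∈ K := by
      refine prod_mem ?_
      intro q hq
      have hqD := Finset.mem_of_mem_erase hq
      exact pow_mem (hcK q (Nat.prime_of_mem_primeFactors hqD)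
        (Nat.dvd_of_mem_primeFactors hqD)) _
    have hy0 : y ≠ 0 := by
      refine Finset.prod_ne_zero_iff.mpr ?_
      intro q hq
      exact pow_ne_zero _ (hc0 q (Finset.mem_of_mem_erase hq))
    have hxy : x = c p ^ M p * y ^ p := by
      rw [hyp, hx, Finset.mul_prod_erase D.primeFactors (fun q => c q ^ M q) hps]
    -- the value of c p ^ M p is a p-th power
    set z : QQ := b / ((l : QQ) ^ (D' * r) * y) with hz
    have hzK : z ∈ K := div_mem hb (mul_mem (pow_mem hlK _) hyK)
    have hzv : W.valuation z ^ p = W.valuation (c p) ^ M p := by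
      have h1 : W.valuation ((l : QQ) ^ (D' * r) * y) ≠ 0 :=
        (Valuation.ne_zero_iff _).mpr (mul_ne_zero (pow_ne_zero _ hl0) hy0)
      rw [hz, map_div₀, div_pow, hbx, hxy]
      rw [div_eq_iff (pow_ne_zero _ h1), ← map_pow, ← map_pow, ← map_mul]
      congr 1
      rw [hD']
      ring
    have hcop : Nat.Coprime (M p) p := by
      refine Nat.Coprime.symm ?_
      refine Nat.Coprime.prod_right ?_
      intro q hq
      have hqD := Finset.mem_of_mem_erase hq
      exact (Nat.coprime_primes hp (Nat.prime_of_mem_primeFactors hqD)).mpr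
        (Finset.ne_of_mem_erase hq).symm
    obtain ⟨u, v, huv⟩ := Nat.isCoprime_iff_coprime.mpr hcop
    have hcv : W.valuation (c p) ≠ 0 := (Valuation.ne_zero_iff _).mpr (hc0 p hps)
    refine hc p hp ⟨D', hD'⟩ (z ^ u * c p ^ v) (mul_mem (zpow_mem hzK u) (zpow_mem
      (hcK p hp ⟨D', hD'⟩) v)) ?_
    rw [map_mul, map_zpow₀, map_zpow₀, mul_pow, ← zpow_natCast, ← zpow_natCast, ← zpow_mul,
      ← zpow_mul]
    have h2 : W.valuation z ^ (u * (p : ℤ)) = W.valuation (c p) ^ (u * (M p : ℤ)) := by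
      rw [mul_comm u, mul_comm u, zpow_mul, zpow_mul, zpow_natCast, zpow_natCast, hzv]
    rw [h2, ← zpow_add₀ hcv, huv, zpow_one]

end Pool.Agent.Clo
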