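import Mathlib.NumberTheory.Height.NumberField
import Mathlib.RingTheory.Ideal.Norm.RelNorm
import Pool.Agent.Clo.Root

/-!
# The height of a power

PROOF. In a number field `K` which contains `x`, `absLogHeight₁ y = logHeight₁ y / [K : ℚ]` for all
`y ∈ K` (the private lemmas `exists_Root`, `abs_Root` of `Root.lean`, and those on which they
depend:
copy them), and Mathlib has `Height.logHeight₁_pow`.
-/

set_option autoImplicit false

noncomputable section

namespace Pool.Agent.Clo

open Pool.Agent.Dess NumberField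

/-- products over infinite places as products over embeddings -/
private theorem prodInf_MHt {K : Type} [Field K] [NumberField K] (g : InfinitePlace K → ℝ) :
    ∏ w, g w ^ w.mult = ∏ φ : K →+* ℂ, g (InfinitePlace.mk φ) := by
  classical
  rw [← Finset.prod_fiberwise Finset.univ (fun φ : K →+* ℂ => InfinitePlace.mk φ)]
  refine Finset.prod_congr rfl fun w _ => ?_
  rw [Finset.prod_congr rfl (g := fun _ => g w) (fun φ hφ => by
    rw [(Finset.mem_filter.1 hφ).2]), Finset.prod_const, InfinitePlace.card_filter_mk_eq]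

/-- the number of extensions of an embedding -/
private theorem cardExt_MHt {k K : Type} [Field k] [NumberField k] [Field K] [NumberField K]
    [Algebra k K] (σ : k →+* ℂ) [DecidableEq (k →+* ℂ)] :
    (Finset.univ.filter fun φ : K →+* ℂ => φ.comp (algebraMap k K) = σ).card =
      Module.finrank k K := by
  let _ := σ.toAlgebra
  rw [← AlgHom.card k K ℂ, ← Fintype.card_subtype]
  refine Fintype.card_congr ⟨fun φ => ⟨φ.1, fun x => ?_⟩, fun ψ => ⟨ψ.toRingHom, ?_⟩,
    fun φ => ?_, fun ψ => ?_⟩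
  · have h := congrArg (fun τ : k →+* ℂ => τ x) φ.2
    exact h
  · ext x
    exact ψ.commutes x
  · rfl
  · rfl

private theorem prodExt_MHt {k K : Type} [Field k] [NumberField k] [Field K] [NumberField K]
    [Algebra k K] (f : InfinitePlace k → ℝ) :
    ∏ w : InfinitePlace K, f (w.comap (algebraMap k K)) ^ w.mult =
      (∏ v : InfinitePlace k, f v ^ v.mult) ^ Module.finrank k K := by
  classical
  rw [prodInf_MHt f, prodInf_MHt (fun w : InfinitePlace K => f (w.comap (algebraMap k K))),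
    ← Finset.prod_fiberwise Finset.univ (fun φ : K →+* ℂ => φ.comp (algebraMap k K)),
    ← Finset.prod_pow]
  refine Finset.prod_congr rfl fun σ _ => ?_
  rw [Finset.prod_congr rfl (g := fun _ => f (InfinitePlace.mk σ)) (fun φ hφ => by
    rw [InfinitePlace.comap_mk, (Finset.mem_filter.1 hφ).2]), Finset.prod_const]
  congr 1
  convert cardExt_MHt (K := K) σ

/-- the height in an extension field -/
private theorem ext_MHt {k K : Type} [Field k] [NumberField k] [Field K] [NumberField K]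
    [Algebra k K] (x : k) : Height.mulHeight₁ (algebraMap k K x) =
      Height.mulHeight₁ x ^ Module.finrank k K := by
  obtain ⟨a, b, hb, rfl⟩ := IsFractionRing.div_surjective (A := 𝓞 k) x
  have hb0 : b ≠ 0 := nonZeroDivisors.ne_zero hb
  have hcast : ∀ c : 𝓞 k, algebraMap k K (algebraMap (𝓞 k) k c) =
      algebraMap (𝓞 K) K (algebraMap (𝓞 k) (𝓞 K) c) := fun c => rfl
  rw [map_div₀, hcast, hcast, Height.mulHeight₁_div_eq_mulHeight,
    Height.mulHeight₁_div_eq_mulHeight]
  have hinj : Function.Injective (algebraMap (𝓞 k) (𝓞 K)) := by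
    exact RingOfIntegers.algebraMap.injective k K
  have hne : (![a, b] : Fin 2 → 𝓞 k) ≠ 0 := by
    intro h0
    exact hb0 (congrFun h0 1)
  have hne' : (![algebraMap (𝓞 k) (𝓞 K) a, algebraMap (𝓞 k) (𝓞 K) b] : Fin 2 → 𝓞 K) ≠ 0 := by
    intro h0
    have h1 : algebraMap (𝓞 k) (𝓞 K) b = 0 := congrFun h0 1
    exact hb0 (hinj (by rw [h1, map_zero]))
  have h1 := absNorm_mul_finprod_finitePlace_eq_one hne
  have h2 := absNorm_mul_finprod_finitePlace_eq_one hne'
  have hspan : Ideal.span (Set.range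
      ![algebraMap (𝓞 k) (𝓞 K) a, algebraMap (𝓞 k) (𝓞 K) b]) =
      (Ideal.span (Set.range ![a, b])).map (algebraMap (𝓞 k) (𝓞 K)) := by
    rw [Ideal.map_span, ← Set.range_comp]
    congr 2
    ext i
    fin_cases i <;> rfl
  rw [hspan, Ideal.absNorm_algebraMap, ← IsFractionRing.finrank_eq (𝓞 k) k (𝓞 K) K] at h2
  have hc1 : ∀ i : Fin 2, ((![a, b] i : 𝓞 k) : k) =
      ![algebraMap (𝓞 k) k a, algebraMap (𝓞 k) k b] i := by
    intro i
    fin_cases i <;> rfl
  have hc2 : ∀ i : Fin 2,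
      ((![algebraMap (𝓞 k) (𝓞 K) a, algebraMap (𝓞 k) (𝓞 K) b] i : 𝓞 K) : K) =
      ![algebraMap (𝓞 K) K (algebraMap (𝓞 k) (𝓞 K) a),
        algebraMap (𝓞 K) K (algebraMap (𝓞 k) (𝓞 K) b)] i := by
    intro i
    fin_cases i <;> rfl
  simp only [hc1] at h1
  simp only [hc2] at h2
  have hc3 : ∀ i : Fin 2, ![algebraMap (𝓞 K) K (algebraMap (𝓞 k) (𝓞 K) a),
        algebraMap (𝓞 K) K (algebraMap (𝓞 k) (𝓞 K) b)] i =
      algebraMap k K (![algebraMap (𝓞 k) k a, algebraMap (𝓞 k) k b] i) := by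
    intro i
    fin_cases i <;> rfl
  have hn1 : (![algebraMap (𝓞 k) k a, algebraMap (𝓞 k) k b] : Fin 2 → k) ≠ 0 := by
    intro h0
    have h3 : algebraMap (𝓞 k) k b = 0 := congrFun h0 1
    exact hb0 (RingOfIntegers.coe_injective (by rw [h3]; rfl))
  have hn2 : (![algebraMap (𝓞 K) K (algebraMap (𝓞 k) (𝓞 K) a),
        algebraMap (𝓞 K) K (algebraMap (𝓞 k) (𝓞 K) b)] : Fin 2 → K) ≠ 0 := by
    intro h0
    have h3 : algebraMap (𝓞 K) K (algebraMap (𝓞 k) (𝓞 K) b) = 0 := congrFun h0 1
    exact hb0 (hinj (RingOfIntegers.coe_injective (by rw [h3, map_zero]; rfl)))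
  rw [NumberField.mulHeight_eq hn1, NumberField.mulHeight_eq hn2, mul_pow]
  have hN : ((Ideal.span (Set.range ![a, b])).absNorm : ℝ) ≠ 0 := left_ne_zero_of_mul_eq_one h1
  congr 1
  · rw [← prodExt_MHt (K := K)]
    refine Finset.prod_congr rfl fun w _ => ?_
    congr 1
    refine iSup_congr fun i => ?_
    rw [hc3, InfinitePlace.comap_apply]
  · refine mul_left_cancel₀ (pow_ne_zero (Module.finrank k K) hN) ?_
    rw [← mul_pow, h1, one_pow]
    push_cast at h2
    exact h2

private theorem int_MHt (x : QQ) : IsIntegral ℚ x :=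
  (AlgebraicClosure.isAlgebraic ℚ).isAlgebraic x |>.isIntegral

/-- every finite set of algebraic numbers is contained in a number field -/
private theorem exists_MHt (T : Finset QQ) : ∃ K : IntermediateField ℚ QQ,
    FiniteDimensional ℚ K ∧ ∀ x ∈ T, x ∈ K := by
  refine ⟨IntermediateField.adjoin ℚ (T : Set QQ), ?_, fun x hx =>
    IntermediateField.subset_adjoin ℚ _ hx⟩
  exact IntermediateField.finiteDimensional_adjoin fun x _ => int_MHt x

open IntermediateField in
/-- the absolute height can be computed in every number field -/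
private theorem abs_MHt (K : IntermediateField ℚ QQ) [FiniteDimensional ℚ K]
    [NumberField K] {x : QQ} (hx : x ∈ K) :
    absLogHeight₁ x = Height.logHeight₁ (⟨x, hx⟩ : K) / Module.finrank ℚ K := by
  have hint : IsIntegral ℚ x := int_MHt x
  unfold absLogHeight₁ absMulHeight₁
  rw [dif_pos hint]
  have : FiniteDimensional ℚ ℚ⟮x⟯ := adjoin.finiteDimensional hint
  have : NumberField ℚ⟮x⟯ := {}
  have hle : ℚ⟮x⟯ ≤ K := by
    rw [adjoin_simple_le_iff]
    exact hx
  let _ : Algebra ℚ⟮x⟯ K := (inclusion hle).toAlgebra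
  have h1 := ext_MHt (k := ℚ⟮x⟯) (K := K) (AdjoinSimple.gen ℚ x)
  have h2 : algebraMap ℚ⟮x⟯ K (AdjoinSimple.gen ℚ x) = ⟨x, hx⟩ := rfl
  have : IsScalarTower ℚ ℚ⟮x⟯ K := IsScalarTower.of_algebraMap_eq fun q => rfl
  have : Module.Free ℚ⟮x⟯ K := Module.Free.of_divisionRing _ _
  have : Module.Free ℚ ℚ⟮x⟯ := Module.Free.of_divisionRing _ _
  have h3 : Module.finrank ℚ ℚ⟮x⟯ * Module.finrank ℚ⟮x⟯ K = Module.finrank ℚ K :=
    Module.finrank_mul_finrank _ _ _
  rw [h2] at h1
  have h4 : (0 : ℝ) < Module.finrank ℚ ℚ⟮x⟯ := by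
    exact_mod_cast Module.finrank_pos
  have h5 : (0 : ℝ) < Module.finrank ℚ⟮x⟯ K := by
    have : 0 < Module.finrank ℚ K := Module.finrank_pos
    rw [← h3] at this
    exact_mod_cast pos_of_mul_pos_right this (Nat.zero_le _)
  rw [Height.logHeight₁_eq_log_mulHeight₁, h1, Real.log_pow, ← h3,
    Real.log_rpow (Height.mulHeight₁_pos _)]
  push_cast
  field_simp

theorem ht_pow (x : QQ) (n : ℕ) : absLogHeight₁ (x ^ n) = n * absLogHeight₁ x := by
  obtain ⟨K, hK, hx⟩ := exists_MHt {x}
  have hx1 : x ∈ K := hx x (by simp)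
  have : NumberField K := {}
  have h : (⟨x ^ n, K.toSubfield.pow_mem hx1 n⟩ : K) = (⟨x, hx1⟩ : K) ^ n := rfl
  have h2 := abs_MHt K (x := x ^ n) (K.toSubfield.pow_mem hx1 n)
  rw [h2, abs_MHt K hx1]
  have h3 : Height.logHeight₁ (⟨x ^ n, K.toSubfield.pow_mem hx1 n⟩ : K) =
      n * Height.logHeight₁ (⟨x, hx1⟩ : K) := by
    rw [h, Height.logHeight₁_pow]
  rw [h3, mul_div_assoc]

end Pool.Agent.Clo
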