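import Pool.Agent.Clo.ArVal

/-!
# Independence of the powers, for an indivisible value

PROOF. As in `ArVal.lean` (copy its private lemmas, or use `val_independent`). Suppose that
`t ^ j a ^ i` and `c t ^ j' a ^ i'` have the same value, `c ∈ L` not zero. Let `P`, `T`, `A` be the
values of `π`, `t`, `a`: `T ^ k = P⁻¹`, `A ^ n = T ^ e`; raise the equation to the power `n k` as in
`grp_ArVal`: `P ^ (- (n j + e i)) = C ^ (n k) P ^ (- (n j' + e i'))` with the value `C` of `c`, so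
`P ^ s = C ^ (k n)` with the integer `s = (n j' + e i') - (n j + e i)`.
Claim: `k n` divides `s`. Let `d` be the greatest common divisor of `s` and `k n`; the value group
is
torsion free (linearly ordered), so `P ^ (s / d) = C ^ (k n / d)`. If `k n / d > 1`, let `p` be a
prime
divisor of it; `p` does not divide `s / d`, so `u (s / d) + v p = 1` with integers `u, v`, and
`P = (P ^ (s / d)) ^ u P ^ (v p) = (C ^ (u (k n / (d p))) P ^ v) ^ p` is the `p`-th power of the
value of the element `c ^ (u (k n / (d p))) π ^ v` of `L`, a contradiction with `hdiv`. So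
`s = m k n`, and `int_ArVal` finishes the proof as in `power_independent`.
-/

set_option autoImplicit false

noncomputable section

namespace Pool.Agent.Clo

open Pool.Agent.ZCyc Pool.Agent.Dess

private theorem mpow_int {k n e : ℕ} (hn : 0 < n) (hen : Nat.Coprime e n)
    {j j' : Fin k} {i i' : Fin n} {m : ℤ}
    (h : -((n : ℤ) * (j : ℕ) + e * (i : ℕ)) = m * n * k + -((n : ℤ) * (j' : ℕ) + e * (i' : ℕ))) :
    (j, i) = (j', i') := by
  have hi := i.2
  have hi' := i'.2
  have hj := j.2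
  have hj' := j'.2
  have h1 : (n : ℤ) ∣ (e : ℤ) * (((i' : ℕ) : ℤ) - ((i : ℕ) : ℤ)) :=
    ⟨m * k - ((j' : ℕ) : ℤ) + ((j : ℕ) : ℤ), by linear_combination h⟩
  have h2 : IsCoprime (n : ℤ) (e : ℤ) := (Nat.isCoprime_iff_coprime.2 hen).symm
  have h3 := h2.dvd_of_dvd_mul_left h1
  have h4 : ((i' : ℕ) : ℤ) - ((i : ℕ) : ℤ) = 0 := by
    refine Int.eq_zero_of_abs_lt_dvd h3 ?_
    rw [abs_lt]
    omega
  rw [h4] at h1
  have h5 : (n : ℤ) * (((j' : ℕ) : ℤ) - ((j : ℕ) : ℤ)) = n * (k * m) := by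
    have h6 : ((i : ℕ) : ℤ) = ((i' : ℕ) : ℤ) := by omega
    rw [h6] at h
    linear_combination h
  have hn' : (n : ℤ) ≠ 0 := by exact_mod_cast hn.ne'
  have h7 := mul_left_cancel₀ hn' h5
  have h8 : ((j' : ℕ) : ℤ) - ((j : ℕ) : ℤ) = 0 := by
    refine Int.eq_zero_of_abs_lt_dvd ⟨m, h7⟩ ?_
    rw [abs_lt]
    omega
  refine Prod.ext (Fin.ext ?_) (Fin.ext ?_)
  · show (j : ℕ) = (j' : ℕ)
    omega
  · show (i : ℕ) = (i' : ℕ)
    omega

private theorem mpow_grp {G : Type*} [LinearOrderedCommGroupWithZero G] {P T A C : G}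
    (hP0 : P ≠ 0) {k n e : ℕ} (ht : T ^ k * P = 1)
    (ha : A ^ n = T ^ e) {j j' i i' : ℕ}
    (h : T ^ j * A ^ i = C * (T ^ j' * A ^ i')) :
    P ^ (((n : ℤ) * j' + e * i') - ((n : ℤ) * j + e * i)) = C ^ (k * n) := by
  have hTk : T ^ k = P⁻¹ := eq_inv_of_mul_eq_one_left ht
  have key : ∀ j i : ℕ, ((T ^ j * A ^ i) ^ n) ^ k = P ^ (-((n : ℤ) * j + e * i)) := by
    intro j i
    have h1 : (T ^ j * A ^ i) ^ n = T ^ (n * j + e * i) := by
      rw [mul_pow, ← pow_mul, ← pow_mul, mul_comm j n, mul_comm i n, pow_mul A n i, ha,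
        ← pow_mul, ← pow_add]
    rw [h1, ← pow_mul, mul_comm _ k, pow_mul, hTk, zpow_neg, inv_pow]
    norm_cast
  have h2 := congrArg (fun x => (x ^ n) ^ k) h
  beta_reduce at h2
  rw [key, mul_pow, mul_pow, key, ← pow_mul, mul_comm n k] at h2
  rw [sub_eq_add_neg, zpow_add₀ hP0, h2, mul_comm (C ^ (k * n)), ← mul_assoc, ← zpow_add₀ hP0,
    add_neg_cancel, zpow_zero, one_mul]

/-- an equality of powers, with an indivisible value -/
private theorem mpow_dvd {G : Type*} [LinearOrderedCommGroupWithZero G] {P C : G}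
    (hP0 : P ≠ 0) (N : ℕ) (hN : 0 < N)
    (hdiv : ∀ p : ℕ, p.Prime → p ∣ N → ∀ u v : ℤ, (C ^ u * P ^ v) ^ p ≠ P) (s : ℤ)
    (h : P ^ s = C ^ N) : (N : ℤ) ∣ s := by
  induction N using Nat.strong_induction_on generalizing s with
  | _ N ih =>
    by_cases h1 : N = 1
    · rw [h1]
      exact one_dvd s
    obtain ⟨p, hp, hpN⟩ := Nat.exists_prime_and_dvd h1
    obtain ⟨N', rfl⟩ := hpN
    have hN' : 0 < N' := Nat.pos_of_mul_pos_left hN
    by_cases hps : (p : ℤ) ∣ s
    · obtain ⟨s', rfl⟩ := hps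
      have h2 : (P ^ s') ^ p = (C ^ N') ^ p := by
        rw [← zpow_natCast, ← zpow_mul, mul_comm s', h, ← pow_mul, mul_comm]
      have h3 : P ^ s' = C ^ N' := (pow_left_inj₀ zero_le zero_le hp.ne_zero).1 h2
      have h4 := ih N' (by
        have := hp.two_le
        nlinarith) hN' (fun p' hp' hd => hdiv p' hp' (hd.mul_left p)) s' h3
      push_cast
      exact mul_dvd_mul_left _ h4
    · have h2 : IsCoprime s (p : ℤ) :=
        ((Nat.prime_iff_prime_int.1 hp).coprime_iff_not_dvd.2 hps).symm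
      obtain ⟨u, v, huv⟩ := h2
      refine absurd ?_ (hdiv p hp (Dvd.intro _ rfl) (N' * u) v)
      have h3 : (C ^ ((N' : ℤ) * u) * P ^ v) ^ p = P ^ (u * s + v * p) := by
        rw [zpow_add₀ hP0, mul_comm u s, zpow_mul P s u, h, mul_pow, ← zpow_natCast (C ^ _) p,
          ← zpow_mul, ← zpow_natCast (P ^ v) p, ← zpow_mul, ← zpow_natCast C, ← zpow_mul]
        push_cast
        congr 2
        ring
      rw [h3, huv, zpow_one]

theorem power_independent_mild (W : ValuationSubring QQ) (L : IntermediateField ℚ QQ)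
    {π t a : QQ} (hπ0 : π ≠ 0) (hπL : π ∈ L) {k n e : ℕ} (hk : 0 < k) (hn : 0 < n)
    (hdiv : ∀ p : ℕ, p.Prime → p ∣ k * n → ∀ b ∈ L, W.valuation b ^ p ≠ W.valuation π)
    (ht : W.valuation t ^ k * W.valuation π = 1)
    (ha : W.valuation a ^ n = W.valuation t ^ e) (hen : Nat.Coprime e n) :
    LinearIndependent L (fun s : Fin k × Fin n => t ^ (s.1 : ℕ) * a ^ (s.2 : ℕ)) := by
  have hP0 : W.valuation π ≠ 0 := (Valuation.ne_zero_iff _).2 hπ0
  have hT0 : W.valuation t ≠ 0 := by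
    intro h0
    rw [h0, zero_pow hk.ne', zero_mul] at ht
    exact zero_ne_one ht
  have hA0 : W.valuation a ≠ 0 := by
    intro h0
    rw [h0, zero_pow hn.ne'] at ha
    exact pow_ne_zero e hT0 ha.symm
  refine val_independent W L _ (fun s => ?_) ?_
  · exact mul_ne_zero (pow_ne_zero _ ((Valuation.ne_zero_iff _).1 hT0))
      (pow_ne_zero _ ((Valuation.ne_zero_iff _).1 hA0))
  · rintro ⟨j, i⟩ ⟨j', i'⟩ c hc hc0 h
    have h1 : W.valuation (t ^ (j : ℕ) * a ^ (i : ℕ)) =
      W.valuation (c * (t ^ (j' : ℕ) * a ^ (i' : ℕ))) := h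
    rw [map_mul, map_mul, map_mul, map_pow, map_pow, map_pow, map_pow] at h1
    obtain ⟨m, hm⟩ := mpow_dvd hP0 (k * n) (Nat.mul_pos hk hn) (fun p hp hpd u v => by
      have h2 := hdiv p hp hpd (c ^ u * π ^ v) (mul_mem (zpow_mem hc u) (zpow_mem hπL v))
      rw [map_mul, map_zpow₀, map_zpow₀] at h2
      exact h2) _ (mpow_grp hP0 ht ha h1)
    refine mpow_int (m := m) hn hen ?_
    push_cast at hm
    linear_combination hm

end Pool.Agent.Clo
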