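import Pool.Agent.Clo.UnrDef
import Pool.Agent.Clo.ArAlm
import Pool.Agent.Clo.Ram

/-!
# The compositum with a number field

`values_sup_gen`: for all large primes `l` the value group of `K(C)` at a valuation ring above `l`
is equal to the one of `K`, for all fields `K` of algebraic numbers; this is `value_sup` of
`Ram.lean` for all `l` which do not divide the discriminant of `ℚ(C)`. The other theorems are
special cases.
-/

set_option autoImplicit false

noncomputable section

namespace Pool.Agent.Clo

open Pool.Agent.ZCyc Pool.Agent.Dess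

open NumberField

private theorem numberField_UnrK (L : IntermediateField ℚ QQ) [FiniteDimensional ℚ L] :
    NumberField L := by
  have h0 : CharZero L := inferInstance
  have h1 : FiniteDimensional ℚ L := inferInstance
  exact { to_charZero := h0, to_finiteDimensional := h1 }

private theorem integral_UnrK (c : QQ) : IsIntegral ℚ c :=
  (AlgebraicClosure.isAlgebraic ℚ).isIntegral.isIntegral c

private theorem not_dvd_UnrK (L : IntermediateField ℚ QQ) [NumberField L] {l : ℕ}
    (h : (discr L).natAbs < l) : ¬ (l : ℤ) ∣ discr L := by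
  intro h1
  have h2 := Int.natAbs_dvd_natAbs.2 h1
  rw [Int.natAbs_natCast] at h2
  have h3 := Nat.le_of_dvd (Int.natAbs_pos.2 (discr_ne_zero L)) h2
  omega

theorem values_sup_gen (C : Finset QQ) : ∃ N : ℕ, ∀ l : ℕ, l.Prime → N < l →
    ∀ W : ValuationSubring QQ, (l : QQ) ∈ W.nonunits → ∀ K : IntermediateField ℚ QQ,
      ∀ b ∈ K ⊔ IntermediateField.adjoin ℚ (C : Set QQ), b ≠ 0 →
        ∃ c ∈ K, c ≠ 0 ∧ W.valuation b = W.valuation c := by
  have hfin : Finite (C : Set QQ) := inferInstance
  have : FiniteDimensional ℚ (IntermediateField.adjoin ℚ (C : Set QQ)) :=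
    IntermediateField.finiteDimensional_adjoin fun y _ => integral_UnrK y
  have : NumberField (IntermediateField.adjoin ℚ (C : Set QQ)) := numberField_UnrK _
  exact ⟨(discr (IntermediateField.adjoin ℚ (C : Set QQ))).natAbs,
    fun l hl hN W hW K b hb hb0 => value_sup hl (not_dvd_UnrK _ hN) hW hb hb0⟩

theorem values_sup (C : Finset QQ) : ∃ N : ℕ, ∀ l : ℕ, l.Prime → N < l →
    ∀ W : ValuationSubring QQ, (l : QQ) ∈ W.nonunits → ∀ K : IntermediateField ℚ QQ,
      UnrAt K W l → UnrAt (K ⊔ IntermediateField.adjoin ℚ (C : Set QQ)) W l := by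
  obtain ⟨N, hN⟩ := values_sup_gen C
  refine ⟨N, fun l hl hl' W hW K hK b hb hb0 => ?_⟩
  obtain ⟨c, hc, hc0, hbc⟩ := hN l hl hl' W hW K b hb hb0
  rw [hbc]
  exact hK c hc hc0

/-- If there are infinitely many primes `l` which do not divide the discriminant of any number field
contained in `K`, then `K` has many unramified primes. -/
theorem manyUnr_of_discr {K : IntermediateField ℚ QQ}
    (hK : ∀ N : ℕ, ∃ l : ℕ, l.Prime ∧ N < l ∧
      ∀ (E : IntermediateField ℚ QQ) [NumberField E], E ≤ K → ¬ (l : ℤ) ∣ discr E) :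
    ManyUnr K := by
  intro N
  obtain ⟨l, hl, hN, h⟩ := hK N
  obtain ⟨W, hW⟩ := exists_over hl
  refine ⟨l, hl, hN, W, hW, fun c hc hc0 => ?_⟩
  have : FiniteDimensional ℚ (IntermediateField.adjoin ℚ {c}) :=
    IntermediateField.adjoin.finiteDimensional (integral_UnrK c)
  have : NumberField (IntermediateField.adjoin ℚ {c}) := numberField_UnrK _
  exact value_unr hl (h _ (IntermediateField.adjoin_simple_le_iff.2 hc)) hW
    (IntermediateField.mem_adjoin_simple_self ℚ c) hc0

/-- number fields -/
theorem manyUnr_of_finite (K : IntermediateField ℚ QQ) [FiniteDimensional ℚ K] : ManyUnr K := by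
  intro N
  have : NumberField K := numberField_UnrK K
  obtain ⟨l, hl, hl'⟩ := Nat.exists_infinite_primes (max N (discr K).natAbs + 1)
  obtain ⟨W, hW⟩ := exists_over hl'
  exact ⟨l, hl', by omega, W, hW, fun c hc hc0 =>
    value_unr hl' (not_dvd_UnrK K (by omega)) hW hc hc0⟩

end Pool.Agent.Clo
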