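import Pool.Agent.Clo.MildDef
import Pool.Agent.Clo.UnrK

/-!
# Adjoining algebraic numbers with unramified primes does not change the values

`values_sup_mild` is `values_sup_gen` (inertia groups in a finite Galois closure). Fields with
infinitely many unramified primes, in particular number fields, are mildly ramified
(`mild_of_manyUnr`, `mild_of_finite`): the value of `l` is not a `p`-th power.
-/

set_option autoImplicit false

noncomputable section

namespace Pool.Agent.Clo

open Pool.Agent.ZCyc Pool.Agent.Dess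

theorem values_sup_mild (C : Finset QQ) : ∃ N : ℕ, ∀ l : ℕ, l.Prime → N < l →
    ∀ W : ValuationSubring QQ, (l : QQ) ∈ W.nonunits → ∀ K : IntermediateField ℚ QQ,
      ∀ b ∈ K ⊔ IntermediateField.adjoin ℚ (C : Set QQ), b ≠ 0 →
        ∃ c ∈ K, W.valuation b = W.valuation c := by
  obtain ⟨N, hN⟩ := values_sup_gen C
  refine ⟨N, fun l hl hl' W hW K b hb hb0 => ?_⟩
  obtain ⟨c, hc, -, hbc⟩ := hN l hl hl' W hW K b hb hb0
  exact ⟨c, hc, hbc⟩

theorem mild_of_manyUnr {K : IntermediateField ℚ QQ} (hK : ManyUnr K) : Mild K := by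
  intro N
  obtain ⟨l, hl, hN, W, hW, h⟩ := hK N
  refine ⟨l, hl, hN, W, hW, fun p hp _ => ⟨(l : QQ), natCast_mem K l, fun b hb he => ?_⟩⟩
  have hl0 : (l : QQ) ≠ 0 := by exact_mod_cast hl.ne_zero
  have h0 : 0 < W.valuation (l : QQ) := zero_lt_iff.2 ((Valuation.ne_zero_iff _).2 hl0)
  have h1 : W.valuation (l : QQ) < 1 := (W.mem_nonunits_iff).1 hW
  rcases eq_or_ne b 0 with rfl | hb0
  · rw [map_zero, zero_pow hp.ne_zero] at he
    exact h0.ne he
  · obtain ⟨m, hm⟩ := h b hb hb0
    rw [hm, ← zpow_natCast, ← zpow_mul] at he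
    have h2 : W.valuation (l : QQ) ^ (m * (p : ℤ)) = W.valuation (l : QQ) ^ (1 : ℤ) := by
      rw [he, zpow_one]
    have h3 := zpow_right_injective₀ h0 h1.ne h2
    have h4 : (p : ℤ) ∣ 1 := ⟨m, by rw [mul_comm]; exact h3.symm⟩
    have h5 : p ∣ 1 := by exact_mod_cast h4
    exact hp.one_lt.ne' (Nat.dvd_one.1 h5)

/-- number fields -/
theorem mild_of_finite (K : IntermediateField ℚ QQ) [FiniteDimensional ℚ K] : Mild K :=
  mild_of_manyUnr (manyUnr_of_finite K)

end Pool.Agent.Clo
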