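import Pool.Agent.Dess.Defs

/-!
# Fields in which infinitely many primes are unramified: definitions

`K` is a field of algebraic numbers, possibly of infinite degree over `ℚ`. It is unramified at the
valuation ring `W` above `l` if all values of `K` are powers of the value of `l`.
-/

set_option autoImplicit false

noncomputable section

namespace Pool.Agent.Clo

open Pool.Agent.ZCyc Pool.Agent.Dess

/-- The values of the nonzero elements of the field `K` of algebraic numbers are powers of the value
of the prime number `l`, for the valuation ring `W`. -/
def UnrAt (K : IntermediateField ℚ QQ) (W : ValuationSubring QQ) (l : ℕ) : Prop :=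
  ∀ c ∈ K, c ≠ 0 → ∃ m : ℤ, W.valuation c = W.valuation (l : QQ) ^ m

/-- There are infinitely many prime numbers `l` such that the field `K` is unramified at a place
above `l`. -/
def ManyUnr (K : IntermediateField ℚ QQ) : Prop :=
  ∀ N : ℕ, ∃ l : ℕ, l.Prime ∧ N < l ∧ ∃ W : ValuationSubring QQ,
    (l : QQ) ∈ W.nonunits ∧ UnrAt K W l

end Pool.Agent.Clo
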