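import Pool.Agent.Clo.BVal
import Pool.Agent.Clo.UnrDef
import Pool.Agent.Clo.Pull
import Pool.Agent.Clo.ArFib
import Pool.Agent.Clo.Defs
import Pool.Agent.Clo.ArUnit
import Pool.Agent.Clo.ArVal
import Pool.Agent.Clo.ArOrb
import Pool.Agent.Clo.MildDef
import Pool.Agent.Clo.MPow
import Pool.Agent.Clo.MComb
import Pool.Agent.Clo.MHt
import Pool.Agent.Clo.MVal
import Pool.Agent.Clo.ArAlm
import Pool.Agent.Clo.ArNear
import Pool.Agent.Clo.ArLift
import Pool.Agent.Clo.ArCount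
import Pool.Agent.Clo.ArHt
import Pool.Agent.Dess.Tuple
import Pool.Agent.Dess4.Bel

/-!
# Irreducible fibres over mildly ramified fields, with more data

This is the proof of `OrbitM.lean`; the conclusion contains in addition the field `E = L(t)`, the
transitivity over `E`, and a place above `l` with the value of `z` at a point of the fibre.
-/

set_option autoImplicit false

noncomputable section

namespace Pool.Agent.Clo

open Pool.Agent.ZCyc Pool.Agent.Dess Pool.Agent.Dess4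

variable {F : Type} [Field F] [Algebra QQ F]

/-- conjugate points over the field `L(t)` -/
private def OrbRel (S : Finset F) (L : IntermediateField ℚ QQ) (t : QQ) (x x' : Place QQ F) :
    Prop :=
  ∃ (ρ : Gam) (r : F ≃+* F), (∀ c ∈ L, ρ c = c) ∧ ρ t = t ∧ Fixes S ρ r ∧ Moves r x x'

private lemma orbRel_symm {S : Finset F} {L : IntermediateField ℚ QQ} {t : QQ}
    {x x' : Place QQ F} (h : OrbRel S L t x x') : OrbRel S L t x' x := by
  obtain ⟨ρ, r, h1, h2, h3, h4⟩ := h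
  refine ⟨ρ.symm, r.symm, fun c hc => ?_, ?_, ⟨fun s hs => ?_, fun c => ?_⟩, ?_⟩
  · rw [AlgEquiv.symm_apply_eq, h1 c hc]
  · rw [AlgEquiv.symm_apply_eq, h2]
  · rw [RingEquiv.symm_apply_eq, h3.1 s hs]
  · rw [RingEquiv.symm_apply_eq, h3.2, AlgEquiv.apply_symm_apply]
  · unfold Moves at *
    ext f
    have e1 : f ∈ x.ring.comap (r.symm : F →+* F) ↔ r.symm f ∈ x.ring :=
      ValuationSubring.mem_comap
    have e2 : r.symm f ∈ x'.ring.comap (r : F →+* F) ↔ r (r.symm f) ∈ x'.ring :=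
      ValuationSubring.mem_comap
    rw [e1, ← h4, e2, RingEquiv.apply_symm_apply]

private lemma orbRel_trans {S : Finset F} {L : IntermediateField ℚ QQ} {t : QQ}
    {x x' x'' : Place QQ F} (h : OrbRel S L t x x') (h' : OrbRel S L t x' x'') :
    OrbRel S L t x x'' := by
  obtain ⟨ρ, r, h1, h2, h3, h4⟩ := h
  obtain ⟨ρ', r', h1', h2', h3', h4'⟩ := h'
  refine ⟨ρ.trans ρ', r.trans r', fun c hc => ?_, ?_, ⟨fun s hs => ?_, fun c => ?_⟩, ?_⟩
  · rw [AlgEquiv.trans_apply, h1 c hc, h1' c hc]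
  · rw [AlgEquiv.trans_apply, h2, h2']
  · rw [RingEquiv.trans_apply, h3.1 s hs, h3'.1 s hs]
  · rw [RingEquiv.trans_apply, h3.2, h3'.2, AlgEquiv.trans_apply]
  · unfold Moves at *
    ext f
    have e1 : f ∈ x''.ring.comap ((r.trans r' : F ≃+* F) : F →+* F) ↔ r' (r f) ∈ x''.ring :=
      ValuationSubring.mem_comap
    have e2 : r f ∈ x''.ring.comap (r' : F →+* F) ↔ r' (r f) ∈ x''.ring :=
      ValuationSubring.mem_comap
    have e3 : f ∈ x'.ring.comap (r : F →+* F) ↔ r f ∈ x'.ring := ValuationSubring.mem_comap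
    rw [e1, ← e2, h4', ← e3, h4]

private lemma orbRel_at {S : Finset F} {L : IntermediateField ℚ QQ} {t : QQ}
    {x x' : Place QQ F} (h : OrbRel S L t x x') {φ : F} (hφ : φ ∈ S) (hx : x.At φ t) :
    x'.At φ t := by
  obtain ⟨ρ, r, h1, h2, h3, h4⟩ := h
  have h5 := (tuple_at h4 ρ h3.2 φ t).1 hx
  have h6 : (r : F →+* F) φ = φ := h3.1 φ hφ
  rwa [h6, h2] at h5

/-- a point has at least as many conjugates as its value at a function -/
private lemma orbRel_card (hF : IsCurve QQ F) {S : Finset F} {L : IntermediateField ℚ QQ} {t : QQ}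
    {φ ψ : F} (hφ : φ ∈ S) (hψ : ψ ∈ S)
    (hlift : ∀ ρ : Gam, (∀ c ∈ L, ρ c = c) → ∃ r : F ≃+* F, Fixes S ρ r)
    (hfin : {x : Place QQ F | x.At φ t}.Finite) {x : Place QQ F} {a : QQ} (hx : x.At φ t)
    (ha : x.At ψ a) {n : ℕ}
    (hn : n ≤ {b : QQ | ∃ ρ : Gam, (∀ c ∈ L, ρ c = c) ∧ ρ t = t ∧ ρ a = b}.ncard) :
    n ≤ {x' : Place QQ F | OrbRel S L t x x'}.ncard := by
  have h1 : ∀ b ∈ {b : QQ | ∃ ρ : Gam, (∀ c ∈ L, ρ c = c) ∧ ρ t = t ∧ ρ a = b},
      ∃ x' : Place QQ F, OrbRel S L t x x' ∧ x'.At ψ b := by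
    rintro b ⟨ρ, h1, h2, rfl⟩
    obtain ⟨r, hr⟩ := hlift ρ h1
    obtain ⟨x', hx', hat⟩ := exists_move hF ρ r hr.2 x
    refine ⟨x', ⟨ρ, r, h1, h2, hr, hx'⟩, ?_⟩
    have := (hat ψ a).1 ha
    rwa [hr.1 ψ hψ] at this
  have : Nonempty (Place QQ F) := ⟨x⟩
  choose! g hg1 hg2 using h1
  refine hn.trans (Set.ncard_le_ncard_of_injOn g (fun b hb => hg1 b hb) ?_ (hfin.subset ?_))
  · intro b hb b' hb' e
    exact (hg2 b hb).unique (e ▸ hg2 b' hb')
  · intro x' hx'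
    exact orbRel_at hx' hφ hx

/-- values of an element and its inverse -/
private lemma orb_val {W : ValuationSubring QQ} {s T : QQ} (h0 : T ≠ 0) (h1 : s / T ∈ W)
    (h2 : T / s ∈ W) (hs : s ≠ 0) : W.valuation s = W.valuation T := by
  have e1 := (W.valuation_le_one_iff _).2 h1
  have e2 := (W.valuation_le_one_iff _).2 h2
  rw [map_div₀] at e1 e2
  have p1 : 0 < W.valuation T := zero_lt_iff.2 ((Valuation.ne_zero_iff _).2 h0)
  have p2 : 0 < W.valuation s := zero_lt_iff.2 ((Valuation.ne_zero_iff _).2 hs)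
  rw [div_le_one₀ p1] at e1
  rw [div_le_one₀ p2] at e2
  exact le_antisymm e1 e2

/-- the number of conjugates, in terms of values -/
private lemma orb_conj (W : ValuationSubring QQ) (L : IntermediateField ℚ QQ) {π t T a : QQ}
    (hπ0 : π ≠ 0) (hπL : π ∈ L) {k n e : ℕ} (hk : 0 < k)
    (hn : 0 < n)
    (hdiv : ∀ p : ℕ, p.Prime → p ∣ k * n → ∀ b ∈ L, W.valuation b ^ p ≠ W.valuation π)
    (hT : W.valuation T ^ k * W.valuation π = 1) (hTk : T ^ k ∈ L)
    (hTt : T = t ∨ T = t⁻¹) (haW : a ∉ W) (hTW : T ∉ W)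
    (ha : a ^ n / T ^ e ∈ W ∧ T ^ e / a ^ n ∈ W) (hen : Nat.Coprime e n) :
    n ≤ {b : QQ | ∃ ρ : Gam, (∀ c ∈ L, ρ c = c) ∧ ρ t = t ∧ ρ a = b}.ncard := by
  have ha0 : a ≠ 0 := by
    rintro rfl
    exact haW (zero_mem _)
  have hT0 : T ≠ 0 := by
    rintro rfl
    exact hTW (zero_mem _)
  have h1 := orb_val (pow_ne_zero e hT0) ha.1 ha.2 (pow_ne_zero n ha0)
  rw [map_pow, map_pow] at h1
  have h2 := power_independent_mild W L hπ0 hπL hk hn hdiv hT h1 hen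
  have h3 := conj_card L hk hTk h2
  have h4 : {b : QQ | ∃ ρ : Gam, (∀ c ∈ L, ρ c = c) ∧ ρ T = T ∧ ρ a = b} =
      {b : QQ | ∃ ρ : Gam, (∀ c ∈ L, ρ c = c) ∧ ρ t = t ∧ ρ a = b} := by
    ext b
    simp only [Set.mem_ofPred_eq]
    apply exists_congr
    intro ρ
    have : ρ T = T ↔ ρ t = t := by
      rcases hTt with rfl | rfl
      · rfl
      · rw [map_inv₀, inv_inj]
    rw [this]
  rwa [h4] at h3

/-- an automorphism which fixes `L` and `t` fixes `L(t)` -/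
private lemma orb_fix_sup {L : IntermediateField ℚ QQ} {t : QQ} {ρ : Gam}
    (h1 : ∀ c ∈ L, ρ c = c) (h2 : ρ t = t) :
    ∀ c ∈ L ⊔ IntermediateField.adjoin ℚ {t}, ρ c = c := by
  have key : ∀ (σ : Gam), σ ∈ Subgroup.zpowers ρ → ∀ c : QQ, ρ c = c → σ c = c := by
    rintro σ ⟨n, rfl⟩ c hc
    have h3 : ρ ∈ MulAction.stabilizer Gam c := hc
    exact (MulAction.stabilizer Gam c).zpow_mem h3 n
  have h3 : L ⊔ IntermediateField.adjoin ℚ {t} ≤
      IntermediateField.fixedField (Subgroup.zpowers ρ) := by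
    refine sup_le (fun c hc => ?_) (IntermediateField.adjoin_le_iff.2 ?_)
    · exact fun σ => key σ.1 σ.2 c (h1 c hc)
    · intro c hc
      rw [Set.mem_singleton_iff] at hc
      subst hc
      exact fun σ => key σ.1 σ.2 c h2
  intro c hc
  exact h3 hc ⟨ρ, Subgroup.mem_zpowers ρ⟩

/-- the finite set of all conjugates of the elements of a finite set -/
theorem stable_set (C₀ : Finset QQ) : ∃ C : Finset QQ, C₀ ⊆ C ∧
    ∀ τ : Gam, ∀ c ∈ C, τ c ∈ C := by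
  classical
  refine ⟨C₀.biUnion fun c => ((minpoly ℚ c).rootSet_finite QQ).toFinset, ?_, ?_⟩
  · intro c hc
    rw [Finset.mem_biUnion]
    refine ⟨c, hc, ?_⟩
    rw [Set.Finite.mem_toFinset, Polynomial.mem_rootSet]
    exact ⟨minpoly.ne_zero (Algebra.IsIntegral.isIntegral c), minpoly.aeval ℚ c⟩
  · intro τ c hc
    rw [Finset.mem_biUnion] at hc ⊢
    obtain ⟨d, hd, hc⟩ := hc
    refine ⟨d, hd, ?_⟩
    rw [Set.Finite.mem_toFinset, Polynomial.mem_rootSet] at hc ⊢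
    refine ⟨hc.1, ?_⟩
    have h1 := congrArg τ hc.2
    rw [map_zero] at h1
    rw [← h1]
    exact Polynomial.aeval_algHom_apply (τ : QQ →ₐ[ℚ] QQ) c _

/-- The arithmetic conditions on the parameter `t` of the fibre: two large prime numbers `l` and
`l'` and places above them, such that the value of `t ^ k` is the inverse of an indivisible value of
the field `K` at the first one and an indivisible value at the second one. -/
structure Param (K : IntermediateField ℚ QQ) (N D : ℕ) (t : QQ) where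
  l : ℕ
  l' : ℕ
  W : ValuationSubring QQ
  W' : ValuationSubring QQ
  π : QQ
  π' : QQ
  k : ℕ
  hl : l.Prime
  hl' : l'.Prime
  hlN : N < l
  hlN' : N < l'
  hW : (l : QQ) ∈ W.nonunits
  hW' : (l' : QQ) ∈ W'.nonunits
  hπK : π ∈ K
  hπK' : π' ∈ K
  hπ0 : π ≠ 0
  hπ0' : π' ≠ 0
  hπW : π ∈ W.nonunits
  hπW' : π' ∈ W'.nonunits
  hπd : ∀ p : ℕ, p.Prime → p ∣ k * D → ∀ b ∈ K, W.valuation b ^ p ≠ W.valuation π
  hπd' : ∀ p : ℕ, p.Prime → p ∣ k * D → ∀ b ∈ K, W'.valuation b ^ p ≠ W'.valuation π'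
  hk0 : 0 < k
  htK : t ^ k ∈ K
  ht0 : t ≠ 0
  hval : W.valuation t ^ k * W.valuation π = 1
  hval' : W'.valuation t⁻¹ ^ k * W'.valuation π' = 1

theorem orbit_core (hF : IsCurve QQ F) {φ y z u : F} {p q r : Place QQ F}
    {n1 n2 m e1 e2 e3 : ℕ} (h : Fib φ y z u p q r n1 n2 m e1 e2 e3)
    (S : Finset F) (Bad C₀ : Finset QQ) : ∃ (S' : Finset F) (C : Finset QQ) (N₀ : ℕ),
      C₀ ⊆ C ∧ (∀ τ : Gam, ∀ c ∈ C, τ c ∈ C) ∧ S ⊆ S' ∧ φ ∈ S' ∧
      z ∈ S' ∧ IntermediateField.adjoin QQ (S' : Set F) = ⊤ ∧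
      (∀ ρ : Gam, (∀ c ∈ C, ρ c = c) → ∃ r : F ≃+* F, Fixes S' ρ r) ∧
      ∀ (K : IntermediateField ℚ QQ) (t : QQ), Param K N₀ (n1 * n2 * m) t → t ∉ Bad ∧
      (∀ x x' : Place QQ F, x.At φ t → x'.At φ t → ∃ (ρ : Gam) (r : F ≃+* F),
        (∀ c ∈ K ⊔ IntermediateField.adjoin ℚ (C : Set QQ) ⊔ IntermediateField.adjoin ℚ {t},
          ρ c = c) ∧ Fixes S' ρ r ∧ Moves r x x') ∧
      (n2.Prime → ∃ (W : ValuationSubring QQ) (l : ℕ) (x : Place QQ F) (b : QQ), l.Prime ∧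
        (l : QQ) ∈ W.nonunits ∧ x.At φ t ∧ x.At z b ∧
        W.valuation b ^ n2 = W.valuation t ^ e2 ∧
        ∀ d ∈ K ⊔ IntermediateField.adjoin ℚ (C : Set QQ) ⊔ IntermediateField.adjoin ℚ {t},
          W.valuation d ^ n2 ≠ W.valuation t) := by
  classical
  have hm : 0 < m := lt_trans h.n1_pos h.lt1
  -- poles
  have hφp : φ ∉ p.ring := two_notMem h.phi_ne h.n1_pos h.ordp
  have hφq : φ ∉ q.ring := two_notMem h.phi_ne h.n2_pos h.ordq
  have hyp : y ∉ p.ring := two_notMem h.y_ne h.e1_pos h.y_ord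
  have hzq : z ∉ q.ring := two_notMem h.z_ne h.e2_pos h.z_ord
  have hur : u ∉ r.ring := two_notMem h.u_ne h.e3_pos h.u_ord
  have hφi : HasOrd r φ⁻¹ (-(m : ℤ)) := by
    obtain ⟨ϖ, hϖ, g1, g2⟩ := h.ordr
    have e : φ⁻¹ / ϖ ^ (-(m : ℤ)) = (φ / ϖ ^ (m : ℤ))⁻¹ := by
      rw [zpow_neg, div_inv_eq_mul, inv_div, mul_comm, div_eq_mul_inv]
    refine ⟨ϖ, hϖ, ?_, ?_⟩
    · rw [e]
      exact g2
    · rw [e, inv_inv]
      exact g1
  have hφir : φ⁻¹ ∉ r.ring := two_notMem (inv_ne_zero h.phi_ne) hm hφi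
  have hyzp : y + z ∉ p.ring := by
    intro hc
    apply hyp
    have := sub_mem hc (h.z_reg p h.ne)
    rwa [add_sub_cancel_right] at this
  have hyzq : y + z ∉ q.ring := by
    intro hc
    apply hzq
    have := sub_mem hc (h.y_reg q h.ne.symm)
    rwa [add_sub_cancel_left] at this
  -- the finite set of constants
  obtain ⟨S₁, hS₁⟩ := exists_gens hF
  set S' : Finset F := S ∪ {φ, y, z, u} ∪ S₁ with hS'
  have hφS : φ ∈ S' := by simp [hS']
  have hyS : y ∈ S' := by simp [hS']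
  have hzS : z ∈ S' := by simp [hS']
  have huS : u ∈ S' := by simp [hS']
  obtain ⟨C1, hC1⟩ := exists_lift hF S'
  obtain ⟨C2, hC2⟩ := exists_bound_set hF (g := y + z) (f := φ) (bel_transc hyzp) (by
    intro v hv
    apply h.reg
    · rintro rfl
      exact hyzp hv
    · rintro rfl
      exact hyzq hv)
  obtain ⟨C3, hC3⟩ := unit_of_orders hF h.n1_pos h.e1_pos h.ordp h.y_ord h.y_reg (by
    intro v hvp hv
    have : v = q := by
      by_contra hvq
      exact hv (h.reg v hvp hvq)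
    rw [this]
    exact h.y_van)
  obtain ⟨C4, hC4⟩ := unit_of_orders hF h.n2_pos h.e2_pos h.ordq h.z_ord h.z_reg (by
    intro v hvq hv
    have : v = p := by
      by_contra hvp
      exact hv (h.reg v hvp hvq)
    rw [this]
    exact h.z_van)
  obtain ⟨C5, hC5⟩ := unit_of_orders hF hm h.e3_pos hφi h.u_ord h.u_reg (by
    intro v hvr hv
    apply h.u_van v hvr
    rw [v.vanishes_iff_or]
    exact Or.inr hv)
  obtain ⟨C6, hC6⟩ := exists_near hF (s := φ⁻¹) (u := u) (bel_transc hφir) (bel_transc hur) (by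
    intro v hv
    apply h.u_reg
    rintro rfl
    exact hφir hv)
  obtain ⟨C7, hC7⟩ := exists_near hF (s := φ) (u := z) (bel_transc hφp) (bel_transc hzq) (by
    intro v hv
    apply h.z_reg
    rintro rfl
    exact hφq hv)
  obtain ⟨C, hC, hCstab⟩ := stable_set (C1 ∪ C2 ∪ C3 ∪ C4 ∪ C5 ∪ C6 ∪ C7 ∪ Bad ∪ C₀)
  simp only [Finset.union_subset_iff] at hC
  obtain ⟨⟨⟨⟨⟨⟨⟨⟨HC1, HC2⟩, HC3⟩, HC4⟩, HC5⟩, HC6⟩, HC7⟩, HBad⟩, HC0⟩ := hC
  obtain ⟨N1, hN1⟩ := values_sup_mild C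
  obtain ⟨N2, hN2⟩ := mem_almost_all C
  have hgen : IntermediateField.adjoin QQ (S' : Set F) = ⊤ := by
    rw [eq_top_iff, ← hS₁]
    apply IntermediateField.adjoin.mono
    intro f hf
    rw [Finset.mem_coe] at hf ⊢
    rw [hS']
    exact Finset.mem_union_right _ hf
  refine ⟨S', C, N1 + N2, HC0, hCstab, fun f hf => by simp [hS', hf], hφS, hzS, hgen,
    fun ρ hρ => ?_, fun K t P => ?_⟩
  · obtain ⟨r, hr1, hr2⟩ := hC1 ρ fun c hc => hρ c (HC1 hc)
    exact ⟨r, hr2, hr1⟩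
  obtain ⟨l, l', W, W', π, π', k, hl, hl', hlN, hlN', hW, hW', hπK, hπK', hπ0, hπ0', hπW, hπW',
    hπd, hπd', hk0, htK, ht0, hval, hval'⟩ := P
  set L : IntermediateField ℚ QQ := K ⊔ IntermediateField.adjoin ℚ (C : Set QQ) with hLdef
  have hKL : K ≤ L := le_sup_left
  have hCL : ∀ c ∈ C, c ∈ L := fun c hc =>
    (le_sup_right : IntermediateField.adjoin ℚ (C : Set QQ) ≤ L)
      (IntermediateField.subset_adjoin ℚ _ hc)
  set D : ℕ := n1 * n2 * m with hD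
  have hkn : ∀ n : ℕ, n ∣ D → ∀ p : ℕ, p ∣ k * n → p ∣ k * D := fun n hn p hpk =>
    hpk.trans (Nat.mul_dvd_mul_left k hn)
  have hWC : ∀ c ∈ C, c ∈ W := hN2 l hl (by omega) W hW
  have hWC' : ∀ c ∈ C, c ∈ W' := hN2 l' hl' (by omega) W' hW'
  have hWL := hN1 l hl (by omega) W hW K
  have hWL' := hN1 l' hl' (by omega) W' hW' K
  have hdivL : ∀ n : ℕ, n ∣ D → ∀ p : ℕ, p.Prime → p ∣ k * n →
      ∀ b ∈ L, W.valuation b ^ p ≠ W.valuation π := by
    intro n hn p hp hpk b hb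
    by_cases hb0 : b = 0
    · rw [hb0, map_zero, zero_pow hp.ne_zero]
      exact ((Valuation.ne_zero_iff _).2 hπ0).symm
    · obtain ⟨c, hc, hbc⟩ := hWL b hb hb0
      rw [hbc]
      exact hπd p hp (hkn n hn p hpk) c hc
  have hdivL' : ∀ n : ℕ, n ∣ D → ∀ p : ℕ, p.Prime → p ∣ k * n →
      ∀ b ∈ L, W'.valuation b ^ p ≠ W'.valuation π' := by
    intro n hn p hp hpk b hb
    by_cases hb0 : b = 0
    · rw [hb0, map_zero, zero_pow hp.ne_zero]
      exact ((Valuation.ne_zero_iff _).2 hπ0').symm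
    · obtain ⟨c, hc, hbc⟩ := hWL' b hb hb0
      rw [hbc]
      exact hπd' p hp (hkn n hn p hpk) c hc
  have hnot : ∀ (V : ValuationSubring QQ) (T π : QQ), π ∈ V.nonunits →
      V.valuation T ^ k * V.valuation π = 1 → T ∉ V := by
    intro V T π hπ hv hT
    have g1 : V.valuation T ^ k ≤ 1 := pow_le_one' ((V.valuation_le_one_iff _).2 hT) k
    have g2 : V.valuation π < 1 := hπ
    have g3 : V.valuation T ^ k * V.valuation π ≤ V.valuation π := by
      calc V.valuation T ^ k * V.valuation π ≤ 1 * V.valuation π := by gcongr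
        _ = V.valuation π := one_mul _
    rw [hv] at g3
    exact absurd g2 (not_lt.2 g3)
  have htW : t ∉ W := hnot W t π hπW hval
  have htW' : t⁻¹ ∉ W' := hnot W' t⁻¹ π' hπW' hval'
  have hπL : π ∈ L := hKL hπK
  have hπL' : π' ∈ L := hKL hπK'
  have htL : t ^ k ∈ L := hKL htK
  have htL' : t⁻¹ ^ k ∈ L := by
    rw [inv_pow]
    exact inv_mem htL
  have hd1 : n1 ∣ D := ⟨n2 * m, by rw [hD, mul_assoc]⟩
  have hd2 : n2 ∣ D := ⟨n1 * m, by rw [hD]; ring⟩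
  have hd3 : m ∣ D := Dvd.intro_left _ rfl
  have htE : t ∈ L ⊔ IntermediateField.adjoin ℚ {t} :=
    (le_sup_right : IntermediateField.adjoin ℚ {t} ≤ L ⊔ IntermediateField.adjoin ℚ {t})
      (IntermediateField.subset_adjoin ℚ _ (Set.mem_singleton t))
  refine ⟨fun hB => htW (hWC t (HBad hB)), ?_, ?_⟩
  rotate_left
  · intro hn2
    obtain ⟨x, b, hx, hb, hbW⟩ := hC7 W (fun c hc => hWC c (HC7 hc)) t htW
    have g1 := hC4 W (fun c hc => hWC c (HC4 hc)) x t b hx hb htW hbW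
    have hb0 : b ≠ 0 := by
      rintro rfl
      exact hbW (zero_mem _)
    have g2 := orb_val (pow_ne_zero e2 ht0) g1.1 g1.2 (pow_ne_zero n2 hb0)
    rw [map_pow, map_pow] at g2
    exact ⟨W, l, x, b, hl, hW, hx, hb, g2, not_pow_adjoin W L hπ0 hπL hk0 htL hval hn2
      (hdivL n2 hd2)⟩
  -- lifts
  have hlift : ∀ ρ : Gam, (∀ c ∈ L, ρ c = c) → ∃ r : F ≃+* F, Fixes S' ρ r := by
    intro ρ hρ
    obtain ⟨r, hr1, hr2⟩ := hC1 ρ fun c hc => hρ c (hCL c (HC1 hc))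
    exact ⟨r, hr2, hr1⟩
  obtain ⟨hfin, hcard⟩ := fiber_count hF h.ne h.phi_ne h.n1_pos h.n2_pos h.ordp h.ordq h.reg t
  -- every orbit is large
  have hmin : ∀ x : Place QQ F, x.At φ t → min n1 n2 ≤ {x' | OrbRel S' L t x x'}.ncard := by
    intro x hx
    have hxp : x ≠ p := by
      rintro rfl
      exact hφp hx.mem
    have hxq : x ≠ q := by
      rintro rfl
      exact hφq hx.mem
    obtain ⟨a, ha⟩ := exists_at hF x (h.y_reg x hxp)
    obtain ⟨b, hb⟩ := exists_at hF x (h.z_reg x hxq)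
    have hab : a ∉ W ∨ b ∉ W := by
      by_contra hc
      push Not at hc
      exact htW (hC2 W (fun c hc => hWC c (HC2 hc)) x (a + b) t (ha.add hb) hx
        (add_mem hc.1 hc.2))
    rcases hab with haW | hbW
    · have g1 := hC3 W (fun c hc => hWC c (HC3 hc)) x t a hx ha htW haW
      have g2 := orb_conj W L hπ0 hπL hk0 h.n1_pos (hdivL n1 hd1) hval htL
        (Or.inl rfl) haW htW g1 h.y_cop
      exact (min_le_left _ _).trans (orbRel_card hF hφS hyS hlift hfin hx ha g2)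
    · have g1 := hC4 W (fun c hc => hWC c (HC4 hc)) x t b hx hb htW hbW
      have g2 := orb_conj W L hπ0 hπL hk0 h.n2_pos (hdivL n2 hd2) hval htL
        (Or.inl rfl) hbW htW g1 h.z_cop
      exact (min_le_right _ _).trans (orbRel_card hF hφS hzS hlift hfin hx hb g2)
  -- one orbit is very large
  obtain ⟨x₀, a₀, hx₀, ha₀, haW₀⟩ := hC6 W' (fun c hc => hWC' c (HC6 hc)) t⁻¹ htW'
  have hx₀' : x₀.At φ t := by
    have := hx₀.inv (inv_ne_zero ht0)
    rwa [inv_inv, inv_inv] at this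
  have hbig : m ≤ {x' | OrbRel S' L t x₀ x'}.ncard := by
    have g1 := hC5 W' (fun c hc => hWC' c (HC5 hc)) x₀ t⁻¹ a₀ hx₀ ha₀ htW' haW₀
    have g2 := orb_conj W' L hπ0' hπL' hk0 hm (hdivL' m hd3) hval' htL'
      (Or.inr rfl) haW₀ htW' g1 h.u_cop
    exact orbRel_card hF hφS huS hlift hfin hx₀' ha₀ g2
  have hone : ∀ x : Place QQ F, x.At φ t → OrbRel S' L t x₀ x := by
    intro x hx
    by_contra hne
    have hsub : {x' | OrbRel S' L t x₀ x'} ∪ {x' | OrbRel S' L t x x'} ⊆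
        {x : Place QQ F | x.At φ t} := by
      rintro x' (hx' | hx')
      · exact orbRel_at hx' hφS hx₀'
      · exact orbRel_at hx' hφS hx
    have hdis : Disjoint {x' | OrbRel S' L t x₀ x'} {x' | OrbRel S' L t x x'} := by
      rw [Set.disjoint_left]
      intro x' g1 g2
      exact hne (orbRel_trans g1 (orbRel_symm g2))
    have g3 := Set.ncard_union_eq hdis (hfin.subset (Set.subset_union_left.trans hsub))
      (hfin.subset (Set.subset_union_right.trans hsub))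
    have g4 := Set.ncard_le_ncard hsub hfin
    have g5 := hmin x hx
    have g6 := h.lt1
    have g7 := h.lt2
    rcases le_total n1 n2 with g8 | g8
    · rw [min_eq_left g8] at g5
      omega
    · rw [min_eq_right g8] at g5
      omega
  intro x x' hx hx'
  obtain ⟨ρ, r, g0, g00, g1, g2⟩ := orbRel_trans (orbRel_symm (hone x hx)) (hone x' hx')
  exact ⟨ρ, r, orb_fix_sup g0 g00, g1, g2⟩

/-- parameters of height at most one, over mildly ramified fields -/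
theorem exists_param_ht {K : IntermediateField ℚ QQ} (hK : Mild K) (N₀ : ℕ) {D : ℕ}
    (hD0 : D ≠ 0) (hD1 : D ≠ 1) : ∃ t : QQ, NumberField.absLogHeight₁ t ≤ 1 ∧
      Nonempty (Param K N₀ D t) := by
  obtain ⟨l, hl, hlN, W, hW, hKW⟩ := hK (N₀ + D)
  obtain ⟨l', hl', hlN', W', hW', hKW'⟩ := hK (N₀ + D + l)
  have hne : l ≠ l' := by omega
  have hpD : ∀ p : ℕ, p ∣ D → p ≤ D := fun p hp => Nat.le_of_dvd (Nat.pos_of_ne_zero hD0) hp
  obtain ⟨π, hπK, hπ0, hπW, hπd⟩ := exists_indivisible hl hW hD0 fun p hp hpd =>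
    hKW p hp ((hpD p hpd).trans (by omega))
  obtain ⟨π', hπK', hπ0', hπW', hπd'⟩ := exists_indivisible hl' hW' hD0 fun p hp hpd =>
    hKW' p hp ((hpD p hpd).trans (by omega))
  obtain ⟨a, haK, ha, ha'⟩ := exists_approx hl hl' hne hW hW' hπK hπ0
  obtain ⟨a', haK', hb', hb⟩ := exists_approx hl' hl hne.symm hW' hW hπK' hπ0'
  have ha0 : a ≠ 0 := by
    rintro rfl
    rw [map_zero] at ha'
    exact zero_ne_one ha'
  have ha0' : a' ≠ 0 := by
    rintro rfl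
    rw [map_zero] at hb
    exact zero_ne_one hb
  obtain ⟨p₀, hp₀p, hp₀D⟩ := Nat.exists_prime_and_dvd hD1
  set k : ℕ := p₀ ^ (⌈NumberField.absLogHeight₁ (a' / a)⌉₊ + 1) with hk
  have hk0 : 0 < k := pow_pos hp₀p.pos _
  have hk1 : NumberField.absLogHeight₁ (a' / a) ≤ k := by
    have h1 := Nat.le_ceil (NumberField.absLogHeight₁ (a' / a))
    have h2 : ⌈NumberField.absLogHeight₁ (a' / a)⌉₊ + 1 < k := Nat.lt_pow_self hp₀p.one_lt
    have h3 : (⌈NumberField.absLogHeight₁ (a' / a)⌉₊ : ℝ) ≤ (k : ℝ) := by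
      exact_mod_cast (by omega : ⌈NumberField.absLogHeight₁ (a' / a)⌉₊ ≤ k)
    exact h1.trans h3
  obtain ⟨t, ht⟩ := IsAlgClosed.exists_pow_nat_eq (a' / a) hk0
  have ht0 : t ≠ 0 := by
    rintro rfl
    rw [zero_pow hk0.ne'] at ht
    exact (div_ne_zero ha0' ha0) ht.symm
  have hkD : ∀ p : ℕ, p.Prime → p ∣ k * D → p ∣ D := by
    intro p hp hpk
    rcases hp.dvd_mul.1 hpk with h1 | h1
    · exact (hp.dvd_of_dvd_pow h1).trans hp₀D
    · exact h1
  refine ⟨t, ?_, ⟨⟨l, l', W, W', π, π', k, hl, hl', by omega, by omega, hW, hW', hπK, hπK', hπ0,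
    hπ0', hπW, hπW', fun p hp h1 => hπd p hp (hkD p hp h1),
    fun p hp h1 => hπd' p hp (hkD p hp h1), hk0, ?_, ht0, ?_, ?_⟩⟩⟩
  · have h1 := ht_pow t k
    rw [ht] at h1
    have h2 : (0 : ℝ) < k := by exact_mod_cast hk0
    rw [h1] at hk1
    have h3 : (k : ℝ) * NumberField.absLogHeight₁ t ≤ k * 1 := by rwa [mul_one]
    exact le_of_mul_le_mul_left h3 h2
  · rw [ht]
    exact div_mem haK' haK
  · rw [← map_pow, ht, map_div₀, hb, ha, one_div]
    exact inv_mul_cancel₀ ((Valuation.ne_zero_iff _).2 hπ0)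
  · rw [← map_pow, inv_pow, ht, inv_div, map_div₀, hb', ha', one_div]
    exact inv_mul_cancel₀ ((Valuation.ne_zero_iff _).2 hπ0')

/-- rational parameters, over fields which are unramified at infinitely many prime numbers -/
theorem exists_param_rat {K : IntermediateField ℚ QQ} (hK : ManyUnr K) (N₀ : ℕ) {D : ℕ} :
    ∃ x : ℚ, Nonempty (Param K N₀ D (algebraMap ℚ QQ x)) := by
  obtain ⟨l, hl, hlN, W, hW, hKW⟩ := hK N₀
  obtain ⟨l', hl', hlN', W', hW', hKW'⟩ := hK (N₀ + l)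
  have hne : l ≠ l' := by omega
  have hl0 : (l : QQ) ≠ 0 := by exact_mod_cast hl.ne_zero
  have hl0' : (l' : QQ) ≠ 0 := by exact_mod_cast hl'.ne_zero
  have hcop : l.Coprime l' := (Nat.coprime_primes hl hl').2 hne
  have h2 := val_coprime hcop W hW
  have h3 := val_coprime hcop.symm W' hW'
  have hind : ∀ (V : ValuationSubring QQ) (d : ℕ), d.Prime → (d : QQ) ∈ V.nonunits →
      UnrAt K V d → ∀ p : ℕ, p.Prime → ∀ b ∈ K, V.valuation b ^ p ≠ V.valuation (d : QQ) := by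
    intro V d hd hV hu p hp b hb he
    have hd0 : (d : QQ) ≠ 0 := by exact_mod_cast hd.ne_zero
    have h0 : 0 < V.valuation (d : QQ) := zero_lt_iff.2 ((Valuation.ne_zero_iff _).2 hd0)
    have hlt : V.valuation (d : QQ) < 1 := (V.mem_nonunits_iff).1 hV
    have hb0 : b ≠ 0 := by
      rintro rfl
      rw [map_zero, zero_pow hp.ne_zero] at he
      exact h0.ne he
    obtain ⟨s, hs⟩ := hu b hb hb0
    rw [hs, ← zpow_natCast, ← zpow_mul] at he
    have h4 : V.valuation (d : QQ) ^ (s * p) = V.valuation (d : QQ) ^ (1 : ℤ) := by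
      rw [he, zpow_one]
    have h5 := (zpow_right_strictAnti₀ h0 hlt).injective h4
    have h6 : (p : ℤ) ∣ 1 := ⟨s, by rw [mul_comm]; exact h5.symm⟩
    have h7 := Int.natAbs_dvd_natAbs.2 h6
    rw [Int.natAbs_natCast, Int.natAbs_one, Nat.dvd_one] at h7
    exact hp.one_lt.ne' h7
  refine ⟨(l' : ℚ) / l, ⟨⟨l, l', W, W', l, l', 1, hl, hl', hlN, by omega, hW, hW',
    natCast_mem K l, natCast_mem K l', hl0, hl0', hW, hW',
    fun p hp _ b hb => hind W l hl hW hKW p hp b hb,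
    fun p hp _ b hb => hind W' l' hl' hW' hKW' p hp b hb, one_pos, ?_, ?_, ?_, ?_⟩⟩⟩
  · rw [pow_one, map_div₀, map_natCast, map_natCast]
    exact div_mem (natCast_mem K l') (natCast_mem K l)
  · rw [map_div₀, map_natCast, map_natCast]
    exact div_ne_zero hl0' hl0
  · rw [pow_one, map_div₀ (algebraMap ℚ QQ), map_natCast, map_natCast, map_div₀, h2, one_div]
    exact inv_mul_cancel₀ ((Valuation.ne_zero_iff _).2 hl0)
  · rw [pow_one, map_div₀ (algebraMap ℚ QQ), map_natCast, map_natCast, inv_div, map_div₀, h3,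
      one_div]
    exact inv_mul_cancel₀ ((Valuation.ne_zero_iff _).2 hl0')

/-- the conclusion of the theorem on irreducible fibres, with all data, for parameters with the
property `T` -/
def OrbitData (K : IntermediateField ℚ QQ) (T : QQ → Prop) (φ z : F) (n2 e2 : ℕ) : Prop :=
  ∀ (S : Finset F) (Bad C₀ : Finset QQ), ∃ (t : QQ) (S' : Finset F) (C : Finset QQ), t ∉ Bad ∧
      C₀ ⊆ C ∧ (∀ τ : Gam, ∀ c ∈ C, τ c ∈ C) ∧
      (∃ k : ℕ, 0 < k ∧ t ^ k ∈ K) ∧ T t ∧ S ⊆ S' ∧ φ ∈ S' ∧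
      z ∈ S' ∧ IntermediateField.adjoin QQ (S' : Set F) = ⊤ ∧
      (∀ ρ : Gam, (∀ c ∈ C, ρ c = c) → ∃ r : F ≃+* F, Fixes S' ρ r) ∧
      (∀ x x' : Place QQ F, x.At φ t → x'.At φ t → ∃ (ρ : Gam) (r : F ≃+* F),
        (∀ c ∈ K ⊔ IntermediateField.adjoin ℚ (C : Set QQ) ⊔ IntermediateField.adjoin ℚ {t},
          ρ c = c) ∧ Fixes S' ρ r ∧ Moves r x x') ∧
      (n2.Prime → ∃ (W : ValuationSubring QQ) (l : ℕ) (x : Place QQ F) (b : QQ), l.Prime ∧
        (l : QQ) ∈ W.nonunits ∧ x.At φ t ∧ x.At z b ∧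
        W.valuation b ^ n2 = W.valuation t ^ e2 ∧
        ∀ d ∈ K ⊔ IntermediateField.adjoin ℚ (C : Set QQ) ⊔ IntermediateField.adjoin ℚ {t},
          W.valuation d ^ n2 ≠ W.valuation t)

private lemma fib_ne {φ y z u : F} {p q r : Place QQ F}
    {n1 n2 m e1 e2 e3 : ℕ} (h : Fib φ y z u p q r n1 n2 m e1 e2 e3) :
    n1 * n2 * m ≠ 0 ∧ n1 * n2 * m ≠ 1 := by
  have hm : 1 < m := by
    have := h.lt1
    have := h.n1_pos
    omega
  have h1 := Nat.mul_pos h.n1_pos h.n2_pos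
  refine ⟨(Nat.mul_pos h1 (by omega)).ne', ?_⟩
  have h2 : 1 * m ≤ n1 * n2 * m := Nat.mul_le_mul_right m h1
  omega

theorem orbitData_ht (hF : IsCurve QQ F) {φ y z u : F} {p q r : Place QQ F}
    {n1 n2 m e1 e2 e3 : ℕ} (h : Fib φ y z u p q r n1 n2 m e1 e2 e3)
    {K : IntermediateField ℚ QQ} (hK : Mild K) :
    OrbitData K (fun t => NumberField.absLogHeight₁ t ≤ 1) φ z n2 e2 := by
  intro S Bad C₀
  obtain ⟨S', C, N₀, h1, h2, h3, h4, h5, h6, h7, h8⟩ := orbit_core hF h S Bad C₀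
  obtain ⟨t, ht, ⟨P⟩⟩ := exists_param_ht hK N₀ (fib_ne h).1 (fib_ne h).2
  obtain ⟨h9, h10, h11⟩ := h8 K t P
  exact ⟨t, S', C, h9, h1, h2, ⟨P.k, P.hk0, P.htK⟩, ht, h3, h4, h5, h6, h7, h10, h11⟩

theorem orbitData_rat (hF : IsCurve QQ F) {φ y z u : F} {p q r : Place QQ F}
    {n1 n2 m e1 e2 e3 : ℕ} (h : Fib φ y z u p q r n1 n2 m e1 e2 e3)
    {K : IntermediateField ℚ QQ} (hK : ManyUnr K) :
    OrbitData K (fun t => ∃ x : ℚ, t = algebraMap ℚ QQ x) φ z n2 e2 := by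
  intro S Bad C₀
  obtain ⟨S', C, N₀, h1, h2, h3, h4, h5, h6, h7, h8⟩ := orbit_core hF h S Bad C₀
  obtain ⟨x, ⟨P⟩⟩ := exists_param_rat hK N₀ (D := n1 * n2 * m)
  obtain ⟨h9, h10, h11⟩ := h8 K _ P
  exact ⟨_, S', C, h9, h1, h2, ⟨P.k, P.hk0, P.htK⟩, ⟨x, rfl⟩, h3, h4, h5, h6, h7, h10, h11⟩

theorem one_orbit_data (hF : IsCurve QQ F) {φ y z u : F} {p q r : Place QQ F}
    {n1 n2 m e1 e2 e3 : ℕ} (h : Fib φ y z u p q r n1 n2 m e1 e2 e3)
    {K : IntermediateField ℚ QQ} (hK : Mild K) (S : Finset F)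
    (Bad : Finset QQ) : ∃ (t : QQ) (S' : Finset F) (E : IntermediateField ℚ QQ), t ∉ Bad ∧
      (∃ k : ℕ, 0 < k ∧ t ^ k ∈ K) ∧ NumberField.absLogHeight₁ t ≤ 1 ∧ S ⊆ S' ∧ φ ∈ S' ∧ z ∈ S' ∧
      IntermediateField.adjoin QQ (S' : Set F) = ⊤ ∧ K ≤ E ∧ t ∈ E ∧
      (∀ ρ : Gam, (∀ c ∈ E, ρ c = c) → ∃ r : F ≃+* F, Fixes S' ρ r) ∧
      (∀ x x' : Place QQ F, x.At φ t → x'.At φ t → ∃ (ρ : Gam) (r : F ≃+* F),
        (∀ c ∈ E, ρ c = c) ∧ Fixes S' ρ r ∧ Moves r x x') ∧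
      (n2.Prime → ∃ (W : ValuationSubring QQ) (l : ℕ) (x : Place QQ F) (b : QQ), l.Prime ∧
        (l : QQ) ∈ W.nonunits ∧ x.At φ t ∧ x.At z b ∧
        W.valuation b ^ n2 = W.valuation t ^ e2 ∧
        ∀ d ∈ E, W.valuation d ^ n2 ≠ W.valuation t) := by
  obtain ⟨t, S', C, h1, -, -, h2, h3, h4, h5, h6, h7, h8, h9, h10⟩ :=
    orbitData_ht hF h hK S Bad ∅
  refine ⟨t, S', _, h1, h2, h3, h4, h5, h6, h7, le_sup_left.trans le_sup_left, ?_,
    fun ρ hρ => h8 ρ fun c hc => hρ c ?_, h9, h10⟩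
  · exact (le_sup_right : IntermediateField.adjoin ℚ {t} ≤ _)
      (IntermediateField.subset_adjoin ℚ _ (Set.mem_singleton t))
  · exact (le_sup_right.trans le_sup_left : IntermediateField.adjoin ℚ (C : Set QQ) ≤
      K ⊔ IntermediateField.adjoin ℚ (C : Set QQ) ⊔ IntermediateField.adjoin ℚ {t})
      (IntermediateField.subset_adjoin ℚ _ hc)

end Pool.Agent.Clo
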