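import Pool.Agent.Clo.Form
import Pool.Agent.Dess.Func

/-!
# The group of cycles which are small up to rational equivalence

`small L K hK` is the group of all zero-cycles `z` on the product such that for every `ε > 0` there
are `m > 0` and a cycle `w` which is rationally equivalent to `m z`, with `form K w w ≤ ε m ^ 2`.

PROOFS. Sum of `z₁` and `z₂`: given `ε`, take `m₁, w₁`, `m₂, w₂` for `ε / 4`, and `m = m₁ m₂`,
`w = m₂ • w₁ + m₁ • w₂`; then
`w - m • (z₁ + z₂) = m₂ • (w₁ - m₁ • z₁) + m₁ • (w₂ - m₂ • z₂)`, and by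
`form_add_le` with `δ = 1`, `form w w ≤ 2 m₂² form w₁ w₁ + 2 m₁² form w₂ w₂ ≤ ε m²`. Negative: `-w`.
Zero: `m = 1`, `w = 0`. `small_of_nsmul`: use `m * n`, with `w` for `n • z` and the same `m`:
`w - (m n) • z ∈ RatEq`, `form w w ≤ ε m² ≤ ε (m n)²`. `small_map`: `map_mem` (file
`Pool/Agent/Dess/Func.lean`) and `form_map`; `w.mapDomain Φ - m • z.mapDomain Φ =
(w - m • z).mapDomain Φ`; and `m` the same. The kernel on the source is `K (Φ x) (Φ y)`; if it is
equal to `K'`, as assumed, it is also positive semidefinite, but this is not needed.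
-/

set_option autoImplicit false

noncomputable section

namespace Pool.Agent.Clo

open Pool.Agent.ZCyc Pool.Agent.Dess
open scoped Classical

section Small

variable {ι : Type} {L : ι → Type} [∀ i, Field (L i)] [∀ i, Algebra QQ (L i)]

/-- `z` is small, up to rational equivalence and multiples -/
def IsSmall (K : (∀ i, Place QQ (L i)) → (∀ i, Place QQ (L i)) → ℝ)
    (z : (∀ i, Place QQ (L i)) →₀ ℤ) : Prop :=
  ∀ ε : ℝ, 0 < ε → ∃ (m : ℕ) (w : (∀ i, Place QQ (L i)) →₀ ℤ),
    0 < m ∧ w - m • z ∈ RatEq L ∧ form K w w ≤ ε * (m : ℝ) ^ 2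

variable {K : (∀ i, Place QQ (L i)) → (∀ i, Place QQ (L i)) → ℝ}

private theorem Small_sq {X : Type} (K : X → X → ℝ) (n : ℕ) (v : X →₀ ℤ) :
    form K (n • v) (n • v) = (n : ℝ) ^ 2 * form K v v := by
  rw [← natCast_zsmul, form_zsmul_left, form_zsmul_right, Int.cast_natCast]
  ring

theorem isSmall_add (hK : PSD K) {z z' : (∀ i, Place QQ (L i)) →₀ ℤ} (h : IsSmall K z)
    (h' : IsSmall K z') : IsSmall K (z + z') := by
  intro ε hε
  obtain ⟨m, w, hm, hw, hwe⟩ := h (ε / 4) (by positivity)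
  obtain ⟨m', w', hm', hw', hwe'⟩ := h' (ε / 4) (by positivity)
  refine ⟨m * m', m' • w + m • w', Nat.mul_pos hm hm', ?_, ?_⟩
  · have h1 : m' • w + m • w' - (m * m') • (z + z') =
        m' • (w - m • z) + m • (w' - m' • z') := by
      rw [smul_sub, smul_sub, smul_add, smul_smul, smul_smul, Nat.mul_comm m' m]
      abel
    rw [h1]
    exact (RatEq L).add_mem ((RatEq L).nsmul_mem hw m') ((RatEq L).nsmul_mem hw' m)
  · refine (form_add_le (m' • w) (m • w') hK one_pos).trans ?_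
    rw [Small_sq, Small_sq]
    have h1 := mul_le_mul_of_nonneg_left hwe (sq_nonneg (m' : ℝ))
    have h2 := mul_le_mul_of_nonneg_left hwe' (sq_nonneg (m : ℝ))
    push_cast
    nlinarith

theorem isSmall_neg {z : (∀ i, Place QQ (L i)) →₀ ℤ} (h : IsSmall K z) : IsSmall K (-z) := by
  intro ε hε
  obtain ⟨m, w, hm, hw, hwe⟩ := h ε hε
  refine ⟨m, -w, hm, ?_, ?_⟩
  · have h1 : -w - m • (-z) = -(w - m • z) := by
      rw [smul_neg]
      abel
    rw [h1]
    exact (RatEq L).neg_mem hw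
  · have h1 : form K (-w) (-w) = form K w w := by
      have h2 : -w = (-1 : ℤ) • w := by rw [neg_smul, one_smul]
      rw [h2, form_zsmul_left, form_zsmul_right]
      push_cast
      ring
    rw [h1]
    exact hwe

theorem isSmall_of_mem {z : (∀ i, Place QQ (L i)) →₀ ℤ} (h : z ∈ RatEq L) : IsSmall K z := by
  intro ε hε
  refine ⟨1, 0, one_pos, ?_, ?_⟩
  · rw [one_smul, zero_sub]
    exact (RatEq L).neg_mem h
  · rw [form_zero_left]
    positivity

theorem isSmall_of_nsmul {z : (∀ i, Place QQ (L i)) →₀ ℤ} {n : ℕ} (hn : 0 < n)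
    (h : IsSmall K (n • z)) : IsSmall K z := by
  intro ε hε
  obtain ⟨m, w, hm, hw, hwe⟩ := h ε hε
  refine ⟨m * n, w, Nat.mul_pos hm hn, ?_, hwe.trans ?_⟩
  · rw [smul_smul] at hw
    exact hw
  · refine mul_le_mul_of_nonneg_left ?_ hε.le
    refine pow_le_pow_left₀ (Nat.cast_nonneg m) ?_ 2
    exact_mod_cast Nat.le_mul_of_pos_right m hn

/-- the subgroup of small cycles -/
def small (hK : PSD K) : AddSubgroup ((∀ i, Place QQ (L i)) →₀ ℤ) where
  carrier := {z | IsSmall K z}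
  zero_mem' := isSmall_of_mem (zero_mem _)
  add_mem' := isSmall_add hK
  neg_mem' := isSmall_neg

end Small

section Map

variable {ι ι' : Type} {L : ι → Type} [∀ i, Field (L i)] [∀ i, Algebra QQ (L i)]
  {L' : ι' → Type} [∀ i, Field (L' i)] [∀ i, Algebra QQ (L' i)]

theorem isSmall_map {K : (∀ i, Place QQ (L i)) → (∀ i, Place QQ (L i)) → ℝ}
    {K' : (∀ i, Place QQ (L' i)) → (∀ i, Place QQ (L' i)) → ℝ}
    {Φ : (∀ i, Place QQ (L i)) → ∀ j, Place QQ (L' j)} (hΦ : IsMor Φ)
    (hK : ∀ x y, K' (Φ x) (Φ y) = K x y) {z : (∀ i, Place QQ (L i)) →₀ ℤ} (h : IsSmall K z) :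
    IsSmall K' (z.mapDomain Φ) := by
  intro ε hε
  obtain ⟨m, w, hm, hw, hwe⟩ := h ε hε
  refine ⟨m, w.mapDomain Φ, hm, ?_, ?_⟩
  · have h1 := map_mem Φ hΦ hw
    have h2 : (w - m • z).mapDomain Φ = w.mapDomain Φ - m • z.mapDomain Φ := by
      have h3 := map_sub (Finsupp.mapDomain.addMonoidHom (M := ℤ) Φ) w (m • z)
      rw [map_nsmul] at h3
      exact h3
    rwa [h2] at h1
  · rw [form_map]
    have h1 : (fun x y => K' (Φ x) (Φ y)) = K := by
      funext x y
      exact hK x y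
    rw [h1]
    exact hwe

end Map

end Pool.Agent.Clo
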