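import Pool.Agent.Clo.Pull
import Pool.Agent.Clo.ArLift
import Pool.Agent.Clo.OrbitB
import Pool.Agent.Clo.Small

/-!
# The degrees of the values at the points of rational fibres

PROOF. Let `C` be the finite set of `exists_lift` for the finite set `{f, φ}` of functions, and let
`C' ⊇ C` be a finite set which is stable under all automorphisms (`stable_set` in `OrbitB.lean`).
The
restriction of the automorphisms to `C'` is a homomorphism from `Gam` to the finite group of the
permutations of `C'`; let `M` be the order of that group, and let `N` be a bound for the number of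
points `x` with `x.At φ t`, for all `t` (the function `φ` has finitely many poles; use
`fiber_count`-like bounds: the number of places over `t` is at most `[F : QQ(φ)]`; for instance, if
there are `k` places over `t`, choose functions `g` with distinct values at them; a simple way is
the
bound of the degree of a relation: for `f` there is a nonzero polynomial `P` in two variables with
`P(φ, f) = 0` (private lemma `rel_Cmp` of `Cmp.lean`, copy it); for all `t` except finitely many the
value `c` of `f` at a place over `t` is a root of the nonzero polynomial `P(t, Y)`, of degree at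
most
`deg_Y P`; for the finitely many exceptional `t` there are finitely many places, `finite_at`, so
finitely many values `c`).
So for all but finitely many rational `t` the set of the values of `f` at the places over `t` has at
most `d = deg_Y P` elements, and for the others it is contained in a fixed finite set. Let `t` be
rational, `x.At φ t`, `x.At f c`. The conjugates of `c` are the `ρ c`, `ρ : Gam` (the roots of
`minpoly ℚ c` in `QQ`: `minpoly ℚ c` splits and is separable, so its degree is the number of its
roots, and `Gam` acts transitively on them, `exists_algHom_of_splits_of_aeval`, or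
`IsGalois`/`Normal` lemmas such as `Normal.minpoly_eq_iff_mem_orbit`). If `ρ` and `ρ'` have the same
restriction to `C'`, then `τ = ρ⁻¹ ρ'` fixes `C'`, so it has a lift `r` which fixes `f` and `φ`, and
`exists_move` gives a place `x'` with `x'.At φ t` (`τ t = t`) and `x'.At f (τ c)`. So `τ c` is one
of
the at most `max d d'` values of `f` over `t`, and the number of conjugates of `c` is at most
`M * max d d'`.
-/

set_option autoImplicit false

noncomputable section

namespace Pool.Agent.Clo

open Pool.Agent.ZCyc Pool.Agent.Dess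

open scoped IntermediateField.algebraAdjoinAdjoin in
open Polynomial in
/-- The relation between two functions. -/
private theorem rel_DegCmp {F : Type} [Field F] [Algebra QQ F] (hF : IsCurve QQ F) (f : F) {g : F}
    (hg : Transcendental QQ g) :
    ∃ P : QQ[X][X], P ≠ 0 ∧ P.eval₂ (aeval g : QQ[X] →ₐ[QQ] F).toRingHom f = 0 := by
  have h1 := fin_adjoin hF hg
  have h2 : Algebra.IsAlgebraic (IntermediateField.adjoin QQ {g}) F := inferInstance
  have h3 : Algebra.IsAlgebraic (Algebra.adjoin QQ {g}) F :=
    (IsFractionRing.comap_isAlgebraic_iff (A := Algebra.adjoin QQ {g})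
      (K := IntermediateField.adjoin QQ {g}) (C := F)).2 h2
  obtain ⟨q, hq0, hq⟩ := h3.isAlgebraic f
  set φ : QQ[X] →+* Algebra.adjoin QQ {g} :=
    (aeval (⟨g, Algebra.self_mem_adjoin_singleton QQ g⟩ : Algebra.adjoin QQ {g})).toRingHom
    with hφ
  have hcomp : (algebraMap (Algebra.adjoin QQ {g}) F).comp φ
      = (aeval g : QQ[X] →ₐ[QQ] F).toRingHom := by
    have h4 : ((Algebra.adjoin QQ {g}).val.comp
        (aeval (⟨g, Algebra.self_mem_adjoin_singleton QQ g⟩ : Algebra.adjoin QQ {g})))
        = (aeval g : QQ[X] →ₐ[QQ] F) := by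
      apply Polynomial.algHom_ext
      simp
    rw [← h4]
    rfl
  have hsurj : Function.Surjective φ := by
    rintro ⟨a, ha⟩
    have ha' := ha
    rw [Algebra.adjoin_singleton_eq_range_aeval] at ha'
    obtain ⟨r, hr⟩ := ha'
    refine ⟨r, Subtype.ext ?_⟩
    have h5 := RingHom.congr_fun hcomp r
    exact h5.trans hr
  obtain ⟨P, hP⟩ := Polynomial.map_surjective φ hsurj q
  refine ⟨P, ?_, ?_⟩
  · rintro rfl
    exact hq0 (by rw [← hP, Polynomial.map_zero])
  · rw [← hcomp, ← Polynomial.eval₂_map, hP]
    exact hq

open Polynomial in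
open scoped Classical in
/-- The number of values over a point is bounded. -/
private theorem val_DegCmp {F : Type} [Field F] [Algebra QQ F] (hF : IsCurve QQ F) (f : F) {g : F}
    (hg : Transcendental QQ g) :
    ∃ N : ℕ, ∀ d : QQ, ∃ V : Finset QQ, V.card ≤ N ∧
      ∀ (p : Place QQ F) (c : QQ), p.At g d → p.At f c → c ∈ V := by
  obtain ⟨P, hP0, hP⟩ := rel_DegCmp hF f hg
  have hroot : ∀ (p : Place QQ F) (c d : QQ), p.At f c → p.At g d →
      (P.map (Polynomial.evalRingHom d)).eval c = 0 := by
    intro p c d hc hd
    have h1 : p.At (P.eval₂ (aeval g : QQ[X] →ₐ[QQ] F).toRingHom f)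
        (∑ i ∈ Finset.range (P.natDegree + 1), (P.coeff i).eval d * c ^ i) := by
      rw [Polynomial.eval₂_eq_sum_range]
      exact Place.At.sum fun i _ => (hd.aeval (P.coeff i)).mul (hc.pow i)
    rw [hP] at h1
    have h2 : p.At (0 : F) 0 := by simpa using Place.at_const (v := p) (0 : QQ)
    rw [Polynomial.eval_map, Polynomial.eval₂_eq_sum_range]
    exact h1.unique h2
  obtain ⟨i₀, hi₀⟩ : ∃ i, P.coeff i ≠ 0 := by
    by_contra h
    rw [not_exists] at h
    exact hP0 (Polynomial.ext fun i => by rw [not_not.1 (h i), Polynomial.coeff_zero])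
  have hfin : (⋃ d ∈ (P.coeff i₀).roots.toFinset, {p : Place QQ F | p.At g d}).Finite :=
    Set.Finite.biUnion (Finset.finite_toSet _) fun d _ => finite_at hF hg d
  obtain ⟨val, hval⟩ : ∃ val : Place QQ F → QQ, ∀ p c, p.At f c → c = val p := by
    refine ⟨fun p => if h : ∃ c, p.At f c then h.choose else 0, fun p c hc => ?_⟩
    have h : ∃ c, p.At f c := ⟨c, hc⟩
    have h1 := h.choose_spec.unique hc
    show c = if h : ∃ c, p.At f c then h.choose else 0
    rw [dif_pos h, h1]
  refine ⟨P.natDegree + (hfin.toFinset.image val).card, fun d => ?_⟩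
  by_cases h0 : P.map (Polynomial.evalRingHom d) = 0
  · have h1 : (P.coeff i₀).eval d = 0 := by
      have h2 := congrArg (fun Q => Q.coeff i₀) h0
      simpa [Polynomial.coeff_map] using h2
    refine ⟨hfin.toFinset.image val, Nat.le_add_left _ _, fun p c hd hc => ?_⟩
    rw [Finset.mem_image]
    refine ⟨p, ?_, (hval p c hc).symm⟩
    rw [Set.Finite.mem_toFinset]
    refine Set.mem_biUnion (x := d) ?_ hd
    simp [hi₀, h1]
  · refine ⟨(P.map (Polynomial.evalRingHom d)).roots.toFinset, ?_, fun p c hd hc => ?_⟩
    · refine (Multiset.toFinset_card_le _).trans ((Polynomial.card_roots' _).trans ?_)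
      exact Polynomial.natDegree_map_le.trans (Nat.le_add_right _ _)
    · rw [Multiset.mem_toFinset, Polynomial.mem_roots h0]
      exact hroot p c d hc hd

theorem degree_compare {F : Type} [Field F] [Algebra QQ F] (hF : IsCurve QQ F) (f : F) {φ : F}
    (hφ : Transcendental QQ φ) : ∃ D : ℕ, ∀ (x : Place QQ F) (t c : QQ),
      (∃ y : ℚ, t = algebraMap ℚ QQ y) → x.At φ t → x.At f c →
        (minpoly ℚ c).natDegree ≤ D := by
  classical
  obtain ⟨N, hN⟩ := val_DegCmp hF f hφ
  obtain ⟨C₀, hC₀⟩ := exists_lift hF {f, φ}
  obtain ⟨C, hC, hstab⟩ := stable_set C₀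
  -- the restriction of an automorphism to the stable set
  let res : Gam → (C → C) := fun ρ c => ⟨ρ c, hstab ρ c c.2⟩
  refine ⟨Fintype.card (C → C) * N, ?_⟩
  rintro x t c ⟨y, rfl⟩ ht hc
  obtain ⟨V, hV, hVmem⟩ := hN (algebraMap ℚ QQ y)
  -- the set of the conjugates
  let W : (C → C) → Finset QQ := fun h =>
    if hh : ∃ ρ : Gam, res ρ = h then V.image hh.choose else ∅
  have hW : ∀ h, (W h).card ≤ N := by
    intro h
    simp only [W]
    split_ifs with hh
    · exact Finset.card_image_le.trans hV
    · simp
  have hmem : ∀ ρ : Gam, ρ c ∈ Finset.univ.biUnion W := by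
    intro ρ
    rw [Finset.mem_biUnion]
    refine ⟨res ρ, Finset.mem_univ _, ?_⟩
    have hh : ∃ ρ' : Gam, res ρ' = res ρ := ⟨ρ, rfl⟩
    simp only [W]
    rw [dif_pos hh, Finset.mem_image]
    set ρ' := hh.choose with hρ'
    have hρ'2 : res ρ' = res ρ := hh.choose_spec
    set τ : Gam := ρ.trans ρ'.symm with hτ
    have hfix : ∀ a ∈ C₀, τ a = a := by
      intro a ha
      have h1 : ρ' a = ρ a := congrArg Subtype.val (congrFun hρ'2 ⟨a, hC ha⟩)
      rw [hτ, AlgEquiv.trans_apply, ← h1, AlgEquiv.symm_apply_apply]
    obtain ⟨r, hr1, hr2⟩ := hC₀ τ hfix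
    obtain ⟨x', _, hx'⟩ := exists_move hF τ r hr1 x
    refine ⟨τ c, hVmem x' (τ c) ?_ ?_, ?_⟩
    · have h1 := (hx' φ (algebraMap ℚ QQ y)).1 ht
      rwa [hr2 φ (by simp), AlgEquiv.commutes] at h1
    · have h1 := (hx' f c).1 hc
      rwa [hr2 f (by simp)] at h1
    · rw [hτ, AlgEquiv.trans_apply, AlgEquiv.apply_symm_apply]
  have hint : IsIntegral ℚ c := Algebra.IsIntegral.isIntegral c
  have hcard : ((minpoly ℚ c).rootSet QQ).toFinset.card = (minpoly ℚ c).natDegree := by
    rw [Set.toFinset_card]
    exact Polynomial.card_rootSet_eq_natDegree (minpoly.irreducible hint).separable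
      (IsAlgClosed.splits _)
  rw [← hcard]
  calc ((minpoly ℚ c).rootSet QQ).toFinset.card ≤ (Finset.univ.biUnion W).card := by
        apply Finset.card_le_card
        intro b hb
        rw [Set.mem_toFinset, Polynomial.mem_rootSet] at hb
        obtain ⟨σ, hσ⟩ := minpoly.exists_algEquiv_of_root' (K := ℚ) (x := b) (y := c)
          hint.isAlgebraic hb.2
        rw [← hσ]
        exact hmem σ
    _ ≤ ∑ h : C → C, (W h).card := Finset.card_biUnion_le
    _ ≤ ∑ _h : C → C, N := Finset.sum_le_sum fun h _ => hW h
    _ = Fintype.card (C → C) * N := by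
        rw [Finset.sum_const, Finset.card_univ, smul_eq_mul]

end Pool.Agent.Clo
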