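import Pool.Agent.Clo.Cmp

/-!
# Linear comparison of degrees on a curve

PROOF. Let `P` be a nonzero polynomial in two variables with `P(g, f) = 0` (private lemma `rel_Cmp`
of `Cmp.lean`, copy it, renamed), `n` its degree in the second variable, and `E` the number field
generated by its finitely many coefficients (algebraic numbers), of degree `e` over `ℚ`. As in the
proof of `height_compare`, for all `p`, `c`, `d` with `p.At f c` and `p.At g d` the number `c` is a
root of the polynomial `P(d, Y)`. If `P(d, Y)` is not zero, then `c` has degree at most `n` over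
`E(d)`, and `E(d)` has degree at most `e * (minpoly ℚ d).natDegree` over `ℚ` (a compositum; for
instance `IntermediateField.finrank_sup_le`), so the degree of `c` over `ℚ` is at most
`n * e * (minpoly ℚ d).natDegree` (`minpoly` over a larger field divides `minpoly` over `ℚ`;
`(minpoly ℚ c).natDegree = finrank ℚ ℚ⟮c⟯ ≤ finrank ℚ E(d, c)`). The `d` with `P(d, Y) = 0` are
finitely many, with finitely many places over each of them (`finite_at`), so finitely many `c`; let
`D` be larger than their degrees, too (`(minpoly ℚ d).natDegree ≥ 1`).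
-/

set_option autoImplicit false

noncomputable section

namespace Pool.Agent.Clo

open Pool.Agent.ZCyc Pool.Agent.Dess

open scoped IntermediateField.algebraAdjoinAdjoin in
open Polynomial in
/-- The relation between two functions. -/
private theorem rel_DegLin {F : Type} [Field F] [Algebra QQ F] (hF : IsCurve QQ F) (f : F) {g : F}
    (hg : Transcendental QQ g) :
    ∃ P : QQ[X][X], P ≠ 0 ∧ P.eval₂ (aeval g : QQ[X] →ₐ[QQ] F).toRingHom f = 0 := by
  have h1 := fin_adjoin hF hg
  have h2 : Algebra.IsAlgebraic (IntermediateField.adjoin QQ {g}) F := inferInstance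
  have h3 : Algebra.IsAlgebraic (Algebra.adjoin QQ {g}) F :=
    (IsFractionRing.comap_isAlgebraic_iff (A := Algebra.adjoin QQ {g})
      (K := IntermediateField.adjoin QQ {g}) (C := F)).2 h2
  obtain ⟨q, hq0, hq⟩ := h3.isAlgebraic f
  set φ : QQ[X] →+* Algebra.adjoin QQ {g} :=
    (aeval (⟨g, Algebra.self_mem_adjoin_singleton QQ g⟩ : Algebra.adjoin QQ {g})).toRingHom
    with hφ
  have hcomp : (algebraMap (Algebra.adjoin QQ {g}) F).comp φ
      = (aeval g : QQ[X] →ₐ[QQ] F).toRingHom := by
    have h4 : ((Algebra.adjoin QQ {g}).val.comp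
        (aeval (⟨g, Algebra.self_mem_adjoin_singleton QQ g⟩ : Algebra.adjoin QQ {g})))
        = (aeval g : QQ[X] →ₐ[QQ] F) := by
      apply Polynomial.algHom_ext
      simp
    rw [← h4]
    rfl
  have hsurj : Function.Surjective φ := by
    rintro ⟨a, ha⟩
    have ha' := ha
    rw [Algebra.adjoin_singleton_eq_range_aeval] at ha'
    obtain ⟨r, hr⟩ := ha'
    refine ⟨r, Subtype.ext ?_⟩
    have h5 := RingHom.congr_fun hcomp r
    exact h5.trans hr
  obtain ⟨P, hP⟩ := Polynomial.map_surjective φ hsurj q
  refine ⟨P, ?_, ?_⟩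
  · rintro rfl
    exact hq0 (by rw [← hP, Polynomial.map_zero])
  · rw [← hcomp, ← Polynomial.eval₂_map, hP]
    exact hq

private theorem int_DegLin (x : QQ) : IsIntegral ℚ x :=
  (AlgebraicClosure.isAlgebraic ℚ).isAlgebraic x |>.isIntegral

open Polynomial in
/-- The degree of a root of a polynomial over a number field. -/
private theorem DegLin_root (L : IntermediateField ℚ QQ) [FiniteDimensional ℚ L] (Q : QQ[X])
    (hQ0 : Q ≠ 0) (hQ : ∀ i, Q.coeff i ∈ L) {c : QQ} (hc : Q.eval c = 0) :
    (minpoly ℚ c).natDegree ≤ Module.finrank ℚ L * Q.natDegree := by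
  obtain ⟨R, hR⟩ : ∃ R : L[X], R.map (algebraMap L QQ) = Q := by
    have h1 : Q ∈ lifts (algebraMap L QQ) := by
      rw [lifts_iff_coeff_lifts]
      intro i
      exact ⟨⟨Q.coeff i, hQ i⟩, rfl⟩
    exact (mem_lifts Q).1 h1
  have hR0 : R ≠ 0 := by
    rintro rfl
    exact hQ0 (by rw [← hR, Polynomial.map_zero])
  have hRd : R.natDegree = Q.natDegree := by
    rw [← hR]
    exact (natDegree_map_eq_of_injective (algebraMap L QQ).injective R).symm
  have hRc : aeval c R = 0 := by
    rw [aeval_def, ← eval_map, hR, hc]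
  have hint : IsIntegral L c := (int_DegLin c).tower_top
  have h1 : (minpoly L c).natDegree ≤ Q.natDegree := by
    rw [← hRd]
    exact natDegree_le_natDegree (minpoly.degree_le_of_ne_zero L c hR0 hRc)
  have h2 : Module.finrank L (IntermediateField.adjoin L {c}) = (minpoly L c).natDegree :=
    IntermediateField.adjoin.finrank hint
  have hfd : FiniteDimensional L (IntermediateField.adjoin L {c}) :=
    IntermediateField.adjoin.finiteDimensional hint
  have hfd2 : FiniteDimensional ℚ (IntermediateField.adjoin L {c}) :=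
    FiniteDimensional.trans ℚ L (IntermediateField.adjoin L {c})
  have h3 := Module.finrank_mul_finrank ℚ L (IntermediateField.adjoin L {c})
  have h4 := minpoly.natDegree_le (A := ℚ)
    (⟨c, IntermediateField.mem_adjoin_simple_self L c⟩ : IntermediateField.adjoin L {c})
  have h5 : minpoly ℚ (⟨c, IntermediateField.mem_adjoin_simple_self L c⟩ :
      IntermediateField.adjoin L {c}) = minpoly ℚ c :=
    (minpoly.algebraMap_eq (A := ℚ) (B := IntermediateField.adjoin L {c}) (B' := QQ)
      (algebraMap (IntermediateField.adjoin L {c}) QQ).injective _).symm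
  rw [h5, ← h3, h2] at h4
  exact h4.trans (Nat.mul_le_mul_left _ h1)

open Polynomial in
open scoped Classical in
theorem degree_linear {F : Type} [Field F] [Algebra QQ F] (hF : IsCurve QQ F) (f : F) {g : F}
    (hg : Transcendental QQ g) : ∃ D : ℕ, ∀ (p : Place QQ F) (c d : QQ),
      p.At f c → p.At g d → (minpoly ℚ c).natDegree ≤ D * (minpoly ℚ d).natDegree := by
  obtain ⟨P, hP0, hP⟩ := rel_DegLin hF f hg
  -- the value is a root
  have hroot : ∀ (p : Place QQ F) (c d : QQ), p.At f c → p.At g d →
      (P.map (Polynomial.evalRingHom d)).eval c = 0 := by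
    intro p c d hc hd
    have h1 : p.At (P.eval₂ (aeval g : QQ[X] →ₐ[QQ] F).toRingHom f)
        (∑ i ∈ Finset.range (P.natDegree + 1), (P.coeff i).eval d * c ^ i) := by
      rw [Polynomial.eval₂_eq_sum_range]
      exact Place.At.sum fun i _ => (hd.aeval (P.coeff i)).mul (hc.pow i)
    rw [hP] at h1
    have h2 : p.At (0 : F) 0 := by simpa using Place.at_const (v := p) (0 : QQ)
    rw [Polynomial.eval_map, Polynomial.eval₂_eq_sum_range]
    exact h1.unique h2
  -- the field of the coefficients
  obtain ⟨S, hS⟩ : ∃ S : Finset QQ, ∀ i j, (P.coeff i).coeff j ≠ 0 → (P.coeff i).coeff j ∈ S := by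
    refine ⟨P.support.biUnion fun i => (P.coeff i).support.image (P.coeff i).coeff,
      fun i j hij => ?_⟩
    refine Finset.mem_biUnion.2 ⟨i, ?_, Finset.mem_image.2 ⟨j, ?_, rfl⟩⟩
    · rw [Polynomial.mem_support_iff]
      intro h
      rw [h, Polynomial.coeff_zero] at hij
      exact hij rfl
    · rw [Polynomial.mem_support_iff]
      exact hij
  obtain ⟨E, hE⟩ : ∃ E : IntermediateField ℚ QQ, E = IntermediateField.adjoin ℚ (S : Set QQ) :=
    ⟨_, rfl⟩
  have hEfd : FiniteDimensional ℚ E := by
    rw [hE]
    exact IntermediateField.finiteDimensional_adjoin fun x _ => int_DegLin x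
  have hEmem : ∀ i j, (P.coeff i).coeff j ∈ E := by
    intro i j
    by_cases h : (P.coeff i).coeff j = 0
    · rw [h]
      exact E.zero_mem
    · rw [hE]
      exact IntermediateField.subset_adjoin ℚ _ (hS i j h)
  -- the finitely many other values of `g`
  obtain ⟨i₀, hi₀⟩ : ∃ i, P.coeff i ≠ 0 := by
    by_contra h
    rw [not_exists] at h
    exact hP0 (Polynomial.ext fun i => by rw [not_not.1 (h i), Polynomial.coeff_zero])
  have hfin : (⋃ d ∈ (P.coeff i₀).roots.toFinset, {p : Place QQ F | p.At g d}).Finite :=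
    Set.Finite.biUnion (Finset.finite_toSet _) fun d _ => finite_at hF hg d
  obtain ⟨val, hval⟩ : ∃ val : Place QQ F → ℕ, ∀ p, ∀ c, p.At f c →
      (minpoly ℚ c).natDegree ≤ val p := by
    refine ⟨fun p => if h : ∃ c, p.At f c then (minpoly ℚ h.choose).natDegree else 0,
      fun p c hc => ?_⟩
    have h : ∃ c, p.At f c := ⟨c, hc⟩
    have h1 := h.choose_spec.unique hc
    show _ ≤ if h : ∃ c, p.At f c then (minpoly ℚ h.choose).natDegree else 0
    rw [dif_pos h, h1]
  refine ⟨P.natDegree * Module.finrank ℚ E + ∑ p ∈ hfin.toFinset, val p,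
    fun p c d hc hd => ?_⟩
  have hdint : IsIntegral ℚ d := int_DegLin d
  have hd1 : 1 ≤ (minpoly ℚ d).natDegree := minpoly.natDegree_pos hdint
  by_cases h0 : P.map (Polynomial.evalRingHom d) = 0
  · have h1 : (P.coeff i₀).eval d = 0 := by
      have h2 := congrArg (fun Q => Q.coeff i₀) h0
      simpa [Polynomial.coeff_map] using h2
    have h2 : p ∈ hfin.toFinset := by
      rw [Set.Finite.mem_toFinset]
      refine Set.mem_biUnion (x := d) ?_ hd
      simp [hi₀, h1]
    have h3 : val p ≤ ∑ p ∈ hfin.toFinset, val p :=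
      Finset.single_le_sum (f := val) (fun q _ => Nat.zero_le _) h2
    calc (minpoly ℚ c).natDegree ≤ val p := hval p c hc
      _ ≤ P.natDegree * Module.finrank ℚ E + ∑ p ∈ hfin.toFinset, val p := by omega
      _ ≤ _ := Nat.le_mul_of_pos_right _ hd1
  · obtain ⟨L, hL⟩ : ∃ L : IntermediateField ℚ QQ, L = E ⊔ IntermediateField.adjoin ℚ {d} :=
      ⟨_, rfl⟩
    have hdfd : FiniteDimensional ℚ (IntermediateField.adjoin ℚ {d}) :=
      IntermediateField.adjoin.finiteDimensional hdint
    have hLfd : FiniteDimensional ℚ L := by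
      rw [hL]
      infer_instance
    have hLr : Module.finrank ℚ L ≤ Module.finrank ℚ E * (minpoly ℚ d).natDegree := by
      rw [hL, ← IntermediateField.adjoin.finrank hdint]
      exact IntermediateField.finrank_sup_le E (IntermediateField.adjoin ℚ {d})
    have hdL : d ∈ L := by
      rw [hL]
      exact (le_sup_right : IntermediateField.adjoin ℚ {d} ≤ _)
        (IntermediateField.mem_adjoin_simple_self ℚ d)
    have hEL : E ≤ L := by
      rw [hL]
      exact le_sup_left
    have hco : ∀ i, (P.map (Polynomial.evalRingHom d)).coeff i ∈ L := by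
      intro i
      rw [Polynomial.coeff_map, Polynomial.coe_evalRingHom, Polynomial.eval_eq_sum_range]
      exact sum_mem fun j _ => mul_mem (hEL (hEmem i j)) (pow_mem hdL j)
    have h1 := DegLin_root L _ h0 hco (hroot p c d hc hd)
    have h2 : (P.map (Polynomial.evalRingHom d)).natDegree ≤ P.natDegree :=
      Polynomial.natDegree_map_le
    calc (minpoly ℚ c).natDegree
        ≤ Module.finrank ℚ L * (P.map (Polynomial.evalRingHom d)).natDegree := h1
      _ ≤ (Module.finrank ℚ E * (minpoly ℚ d).natDegree) * P.natDegree :=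
        Nat.mul_le_mul hLr h2
      _ = (P.natDegree * Module.finrank ℚ E) * (minpoly ℚ d).natDegree := by ring
      _ ≤ _ := Nat.mul_le_mul_right _ (Nat.le_add_right _ _)

end Pool.Agent.Clo
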