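import Pool.Agent.Clo.Twist

/-!
# Finiteness of orbits, and averages

PROOFS. `finite_conj`: `IntermediateField.adjoin_induction` for `f ∈ adjoin QQ S = ⊤`, with the
property that the set `C f` of all `r f` is finite. For `f ∈ S`: `C f ⊆ {f}`. For a constant
`algebraMap c`: `C f` is contained in the image under `algebraMap` of the roots in `QQ` of the
minimal polynomial of `c` over `ℚ` (`minpoly`, `Polynomial.rootSet_finite`; `ρ c` is a root by
`minpoly.algEquiv_eq` or `Polynomial.aeval_algEquiv`/`map_aeval`). For `f + g`, `f * g`, `f⁻¹`: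
`C (f + g) ⊆ Set.image2 (· + ·) (C f) (C g)` etc. (`Set.Finite.image2`).

`finite_moves`: let `w` be a function with a pole at `p` only (`exists_pole`). If `Moves r p p'`
then
`r w ∉ p'.ring`, and `r w ∈ v'.ring` for all `v' ≠ p'`: with `v = act` of the inverse, `Moves r v
v'`,
`v ≠ p` by `moves_right`, so `w ∈ v.ring`. So `p'` is the only pole of `r w`, and the map from the
set of the points `p'` to the finite set `C w` (choose `r`, map `p'` to `r w`) is injective
(`Set.Finite.of_injOn`, or `Set.Finite.subset` of the image of `C w` under the function which maps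
`g` to a chosen point `p'` such that `g` has a pole at `p'` only).

`finite_points`: `σ.map x` is in `Set.pi univ (fun i => {p' | ...})`, which is finite by
`Set.Finite.pi`. `finite_cycles`: `w.mapDomain σ.map = ∑ x ∈ w.support, single (σ.map x) (w x)`, so
it is in the image of the finite set of the functions `g : w.support → points` with
`g x ∈ {y | ∃ σ, y = σ.map x}` (`Set.Finite.pi` again) under the map
`g ↦ ∑ x ∈ w.support.attach, single (g x) (w x)`.

`average`: let `T` be the finite set of the cycles `w.mapDomain σ.map` (`finite_cycles`; it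
contains `w`, because of the identity automorphism, or because it is nonempty by any `σ`: then
`T.card > 0` is all we need), and `w' = ∑ u ∈ T, u`. For `σ : Auto S` the map `u ↦ u.mapDomain
σ.map`
maps `T` to `T` (`exists_comp`, `Finsupp.mapDomain_comp`) and is injective
(`Finsupp.mapDomain_injective`, `map_injective`), so it is a permutation of `T`, and
`w'.mapDomain σ.map = w'` (`Finset.sum_nbij` or `Finset.sum_bij`; `Finsupp.mapDomain_finset_sum`).
So
`w'` is rational (`rational_iff`). For `u = w.mapDomain σ.map`, `u - m • z` is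
`(w - m • z).mapDomain σ.map` because `z` is rational; it is in `RatEq L` by `map_mem'`. Sum over
`T`. Finally `form_sum_le` and `hinv`: `form w' w' ≤ |T| * ∑ form u u = |T| ^ 2 * form w w`.
-/

set_option autoImplicit false

noncomputable section

namespace Pool.Agent.Clo

open Pool.Agent.ZCyc Pool.Agent.Dess
open scoped Classical

section Curve

variable {F : Type} [Field F] [Algebra QQ F] {S : Finset F}

private theorem finite_const (c : QQ) : {d : QQ | ∃ ρ : Gam, d = ρ c}.Finite := by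
  have h1 : IsAlgebraic ℚ c := (AlgebraicClosure.isAlgebraic ℚ).isAlgebraic c
  have h2 : minpoly ℚ c ≠ 0 := minpoly.ne_zero h1.isIntegral
  refine (Polynomial.rootSet_finite (minpoly ℚ c) QQ).subset ?_
  rintro d ⟨ρ, rfl⟩
  rw [Polynomial.mem_rootSet_of_ne h2]
  have h3 := Polynomial.aeval_algHom_apply (ρ : QQ →ₐ[ℚ] QQ) c (minpoly ℚ c)
  rw [minpoly.aeval, map_zero] at h3
  exact h3

theorem finite_conj (hS : IntermediateField.adjoin QQ (S : Set F) = ⊤) (f : F) :
    {g : F | ∃ (ρ : Gam) (r : F ≃+* F), Fixes S ρ r ∧ g = r f}.Finite := by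
  have hf : f ∈ IntermediateField.adjoin QQ (S : Set F) := by
    rw [hS]
    exact IntermediateField.mem_top
  refine IntermediateField.adjoin_induction (F := QQ) (s := (S : Set F)) (p := fun f _ =>
    {g : F | ∃ (ρ : Gam) (r : F ≃+* F), Fixes S ρ r ∧ g = r f}.Finite) ?_ ?_ ?_ ?_ ?_ hf
  · intro x hx
    refine (Set.finite_singleton x).subset ?_
    rintro g ⟨ρ, r, h, rfl⟩
    exact h.1 x hx
  · intro c
    refine ((finite_const c).image (algebraMap QQ F)).subset ?_
    rintro g ⟨ρ, r, h, rfl⟩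
    exact ⟨ρ c, ⟨ρ, rfl⟩, (h.2 c).symm⟩
  · intro x y _ _ hx hy
    refine (hx.image2 (· + ·) hy).subset ?_
    rintro g ⟨ρ, r, h, rfl⟩
    exact ⟨r x, ⟨ρ, r, h, rfl⟩, r y, ⟨ρ, r, h, rfl⟩, (map_add r x y).symm⟩
  · intro x _ hx
    refine (hx.image (·⁻¹)).subset ?_
    rintro g ⟨ρ, r, h, rfl⟩
    exact ⟨r x, ⟨ρ, r, h, rfl⟩, (map_inv₀ r x).symm⟩
  · intro x y _ _ hx hy
    refine (hx.image2 (· * ·) hy).subset ?_
    rintro g ⟨ρ, r, h, rfl⟩
    exact ⟨r x, ⟨ρ, r, h, rfl⟩, r y, ⟨ρ, r, h, rfl⟩, (map_mul r x y).symm⟩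

theorem finite_moves (hF : IsCurve QQ F) (hS : IntermediateField.adjoin QQ (S : Set F) = ⊤)
    (p : Place QQ F) :
    {p' : Place QQ F | ∃ (ρ : Gam) (r : F ≃+* F), Fixes S ρ r ∧ Moves r p p'}.Finite := by
  obtain ⟨w, hw, hreg⟩ := exists_pole hF p
  refine ((finite_conj hS w).biUnion (t := fun g =>
    {p' : Place QQ F | g ∉ p'.ring ∧ ∀ v : Place QQ F, v ≠ p' → g ∈ v.ring}) ?_).subset ?_
  · intro g _
    refine Set.Subsingleton.finite ?_
    rintro p₁ ⟨h1, h2⟩ p₂ ⟨h3, h4⟩
    by_contra hne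
    exact h1 (h4 p₁ hne)
  · rintro p' ⟨ρ, r, h, hm⟩
    rw [Set.mem_iUnion₂]
    refine ⟨r w, ⟨ρ, r, h, rfl⟩, ?_, ?_⟩
    · rw [moves_iff.1 hm w]
      exact hw
    · intro v' hv'
      have hsymm : ∀ c : QQ, r.symm (algebraMap QQ F c) = algebraMap QQ F (ρ.symm c) := by
        intro c
        rw [RingEquiv.symm_apply_eq, h.2, AlgEquiv.apply_symm_apply]
      have h1 := moves_iff.1 (moves_act hsymm v')
      have h2 : act r.symm hsymm v' ≠ p := by
        intro hp
        apply hv'
        rw [hp] at h1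
        apply Place.ext
        ext f
        rw [← h1 f, ← moves_iff.1 hm, RingEquiv.apply_symm_apply]
      have h3 := (h1 (r w)).1
      rw [RingEquiv.symm_apply_apply] at h3
      exact h3 (hreg _ h2)

end Curve

section Product

variable {ι : Type} [Finite ι] {L : ι → Type} [∀ i, Field (L i)] [∀ i, Algebra QQ (L i)]
  {S : ∀ i, Finset (L i)}

theorem finite_points (hL : ∀ i, IsCurve QQ (L i))
    (hS : ∀ i, IntermediateField.adjoin QQ (S i : Set (L i)) = ⊤) (x : ∀ i, Place QQ (L i)) :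
    {y | ∃ σ : Auto S, y = σ.map x}.Finite := by
  refine (Set.Finite.pi' fun i => finite_moves (hL i) (hS i) (x i)).subset ?_
  rintro y ⟨σ, rfl⟩ i
  exact ⟨σ.rho, σ.r i, σ.fix i, σ.moves x i⟩

theorem finite_cycles (hL : ∀ i, IsCurve QQ (L i))
    (hS : ∀ i, IntermediateField.adjoin QQ (S i : Set (L i)) = ⊤)
    (w : (∀ i, Place QQ (L i)) →₀ ℤ) :
    {w' | ∃ σ : Auto S, w' = w.mapDomain σ.map}.Finite := by
  have h1 : {g : w.support → (∀ i, Place QQ (L i)) | ∀ x, g x ∈
      {y | ∃ σ : Auto S, y = σ.map x.1}}.Finite :=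
    Set.Finite.pi' fun x => finite_points hL hS x.1
  refine (h1.image fun g => ∑ x : w.support, Finsupp.single (g x) (w x.1)).subset ?_
  rintro w' ⟨σ, rfl⟩
  refine ⟨fun x => σ.map x.1, fun x => ⟨σ, rfl⟩, ?_⟩
  exact Finset.sum_coe_sort w.support fun x => Finsupp.single (σ.map x) (w x)

private def idAuto : Auto S where
  rho := AlgEquiv.refl
  r := fun _ => RingEquiv.refl _
  fix := fun _ => ⟨fun _ _ => rfl, fun _ => rfl⟩

/-- a cycle can be replaced by the sum of its conjugates -/
theorem average (hL : ∀ i, IsCurve QQ (L i))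
    (hS : ∀ i, IntermediateField.adjoin QQ (S i : Set (L i)) = ⊤)
    {K : (∀ i, Place QQ (L i)) → (∀ i, Place QQ (L i)) → ℝ} (hK : PSD K)
    (hinv : ∀ (σ : Auto S) (w : (∀ i, Place QQ (L i)) →₀ ℤ),
      form K (w.mapDomain σ.map) (w.mapDomain σ.map) = form K w w)
    {z : (∀ i, Place QQ (L i)) →₀ ℤ} (hz : Rational S z) {m : ℕ}
    {w : (∀ i, Place QQ (L i)) →₀ ℤ} (hw : w - m • z ∈ RatEq L) :
    ∃ (T : ℕ) (w' : (∀ i, Place QQ (L i)) →₀ ℤ), 0 < T ∧ Rational S w' ∧
      w' - (T * m) • z ∈ RatEq L ∧ form K w' w' ≤ (T : ℝ) ^ 2 * form K w w := by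
  obtain ⟨T, hT⟩ : ∃ T : Finset ((∀ i, Place QQ (L i)) →₀ ℤ), ∀ u, u ∈ T ↔
      ∃ σ : Auto S, u = w.mapDomain σ.map :=
    ⟨(finite_cycles hL hS w).toFinset, fun u => by simp⟩
  refine ⟨T.card, ∑ u ∈ T, u, ?_, ?_, ?_, ?_⟩
  · exact Finset.card_pos.2 ⟨_, (hT _).2 ⟨idAuto, rfl⟩⟩
  · rw [rational_iff]
    intro σ
    have hinj : Function.Injective fun u : (∀ i, Place QQ (L i)) →₀ ℤ => u.mapDomain σ.map :=
      Finsupp.mapDomain_injective σ.map_injective
    have h1 : T.image (fun u : (∀ i, Place QQ (L i)) →₀ ℤ => u.mapDomain σ.map) = T := by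
      refine Finset.eq_of_subset_of_card_le ?_ ?_
      · intro u hu
        obtain ⟨u', hu', rfl⟩ := Finset.mem_image.1 hu
        obtain ⟨τ, rfl⟩ := (hT u').1 hu'
        obtain ⟨υ, hυ⟩ := σ.exists_comp τ
        refine (hT _).2 ⟨υ, ?_⟩
        show (w.mapDomain τ.map).mapDomain σ.map = w.mapDomain υ.map
        rw [← Finsupp.mapDomain_comp]
        congr 1
        ext x : 1
        exact (hυ x).symm
      · rw [Finset.card_image_of_injective _ hinj]
    have h2 := Finset.sum_image (s := T) (f := fun u : (∀ i, Place QQ (L i)) →₀ ℤ => u)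
      (g := fun u : (∀ i, Place QQ (L i)) →₀ ℤ => u.mapDomain σ.map) hinj.injOn
    rw [h1] at h2
    rw [Finsupp.mapDomain_finsetSum]
    exact h2.symm
  · have h1 : (∑ u ∈ T, u) - (T.card * m) • z = ∑ u ∈ T, (u - m • z) := by
      rw [Finset.sum_sub_distrib, Finset.sum_const, smul_smul]
    rw [h1]
    refine sum_mem fun u hu => ?_
    obtain ⟨σ, rfl⟩ := (hT u).1 hu
    have h2 := σ.map_mem' hw
    have h3 : (w - m • z).mapDomain σ.map = w.mapDomain σ.map - m • z := by
      have h4 := map_sub (Finsupp.mapDomain.addMonoidHom (M := ℤ) σ.map) w (m • z)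
      rw [map_nsmul] at h4
      have h5 : (Finsupp.mapDomain.addMonoidHom (M := ℤ) σ.map) z = z := rational_iff.1 hz σ
      rw [h5] at h4
      exact h4
    rwa [h3] at h2
  · refine (form_sum_le hK T fun u => u).trans (le_of_eq ?_)
    have h1 : ∑ u ∈ T, form K u u = ∑ u ∈ T, form K w w := by
      refine Finset.sum_congr rfl fun u hu => ?_
      obtain ⟨σ, rfl⟩ := (hT u).1 hu
      exact hinv σ w
    rw [h1, Finset.sum_const, nsmul_eq_mul]
    ring

end Product

end Pool.Agent.Clo
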