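import Pool.Agent.Clo.Gen
import Pool.Agent.Clo.Orbits
import Pool.Agent.Clo.Alb

/-!
# The main theorem

PROOFS. `energy_lin`: `albKer_small` (with `energy_eq`). `rational_small`: `albKer_small`,
`IsSmallLin.isSmall` give `m > 0` and `w` with `w - m • z ∈ RatEq L`, `form w w ≤ ε m ^ 2`; apply
`average` (with `Auto.form_map'`; the kernel is positive semidefinite by `psd_prodKer`), the new
`m` is `T * m`. `isGLB`: let `A i p q = 1 + b i p q` (`kernel_one_add`; it is invariant). Lower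
bound:
for `(m, w)` in the set, `albEnergy b w = m² albEnergy b z` (`albEnergy_congr` with `ratEq_albKer`)
and
`albEnergy_le`; divide by `m²`. Greatest: let `ε > 0`; we find an element of the set which is
`≤ albEnergy b z + ε` (`IsGLB` via `isGLB_iff_le_iff` or `le_of_forall_pos_le_add`). Let `z'` be as
in
`exists_alb`, `E = form z' z' = albEnergy b z ≥ 0`, and `δ > 0` with `δ E ≤ ε / 2`. Let `ε' > 0`
with
`(1 + 1 / δ) ε' ≤ ε / 2`. As `AlbKer L (z - z')`, `albKer_small` and `IsSmallLin.isSmall` give `m >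
0`
and `w₁` with `w₁ - m • (z - z') ∈ RatEq L`, `form w₁ w₁ ≤ ε' m²`. Put `w = m • z' + w₁`: then
`w - m • z ∈ RatEq L` and by `form_add_le`
`form w w ≤ (1 + δ) m² E + (1 + 1 / δ) ε' m² ≤ m² (albEnergy b z + ε)`. Then `average`.
-/

set_option autoImplicit false

noncomputable section

namespace Pool.Agent.Clo

open Pool.Agent.ZCyc Pool.Agent.Dess
open scoped Classical

private theorem form_nsmul_sq {X : Type} (K : X → X → ℝ) (n : ℕ) (v : X →₀ ℤ) :
    form K (n • v) (n • v) = (n : ℝ) ^ 2 * form K v v := by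
  rw [← natCast_zsmul, form_zsmul_left, form_zsmul_right]
  push_cast
  ring

section Main

variable {ι : Type} [Fintype ι] {L : ι → Type} [∀ i, Field (L i)] [∀ i, Algebra QQ (L i)]

theorem energy_lin (hL : ∀ i, IsCurve QQ (L i)) {A : ∀ i, Place QQ (L i) → Place QQ (L i) → ℝ}
    (hA : ∀ i, Kernel (A i)) (hi : ∀ i, ∃ S, Inv S (A i)) {z : (∀ i, Place QQ (L i)) →₀ ℤ}
    (hz : AlbKer L z) :
    ∃ (m₀ : ℕ) (C : ℝ), 0 < m₀ ∧ ∀ M : ℕ, ∃ w : (∀ i, Place QQ (L i)) →₀ ℤ,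
      w - (M * m₀) • z ∈ RatEq L ∧ energy A w ≤ C * M := by
  obtain ⟨m, C, hm, h⟩ := albKer_small hL hA hi hz
  refine ⟨m, C, hm, fun M => ?_⟩
  obtain ⟨w, hw, hwe⟩ := h M
  refine ⟨w, hw, ?_⟩
  rw [energy_eq]
  exact hwe

variable {S : ∀ i, Finset (L i)}

theorem rational_small (hL : ∀ i, IsCurve QQ (L i))
    (hS : ∀ i, IntermediateField.adjoin QQ (S i : Set (L i)) = ⊤)
    {A : ∀ i, Place QQ (L i) → Place QQ (L i) → ℝ} (hA : ∀ i, Kernel (A i))
    (hi : ∀ i, Inv (S i) (A i)) {z : (∀ i, Place QQ (L i)) →₀ ℤ} (hr : Rational S z)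
    (hz : AlbKer L z) {ε : ℝ} (hε : 0 < ε) :
    ∃ (m : ℕ) (w : (∀ i, Place QQ (L i)) →₀ ℤ), 0 < m ∧ Rational S w ∧
      w - m • z ∈ RatEq L ∧ energy A w ≤ ε * (m : ℝ) ^ 2 := by
  obtain ⟨m, w, hm, hw, hwe⟩ := (albKer_small hL hA (fun i => ⟨S i, hi i⟩) hz).isSmall ε hε
  obtain ⟨T, w', hT, hr', hw', he⟩ := average hL hS (psd_prodKer fun i => (hA i).toPSD)
    (fun σ w => σ.form_map' hi w) hr hw
  refine ⟨T * m, w', Nat.mul_pos hT hm, hr', hw', ?_⟩
  rw [energy_eq]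
  refine he.trans ?_
  have h1 := mul_le_mul_of_nonneg_left hwe (sq_nonneg (T : ℝ))
  push_cast
  nlinarith

theorem isGLB_energy (hL : ∀ i, IsCurve QQ (L i))
    (hS : ∀ i, IntermediateField.adjoin QQ (S i : Set (L i)) = ⊤) {o : ∀ i, Place QQ (L i)}
    {b : ∀ i, Place QQ (L i) → Place QQ (L i) → ℝ}
    (hb : ∀ i, HeightPairing (S i) (o i) (b i)) {z : (∀ i, Place QQ (L i)) →₀ ℤ}
    (hr : Rational S z) :
    IsGLB {e : ℝ | ∃ (m : ℕ) (w : (∀ i, Place QQ (L i)) →₀ ℤ), 0 < m ∧ Rational S w ∧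
      w - m • z ∈ RatEq L ∧ e = energy (fun i p q => 1 + b i p q) w / (m : ℝ) ^ 2}
      (albEnergy b z) := by
  have hA : ∀ i, Kernel (fun p q => 1 + b i p q) := fun i => kernel_one_add (hb i).toKernel
  have hi : ∀ i, Inv (S i) (fun p q => 1 + b i p q) := by
    intro i ρ r hf p p' q q' hp hq
    beta_reduce
    rw [(hb i).inv ρ r hf p p' q q' hp hq]
  have hP : PSD (prodKer fun i p q => 1 + b i p q) := psd_prodKer fun i => (hA i).toPSD
  constructor
  · rintro e ⟨m, w, hm, _, hw, rfl⟩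
    have hm' : (0 : ℝ) < (m : ℝ) ^ 2 := by
      have h0 : (0 : ℝ) < m := Nat.cast_pos.2 hm
      positivity
    rw [le_div_iff₀ hm', energy_eq]
    have h1 := albEnergy_congr hb (ratEq_albKer hw)
    have h2 := albEnergy_le hb w
    linarith
  · intro c hc
    refine le_of_forall_pos_le_add fun ε hε => ?_
    obtain ⟨z', hz', hE⟩ := exists_alb hb z
    have hE0 : 0 ≤ albEnergy b z := by
      rw [← hE]
      exact form_nonneg z' hP
    obtain ⟨δ, hδ, hδE⟩ : ∃ δ : ℝ, 0 < δ ∧ δ * albEnergy b z ≤ ε / 2 := by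
      refine ⟨ε / (2 * (albEnergy b z + 1)), by positivity, ?_⟩
      rw [div_mul_eq_mul_div, div_le_div_iff₀ (by positivity) (by positivity)]
      nlinarith
    have hδ' : 0 < 1 + 1 / δ := by positivity
    obtain ⟨ε', hε', hε''⟩ : ∃ ε' : ℝ, 0 < ε' ∧ (1 + 1 / δ) * ε' ≤ ε / 2 := by
      refine ⟨ε / 2 / (1 + 1 / δ), by positivity, ?_⟩
      rw [mul_div_cancel₀ _ hδ'.ne']
    obtain ⟨m, w₁, hm, hw₁, hwe⟩ :=
      (albKer_small hL hA (fun i => ⟨S i, hi i⟩) hz').isSmall ε' hε'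
    have hw : (m • z' + w₁) - m • z ∈ RatEq L := by
      have h1 : (m • z' + w₁) - m • z = w₁ - m • (z - z') := by
        rw [smul_sub]
        abel
      rw [h1]
      exact hw₁
    obtain ⟨T, w', hT, hr', hw', he⟩ := average hL hS hP (fun σ w => σ.form_map' hi w) hr hw
    have hTm : 0 < T * m := Nat.mul_pos hT hm
    have h1 : c ≤ energy (fun i p q => 1 + b i p q) w' / ((T * m : ℕ) : ℝ) ^ 2 :=
      hc ⟨T * m, w', hTm, hr', hw', rfl⟩
    refine h1.trans ?_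
    have hTm' : (0 : ℝ) < ((T * m : ℕ) : ℝ) ^ 2 := by
      have h0 : (0 : ℝ) < ((T * m : ℕ) : ℝ) := Nat.cast_pos.2 hTm
      positivity
    rw [div_le_iff₀ hTm', energy_eq]
    refine he.trans ?_
    have h2 := form_add_le (m • z') w₁ hP hδ
    rw [form_nsmul_sq, hE] at h2
    have h3 := mul_le_mul_of_nonneg_left hwe hδ'.le
    have h4 : form (prodKer fun i p q => 1 + b i p q) (m • z' + w₁) (m • z' + w₁) ≤
        (m : ℝ) ^ 2 * (albEnergy b z + ε) := by
      have h5 := mul_le_mul_of_nonneg_left hδE (sq_nonneg (m : ℝ))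
      have h6 := mul_le_mul_of_nonneg_left hε'' (sq_nonneg (m : ℝ))
      nlinarith
    have h7 := mul_le_mul_of_nonneg_left h4 (sq_nonneg (T : ℝ))
    push_cast
    nlinarith

end Main

end Pool.Agent.Clo
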