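import Pool.Agent.Clo.Psd

/-!
# The quadratic form of a kernel on the group of cycles

`form K w w' = ∑ w(x) w'(y) K x y`.

PROOFS. Additivity in each variable: `Finsupp.sum_add_index'`. `form_nsmul_left` etc. follow (or
define the additive homomorphism with `AddMonoidHom.mk'` and use `map_nsmul`, `map_sum`).
`form_map`: `Finsupp.sum_mapDomain_index`. `form_nonneg`: `Finsupp.sum` is the sum over the
support; `PSD` with `c x = w x`. `form_mono`: `form K' w w - form K w w` is the form of the
difference. `form_add_le`: `0 ≤ form (δ w - w')` in the sense of real coefficients; it is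
convenient to prove first for real `a, b`:
`0 ≤ a ^ 2 * form K w w + 2 * a * b * form K w w' + b ^ 2 * form K w' w'` (`PSD` with the finset
`w.support ∪ w'.support` and `c x = a w x + b w' x`; `Finsupp.sum_of_support_subset`), and to use it
with `a = δ`, `b = -1`: `2 form w w' ≤ δ form w w + (1 / δ) form w' w'`.
`form_sum_le`: from the same inequality with `a = 1`, `b = -1`: `2 form w_i w_j ≤ form w_i w_i +
form w_j w_j`, sum over `i, j ∈ T`. `form_le`: `|K x y| ≤ C` on the support, and
`form K w w = ∑ ∑ w(x) w(y) K x y ≤ C (∑ |w(x)|) ^ 2`.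
-/

set_option autoImplicit false

noncomputable section

namespace Pool.Agent.Clo

open scoped Classical

section Form

variable {X Y : Type}

/-- `∑ w(x) w'(y) K x y` -/
def form (K : X → X → ℝ) (w w' : X →₀ ℤ) : ℝ :=
  w.sum fun x n => w'.sum fun y m => (n : ℝ) * m * K x y

variable (K K' : X → X → ℝ) (u v w : X →₀ ℤ)

theorem form_add_left : form K (u + v) w = form K u w + form K v w := by
  unfold form
  refine Finsupp.sum_add_index' (fun x => ?_) fun x a b => ?_
  · exact Finset.sum_eq_zero fun y _ => by
      push_cast
      ring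
  · rw [← Finsupp.sum_add]
    refine Finsupp.sum_congr fun y _ => ?_
    push_cast
    ring

theorem form_add_right : form K u (v + w) = form K u v + form K u w := by
  unfold form
  rw [← Finsupp.sum_add]
  refine Finsupp.sum_congr fun x _ => ?_
  refine Finsupp.sum_add_index' (fun y => ?_) fun y a b => ?_
  · push_cast
    ring
  · push_cast
    ring

theorem form_zero_left : form K 0 w = 0 := by
  unfold form
  rw [Finsupp.sum_zero_index]

theorem form_zero_right : form K w 0 = 0 := by
  unfold form
  simp only [Finsupp.sum_zero_index]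
  exact Finset.sum_const_zero

/-- the form as an additive homomorphism in the first variable -/
private def hl : (X →₀ ℤ) →+ ℝ := AddMonoidHom.mk' (fun v => form K v w) fun u v =>
  form_add_left K u v w

/-- the form as an additive homomorphism in the second variable -/
private def hr : (X →₀ ℤ) →+ ℝ := AddMonoidHom.mk' (fun w => form K v w) fun u w =>
  form_add_right K v u w

theorem form_zsmul_left (n : ℤ) : form K (n • v) w = n * form K v w := by
  have h := map_zsmul (hl K w) n v
  rw [zsmul_eq_mul] at h
  exact h

theorem form_zsmul_right (n : ℤ) : form K v (n • w) = n * form K v w := by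
  have h := map_zsmul (hr K v) n w
  rw [zsmul_eq_mul] at h
  exact h

theorem form_sub_left : form K (u - v) w = form K u w - form K v w :=
  map_sub (hl K w) u v

theorem form_sub_right : form K u (v - w) = form K u v - form K u w :=
  map_sub (hr K u) v w

theorem form_sum_left {T : Type} (t : Finset T) (f : T → X →₀ ℤ) :
    form K (∑ i ∈ t, f i) w = ∑ i ∈ t, form K (f i) w :=
  map_sum (hl K w) f t

theorem form_sum_right {T : Type} (t : Finset T) (f : T → X →₀ ℤ) :
    form K w (∑ i ∈ t, f i) = ∑ i ∈ t, form K w (f i) :=
  map_sum (hr K w) f t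

theorem form_single (x y : X) (m n : ℤ) :
    form K (Finsupp.single x m) (Finsupp.single y n) = m * n * K x y := by
  unfold form
  rw [Finsupp.sum_single_index, Finsupp.sum_single_index]
  · push_cast
    ring
  · rw [Finsupp.sum_single_index] <;>
    · push_cast
      ring

theorem form_comm {K : X → X → ℝ} (hK : ∀ x y, K x y = K y x) (v w : X →₀ ℤ) :
    form K v w = form K w v := by
  unfold form Finsupp.sum
  rw [Finset.sum_comm]
  refine Finset.sum_congr rfl fun y _ => Finset.sum_congr rfl fun x _ => ?_
  beta_reduce
  rw [hK x y]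
  ring

theorem form_map (K : X → X → ℝ) (g : Y → X) (v w : Y →₀ ℤ) :
    form K (v.mapDomain g) (w.mapDomain g) = form (fun x y => K (g x) (g y)) v w := by
  unfold form
  rw [Finsupp.sum_mapDomain_index (fun x => ?_) fun x a b => ?_]
  · refine Finsupp.sum_congr fun x _ => ?_
    rw [Finsupp.sum_mapDomain_index (fun y => ?_) fun y a b => ?_]
    · push_cast
      ring
    · push_cast
      ring
  · exact Finset.sum_eq_zero fun y _ => by
      push_cast
      ring
  · rw [← Finsupp.sum_add]
    refine Finsupp.sum_congr fun y _ => ?_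
    push_cast
    ring

theorem form_add_kernel : form (fun x y => K x y + K' x y) u v = form K u v + form K' u v := by
  unfold form
  rw [← Finsupp.sum_add]
  refine Finsupp.sum_congr fun x _ => ?_
  rw [← Finsupp.sum_add]
  refine Finsupp.sum_congr fun y _ => ?_
  ring

variable {K K'}

theorem form_nonneg (hK : PSD K) : 0 ≤ form K w w := hK.2 w.support fun x => (w x : ℝ)

/-- monotonicity in the kernel -/
theorem form_mono (h : PSD fun x y => K' x y - K x y) : form K w w ≤ form K' w w := by
  have h1 := form_nonneg w h
  have h2 := form_add_kernel K (fun x y => K' x y - K x y) w w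
  have h3 : (fun x y => K x y + (K' x y - K x y)) = K' := by
    funext x y
    ring
  rw [h3] at h2
  linarith

/-- real coefficients -/
private theorem form_real (hK : PSD K) (a b : ℝ) :
    0 ≤ a ^ 2 * form K v v + a * b * (form K v w + form K w v) + b ^ 2 * form K w w := by
  have key' : ∀ u t : X →₀ ℤ, u.support ⊆ v.support ∪ w.support →
      t.support ⊆ v.support ∪ w.support → form K u t = ∑ x ∈ v.support ∪ w.support,
      ∑ y ∈ v.support ∪ w.support, (u x : ℝ) * t y * K x y := by
    intro u t hu ht
    unfold form
    rw [Finsupp.sum_of_support_subset u hu _ (fun x _ => ?_)]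
    · refine Finset.sum_congr rfl fun x _ => ?_
      rw [Finsupp.sum_of_support_subset t ht _ (fun y _ => ?_)]
      push_cast
      ring
    · exact Finset.sum_eq_zero fun y _ => by
        push_cast
        ring
  have h1 := hK.2 (v.support ∪ w.support) fun x => a * v x + b * w x
  rw [key' v v Finset.subset_union_left Finset.subset_union_left,
    key' v w Finset.subset_union_left Finset.subset_union_right,
    key' w v Finset.subset_union_right Finset.subset_union_left,
    key' w w Finset.subset_union_right Finset.subset_union_right, ← Finset.sum_add_distrib,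
    Finset.mul_sum, Finset.mul_sum, Finset.mul_sum, ← Finset.sum_add_distrib,
    ← Finset.sum_add_distrib]
  refine h1.trans (le_of_eq (Finset.sum_congr rfl fun x _ => ?_))
  rw [← Finset.sum_add_distrib, Finset.mul_sum, Finset.mul_sum, Finset.mul_sum,
    ← Finset.sum_add_distrib, ← Finset.sum_add_distrib]
  refine Finset.sum_congr rfl fun y _ => ?_
  ring

theorem form_add_le (hK : PSD K) {δ : ℝ} (hδ : 0 < δ) :
    form K (v + w) (v + w) ≤ (1 + δ) * form K v v + (1 + 1 / δ) * form K w w := by
  have h1 := form_real v w hK δ (-1)
  rw [form_add_left, form_add_right, form_add_right]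
  have h2 : form K v w + form K w v ≤ δ * form K v v + (1 / δ) * form K w w := by
    have h3 : δ * (form K v w + form K w v) ≤ δ * (δ * form K v v + (1 / δ) * form K w w) := by
      have h4 : δ * (1 / δ * form K w w) = form K w w := by
        field_simp
      rw [mul_add δ (δ * _), h4]
      nlinarith
    exact le_of_mul_le_mul_left h3 hδ
  linarith

theorem form_sum_le (hK : PSD K) {T : Type} (t : Finset T) (f : T → X →₀ ℤ) :
    form K (∑ i ∈ t, f i) (∑ i ∈ t, f i) ≤ (t.card : ℝ) * ∑ i ∈ t, form K (f i) (f i) := by
  rw [form_sum_left]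
  have h1 : ∀ i j, form K (f i) (f j) + form K (f j) (f i) ≤
      form K (f i) (f i) + form K (f j) (f j) := by
    intro i j
    have h2 := form_real (f i) (f j) hK 1 (-1)
    linarith
  have h2 : ∑ i ∈ t, form K (f i) (∑ j ∈ t, f j) = ∑ i ∈ t, ∑ j ∈ t, form K (f i) (f j) :=
    Finset.sum_congr rfl fun i _ => form_sum_right K (f i) t f
  rw [h2]
  have h3 : ∑ i ∈ t, ∑ j ∈ t, (form K (f i) (f j) + form K (f j) (f i)) ≤
      ∑ i ∈ t, ∑ j ∈ t, (form K (f i) (f i) + form K (f j) (f j)) :=
    Finset.sum_le_sum fun i _ => Finset.sum_le_sum fun j _ => h1 i j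
  simp only [Finset.sum_add_distrib, Finset.sum_const, nsmul_eq_mul] at h3
  rw [Finset.sum_comm (f := fun i j => form K (f j) (f i)), ← Finset.mul_sum] at h3
  linarith

theorem form_le {C : ℝ} (hC : ∀ x ∈ w.support, ∀ y ∈ w.support, |K x y| ≤ C) :
    form K w w ≤ C * (w.sum fun _ n => |(n : ℝ)|) ^ 2 := by
  unfold form Finsupp.sum
  rw [sq, Finset.sum_mul_sum, Finset.mul_sum]
  refine Finset.sum_le_sum fun x hx => ?_
  rw [Finset.mul_sum]
  refine Finset.sum_le_sum fun y hy => ?_
  calc (w x : ℝ) * w y * K x y ≤ |(w x : ℝ) * w y * K x y| := le_abs_self _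
    _ = |(w x : ℝ)| * |(w y : ℝ)| * |K x y| := by rw [abs_mul, abs_mul]
    _ ≤ |(w x : ℝ)| * |(w y : ℝ)| * C :=
      mul_le_mul_of_nonneg_left (hC x hx y hy) (by positivity)
    _ = C * (|(w x : ℝ)| * |(w y : ℝ)|) := by ring

end Form

end Pool.Agent.Clo
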