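import Pool.Agent.Clo.ZT
import Pool.Agent.Clo.Prod

/-!
# Orthogonality

PROOFS. `zt_orth`: by `form_sub_right`, `form_zsmul_right`, `form_sum_right` it suffices that
`form K (zt s) (single (pair y y') 1) = 0` for `y, y' ∈ s'`. If `s` is empty then `zt s = 0`.
Otherwise
let `x₀ ∈ s`, `a = A x₀ y`, `b = B x₀ y'`; with `form_single` the form is
`|s| ∑ x ∈ s, A x y * B x y' - ∑ x ∈ s, ∑ x' ∈ s, A x y * B x' y' = |s| |s| a b - |s|² a b = 0`.
`form_sum_orth`: `form_sum_left`, `form_sum_right`, the terms with `i ≠ j` are zero (for `i < j` by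
`h`, for `j < i` by `form_comm`).
`zt_bound`: `form_le` with `|K x y| = |A x y| |B x y| ≤ C C'` on the pairs of points of `s`
(`psd_abs`), and the sum of the absolute values of the coefficients of `zt s` is at most
`2 |s| ^ 2` (triangle inequality: `w ↦ w.sum fun _ n => |n|` is subadditive, and `n` for
`single x n`; e.g. prove it for `∑ i ∈ T, single (f i) (c i)` in general, it is at most `∑ |c i|`,
or bound `form K` directly: expand it by `form_sub_left` etc. into sums of terms `± K x y`, of which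
there are at most `(2 |s| ^ 2) ^ 2`).
-/

set_option autoImplicit false

noncomputable section

namespace Pool.Agent.Clo

open Pool.Agent.ZCyc Pool.Agent.Dess
open scoped Classical

section Orth

variable {F : Type} [Field F] [Algebra QQ F]

/-- the product of two kernels -/
def ker2 (A B : Place QQ F → Place QQ F → ℝ) (x y : Bool → Place QQ F) : ℝ :=
  A (x false) (y false) * B (x true) (y true)

theorem psd_ker2 {A B : Place QQ F → Place QQ F → ℝ} (hA : PSD A) (hB : PSD B) :
    PSD (ker2 A B) :=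
  psd_mul (psd_comap hA fun x : Bool → Place QQ F => x false)
    (psd_comap hB fun x : Bool → Place QQ F => x true)

variable {A B : Place QQ F → Place QQ F → ℝ}

private theorem orth_single {s s' : Finset (Place QQ F)}
    (hA : ∀ x ∈ s, ∀ x' ∈ s, ∀ y ∈ s', A x y = A x' y)
    (hB : ∀ x ∈ s, ∀ x' ∈ s, ∀ y ∈ s', B x y = B x' y) {y y' : Place QQ F} (hy : y ∈ s')
    (hy' : y' ∈ s') :
    form (ker2 A B) (zt s) (Finsupp.single (pair (L := fun _ => F) y y') (1 : ℤ)) = 0 := by
  rcases s.eq_empty_or_nonempty with rfl | ⟨x₀, hx₀⟩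
  · have h0 : zt (∅ : Finset (Place QQ F)) = 0 := by simp [zt]
    rw [h0, form_zero_left]
  · have h1 : ∀ x ∈ s, ∀ x' ∈ s,
        form (ker2 A B) (Finsupp.single (pair (L := fun _ => F) x x') (1 : ℤ))
          (Finsupp.single (pair (L := fun _ => F) y y') (1 : ℤ)) = A x₀ y * B x₀ y' := by
      intro x hx x' hx'
      rw [form_single]
      have h2 : ker2 A B (pair (L := fun _ => F) x x') (pair (L := fun _ => F) y y') =
          A x y * B x' y' := rfl
      rw [h2, hA x hx x₀ hx₀ y hy, hB x' hx' x₀ hx₀ y' hy']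
      push_cast
      ring
    unfold zt
    rw [form_sub_left, form_zsmul_left, form_sum_left, form_sum_left,
      Finset.sum_congr rfl fun x hx => h1 x hx x hx]
    have h3 : ∀ x ∈ s, form (ker2 A B)
        (∑ x' ∈ s, Finsupp.single (pair (L := fun _ => F) x x') (1 : ℤ))
        (Finsupp.single (pair (L := fun _ => F) y y') (1 : ℤ)) =
          (s.card : ℝ) * (A x₀ y * B x₀ y') := by
      intro x hx
      rw [form_sum_left, Finset.sum_congr rfl fun x' hx' => h1 x hx x' hx', Finset.sum_const,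
        nsmul_eq_mul]
    rw [Finset.sum_congr rfl h3, Finset.sum_const, Finset.sum_const, nsmul_eq_mul, nsmul_eq_mul]
    push_cast
    ring

private theorem form_bound_sum {X T : Type} {K : X → X → ℝ} (t : Finset T) (f : T → X)
    (c : T → ℤ) {C : ℝ} (hC : ∀ i ∈ t, ∀ j ∈ t, |K (f i) (f j)| ≤ C) :
    form K (∑ i ∈ t, c i • Finsupp.single (f i) (1 : ℤ))
      (∑ i ∈ t, c i • Finsupp.single (f i) (1 : ℤ)) ≤ C * (∑ i ∈ t, |(c i : ℝ)|) ^ 2 := by
  rw [form_sum_left, sq, Finset.sum_mul_sum, Finset.mul_sum]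
  refine Finset.sum_le_sum fun i hi => ?_
  rw [form_sum_right, Finset.mul_sum]
  refine Finset.sum_le_sum fun j hj => ?_
  rw [form_zsmul_left, form_zsmul_right, form_single]
  calc (c i : ℝ) * ((c j : ℝ) * (((1 : ℤ) : ℝ) * ((1 : ℤ) : ℝ) * K (f i) (f j)))
      = (c i : ℝ) * (c j : ℝ) * K (f i) (f j) := by
        push_cast
        ring
    _ ≤ |(c i : ℝ) * (c j : ℝ) * K (f i) (f j)| := le_abs_self _
    _ = |(c i : ℝ)| * |(c j : ℝ)| * |K (f i) (f j)| := by rw [abs_mul, abs_mul]
    _ ≤ |(c i : ℝ)| * |(c j : ℝ)| * C :=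
      mul_le_mul_of_nonneg_left (hC i hi j hj) (by positivity)
    _ = C * (|(c i : ℝ)| * |(c j : ℝ)|) := by ring

private theorem zt_eq (s : Finset (Place QQ F)) :
    zt s = ∑ i ∈ s ×ˢ s, ((if i.1 = i.2 then (s.card : ℤ) else 0) - 1) •
      Finsupp.single (pair (L := fun _ => F) i.1 i.2) (1 : ℤ) := by
  rw [Finset.sum_product]
  have h1 : ∀ x ∈ s, ∑ y ∈ s, ((if x = y then (s.card : ℤ) else 0) - 1) •
      Finsupp.single (pair (L := fun _ => F) x y) (1 : ℤ) =
        (s.card : ℤ) • Finsupp.single (pair (L := fun _ => F) x x) (1 : ℤ) -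
          ∑ y ∈ s, Finsupp.single (pair (L := fun _ => F) x y) (1 : ℤ) := by
    intro x hx
    simp only [sub_smul, ite_smul, zero_smul, one_smul]
    rw [Finset.sum_sub_distrib, Finset.sum_ite_eq, if_pos hx]
  rw [Finset.sum_congr rfl h1, Finset.sum_sub_distrib, ← Finset.smul_sum]
  rfl

theorem zt_orth {s s' : Finset (Place QQ F)}
    (hA : ∀ x ∈ s, ∀ x' ∈ s, ∀ y ∈ s', A x y = A x' y)
    (hB : ∀ x ∈ s, ∀ x' ∈ s, ∀ y ∈ s', B x y = B x' y) :
    form (ker2 A B) (zt s) (zt s') = 0 := by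
  have h1 : zt s' = (s'.card : ℤ) •
      (∑ x ∈ s', Finsupp.single (pair (L := fun _ => F) x x) (1 : ℤ)) -
        ∑ x ∈ s', ∑ y ∈ s', Finsupp.single (pair (L := fun _ => F) x y) (1 : ℤ) := rfl
  rw [h1, form_sub_right, form_zsmul_right, form_sum_right, form_sum_right,
    Finset.sum_eq_zero fun y hy => orth_single hA hB hy hy, mul_zero, zero_sub, neg_eq_zero]
  refine Finset.sum_eq_zero fun y hy => ?_
  rw [form_sum_right]
  exact Finset.sum_eq_zero fun y' hy' => orth_single hA hB hy hy'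

theorem zt_bound (hA : PSD A) (hB : PSD B) {s : Finset (Place QQ F)} {C C' : ℝ}
    (hC : ∀ x ∈ s, A x x ≤ C) (hC' : ∀ x ∈ s, B x x ≤ C') :
    form (ker2 A B) (zt s) (zt s) ≤ C * C' * (2 * (s.card : ℝ) ^ 2) ^ 2 := by
  rcases s.eq_empty_or_nonempty with rfl | ⟨x₀, hx₀⟩
  · have h0 : zt (∅ : Finset (Place QQ F)) = 0 := by simp [zt]
    rw [h0, form_zero_left]
    simp
  · have hC0 : 0 ≤ C := (psd_diag hA x₀).trans (hC x₀ hx₀)
    have hC0' : 0 ≤ C' := (psd_diag hB x₀).trans (hC' x₀ hx₀)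
    have h1 := form_bound_sum (K := ker2 A B) (s ×ˢ s)
      (fun i => pair (L := fun _ => F) i.1 i.2)
      (fun i => (if i.1 = i.2 then (s.card : ℤ) else 0) - 1) (C := C * C') (by
        intro i hi j hj
        have hi' := Finset.mem_product.1 hi
        have hj' := Finset.mem_product.1 hj
        have h2 : ker2 A B (pair (L := fun _ => F) i.1 i.2) (pair (L := fun _ => F) j.1 j.2) =
          A i.1 j.1 * B i.2 j.2 := rfl
        rw [h2, abs_mul]
        exact mul_le_mul (psd_abs hA (hC _ hi'.1) (hC _ hj'.1))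
          (psd_abs hB (hC' _ hi'.2) (hC' _ hj'.2)) (abs_nonneg _) hC0)
    rw [← zt_eq] at h1
    refine h1.trans (mul_le_mul_of_nonneg_left ?_ (mul_nonneg hC0 hC0'))
    refine pow_le_pow_left₀ (Finset.sum_nonneg fun i _ => abs_nonneg _) ?_ 2
    have h3 : ∀ i ∈ s ×ˢ s, |(((if i.1 = i.2 then (s.card : ℤ) else 0) - 1 : ℤ) : ℝ)| ≤
        (if i.1 = i.2 then (s.card : ℝ) else 0) + 1 := by
      intro i _
      by_cases h : i.1 = i.2
      · rw [if_pos h, if_pos h, abs_le]
        push_cast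
        have h4 : (0 : ℝ) ≤ s.card := Nat.cast_nonneg _
        constructor <;> linarith
      · rw [if_neg h, if_neg h]
        norm_num
    refine (Finset.sum_le_sum h3).trans (le_of_eq ?_)
    rw [Finset.sum_add_distrib, Finset.sum_product]
    have h5 : ∀ x ∈ s, ∑ y ∈ s, (if (x, y).1 = (x, y).2 then (s.card : ℝ) else 0) = s.card := by
      intro x hx
      simp only
      rw [Finset.sum_ite_eq, if_pos hx]
    rw [Finset.sum_congr rfl h5, Finset.sum_const, Finset.sum_const, Finset.card_product,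
      nsmul_eq_mul, nsmul_eq_mul]
    push_cast
    ring

theorem form_sum_orth {X : Type} {K : X → X → ℝ} (hK : ∀ x y, K x y = K y x) {M : ℕ}
    (z : Fin M → X →₀ ℤ) (h : ∀ i j, i < j → form K (z j) (z i) = 0) {C : ℝ}
    (hC : ∀ i, form K (z i) (z i) ≤ C) :
    form K (∑ i, z i) (∑ i, z i) ≤ M * C := by
  rw [form_sum_left]
  have h1 : ∀ i, form K (z i) (∑ j, z j) = form K (z i) (z i) := by
    intro i
    rw [form_sum_right, Finset.sum_eq_single i]
    · intro j _ hji
      rcases lt_or_gt_of_ne hji with h2 | h2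
      · exact h j i h2
      · rw [form_comm hK]
        exact h i j h2
    · intro h2
      exact absurd (Finset.mem_univ i) h2
  rw [Finset.sum_congr rfl fun i _ => h1 i]
  refine (Finset.sum_le_sum fun i _ => hC i).trans (le_of_eq ?_)
  rw [Finset.sum_const, Finset.card_univ, Fintype.card_fin, nsmul_eq_mul]

end Orth

end Pool.Agent.Clo
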