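import Pool.Agent.Clo.Pull
import Pool.Agent.Clo.Orth

/-!
# The kernel induced by a morphism from the square of a curve

PROOF of `exists_ker2`. Induction over a finset `t` of indices, for the statement: there are `B, C`
with all properties and `∏ i ∈ t, A i (Φ x i) (Φ y i) = ker2 B C x y`. For `t = ∅` take the
constant `1` (`kernel_const`, `inv_const`). Step: by `IsMor`, the component `Φ · i` is constant,
equal
to `p`: then multiply `B` by the constant kernel `A i p p ≥ 0` (`psd_diag`); or
`(Φ x i).ring = (x c).ring.comap f` for some `c : Bool` and `f : L i →ₐ[QQ] F`: let `g v` be the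
place
of `L i` with the ring `v.ring.comap f` (it exists: `exists_pull` of `Pool/Agent/Dess/Ext.lean`,
with
`RingEquiv.refl QQ`; or `g v = Φ (fun _ => v) i`), so `Φ x i = g (x c)` (`Place.ext`), and multiply
`B` (if `c = false`) or `C` (if `c = true`) by the kernel `fun v w => A i (g v) (g w)`
(`kernel_pull`, `inv_pull`, `kernel_mul`, `inv_mul`). Finally `t = Finset.univ`.
`kernel_one_add`: `kernel_add` with `kernel_const`.
-/

set_option autoImplicit false

noncomputable section

namespace Pool.Agent.Clo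

open Pool.Agent.ZCyc Pool.Agent.Dess
open scoped Classical

theorem kernel_one_add {F : Type} [Field F] [Algebra QQ F] {b : Place QQ F → Place QQ F → ℝ}
    (hb : Kernel b) : Kernel fun p q => 1 + b p q := by
  exact kernel_add (kernel_const zero_le_one) hb

theorem exists_ker2 {ι : Type} [Fintype ι] {L : ι → Type} [∀ i, Field (L i)]
    [∀ i, Algebra QQ (L i)] (hL : ∀ i, IsCurve QQ (L i)) {F : Type} [Field F] [Algebra QQ F]
    (hF : IsCurve QQ F) {Φ : (Bool → Place QQ F) → ∀ i, Place QQ (L i)}
    (hΦ : IsMor (L := fun _ : Bool => F) Φ) {A : ∀ i, Place QQ (L i) → Place QQ (L i) → ℝ}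
    (hA : ∀ i, Kernel (A i)) (hi : ∀ i, ∃ S, Inv S (A i)) :
    ∃ B C : Place QQ F → Place QQ F → ℝ, Kernel B ∧ (∃ S, Inv S B) ∧ Kernel C ∧
      (∃ S, Inv S C) ∧ ∀ x y, prodKer A (Φ x) (Φ y) = ker2 B C x y := by
  have key : ∀ t : Finset ι, ∃ B C : Place QQ F → Place QQ F → ℝ, Kernel B ∧ (∃ S, Inv S B) ∧
      Kernel C ∧ (∃ S, Inv S C) ∧
      ∀ x y, ∏ i ∈ t, A i (Φ x i) (Φ y i) = ker2 B C x y := by
    intro t
    induction t using Finset.induction_on with
    | empty =>
      refine ⟨fun _ _ => 1, fun _ _ => 1, kernel_const zero_le_one, ⟨∅, inv_const 1⟩,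
        kernel_const zero_le_one, ⟨∅, inv_const 1⟩, fun x y => ?_⟩
      simp [ker2]
    | insert i t hit ih =>
      obtain ⟨B, C, hB, ⟨S, hS⟩, hC, ⟨T, hT⟩, h⟩ := ih
      rcases hΦ i with ⟨p, hp⟩ | ⟨c, f, hf⟩
      · refine ⟨fun v w => A i p p * B v w, C,
          kernel_mul (kernel_const (psd_diag (hA i).toPSD p)) hB,
          ⟨∅ ∪ S, inv_mul (inv_const _) hS⟩, hC, ⟨T, hT⟩, fun x y => ?_⟩
        rw [Finset.prod_insert hit, h, hp, hp]
        simp only [ker2]
        ring
      · obtain ⟨g, hgdef⟩ : ∃ g : Place QQ F → Place QQ (L i), g = fun v => Φ (fun _ => v) i :=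
          ⟨_, rfl⟩
        have hg : ∀ v, (g v).ring = v.ring.comap (f : L i →+* F) := by
          intro v
          rw [hgdef]
          exact hf (fun _ => v)
        have hgx : ∀ x, Φ x i = g (x c) := fun x => Place.ext ((hf x).trans (hg (x c)).symm)
        have hk : Kernel fun v w => A i (g v) (g w) := kernel_pull (hL i) hF f g hg (hA i)
        obtain ⟨S', hS'⟩ : ∃ S, Inv S fun v w => A i (g v) (g w) := inv_pull (hL i) f g hg (hi i)
        cases c with
        | false =>
          refine ⟨fun v w => A i (g v) (g w) * B v w, C, kernel_mul hk hB,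
            ⟨S' ∪ S, inv_mul hS' hS⟩, hC, ⟨T, hT⟩, fun x y => ?_⟩
          rw [Finset.prod_insert hit, h, hgx, hgx]
          simp only [ker2]
          ring
        | true =>
          refine ⟨B, fun v w => A i (g v) (g w) * C v w, hB, ⟨S, hS⟩, kernel_mul hk hC,
            ⟨S' ∪ T, inv_mul hS' hT⟩, fun x y => ?_⟩
          rw [Finset.prod_insert hit, h, hgx, hgx]
          simp only [ker2]
          ring
  exact key Finset.univ

end Pool.Agent.Clo
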