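import Pool.Agent.Clo.Sq
import Pool.Agent.Clo.Ker2
import Pool.Agent.Dess.Final

/-!
# The kernel of the Albanese map consists of small cycles

PROOF. `generation` of `Pool/Agent/Dess/Final.lean` with the subgroup `smallLin` (which contains
`RatEq L` by `isSmallLin_of_mem`): it remains to consider `w = (square P O).mapDomain Φ` with
`DessinCycle L w`. Here `P ≠ O` because `β` vanishes at `P` and has a pole at `O` (`Dessin.zero`,
`Dessin.pole`, `Place.Vanishes.mem`). By `exists_ker2` the kernel `prodKer A (Φ x) (Φ y)` is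
`ker2 B C x y`, so `isSmallLin_map` and `square_small` give the claim. `prodKer A` is positive
semidefinite by `psd_prodKer` and `Kernel.toPSD`.
-/

set_option autoImplicit false

noncomputable section

namespace Pool.Agent.Clo

open Pool.Agent.ZCyc Pool.Agent.Dess
open scoped Classical

theorem albKer_small {ι : Type} [Fintype ι] {L : ι → Type} [∀ i, Field (L i)]
    [∀ i, Algebra QQ (L i)] (hL : ∀ i, IsCurve QQ (L i))
    {A : ∀ i, Place QQ (L i) → Place QQ (L i) → ℝ} (hA : ∀ i, Kernel (A i))
    (hi : ∀ i, ∃ S, Inv S (A i)) {z : (∀ i, Place QQ (L i)) →₀ ℤ} (hz : AlbKer L z) :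
    IsSmallLin (prodKer A) z := by
  have hK : PSD (prodKer A) := psd_prodKer fun i => (hA i).toPSD
  rw [← mem_smallLin hK]
  refine generation (T := smallLin hK) hL (fun w hw => isSmallLin_of_mem hw) ?_ hz
  rintro w ⟨F, _, _, F₀, β, P, O, Φ, hβ, hΦ, rfl⟩
  have hPO : P ≠ O := by
    rintro rfl
    exact hβ.pole (Place.Vanishes.mem P hβ.zero)
  obtain ⟨B, C, hB, hB', hC, hC', h⟩ := exists_ker2 hL hβ.curve hΦ hA hi
  exact isSmallLin_map hΦ h (square_small hβ.curve hPO hB hB' hC hC')

end Pool.Agent.Clo
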