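import Mathlib.NumberTheory.Height.NumberField
import Mathlib.RingTheory.Ideal.Norm.RelNorm
import Pool.Agent.Clo.Cmp

/-!
# Linear comparison of heights on a curve

PROOF. This is `height_compare` of `Cmp.lean` with an explicit dependence on the height of `d`; copy
its proof (and the private lemma `rel_Cmp`, renamed). (1) For every polynomial `P` there is `C ≥ 0`
with `absLogHeight₁ (P.eval x) ≤ C * (1 + absLogHeight₁ x)` for all `x`: induction over `P` as in
`ht_eval` of `Root.lean` (`ht_add`, `ht_mul`, powers by induction with `ht_mul`). (2) `ht_root` of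
`Root.lean` is proved with the explicit bound `Real.log n + n * (B + B)`: repeat that proof (it uses
private lemmas of `Root.lean`; copy what is needed) to get: if `P ≠ 0`, `P.natDegree ≤ n`, all
coefficients have height at most `B` and `P.eval c = 0`, then
`absLogHeight₁ c ≤ Real.log n + n * (B + B)`. (3) Apply this with `B = C * (1 + absLogHeight₁ d)`;
for the finitely many `d` for which the relation degenerates there are finitely many places.
-/

set_option autoImplicit false

noncomputable section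

namespace Pool.Agent.Clo

open Pool.Agent.ZCyc Pool.Agent.Dess NumberField

/-- products over infinite places as products over embeddings -/
private theorem prodInf_HtLin {K : Type} [Field K] [NumberField K] (g : InfinitePlace K → ℝ) :
    ∏ w, g w ^ w.mult = ∏ φ : K →+* ℂ, g (InfinitePlace.mk φ) := by
  classical
  rw [← Finset.prod_fiberwise Finset.univ (fun φ : K →+* ℂ => InfinitePlace.mk φ)]
  refine Finset.prod_congr rfl fun w _ => ?_
  rw [Finset.prod_congr rfl (g := fun _ => g w) (fun φ hφ => by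
    rw [(Finset.mem_filter.1 hφ).2]), Finset.prod_const, InfinitePlace.card_filter_mk_eq]

/-- the number of extensions of an embedding -/
private theorem cardExt_HtLin {k K : Type} [Field k] [NumberField k] [Field K] [NumberField K]
    [Algebra k K] (σ : k →+* ℂ) [DecidableEq (k →+* ℂ)] :
    (Finset.univ.filter fun φ : K →+* ℂ => φ.comp (algebraMap k K) = σ).card =
      Module.finrank k K := by
  let _ := σ.toAlgebra
  rw [← AlgHom.card k K ℂ, ← Fintype.card_subtype]
  refine Fintype.card_congr ⟨fun φ => ⟨φ.1, fun x => ?_⟩, fun ψ => ⟨ψ.toRingHom, ?_⟩,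
    fun φ => ?_, fun ψ => ?_⟩
  · have h := congrArg (fun τ : k →+* ℂ => τ x) φ.2
    exact h
  · ext x
    exact ψ.commutes x
  · rfl
  · rfl

private theorem prodExt_HtLin {k K : Type} [Field k] [NumberField k] [Field K] [NumberField K]
    [Algebra k K] (f : InfinitePlace k → ℝ) :
    ∏ w : InfinitePlace K, f (w.comap (algebraMap k K)) ^ w.mult =
      (∏ v : InfinitePlace k, f v ^ v.mult) ^ Module.finrank k K := by
  classical
  rw [prodInf_HtLin f, prodInf_HtLin (fun w : InfinitePlace K => f (w.comap (algebraMap k K))),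
    ← Finset.prod_fiberwise Finset.univ (fun φ : K →+* ℂ => φ.comp (algebraMap k K)),
    ← Finset.prod_pow]
  refine Finset.prod_congr rfl fun σ _ => ?_
  rw [Finset.prod_congr rfl (g := fun _ => f (InfinitePlace.mk σ)) (fun φ hφ => by
    rw [InfinitePlace.comap_mk, (Finset.mem_filter.1 hφ).2]), Finset.prod_const]
  congr 1
  convert cardExt_HtLin (K := K) σ

/-- the height in an extension field -/
private theorem ext_HtLin {k K : Type} [Field k] [NumberField k] [Field K] [NumberField K]
    [Algebra k K] (x : k) : Height.mulHeight₁ (algebraMap k K x) =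
      Height.mulHeight₁ x ^ Module.finrank k K := by
  obtain ⟨a, b, hb, rfl⟩ := IsFractionRing.div_surjective (A := 𝓞 k) x
  have hb0 : b ≠ 0 := nonZeroDivisors.ne_zero hb
  have hcast : ∀ c : 𝓞 k, algebraMap k K (algebraMap (𝓞 k) k c) =
      algebraMap (𝓞 K) K (algebraMap (𝓞 k) (𝓞 K) c) := fun c => rfl
  rw [map_div₀, hcast, hcast, Height.mulHeight₁_div_eq_mulHeight,
    Height.mulHeight₁_div_eq_mulHeight]
  have hinj : Function.Injective (algebraMap (𝓞 k) (𝓞 K)) := by
    exact RingOfIntegers.algebraMap.injective k K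
  have hne : (![a, b] : Fin 2 → 𝓞 k) ≠ 0 := by
    intro h0
    exact hb0 (congrFun h0 1)
  have hne' : (![algebraMap (𝓞 k) (𝓞 K) a, algebraMap (𝓞 k) (𝓞 K) b] : Fin 2 → 𝓞 K) ≠ 0 := by
    intro h0
    have h1 : algebraMap (𝓞 k) (𝓞 K) b = 0 := congrFun h0 1
    exact hb0 (hinj (by rw [h1, map_zero]))
  have h1 := absNorm_mul_finprod_finitePlace_eq_one hne
  have h2 := absNorm_mul_finprod_finitePlace_eq_one hne'
  have hspan : Ideal.span (Set.range
      ![algebraMap (𝓞 k) (𝓞 K) a, algebraMap (𝓞 k) (𝓞 K) b]) =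
      (Ideal.span (Set.range ![a, b])).map (algebraMap (𝓞 k) (𝓞 K)) := by
    rw [Ideal.map_span, ← Set.range_comp]
    congr 2
    ext i
    fin_cases i <;> rfl
  rw [hspan, Ideal.absNorm_algebraMap, ← IsFractionRing.finrank_eq (𝓞 k) k (𝓞 K) K] at h2
  have hc1 : ∀ i : Fin 2, ((![a, b] i : 𝓞 k) : k) =
      ![algebraMap (𝓞 k) k a, algebraMap (𝓞 k) k b] i := by
    intro i
    fin_cases i <;> rfl
  have hc2 : ∀ i : Fin 2,
      ((![algebraMap (𝓞 k) (𝓞 K) a, algebraMap (𝓞 k) (𝓞 K) b] i : 𝓞 K) : K) =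
      ![algebraMap (𝓞 K) K (algebraMap (𝓞 k) (𝓞 K) a),
        algebraMap (𝓞 K) K (algebraMap (𝓞 k) (𝓞 K) b)] i := by
    intro i
    fin_cases i <;> rfl
  simp only [hc1] at h1
  simp only [hc2] at h2
  have hc3 : ∀ i : Fin 2, ![algebraMap (𝓞 K) K (algebraMap (𝓞 k) (𝓞 K) a),
        algebraMap (𝓞 K) K (algebraMap (𝓞 k) (𝓞 K) b)] i =
      algebraMap k K (![algebraMap (𝓞 k) k a, algebraMap (𝓞 k) k b] i) := by
    intro i
    fin_cases i <;> rfl
  have hn1 : (![algebraMap (𝓞 k) k a, algebraMap (𝓞 k) k b] : Fin 2 → k) ≠ 0 := by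
    intro h0
    have h3 : algebraMap (𝓞 k) k b = 0 := congrFun h0 1
    exact hb0 (RingOfIntegers.coe_injective (by rw [h3]; rfl))
  have hn2 : (![algebraMap (𝓞 K) K (algebraMap (𝓞 k) (𝓞 K) a),
        algebraMap (𝓞 K) K (algebraMap (𝓞 k) (𝓞 K) b)] : Fin 2 → K) ≠ 0 := by
    intro h0
    have h3 : algebraMap (𝓞 K) K (algebraMap (𝓞 k) (𝓞 K) b) = 0 := congrFun h0 1
    exact hb0 (hinj (RingOfIntegers.coe_injective (by rw [h3, map_zero]; rfl)))
  rw [NumberField.mulHeight_eq hn1, NumberField.mulHeight_eq hn2, mul_pow]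
  have hN : ((Ideal.span (Set.range ![a, b])).absNorm : ℝ) ≠ 0 := left_ne_zero_of_mul_eq_one h1
  congr 1
  · rw [← prodExt_HtLin (K := K)]
    refine Finset.prod_congr rfl fun w _ => ?_
    congr 1
    refine iSup_congr fun i => ?_
    rw [hc3, InfinitePlace.comap_apply]
  · refine mul_left_cancel₀ (pow_ne_zero (Module.finrank k K) hN) ?_
    rw [← mul_pow, h1, one_pow]
    push_cast at h2
    exact h2

private theorem oneLe_HtLin {K : Type} [Field K] (v : AbsoluteValue K ℝ) (d : ℕ) (a : ℕ → K) :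
    (1 : ℝ) ≤ ∏ j ∈ Finset.range d, max (v (a j)) 1 := by
  induction d with
  | zero => simp
  | succ d ih =>
    rw [Finset.prod_range_succ]
    exact one_le_mul_of_one_le_of_one_le ih (le_max_right _ _)

private theorem monoProd_HtLin {K : Type} [Field K] (v : AbsoluteValue K ℝ) {d : ℕ}
    (a b : ℕ → K) (h : ∀ j < d, v (b j) ≤ v (a j)) :
    ∏ j ∈ Finset.range d, max (v (b j)) 1 ≤ ∏ j ∈ Finset.range d, max (v (a j)) 1 := by
  refine Finset.prod_le_prod (fun j _ => le_trans zero_le_one (le_max_right _ _)) fun j hj => ?_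
  exact max_le_max (h j (Finset.mem_range.1 hj)) le_rfl

private theorem root_HtLin {K : Type} [Field K] {v : AbsoluteValue K ℝ} {d : ℕ} (hd : 0 < d)
    (a : ℕ → K) (c : K) (h : c ^ d = ∑ j ∈ Finset.range d, a j * c ^ j) (hc : 1 < v c) :
    ∃ b : ℕ → K, c = ∑ j ∈ Finset.range d, b j ∧ ∀ j < d, v (b j) ≤ v (a j) := by
  have hc0 : c ≠ 0 := by
    rintro rfl
    rw [map_zero] at hc
    linarith
  refine ⟨fun j => a j * (c ^ j / c ^ (d - 1)), ?_, fun j hj => ?_⟩
  · have h1 : c ^ d = c * c ^ (d - 1) := by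
      rw [← pow_succ']
      congr 1
      omega
    have h2 : c * c ^ (d - 1) = (∑ j ∈ Finset.range d, a j * (c ^ j / c ^ (d - 1))) *
        c ^ (d - 1) := by
      rw [← h1, h, Finset.sum_mul]
      refine Finset.sum_congr rfl fun j _ => ?_
      rw [mul_assoc, div_mul_cancel₀ _ (pow_ne_zero _ hc0)]
    exact mul_right_cancel₀ (pow_ne_zero _ hc0) h2
  · show v (a j * (c ^ j / c ^ (d - 1))) ≤ v (a j)
    rw [map_mul, map_div₀, map_pow, map_pow]
    refine mul_le_of_le_one_right (v.nonneg _) ?_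
    rw [div_le_one (pow_pos (by linarith) _)]
    exact pow_le_pow_right₀ hc.le (by omega)

/-- the local estimate for the roots of a monic polynomial -/
private theorem loc_HtLin {K : Type} [Field K] (v : AbsoluteValue K ℝ) {d : ℕ} (hd : 0 < d)
    (a : ℕ → K) (c : K) (h : c ^ d = ∑ j ∈ Finset.range d, a j * c ^ j) :
    max (v c) 1 ≤ d * ∏ j ∈ Finset.range d, max (v (a j)) 1 := by
  have hp := oneLe_HtLin v d a
  have hd1 : (1 : ℝ) ≤ d := by exact_mod_cast hd
  rcases le_or_gt (v c) 1 with h1 | h1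
  · rw [max_eq_right h1]
    nlinarith
  · obtain ⟨b, hb, hb'⟩ := root_HtLin hd a c h h1
    have h2 := Finset.max_abv_sum_one_le v (s := Finset.range d)
      ⟨0, Finset.mem_range.2 hd⟩ b
    rw [← hb, Finset.card_range] at h2
    exact h2.trans (mul_le_mul_of_nonneg_left (monoProd_HtLin v a b hb') (by linarith))

private theorem locNon_HtLin {K : Type} [Field K] {v : AbsoluteValue K ℝ}
    (hv : IsNonarchimedean v) {d : ℕ} (hd : 0 < d)
    (a : ℕ → K) (c : K) (h : c ^ d = ∑ j ∈ Finset.range d, a j * c ^ j) :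
    max (v c) 1 ≤ ∏ j ∈ Finset.range d, max (v (a j)) 1 := by
  have hp := oneLe_HtLin v d a
  rcases le_or_gt (v c) 1 with h1 | h1
  · rw [max_eq_right h1]
    exact hp
  · obtain ⟨b, hb, hb'⟩ := root_HtLin hd a c h h1
    have h2 := Finset.max_abv_sum_one_le_of_isNonarchimedean hv (Finset.range d) b
    rw [← hb] at h2
    exact h2.trans (monoProd_HtLin v a b hb')

open Height AdmissibleAbsValues Finset Multiset in
private theorem monic_HtLin {K : Type} [Field K] [NumberField K] {d : ℕ} (hd : 0 < d)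
    (a : ℕ → K) (c : K) (h : c ^ d = ∑ j ∈ Finset.range d, a j * c ^ j) :
    Height.mulHeight₁ c ≤ (d : ℝ) ^ totalWeight K *
      ∏ j ∈ Finset.range d, Height.mulHeight₁ (a j) := by
  simp only [Height.mulHeight₁_eq, totalWeight]
  rw [prod_mul_distrib, ← prod_replicate, ← map_const, ← finprod_prod_comm _ _ (by fun_prop),
    ← prod_map_prod, ← mul_assoc, ← prod_map_mul]
  simp only [Function.const_apply]
  gcongr
  · exact finprod_nonneg fun _ ↦ by positivity
  · exact prod_map_nonneg fun _ h ↦ by positivity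
  · exact prod_map_le_prod_map₀ _ _ (fun _ _ ↦ by positivity) fun v _ ↦ loc_HtLin v hd a c h
  · exact finprod_le_finprod (by fun_prop) (fun _ ↦ by positivity) (by fun_prop) <|
      fun v ↦ locNon_HtLin (isNonarchimedean _ v.prop) hd a c h

private theorem int_HtLin (x : QQ) : IsIntegral ℚ x :=
  (AlgebraicClosure.isAlgebraic ℚ).isAlgebraic x |>.isIntegral

/-- every finite set of algebraic numbers is contained in a number field -/
private theorem exists_HtLin (T : Finset QQ) : ∃ K : IntermediateField ℚ QQ,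
    FiniteDimensional ℚ K ∧ ∀ x ∈ T, x ∈ K := by
  refine ⟨IntermediateField.adjoin ℚ (T : Set QQ), ?_, fun x hx =>
    IntermediateField.subset_adjoin ℚ _ hx⟩
  exact IntermediateField.finiteDimensional_adjoin fun x _ => int_HtLin x

open IntermediateField in
/-- the absolute height can be computed in every number field -/
private theorem abs_HtLin (K : IntermediateField ℚ QQ) [FiniteDimensional ℚ K]
    [NumberField K] {x : QQ} (hx : x ∈ K) :
    absLogHeight₁ x = Height.logHeight₁ (⟨x, hx⟩ : K) / Module.finrank ℚ K := by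
  have hint : IsIntegral ℚ x := int_HtLin x
  unfold absLogHeight₁ absMulHeight₁
  rw [dif_pos hint]
  have : FiniteDimensional ℚ ℚ⟮x⟯ := adjoin.finiteDimensional hint
  have : NumberField ℚ⟮x⟯ := {}
  have hle : ℚ⟮x⟯ ≤ K := by
    rw [adjoin_simple_le_iff]
    exact hx
  let _ : Algebra ℚ⟮x⟯ K := (inclusion hle).toAlgebra
  have h1 := ext_HtLin (k := ℚ⟮x⟯) (K := K) (AdjoinSimple.gen ℚ x)
  have h2 : algebraMap ℚ⟮x⟯ K (AdjoinSimple.gen ℚ x) = ⟨x, hx⟩ := rfl
  have : IsScalarTower ℚ ℚ⟮x⟯ K := IsScalarTower.of_algebraMap_eq fun q => rfl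
  have : Module.Free ℚ⟮x⟯ K := Module.Free.of_divisionRing _ _
  have : Module.Free ℚ ℚ⟮x⟯ := Module.Free.of_divisionRing _ _
  have h3 : Module.finrank ℚ ℚ⟮x⟯ * Module.finrank ℚ⟮x⟯ K = Module.finrank ℚ K :=
    Module.finrank_mul_finrank _ _ _
  rw [h2] at h1
  have h4 : (0 : ℝ) < Module.finrank ℚ ℚ⟮x⟯ := by
    exact_mod_cast Module.finrank_pos
  have h5 : (0 : ℝ) < Module.finrank ℚ⟮x⟯ K := by
    have : 0 < Module.finrank ℚ K := Module.finrank_pos
    rw [← h3] at this
    exact_mod_cast pos_of_mul_pos_right this (Nat.zero_le _)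
  rw [Height.logHeight₁_eq_log_mulHeight₁, h1, Real.log_pow, ← h3,
    Real.log_rpow (Height.mulHeight₁_pos _)]
  push_cast
  field_simp

private theorem neg_HtLin (x : QQ) : absLogHeight₁ (-x) = absLogHeight₁ x := by
  obtain ⟨K, hK, hx⟩ := exists_HtLin {x}
  have hx1 : x ∈ K := hx x (by simp)
  have : NumberField K := {}
  have h : (⟨-x, K.neg_mem hx1⟩ : K) = -(⟨x, hx1⟩ : K) := rfl
  rw [abs_HtLin K hx1, abs_HtLin K (K.neg_mem hx1), h, Height.logHeight₁_neg]

private theorem aux_HtLin {d : ℕ} (hd : 0 < d) (a : ℕ → QQ) (c : QQ)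
    (h : c ^ d = ∑ j ∈ Finset.range d, a j * c ^ j) :
    absLogHeight₁ c ≤ Real.log d + ∑ j ∈ Finset.range d, absLogHeight₁ (a j) := by
  classical
  obtain ⟨K, hK, hx⟩ := exists_HtLin (insert c ((Finset.range d).image a))
  have hc : c ∈ K := hx c (Finset.mem_insert_self _ _)
  have ha : ∀ j ∈ Finset.range d, a j ∈ K := fun j hj =>
    hx _ (Finset.mem_insert_of_mem (Finset.mem_image_of_mem a hj))
  have : NumberField K := {}
  obtain ⟨b, hb⟩ : ∃ b : ℕ → K, ∀ j (hj : j ∈ Finset.range d), b j = ⟨a j, ha j hj⟩ :=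
    ⟨fun j => if hj : j ∈ Finset.range d then ⟨a j, ha j hj⟩ else 0,
      fun j hj => dif_pos hj⟩
  have hK' : (⟨c, hc⟩ : K) ^ d = ∑ j ∈ Finset.range d, b j * (⟨c, hc⟩ : K) ^ j := by
    apply Subtype.ext
    push_cast
    rw [h]
    refine Finset.sum_congr rfl fun j hj => ?_
    rw [hb j hj]
  have h1 := monic_HtLin hd b ⟨c, hc⟩ hK'
  have hd' : (0 : ℝ) < d := by exact_mod_cast hd
  have h2 := Real.log_le_log (Height.mulHeight₁_pos _) h1
  have hprod : (∏ j ∈ Finset.range d, Height.mulHeight₁ (b j)) ≠ 0 :=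
    Finset.prod_ne_zero_iff.2 fun j _ => Height.mulHeight₁_ne_zero _
  rw [Real.log_mul (pow_ne_zero _ hd'.ne') hprod, Real.log_pow,
    Real.log_prod fun j _ => Height.mulHeight₁_ne_zero _, totalWeight_eq_finrank] at h2
  have h3 : (0 : ℝ) < Module.finrank ℚ K := by
    exact_mod_cast Module.finrank_pos
  have h4 : ∑ j ∈ Finset.range d, absLogHeight₁ (a j) =
      (∑ j ∈ Finset.range d, Real.log (Height.mulHeight₁ (b j))) / Module.finrank ℚ K := by
    rw [Finset.sum_div]
    refine Finset.sum_congr rfl fun j hj => ?_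
    rw [abs_HtLin K (ha j hj), hb j hj, Height.logHeight₁_eq_log_mulHeight₁]
  rw [abs_HtLin K hc, h4, Height.logHeight₁_eq_log_mulHeight₁, div_le_iff₀ h3, add_mul,
    div_mul_cancel₀ _ h3.ne']
  linarith

/-- an explicit bound for the height of a root -/
private theorem rootLe_HtLin (n : ℕ) (B : ℝ) (P : Polynomial QQ) (c : QQ) (hP : P ≠ 0)
    (hdeg : P.natDegree ≤ n) (hco : ∀ j, absLogHeight₁ (P.coeff j) ≤ B) (hev : P.eval c = 0) :
    absLogHeight₁ c ≤ Real.log n + n * (B + B) := by
  have hB : 0 ≤ B := (ht_nonneg _).trans (hco 0)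
  have hd : 0 < P.natDegree := by
    by_contra hcon
    have h0 : P.natDegree = 0 := by omega
    rw [Polynomial.eq_C_of_natDegree_eq_zero h0, Polynomial.eval_C] at hev
    apply hP
    rw [Polynomial.eq_C_of_natDegree_eq_zero h0, hev, Polynomial.C_0]
  have hlc : P.leadingCoeff ≠ 0 := Polynomial.leadingCoeff_ne_zero.2 hP
  have hrel : c ^ P.natDegree = ∑ j ∈ Finset.range P.natDegree,
      (P.coeff j * (-P.leadingCoeff)⁻¹) * c ^ j := by
    rw [Polynomial.eval_eq_sum_range, Finset.sum_range_succ] at hev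
    have h1 : ∑ j ∈ Finset.range P.natDegree, P.coeff j * c ^ j =
        -P.leadingCoeff * c ^ P.natDegree := by
      rw [Polynomial.leadingCoeff]
      linear_combination hev
    have h2 : ∑ j ∈ Finset.range P.natDegree, (P.coeff j * (-P.leadingCoeff)⁻¹) * c ^ j =
        (-P.leadingCoeff)⁻¹ * ∑ j ∈ Finset.range P.natDegree, P.coeff j * c ^ j := by
      rw [Finset.mul_sum]
      exact Finset.sum_congr rfl fun j _ => by ring
    rw [h2, h1, inv_mul_cancel_left₀ (neg_ne_zero.2 hlc)]
  have h1 := aux_HtLin hd _ c hrel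
  have h2 : ∀ j ∈ Finset.range P.natDegree,
      absLogHeight₁ (P.coeff j * (-P.leadingCoeff)⁻¹) ≤ B + B := by
    intro j _
    refine (ht_mul _ _).trans (add_le_add (hco j) ?_)
    rw [ht_inv, neg_HtLin]
    exact hco _
  have h3 := Finset.sum_le_sum h2
  rw [Finset.sum_const, Finset.card_range, nsmul_eq_mul] at h3
  have h4 : (P.natDegree : ℝ) ≤ n := by exact_mod_cast hdeg
  have h5 : (0 : ℝ) < P.natDegree := by exact_mod_cast hd
  have h6 := Real.log_le_log h5 h4
  have h7 : (P.natDegree : ℝ) * (B + B) ≤ n * (B + B) :=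
    mul_le_mul_of_nonneg_right h4 (by linarith)
  linarith

/-- the height of the value of a polynomial is bounded linearly -/
private theorem evalLin_HtLin (P : Polynomial QQ) :
    ∃ C : ℝ, 0 ≤ C ∧ ∀ x : QQ, absLogHeight₁ (P.eval x) ≤ C * (1 + absLogHeight₁ x) := by
  induction P using Polynomial.induction_on' with
  | add p q hp hq =>
    obtain ⟨C₁, h₁, h₁'⟩ := hp
    obtain ⟨C₂, h₂, h₂'⟩ := hq
    have hlog : 0 ≤ Real.log 2 := Real.log_nonneg (by norm_num)
    refine ⟨C₁ + C₂ + Real.log 2, by linarith, fun x => ?_⟩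
    rw [Polynomial.eval_add]
    have h3 := ht_add (p.eval x) (q.eval x)
    have h4 := mul_nonneg hlog (ht_nonneg x)
    have h5 := h₁' x
    have h6 := h₂' x
    linarith
  | monomial n a =>
    have hpow : ∀ (x : QQ) (n : ℕ),
        absLogHeight₁ (x ^ n) ≤ absLogHeight₁ (1 : QQ) + n * absLogHeight₁ x := by
      intro x n
      induction n with
      | zero => simp
      | succ n ih =>
        rw [pow_succ]
        have h3 := ht_mul (x ^ n) x
        push_cast
        linarith
    have h0 := ht_nonneg a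
    have h1 := ht_nonneg (1 : QQ)
    refine ⟨absLogHeight₁ a + absLogHeight₁ (1 : QQ) + n, by positivity, fun x => ?_⟩
    have h2 := ht_nonneg x
    have h3 := ht_mul a (x ^ n)
    have h4 := hpow x n
    have h5 : (0 : ℝ) ≤ n := Nat.cast_nonneg n
    rw [Polynomial.eval_monomial]
    nlinarith [mul_nonneg h0 h2, mul_nonneg h1 h2]

open scoped IntermediateField.algebraAdjoinAdjoin in
open Polynomial in
/-- The relation between two functions. -/
private theorem rel_HtLin {F : Type} [Field F] [Algebra QQ F] (hF : IsCurve QQ F) (f : F) {g : F}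
    (hg : Transcendental QQ g) :
    ∃ P : QQ[X][X], P ≠ 0 ∧ P.eval₂ (aeval g : QQ[X] →ₐ[QQ] F).toRingHom f = 0 := by
  have h1 := fin_adjoin hF hg
  have h2 : Algebra.IsAlgebraic (IntermediateField.adjoin QQ {g}) F := inferInstance
  have h3 : Algebra.IsAlgebraic (Algebra.adjoin QQ {g}) F :=
    (IsFractionRing.comap_isAlgebraic_iff (A := Algebra.adjoin QQ {g})
      (K := IntermediateField.adjoin QQ {g}) (C := F)).2 h2
  obtain ⟨q, hq0, hq⟩ := h3.isAlgebraic f
  set φ : QQ[X] →+* Algebra.adjoin QQ {g} :=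
    (aeval (⟨g, Algebra.self_mem_adjoin_singleton QQ g⟩ : Algebra.adjoin QQ {g})).toRingHom
    with hφ
  have hcomp : (algebraMap (Algebra.adjoin QQ {g}) F).comp φ
      = (aeval g : QQ[X] →ₐ[QQ] F).toRingHom := by
    have h4 : ((Algebra.adjoin QQ {g}).val.comp
        (aeval (⟨g, Algebra.self_mem_adjoin_singleton QQ g⟩ : Algebra.adjoin QQ {g})))
        = (aeval g : QQ[X] →ₐ[QQ] F) := by
      apply Polynomial.algHom_ext
      simp
    rw [← h4]
    rfl
  have hsurj : Function.Surjective φ := by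
    rintro ⟨a, ha⟩
    have ha' := ha
    rw [Algebra.adjoin_singleton_eq_range_aeval] at ha'
    obtain ⟨r, hr⟩ := ha'
    refine ⟨r, Subtype.ext ?_⟩
    have h5 := RingHom.congr_fun hcomp r
    exact h5.trans hr
  obtain ⟨P, hP⟩ := Polynomial.map_surjective φ hsurj q
  refine ⟨P, ?_, ?_⟩
  · rintro rfl
    exact hq0 (by rw [← hP, Polynomial.map_zero])
  · rw [← hcomp, ← Polynomial.eval₂_map, hP]
    exact hq

open Polynomial in
theorem height_linear {F : Type} [Field F] [Algebra QQ F] (hF : IsCurve QQ F) (f : F) {g : F}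
    (hg : Transcendental QQ g) : ∃ C : ℝ, 0 ≤ C ∧ ∀ (p : Place QQ F) (c d : QQ),
      p.At f c → p.At g d →
        NumberField.absLogHeight₁ c ≤ C * (1 + NumberField.absLogHeight₁ d) := by
  classical
  obtain ⟨P, hP0, hP⟩ := rel_HtLin hF f hg
  -- the value is a root
  have hroot : ∀ (p : Place QQ F) (c d : QQ), p.At f c → p.At g d →
      (P.map (Polynomial.evalRingHom d)).eval c = 0 := by
    intro p c d hc hd
    have h1 : p.At (P.eval₂ (aeval g : QQ[X] →ₐ[QQ] F).toRingHom f)
        (∑ i ∈ Finset.range (P.natDegree + 1), (P.coeff i).eval d * c ^ i) := by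
      rw [Polynomial.eval₂_eq_sum_range]
      exact Place.At.sum fun i _ => (hd.aeval (P.coeff i)).mul (hc.pow i)
    rw [hP] at h1
    have h2 : p.At (0 : F) 0 := by simpa using Place.at_const (v := p) (0 : QQ)
    rw [Polynomial.eval_map, Polynomial.eval₂_eq_sum_range]
    exact h1.unique h2
  choose C hC0 hC using fun j => evalLin_HtLin (P.coeff j)
  obtain ⟨B', hB'⟩ : ∃ B' : ℝ, B' = ∑ j ∈ Finset.range (P.natDegree + 2), C j := ⟨_, rfl⟩
  have hB0 : 0 ≤ B' := by
    rw [hB']
    exact Finset.sum_nonneg fun j _ => hC0 j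
  have hCB : ∀ j ∈ Finset.range (P.natDegree + 2), C j ≤ B' := fun j hj => by
    rw [hB']
    exact Finset.single_le_sum (f := C) (fun i _ => hC0 i) hj
  have hco : ∀ (d : QQ), ∀ j,
      absLogHeight₁ ((P.map (Polynomial.evalRingHom d)).coeff j) ≤
        B' * (1 + absLogHeight₁ d) := by
    intro d j
    have hd0 := ht_nonneg d
    rw [Polynomial.coeff_map, Polynomial.coe_evalRingHom]
    by_cases hj : j < P.natDegree + 2
    · exact (hC j d).trans (mul_le_mul_of_nonneg_right (hCB j (Finset.mem_range.2 hj))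
        (by linarith))
    · have h1 : P.coeff j = P.coeff (P.natDegree + 1) := by
        rw [Polynomial.coeff_eq_zero_of_natDegree_lt (by omega),
          Polynomial.coeff_eq_zero_of_natDegree_lt (by omega)]
      rw [h1]
      exact (hC _ d).trans (mul_le_mul_of_nonneg_right (hCB _ (Finset.mem_range.2 (by omega)))
        (by linarith))
  -- the finitely many other values of `g`
  obtain ⟨i₀, hi₀⟩ : ∃ i, P.coeff i ≠ 0 := by
    by_contra h
    rw [not_exists] at h
    exact hP0 (Polynomial.ext fun i => by rw [not_not.1 (h i), Polynomial.coeff_zero])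
  have hfin : (⋃ d ∈ (P.coeff i₀).roots.toFinset, {p : Place QQ F | p.At g d}).Finite :=
    Set.Finite.biUnion (Finset.finite_toSet _) fun d _ => finite_at hF hg d
  obtain ⟨val, hval⟩ : ∃ val : Place QQ F → ℝ, ∀ p, 0 ≤ val p ∧ ∀ c, p.At f c →
      absLogHeight₁ c ≤ val p := by
    refine ⟨fun p => if h : ∃ c, p.At f c then absLogHeight₁ h.choose else 0,
      fun p => ⟨?_, fun c hc => ?_⟩⟩
    · show 0 ≤ if h : ∃ c, p.At f c then absLogHeight₁ h.choose else 0
      split_ifs
      · exact ht_nonneg _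
      · exact le_rfl
    · have h : ∃ c, p.At f c := ⟨c, hc⟩
      have h1 := h.choose_spec.unique hc
      show _ ≤ if h : ∃ c, p.At f c then absLogHeight₁ h.choose else 0
      rw [dif_pos h, h1]
  obtain ⟨S, hS⟩ : ∃ S : ℝ, S = ∑ p ∈ hfin.toFinset, val p := ⟨_, rfl⟩
  have hS0 : 0 ≤ S := by
    rw [hS]
    exact Finset.sum_nonneg fun q _ => (hval q).1
  have hn0 : (0 : ℝ) ≤ P.natDegree := Nat.cast_nonneg _
  have hlog0 : 0 ≤ |Real.log P.natDegree| := abs_nonneg _
  have hnB : 0 ≤ (P.natDegree : ℝ) * (B' + B') := mul_nonneg hn0 (by linarith)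
  refine ⟨S + |Real.log P.natDegree| + P.natDegree * (B' + B'), by linarith,
    fun p c d hc hd => ?_⟩
  have hd0 := ht_nonneg d
  by_cases h0 : P.map (Polynomial.evalRingHom d) = 0
  · have h1 : (P.coeff i₀).eval d = 0 := by
      have h2 := congrArg (fun Q => Q.coeff i₀) h0
      simpa [Polynomial.coeff_map] using h2
    have h2 : p ∈ hfin.toFinset := by
      rw [Set.Finite.mem_toFinset]
      refine Set.mem_biUnion (x := d) ?_ hd
      simp [hi₀, h1]
    have h3 : absLogHeight₁ c ≤ S := by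
      refine ((hval p).2 c hc).trans ?_
      rw [hS]
      exact Finset.single_le_sum (f := val) (fun q _ => (hval q).1) h2
    nlinarith [mul_nonneg hS0 hd0, mul_nonneg hlog0 hd0, mul_nonneg hnB hd0]
  · have h1 := rootLe_HtLin P.natDegree (B' * (1 + absLogHeight₁ d)) _ c h0
      Polynomial.natDegree_map_le (hco d) (hroot p c d hc hd)
    have h2 := le_abs_self (Real.log P.natDegree)
    nlinarith [mul_nonneg hS0 hd0, mul_nonneg hlog0 hd0, mul_nonneg hnB hd0]

end Pool.Agent.Clo
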