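import Pool.Agent.Clo.Form
import Pool.Agent.Dess.Final
import Pool.Agent.Dess.Crit
import Pool.Agent.Dess4.Deg
import Pool.Agent.Dess.Func

/-!
# The cycle of a fibre

For a finite set `s` of points of the curve let `zt s = |s| ∑ (x, x) - ∑ (x, y)` (sums over
`x ∈ s` and `x, y ∈ s`). For the fibre `s` of the function `φ` over a value `t` which is not
critical, `zt s` is rationally equivalent to `n1 n2 (p - q) × (p - q)`, where `φ` has poles of
orders
`n1` and `n2` at `p` and `q`.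

PROOFS. Let `ψ = φ - t`. `ψ ≠ 0` since `φ` is transcendental. `HasOrd x ψ 1` for `x ∈ s`
(uniformizer
`ψ` itself, by `hs` and `hun`), `HasOrd p ψ (-n1)`, `HasOrd q ψ (-n2)`: for a uniformizer `π` and a
unit `φ / π ^ (-n1)`, `ψ / π ^ (-n1) = (φ / π ^ (-n1)) (1 - t / φ)` and `t / φ` vanishes at `p`.
For the
other places `v`: `φ ∈ v.ring` has a value `c ≠ t` (`exists_at` of `Pool/Agent/Dess/Dede.lean`), so
`ψ` is a unit, `HasOrd v ψ 0` (with any uniformizer, `exists_unif`).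

`fib_div`: this is a generator `DivOf` of `RatEq`, with the curve `F`, the morphism
`v ↦ fun _ => v` (component `AlgHom.id`) and the finset `insert p (insert q s)`.
`fib_card`: `degree_zero` (file `Pool/Agent/Dess4/Deg.lean`), or `sum` of `fib_div`.

`zt_ratEq`: let `R = RatEq (fun _ : Bool => F)` and `[x, y] = single (pair x y) 1`. The
push-forwards (`map_mem`) of `fib_div` under the maps `v ↦ pair (v ()) (v ())`,
`v ↦ pair (v ()) y`, `v ↦ pair y (v ())` (all `IsMor`) give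
`∑ x ∈ s, [x, x] - n1 [p, p] - n2 [q, q] ∈ R`, `∑ x ∈ s, [x, y] - n1 [p, y] - n2 [q, y] ∈ R`, and
`∑ x ∈ s, [y, x] - n1 [y, p] - n2 [y, q] ∈ R` for all `y`. So
`∑ x, ∑ y, [x, y] = ∑ x, (n1 [x, p] + n2 [x, q])` modulo `R`, which is
`n1 (n1 [p, p] + n2 [q, p]) + n2 (n1 [p, q] + n2 [q, q])` modulo `R`. With `|s| = n1 + n2` one gets
`zt s = n1 n2 ([p, p] + [q, q] - [p, q] - [q, p])` modulo `R`, and this is `n1 n2 • square p q`.
(It is convenient to work in the quotient by `R`, with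
`QuotientAddGroup.eq_zero_iff`, and `module` or `abel`.)
-/

set_option autoImplicit false

noncomputable section

namespace Pool.Agent.Clo

open Pool.Agent.ZCyc Pool.Agent.Dess
open scoped Classical

section ZT

variable {F : Type} [Field F] [Algebra QQ F]

/-- the cycle of a finite set of points -/
def zt (s : Finset (Place QQ F)) : (Bool → Place QQ F) →₀ ℤ :=
  (s.card : ℤ) • (∑ x ∈ s, Finsupp.single (pair (L := fun _ => F) x x) (1 : ℤ)) -
    ∑ x ∈ s, ∑ y ∈ s, Finsupp.single (pair (L := fun _ => F) x y) (1 : ℤ)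

/-- `s` is the fibre of the function `φ` over `t`, which is not a critical value, and the poles of
`φ` are `p` and `q`, of orders `n1` and `n2` -/
structure IsFibre (φ : F) (p q : Place QQ F) (n1 n2 : ℕ) (t : QQ) (s : Finset (Place QQ F)) :
    Prop where
  curve : IsCurve QQ F
  transc : Transcendental QQ φ
  ne : p ≠ q
  pole_p : HasOrd p φ (-(n1 : ℤ))
  pole_q : HasOrd q φ (-(n2 : ℤ))
  n1_pos : 0 < n1
  n2_pos : 0 < n2
  reg : ∀ v : Place QQ F, v ≠ p → v ≠ q → φ ∈ v.ring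
  mem : ∀ v, v ∈ s ↔ v.At φ t
  unif : ∀ v : Place QQ F, v.At φ t → IsUnif v (φ - algebraMap QQ F t)

variable {φ : F} {p q : Place QQ F} {n1 n2 : ℕ} {t : QQ} {s : Finset (Place QQ F)}

omit [Algebra QQ F] in
private lemma divz_ZT (x π : F) (n : ℕ) : x / π ^ (-(n : ℤ)) = x * π ^ n := by
  rw [zpow_neg, zpow_natCast, div_inv_eq_mul]

private lemma ord_sub_ZT {v : Place QQ F} {g : F} (hg : g ≠ 0) {n : ℕ} (hn : 0 < n)
    (h : HasOrd v g (-(n : ℤ))) (c : QQ) : HasOrd v (g - algebraMap QQ F c) (-(n : ℤ)) := by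
  obtain ⟨π, hπ, h1, h2⟩ := h
  rw [divz_ZT] at h1 h2
  have hv : v.Vanishes (algebraMap QQ F c * π ^ n) :=
    (hπ.2.1.pow v hn.ne').mul' v (v.const_mem c)
  refine ⟨π, hπ, ?_, ?_⟩
  · rw [divz_ZT, sub_mul]
    exact sub_mem h1 hv.mem
  · rw [divz_ZT]
    by_contra hcon
    have h3 : v.Vanishes ((g - algebraMap QQ F c) * π ^ n) :=
      (v.vanishes_iff_or _).2 (Or.inr hcon)
    have h4 : v.Vanishes (g * π ^ n) := by
      have := h3.add v hv
      rwa [← add_mul, sub_add_cancel] at this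
    rcases (v.vanishes_iff_or _).1 h4 with h5 | h5
    · exact mul_ne_zero hg (pow_ne_zero n hπ.1) h5
    · exact h5 h2

private lemma pole_ZT {v : Place QQ F} {g : F} (hg : g ≠ 0) {n : ℕ} (hn : 0 < n)
    (h : HasOrd v g (-(n : ℤ))) : g ∉ v.ring := by
  obtain ⟨π, hπ, h1, h2⟩ := h
  rw [divz_ZT] at h1 h2
  intro h3
  have h4 : v.Vanishes (g * π ^ n) := (hπ.2.1.pow v hn.ne').mul' v h3
  rcases (v.vanishes_iff_or _).1 h4 with h5 | h5
  · exact mul_ne_zero hg (pow_ne_zero n hπ.1) h5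
  · exact h5 h2

private lemma IsFibre.ne_zero_ZT (h : IsFibre φ p q n1 n2 t s) : φ ≠ 0 := by
  rintro rfl
  exact h.transc isAlgebraic_zero

private lemma IsFibre.p_notMem_ZT (h : IsFibre φ p q n1 n2 t s) : p ∉ s := fun hp =>
  pole_ZT h.ne_zero_ZT h.n1_pos h.pole_p ((h.mem p).1 hp).mem

private lemma IsFibre.q_notMem_ZT (h : IsFibre φ p q n1 n2 t s) : q ∉ s := fun hq =>
  pole_ZT h.ne_zero_ZT h.n2_pos h.pole_q ((h.mem q).1 hq).mem

/-- the orders -/
private def ordf_ZT (p q : Place QQ F) (n1 n2 : ℕ) (v : Place QQ F) : ℤ :=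
  if v = p then -(n1 : ℤ) else if v = q then -(n2 : ℤ) else 1

private lemma ordf_p_ZT : ordf_ZT p q n1 n2 p = -(n1 : ℤ) := if_pos rfl

private lemma ordf_q_ZT (h : p ≠ q) : ordf_ZT p q n1 n2 q = -(n2 : ℤ) := by
  unfold ordf_ZT
  rw [if_neg h.symm, if_pos rfl]

private lemma IsFibre.ordf_s_ZT (h : IsFibre φ p q n1 n2 t s) {v : Place QQ F} (hv : v ∈ s) :
    ordf_ZT p q n1 n2 v = 1 := by
  unfold ordf_ZT
  rw [if_neg, if_neg]
  · rintro rfl
    exact h.q_notMem_ZT hv
  · rintro rfl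
    exact h.p_notMem_ZT hv

private lemma IsFibre.psi_ne_ZT (h : IsFibre φ p q n1 n2 t s) : φ - algebraMap QQ F t ≠ 0 := by
  intro h0
  apply h.transc
  rw [sub_eq_zero.1 h0]
  exact isAlgebraic_algebraMap t

private lemma IsFibre.ord1_ZT (h : IsFibre φ p q n1 n2 t s) :
    ∀ v ∈ insert p (insert q s),
      HasOrd v (φ - algebraMap QQ F t) (ordf_ZT p q n1 n2 v) := by
  intro v hv
  rcases Finset.mem_insert.1 hv with rfl | hv
  · rw [ordf_p_ZT]
    exact ord_sub_ZT h.ne_zero_ZT h.n1_pos h.pole_p t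
  rcases Finset.mem_insert.1 hv with rfl | hv
  · rw [ordf_q_ZT h.ne]
    exact ord_sub_ZT h.ne_zero_ZT h.n2_pos h.pole_q t
  · rw [h.ordf_s_ZT hv]
    refine ⟨φ - algebraMap QQ F t, h.unif v ((h.mem v).1 hv), ?_, ?_⟩
    · rw [zpow_one, div_self h.psi_ne_ZT]
      exact one_mem _
    · rw [zpow_one, div_self h.psi_ne_ZT, inv_one]
      exact one_mem _

private lemma IsFibre.ord0_ZT (h : IsFibre φ p q n1 n2 t s) :
    ∀ v ∉ insert p (insert q s), HasOrd v (φ - algebraMap QQ F t) 0 := by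
  intro v hv
  rw [Finset.mem_insert, Finset.mem_insert, not_or, not_or] at hv
  obtain ⟨π, hπ⟩ := exists_unif h.curve v
  refine ⟨π, hπ, ?_, ?_⟩
  · rw [zpow_zero, div_one]
    exact sub_mem (h.reg v hv.1 hv.2.1) (v.const_mem t)
  · rw [zpow_zero, div_one]
    by_contra hcon
    have h3 : v.Vanishes (φ - algebraMap QQ F t) := (v.vanishes_iff_or _).2 (Or.inr hcon)
    exact hv.2.2 ((h.mem v).2 h3)

theorem IsFibre.div (h : IsFibre φ p q n1 n2 t s) :
    (∑ x ∈ s, Finsupp.single (fun _ : Unit => x) (1 : ℤ)) -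
      Finsupp.single (fun _ : Unit => p) (n1 : ℤ) - Finsupp.single (fun _ : Unit => q) (n2 : ℤ) ∈
        RatEq (fun _ : Unit => F) := by
  apply AddSubgroup.subset_closure
  refine ⟨F, inferInstance, inferInstance, fun v _ => v, φ - algebraMap QQ F t,
    insert p (insert q s), ordf_ZT p q n1 n2, h.curve, ?_, h.psi_ne_ZT, h.ord1_ZT, h.ord0_ZT, ?_⟩
  · intro i
    right
    refine ⟨AlgHom.id QQ F, fun v => ?_⟩
    ext x
    exact Iff.rfl
  · have hp : p ∉ insert q s := by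
      rw [Finset.mem_insert, not_or]
      exact ⟨h.ne, h.p_notMem_ZT⟩
    have hsum : ∑ v ∈ s, Finsupp.single (fun _ : Unit => v) (ordf_ZT p q n1 n2 v) =
        ∑ v ∈ s, Finsupp.single (fun _ : Unit => v) (1 : ℤ) :=
      Finset.sum_congr rfl fun v hv => by rw [h.ordf_s_ZT hv]
    rw [Finset.sum_insert hp, Finset.sum_insert h.q_notMem_ZT, ordf_p_ZT, ordf_q_ZT h.ne,
      hsum, Finsupp.single_neg, Finsupp.single_neg]
    abel

theorem IsFibre.card (h : IsFibre φ p q n1 n2 t s) : s.card = n1 + n2 := by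
  have h1 := Pool.Agent.Dess4.degree_zero h.curve h.psi_ne_ZT (insert p (insert q s))
    (ordf_ZT p q n1 n2) h.ord1_ZT h.ord0_ZT
  have hp : p ∉ insert q s := by
    rw [Finset.mem_insert, not_or]
    exact ⟨h.ne, h.p_notMem_ZT⟩
  rw [Finset.sum_insert hp, Finset.sum_insert h.q_notMem_ZT, ordf_p_ZT, ordf_q_ZT h.ne,
    Finset.sum_congr rfl fun v hv => h.ordf_s_ZT hv, Finset.sum_const, nsmul_eq_mul,
    mul_one] at h1
  omega

/-- the class of a cycle -/
private def cl_ZT (F : Type) [Field F] [Algebra QQ F] :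
    ((Bool → Place QQ F) →₀ ℤ) →+ ((Bool → Place QQ F) →₀ ℤ) ⧸ RatEq (fun _ : Bool => F) :=
  QuotientAddGroup.mk' _

private lemma cl_eq_zero_ZT {z : (Bool → Place QQ F) →₀ ℤ} :
    cl_ZT F z = 0 ↔ z ∈ RatEq (fun _ : Bool => F) :=
  QuotientAddGroup.eq_zero_iff _

private lemma cl_single_ZT (a : Bool → Place QQ F) (n : ℕ) :
    cl_ZT F (Finsupp.single a (n : ℤ)) = n • cl_ZT F (Finsupp.single a 1) := by
  rw [← map_nsmul]
  congr 1
  rw [Finsupp.smul_single]
  simp

private lemma IsFibre.push_ZT (h : IsFibre φ p q n1 n2 t s)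
    (Φ : (Unit → Place QQ F) → Bool → Place QQ F)
    (hΦ : IsMor (L := fun _ : Unit => F) (L' := fun _ : Bool => F) Φ) :
    ∑ x ∈ s, cl_ZT F (Finsupp.single (Φ fun _ => x) 1) =
      n1 • cl_ZT F (Finsupp.single (Φ fun _ => p) 1) +
        n2 • cl_ZT F (Finsupp.single (Φ fun _ => q) 1) := by
  have h1 := map_mem (L := fun _ : Unit => F) (L' := fun _ : Bool => F) Φ hΦ h.div
  rw [← cl_eq_zero_ZT] at h1
  have h2 : ((∑ x ∈ s, Finsupp.single (fun _ : Unit => x) (1 : ℤ)) -
      Finsupp.single (fun _ : Unit => p) (n1 : ℤ) -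
        Finsupp.single (fun _ : Unit => q) (n2 : ℤ)).mapDomain Φ =
      (∑ x ∈ s, Finsupp.single (Φ fun _ => x) (1 : ℤ)) -
        Finsupp.single (Φ fun _ => p) (n1 : ℤ) - Finsupp.single (Φ fun _ => q) (n2 : ℤ) := by
    have e : ∀ z : (Unit → Place QQ F) →₀ ℤ, z.mapDomain Φ = Finsupp.mapDomain.addMonoidHom Φ z :=
      fun _ => rfl
    rw [e, map_sub, map_sub, map_sum, ← e, ← e, Finsupp.mapDomain_single,
      Finsupp.mapDomain_single]
    congr 2
    exact Finset.sum_congr rfl fun x _ => by rw [← e, Finsupp.mapDomain_single]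
  rw [h2, map_sub, map_sub, map_sum, cl_single_ZT, cl_single_ZT, sub_sub, sub_eq_zero] at h1
  exact h1

theorem IsFibre.zt_ratEq (h : IsFibre φ p q n1 n2 t s) :
    zt s - (n1 * n2) • square p q ∈ RatEq (fun _ : Bool => F) := by
  have hD := h.push_ZT (fun v => pair (L := fun _ => F) (v ()) (v ())) (by
    intro j
    right
    refine ⟨(), AlgHom.id QQ F, fun a => ?_⟩
    cases j <;> (ext x; exact Iff.rfl))
  have hA := fun y : Place QQ F =>
    h.push_ZT (fun v => pair (L := fun _ => F) (v ()) y) (by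
      intro j
      cases j
      · right
        refine ⟨(), AlgHom.id QQ F, fun a => ?_⟩
        ext x
        exact Iff.rfl
      · exact Or.inl ⟨y, fun _ => rfl⟩)
  have hB := fun y : Place QQ F =>
    h.push_ZT (fun v => pair (L := fun _ => F) y (v ())) (by
      intro j
      cases j
      · exact Or.inl ⟨y, fun _ => rfl⟩
      · right
        refine ⟨(), AlgHom.id QQ F, fun a => ?_⟩
        ext x
        exact Iff.rfl)
  have hc : (s.card : ℤ) = n1 + n2 := by
    exact_mod_cast h.card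
  rw [← cl_eq_zero_ZT, map_sub, map_nsmul]
  unfold zt square sym
  rw [map_sub, map_zsmul, map_sum, map_add, map_sub, map_sub, map_sum]
  have e1 : ∑ x ∈ s, cl_ZT F (∑ y ∈ s, Finsupp.single (pair (L := fun _ => F) x y) (1 : ℤ)) =
      n1 • (n1 • cl_ZT F (Finsupp.single (pair (L := fun _ => F) p p) 1) +
        n2 • cl_ZT F (Finsupp.single (pair (L := fun _ => F) q p) 1)) +
      n2 • (n1 • cl_ZT F (Finsupp.single (pair (L := fun _ => F) p q) 1) +
        n2 • cl_ZT F (Finsupp.single (pair (L := fun _ => F) q q) 1)) := by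
    have e2 : ∀ x ∈ s, cl_ZT F (∑ y ∈ s, Finsupp.single (pair (L := fun _ => F) x y) (1 : ℤ)) =
        n1 • cl_ZT F (Finsupp.single (pair (L := fun _ => F) x p) 1) +
          n2 • cl_ZT F (Finsupp.single (pair (L := fun _ => F) x q) 1) := by
      intro x _
      rw [map_sum]
      exact hB x
    rw [Finset.sum_congr rfl e2, Finset.sum_add_distrib, ← Finset.smul_sum, ← Finset.smul_sum]
    rw [hA p, hA q]
  rw [e1, hD, hc]
  module

end ZT

end Pool.Agent.Clo
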