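import Pool.Agent.Clo.Act
import Pool.Agent.Clo.Cmp
import Pool.Agent.Clo.Pull
import Pool.Agent.Clo.ZT
import Pool.Agent.Dess.Ext
import Pool.Agent.Dess4.Local

/-!
# Independent conjugation of the coordinates: definitions and basic properties
-/

set_option autoImplicit false

noncomputable section

namespace Pool.Agent.Clo

open Pool.Agent.ZCyc Pool.Agent.Dess
open scoped Classical

section Curve

variable {F : Type} [Field F] [Algebra QQ F]

/-- The points `p` and `p'` of the curve are conjugate over the number field given by `S`: there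
is an automorphism of the function field which fixes the functions in `S`, acts on the constants by
an automorphism of the field of algebraic numbers, and maps `p` to `p'`. -/
def Conj (S : Finset F) (p p' : Place QQ F) : Prop :=
  ∃ (ρ : Gam) (r : F ≃+* F), Fixes S ρ r ∧ Moves r p p'

theorem conj_refl (S : Finset F) (p : Place QQ F) : Conj S p p := by
  refine ⟨AlgEquiv.refl, RingEquiv.refl F, ⟨fun _ _ => rfl, fun _ => rfl⟩, ?_⟩
  rw [moves_iff]
  intro f
  rfl

theorem fixes_symm {S : Finset F} {ρ : Gam} {r : F ≃+* F} (h : Fixes S ρ r) :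
    Fixes S ρ.symm r.symm := by
  refine ⟨fun s hs => ?_, fun c => ?_⟩
  · rw [RingEquiv.symm_apply_eq, h.1 s hs]
  · rw [RingEquiv.symm_apply_eq, h.2, AlgEquiv.apply_symm_apply]

theorem moves_symm {r : F ≃+* F} {p p' : Place QQ F} (h : Moves r p p') :
    Moves r.symm p' p := by
  rw [moves_iff] at h ⊢
  intro f
  rw [← h, RingEquiv.apply_symm_apply]

theorem conj_symm {S : Finset F} {p p' : Place QQ F} (h : Conj S p p') : Conj S p' p := by
  obtain ⟨ρ, r, h1, h2⟩ := h
  exact ⟨ρ.symm, r.symm, fixes_symm h1, moves_symm h2⟩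

theorem conj_trans {S : Finset F} {p p' p'' : Place QQ F} (h : Conj S p p')
    (h' : Conj S p' p'') : Conj S p p'' := by
  obtain ⟨ρ, r, h1, h2⟩ := h
  obtain ⟨ρ', r', h1', h2'⟩ := h'
  exact ⟨ρ.trans ρ', r.trans r', fixes_trans h1 h1', moves_trans h2 h2'⟩

theorem conj_mono {S S' : Finset F} (hS : S ⊆ S') {p p' : Place QQ F} (h : Conj S' p p') :
    Conj S p p' := by
  obtain ⟨ρ, r, h1, h2⟩ := h
  exact ⟨ρ, r, fixes_mono hS h1, h2⟩

end Curve

section Pull

variable {L F : Type} [Field L] [Algebra QQ L] [Field F] [Algebra QQ F]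

/-- a morphism maps conjugate points to conjugate points -/
theorem conj_pull (hL : IsCurve QQ L) (f : L →ₐ[QQ] F)
    (g : Place QQ F → Place QQ L) (hg : ∀ v, (g v).ring = v.ring.comap (f : L →+* F))
    (S : Finset L) : ∃ S' : Finset F, ∀ v v', Conj S' v v' → Conj S (g v) (g v') := by
  have hinj : Function.Injective f := (f : L →+* F).injective
  have hmem : ∀ (v : Place QQ F) (x : L), x ∈ (g v).ring ↔ f x ∈ v.ring := by
    intro v x
    rw [hg, ValuationSubring.mem_comap]
    rfl
  obtain ⟨S₁, hS₁⟩ := exists_gens hL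
  refine ⟨(S ∪ S₁).image f, ?_⟩
  have key : ∀ (ρ : Gam) (r : F ≃+* F), (∀ s ∈ S₁, r (f s) = f s) →
      (∀ c : QQ, r (algebraMap QQ F c) = algebraMap QQ F (ρ c)) →
      ∀ x : L, ∃ y : L, f y = r (f x) := by
    intro ρ r h1 h2 x
    have hx : x ∈ IntermediateField.adjoin QQ (S₁ : Set L) := by
      rw [hS₁]
      exact IntermediateField.mem_top
    refine IntermediateField.adjoin_induction (F := QQ) (s := (S₁ : Set L))
      (p := fun x _ => ∃ y : L, f y = r (f x)) ?_ ?_ ?_ ?_ ?_ hx
    · intro x hx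
      exact ⟨x, (h1 x hx).symm⟩
    · intro c
      refine ⟨algebraMap QQ L (ρ c), ?_⟩
      rw [AlgHom.commutes, AlgHom.commutes, h2]
    · rintro x y _ _ ⟨x', hx'⟩ ⟨y', hy'⟩
      exact ⟨x' + y', by rw [map_add, map_add, map_add, hx', hy']⟩
    · rintro x _ ⟨x', hx'⟩
      exact ⟨x'⁻¹, by rw [map_inv₀, map_inv₀, map_inv₀, hx']⟩
    · rintro x y _ _ ⟨x', hx'⟩ ⟨y', hy'⟩
      exact ⟨x' * y', by rw [map_mul, map_mul, map_mul, hx', hy']⟩
  rintro v v' ⟨ρ, r, hr, hm⟩
  have hfix : ∀ s ∈ S ∪ S₁, r (f s) = f s := fun s hs => hr.1 _ (Finset.mem_image_of_mem _ hs)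
  have k1 := key ρ r (fun s hs => hfix s (Finset.mem_union_right _ hs)) hr.2
  have k2 := key ρ.symm r.symm
    (fun s hs => by
      rw [RingEquiv.symm_apply_eq]
      exact (hfix s (Finset.mem_union_right _ hs)).symm)
    (fun c => by
      rw [RingEquiv.symm_apply_eq, hr.2, AlgEquiv.apply_symm_apply])
  choose r₀ hr₀ using k1
  choose s₀ hs₀ using k2
  obtain ⟨e, he⟩ : ∃ e : L ≃+* L, ∀ x, f (e x) = r (f x) :=
    ⟨{ toFun := r₀
       invFun := s₀
       left_inv := fun x => hinj (by rw [hs₀, hr₀, RingEquiv.symm_apply_apply])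
       right_inv := fun x => hinj (by rw [hr₀, hs₀, RingEquiv.apply_symm_apply])
       map_mul' := fun x y => hinj (by rw [hr₀, map_mul, map_mul, map_mul, hr₀, hr₀])
       map_add' := fun x y => hinj (by rw [hr₀, map_add, map_add, map_add, hr₀, hr₀]) },
      hr₀⟩
  refine ⟨ρ, e, ⟨?_, ?_⟩, ?_⟩
  · intro s hs
    apply hinj
    rw [he]
    exact hfix s (Finset.mem_union_left _ hs)
  · intro c
    apply hinj
    rw [he, AlgHom.commutes, AlgHom.commutes, hr.2]
  · rw [moves_iff]
    intro x
    rw [hmem, hmem, he]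
    exact moves_iff.1 hm (f x)

end Pull

section Product

variable {ι : Type} {L : ι → Type} [∀ i, Field (L i)] [∀ i, Algebra QQ (L i)]

/-- The group of the zero-cycles on the product of the curves which become zero if the coordinates
of the points may be replaced, independently of each other, by conjugate points over the number
field given by the sets `S i`. It is generated by the differences `x' - x` of points such that
`x i` and `x' i` are conjugate for all `i`. -/
def Invis (S : ∀ i, Finset (L i)) : AddSubgroup ((∀ i, Place QQ (L i)) →₀ ℤ) :=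
  AddSubgroup.closure {z | ∃ x x' : ∀ i, Place QQ (L i), (∀ i, Conj (S i) (x i) (x' i)) ∧
    z = Finsupp.single x' 1 - Finsupp.single x 1}

theorem invis_single {S : ∀ i, Finset (L i)} {x x' : ∀ i, Place QQ (L i)}
    (h : ∀ i, Conj (S i) (x i) (x' i)) :
    Finsupp.single x' 1 - Finsupp.single x 1 ∈ Invis S :=
  AddSubgroup.subset_closure ⟨x, x', h, rfl⟩

theorem invis_mono {S S' : ∀ i, Finset (L i)} (hS : ∀ i, S i ⊆ S' i) :
    Invis S' ≤ Invis S := by
  refine AddSubgroup.closure_mono ?_
  rintro z ⟨x, x', h, rfl⟩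
  exact ⟨x, x', fun i => conj_mono (hS i) (h i), rfl⟩

/-- an invisible cycle is orthogonal to all functions which are invariant in every coordinate -/
theorem invis_sum {S : ∀ i, Finset (L i)} {w : (∀ i, Place QQ (L i)) →₀ ℤ} (hw : w ∈ Invis S)
    {R : Type} [AddCommGroup R] {ψ : (∀ i, Place QQ (L i)) → R}
    (hψ : ∀ x x' : ∀ i, Place QQ (L i), (∀ i, Conj (S i) (x i) (x' i)) → ψ x' = ψ x) :
    (w.sum fun x n => n • ψ x) = 0 := by
  unfold Invis at hw
  induction hw using AddSubgroup.closure_induction with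
  | mem z hz =>
    obtain ⟨x, x', h, rfl⟩ := hz
    rw [Finsupp.sum_sub_index (fun a b c => sub_smul b c (ψ a)),
      Finsupp.sum_single_index (h := fun x n => n • ψ x) (zero_smul ℤ (ψ x')),
      Finsupp.sum_single_index (h := fun x n => n • ψ x) (zero_smul ℤ (ψ x)),
      one_smul, one_smul, hψ x x' h, sub_self]
  | zero => exact Finsupp.sum_zero_index
  | add u v _ _ hu hv =>
    rw [Finsupp.sum_add_index' (h := fun x n => n • ψ x) (fun a => zero_smul ℤ (ψ a))
      (fun a b c => add_smul b c (ψ a)), hu, hv, add_zero]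
  | neg u _ hu =>
    rw [Finsupp.sum_neg_index (h := fun x n => n • ψ x) (fun a => zero_smul ℤ (ψ a))]
    simp only [neg_smul]
    rw [Finsupp.sum_neg, hu, neg_zero]

/-- a morphism maps invisible cycles to invisible cycles -/
theorem invis_map {F : Type} [Field F] [Algebra QQ F] (hL : ∀ i, IsCurve QQ (L i))
    [Finite ι] {Φ : (Bool → Place QQ F) → ∀ i, Place QQ (L i)}
    (hΦ : IsMor (L := fun _ : Bool => F) Φ) (S : ∀ i, Finset (L i)) :
    ∃ S' : Finset F, ∀ w, w ∈ Invis (L := fun _ : Bool => F) (fun _ => S') →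
      w.mapDomain Φ ∈ Invis S := by
  cases nonempty_fintype ι
  have key : ∀ i, ∃ S' : Finset F, ∀ x x' : Bool → Place QQ F, (∀ c, Conj S' (x c) (x' c)) →
      Conj (S i) (Φ x i) (Φ x' i) := by
    intro i
    rcases hΦ i with ⟨p, hp⟩ | ⟨c, f, hf⟩
    · refine ⟨∅, fun x x' _ => ?_⟩
      rw [hp, hp]
      exact conj_refl _ _
    · obtain ⟨g, hgdef⟩ : ∃ g : Place QQ F → Place QQ (L i), g = fun v => Φ (fun _ => v) i :=
        ⟨_, rfl⟩
      have hg : ∀ v, (g v).ring = v.ring.comap (f : L i →+* F) := by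
        intro v
        rw [hgdef]
        exact hf (fun _ => v)
      have hgx : ∀ x, Φ x i = g (x c) := fun x => Place.ext ((hf x).trans (hg (x c)).symm)
      obtain ⟨S', hS'⟩ := conj_pull (hL i) f g hg (S i)
      refine ⟨S', fun x x' h => ?_⟩
      rw [hgx, hgx]
      exact hS' _ _ (h c)
  choose S' hS' using key
  refine ⟨Finset.univ.biUnion S', fun w hw => ?_⟩
  have h1 : (Invis (L := fun _ : Bool => F) (fun _ => Finset.univ.biUnion S')) ≤
      (Invis S).comap (Finsupp.mapDomain.addMonoidHom (M := ℤ) Φ) := by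
    unfold Invis
    rw [AddSubgroup.closure_le]
    rintro z ⟨x, x', h, rfl⟩
    show Finsupp.mapDomain.addMonoidHom (M := ℤ) Φ _ ∈ Invis S
    rw [map_sub]
    show Finsupp.mapDomain Φ (Finsupp.single x' 1) - Finsupp.mapDomain Φ (Finsupp.single x 1) ∈ _
    rw [Finsupp.mapDomain_single, Finsupp.mapDomain_single]
    refine invis_single fun i => hS' i x x' fun c => conj_mono ?_ (h c)
    exact Finset.subset_biUnion_of_mem S' (Finset.mem_univ i)
  exact h1 hw

end Product

end Pool.Agent.Clo
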