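import Pool.Agent.Clo.Inv1
import Pool.Agent.Clo.Sq
import Pool.Agent.Dess.Final

/-!
# Cycles which are invisible over every number field, with bounds
-/

set_option autoImplicit false

noncomputable section

namespace Pool.Agent.Clo

open Pool.Agent.ZCyc Pool.Agent.Dess
open scoped Classical

section Defs

variable {ι : Type} {L : ι → Type} [∀ i, Field (L i)] [∀ i, Algebra QQ (L i)]

/-- The zero-cycle `w` has at most `N` points, counted with multiplicity, and the height of the
value of the function `f` on the curve `i` at the coordinate `x i` of a point of `w` is at most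
`B i f`, for all functions `f`. -/
def Bdd (N : ℕ) (B : ∀ i, L i → ℝ) (w : (∀ i, Place QQ (L i)) →₀ ℤ) : Prop :=
  (w.sum fun _ n => n.natAbs) ≤ N ∧ ∀ x ∈ w.support, ∀ (i : ι) (f : L i) (c : QQ),
    (x i).At f c → NumberField.absLogHeight₁ c ≤ B i f

/-- there is a multiple which is equivalent to cycles, invisible over every number field, with
bounds -/
def IsInvis (z : (∀ i, Place QQ (L i)) →₀ ℤ) : Prop :=
  ∃ (m N : ℕ) (B : ∀ i, L i → ℝ), 0 < m ∧ ∀ S : ∀ i, Finset (L i),
    ∃ w : (∀ i, Place QQ (L i)) →₀ ℤ, w ∈ Invis S ∧ w - m • z ∈ RatEq L ∧ Bdd N B w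

theorem bdd_zero (N : ℕ) (B : ∀ i, L i → ℝ) : Bdd (L := L) N B 0 := by
  refine ⟨?_, ?_⟩
  · rw [Finsupp.sum_zero_index]
    exact Nat.zero_le _
  · intro x hx
    simp at hx

theorem natAbs_sum_add (u v : (∀ i, Place QQ (L i)) →₀ ℤ) :
    ((u + v).sum fun _ n => n.natAbs) ≤
      (u.sum fun _ n => n.natAbs) + v.sum fun _ n => n.natAbs := by
  have h1 : ∀ w : (∀ i, Place QQ (L i)) →₀ ℤ, w.support ⊆ u.support ∪ v.support →
      (w.sum fun _ n => n.natAbs) = ∑ x ∈ u.support ∪ v.support, (w x).natAbs := by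
    intro w hw
    exact Finsupp.sum_of_support_subset _ hw _ fun _ _ => rfl
  rw [h1 _ Finsupp.support_add, h1 u Finset.subset_union_left, h1 v Finset.subset_union_right,
    ← Finset.sum_add_distrib]
  refine Finset.sum_le_sum fun x _ => ?_
  rw [Finsupp.add_apply]
  exact Int.natAbs_add_le _ _

theorem bdd_add {N N' : ℕ} {B B' : ∀ i, L i → ℝ} {u v : (∀ i, Place QQ (L i)) →₀ ℤ}
    (hu : Bdd N B u) (hv : Bdd N' B' v) :
    Bdd (N + N') (fun i f => max (B i f) (B' i f)) (u + v) := by
  refine ⟨(natAbs_sum_add u v).trans (add_le_add hu.1 hv.1), fun x hx i f c hc => ?_⟩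
  rcases Finset.mem_union.1 (Finsupp.support_add hx) with h | h
  · exact (hu.2 x h i f c hc).trans (le_max_left _ _)
  · exact (hv.2 x h i f c hc).trans (le_max_right _ _)

theorem bdd_zsmul {N : ℕ} {B : ∀ i, L i → ℝ} {u : (∀ i, Place QQ (L i)) →₀ ℤ}
    (hu : Bdd N B u) (n : ℤ) : Bdd (n.natAbs * N) B (n • u) := by
  refine ⟨?_, fun x hx i f c hc => ?_⟩
  · have h1 : ((n • u).sum fun _ k => k.natAbs) = n.natAbs * u.sum fun _ k => k.natAbs := by
      rw [Finsupp.sum_of_support_subset (n • u) Finsupp.support_smul _ fun _ _ => rfl,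
        Finsupp.sum, Finset.mul_sum]
      refine Finset.sum_congr rfl fun x _ => ?_
      rw [Finsupp.smul_apply, smul_eq_mul, Int.natAbs_mul]
    rw [h1]
    exact Nat.mul_le_mul_left _ hu.1
  · exact hu.2 x (Finsupp.support_smul hx) i f c hc

theorem isInvis_add {z z' : (∀ i, Place QQ (L i)) →₀ ℤ} (h : IsInvis z) (h' : IsInvis z') :
    IsInvis (z + z') := by
  obtain ⟨m, N, B, hm, h⟩ := h
  obtain ⟨m', N', B', hm', h'⟩ := h'
  refine ⟨m * m', (m' : ℤ).natAbs * N + (m : ℤ).natAbs * N', fun i f => max (B i f) (B' i f),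
    Nat.mul_pos hm hm', fun S => ?_⟩
  obtain ⟨w, hw, hwr, hwb⟩ := h S
  obtain ⟨w', hw', hwr', hwb'⟩ := h' S
  refine ⟨(m' : ℤ) • w + (m : ℤ) • w', ?_, ?_, bdd_add (bdd_zsmul hwb _) (bdd_zsmul hwb' _)⟩
  · exact add_mem (AddSubgroup.zsmul_mem _ hw _) (AddSubgroup.zsmul_mem _ hw' _)
  · have h1 : (m' : ℤ) • w + (m : ℤ) • w' - (m * m') • (z + z') =
        (m' : ℤ) • (w - m • z) + (m : ℤ) • (w' - m' • z') := by
      module
    rw [h1]
    exact add_mem (AddSubgroup.zsmul_mem _ hwr _) (AddSubgroup.zsmul_mem _ hwr' _)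

theorem isInvis_neg {z : (∀ i, Place QQ (L i)) →₀ ℤ} (h : IsInvis z) : IsInvis (-z) := by
  obtain ⟨m, N, B, hm, h⟩ := h
  refine ⟨m, (-1 : ℤ).natAbs * N, B, hm, fun S => ?_⟩
  obtain ⟨w, hw, hwr, hwb⟩ := h S
  refine ⟨(-1 : ℤ) • w, AddSubgroup.zsmul_mem _ hw _, ?_, bdd_zsmul hwb _⟩
  have h1 : (-1 : ℤ) • w - m • (-z) = -(w - m • z) := by
    module
  rw [h1]
  exact (RatEq L).neg_mem hwr

theorem isInvis_of_mem {z : (∀ i, Place QQ (L i)) →₀ ℤ} (h : z ∈ RatEq L) : IsInvis z := by
  refine ⟨1, 0, fun _ _ => 0, one_pos, fun S => ⟨0, zero_mem _, ?_, bdd_zero _ _⟩⟩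
  rw [zero_sub]
  exact (RatEq L).neg_mem ((RatEq L).nsmul_mem h _)

/-- the subgroup of the cycles with this property -/
def invisGroup : AddSubgroup ((∀ i, Place QQ (L i)) →₀ ℤ) where
  carrier := {z | IsInvis z}
  zero_mem' := isInvis_of_mem (zero_mem _)
  add_mem' := isInvis_add
  neg_mem' := isInvis_neg

theorem mem_invisGroup {z : (∀ i, Place QQ (L i)) →₀ ℤ} : z ∈ invisGroup ↔ IsInvis z := Iff.rfl

end Defs

section Square

variable {F : Type} [Field F] [Algebra QQ F]

theorem zt_eq (s : Finset (Place QQ F)) :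
    zt s = ∑ x ∈ s, ∑ y ∈ s, (Finsupp.single (pair (L := fun _ => F) x x) (1 : ℤ) -
      Finsupp.single (pair (L := fun _ => F) x y) 1) := by
  unfold zt
  rw [Finset.smul_sum, ← Finset.sum_sub_distrib]
  refine Finset.sum_congr rfl fun x _ => ?_
  rw [Finset.sum_sub_distrib, Finset.sum_const, natCast_zsmul]

theorem natAbs_single (x : Bool → Place QQ F) :
    ((Finsupp.single x (1 : ℤ)).sum fun _ n => n.natAbs) = 1 := by
  rw [Finsupp.sum_single_index rfl]
  rfl

theorem zt_invis {S : Finset F} {s : Finset (Place QQ F)}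
    (h : ∀ x ∈ s, ∀ y ∈ s, Conj S x y) : zt s ∈ Invis (L := fun _ : Bool => F) fun _ => S := by
  rw [zt_eq]
  refine sum_mem fun x hx => sum_mem fun y hy => invis_single fun i => ?_
  cases i
  · exact conj_refl _ _
  · exact h y hy x hx

theorem bdd_sum {A : Type} (s : Finset A) (u : A → (Bool → Place QQ F) →₀ ℤ) {N : ℕ}
    {B : Bool → F → ℝ} (h : ∀ a ∈ s, Bdd (L := fun _ : Bool => F) N B (u a)) :
    Bdd (L := fun _ : Bool => F) (s.card * N) B (∑ a ∈ s, u a) := by
  induction s using Finset.induction_on with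
  | empty =>
    rw [Finset.sum_empty]
    exact bdd_zero _ _
  | insert a s ha ih =>
    rw [Finset.sum_insert ha, Finset.card_insert_of_notMem ha]
    have h1 := bdd_add (h a (Finset.mem_insert_self a s))
      (ih fun b hb => h b (Finset.mem_insert_of_mem hb))
    have h2 : N + s.card * N = (s.card + 1) * N := by ring
    simp only [max_self] at h1
    rwa [h2] at h1

theorem square_invis (hF : IsCurve QQ F) {p q : Place QQ F} (hpq : p ≠ q) :
    IsInvis (L := fun _ : Bool => F) (square p q) := by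
  obtain ⟨φ, y, z, u, r, n1, n2, m, e1, e2, e3, h⟩ := exists_fib hF hpq
  have htr := h.transc hF
  choose C hC using fun f : F => height_compare hF (f := f) htr 1
  have hBad := finite_crit hF htr
  refine ⟨n1 * n2, (n1 + n2) * ((n1 + n2) * 2), fun _ f => C f,
    Nat.mul_pos h.n1_pos h.n2_pos, fun S => ?_⟩
  obtain ⟨t, ht1, ht2, ht3⟩ := one_orbit hF h (S false ∪ S true) hBad.toFinset
  obtain ⟨s, hmem⟩ : ∃ s : Finset (Place QQ F), ∀ v, v ∈ s ↔ v.At φ t :=
    ⟨(finite_at hF htr t).toFinset, fun v => by simp⟩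
  have hfib : IsFibre φ p q n1 n2 t s :=
    { curve := hF
      transc := htr
      ne := h.ne
      pole_p := h.ordp
      pole_q := h.ordq
      n1_pos := h.n1_pos
      n2_pos := h.n2_pos
      reg := h.reg
      mem := hmem
      unif := by
        intro v hv
        by_contra hu
        exact ht1 (hBad.mem_toFinset.2 ⟨v, hv, hu⟩) }
  refine ⟨zt s, ?_, hfib.zt_ratEq, ?_⟩
  · have h1 : zt s ∈ Invis (L := fun _ : Bool => F) fun _ => S false ∪ S true :=
      zt_invis fun x hx x' hx' => ht3 x x' ((hmem x).1 hx) ((hmem x').1 hx')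
    refine invis_mono (fun i => ?_) h1
    cases i
    · exact Finset.subset_union_left
    · exact Finset.subset_union_right
  · have hb : ∀ x ∈ s, ∀ y ∈ s, Bdd (L := fun _ : Bool => F) 1 (fun _ f => C f)
        (Finsupp.single (pair (L := fun _ => F) x y) (1 : ℤ)) := by
      intro x hx y hy
      refine ⟨(natAbs_single _).le, fun a ha i f c hc => ?_⟩
      rw [Finsupp.support_single _ one_ne_zero, Finset.mem_singleton] at ha
      subst ha
      cases i
      · exact hC f x c t hc ((hmem x).1 hx) ht2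
      · exact hC f y c t hc ((hmem y).1 hy) ht2
    have h2 := bdd_sum s _ fun x hx => bdd_sum s
      (fun y => Finsupp.single (pair (L := fun _ => F) x x) (1 : ℤ) -
        Finsupp.single (pair (L := fun _ => F) x y) 1) (N := 2) (B := fun _ f => C f) ?_
    · rw [← zt_eq, hfib.card] at h2
      exact h2
    · intro y hy
      have h3 := bdd_add (hb x hx x hx) (bdd_zsmul (hb x hx y hy) (-1))
      simp only [max_self] at h3
      have h4 : Finsupp.single (pair (L := fun _ => F) x x) (1 : ℤ) -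
          Finsupp.single (pair (L := fun _ => F) x y) 1 =
          Finsupp.single (pair (L := fun _ => F) x x) (1 : ℤ) +
          (-1 : ℤ) • Finsupp.single (pair (L := fun _ => F) x y) 1 := by
        module
      rw [h4]
      exact h3

end Square

section Map

variable {F : Type} [Field F] [Algebra QQ F] {ι : Type} {L : ι → Type} [∀ i, Field (L i)]
  [∀ i, Algebra QQ (L i)]

theorem natAbs_map (Φ : (Bool → Place QQ F) → ∀ i, Place QQ (L i))
    (w : (Bool → Place QQ F) →₀ ℤ) :
    ((w.mapDomain Φ).sum fun _ n => n.natAbs) ≤ w.sum fun _ n => n.natAbs := by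
  induction w using Finsupp.induction with
  | zero => simp
  | single_add a b w ha hb ih =>
    have h1 : (Finsupp.single a b + w).mapDomain Φ =
        Finsupp.single (Φ a) b + w.mapDomain Φ := by
      rw [Finsupp.mapDomain_add, Finsupp.mapDomain_single]
    rw [h1]
    refine (natAbs_sum_add _ _).trans ?_
    have h2 : ((Finsupp.single a b + w).sum fun _ n => n.natAbs) =
        b.natAbs + w.sum fun _ n => n.natAbs := by
      have hd : Disjoint (Finsupp.single a b).support w.support := by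
        rw [Finsupp.support_single _ hb, Finset.disjoint_singleton_left]
        exact ha
      rw [Finsupp.sum_add_index_of_disjoint hd, Finsupp.sum_single_index rfl]
    rw [h2, Finsupp.sum_single_index rfl]
    exact Nat.add_le_add_left ih _

theorem isInvis_map [Finite ι] (hL : ∀ i, IsCurve QQ (L i))
    {Φ : (Bool → Place QQ F) → ∀ i, Place QQ (L i)}
    (hΦ : IsMor (L := fun _ : Bool => F) Φ) {z : (Bool → Place QQ F) →₀ ℤ}
    (h : IsInvis (L := fun _ : Bool => F) z) : IsInvis (z.mapDomain Φ) := by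
  obtain ⟨m, N, B, hm, h⟩ := h
  have key : ∀ (i : ι) (f : L i), ∃ b : ℝ, ∀ x : Bool → Place QQ F,
      (∀ (c : Bool) (g : F) (d : QQ), (x c).At g d → NumberField.absLogHeight₁ d ≤ B c g) →
      ∀ c : QQ, (Φ x i).At f c → NumberField.absLogHeight₁ c ≤ b := by
    intro i f
    rcases hΦ i with ⟨p, hp⟩ | ⟨c, e, he⟩
    · by_cases hf : ∃ c : QQ, p.At f c
      · obtain ⟨c₀, hc₀⟩ := hf
        refine ⟨NumberField.absLogHeight₁ c₀, fun x _ c hc => ?_⟩
        rw [hp] at hc
        rw [hc.unique hc₀]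
      · refine ⟨0, fun x _ c hc => ?_⟩
        rw [hp] at hc
        exact absurd ⟨c, hc⟩ hf
    · refine ⟨B c (e f), fun x hx d hd => hx c (e f) d ?_⟩
      unfold Place.At at hd ⊢
      rw [Place.vanishes_iff_or] at hd ⊢
      have h1 : ∀ g : L i, g ∈ (Φ x i).ring ↔ e g ∈ (x c).ring := by
        intro g
        rw [he, ValuationSubring.mem_comap]
        rfl
      rw [h1, map_inv₀, map_sub, AlgHom.commutes] at hd
      rcases hd with hd | hd
      · left
        have h2 := congrArg e hd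
        rwa [map_sub, AlgHom.commutes, map_zero] at h2
      · exact Or.inr hd
  choose b hb using key
  refine ⟨m, N, b, hm, fun S => ?_⟩
  obtain ⟨S', hS'⟩ := invis_map hL hΦ S
  obtain ⟨w, hw, hwr, hwb⟩ := h fun _ => S'
  refine ⟨w.mapDomain Φ, hS' w hw, ?_, (natAbs_map Φ w).trans hwb.1, ?_⟩
  · have h1 := map_mem Φ hΦ hwr
    have h2 : (w - m • z).mapDomain Φ = w.mapDomain Φ - m • z.mapDomain Φ := by
      have h3 := map_sub (Finsupp.mapDomain.addMonoidHom (M := ℤ) Φ) w (m • z)
      rw [map_nsmul] at h3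
      exact h3
    rwa [h2] at h1
  · intro x' hx' i f c hc
    obtain ⟨x, hx, rfl⟩ := Finset.mem_image.1 (Finsupp.mapDomain_support hx')
    exact hb i f x (hwb.2 x hx) c hc

end Map

theorem albKer_invis {ι : Type} [Fintype ι] {L : ι → Type} [∀ i, Field (L i)]
    [∀ i, Algebra QQ (L i)] (hL : ∀ i, IsCurve QQ (L i)) {z : (∀ i, Place QQ (L i)) →₀ ℤ}
    (hz : AlbKer L z) : IsInvis z := by
  rw [← mem_invisGroup]
  refine generation (T := invisGroup) hL (fun w hw => isInvis_of_mem hw) ?_ hz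
  rintro w ⟨F, _, _, F₀, β, P, O, Φ, hβ, hΦ, rfl⟩
  have hPO : P ≠ O := by
    rintro rfl
    exact hβ.pole (Place.Vanishes.mem P hβ.zero)
  exact isInvis_map hL hΦ (square_invis hβ.curve hPO)

end Pool.Agent.Clo
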