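import Pool.Agent.Clo.Inv2
import Pool.Agent.Clo.Orbits
import Pool.Agent.Clo.AlbInv

/-!
# Cycles which are invisible over every number field are in the kernel of the Albanese map
-/

set_option autoImplicit false

noncomputable section

namespace Pool.Agent.Clo

open Pool.Agent.ZCyc Pool.Agent.Dess
open scoped Classical

section Average

variable {ι : Type} {L : ι → Type} [∀ i, Field (L i)] [∀ i, Algebra QQ (L i)]
  {S : ∀ i, Finset (L i)}

theorem conj_map (σ : Auto S) (x : ∀ i, Place QQ (L i)) (i : ι) :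
    Conj (S i) (x i) (σ.map x i) :=
  ⟨σ.rho, σ.r i, σ.fix i, σ.moves x i⟩

theorem invis_auto (σ : Auto S) {w : (∀ i, Place QQ (L i)) →₀ ℤ} (hw : w ∈ Invis S) :
    w.mapDomain σ.map ∈ Invis S := by
  have h1 : Invis S ≤ (Invis S).comap (Finsupp.mapDomain.addMonoidHom (M := ℤ) σ.map) := by
    conv_lhs => unfold Invis
    rw [AddSubgroup.closure_le]
    rintro z ⟨x, x', h, rfl⟩
    show Finsupp.mapDomain.addMonoidHom (M := ℤ) σ.map _ ∈ Invis S
    rw [map_sub]
    show Finsupp.mapDomain σ.map (Finsupp.single x' 1) -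
      Finsupp.mapDomain σ.map (Finsupp.single x 1) ∈ _
    rw [Finsupp.mapDomain_single, Finsupp.mapDomain_single]
    exact invis_single fun i => conj_trans (conj_symm (conj_map σ x i))
      (conj_trans (h i) (conj_map σ x' i))
  exact h1 hw

private def idInv : Auto S where
  rho := AlgEquiv.refl
  r := fun _ => RingEquiv.refl _
  fix := fun _ => ⟨fun _ _ => rfl, fun _ => rfl⟩

/-- an invisible cycle can be replaced by the sum of its conjugates -/
theorem average_invis [Finite ι] (hL : ∀ i, IsCurve QQ (L i))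
    (hS : ∀ i, IntermediateField.adjoin QQ (S i : Set (L i)) = ⊤)
    {z : (∀ i, Place QQ (L i)) →₀ ℤ} (hz : Rational S z) {m : ℕ}
    {w : (∀ i, Place QQ (L i)) →₀ ℤ} (hw : w - m • z ∈ RatEq L) (hi : w ∈ Invis S) :
    ∃ (T : ℕ) (w' : (∀ i, Place QQ (L i)) →₀ ℤ), 0 < T ∧ Rational S w' ∧
      w' - (T * m) • z ∈ RatEq L ∧ w' ∈ Invis S := by
  obtain ⟨T, hT⟩ : ∃ T : Finset ((∀ i, Place QQ (L i)) →₀ ℤ), ∀ u, u ∈ T ↔
      ∃ σ : Auto S, u = w.mapDomain σ.map :=
    ⟨(finite_cycles hL hS w).toFinset, fun u => by simp⟩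
  refine ⟨T.card, ∑ u ∈ T, u, ?_, ?_, ?_, ?_⟩
  · exact Finset.card_pos.2 ⟨_, (hT _).2 ⟨idInv, rfl⟩⟩
  · rw [rational_iff]
    intro σ
    have hinj : Function.Injective fun u : (∀ i, Place QQ (L i)) →₀ ℤ => u.mapDomain σ.map :=
      Finsupp.mapDomain_injective σ.map_injective
    have h1 : T.image (fun u : (∀ i, Place QQ (L i)) →₀ ℤ => u.mapDomain σ.map) = T := by
      refine Finset.eq_of_subset_of_card_le ?_ ?_
      · intro u hu
        obtain ⟨u', hu', rfl⟩ := Finset.mem_image.1 hu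
        obtain ⟨τ, rfl⟩ := (hT u').1 hu'
        obtain ⟨υ, hυ⟩ := σ.exists_comp τ
        refine (hT _).2 ⟨υ, ?_⟩
        show (w.mapDomain τ.map).mapDomain σ.map = w.mapDomain υ.map
        rw [← Finsupp.mapDomain_comp]
        congr 1
        ext x : 1
        exact (hυ x).symm
      · rw [Finset.card_image_of_injective _ hinj]
    have h2 := Finset.sum_image (s := T) (f := fun u : (∀ i, Place QQ (L i)) →₀ ℤ => u)
      (g := fun u : (∀ i, Place QQ (L i)) →₀ ℤ => u.mapDomain σ.map) hinj.injOn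
    rw [h1] at h2
    rw [Finsupp.mapDomain_finsetSum]
    exact h2.symm
  · have h1 : (∑ u ∈ T, u) - (T.card * m) • z = ∑ u ∈ T, (u - m • z) := by
      rw [Finset.sum_sub_distrib, Finset.sum_const, smul_smul]
    rw [h1]
    refine sum_mem fun u hu => ?_
    obtain ⟨σ, rfl⟩ := (hT u).1 hu
    have h2 := σ.map_mem' hw
    have h3 : (w - m • z).mapDomain σ.map = w.mapDomain σ.map - m • z := by
      have h4 := map_sub (Finsupp.mapDomain.addMonoidHom (M := ℤ) σ.map) w (m • z)
      rw [map_nsmul] at h4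
      have h5 : (Finsupp.mapDomain.addMonoidHom (M := ℤ) σ.map) z = z := rational_iff.1 hz σ
      rw [h5] at h4
      exact h4
    rwa [h3] at h2
  · refine sum_mem fun u hu => ?_
    obtain ⟨σ, rfl⟩ := (hT u).1 hu
    exact invis_auto σ hi

end Average

section Single

variable {F : Type} [Field F] [Algebra QQ F] {S : Finset F}

/-- a rational cycle on a curve which is invisible is zero -/
theorem rational_invis {w : (Unit → Place QQ F) →₀ ℤ}
    (hr : Rational (L := fun _ : Unit => F) (fun _ => S) w)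
    (hi : w ∈ Invis (L := fun _ : Unit => F) (fun _ => S)) : w = 0 := by
  have h1 := invis_sum hi (R := ℤ) (ψ := fun x => w x) (by
    intro x x' h
    obtain ⟨ρ, r, hf, hm⟩ := h ()
    exact hr ρ (fun _ => r) (fun _ => hf) x x' fun _ => hm)
  have h2 : ∀ x ∈ w.support, (w x • w x : ℤ) = 0 := by
    have h3 := (Finset.sum_eq_zero_iff_of_nonneg (s := w.support)
      (f := fun x => (w x • w x : ℤ)) (fun x _ => by
        rw [smul_eq_mul]
        exact mul_self_nonneg _)).1 h1
    exact h3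
  ext x
  by_contra h0
  have h4 := h2 x (Finsupp.mem_support_iff.2 h0)
  rw [smul_eq_mul, mul_self_eq_zero] at h4
  exact h0 h4

theorem rational_of_poles {v : (Unit → Place QQ F) →₀ ℤ}
    (h : ∀ x ∈ v.support, ∃ g ∈ S, g ∉ (x ()).ring ∧ ∀ u : Place QQ F, u ≠ x () → g ∈ u.ring) :
    Rational (L := fun _ : Unit => F) (fun _ => S) v := by
  intro ρ r hr x x' hx
  by_cases h1 : x ∈ v.support
  · obtain ⟨g, hg, hp, hreg⟩ := h x h1
    have h2 : x' () = x () := moves_pole (hx ()) ((hr ()).1 g hg) hp hreg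
    have h3 : x' = x := funext fun _ => h2
    rw [h3]
  · by_cases h1' : x' ∈ v.support
    · obtain ⟨g, hg, hp, hreg⟩ := h x' h1'
      have h2 : x () = x' () :=
        moves_pole (moves_symm (hx ())) ((fixes_symm (hr ())).1 g hg) hp hreg
      have h3 : x' = x := funext fun _ => h2.symm
      rw [h3]
    · rw [Finsupp.notMem_support_iff] at h1 h1'
      rw [h1, h1']

end Single

section Main

variable {ι : Type} {L : ι → Type} [∀ i, Field (L i)] [∀ i, Algebra QQ (L i)]

theorem invis_push {S : ∀ i, Finset (L i)} {w : (∀ i, Place QQ (L i)) →₀ ℤ} (hw : w ∈ Invis S)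
    (i : ι) : (w.mapDomain fun p (_ : Unit) => p i) ∈
      Invis (L := fun _ : Unit => L i) fun _ => S i := by
  have h1 : Invis S ≤ (Invis (L := fun _ : Unit => L i) fun _ => S i).comap
      (Finsupp.mapDomain.addMonoidHom (M := ℤ) fun (p : ∀ i, Place QQ (L i)) (_ : Unit) => p i) := by
    conv_lhs => unfold Invis
    rw [AddSubgroup.closure_le]
    rintro z ⟨x, x', h, rfl⟩
    show Finsupp.mapDomain.addMonoidHom (M := ℤ) _ _ ∈ Invis (L := fun _ : Unit => L i) _
    rw [map_sub]
    show Finsupp.mapDomain _ (Finsupp.single x' 1) -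
      Finsupp.mapDomain _ (Finsupp.single x 1) ∈ _
    rw [Finsupp.mapDomain_single, Finsupp.mapDomain_single]
    exact invis_single fun _ => h i
  exact h1 hw

theorem invis_deg {S : ∀ i, Finset (L i)} {w : (∀ i, Place QQ (L i)) →₀ ℤ}
    (hw : w ∈ Invis S) : (w.sum fun _ n => n) = 0 := by
  have h1 := invis_sum hw (R := ℤ) (ψ := fun _ => 1) fun _ _ _ => rfl
  simp only [smul_eq_mul, mul_one] at h1
  exact h1

theorem exists_set (hL : ∀ i, IsCurve QQ (L i)) (z : (∀ i, Place QQ (L i)) →₀ ℤ) :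
    ∃ S : ∀ i, Finset (L i), ∀ i, IntermediateField.adjoin QQ (S i : Set (L i)) = ⊤ ∧
      ∀ x ∈ z.support, ∃ g ∈ S i, g ∉ (x i).ring ∧
        ∀ u : Place QQ (L i), u ≠ x i → g ∈ u.ring := by
  choose G hG using fun i => exists_gens (hL i)
  choose g hg1 hg2 using fun (i : ι) (p : Place QQ (L i)) => exists_pole (hL i) p
  refine ⟨fun i => G i ∪ z.support.image fun x => g i (x i), fun i => ⟨?_, fun x hx => ?_⟩⟩
  · rw [eq_top_iff, ← hG i]
    apply IntermediateField.adjoin.mono
    intro y hy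
    rw [Finset.mem_coe] at hy ⊢
    exact Finset.mem_union_left _ hy
  · exact ⟨g i (x i), Finset.mem_union_right _ (Finset.mem_image_of_mem (fun x => g i (x i)) hx),
      hg1 i _, hg2 i _⟩

theorem albKer_of_invis [Fintype ι] (hL : ∀ i, IsCurve QQ (L i))
    {z : (∀ i, Place QQ (L i)) →₀ ℤ}
    (h : ∀ S : ∀ i, Finset (L i), ∃ (m : ℕ) (w : (∀ i, Place QQ (L i)) →₀ ℤ), 0 < m ∧
      w ∈ Invis S ∧ w - m • z ∈ RatEq L) :
    ∃ m : ℕ, 0 < m ∧ AlbKer L (m • z) := by
  obtain ⟨S, hS⟩ := exists_set hL z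
  obtain ⟨m, w, hm, hw, hr⟩ := h S
  have key : ∀ i, ∃ T : ℕ, 0 < T ∧
      (T * m) • (z.mapDomain fun p (_ : Unit) => p i) ∈ RatEq fun _ : Unit => L i := by
    intro i
    have e : ∀ u : (∀ i, Place QQ (L i)) →₀ ℤ, (u.mapDomain fun p (_ : Unit) => p i) =
        Finsupp.mapDomain.addMonoidHom (M := ℤ)
          (fun (p : ∀ i, Place QQ (L i)) (_ : Unit) => p i) u := fun _ => rfl
    have h1 : (w.mapDomain fun p (_ : Unit) => p i) -
        m • (z.mapDomain fun p (_ : Unit) => p i) ∈ RatEq fun _ : Unit => L i := by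
      have h2 := (ratEq_albKer hr).2 i
      rw [e, map_sub, map_nsmul] at h2
      exact h2
    have h3 : Rational (L := fun _ : Unit => L i) (fun _ => S i)
        (z.mapDomain fun p (_ : Unit) => p i) := by
      refine rational_of_poles fun x hx => ?_
      obtain ⟨y, hy, rfl⟩ := Finset.mem_image.1 (Finsupp.mapDomain_support hx)
      exact (hS i).2 y hy
    obtain ⟨T, w', hT, hr', hw', hi'⟩ := average_invis (L := fun _ : Unit => L i)
      (fun _ => hL i) (fun _ => (hS i).1) h3 h1 (invis_push hw i)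
    refine ⟨T, hT, ?_⟩
    rw [rational_invis hr' hi', zero_sub] at hw'
    have h4 := (RatEq fun _ : Unit => L i).neg_mem hw'
    rwa [neg_neg] at h4
  choose T hT hTm using key
  refine ⟨(∏ i, T i) * m, Nat.mul_pos (Finset.prod_pos fun i _ => hT i) hm, ?_, fun i => ?_⟩
  · have h1 := sum_ratEq hr
    have h2 := invis_deg hw
    have e : ∀ u : (∀ i, Place QQ (L i)) →₀ ℤ, (u.sum fun _ n => n) =
        Finsupp.liftAddHom (fun _ => AddMonoidHom.id ℤ) u := by
      intro u
      rw [Finsupp.liftAddHom_apply]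
      rfl
    rw [e] at h1 h2 ⊢
    rw [map_sub, h2, map_nsmul, zero_sub, neg_eq_zero] at h1
    rw [map_nsmul, mul_smul, h1, smul_zero]
  · have e : (((∏ i, T i) * m) • z).mapDomain (fun p (_ : Unit) => p i) =
        ((∏ i, T i) * m) • (z.mapDomain fun p (_ : Unit) => p i) := by
      have h1 := map_nsmul (Finsupp.mapDomain.addMonoidHom (M := ℤ)
        (fun (p : ∀ i, Place QQ (L i)) (_ : Unit) => p i)) ((∏ i, T i) * m) z
      exact h1
    rw [e]
    obtain ⟨k, hk⟩ := Finset.dvd_prod_of_mem T (Finset.mem_univ i)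
    rw [hk, mul_assoc, mul_comm k m, ← mul_assoc, mul_comm (T i * m) k, mul_smul]
    exact AddSubgroup.nsmul_mem _ (hTm i) k

end Main

end Pool.Agent.Clo
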