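import Pool.Agent.Clo.New1
import Pool.Agent.Clo.Sq

/-!
# The cycles `(x - σ x) × (y - σ y)`: push-forward
-/

set_option autoImplicit false

noncomputable section

namespace Pool.Agent.Clo

open Pool.Agent.ZCyc Pool.Agent.Dess Pool.Agent.Dess4
open scoped Classical

section Pull

variable {L F : Type} [Field L] [Algebra QQ L] [Field F] [Algebra QQ F]

/-- an automorphism of the function field of a covering, which fixes suitable functions, induces an
automorphism of the function field of the curve -/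
theorem fix_pull (hL : IsCurve QQ L) (f : L →ₐ[QQ] F)
    (g : Place QQ F → Place QQ L) (hg : ∀ v, (g v).ring = v.ring.comap (f : L →+* F))
    (S : Finset L) : ∃ S' : Finset F, ∀ (ρ : Gam) (r : F ≃+* F), Fixes S' ρ r →
      ∃ e : L ≃+* L, Fixes S ρ e ∧ ∀ v v', Moves r v v' → Moves e (g v) (g v') := by
  have hinj : Function.Injective f := (f : L →+* F).injective
  have hmem : ∀ (v : Place QQ F) (x : L), x ∈ (g v).ring ↔ f x ∈ v.ring := by
    intro v x
    rw [hg, ValuationSubring.mem_comap]
    rfl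
  obtain ⟨S₁, hS₁⟩ := exists_gens hL
  refine ⟨(S ∪ S₁).image f, ?_⟩
  have key : ∀ (ρ : Gam) (r : F ≃+* F), (∀ s ∈ S₁, r (f s) = f s) →
      (∀ c : QQ, r (algebraMap QQ F c) = algebraMap QQ F (ρ c)) →
      ∀ x : L, ∃ y : L, f y = r (f x) := by
    intro ρ r h1 h2 x
    have hx : x ∈ IntermediateField.adjoin QQ (S₁ : Set L) := by
      rw [hS₁]
      exact IntermediateField.mem_top
    refine IntermediateField.adjoin_induction (F := QQ) (s := (S₁ : Set L))
      (p := fun x _ => ∃ y : L, f y = r (f x)) ?_ ?_ ?_ ?_ ?_ hx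
    · intro x hx
      exact ⟨x, (h1 x hx).symm⟩
    · intro c
      refine ⟨algebraMap QQ L (ρ c), ?_⟩
      rw [AlgHom.commutes, AlgHom.commutes, h2]
    · rintro x y _ _ ⟨x', hx'⟩ ⟨y', hy'⟩
      exact ⟨x' + y', by rw [map_add, map_add, map_add, hx', hy']⟩
    · rintro x _ ⟨x', hx'⟩
      exact ⟨x'⁻¹, by rw [map_inv₀, map_inv₀, map_inv₀, hx']⟩
    · rintro x y _ _ ⟨x', hx'⟩ ⟨y', hy'⟩
      exact ⟨x' * y', by rw [map_mul, map_mul, map_mul, hx', hy']⟩
  intro ρ r hr
  have hfix : ∀ s ∈ S ∪ S₁, r (f s) = f s := fun s hs => hr.1 _ (Finset.mem_image_of_mem _ hs)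
  have k1 := key ρ r (fun s hs => hfix s (Finset.mem_union_right _ hs)) hr.2
  have k2 := key ρ.symm r.symm
    (fun s hs => by
      rw [RingEquiv.symm_apply_eq]
      exact (hfix s (Finset.mem_union_right _ hs)).symm)
    (fun c => by
      rw [RingEquiv.symm_apply_eq, hr.2, AlgEquiv.apply_symm_apply])
  choose r₀ hr₀ using k1
  choose s₀ hs₀ using k2
  obtain ⟨e, he⟩ : ∃ e : L ≃+* L, ∀ x, f (e x) = r (f x) :=
    ⟨{ toFun := r₀
       invFun := s₀
       left_inv := fun x => hinj (by rw [hs₀, hr₀, RingEquiv.symm_apply_apply])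
       right_inv := fun x => hinj (by rw [hr₀, hs₀, RingEquiv.apply_symm_apply])
       map_mul' := fun x y => hinj (by rw [hr₀, map_mul, map_mul, map_mul, hr₀, hr₀])
       map_add' := fun x y => hinj (by rw [hr₀, map_add, map_add, map_add, hr₀, hr₀]) },
      hr₀⟩
  refine ⟨e, ⟨?_, ?_⟩, ?_⟩
  · intro s hs
    apply hinj
    rw [he]
    exact hfix s (Finset.mem_union_left _ hs)
  · intro c
    apply hinj
    rw [he, AlgHom.commutes, AlgHom.commutes, hr.2]
  · intro v v' hm
    rw [moves_iff]
    intro x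
    rw [hmem, hmem, he]
    exact moves_iff.1 hm (f x)

end Pull

section Auto

variable {F : Type} [Field F] [Algebra QQ F] {ι : Type} {L : ι → Type} [∀ i, Field (L i)]
  [∀ i, Algebra QQ (L i)]

/-- the automorphisms induced on all factors -/
theorem auto_pull [Finite ι] (hL : ∀ i, IsCurve QQ (L i))
    {Φ : (Bool → Place QQ F) → ∀ i, Place QQ (L i)}
    (hΦ : IsMor (L := fun _ : Bool => F) Φ) (S : ∀ i, Finset (L i)) :
    ∃ S' : Finset F, ∀ (ρ : Gam) (r : F ≃+* F), Fixes S' ρ r → ∃ e : ∀ i, L i ≃+* L i,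
      (∀ i, Fixes (S i) ρ (e i)) ∧ ∀ i, (∃ (c : Bool) (f : L i →ₐ[QQ] F), ∀ a,
        (Φ a i).ring = (a c).ring.comap (f : L i →+* F)) → ∀ x y : Place QQ F, Moves r x y →
          Moves (e i) (Φ (fun _ => x) i) (Φ (fun _ => y) i) := by
  cases nonempty_fintype ι
  have key : ∀ i, ∃ S' : Finset F, ∀ (ρ : Gam) (r : F ≃+* F), Fixes S' ρ r →
      ∃ e : L i ≃+* L i, Fixes (S i) ρ e ∧ ((∃ (c : Bool) (f : L i →ₐ[QQ] F), ∀ a,
        (Φ a i).ring = (a c).ring.comap (f : L i →+* F)) → ∀ x y : Place QQ F, Moves r x y →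
          Moves e (Φ (fun _ => x) i) (Φ (fun _ => y) i)) := by
    intro i
    by_cases h : ∃ (c : Bool) (f : L i →ₐ[QQ] F), ∀ a,
        (Φ a i).ring = (a c).ring.comap (f : L i →+* F)
    · obtain ⟨c, f, hf⟩ := h
      obtain ⟨S', hS'⟩ := fix_pull (hL i) f (fun v => Φ (fun _ => v) i)
        (fun v => hf fun _ => v) (S i)
      refine ⟨S', fun ρ r hr => ?_⟩
      obtain ⟨e, he, hm⟩ := hS' ρ r hr
      exact ⟨e, he, fun _ x y hxy => hm x y hxy⟩
    · obtain ⟨C, hC⟩ := exists_lift (hL i) (S i)
      refine ⟨C.image (algebraMap QQ F), fun ρ r hr => ?_⟩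
      obtain ⟨e, he1, he2⟩ := hC ρ (fun c hc => by
        have h1 := hr.1 _ (Finset.mem_image_of_mem (algebraMap QQ F) hc)
        rw [hr.2] at h1
        exact (algebraMap QQ F).injective h1)
      exact ⟨e, ⟨he2, he1⟩, fun h' => absurd h' h⟩
  choose S' hS' using key
  refine ⟨Finset.univ.biUnion S', fun ρ r hr => ?_⟩
  have h1 : ∀ i, ∃ e : L i ≃+* L i, Fixes (S i) ρ e ∧ ((∃ (c : Bool) (f : L i →ₐ[QQ] F), ∀ a,
        (Φ a i).ring = (a c).ring.comap (f : L i →+* F)) → ∀ x y : Place QQ F, Moves r x y →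
          Moves e (Φ (fun _ => x) i) (Φ (fun _ => y) i)) := fun i =>
    hS' i ρ r (fixes_mono (Finset.subset_biUnion_of_mem S' (Finset.mem_univ i)) hr)
  choose e he using h1
  exact ⟨e, fun i => (he i).1, fun i => (he i).2⟩

/-- heights on the image of a morphism -/
theorem ht_pull {Φ : (Bool → Place QQ F) → ∀ i, Place QQ (L i)}
    (hΦ : IsMor (L := fun _ : Bool => F) Φ) (B : F → ℝ) :
    ∃ B' : ∀ i, L i → ℝ, ∀ x : Bool → Place QQ F,
      HtLe (L := fun _ : Bool => F) (fun _ => B) x → HtLe B' (Φ x) := by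
  have key : ∀ (i : ι) (f : L i), ∃ b : ℝ, ∀ x : Bool → Place QQ F,
      HtLe (L := fun _ : Bool => F) (fun _ => B) x →
      ∀ c : QQ, (Φ x i).At f c → NumberField.absLogHeight₁ c ≤ b := by
    intro i f
    rcases hΦ i with ⟨p, hp⟩ | ⟨c, e, he⟩
    · by_cases hf : ∃ c : QQ, p.At f c
      · obtain ⟨c₀, hc₀⟩ := hf
        refine ⟨NumberField.absLogHeight₁ c₀, fun x _ c hc => ?_⟩
        rw [hp] at hc
        rw [hc.unique hc₀]
      · refine ⟨0, fun x _ c hc => ?_⟩
        rw [hp] at hc
        exact absurd ⟨c, hc⟩ hf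
    · refine ⟨B (e f), fun x hx d hd => hx c (e f) d ?_⟩
      unfold Place.At at hd ⊢
      rw [Place.vanishes_iff_or] at hd ⊢
      have h1 : ∀ g : L i, g ∈ (Φ x i).ring ↔ e g ∈ (x c).ring := by
        intro g
        rw [he, ValuationSubring.mem_comap]
        rfl
      rw [h1, map_inv₀, map_sub, AlgHom.commutes] at hd
      rcases hd with hd | hd
      · left
        have h2 := congrArg e hd
        rwa [map_sub, AlgHom.commutes, map_zero] at h2
      · exact Or.inr hd
  choose b hb using key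
  exact ⟨b, fun x hx i f c hc => hb i f x hx c hc⟩

end Auto

section Push

variable {F : Type} [Field F] [Algebra QQ F] {ι : Type} {L : ι → Type} [∀ i, Field (L i)]
  [∀ i, Algebra QQ (L i)]

/-- the morphism with two variable coordinates -/
def two (a : ∀ i, Place QQ (L i)) (i j : ι) (g : Place QQ F → Place QQ (L i))
    (g' : Place QQ F → Place QQ (L j)) (b : Bool → Place QQ F) : ∀ i, Place QQ (L i) :=
  Function.update (Function.update a i (g (b false))) j (g' (b true))

theorem two_isMor (a : ∀ i, Place QQ (L i)) {i j : ι} (hij : i ≠ j) {f : L i →ₐ[QQ] F}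
    {f' : L j →ₐ[QQ] F} {g : Place QQ F → Place QQ (L i)} {g' : Place QQ F → Place QQ (L j)}
    (hg : ∀ v, (g v).ring = v.ring.comap (f : L i →+* F))
    (hg' : ∀ v, (g' v).ring = v.ring.comap (f' : L j →+* F)) :
    IsMor (L := fun _ : Bool => F) (two a i j g g') := by
  intro l
  by_cases hl : l = j
  · subst hl
    right
    refine ⟨true, f', fun b => ?_⟩
    rw [two, Function.update_self]
    exact hg' (b true)
  · by_cases hl' : l = i
    · subst hl'
      right
      refine ⟨false, f, fun b => ?_⟩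
      rw [two, Function.update_of_ne hl, Function.update_self]
      exact hg (b false)
    · left
      refine ⟨a l, fun b => ?_⟩
      rw [two, Function.update_of_ne hl, Function.update_of_ne hl']

/-- the image of `(x - y) × (x - y)` -/
theorem two_square (a : ∀ i, Place QQ (L i)) {i j : ι} (hij : i ≠ j)
    {g : Place QQ F → Place QQ (L i)} {g' : Place QQ F → Place QQ (L j)} {x y : Place QQ F}
    {x' : ∀ i, Place QQ (L i)} (hi : x' i = g y) (hj : x' j = g' y) :
    (square x y).mapDomain (two a i j g g') =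
      mix (two a i j g g' fun _ => x) x' i j := by
  rw [map_square, mix, hi, hj]
  have h1 : Function.update (two a i j g g' fun _ => x) i (g y) =
      two a i j g g' (pair (L := fun _ => F) y x) := by
    simp only [two, pair]
    rw [Function.update_comm hij, Function.update_idem]
    rw [Function.update_comm hij]
  have h2 : Function.update (two a i j g g' fun _ => x) j (g' y) =
      two a i j g g' (pair (L := fun _ => F) x y) := by
    simp only [two, pair]
    rw [Function.update_idem]
  have h3 : Function.update (Function.update (two a i j g g' fun _ => x) i (g y)) j (g' y) =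
      two a i j g g' (pair (L := fun _ => F) y y) := by
    rw [h1]
    simp only [two, pair]
    rw [Function.update_idem]
  have h4 : (pair (L := fun _ => F) x x) = fun _ => x := by
    funext b
    cases b <;> rfl
  rw [h3, h2, h1, h4]
  abel

end Push

end Pool.Agent.Clo
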