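import Pool.Agent.Clo.New2
import Pool.Agent.Dess.Final

/-!
# The kernel of the Albanese map is generated by the cycles `(x - σ x) × (y - σ y)`
-/

set_option autoImplicit false

noncomputable section

namespace Pool.Agent.Clo

open Pool.Agent.ZCyc Pool.Agent.Dess Pool.Agent.Dess4
open scoped Classical

section Two

variable {F : Type} [Field F] [Algebra QQ F] {ι : Type} {L : ι → Type} [∀ i, Field (L i)]
  [∀ i, Algebra QQ (L i)]

theorem two_fst (a : ∀ i, Place QQ (L i)) {i j : ι} (hij : i ≠ j)
    (g : Place QQ F → Place QQ (L i)) (g' : Place QQ F → Place QQ (L j))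
    (b : Bool → Place QQ F) : two a i j g g' b i = g (b false) := by
  rw [two, Function.update_of_ne hij, Function.update_self]

theorem two_snd (a : ∀ i, Place QQ (L i)) {i j : ι}
    (g : Place QQ F → Place QQ (L i)) (g' : Place QQ F → Place QQ (L j))
    (b : Bool → Place QQ F) : two a i j g g' b j = g' (b true) := by
  rw [two, Function.update_self]

theorem two_corner (a : ∀ i, Place QQ (L i)) {i j : ι} (hij : i ≠ j)
    (g : Place QQ F → Place QQ (L i)) (g' : Place QQ F → Place QQ (L j)) (x y : Place QQ F) :
    Function.update (Function.update (two a i j g g' fun _ => x) i (g y)) j (g' y) =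
      two a i j g g' fun _ => y := by
  simp only [two]
  rw [Function.update_comm hij.symm (g' x) (g y) (Function.update a i (g x)),
    Function.update_idem, Function.update_idem]

/-- the cycles which are the image of `(P - O) × (P - O)` -/
theorem two_gen [Finite ι] {𝒦 : IntermediateField ℚ QQ → Prop} (h𝒦 : Orb 𝒦)
    (hL : ∀ i, IsCurve QQ (L i)) (hF : IsCurve QQ F) {P O : Place QQ F}
    (hPO : P ≠ O) (a : ∀ i, Place QQ (L i)) {i j : ι} (hij : i ≠ j) {f : L i →ₐ[QQ] F}
    {f' : L j →ₐ[QQ] F} {g : Place QQ F → Place QQ (L i)} {g' : Place QQ F → Place QQ (L j)}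
    (hg : ∀ v, (g v).ring = v.ring.comap (f : L i →+* F))
    (hg' : ∀ v, (g' v).ring = v.ring.comap (f' : L j →+* F)) :
    Gen 𝒦 ((square P O).mapDomain (two a i j g g')) := by
  have hΦ := two_isMor a hij hg hg'
  obtain ⟨φ, y, z, u, r, n1, n2, m, e1, e2, e3, h, hK⟩ := h𝒦 F hF P O hPO
  have htr := h.transc hF
  choose C hC using fun f : F => height_compare hF (f := f) htr 1
  obtain ⟨B, hB⟩ := ht_pull hΦ C
  have hBad := finite_crit hF htr
  refine ⟨2 * (n1 * n2), (n1 + n2) * (n1 + n2), B,
    Nat.mul_pos two_pos (Nat.mul_pos h.n1_pos h.n2_pos), fun K hKK S => ?_⟩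
  obtain ⟨S', hS'⟩ := auto_pull hL hΦ S
  obtain ⟨t, ht1, ht2, ht3⟩ := hK K hKK S' hBad.toFinset
  obtain ⟨s, hmem⟩ : ∃ s : Finset (Place QQ F), ∀ v, v ∈ s ↔ v.At φ t :=
    ⟨(finite_at hF htr t).toFinset, fun v => by simp⟩
  have hfib : IsFibre φ P O n1 n2 t s :=
    { curve := hF
      transc := htr
      ne := h.ne
      pole_p := h.ordp
      pole_q := h.ordq
      n1_pos := h.n1_pos
      n2_pos := h.n2_pos
      reg := h.reg
      mem := hmem
      unif := by
        intro v hv
        by_contra hu
        exact ht1 (hBad.mem_toFinset.2 ⟨v, hv, hu⟩) }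
  have hht : ∀ x ∈ s, HtLe B (two a i j g g' fun _ => x) := by
    intro x hx
    exact hB (fun _ => x) fun _ f c hc => hC f x c t hc ((hmem x).1 hx) ht2
  refine ⟨(s ×ˢ s).val.map fun z => (square z.1 z.2).mapDomain (two a i j g g'), ?_, ?_, ?_⟩
  · rw [Multiset.card_map, Finset.card_val, Finset.card_product, hfib.card]
  · intro w hw
    obtain ⟨⟨x, x'⟩, hx, rfl⟩ := Multiset.mem_map.1 hw
    rw [Finset.mem_val, Finset.mem_product] at hx
    obtain ⟨ρ, r, hρ, hfix, hmov⟩ := ht3 x x' ((hmem x).1 hx.1) ((hmem x').1 hx.2)
    obtain ⟨e, he, hm⟩ := hS' ρ r hfix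
    obtain ⟨y', hy'⟩ : ∃ y' : ∀ l, Place QQ (L l), ∀ l,
        Moves (e l) (two a i j g g' (fun _ => x) l) (y' l) :=
      ⟨fun l => act (e l) (he l).2 (two a i j g g' (fun _ => x) l), fun l => moves_act _ _⟩
    have hi : y' i = g x' := by
      refine moves_right (hy' i) ?_
      have h1 := hm i ⟨false, f, fun b => by rw [two_fst a hij]; exact hg _⟩ x x' hmov
      rwa [two_fst a hij (b := fun _ => x')] at h1
    have hj : y' j = g' x' := by
      refine moves_right (hy' j) ?_
      have h1 := hm j ⟨true, f', fun b => by rw [two_snd]; exact hg' _⟩ x x' hmov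
      rwa [two_snd (b := fun _ => x')] at h1
    refine ⟨ρ, e, two a i j g g' fun _ => x, y', i, j, hρ, he, hy', hij, hht x hx.1, ?_,
      Or.inl ?_⟩
    · rw [hi, hj, two_corner a hij]
      exact hht x' hx.2
    · exact two_square a hij hi hj
  · have h1 : ((s ×ˢ s).val.map fun z => (square z.1 z.2).mapDomain (two a i j g g')).sum =
        (2 • zt s).mapDomain (two a i j g g') := by
      rw [zt_square, ← Finset.sum_product']
      exact (Finsupp.mapDomain_finsetSum).symm
    have h2 := map_mem (two a i j g g') hΦ
      (AddSubgroup.nsmul_mem (RatEq fun _ : Bool => F) hfib.zt_ratEq 2)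
    have h3 : (2 • (zt s - (n1 * n2) • square P O)).mapDomain (two a i j g g') =
        (2 • zt s).mapDomain (two a i j g g') -
          (2 * (n1 * n2)) • (square P O).mapDomain (two a i j g g') := by
      have e : ∀ w : (Bool → Place QQ F) →₀ ℤ, w.mapDomain (two a i j g g') =
        Finsupp.mapDomain.addMonoidHom (M := ℤ) (two a i j g g') w := fun _ => rfl
      rw [e, e, e, ← map_nsmul, ← map_sub, smul_sub, smul_smul]
    rw [h1, ← h3]
    exact h2

end Two

section Main

variable {ι : Type} {L : ι → Type} [∀ i, Field (L i)] [∀ i, Algebra QQ (L i)]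
  {𝒦 : IntermediateField ℚ QQ → Prop}

theorem symbol_gen [Finite ι] (h𝒦 : Orb 𝒦) (hL : ∀ i, IsCurve QQ (L i)) {i j : ι} (hij : i ≠ j)
    (a : ∀ l, Place QQ (L l)) {p : Place QQ (L i)} {q : Place QQ (L j)} (hp : a i ≠ p)
    (hq : a j ≠ q) :
    Gen 𝒦 (Finsupp.single a (1 : ℤ) - Finsupp.single (Function.update a i p) 1 -
        Finsupp.single (Function.update a j q) 1 +
        Finsupp.single (Function.update (Function.update a i p) j q) 1) := by
  let s : Bool → ι := fun b => cond b j i
  let A : ∀ b, Place QQ (L (s b)) := fun b => a (s b)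
  let B : ∀ b, Place QQ (L (s b)) := fun b => match b with
    | true => q
    | false => p
  obtain ⟨F, _, _, F₀, P, O, f, hF, hgen, hact, hP, hO⟩ := joint (fun b => L (s b))
    (fun b => hL (s b)) A B (by rintro (_ | _); exacts [hp, hq])
  have hPO : P ≠ O := by
    intro hPO
    apply hp
    apply Place.ext
    have h1 := hP false
    have h2 := hO false
    rw [hPO, h2] at h1
    exact h1.symm
  have hpull : ∀ (b : Bool) (v : Place QQ F), ∃ w : Place QQ (L (s b)),
      v.ring.comap (f b : L (s b) →+* F) = w.ring := fun b v =>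
    exists_pull (hL (s b)) hF (RingEquiv.refl QQ) (f b : L (s b) →+* F)
      (fun c => (f b).commutes c) v
  choose g hg using hpull
  have hgP0 : g false P = a i := Place.ext ((hg false P).symm.trans (hP false))
  have hgP1 : g true P = a j := Place.ext ((hg true P).symm.trans (hP true))
  have hgO0 : g false O = p := Place.ext ((hg false O).symm.trans (hO false))
  have hgO1 : g true O = q := Place.ext ((hg true O).symm.trans (hO true))
  have h0 := two_gen h𝒦 hL hF hPO a hij (f := f false) (f' := f true) (g := g false)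
    (g' := g true) (fun v => (hg false v).symm) (fun v => (hg true v).symm)
  have h1 : two a i j (g false) (g true) (pair (L := fun _ => F) P P) = a := by
    simp only [two, pair, hgP0, hgP1, Function.update_eq_self]
  have h2 : two a i j (g false) (g true) (pair (L := fun _ => F) P O) =
      Function.update a j q := by
    simp only [two, pair, hgP0, hgO1, Function.update_eq_self]
  have h3 : two a i j (g false) (g true) (pair (L := fun _ => F) O P) =
      Function.update a i p := by
    simp only [two, pair, hgO0, hgP1]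
    rw [Function.update_comm hij, Function.update_eq_self]
  have h4 : two a i j (g false) (g true) (pair (L := fun _ => F) O O) =
      Function.update (Function.update a i p) j q := by
    simp only [two, pair, hgO0, hgO1]
  have h5 : Finsupp.single a (1 : ℤ) - Finsupp.single (Function.update a i p) 1 -
      Finsupp.single (Function.update a j q) 1 +
      Finsupp.single (Function.update (Function.update a i p) j q) 1 =
      (square P O).mapDomain (two a i j (g false) (g true)) := by
    rw [map_square, h1, h2, h3, h4]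
    abel
  rw [h5]
  exact h0

theorem albKer_gen [Fintype ι] (h𝒦 : Orb 𝒦) (hL : ∀ i, IsCurve QQ (L i))
    {z : (∀ i, Place QQ (L i)) →₀ ℤ} (hz : AlbKer L z) : Gen 𝒦 z := by
  rw [← mem_genGroup]
  refine of_symbols (T := genGroup 𝒦) (fun w hw => gen_of_mem hw) ?_ hz
  intro i j hij a p q
  by_cases hp : a i = p
  · have h0 : Finsupp.single a (1 : ℤ) - Finsupp.single (Function.update a i p) 1 -
        Finsupp.single (Function.update a j q) 1 +
        Finsupp.single (Function.update (Function.update a i p) j q) 1 = 0 := by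
      rw [← hp, Function.update_eq_self]
      abel
    rw [h0]
    exact zero_mem _
  by_cases hq : a j = q
  · have h0 : Finsupp.single a (1 : ℤ) - Finsupp.single (Function.update a i p) 1 -
        Finsupp.single (Function.update a j q) 1 +
        Finsupp.single (Function.update (Function.update a i p) j q) 1 = 0 := by
      rw [← hq, Function.update_eq_self, Function.update_comm hij, Function.update_eq_self]
      abel
    rw [h0]
    exact zero_mem _
  exact symbol_gen h𝒦 hL hij a hp hq

/-- the mixed differences are in the kernel of the Albanese map -/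
theorem albKer_mix (x x' : ∀ i, Place QQ (L i)) {i j : ι} (hij : i ≠ j) :
    AlbKer L (mix x x' i j) := by
  refine ⟨?_, fun l => ?_⟩
  · have e : ∀ u : (∀ i, Place QQ (L i)) →₀ ℤ, (u.sum fun _ n => n) =
        Finsupp.liftAddHom (fun _ => AddMonoidHom.id ℤ) u := by
      intro u
      rw [Finsupp.liftAddHom_apply]
      rfl
    rw [e, mix, map_add, map_sub, map_sub]
    simp
  · have h0 : ((mix x x' i j).mapDomain fun p (_ : Unit) => p l) = 0 := by
      have e : ∀ w : (∀ i, Place QQ (L i)) →₀ ℤ, (w.mapDomain fun p (_ : Unit) => p l) =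
        Finsupp.mapDomain.addMonoidHom (M := ℤ)
          (fun (p : ∀ i, Place QQ (L i)) (_ : Unit) => p l) w := fun _ => rfl
      rw [mix, e, map_add, map_sub, map_sub, ← e, ← e, ← e, ← e, Finsupp.mapDomain_single,
        Finsupp.mapDomain_single, Finsupp.mapDomain_single, Finsupp.mapDomain_single]
      by_cases hli : l = i
      · subst hli
        rw [Function.update_of_ne hij, Function.update_of_ne hij]
        abel
      · rw [Function.update_of_ne hli]
        by_cases hlj : l = j
        · subst hlj
          rw [Function.update_self, Function.update_self]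
          abel
        · rw [Function.update_of_ne hlj, Function.update_of_ne hlj, Function.update_of_ne hli]
          abel
    rw [h0]
    exact zero_mem _

theorem albKer_add {z z' : (∀ i, Place QQ (L i)) →₀ ℤ} (h : AlbKer L z) (h' : AlbKer L z') :
    AlbKer L (z + z') := by
  refine ⟨?_, fun i => ?_⟩
  · rw [Finsupp.sum_add_index' (fun _ => rfl) fun _ _ _ => rfl, h.1, h'.1, add_zero]
  · rw [Finsupp.mapDomain_add]
    exact add_mem (h.2 i) (h'.2 i)

theorem albKer_neg {z : (∀ i, Place QQ (L i)) →₀ ℤ} (h : AlbKer L z) : AlbKer L (-z) := by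
  refine ⟨?_, fun i => ?_⟩
  · rw [Finsupp.sum_neg_index (fun _ => rfl), Finsupp.sum_neg, h.1, neg_zero]
  · have e : ∀ w : (∀ i, Place QQ (L i)) →₀ ℤ, (w.mapDomain fun p (_ : Unit) => p i) =
        Finsupp.mapDomain.addMonoidHom (M := ℤ)
          (fun (p : ∀ i, Place QQ (L i)) (_ : Unit) => p i) w := fun _ => rfl
    rw [e, map_neg]
    exact neg_mem (h.2 i)

/-- sums of new cycles are in the kernel of the Albanese map, modulo rational equivalence -/
theorem albKer_of_new {K : IntermediateField ℚ QQ} {S : ∀ i, Finset (L i)}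
    {E : Set (∀ i, Place QQ (L i))} {z : (∀ i, Place QQ (L i)) →₀ ℤ} {m : ℕ}
    {l : Multiset ((∀ i, Place QQ (L i)) →₀ ℤ)} (hl : ∀ g ∈ l, IsNew K S E g)
    (hr : l.sum - m • z ∈ RatEq L) : AlbKer L (m • z) := by
  have h1 : ∀ l : Multiset ((∀ i, Place QQ (L i)) →₀ ℤ), (∀ g ∈ l, IsNew K S E g) →
      AlbKer L l.sum := by
    intro l
    induction l using Multiset.induction_on with
    | empty =>
      intro _
      rw [Multiset.sum_zero]
      exact ratEq_albKer (zero_mem _)
    | cons g l ih =>
      intro hl
      rw [Multiset.sum_cons]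
      refine albKer_add ?_ (ih fun g' hg' => hl g' (Multiset.mem_cons_of_mem hg'))
      obtain ⟨ρ, r, x, x', i, j, -, -, -, hij, -, -, hg⟩ := hl g (Multiset.mem_cons_self g l)
      rcases hg with hg | hg
      · rw [hg]
        exact albKer_mix x x' hij
      · rw [hg]
        exact albKer_neg (albKer_mix x x' hij)
  have h2 := albKer_add (h1 l hl) (albKer_neg (ratEq_albKer hr))
  have h3 : l.sum + -(l.sum - m • z) = m • z := by abel
  rwa [h3] at h2

end Main

end Pool.Agent.Clo
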