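import Pool.Agent.Clo.ArFib
import Pool.Agent.Clo.Defs
import Pool.Agent.Clo.ArUnit
import Pool.Agent.Clo.ArVal
import Pool.Agent.Clo.ArOrb
import Pool.Agent.Clo.ArUnr
import Pool.Agent.Clo.ArAlm
import Pool.Agent.Clo.ArNear
import Pool.Agent.Clo.ArLift
import Pool.Agent.Clo.ArCount
import Pool.Agent.Clo.ArHt
import Pool.Agent.Dess.Tuple
import Pool.Agent.Dess4.Bel

/-!
# Irreducible fibres

Let `φ` be a function with two poles `p`, `q` of orders `n1`, `n2`, and with a zero of order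
`m > n1, n2`. There is an algebraic number `t` of height at most one, such that the Galois group
of a given number field acts transitively on the fibre `φ = t`.

Let `t ^ k = l' / l` with large primes `l`, `l'`. At a place above `l` the orbit of every point of
the fibre has at least `n1` or at least `n2` elements, because `φ` is totally ramified at `p`
and `q`; at a place above `l'` there is a point with at least `m` conjugates, because `φ` is
ramified of order `m` at `r`. The fibre has at most `n1 + n2 < m + min n1 n2` elements.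
-/

set_option autoImplicit false

noncomputable section

namespace Pool.Agent.Clo

open Pool.Agent.ZCyc Pool.Agent.Dess Pool.Agent.Dess4

variable {F : Type} [Field F] [Algebra QQ F]

/-- conjugate points over the field `L(t)` -/
private def OrbRel (S : Finset F) (L : IntermediateField ℚ QQ) (t : QQ) (x x' : Place QQ F) :
    Prop :=
  ∃ (ρ : Gam) (r : F ≃+* F), (∀ c ∈ L, ρ c = c) ∧ ρ t = t ∧ Fixes S ρ r ∧ Moves r x x'

private lemma orbRel_symm {S : Finset F} {L : IntermediateField ℚ QQ} {t : QQ}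
    {x x' : Place QQ F} (h : OrbRel S L t x x') : OrbRel S L t x' x := by
  obtain ⟨ρ, r, h1, h2, h3, h4⟩ := h
  refine ⟨ρ.symm, r.symm, fun c hc => ?_, ?_, ⟨fun s hs => ?_, fun c => ?_⟩, ?_⟩
  · rw [AlgEquiv.symm_apply_eq, h1 c hc]
  · rw [AlgEquiv.symm_apply_eq, h2]
  · rw [RingEquiv.symm_apply_eq, h3.1 s hs]
  · rw [RingEquiv.symm_apply_eq, h3.2, AlgEquiv.apply_symm_apply]
  · unfold Moves at *
    ext f
    have e1 : f ∈ x.ring.comap (r.symm : F →+* F) ↔ r.symm f ∈ x.ring :=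
      ValuationSubring.mem_comap
    have e2 : r.symm f ∈ x'.ring.comap (r : F →+* F) ↔ r (r.symm f) ∈ x'.ring :=
      ValuationSubring.mem_comap
    rw [e1, ← h4, e2, RingEquiv.apply_symm_apply]

private lemma orbRel_trans {S : Finset F} {L : IntermediateField ℚ QQ} {t : QQ}
    {x x' x'' : Place QQ F} (h : OrbRel S L t x x') (h' : OrbRel S L t x' x'') :
    OrbRel S L t x x'' := by
  obtain ⟨ρ, r, h1, h2, h3, h4⟩ := h
  obtain ⟨ρ', r', h1', h2', h3', h4'⟩ := h'
  refine ⟨ρ.trans ρ', r.trans r', fun c hc => ?_, ?_, ⟨fun s hs => ?_, fun c => ?_⟩, ?_⟩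
  · rw [AlgEquiv.trans_apply, h1 c hc, h1' c hc]
  · rw [AlgEquiv.trans_apply, h2, h2']
  · rw [RingEquiv.trans_apply, h3.1 s hs, h3'.1 s hs]
  · rw [RingEquiv.trans_apply, h3.2, h3'.2, AlgEquiv.trans_apply]
  · unfold Moves at *
    ext f
    have e1 : f ∈ x''.ring.comap ((r.trans r' : F ≃+* F) : F →+* F) ↔ r' (r f) ∈ x''.ring :=
      ValuationSubring.mem_comap
    have e2 : r f ∈ x''.ring.comap (r' : F →+* F) ↔ r' (r f) ∈ x''.ring :=
      ValuationSubring.mem_comap
    have e3 : f ∈ x'.ring.comap (r : F →+* F) ↔ r f ∈ x'.ring := ValuationSubring.mem_comap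
    rw [e1, ← e2, h4', ← e3, h4]

private lemma orbRel_at {S : Finset F} {L : IntermediateField ℚ QQ} {t : QQ}
    {x x' : Place QQ F} (h : OrbRel S L t x x') {φ : F} (hφ : φ ∈ S) (hx : x.At φ t) :
    x'.At φ t := by
  obtain ⟨ρ, r, h1, h2, h3, h4⟩ := h
  have h5 := (tuple_at h4 ρ h3.2 φ t).1 hx
  have h6 : (r : F →+* F) φ = φ := h3.1 φ hφ
  rwa [h6, h2] at h5

/-- a point has at least as many conjugates as its value at a function -/
private lemma orbRel_card (hF : IsCurve QQ F) {S : Finset F} {L : IntermediateField ℚ QQ} {t : QQ}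
    {φ ψ : F} (hφ : φ ∈ S) (hψ : ψ ∈ S)
    (hlift : ∀ ρ : Gam, (∀ c ∈ L, ρ c = c) → ∃ r : F ≃+* F, Fixes S ρ r)
    (hfin : {x : Place QQ F | x.At φ t}.Finite) {x : Place QQ F} {a : QQ} (hx : x.At φ t)
    (ha : x.At ψ a) {n : ℕ}
    (hn : n ≤ {b : QQ | ∃ ρ : Gam, (∀ c ∈ L, ρ c = c) ∧ ρ t = t ∧ ρ a = b}.ncard) :
    n ≤ {x' : Place QQ F | OrbRel S L t x x'}.ncard := by
  have h1 : ∀ b ∈ {b : QQ | ∃ ρ : Gam, (∀ c ∈ L, ρ c = c) ∧ ρ t = t ∧ ρ a = b},
      ∃ x' : Place QQ F, OrbRel S L t x x' ∧ x'.At ψ b := by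
    rintro b ⟨ρ, h1, h2, rfl⟩
    obtain ⟨r, hr⟩ := hlift ρ h1
    obtain ⟨x', hx', hat⟩ := exists_move hF ρ r hr.2 x
    refine ⟨x', ⟨ρ, r, h1, h2, hr, hx'⟩, ?_⟩
    have := (hat ψ a).1 ha
    rwa [hr.1 ψ hψ] at this
  have : Nonempty (Place QQ F) := ⟨x⟩
  choose! g hg1 hg2 using h1
  refine hn.trans (Set.ncard_le_ncard_of_injOn g (fun b hb => hg1 b hb) ?_ (hfin.subset ?_))
  · intro b hb b' hb' e
    exact (hg2 b hb).unique (e ▸ hg2 b' hb')
  · intro x' hx'
    exact orbRel_at hx' hφ hx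

/-- values of an element and its inverse -/
private lemma orb_val {W : ValuationSubring QQ} {s T : QQ} (h0 : T ≠ 0) (h1 : s / T ∈ W)
    (h2 : T / s ∈ W) (hs : s ≠ 0) : W.valuation s = W.valuation T := by
  have e1 := (W.valuation_le_one_iff _).2 h1
  have e2 := (W.valuation_le_one_iff _).2 h2
  rw [map_div₀] at e1 e2
  have p1 : 0 < W.valuation T := zero_lt_iff.2 ((Valuation.ne_zero_iff _).2 h0)
  have p2 : 0 < W.valuation s := zero_lt_iff.2 ((Valuation.ne_zero_iff _).2 hs)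
  rw [div_le_one₀ p1] at e1
  rw [div_le_one₀ p2] at e2
  exact le_antisymm e1 e2

/-- the number of conjugates, in terms of values -/
private lemma orb_conj (W : ValuationSubring QQ) (L : IntermediateField ℚ QQ) {π t T a : QQ}
    (hπ0 : π ≠ 0) (hπ : π ∈ W.nonunits)
    (hL : ∀ c ∈ L, c ≠ 0 → ∃ m : ℤ, W.valuation c = W.valuation π ^ m) {k n e : ℕ} (hk : 0 < k)
    (hn : 0 < n) (hT : W.valuation T ^ k * W.valuation π = 1) (hTk : T ^ k ∈ L)
    (hTt : T = t ∨ T = t⁻¹) (haW : a ∉ W) (hTW : T ∉ W)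
    (ha : a ^ n / T ^ e ∈ W ∧ T ^ e / a ^ n ∈ W) (hen : Nat.Coprime e n) :
    n ≤ {b : QQ | ∃ ρ : Gam, (∀ c ∈ L, ρ c = c) ∧ ρ t = t ∧ ρ a = b}.ncard := by
  have ha0 : a ≠ 0 := by
    rintro rfl
    exact haW (zero_mem _)
  have hT0 : T ≠ 0 := by
    rintro rfl
    exact hTW (zero_mem _)
  have h1 := orb_val (pow_ne_zero e hT0) ha.1 ha.2 (pow_ne_zero n ha0)
  rw [map_pow, map_pow] at h1
  have h2 := power_independent W L hπ0 hπ hL hk hn hT h1 hen
  have h3 := conj_card L hk hTk h2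
  have h4 : {b : QQ | ∃ ρ : Gam, (∀ c ∈ L, ρ c = c) ∧ ρ T = T ∧ ρ a = b} =
      {b : QQ | ∃ ρ : Gam, (∀ c ∈ L, ρ c = c) ∧ ρ t = t ∧ ρ a = b} := by
    ext b
    simp only [Set.mem_ofPred_eq]
    apply exists_congr
    intro ρ
    have : ρ T = T ↔ ρ t = t := by
      rcases hTt with rfl | rfl
      · rfl
      · rw [map_inv₀, inv_inj]
    rw [this]
  rwa [h4] at h3

theorem one_orbit (hF : IsCurve QQ F) {φ y z u : F} {p q r : Place QQ F}
    {n1 n2 m e1 e2 e3 : ℕ} (h : Fib φ y z u p q r n1 n2 m e1 e2 e3) (S : Finset F)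
    (Bad : Finset QQ) : ∃ t : QQ, t ∉ Bad ∧ NumberField.absLogHeight₁ t ≤ 1 ∧
      ∀ x x' : Place QQ F, x.At φ t → x'.At φ t → ∃ (ρ : Gam) (r : F ≃+* F),
        Fixes S ρ r ∧ Moves r x x' := by
  classical
  have hm : 0 < m := lt_trans h.n1_pos h.lt1
  -- poles
  have hφp : φ ∉ p.ring := two_notMem h.phi_ne h.n1_pos h.ordp
  have hφq : φ ∉ q.ring := two_notMem h.phi_ne h.n2_pos h.ordq
  have hyp : y ∉ p.ring := two_notMem h.y_ne h.e1_pos h.y_ord
  have hzq : z ∉ q.ring := two_notMem h.z_ne h.e2_pos h.z_ord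
  have hur : u ∉ r.ring := two_notMem h.u_ne h.e3_pos h.u_ord
  have hφi : HasOrd r φ⁻¹ (-(m : ℤ)) := by
    obtain ⟨ϖ, hϖ, g1, g2⟩ := h.ordr
    have e : φ⁻¹ / ϖ ^ (-(m : ℤ)) = (φ / ϖ ^ (m : ℤ))⁻¹ := by
      rw [zpow_neg, div_inv_eq_mul, inv_div, mul_comm, div_eq_mul_inv]
    refine ⟨ϖ, hϖ, ?_, ?_⟩
    · rw [e]
      exact g2
    · rw [e, inv_inv]
      exact g1
  have hφir : φ⁻¹ ∉ r.ring := two_notMem (inv_ne_zero h.phi_ne) hm hφi
  have hyzp : y + z ∉ p.ring := by
    intro hc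
    apply hyp
    have := sub_mem hc (h.z_reg p h.ne)
    rwa [add_sub_cancel_right] at this
  have hyzq : y + z ∉ q.ring := by
    intro hc
    apply hzq
    have := sub_mem hc (h.y_reg q h.ne.symm)
    rwa [add_sub_cancel_left] at this
  -- the finite set of constants
  set S' : Finset F := S ∪ {φ, y, z, u} with hS'
  have hφS : φ ∈ S' := by simp [hS']
  have hyS : y ∈ S' := by simp [hS']
  have hzS : z ∈ S' := by simp [hS']
  have huS : u ∈ S' := by simp [hS']
  obtain ⟨C1, hC1⟩ := exists_lift hF S'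
  obtain ⟨C2, hC2⟩ := exists_bound_set hF (g := y + z) (f := φ) (bel_transc hyzp) (by
    intro v hv
    apply h.reg
    · rintro rfl
      exact hyzp hv
    · rintro rfl
      exact hyzq hv)
  obtain ⟨C3, hC3⟩ := unit_of_orders hF h.n1_pos h.e1_pos h.ordp h.y_ord h.y_reg (by
    intro v hvp hv
    have : v = q := by
      by_contra hvq
      exact hv (h.reg v hvp hvq)
    rw [this]
    exact h.y_van)
  obtain ⟨C4, hC4⟩ := unit_of_orders hF h.n2_pos h.e2_pos h.ordq h.z_ord h.z_reg (by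
    intro v hvq hv
    have : v = p := by
      by_contra hvp
      exact hv (h.reg v hvp hvq)
    rw [this]
    exact h.z_van)
  obtain ⟨C5, hC5⟩ := unit_of_orders hF hm h.e3_pos hφi h.u_ord h.u_reg (by
    intro v hvr hv
    apply h.u_van v hvr
    rw [v.vanishes_iff_or]
    exact Or.inr hv)
  obtain ⟨C6, hC6⟩ := exists_near hF (s := φ⁻¹) (u := u) (bel_transc hφir) (bel_transc hur) (by
    intro v hv
    apply h.u_reg
    rintro rfl
    exact hφir hv)
  set C : Finset QQ := C1 ∪ C2 ∪ C3 ∪ C4 ∪ C5 ∪ C6 ∪ Bad with hC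
  set L : IntermediateField ℚ QQ := IntermediateField.adjoin ℚ (C : Set QQ) with hLdef
  have hfinL : FiniteDimensional ℚ L := by
    have : Finite (C : Set QQ) := C.finite_toSet
    exact IntermediateField.finiteDimensional_adjoin fun x _ =>
      ((AlgebraicClosure.isAlgebraic ℚ).isAlgebraic x).isIntegral
  have hCL : ∀ c ∈ C, c ∈ L := fun c hc => IntermediateField.subset_adjoin ℚ _ hc
  obtain ⟨N1, hN1⟩ := unramified_values L
  obtain ⟨N2, hN2⟩ := mem_almost_all C
  -- the primes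
  obtain ⟨l, hlN, hl⟩ := Nat.exists_infinite_primes (N1 + N2 + 1)
  obtain ⟨l', hlN', hl'⟩ := Nat.exists_infinite_primes (l + 1)
  have hcop : Nat.Coprime l l' := (Nat.coprime_primes hl hl').2 (by omega)
  obtain ⟨W, hW⟩ := exists_over hl
  obtain ⟨W', hW'⟩ := exists_over hl'
  have hl0 : (l : QQ) ≠ 0 := Nat.cast_ne_zero.2 hl.ne_zero
  have hl0' : (l' : QQ) ≠ 0 := Nat.cast_ne_zero.2 hl'.ne_zero
  set k : ℕ := ⌈Real.log (max (l : ℝ) (l' : ℝ))⌉₊ + 1 with hk
  have hk0 : 0 < k := by omega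
  have hk1 : Real.log (max (l : ℝ) (l' : ℝ)) ≤ k := by
    have := Nat.le_ceil (Real.log (max (l : ℝ) (l' : ℝ)))
    rw [hk]
    push_cast
    linarith
  obtain ⟨t, ht⟩ := IsAlgClosed.exists_pow_nat_eq ((l' : QQ) / (l : QQ)) hk0
  have ht0 : t ≠ 0 := by
    rintro rfl
    rw [zero_pow hk0.ne'] at ht
    exact (div_ne_zero hl0' hl0) ht.symm
  have hWC : ∀ c ∈ C, c ∈ W := hN2 l hl (by omega) W hW
  have hWC' : ∀ c ∈ C, c ∈ W' := hN2 l' hl' (by omega) W' hW'
  have hWL := hN1 l hl (by omega) W hW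
  have hWL' := hN1 l' hl' (by omega) W' hW'
  have hval : W.valuation t ^ k * W.valuation (l : QQ) = 1 := by
    rw [← map_pow, ← map_mul, ht, div_mul_cancel₀ _ hl0]
    exact val_coprime hcop W hW
  have hval' : W'.valuation t⁻¹ ^ k * W'.valuation (l' : QQ) = 1 := by
    rw [← map_pow, ← map_mul, inv_pow, ht, inv_div, div_mul_cancel₀ _ hl0']
    exact val_coprime hcop.symm W' hW'
  have hnot : ∀ (V : ValuationSubring QQ) (T π : QQ), π ∈ V.nonunits →
      V.valuation T ^ k * V.valuation π = 1 → T ∉ V := by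
    intro V T π hπ hv hT
    have g1 : V.valuation T ^ k ≤ 1 := pow_le_one' ((V.valuation_le_one_iff _).2 hT) k
    have g2 : V.valuation π < 1 := hπ
    have g3 : V.valuation T ^ k * V.valuation π ≤ V.valuation π := by
      calc V.valuation T ^ k * V.valuation π ≤ 1 * V.valuation π := by gcongr
        _ = V.valuation π := one_mul _
    rw [hv] at g3
    exact absurd g2 (not_lt.2 g3)
  have htW : t ∉ W := hnot W t l hW hval
  have htW' : t⁻¹ ∉ W' := hnot W' t⁻¹ l' hW' hval'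
  have htL : t ^ k ∈ L := by
    rw [ht]
    exact div_mem (natCast_mem L l') (natCast_mem L l)
  have htL' : t⁻¹ ^ k ∈ L := by
    rw [inv_pow]
    exact inv_mem htL
  refine ⟨t, ?_, height_root hk0 hl.pos hl'.pos ht hk1, ?_⟩
  · intro hB
    exact htW (hWC t (by simp [hC, hB]))
  -- lifts
  have hlift : ∀ ρ : Gam, (∀ c ∈ L, ρ c = c) → ∃ r : F ≃+* F, Fixes S' ρ r := by
    intro ρ hρ
    obtain ⟨r, hr1, hr2⟩ := hC1 ρ fun c hc => hρ c (hCL c (by simp [hC, hc]))
    exact ⟨r, hr2, hr1⟩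
  obtain ⟨hfin, hcard⟩ := fiber_count hF h.ne h.phi_ne h.n1_pos h.n2_pos h.ordp h.ordq h.reg t
  -- every orbit is large
  have hmin : ∀ x : Place QQ F, x.At φ t → min n1 n2 ≤ {x' | OrbRel S' L t x x'}.ncard := by
    intro x hx
    have hxp : x ≠ p := by
      rintro rfl
      exact hφp hx.mem
    have hxq : x ≠ q := by
      rintro rfl
      exact hφq hx.mem
    obtain ⟨a, ha⟩ := exists_at hF x (h.y_reg x hxp)
    obtain ⟨b, hb⟩ := exists_at hF x (h.z_reg x hxq)
    have hab : a ∉ W ∨ b ∉ W := by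
      by_contra hc
      push Not at hc
      exact htW (hC2 W (fun c hc => hWC c (by simp [hC, hc])) x (a + b) t (ha.add hb) hx
        (add_mem hc.1 hc.2))
    rcases hab with haW | hbW
    · have g1 := hC3 W (fun c hc => hWC c (by simp [hC, hc])) x t a hx ha htW haW
      have g2 := orb_conj W L hl0 hW hWL hk0 h.n1_pos hval htL (Or.inl rfl) haW htW g1 h.y_cop
      exact (min_le_left _ _).trans (orbRel_card hF hφS hyS hlift hfin hx ha g2)
    · have g1 := hC4 W (fun c hc => hWC c (by simp [hC, hc])) x t b hx hb htW hbW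
      have g2 := orb_conj W L hl0 hW hWL hk0 h.n2_pos hval htL (Or.inl rfl) hbW htW g1 h.z_cop
      exact (min_le_right _ _).trans (orbRel_card hF hφS hzS hlift hfin hx hb g2)
  -- one orbit is very large
  obtain ⟨x₀, a₀, hx₀, ha₀, haW₀⟩ := hC6 W' (fun c hc => hWC' c (by simp [hC, hc])) t⁻¹ htW'
  have hx₀' : x₀.At φ t := by
    have := hx₀.inv (inv_ne_zero ht0)
    rwa [inv_inv, inv_inv] at this
  have hbig : m ≤ {x' | OrbRel S' L t x₀ x'}.ncard := by
    have g1 := hC5 W' (fun c hc => hWC' c (by simp [hC, hc])) x₀ t⁻¹ a₀ hx₀ ha₀ htW' haW₀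
    have g2 := orb_conj W' L hl0' hW' hWL' hk0 hm hval' htL' (Or.inr rfl) haW₀ htW' g1 h.u_cop
    exact orbRel_card hF hφS huS hlift hfin hx₀' ha₀ g2
  have hone : ∀ x : Place QQ F, x.At φ t → OrbRel S' L t x₀ x := by
    intro x hx
    by_contra hne
    have hsub : {x' | OrbRel S' L t x₀ x'} ∪ {x' | OrbRel S' L t x x'} ⊆
        {x : Place QQ F | x.At φ t} := by
      rintro x' (hx' | hx')
      · exact orbRel_at hx' hφS hx₀'
      · exact orbRel_at hx' hφS hx
    have hdis : Disjoint {x' | OrbRel S' L t x₀ x'} {x' | OrbRel S' L t x x'} := by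
      rw [Set.disjoint_left]
      intro x' g1 g2
      exact hne (orbRel_trans g1 (orbRel_symm g2))
    have g3 := Set.ncard_union_eq hdis (hfin.subset (Set.subset_union_left.trans hsub))
      (hfin.subset (Set.subset_union_right.trans hsub))
    have g4 := Set.ncard_le_ncard hsub hfin
    have g5 := hmin x hx
    have g6 := h.lt1
    have g7 := h.lt2
    rcases le_total n1 n2 with g8 | g8
    · rw [min_eq_left g8] at g5
      omega
    · rw [min_eq_right g8] at g5
      omega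
  intro x x' hx hx'
  obtain ⟨ρ, r, -, -, g1, g2⟩ := orbRel_trans (orbRel_symm (hone x hx)) (hone x' hx')
  exact ⟨ρ, r, ⟨fun s hs => g1.1 s (by simp [hS', hs]), g1.2⟩, g2⟩

end Pool.Agent.Clo
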