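import Pool.Agent.Clo.New1
import Pool.Agent.Clo.Orbit
import Pool.Agent.Clo.FibEx

/-!
# Number fields have the property `Orb`
-/

set_option autoImplicit false

noncomputable section

namespace Pool.Agent.Clo

open Pool.Agent.ZCyc Pool.Agent.Dess Pool.Agent.Dess4
open scoped Classical

theorem orb_finite : Orb fun K => FiniteDimensional ℚ K := by
  intro F _ _ hF p q hpq
  obtain ⟨φ, y, z, u, r, n1, n2, m, e1, e2, e3, h⟩ := exists_fib hF hpq
  refine ⟨φ, y, z, u, r, n1, n2, m, e1, e2, e3, h, fun K hK S Bad => ?_⟩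
  obtain ⟨T, hT⟩ : ∃ T : Finset QQ, IntermediateField.adjoin ℚ (T : Set QQ) = K := by
    have h0 : Module.Finite ℚ K.toSubalgebra.toSubmodule :=
      (inferInstance : FiniteDimensional ℚ K)
    have h1 : K.FG := IntermediateField.fg_of_fg_toSubalgebra K
      (Subalgebra.fg_of_fg_toSubmodule (Module.Finite.iff_fg.1 h0))
    exact h1
  obtain ⟨t, ht1, ht2, ht3⟩ := one_orbit hF h (S ∪ T.image (algebraMap QQ F)) Bad
  refine ⟨t, ht1, ht2, fun x x' hx hx' => ?_⟩
  obtain ⟨ρ, r, hr, hm⟩ := ht3 x x' hx hx'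
  refine ⟨ρ, r, ?_, fixes_mono Finset.subset_union_left hr, hm⟩
  have h1 : ∀ c ∈ T, ρ c = c := by
    intro c hc
    have h2 := hr.1 _ (Finset.mem_union_right _ (Finset.mem_image_of_mem (algebraMap QQ F) hc))
    rw [hr.2] at h2
    exact (algebraMap QQ F).injective h2
  intro c hc
  rw [← hT] at hc
  induction hc using IntermediateField.adjoin_induction with
  | mem x hx => exact h1 x hx
  | algebraMap x => exact ρ.commutes x
  | add x y _ _ hx hy => rw [map_add, hx, hy]
  | inv x _ hx => rw [map_inv₀, hx]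
  | mul x y _ _ hx hy => rw [map_mul, hx, hy]

end Pool.Agent.Clo
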