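import Pool.Agent.Clo.ArFib
import Pool.Agent.Clo.Defs
import Pool.Agent.Clo.ArUnit
import Pool.Agent.Clo.ArVal
import Pool.Agent.Clo.ArOrb
import Pool.Agent.Clo.MildDef
import Pool.Agent.Clo.MPow
import Pool.Agent.Clo.MComb
import Pool.Agent.Clo.MHt
import Pool.Agent.Clo.MVal
import Pool.Agent.Clo.ArAlm
import Pool.Agent.Clo.ArNear
import Pool.Agent.Clo.ArLift
import Pool.Agent.Clo.ArCount
import Pool.Agent.Clo.ArHt
import Pool.Agent.Dess.Tuple
import Pool.Agent.Dess4.Bel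

/-!
# Irreducible fibres over large fields

The version of `Orbit.lean` for a field `K` of infinite degree with mild ramification at
infinitely many primes. Let `φ` be a function with two poles `p`, `q` of orders `n1`, `n2`, and
with a zero of order
`m > n1, n2`. There is an algebraic number `t` of height at most one, such that the Galois group
of `K` acts transitively on the fibre `φ = t`.

Let `t ^ k = l' / l` with large primes `l`, `l'`. At a place above `l` the orbit of every point of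
the fibre has at least `n1` or at least `n2` elements, because `φ` is totally ramified at `p`
and `q`; at a place above `l'` there is a point with at least `m` conjugates, because `φ` is
ramified of order `m` at `r`. The fibre has at most `n1 + n2 < m + min n1 n2` elements.
-/

set_option autoImplicit false

noncomputable section

namespace Pool.Agent.Clo

open Pool.Agent.ZCyc Pool.Agent.Dess Pool.Agent.Dess4

variable {F : Type} [Field F] [Algebra QQ F]

/-- conjugate points over the field `L(t)` -/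
private def OrbRel (S : Finset F) (L : IntermediateField ℚ QQ) (t : QQ) (x x' : Place QQ F) :
    Prop :=
  ∃ (ρ : Gam) (r : F ≃+* F), (∀ c ∈ L, ρ c = c) ∧ ρ t = t ∧ Fixes S ρ r ∧ Moves r x x'

private lemma orbRel_symm {S : Finset F} {L : IntermediateField ℚ QQ} {t : QQ}
    {x x' : Place QQ F} (h : OrbRel S L t x x') : OrbRel S L t x' x := by
  obtain ⟨ρ, r, h1, h2, h3, h4⟩ := h
  refine ⟨ρ.symm, r.symm, fun c hc => ?_, ?_, ⟨fun s hs => ?_, fun c => ?_⟩, ?_⟩
  · rw [AlgEquiv.symm_apply_eq, h1 c hc]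
  · rw [AlgEquiv.symm_apply_eq, h2]
  · rw [RingEquiv.symm_apply_eq, h3.1 s hs]
  · rw [RingEquiv.symm_apply_eq, h3.2, AlgEquiv.apply_symm_apply]
  · unfold Moves at *
    ext f
    have e1 : f ∈ x.ring.comap (r.symm : F →+* F) ↔ r.symm f ∈ x.ring :=
      ValuationSubring.mem_comap
    have e2 : r.symm f ∈ x'.ring.comap (r : F →+* F) ↔ r (r.symm f) ∈ x'.ring :=
      ValuationSubring.mem_comap
    rw [e1, ← h4, e2, RingEquiv.apply_symm_apply]

private lemma orbRel_trans {S : Finset F} {L : IntermediateField ℚ QQ} {t : QQ}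
    {x x' x'' : Place QQ F} (h : OrbRel S L t x x') (h' : OrbRel S L t x' x'') :
    OrbRel S L t x x'' := by
  obtain ⟨ρ, r, h1, h2, h3, h4⟩ := h
  obtain ⟨ρ', r', h1', h2', h3', h4'⟩ := h'
  refine ⟨ρ.trans ρ', r.trans r', fun c hc => ?_, ?_, ⟨fun s hs => ?_, fun c => ?_⟩, ?_⟩
  · rw [AlgEquiv.trans_apply, h1 c hc, h1' c hc]
  · rw [AlgEquiv.trans_apply, h2, h2']
  · rw [RingEquiv.trans_apply, h3.1 s hs, h3'.1 s hs]
  · rw [RingEquiv.trans_apply, h3.2, h3'.2, AlgEquiv.trans_apply]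
  · unfold Moves at *
    ext f
    have e1 : f ∈ x''.ring.comap ((r.trans r' : F ≃+* F) : F →+* F) ↔ r' (r f) ∈ x''.ring :=
      ValuationSubring.mem_comap
    have e2 : r f ∈ x''.ring.comap (r' : F →+* F) ↔ r' (r f) ∈ x''.ring :=
      ValuationSubring.mem_comap
    have e3 : f ∈ x'.ring.comap (r : F →+* F) ↔ r f ∈ x'.ring := ValuationSubring.mem_comap
    rw [e1, ← e2, h4', ← e3, h4]

private lemma orbRel_at {S : Finset F} {L : IntermediateField ℚ QQ} {t : QQ}
    {x x' : Place QQ F} (h : OrbRel S L t x x') {φ : F} (hφ : φ ∈ S) (hx : x.At φ t) :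
    x'.At φ t := by
  obtain ⟨ρ, r, h1, h2, h3, h4⟩ := h
  have h5 := (tuple_at h4 ρ h3.2 φ t).1 hx
  have h6 : (r : F →+* F) φ = φ := h3.1 φ hφ
  rwa [h6, h2] at h5

/-- a point has at least as many conjugates as its value at a function -/
private lemma orbRel_card (hF : IsCurve QQ F) {S : Finset F} {L : IntermediateField ℚ QQ} {t : QQ}
    {φ ψ : F} (hφ : φ ∈ S) (hψ : ψ ∈ S)
    (hlift : ∀ ρ : Gam, (∀ c ∈ L, ρ c = c) → ∃ r : F ≃+* F, Fixes S ρ r)
    (hfin : {x : Place QQ F | x.At φ t}.Finite) {x : Place QQ F} {a : QQ} (hx : x.At φ t)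
    (ha : x.At ψ a) {n : ℕ}
    (hn : n ≤ {b : QQ | ∃ ρ : Gam, (∀ c ∈ L, ρ c = c) ∧ ρ t = t ∧ ρ a = b}.ncard) :
    n ≤ {x' : Place QQ F | OrbRel S L t x x'}.ncard := by
  have h1 : ∀ b ∈ {b : QQ | ∃ ρ : Gam, (∀ c ∈ L, ρ c = c) ∧ ρ t = t ∧ ρ a = b},
      ∃ x' : Place QQ F, OrbRel S L t x x' ∧ x'.At ψ b := by
    rintro b ⟨ρ, h1, h2, rfl⟩
    obtain ⟨r, hr⟩ := hlift ρ h1
    obtain ⟨x', hx', hat⟩ := exists_move hF ρ r hr.2 x
    refine ⟨x', ⟨ρ, r, h1, h2, hr, hx'⟩, ?_⟩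
    have := (hat ψ a).1 ha
    rwa [hr.1 ψ hψ] at this
  have : Nonempty (Place QQ F) := ⟨x⟩
  choose! g hg1 hg2 using h1
  refine hn.trans (Set.ncard_le_ncard_of_injOn g (fun b hb => hg1 b hb) ?_ (hfin.subset ?_))
  · intro b hb b' hb' e
    exact (hg2 b hb).unique (e ▸ hg2 b' hb')
  · intro x' hx'
    exact orbRel_at hx' hφ hx

/-- values of an element and its inverse -/
private lemma orb_val {W : ValuationSubring QQ} {s T : QQ} (h0 : T ≠ 0) (h1 : s / T ∈ W)
    (h2 : T / s ∈ W) (hs : s ≠ 0) : W.valuation s = W.valuation T := by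
  have e1 := (W.valuation_le_one_iff _).2 h1
  have e2 := (W.valuation_le_one_iff _).2 h2
  rw [map_div₀] at e1 e2
  have p1 : 0 < W.valuation T := zero_lt_iff.2 ((Valuation.ne_zero_iff _).2 h0)
  have p2 : 0 < W.valuation s := zero_lt_iff.2 ((Valuation.ne_zero_iff _).2 hs)
  rw [div_le_one₀ p1] at e1
  rw [div_le_one₀ p2] at e2
  exact le_antisymm e1 e2

/-- the number of conjugates, in terms of values -/
private lemma orb_conj (W : ValuationSubring QQ) (L : IntermediateField ℚ QQ) {π t T a : QQ}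
    (hπ0 : π ≠ 0) (hπL : π ∈ L) {k n e : ℕ} (hk : 0 < k)
    (hn : 0 < n)
    (hdiv : ∀ p : ℕ, p.Prime → p ∣ k * n → ∀ b ∈ L, W.valuation b ^ p ≠ W.valuation π)
    (hT : W.valuation T ^ k * W.valuation π = 1) (hTk : T ^ k ∈ L)
    (hTt : T = t ∨ T = t⁻¹) (haW : a ∉ W) (hTW : T ∉ W)
    (ha : a ^ n / T ^ e ∈ W ∧ T ^ e / a ^ n ∈ W) (hen : Nat.Coprime e n) :
    n ≤ {b : QQ | ∃ ρ : Gam, (∀ c ∈ L, ρ c = c) ∧ ρ t = t ∧ ρ a = b}.ncard := by
  have ha0 : a ≠ 0 := by
    rintro rfl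
    exact haW (zero_mem _)
  have hT0 : T ≠ 0 := by
    rintro rfl
    exact hTW (zero_mem _)
  have h1 := orb_val (pow_ne_zero e hT0) ha.1 ha.2 (pow_ne_zero n ha0)
  rw [map_pow, map_pow] at h1
  have h2 := power_independent_mild W L hπ0 hπL hk hn hdiv hT h1 hen
  have h3 := conj_card L hk hTk h2
  have h4 : {b : QQ | ∃ ρ : Gam, (∀ c ∈ L, ρ c = c) ∧ ρ T = T ∧ ρ a = b} =
      {b : QQ | ∃ ρ : Gam, (∀ c ∈ L, ρ c = c) ∧ ρ t = t ∧ ρ a = b} := by
    ext b
    simp only [Set.mem_ofPred_eq]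
    apply exists_congr
    intro ρ
    have : ρ T = T ↔ ρ t = t := by
      rcases hTt with rfl | rfl
      · rfl
      · rw [map_inv₀, inv_inj]
    rw [this]
  rwa [h4] at h3

theorem one_orbit_mild (hF : IsCurve QQ F) {φ y z u : F} {p q r : Place QQ F}
    {n1 n2 m e1 e2 e3 : ℕ} (h : Fib φ y z u p q r n1 n2 m e1 e2 e3)
    {K : IntermediateField ℚ QQ} (hK : Mild K) (S : Finset F)
    (Bad : Finset QQ) : ∃ t : QQ, t ∉ Bad ∧ NumberField.absLogHeight₁ t ≤ 1 ∧
      ∀ x x' : Place QQ F, x.At φ t → x'.At φ t → ∃ (ρ : Gam) (r : F ≃+* F),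
        (∀ c ∈ K, ρ c = c) ∧ Fixes S ρ r ∧ Moves r x x' := by
  classical
  have hm : 0 < m := lt_trans h.n1_pos h.lt1
  -- poles
  have hφp : φ ∉ p.ring := two_notMem h.phi_ne h.n1_pos h.ordp
  have hφq : φ ∉ q.ring := two_notMem h.phi_ne h.n2_pos h.ordq
  have hyp : y ∉ p.ring := two_notMem h.y_ne h.e1_pos h.y_ord
  have hzq : z ∉ q.ring := two_notMem h.z_ne h.e2_pos h.z_ord
  have hur : u ∉ r.ring := two_notMem h.u_ne h.e3_pos h.u_ord
  have hφi : HasOrd r φ⁻¹ (-(m : ℤ)) := by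
    obtain ⟨ϖ, hϖ, g1, g2⟩ := h.ordr
    have e : φ⁻¹ / ϖ ^ (-(m : ℤ)) = (φ / ϖ ^ (m : ℤ))⁻¹ := by
      rw [zpow_neg, div_inv_eq_mul, inv_div, mul_comm, div_eq_mul_inv]
    refine ⟨ϖ, hϖ, ?_, ?_⟩
    · rw [e]
      exact g2
    · rw [e, inv_inv]
      exact g1
  have hφir : φ⁻¹ ∉ r.ring := two_notMem (inv_ne_zero h.phi_ne) hm hφi
  have hyzp : y + z ∉ p.ring := by
    intro hc
    apply hyp
    have := sub_mem hc (h.z_reg p h.ne)
    rwa [add_sub_cancel_right] at this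
  have hyzq : y + z ∉ q.ring := by
    intro hc
    apply hzq
    have := sub_mem hc (h.y_reg q h.ne.symm)
    rwa [add_sub_cancel_left] at this
  -- the finite set of constants
  set S' : Finset F := S ∪ {φ, y, z, u} with hS'
  have hφS : φ ∈ S' := by simp [hS']
  have hyS : y ∈ S' := by simp [hS']
  have hzS : z ∈ S' := by simp [hS']
  have huS : u ∈ S' := by simp [hS']
  obtain ⟨C1, hC1⟩ := exists_lift hF S'
  obtain ⟨C2, hC2⟩ := exists_bound_set hF (g := y + z) (f := φ) (bel_transc hyzp) (by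
    intro v hv
    apply h.reg
    · rintro rfl
      exact hyzp hv
    · rintro rfl
      exact hyzq hv)
  obtain ⟨C3, hC3⟩ := unit_of_orders hF h.n1_pos h.e1_pos h.ordp h.y_ord h.y_reg (by
    intro v hvp hv
    have : v = q := by
      by_contra hvq
      exact hv (h.reg v hvp hvq)
    rw [this]
    exact h.y_van)
  obtain ⟨C4, hC4⟩ := unit_of_orders hF h.n2_pos h.e2_pos h.ordq h.z_ord h.z_reg (by
    intro v hvq hv
    have : v = p := by
      by_contra hvp
      exact hv (h.reg v hvp hvq)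
    rw [this]
    exact h.z_van)
  obtain ⟨C5, hC5⟩ := unit_of_orders hF hm h.e3_pos hφi h.u_ord h.u_reg (by
    intro v hvr hv
    apply h.u_van v hvr
    rw [v.vanishes_iff_or]
    exact Or.inr hv)
  obtain ⟨C6, hC6⟩ := exists_near hF (s := φ⁻¹) (u := u) (bel_transc hφir) (bel_transc hur) (by
    intro v hv
    apply h.u_reg
    rintro rfl
    exact hφir hv)
  set C : Finset QQ := C1 ∪ C2 ∪ C3 ∪ C4 ∪ C5 ∪ C6 ∪ Bad with hC
  set L : IntermediateField ℚ QQ := K ⊔ IntermediateField.adjoin ℚ (C : Set QQ) with hLdef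
  have hKL : K ≤ L := le_sup_left
  have hCL : ∀ c ∈ C, c ∈ L := fun c hc =>
    (le_sup_right : IntermediateField.adjoin ℚ (C : Set QQ) ≤ L)
      (IntermediateField.subset_adjoin ℚ _ hc)
  obtain ⟨N1, hN1⟩ := values_sup_mild C
  obtain ⟨N2, hN2⟩ := mem_almost_all C
  -- the primes
  set D : ℕ := n1 * n2 * m with hD
  have hD0 : D ≠ 0 := by
    rw [hD]
    exact (Nat.mul_pos (Nat.mul_pos h.n1_pos h.n2_pos) hm).ne'
  obtain ⟨l, hl, hlN, W, hW, hKW⟩ := hK (N1 + N2 + D)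
  obtain ⟨l', hl', hlN', W', hW', hKW'⟩ := hK (N1 + N2 + D + l)
  have hne : l ≠ l' := by omega
  have hpD : ∀ p : ℕ, p ∣ D → p ≤ D := fun p hp => Nat.le_of_dvd (Nat.pos_of_ne_zero hD0) hp
  obtain ⟨π, hπK, hπ0, hπW, hπd⟩ := exists_indivisible hl hW hD0 fun p hp hpd =>
    hKW p hp ((hpD p hpd).trans (by omega))
  obtain ⟨π', hπK', hπ0', hπW', hπd'⟩ := exists_indivisible hl' hW' hD0 fun p hp hpd =>
    hKW' p hp ((hpD p hpd).trans (by omega))
  obtain ⟨a, haK, ha, ha'⟩ := exists_approx hl hl' hne hW hW' hπK hπ0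
  obtain ⟨a', haK', hb', hb⟩ := exists_approx hl' hl hne.symm hW' hW hπK' hπ0'
  have ha0 : a ≠ 0 := by
    rintro rfl
    rw [map_zero] at ha'
    exact zero_ne_one ha'
  have ha0' : a' ≠ 0 := by
    rintro rfl
    rw [map_zero] at hb
    exact zero_ne_one hb
  have hm2 : m ≠ 1 := by
    have := h.lt1
    have := h.n1_pos
    omega
  set p₀ : ℕ := m.minFac with hp₀
  have hp₀p : p₀.Prime := Nat.minFac_prime hm2
  have hp₀D : p₀ ∣ D := (Nat.minFac_dvd m).trans (Dvd.intro_left _ rfl)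
  set k : ℕ := p₀ ^ (⌈NumberField.absLogHeight₁ (a' / a)⌉₊ + 1) with hk
  have hk0 : 0 < k := pow_pos hp₀p.pos _
  have hk1 : NumberField.absLogHeight₁ (a' / a) ≤ k := by
    have h1 := Nat.le_ceil (NumberField.absLogHeight₁ (a' / a))
    have h2 : ⌈NumberField.absLogHeight₁ (a' / a)⌉₊ + 1 < k := Nat.lt_pow_self hp₀p.one_lt
    have h3 : (⌈NumberField.absLogHeight₁ (a' / a)⌉₊ : ℝ) ≤ (k : ℝ) := by
      exact_mod_cast (by omega : ⌈NumberField.absLogHeight₁ (a' / a)⌉₊ ≤ k)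
    exact h1.trans h3
  have hkn : ∀ n : ℕ, n ∣ D → ∀ p : ℕ, p.Prime → p ∣ k * n → p ∣ D := by
    intro n hn p hp hpk
    rcases hp.dvd_mul.1 hpk with h1 | h1
    · have h2 := hp.dvd_of_dvd_pow h1
      exact h2.trans hp₀D
    · exact h1.trans hn
  obtain ⟨t, ht⟩ := IsAlgClosed.exists_pow_nat_eq (a' / a) hk0
  have ht0 : t ≠ 0 := by
    rintro rfl
    rw [zero_pow hk0.ne'] at ht
    exact (div_ne_zero ha0' ha0) ht.symm
  have hWC : ∀ c ∈ C, c ∈ W := hN2 l hl (by omega) W hW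
  have hWC' : ∀ c ∈ C, c ∈ W' := hN2 l' hl' (by omega) W' hW'
  have hWL := hN1 l hl (by omega) W hW K
  have hWL' := hN1 l' hl' (by omega) W' hW' K
  have hdivL : ∀ n : ℕ, n ∣ D → ∀ p : ℕ, p.Prime → p ∣ k * n →
      ∀ b ∈ L, W.valuation b ^ p ≠ W.valuation π := by
    intro n hn p hp hpk b hb
    by_cases hb0 : b = 0
    · rw [hb0, map_zero, zero_pow hp.ne_zero]
      exact ((Valuation.ne_zero_iff _).2 hπ0).symm
    · obtain ⟨c, hc, hbc⟩ := hWL b hb hb0
      rw [hbc]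
      exact hπd p hp (hkn n hn p hp hpk) c hc
  have hdivL' : ∀ n : ℕ, n ∣ D → ∀ p : ℕ, p.Prime → p ∣ k * n →
      ∀ b ∈ L, W'.valuation b ^ p ≠ W'.valuation π' := by
    intro n hn p hp hpk b hb
    by_cases hb0 : b = 0
    · rw [hb0, map_zero, zero_pow hp.ne_zero]
      exact ((Valuation.ne_zero_iff _).2 hπ0').symm
    · obtain ⟨c, hc, hbc⟩ := hWL' b hb hb0
      rw [hbc]
      exact hπd' p hp (hkn n hn p hp hpk) c hc
  have hval : W.valuation t ^ k * W.valuation π = 1 := by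
    rw [← map_pow, ht, map_div₀, hb, ha, one_div]
    exact inv_mul_cancel₀ ((Valuation.ne_zero_iff _).2 hπ0)
  have hval' : W'.valuation t⁻¹ ^ k * W'.valuation π' = 1 := by
    rw [← map_pow, inv_pow, ht, inv_div, map_div₀, hb', ha', one_div]
    exact inv_mul_cancel₀ ((Valuation.ne_zero_iff _).2 hπ0')
  have hnot : ∀ (V : ValuationSubring QQ) (T π : QQ), π ∈ V.nonunits →
      V.valuation T ^ k * V.valuation π = 1 → T ∉ V := by
    intro V T π hπ hv hT
    have g1 : V.valuation T ^ k ≤ 1 := pow_le_one' ((V.valuation_le_one_iff _).2 hT) k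
    have g2 : V.valuation π < 1 := hπ
    have g3 : V.valuation T ^ k * V.valuation π ≤ V.valuation π := by
      calc V.valuation T ^ k * V.valuation π ≤ 1 * V.valuation π := by gcongr
        _ = V.valuation π := one_mul _
    rw [hv] at g3
    exact absurd g2 (not_lt.2 g3)
  have htW : t ∉ W := hnot W t π hπW hval
  have htW' : t⁻¹ ∉ W' := hnot W' t⁻¹ π' hπW' hval'
  have hπL : π ∈ L := hKL hπK
  have hπL' : π' ∈ L := hKL hπK'
  have htL : t ^ k ∈ L := by
    rw [ht]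
    exact hKL (div_mem haK' haK)
  have htL' : t⁻¹ ^ k ∈ L := by
    rw [inv_pow]
    exact inv_mem htL
  have hd1 : n1 ∣ D := ⟨n2 * m, by rw [hD, mul_assoc]⟩
  have hd2 : n2 ∣ D := ⟨n1 * m, by rw [hD]; ring⟩
  have hd3 : m ∣ D := Dvd.intro_left _ rfl
  refine ⟨t, ?_, ?_, ?_⟩
  · intro hB
    exact htW (hWC t (by simp [hC, hB]))
  · have h1 := ht_pow t k
    rw [ht] at h1
    have h2 : (0 : ℝ) < k := by exact_mod_cast hk0
    rw [h1] at hk1
    have h3 : (k : ℝ) * NumberField.absLogHeight₁ t ≤ k * 1 := by rwa [mul_one]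
    exact le_of_mul_le_mul_left h3 h2
  -- lifts
  have hlift : ∀ ρ : Gam, (∀ c ∈ L, ρ c = c) → ∃ r : F ≃+* F, Fixes S' ρ r := by
    intro ρ hρ
    obtain ⟨r, hr1, hr2⟩ := hC1 ρ fun c hc => hρ c (hCL c (by simp [hC, hc]))
    exact ⟨r, hr2, hr1⟩
  obtain ⟨hfin, hcard⟩ := fiber_count hF h.ne h.phi_ne h.n1_pos h.n2_pos h.ordp h.ordq h.reg t
  -- every orbit is large
  have hmin : ∀ x : Place QQ F, x.At φ t → min n1 n2 ≤ {x' | OrbRel S' L t x x'}.ncard := by
    intro x hx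
    have hxp : x ≠ p := by
      rintro rfl
      exact hφp hx.mem
    have hxq : x ≠ q := by
      rintro rfl
      exact hφq hx.mem
    obtain ⟨a, ha⟩ := exists_at hF x (h.y_reg x hxp)
    obtain ⟨b, hb⟩ := exists_at hF x (h.z_reg x hxq)
    have hab : a ∉ W ∨ b ∉ W := by
      by_contra hc
      push Not at hc
      exact htW (hC2 W (fun c hc => hWC c (by simp [hC, hc])) x (a + b) t (ha.add hb) hx
        (add_mem hc.1 hc.2))
    rcases hab with haW | hbW
    · have g1 := hC3 W (fun c hc => hWC c (by simp [hC, hc])) x t a hx ha htW haW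
      have g2 := orb_conj W L hπ0 hπL hk0 h.n1_pos (hdivL n1 hd1) hval htL
        (Or.inl rfl) haW htW g1 h.y_cop
      exact (min_le_left _ _).trans (orbRel_card hF hφS hyS hlift hfin hx ha g2)
    · have g1 := hC4 W (fun c hc => hWC c (by simp [hC, hc])) x t b hx hb htW hbW
      have g2 := orb_conj W L hπ0 hπL hk0 h.n2_pos (hdivL n2 hd2) hval htL
        (Or.inl rfl) hbW htW g1 h.z_cop
      exact (min_le_right _ _).trans (orbRel_card hF hφS hzS hlift hfin hx hb g2)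
  -- one orbit is very large
  obtain ⟨x₀, a₀, hx₀, ha₀, haW₀⟩ := hC6 W' (fun c hc => hWC' c (by simp [hC, hc])) t⁻¹ htW'
  have hx₀' : x₀.At φ t := by
    have := hx₀.inv (inv_ne_zero ht0)
    rwa [inv_inv, inv_inv] at this
  have hbig : m ≤ {x' | OrbRel S' L t x₀ x'}.ncard := by
    have g1 := hC5 W' (fun c hc => hWC' c (by simp [hC, hc])) x₀ t⁻¹ a₀ hx₀ ha₀ htW' haW₀
    have g2 := orb_conj W' L hπ0' hπL' hk0 hm (hdivL' m hd3) hval' htL'
      (Or.inr rfl) haW₀ htW' g1 h.u_cop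
    exact orbRel_card hF hφS huS hlift hfin hx₀' ha₀ g2
  have hone : ∀ x : Place QQ F, x.At φ t → OrbRel S' L t x₀ x := by
    intro x hx
    by_contra hne
    have hsub : {x' | OrbRel S' L t x₀ x'} ∪ {x' | OrbRel S' L t x x'} ⊆
        {x : Place QQ F | x.At φ t} := by
      rintro x' (hx' | hx')
      · exact orbRel_at hx' hφS hx₀'
      · exact orbRel_at hx' hφS hx
    have hdis : Disjoint {x' | OrbRel S' L t x₀ x'} {x' | OrbRel S' L t x x'} := by
      rw [Set.disjoint_left]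
      intro x' g1 g2
      exact hne (orbRel_trans g1 (orbRel_symm g2))
    have g3 := Set.ncard_union_eq hdis (hfin.subset (Set.subset_union_left.trans hsub))
      (hfin.subset (Set.subset_union_right.trans hsub))
    have g4 := Set.ncard_le_ncard hsub hfin
    have g5 := hmin x hx
    have g6 := h.lt1
    have g7 := h.lt2
    rcases le_total n1 n2 with g8 | g8
    · rw [min_eq_left g8] at g5
      omega
    · rw [min_eq_right g8] at g5
      omega
  intro x x' hx hx'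
  obtain ⟨ρ, r, g0, -, g1, g2⟩ := orbRel_trans (orbRel_symm (hone x hx)) (hone x' hx')
  exact ⟨ρ, r, fun c hc => g0 c (hKL hc), ⟨fun s hs => g1.1 s (by simp [hS', hs]), g1.2⟩, g2⟩

end Pool.Agent.Clo
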