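import Pool.Agent.Clo.New1
import Pool.Agent.Clo.OrbitM
import Pool.Agent.Clo.FibEx

/-!
# Mildly ramified fields have the property `Orb`
-/

set_option autoImplicit false

noncomputable section

namespace Pool.Agent.Clo

open Pool.Agent.ZCyc Pool.Agent.Dess

theorem orb_mild : Orb Mild := by
  intro F _ _ hF p q hpq
  obtain ⟨φ, y, z, u, r, n1, n2, m, e1, e2, e3, h⟩ := exists_fib hF hpq
  exact ⟨φ, y, z, u, r, n1, n2, m, e1, e2, e3, h, fun K hK S Bad => one_orbit_mild hF h hK S Bad⟩

end Pool.Agent.Clo
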