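import Pool.Agent.Dess.CRT
import Pool.Agent.Dess.Pole
import Pool.Agent.Dess4.Deg
import Pool.Agent.Clo.Act

/-!
# Orders of functions

PROOFS. `hasOrd_exists`: `exists_unif`, `exists_ord`. `hasOrd_mul`, `hasOrd_pow`, `hasOrd_inv`: if
two uniformizers `π`, `ϖ` are used, `f / π ^ m`, `g / ϖ ^ n` are units; `π / ϖ` is a unit
(`(π / ϖ) ∈ v.ring` and its inverse too, by the definition of `IsUnif`), so all can be written with
the
same uniformizer: `hasOrd_iff` (any uniformizer can be used; for `f ≠ 0` one may also use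
`exists_ord` for it and `hasOrd_unique` of `Pool/Agent/Dess4/Deg.lean`). `hasOrd_of_mem`: if
`f ∈ v.ring`, `f ≠ 0`, the order is `≥ 0` (otherwise `π ^ (-n) * unit = f`, and `π⁻¹` would be in
the
ring). `hasOrd_add`: `f + g = f (1 + g / f)`, and `g / f` vanishes at `v`, being a unit times
`π ^ (n - m)`.
-/

set_option autoImplicit false

noncomputable section

namespace Pool.Agent.Clo

open Pool.Agent.ZCyc Pool.Agent.Dess
open scoped Classical

section Ord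

variable {F : Type} [Field F] [Algebra QQ F]

private theorem mem_val_Ord (v : Place QQ F) (f : F) : f ∈ v.ring ↔ v.ring.valuation f ≤ 1 :=
  (v.ring.valuation_le_one_iff f).symm

private theorem unif_ne_Ord {v : Place QQ F} {π : F} (hπ : IsUnif v π) :
    0 < v.ring.valuation π :=
  zero_lt_iff.2 ((Valuation.ne_zero_iff _).2 hπ.1)

private theorem unif_lt_Ord {v : Place QQ F} {π : F} (hπ : IsUnif v π) :
    v.ring.valuation π < 1 :=
  (v.vanishes_iff π).1 hπ.2.1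

private theorem unif_le_Ord {v : Place QQ F} {π ϖ : F} (hπ : IsUnif v π) (hϖ : IsUnif v ϖ) :
    v.ring.valuation ϖ ≤ v.ring.valuation π := by
  have h1 := (mem_val_Ord v _).1 (hπ.2.2 ϖ hϖ.2.1)
  rw [map_div₀] at h1
  exact (div_le_one₀ (unif_ne_Ord hπ)).1 h1

private theorem unif_eq_Ord {v : Place QQ F} {π ϖ : F} (hπ : IsUnif v π) (hϖ : IsUnif v ϖ) :
    v.ring.valuation ϖ = v.ring.valuation π :=
  le_antisymm (unif_le_Ord hπ hϖ) (unif_le_Ord hϖ hπ)

private theorem div_mem_Ord {v : Place QQ F} {π ϖ f : F} (hπ : IsUnif v π) (hϖ : IsUnif v ϖ)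
    {n : ℤ} (h : f / ϖ ^ n ∈ v.ring ∧ (f / ϖ ^ n)⁻¹ ∈ v.ring) :
    f / π ^ n ∈ v.ring ∧ (f / π ^ n)⁻¹ ∈ v.ring := by
  rw [mem_val_Ord, mem_val_Ord, map_inv₀, map_div₀, map_zpow₀] at h ⊢
  rwa [← unif_eq_Ord hπ hϖ]

private theorem unit_iff_Ord {v : Place QQ F} {π f : F} (hπ : IsUnif v π) (hf : f ≠ 0) {n : ℤ} :
    (f / π ^ n ∈ v.ring ∧ (f / π ^ n)⁻¹ ∈ v.ring) ↔
      v.ring.valuation f = v.ring.valuation π ^ n := by
  have h0 : 0 < v.ring.valuation π ^ n := zpow_pos (unif_ne_Ord hπ) n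
  have h1 : 0 < v.ring.valuation f := zero_lt_iff.2 ((Valuation.ne_zero_iff _).2 hf)
  rw [mem_val_Ord, mem_val_Ord, map_inv₀, map_div₀, map_zpow₀, inv_div, div_le_one₀ h0,
    div_le_one₀ h1]
  exact ⟨fun h => le_antisymm h.1 h.2, fun h => ⟨h.le, h.ge⟩⟩

theorem hasOrd_iff (hF : IsCurve QQ F) {v : Place QQ F} {π f : F} (hπ : IsUnif v π) {n : ℤ} :
    HasOrd v f n ↔ f / π ^ n ∈ v.ring ∧ (f / π ^ n)⁻¹ ∈ v.ring := by
  have _ := hF
  constructor
  · rintro ⟨ϖ, hϖ, h⟩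
    exact div_mem_Ord hπ hϖ h
  · intro h
    exact ⟨π, hπ, h⟩

private theorem ord_val_Ord (hF : IsCurve QQ F) {v : Place QQ F} {π f : F} (hπ : IsUnif v π)
    (hf : f ≠ 0) {n : ℤ} : HasOrd v f n ↔ v.ring.valuation f = v.ring.valuation π ^ n := by
  rw [hasOrd_iff hF hπ, unit_iff_Ord hπ hf]

private theorem ord_zero_Ord {v : Place QQ F} {π : F} (hπ : IsUnif v π) (n : ℤ) :
    HasOrd v 0 n := by
  refine ⟨π, hπ, ?_, ?_⟩
  · rw [zero_div]
    exact v.ring.zero_mem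
  · rw [zero_div, inv_zero]
    exact v.ring.zero_mem

theorem hasOrd_exists (hF : IsCurve QQ F) (v : Place QQ F) {f : F} (hf : f ≠ 0) :
    ∃ n : ℤ, HasOrd v f n := by
  obtain ⟨π, hπ⟩ := exists_unif hF v
  obtain ⟨n, hn⟩ := exists_ord hF v hπ hf
  exact ⟨n, π, hπ, hn⟩

theorem hasOrd_mul (hF : IsCurve QQ F) {v : Place QQ F} {f g : F} {m n : ℤ}
    (hf : HasOrd v f m) (hg : HasOrd v g n) : HasOrd v (f * g) (m + n) := by
  obtain ⟨π, hπ⟩ := exists_unif hF v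
  by_cases hf0 : f = 0
  · rw [hf0, zero_mul]
    exact ord_zero_Ord hπ _
  by_cases hg0 : g = 0
  · rw [hg0, mul_zero]
    exact ord_zero_Ord hπ _
  rw [ord_val_Ord hF hπ hf0] at hf
  rw [ord_val_Ord hF hπ hg0] at hg
  rw [ord_val_Ord hF hπ (mul_ne_zero hf0 hg0), _root_.map_mul, hf, hg,
    zpow_add₀ (unif_ne_Ord hπ).ne']

theorem hasOrd_pow (hF : IsCurve QQ F) {v : Place QQ F} {f : F} {m : ℤ} (hf : HasOrd v f m)
    (n : ℕ) : HasOrd v (f ^ n) (n * m) := by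
  induction n with
  | zero =>
    obtain ⟨π, hπ⟩ := exists_unif hF v
    rw [pow_zero, Nat.cast_zero, zero_mul, ord_val_Ord hF hπ one_ne_zero, map_one, zpow_zero]
  | succ n ih =>
    have h1 := hasOrd_mul hF ih hf
    rw [pow_succ, Nat.cast_succ, add_mul, one_mul]
    exact h1

theorem hasOrd_nonneg (hF : IsCurve QQ F) {v : Place QQ F} {f : F} (hf : f ≠ 0) {n : ℤ}
    (h : HasOrd v f n) : f ∈ v.ring ↔ 0 ≤ n := by
  obtain ⟨π, hπ⟩ := exists_unif hF v
  rw [ord_val_Ord hF hπ hf] at h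
  rw [mem_val_Ord, h, zpow_le_one_iff_right_of_lt_one₀ (unif_ne_Ord hπ) (unif_lt_Ord hπ)]

theorem hasOrd_pos (hF : IsCurve QQ F) {v : Place QQ F} {f : F} (hf : f ≠ 0) {n : ℤ}
    (h : HasOrd v f n) : v.Vanishes f ↔ 0 < n := by
  obtain ⟨π, hπ⟩ := exists_unif hF v
  rw [ord_val_Ord hF hπ hf] at h
  rw [v.vanishes_iff, h, zpow_lt_one_iff_right_of_lt_one₀ (unif_ne_Ord hπ) (unif_lt_Ord hπ)]

theorem hasOrd_add (hF : IsCurve QQ F) {v : Place QQ F} {f g : F} (hf : f ≠ 0) (hg : g ≠ 0)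
    {m n : ℤ} (h : HasOrd v f m) (h' : HasOrd v g n) (hmn : m < n) : HasOrd v (f + g) m := by
  obtain ⟨π, hπ⟩ := exists_unif hF v
  rw [ord_val_Ord hF hπ hf] at h
  rw [ord_val_Ord hF hπ hg] at h'
  have hlt : v.ring.valuation g < v.ring.valuation f := by
    rw [h, h', zpow_lt_zpow_iff_right_of_lt_one₀ (unif_ne_Ord hπ) (unif_lt_Ord hπ)]
    exact hmn
  have h1 : v.ring.valuation (f + g) = v.ring.valuation f :=
    Valuation.map_add_eq_of_lt_left _ hlt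
  have h2 : f + g ≠ 0 := by
    intro h3
    rw [h3, map_zero] at h1
    exact (Valuation.ne_zero_iff _).2 hf h1.symm
  rw [ord_val_Ord hF hπ h2, h1, h]

theorem hasOrd_const (hF : IsCurve QQ F) (v : Place QQ F) {c : QQ} (hc : c ≠ 0) :
    HasOrd v (algebraMap QQ F c) 0 := by
  obtain ⟨π, hπ⟩ := exists_unif hF v
  refine ⟨π, hπ, ?_, ?_⟩
  · rw [zpow_zero, div_one]
    exact v.const_mem c
  · rw [zpow_zero, div_one, ← map_inv₀]
    exact v.const_mem _

end Ord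

end Pool.Agent.Clo
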