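import Pool.Agent.Clo.Ord

/-!
# Functions which vanish to a high order at a given point

PROOF. `exists_vanish` (linear algebra): by induction on `m`. For `m = 0` take the first basis
element. Formulate the induction as follows: if `f : Fin (m + 1) → F` is linearly independent over
`QQ` and all `f i ∈ r.ring`, then there is a nonzero `h` in the span of the `f i` with
`h / π ^ m ∈ r.ring`. Step from `m` to `m + 1`, `f : Fin (m + 2) → F`: apply the induction
hypothesis
to the first `m + 1` functions, to get `h₁`, which is in the span of `f 0, ..., f m`, nonzero; so it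
has a nonzero coefficient at some `f i`, `i ≤ m`; apply it again to the family without `f i`
(`m + 1` functions, with `f (m + 1)`), to get `h₂`; `h₁, h₂` are linearly independent (`h₂` is
nonzero and in the span of the others, `h₁` is not in the span of the others).
Let `c₁, c₂` be the values of `h₁ / π ^ m` and `h₂ / π ^ m` at `r` (`exists_at`). If `c₂ = 0` take
`h₂`; otherwise `h = c₂ h₁ - c₁ h₂ ≠ 0`, `h / π ^ m` vanishes at `r`, hence `h / π ^ (m + 1) ∈
r.ring`
(definition of `IsUnif`).
`exists_notMem`: `exists_place` (`Pool/Agent/ZCyc/Places.lean`) for a transcendental function `t`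
and all
values `c : QQ`; a place has at most one value of `t` (`Place.At.unique`), and `QQ` is infinite.
-/

set_option autoImplicit false

noncomputable section

namespace Pool.Agent.Clo

open Pool.Agent.ZCyc Pool.Agent.Dess
open scoped Classical

section Vanish

variable {F : Type} [Field F] [Algebra QQ F]

private theorem value_map (hF : IsCurve QQ F) {r : Place QQ F} (W : Submodule QQ F)
    (hW : ∀ h ∈ W, h ∈ r.ring) :
    ∃ φ : W →ₗ[QQ] QQ, ∀ w : W, r.At (w : F) (φ w) := by
  choose φ hφ using fun w : W => exists_at hF r (hW w w.2)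
  refine ⟨{ toFun := φ, map_add' := ?_, map_smul' := ?_ }, hφ⟩
  · intro x y
    exact (hφ (x + y)).unique ((hφ x).add (hφ y))
  · intro c x
    have h1 : r.At ((c • x : W) : F) (c * φ x) := by
      rw [Submodule.coe_smul, Algebra.smul_def]
      exact (Place.at_const c).mul (hφ x)
    simpa using (hφ (c • x)).unique h1

private theorem vanish_aux (hF : IsCurve QQ F) {r : Place QQ F} {π : F} (hπ : IsUnif r π) (m : ℕ) :
    ∀ W : Submodule QQ F, FiniteDimensional QQ W → (∀ h ∈ W, h ∈ r.ring) →
      m + 1 ≤ Module.finrank QQ W → ∃ h : F, h ∈ W ∧ h ≠ 0 ∧ h / π ^ m ∈ r.ring := by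
  induction m with
  | zero =>
    intro W hfin hW hm
    have h1 : W ≠ ⊥ := by
      rintro rfl
      simp at hm
    obtain ⟨h, hh, hne⟩ := Submodule.exists_mem_ne_zero_of_ne_bot h1
    exact ⟨h, hh, hne, by simpa using hW h hh⟩
  | succ m ih =>
    intro W hfin hW hm
    obtain ⟨φ, hφ⟩ := value_map hF W hW
    have h1 := LinearMap.finrank_range_add_finrank_ker φ
    have h2 : Module.finrank QQ (LinearMap.range φ) ≤ 1 := by
      have := Submodule.finrank_le (LinearMap.range φ)
      simpa using this
    have h3 : m + 1 ≤ Module.finrank QQ (LinearMap.ker φ) := by omega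
    -- multiplication by the inverse of the uniformizer
    let ψ : LinearMap.ker φ →ₗ[QQ] F :=
      (LinearMap.mulLeft QQ π⁻¹).comp (W.subtype.comp (LinearMap.ker φ).subtype)
    have hψ : Function.Injective ψ := by
      intro x y hxy
      have h4 : π⁻¹ * ((x : W) : F) = π⁻¹ * ((y : W) : F) := hxy
      have h5 := mul_left_cancel₀ (inv_ne_zero hπ.1) h4
      exact Subtype.ext (Subtype.ext h5)
    obtain ⟨h, hh, hne, hr⟩ := ih (LinearMap.range ψ) inferInstance
      (by
        rintro h ⟨x, rfl⟩
        have h4 : φ (x : W) = 0 := x.2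
        have h5 := hφ (x : W)
        rw [h4, Place.at_zero_iff] at h5
        have h6 := hπ.2.2 _ h5
        have h7 : ψ x = ((x : W) : F) / π := by
          rw [div_eq_mul_inv, mul_comm]
          rfl
        rw [h7]
        exact h6)
      (by rwa [LinearMap.finrank_range_of_inj hψ])
    obtain ⟨x, rfl⟩ := hh
    have h7 : ψ x = ((x : W) : F) / π := by
      rw [div_eq_mul_inv, mul_comm]
      rfl
    refine ⟨((x : W) : F), (x : W).2, ?_, ?_⟩
    · intro h0
      apply hne
      rw [h7, h0, zero_div]
    · rw [h7, div_div, ← pow_succ'] at hr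
      exact hr

theorem exists_vanish (hF : IsCurve QQ F) {r : Place QQ F} {π : F} (hπ : IsUnif r π) (m : ℕ)
    (f : Fin (m + 1) → F) (hf : LinearIndependent QQ f) (hreg : ∀ i, f i ∈ r.ring) :
    ∃ h : F, h ∈ Submodule.span QQ (Set.range f) ∧ h ≠ 0 ∧ h / π ^ m ∈ r.ring := by
  apply vanish_aux hF hπ m
  · exact FiniteDimensional.span_of_finite QQ (Set.finite_range f)
  · intro h hh
    induction hh using Submodule.span_induction with
    | mem x hx =>
      obtain ⟨i, rfl⟩ := hx
      exact hreg i
    | zero => exact zero_mem _
    | add x y _ _ hx hy => exact add_mem hx hy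
    | smul c x _ hx =>
      rw [Algebra.smul_def]
      exact mul_mem (r.const_mem c) hx
  · rw [finrank_span_eq_card hf]
    simp

/-- infinitely many places -/
theorem exists_notMem (hF : IsCurve QQ F) (T : Finset (Place QQ F)) :
    ∃ r : Place QQ F, r ∉ T := by
  obtain ⟨t, ht, -⟩ := hF
  choose u hu using fun c : QQ => exists_place ht c
  have hinj : Function.Injective u := by
    intro c c' h
    have h1 := hu c
    rw [h] at h1
    exact h1.unique (hu c')
  by_contra hcon
  push Not at hcon
  have h2 : Set.Finite (Set.range u) :=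
    T.finite_toSet.subset (by rintro _ ⟨c, rfl⟩; exact hcon _)
  exact Set.infinite_range_of_injective hinj h2

end Vanish

end Pool.Agent.Clo
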