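import Pool.Agent.Clo.Poles
import Pool.Agent.Clo.Vanish

/-!
# The function `φ`

PROOF of `exists_phi`. Let `g` be large enough for `exists_poles` at `p` and at `q`, `g ≥ 1`.
Choose a place
`r` different from `p` and `q` (there are infinitely many places: `exists_place` for a
transcendental function and all values; a place has only one value). Let `n = 2 g + 1`, and for
`g ≤ j ≤ n` let `f_j`, `h_j` be functions with a pole of order exactly `j` at `p` (at `q`) and
no other poles. These `2 (n - g + 1) = 2 g + 4` functions are linearly independent over `QQ`: in a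
nontrivial linear combination, consider the largest `j` with a nonzero coefficient at `f_j`; if
there is one, the order at `p` is `-j` (`hasOrd_add`), so the sum is not zero; otherwise look at
`q`. So by `exists_vanish` with `m = 2 g + 2` and `m + 1 = 2 g + 3` of them there is a nonzero
combination `φ` with `φ / π ^ (2 g + 2) ∈ r.ring`, where `2 g + 2 = n + 1 > n`. Let `m'` be the
exact
order of `φ` at `r`: `m' ≥ n + 1`. The orders of `φ` at `p` and `q` are `≥ -n`
(all functions are in the set of those `f` with `f * π_p ^ n ∈ p.ring`), and `φ` is regular at all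
other places. By `degree_zero` (with the finset of zeros and poles, `finite_at`, `finite_pole`; `φ`
is transcendental since it vanishes at `r`) the sum of the orders is zero, the order at `r` is
`≥ n + 1`, those at places `≠ p, q` are `≥ 0`; so `ord_p + ord_q ≤ -(n + 1)`, and since each is
`≥ -n`, both are negative. Let them be `-n1`, `-n2`: `0 < n1, n2 ≤ n < m'`.
-/

set_option autoImplicit false

noncomputable section

namespace Pool.Agent.Clo

open Pool.Agent.ZCyc Pool.Agent.Dess
open scoped Classical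

section Phi

variable {F : Type} [Field F] [Algebra QQ F]

/-- a uniformizer has order one -/
private theorem ordUnif_Phi (hF : IsCurve QQ F) {v : Place QQ F} {π : F} (hπ : IsUnif v π) :
    HasOrd v π 1 := by
  rw [hasOrd_iff hF hπ, zpow_one, div_self hπ.1]
  exact ⟨one_mem _, by rw [inv_one]; exact one_mem _⟩

private theorem ordPow_Phi (hF : IsCurve QQ F) {v : Place QQ F} {π : F} (hπ : IsUnif v π)
    (e : ℕ) : HasOrd v (π ^ e) (e : ℤ) := by
  have h := hasOrd_pow hF (ordUnif_Phi hF hπ) e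
  rwa [mul_one] at h

private theorem vanSum_Phi {v : Place QQ F} {ι : Type} (s : Finset ι) (f : ι → F)
    (h : ∀ i ∈ s, v.Vanishes (f i)) : v.Vanishes (∑ i ∈ s, f i) :=
  Finset.sum_induction f (fun x => v.Vanishes x) (fun _ _ ha hb => ha.add v hb)
    v.vanishes_zero h

/-- functions with poles of different orders at `v` -/
private theorem indep_Phi (hF : IsCurve QQ F) (v : Place QQ F) {ι : Type} [Fintype ι]
    (u : ι → F) (P : ι → Prop) (e : ι → ℕ) (h0 : ∀ i, P i → u i ≠ 0)
    (h1 : ∀ i, P i → HasOrd v (u i) (-(e i : ℤ))) (h2 : ∀ i, P i → 0 < e i)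
    (h3 : ∀ i j, P i → P j → e i = e j → i = j) (h4 : ∀ i, ¬ P i → u i ∈ v.ring)
    (c : ι → QQ) (hc : ∑ i, c i • u i = 0) : ∀ i, P i → c i = 0 := by
  by_contra hcon
  push Not at hcon
  obtain ⟨i₁, hi₁, hi₁'⟩ := hcon
  obtain ⟨i₀, hi₀, hmax⟩ := Finset.exists_max_image
    (Finset.univ.filter fun i => P i ∧ c i ≠ 0) e
    ⟨i₁, Finset.mem_filter.2 ⟨Finset.mem_univ _, hi₁, hi₁'⟩⟩
  simp only [Finset.mem_filter, Finset.mem_univ, true_and] at hi₀ hmax
  obtain ⟨π, hπ⟩ := exists_unif hF v
  have hπ2 : HasOrd v (π ^ e i₀) (e i₀ : ℤ) := ordPow_Phi hF hπ (e i₀)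
  have hterm : ∀ i, P i → c i ≠ 0 →
      HasOrd v (c i • u i * π ^ e i₀) (-(e i : ℤ) + e i₀) := by
    intro i hi hci
    rw [Algebra.smul_def]
    have h5 := hasOrd_mul hF (hasOrd_mul hF (hasOrd_const hF v hci) (h1 i hi)) hπ2
    rwa [zero_add] at h5
  have hne : ∀ i, P i → c i ≠ 0 → c i • u i * π ^ e i₀ ≠ 0 := by
    intro i hi hci
    exact mul_ne_zero (smul_ne_zero hci (h0 i hi)) (pow_ne_zero _ hπ.1)
  have hvan : ∀ i ∈ Finset.univ.erase i₀, v.Vanishes (c i • u i * π ^ e i₀) := by
    intro i hi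
    have hi' := (Finset.mem_erase.1 hi).1
    by_cases hci : c i = 0
    · rw [hci, zero_smul, zero_mul]
      exact v.vanishes_zero
    by_cases hPi : P i
    · rw [hasOrd_pos hF (hne i hPi hci) (hterm i hPi hci)]
      have h5 := hmax i ⟨hPi, hci⟩
      have h6 : e i ≠ e i₀ := fun h => hi' (h3 i i₀ hPi hi₀.1 h)
      omega
    · refine Place.Vanishes.mul' v (hπ.2.1.pow v (h2 i₀ hi₀.1).ne') ?_
      rw [Algebra.smul_def]
      exact mul_mem (v.const_mem _) (h4 i hPi)
  have hsum : ∑ i, c i • u i * π ^ e i₀ = 0 := by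
    rw [← Finset.sum_mul, hc, zero_mul]
  rw [← Finset.add_sum_erase _ _ (Finset.mem_univ i₀)] at hsum
  have h5 := vanSum_Phi _ _ hvan
  have h6 : v.Vanishes (c i₀ • u i₀ * π ^ e i₀) := by
    rw [eq_neg_of_add_eq_zero_left hsum]
    exact h5.neg v
  rw [hasOrd_pos hF (hne i₀ hi₀.1 hi₀.2) (hterm i₀ hi₀.1 hi₀.2)] at h6
  omega

/-- the functions `f` for which `f * a` is regular at `v` -/
private def sub_Phi (v : Place QQ F) (a : F) : Submodule QQ F where
  carrier := {f | f * a ∈ v.ring}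
  add_mem' := by
    intro f g hf hg
    rw [Set.mem_ofPred_eq, add_mul]
    exact add_mem hf hg
  zero_mem' := by
    rw [Set.mem_ofPred_eq, zero_mul]
    exact zero_mem _
  smul_mem' := by
    intro c f hf
    rw [Set.mem_ofPred_eq, Algebra.smul_def, mul_assoc]
    exact mul_mem (v.const_mem c) hf

private theorem span_Phi {v : Place QQ F} {a : F} {ι : Type} {u : ι → F}
    (h : ∀ i, u i * a ∈ v.ring) {φ : F} (hφ : φ ∈ Submodule.span QQ (Set.range u)) :
    φ * a ∈ v.ring := by
  have h1 : Submodule.span QQ (Set.range u) ≤ sub_Phi v a := by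
    rw [Submodule.span_le]
    rintro _ ⟨i, rfl⟩
    exact h i
  exact h1 hφ

/-- the function `φ` -/
theorem exists_phi (hF : IsCurve QQ F) {p q : Place QQ F} (hpq : p ≠ q) :
    ∃ (φ : F) (r : Place QQ F) (n1 n2 m : ℕ), φ ≠ 0 ∧ HasOrd p φ (-(n1 : ℤ)) ∧
      HasOrd q φ (-(n2 : ℤ)) ∧ (∀ v : Place QQ F, v ≠ p → v ≠ q → φ ∈ v.ring) ∧
      HasOrd r φ (m : ℤ) ∧ 0 < n1 ∧ 0 < n2 ∧ n1 < m ∧ n2 < m := by
  obtain ⟨g₁, hg₁⟩ := exists_poles hF p
  obtain ⟨g₂, hg₂⟩ := exists_poles hF q
  obtain ⟨g, hgdef⟩ : ∃ g : ℕ, g = max (max g₁ g₂) 1 := ⟨_, rfl⟩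
  have hg1 : g₁ ≤ g := by omega
  have hg2 : g₂ ≤ g := by omega
  have hg0 : 1 ≤ g := by omega
  choose! f hf0 hf hfr using hg₁
  choose! h hh0 hh hhr using hg₂
  obtain ⟨r, hr⟩ := exists_notMem hF {p, q}
  have hrp : r ≠ p := fun h' => hr (by simp [h'])
  have hrq : r ≠ q := fun h' => hr (by simp [h'])
  obtain ⟨u, hu⟩ : ∃ u : Fin (2 * g + 2 + 1) → F,
      ∀ i, u i = if (i : ℕ) < g + 2 then f (g + i) else h (i - 2) := ⟨_, fun _ => rfl⟩
  have hu1 : ∀ i : Fin (2 * g + 2 + 1), (i : ℕ) < g + 2 → u i = f (g + i) :=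
    fun i hi => by rw [hu, if_pos hi]
  have hu2 : ∀ i : Fin (2 * g + 2 + 1), ¬ (i : ℕ) < g + 2 → u i = h (i - 2) :=
    fun i hi => by rw [hu, if_neg hi]
  have hureg : ∀ i (v : Place QQ F), v ≠ p → v ≠ q → u i ∈ v.ring := by
    intro i v hvp hvq
    by_cases hi : (i : ℕ) < g + 2
    · rw [hu1 i hi]
      exact hfr _ (by omega) v hvp
    · rw [hu2 i hi]
      exact hhr _ (by omega) v hvq
  have hlin : LinearIndependent QQ u := by
    rw [Fintype.linearIndependent_iff]
    intro c hc i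
    by_cases hi : (i : ℕ) < g + 2
    · refine indep_Phi hF p u (fun i => (i : ℕ) < g + 2) (fun i => g + i) ?_ ?_ ?_ ?_ ?_ c hc i hi
      · intro i hi
        rw [hu1 i hi]
        exact hf0 _ (by omega)
      · intro i hi
        rw [hu1 i hi]
        exact hf _ (by omega)
      · intro i _
        show 0 < g + (i : ℕ)
        omega
      · intro i j _ _ hij
        have hij' : g + (i : ℕ) = g + j := hij
        exact Fin.ext (by omega)
      · intro i hi
        rw [hu2 i hi]
        exact hhr _ (by omega) p hpq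
    · refine indep_Phi hF q u (fun i => ¬ (i : ℕ) < g + 2) (fun i => i - 2) ?_ ?_ ?_ ?_ ?_ c hc
        i hi
      · intro i hi
        rw [hu2 i hi]
        exact hh0 _ (by omega)
      · intro i hi
        rw [hu2 i hi]
        exact hh _ (by omega)
      · intro i hi
        show 0 < (i : ℕ) - 2
        omega
      · intro i j hi hj hij
        have hij' : (i : ℕ) - 2 = j - 2 := hij
        exact Fin.ext (by omega)
      · intro i hi
        rw [not_not] at hi
        rw [hu1 i hi]
        exact hfr _ (by omega) q hpq.symm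
  obtain ⟨πr, hπr⟩ := exists_unif hF r
  obtain ⟨πp, hπp⟩ := exists_unif hF p
  obtain ⟨πq, hπq⟩ := exists_unif hF q
  obtain ⟨φ, hspan, hφ0, hφr⟩ := exists_vanish hF hπr (2 * g + 2) u hlin
    (fun i => hureg i r hrp hrq)
  have hφreg : ∀ v : Place QQ F, v ≠ p → v ≠ q → φ ∈ v.ring := by
    intro v hvp hvq
    have h1 := span_Phi (v := v) (a := 1) (u := u)
      (fun i => by rw [mul_one]; exact hureg i v hvp hvq) hspan
    rwa [mul_one] at h1
  have hφp : φ * πp ^ (2 * g + 1) ∈ p.ring := by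
    refine span_Phi (u := u) (fun i => ?_) hspan
    by_cases hi : (i : ℕ) < g + 2
    · rw [hu1 i hi, hasOrd_nonneg hF
        (mul_ne_zero (hf0 _ (by omega)) (pow_ne_zero _ hπp.1))
        (hasOrd_mul hF (hf _ (by omega)) (ordPow_Phi hF hπp _))]
      push_cast
      omega
    · rw [hu2 i hi]
      exact mul_mem (hhr _ (by omega) p hpq) (pow_mem (hπp.2.1.mem p) _)
  have hφq : φ * πq ^ (2 * g + 1) ∈ q.ring := by
    refine span_Phi (u := u) (fun i => ?_) hspan
    by_cases hi : (i : ℕ) < g + 2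
    · rw [hu1 i hi]
      exact mul_mem (hfr _ (by omega) q hpq.symm) (pow_mem (hπq.2.1.mem q) _)
    · have hi3 := i.isLt
      rw [hu2 i hi, hasOrd_nonneg hF
        (mul_ne_zero (hh0 _ (by omega)) (pow_ne_zero _ hπq.1))
        (hasOrd_mul hF (hh _ (by omega)) (ordPow_Phi hF hπq _))]
      omega
  choose n hn using fun v : Place QQ F => hasOrd_exists hF v hφ0
  have hnp : -(2 * g + 1 : ℤ) ≤ n p := by
    have h1 := (hasOrd_nonneg hF (mul_ne_zero hφ0 (pow_ne_zero _ hπp.1))
      (hasOrd_mul hF (hn p) (ordPow_Phi hF hπp (2 * g + 1)))).1 hφp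
    push_cast at h1
    linarith
  have hnq : -(2 * g + 1 : ℤ) ≤ n q := by
    have h1 := (hasOrd_nonneg hF (mul_ne_zero hφ0 (pow_ne_zero _ hπq.1))
      (hasOrd_mul hF (hn q) (ordPow_Phi hF hπq (2 * g + 1)))).1 hφq
    push_cast at h1
    linarith
  have hnr : (2 * g + 2 : ℤ) ≤ n r := by
    have h0 : φ / πr ^ (2 * g + 2) ≠ 0 := div_ne_zero hφ0 (pow_ne_zero _ hπr.1)
    obtain ⟨a, ha⟩ := hasOrd_exists hF r h0
    have h1 := (hasOrd_nonneg hF h0 ha).1 hφr
    have h2 := hasOrd_mul hF ha (ordPow_Phi hF hπr (2 * g + 2))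
    rw [div_mul_cancel₀ _ (pow_ne_zero _ hπr.1)] at h2
    have h3 := Dess4.hasOrd_unique hF hφ0 (hn r) h2
    push_cast at h3
    linarith
  have hφt : Transcendental QQ φ := by
    intro halg
    obtain ⟨c, hc⟩ := minpoly.mem_range_of_degree_eq_one QQ φ
      (IsAlgClosed.degree_eq_one_of_irreducible QQ (minpoly.irreducible halg.isIntegral))
    have hc0 : c ≠ 0 := by
      rintro rfl
      rw [map_zero] at hc
      exact hφ0 hc.symm
    have h1 : r.Vanishes φ := (hasOrd_pos hF hφ0 (hn r)).2 (by linarith)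
    rw [← hc] at h1
    exact r.const_unit hc0 h1
  obtain ⟨S, hS⟩ : ∃ S : Finset (Place QQ F), S = (finite_at hF hφt 0).toFinset ∪ {p, q, r} :=
    ⟨_, rfl⟩
  have hdeg := Dess4.degree_zero hF hφ0 S n (fun v _ => hn v) (fun v hv => by
    have h1 : ¬ v.Vanishes φ := by
      intro h2
      apply hv
      rw [hS, Finset.mem_union, Set.Finite.mem_toFinset]
      exact Or.inl (Place.at_zero_iff.2 h2)
    have h2 : v ≠ p ∧ v ≠ q := by
      constructor
      · rintro rfl
        exact hv (by rw [hS]; simp)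
      · rintro rfl
        exact hv (by rw [hS]; simp)
    have h3 := (hasOrd_nonneg hF hφ0 (hn v)).1 (hφreg v h2.1 h2.2)
    rw [hasOrd_pos hF hφ0 (hn v)] at h1
    have h4 : n v = 0 := by omega
    rw [← h4]
    exact hn v)
  have hle : ∑ v ∈ ({p, q, r} : Finset (Place QQ F)), n v ≤ ∑ v ∈ S, n v := by
    refine Finset.sum_le_sum_of_subset_of_nonneg ?_ ?_
    · rw [hS]
      exact Finset.subset_union_right
    · intro v _ hv
      have hvp : v ≠ p := fun h' => hv (by simp [h'])
      have hvq : v ≠ q := fun h' => hv (by simp [h'])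
      exact (hasOrd_nonneg hF hφ0 (hn v)).1 (hφreg v hvp hvq)
  rw [hdeg, Finset.sum_insert (by simp [hpq, hrp.symm]), Finset.sum_insert (by simp [hrq.symm]),
    Finset.sum_singleton] at hle
  refine ⟨φ, r, (-n p).toNat, (-n q).toNat, (n r).toNat, hφ0, ?_, ?_, hφreg, ?_, ?_, ?_, ?_, ?_⟩
  · rw [Int.toNat_of_nonneg (by linarith), neg_neg]
    exact hn p
  · rw [Int.toNat_of_nonneg (by linarith), neg_neg]
    exact hn q
  · rw [Int.toNat_of_nonneg (by linarith)]
    exact hn r
  all_goals omega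

end Phi

end Pool.Agent.Clo
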