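import Pool.Agent.Clo.Ord

/-!
# Functions with one pole of a given order

PROOF. We consider the functions which are regular away from `p`. Let `π` be a uniformizer at `p`
and
`w` transcendental and regular away from `p` (`exists_single_pole`). The set `S` of the poles of `π`
is finite (`finite_pole`; `π` is transcendental because it vanishes at `p` and is not zero: a
constant
which vanishes is zero, `Place.const_unit`; algebraic elements are constants, as `QQ` is
algebraically closed), and does not contain `p`. Let `k ≥ 1` be such that `π * ϖ ^ k` is regular at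
every `v ∈ S`, for a uniformizer `ϖ` at `v` (`hasOrd_exists`, a maximum over the finite set). By
`crt`
(file `Pool/Agent/Dess/CRT.lean`, for the function `w`, the finset `S` together with one more place
`v₀ ≠ p` where `w` is regular, exponent `k`, and prescribed values `0` on `S` and `1` at `v₀ ∉ S`;
if needed choose `v₀` outside `S` and `{p}`, there are infinitely many places, for instance the
zeros of `w - c` for all `c`, `exists_place`) there is `b`, regular away from `p`
(`int_mem`), with `b / ϖ ^ k ∈ v.ring` for all `v ∈ S`, and `b ≠ 0`. So `a = π b` is also regular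
away from `p`. Let the orders of `b` and `a` at `p` be `-j` and `-j + 1`. Here `j ≥ 0` and
`j - 1 ≥ 0`, or `a`, `b` is a constant; replace `a`, `b` by `a w`, `b w` if necessary (`w` has a
pole
at `p`), so we may assume `j ≥ 2`. Every `n ≥ j ^ 2` is `n = s j + t (j - 1)` with natural numbers
`s, t` (`n = q (j - 1) + r`, `r < j - 1`, `q ≥ r`: `n = r j + (q - r) (j - 1)`), and `f = b ^ s a ^
t`
has the order `-n` at `p`.
-/

set_option autoImplicit false

noncomputable section

namespace Pool.Agent.Clo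

open Pool.Agent.ZCyc Pool.Agent.Dess
open scoped Classical

section Poles

variable {F : Type} [Field F] [Algebra QQ F]

private theorem poles_clear (hF : IsCurve QQ F) {v : Place QQ F} {f g : F} (hg : v.Vanishes g) :
    ∃ k : ℕ, f * g ^ k ∈ v.ring := by
  by_cases hf : f = 0
  · exact ⟨0, by rw [hf, zero_mul]; exact zero_mem _⟩
  obtain ⟨ϖ, hϖ⟩ := exists_unif hF v
  obtain ⟨n, hn, -⟩ := exists_ord hF v hϖ hf
  obtain ⟨l, hl⟩ := Int.eq_ofNat_of_zero_le (show (0 : ℤ) ≤ n + (-n).toNat by omega)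
  refine ⟨(-n).toNat, ?_⟩
  have h1 : f * g ^ (-n).toNat = f / ϖ ^ n * (g / ϖ) ^ (-n).toNat * ϖ ^ l := by
    have h2 : ϖ ^ l = ϖ ^ n * ϖ ^ (-n).toNat := by
      rw [← zpow_natCast ϖ l, ← zpow_natCast ϖ (-n).toNat, ← zpow_add₀ hϖ.1]
      congr 1
      exact hl.symm
    have h3 : ϖ ^ n ≠ 0 := zpow_ne_zero _ hϖ.1
    have h4 : ϖ ^ (-n).toNat ≠ 0 := pow_ne_zero _ hϖ.1
    rw [h2, div_pow]
    field_simp
  rw [h1]
  exact mul_mem (mul_mem hn (pow_mem (hϖ.2.2 _ hg) _)) (pow_mem (hϖ.2.1.mem) _)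

private theorem poles_transc {v : Place QQ F} {π : F} (hπ : IsUnif v π) :
    Transcendental QQ π := by
  intro h
  have h1 : IsIntegral QQ π := h.isIntegral
  have h2 : (minpoly QQ π).degree = 1 :=
    IsAlgClosed.degree_eq_one_of_irreducible QQ (minpoly.irreducible h1)
  rw [minpoly.degree_eq_one_iff] at h2
  obtain ⟨c, hc⟩ := h2
  have hc0 : c ≠ 0 := by
    rintro rfl
    exact hπ.1 (by rw [← hc, map_zero])
  apply v.const_unit hc0
  rw [hc]
  exact hπ.2.1

/-- there are functions with one pole, of every sufficiently large order -/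
theorem exists_poles (hF : IsCurve QQ F) (p : Place QQ F) :
    ∃ g : ℕ, ∀ n : ℕ, g ≤ n → ∃ f : F, f ≠ 0 ∧ HasOrd p f (-(n : ℤ)) ∧
      ∀ v : Place QQ F, v ≠ p → f ∈ v.ring := by
  obtain ⟨w, hw, hreg⟩ := exists_single_pole hF p
  obtain ⟨π, hπ⟩ := exists_unif hF p
  have hw0 : w ≠ 0 := by
    rintro rfl
    exact hw (isAlgebraic_zero)
  have hwp : w ∉ p.ring := by
    have h1 : Transcendental QQ w⁻¹ := by
      intro h
      apply hw
      simpa using h.inv
    obtain ⟨u, hu⟩ := exists_place h1 0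
    have h2 : w ∉ u.ring := by
      intro h3
      have h4 := Place.Vanishes.mul u (Place.at_zero_iff.1 hu) h3
      rw [inv_mul_cancel₀ hw0] at h4
      have h5 := u.const_unit (c := (1 : QQ)) one_ne_zero
      rw [map_one] at h5
      exact h5 h4
    have h3 : u = p := by
      by_contra h4
      exact h2 (hreg u h4)
    rwa [h3] at h2
  obtain ⟨mw, hmw⟩ := hasOrd_exists hF p hw0
  have hmw0 : mw < 0 := by
    by_contra h
    exact hwp ((hasOrd_nonneg hF hw0 hmw).2 (by omega))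
  -- the poles of `π`
  obtain ⟨S, hS⟩ : ∃ S : Finset (Place QQ F), ∀ v, v ∈ S ↔ π ∉ v.ring :=
    ⟨(finite_pole hF (poles_transc hπ)).toFinset, fun v => by
      rw [Set.Finite.mem_toFinset]
      exact Iff.rfl⟩
  have hpS : ∀ v ∈ S, v ≠ p := by
    rintro v hv rfl
    exact (hS v).1 hv hπ.2.1.mem
  have hex : ∀ v : Place QQ F, ∃ (c : QQ) (k : ℕ), v ∈ S →
      π * (w - algebraMap QQ F c) ^ k ∈ v.ring := by
    intro v
    by_cases hv : v ∈ S
    · obtain ⟨c, hc⟩ := exists_at hF v (hreg v (hpS v hv))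
      obtain ⟨k, hk⟩ := poles_clear hF (f := π) (show v.Vanishes (w - algebraMap QQ F c) from hc)
      exact ⟨c, k, fun _ => hk⟩
    · exact ⟨0, 0, fun h => absurd h hv⟩
  choose c k hck using hex
  obtain ⟨b₀, hb₀⟩ : ∃ b₀ : F, b₀ = ∏ v ∈ S, (w - algebraMap QQ F (c v)) ^ k v := ⟨_, rfl⟩
  have hfac : ∀ v u : Place QQ F, v ≠ p → (w - algebraMap QQ F (c u)) ^ k u ∈ v.ring :=
    fun v u hv => pow_mem (sub_mem (hreg v hv) (v.const_mem _)) _
  have hb₀reg : ∀ v, v ≠ p → b₀ ∈ v.ring := by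
    intro v hv
    rw [hb₀]
    exact prod_mem fun u _ => hfac v u hv
  have hπb₀ : ∀ v, v ≠ p → π * b₀ ∈ v.ring := by
    intro v hv
    by_cases hvS : v ∈ S
    · rw [hb₀, ← Finset.mul_prod_erase S _ hvS, ← mul_assoc]
      exact mul_mem (hck v hvS) (prod_mem fun u _ => hfac v u hv)
    · have h1 : π ∈ v.ring := by
        by_contra h2
        exact hvS ((hS v).2 h2)
      exact mul_mem h1 (hb₀reg v hv)
  have hb₀0 : b₀ ≠ 0 := by
    rw [hb₀, Finset.prod_ne_zero_iff]
    intro v _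
    apply pow_ne_zero
    intro h
    apply hw
    rw [sub_eq_zero.1 h]
    exact isAlgebraic_algebraMap _
  obtain ⟨mb, hmb⟩ := hasOrd_exists hF p hb₀0
  obtain ⟨b, hb⟩ : ∃ b : F, b = b₀ * w ^ (mb.toNat + 2) := ⟨_, rfl⟩
  have hb0 : b ≠ 0 := by
    rw [hb]
    exact mul_ne_zero hb₀0 (pow_ne_zero _ hw0)
  have hbord := hasOrd_mul hF hmb (hasOrd_pow hF hmw (mb.toNat + 2))
  rw [← hb] at hbord
  obtain ⟨j, hj⟩ : ∃ j : ℕ, (j : ℤ) + 2 = -(mb + ((mb.toNat + 2 : ℕ) : ℤ) * mw) := by
    have h1 : mb + ((mb.toNat + 2 : ℕ) : ℤ) * mw ≤ -2 := by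
      have h2 : ((mb.toNat + 2 : ℕ) : ℤ) * mw ≤ ((mb.toNat + 2 : ℕ) : ℤ) * (-1) :=
        mul_le_mul_of_nonneg_left (by omega) (by positivity)
      push_cast at h2 ⊢
      omega
    exact ⟨(-(mb + ((mb.toNat + 2 : ℕ) : ℤ) * mw) - 2).toNat, by omega⟩
  have hbord' : HasOrd p b (-((j : ℤ) + 2)) := by
    rw [hj, neg_neg]
    exact hbord
  have hπord : HasOrd p π 1 := by
    refine ⟨π, hπ, ?_, ?_⟩
    · rw [zpow_one, div_self hπ.1]
      exact one_mem _
    · rw [zpow_one, div_self hπ.1, inv_one]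
      exact one_mem _
  have haord : HasOrd p (π * b) (-((j : ℤ) + 1)) := by
    have h1 := hasOrd_mul hF hπord hbord'
    have h2 : (1 : ℤ) + -((j : ℤ) + 2) = -((j : ℤ) + 1) := by ring
    rwa [h2] at h1
  have hbreg : ∀ v, v ≠ p → b ∈ v.ring := by
    intro v hv
    rw [hb]
    exact mul_mem (hb₀reg v hv) (pow_mem (hreg v hv) _)
  have hareg : ∀ v, v ≠ p → π * b ∈ v.ring := by
    intro v hv
    rw [hb, ← mul_assoc]
    exact mul_mem (hπb₀ v hv) (pow_mem (hreg v hv) _)
  refine ⟨(j + 2) ^ 2, fun n hn => ?_⟩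
  obtain ⟨q, r, hr, hqr⟩ : ∃ q r : ℕ, r < j + 1 ∧ n = q * (j + 1) + r :=
    ⟨n / (j + 1), n % (j + 1), Nat.mod_lt _ (Nat.succ_pos j), by
      rw [mul_comm]
      exact (Nat.div_add_mod n (j + 1)).symm⟩
  have hrq : r ≤ q := by
    by_contra h
    have h1 : q * (j + 1) ≤ j * (j + 1) := Nat.mul_le_mul_right _ (by omega)
    nlinarith
  obtain ⟨t, rfl⟩ := Nat.exists_eq_add_of_le hrq
  refine ⟨b ^ r * (π * b) ^ t, mul_ne_zero (pow_ne_zero _ hb0)
    (pow_ne_zero _ (mul_ne_zero hπ.1 hb0)), ?_, fun v hv =>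
    mul_mem (pow_mem (hbreg v hv) _) (pow_mem (hareg v hv) _)⟩
  have h1 := hasOrd_mul hF (hasOrd_pow hF hbord' r) (hasOrd_pow hF haord t)
  have h2 : (r : ℤ) * (-((j : ℤ) + 2)) + (t : ℤ) * (-((j : ℤ) + 1)) = -(n : ℤ) := by
    rw [hqr]
    push_cast
    ring
  rwa [h2] at h1

end Poles

end Pool.Agent.Clo
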