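import Mathlib

/-!
# Two small prime numbers outside a finite set

For every `N₀` there is `A` such that for every finite set `T` of `s` numbers there are two prime
numbers larger than `N₀` and not in `T`, the logarithms of which are at most
`A + 2 * log (1 + s)`. This follows from the estimate of Chebyshev for the function `θ`: if there
were at most one such prime number up to `n = c (1 + s) ^ 2`, then `θ(n)` would be at most
`θ(N₀) + (s + 1) log n`.
-/

set_option autoImplicit false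

noncomputable section

namespace Pool.Agent.Clo

private theorem PrimeCard_union (S T : Finset ℕ) {f : ℕ → ℝ} (hf : ∀ p, 0 ≤ f p) :
    ∑ p ∈ S ∪ T, f p ≤ ∑ p ∈ S, f p + ∑ p ∈ T, f p := by
  rw [← Finset.sum_union_inter]
  have h := Finset.sum_nonneg (s := S ∩ T) fun p _ => hf p
  linarith

open Chebyshev Nat in
private theorem PrimeCard_theta : ∃ n₁ : ℕ, ∀ n : ℕ, n₁ ≤ n →
    (n : ℝ) / 2 + Real.log n ≤ θ n ∧ Real.log n ≤ 1 / 100 * √n := by
  have h1 := (isLittleO_log_rpow_atTop (r := 1 / 2) (by norm_num)).def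
    (c := 1 / 100) (by norm_num)
  rw [Filter.eventually_atTop] at h1
  obtain ⟨x₀, hx₀⟩ := h1
  refine ⟨⌈x₀⌉₊ + 1, fun n hn => ?_⟩
  have hn1 : 1 ≤ n := by omega
  have hn1' : (1 : ℝ) ≤ n := by exact_mod_cast hn1
  have hxn : x₀ ≤ n := by
    have h2 := Nat.le_ceil x₀
    have h3 : ((⌈x₀⌉₊ : ℕ) : ℝ) ≤ n := by exact_mod_cast (by omega : ⌈x₀⌉₊ ≤ n)
    linarith
  have hlog : ∀ x : ℝ, 1 ≤ x → x₀ ≤ x → Real.log x ≤ 1 / 100 * √x := by
    intro x hx hx'
    have h2 := hx₀ x hx'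
    rw [Real.norm_eq_abs, Real.norm_eq_abs, abs_of_nonneg (Real.log_nonneg hx),
      abs_of_nonneg (Real.rpow_nonneg (by linarith) _), ← Real.sqrt_eq_rpow] at h2
    exact h2
  have hsq : √(n : ℝ) * √(n : ℝ) = n := Real.mul_self_sqrt (by linarith)
  have hs1 : 1 ≤ √(n : ℝ) := Real.one_le_sqrt.2 hn1'
  have hsn : √(n : ℝ) ≤ n := by nlinarith
  have hsn' : √((n : ℝ) + 1) ≤ n + 1 := by
    have h2 : √((n : ℝ) + 1) * √((n : ℝ) + 1) = n + 1 := Real.mul_self_sqrt (by linarith)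
    have h3 : 1 ≤ √((n : ℝ) + 1) := Real.one_le_sqrt.2 (by linarith)
    nlinarith
  have h2 := hlog n hn1' hxn
  have h3 := hlog (n + 1) (by linarith) (by linarith)
  have h4 := theta_ge n
  have h5 := Real.log_two_gt_d9
  have h6 : 2 * √(n : ℝ) * Real.log n ≤ 1 / 50 * n := by
    have h7 : √(n : ℝ) * Real.log n ≤ √(n : ℝ) * (1 / 100 * √(n : ℝ)) :=
      mul_le_mul_of_nonneg_left h2 (by linarith)
    nlinarith
  have h8 : (n : ℝ) * 0.69 ≤ n * Real.log 2 :=
    mul_le_mul_of_nonneg_left (by linarith) (by linarith)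
  exact ⟨by linarith, h2⟩

open Chebyshev Nat in
theorem exists_two_primes_card (N₀ : ℕ) : ∃ A : ℝ, 0 ≤ A ∧ ∀ T : Finset ℕ, ∃ l l' : ℕ,
    l.Prime ∧ l'.Prime ∧ N₀ < l ∧ l < l' ∧ l ∉ T ∧ l' ∉ T ∧
      Real.log l' ≤ A + 2 * Real.log (1 + T.card) := by
  classical
  obtain ⟨n₁, hn₁⟩ := PrimeCard_theta
  have hA : 0 ≤ θ (N₀ : ℝ) := theta_nonneg _
  obtain ⟨A, hAdef⟩ : ∃ A, A = θ (N₀ : ℝ) := ⟨_, rfl⟩
  rw [← hAdef] at hA
  obtain ⟨c, hc⟩ : ∃ c : ℕ, c = n₁ + ⌈4 * A⌉₊ + 4 := ⟨_, rfl⟩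
  have hc1 : 1 ≤ c := by omega
  have hcA : 4 * A + 4 ≤ c := by
    have h1 := Nat.le_ceil (4 * A)
    have h2 : (c : ℝ) = n₁ + (⌈4 * A⌉₊ : ℕ) + 4 := by rw [hc]; push_cast; ring
    have h3 : (0 : ℝ) ≤ n₁ := Nat.cast_nonneg _
    rw [h2]
    linarith
  have hc1' : (1 : ℝ) ≤ c := by exact_mod_cast hc1
  refine ⟨Real.log c, Real.log_nonneg hc1', fun T => ?_⟩
  obtain ⟨s, hs⟩ : ∃ s, s = T.card := ⟨_, rfl⟩
  rw [← hs]
  obtain ⟨n, hn⟩ : ∃ n, n = c * (1 + s) ^ 2 := ⟨_, rfl⟩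
  have hcn : c ≤ n := by
    rw [hn]
    exact Nat.le_mul_of_pos_right _ (by positivity)
  have hcn' : (c : ℝ) ≤ n := by exact_mod_cast hcn
  have hn0 : (0 : ℝ) < n := by linarith
  obtain ⟨hth, hlog⟩ := hn₁ n (by omega)
  have hncast : (n : ℝ) = c * (1 + s) ^ 2 := by rw [hn]; push_cast; ring
  have hsn : (s : ℝ) ≤ √n := by
    have h1 : (1 + (s : ℝ)) ≤ √n := by
      refine Real.le_sqrt_of_sq_le ?_
      rw [hncast]
      have h2 : 0 ≤ (1 + (s : ℝ)) ^ 2 := by positivity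
      nlinarith
    linarith
  have hslog : (s : ℝ) * Real.log n ≤ 1 / 100 * n := by
    have hsq : √(n : ℝ) * √(n : ℝ) = n := Real.mul_self_sqrt hn0.le
    have h0 : 0 ≤ √(n : ℝ) := Real.sqrt_nonneg _
    have h1 : (0 : ℝ) ≤ s := Nat.cast_nonneg _
    calc (s : ℝ) * Real.log n ≤ s * (1 / 100 * √n) := mul_le_mul_of_nonneg_left hlog h1
      _ ≤ √n * (1 / 100 * √n) := mul_le_mul_of_nonneg_right hsn (by positivity)
      _ = 1 / 100 * n := by rw [mul_left_comm, hsq]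
  set S := (primesLE n).filter (fun p => N₀ < p ∧ p ∉ T) with hS
  set D := (primesLE n).filter (fun p => p ∈ T) with hD
  have hpos : ∀ p : ℕ, 0 ≤ Real.log p := fun p => Real.log_natCast_nonneg p
  have hle : ∀ p ∈ primesLE n, Real.log p ≤ Real.log n := by
    intro p hp
    refine Real.log_le_log ?_ ?_
    · exact_mod_cast (prime_of_mem_primesLE hp).pos
    · exact_mod_cast le_of_mem_primesLE hp
  have hcard : 1 < S.card := by
    by_contra hcon
    have hsub : primesLE n ⊆ (primesLE N₀ ∪ D) ∪ S := by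
      intro p hp
      rw [Finset.mem_union, Finset.mem_union, hS, hD, Finset.mem_filter, Finset.mem_filter]
      by_cases h1 : N₀ < p
      · by_cases h2 : p ∈ T
        · exact Or.inl (Or.inr ⟨hp, h2⟩)
        · exact Or.inr ⟨hp, h1, h2⟩
      · refine Or.inl (Or.inl ?_)
        rw [mem_primesLE] at hp ⊢
        exact ⟨by omega, hp.2⟩
    have h1 : θ (n : ℝ) ≤ A + ∑ p ∈ D, Real.log p + ∑ p ∈ S, Real.log p := by
      rw [theta_eq_sum_primesLE_log, hAdef, theta_eq_sum_primesLE_log]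
      refine (Finset.sum_le_sum_of_subset_of_nonneg hsub fun p _ _ => hpos p).trans ?_
      refine (PrimeCard_union _ _ hpos).trans ?_
      exact add_le_add (PrimeCard_union _ _ hpos) le_rfl
    have h2 : ∑ p ∈ D, Real.log p ≤ s * Real.log n := by
      refine (Finset.sum_le_card_nsmul D _ _ fun p hp =>
        hle p (Finset.mem_filter.1 hp).1).trans ?_
      rw [nsmul_eq_mul]
      refine mul_le_mul_of_nonneg_right ?_ (hpos n)
      rw [hs]
      exact_mod_cast Finset.card_le_card fun p hp => (Finset.mem_filter.1 hp).2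
    have h3 : ∑ p ∈ S, Real.log p ≤ Real.log n := by
      refine (Finset.sum_le_card_nsmul S _ _ fun p hp =>
        hle p (Finset.mem_filter.1 hp).1).trans ?_
      rw [nsmul_eq_mul]
      have h5 : (S.card : ℝ) ≤ 1 := by exact_mod_cast not_lt.1 hcon
      have h6 : 0 ≤ Real.log (n : ℝ) := hpos n
      nlinarith
    linarith
  have hlogn : Real.log n = Real.log c + 2 * Real.log (1 + s) := by
    rw [hncast, Real.log_mul (by positivity) (by positivity), Real.log_pow]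
    norm_num
  have hfin : ∀ l ∈ S, ∀ l' ∈ S, l < l' → ∃ l l' : ℕ,
      l.Prime ∧ l'.Prime ∧ N₀ < l ∧ l < l' ∧ l ∉ T ∧ l' ∉ T ∧
      Real.log l' ≤ Real.log c + 2 * Real.log (1 + s) := by
    intro l hl l' hl' hll'
    have h1 := Finset.mem_filter.1 hl
    have h2 := Finset.mem_filter.1 hl'
    refine ⟨l, l', prime_of_mem_primesLE h1.1, prime_of_mem_primesLE h2.1, h1.2.1, hll',
      h1.2.2, h2.2.2, ?_⟩
    rw [← hlogn]
    exact hle l' h2.1
  obtain ⟨l, hl, l', hl', hne⟩ := Finset.one_lt_card.1 hcard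
  rcases lt_or_gt_of_ne hne with h | h
  · exact hfin l hl l' hl' h
  · exact hfin l' hl' l hl h

end Pool.Agent.Clo
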