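import Mathlib

/-!
# Two small prime numbers which do not divide a given number

PROOF. Let `θ` be the Chebyshev function (`Mathlib.NumberTheory.Chebyshev`), `A = θ(N₀)`. By
`Chebyshev.theta_ge` there is `n₁` such that `θ(n) - log n ≥ n / 2` for all `n ≥ n₁`. Let `d ≠ 0`
and
`n = n₁ + ⌈2 * (log d + A)⌉₊ + 1`. Claim: at least two primes in the interval `(N₀, n]` do not
divide
`d`. Otherwise there is a set of primes in this interval, all of them except at most one, the
product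
of which divides `d` (distinct primes: `Finset.prod_primes_dvd`), so
`θ(n) - A - log n ≤ log d`, that is `n / 2 ≤ log d + A`, a contradiction. So `l < l' ≤ n`, and
`n ≤ C' * (1 + log d)` with `C'` depending on `N₀` only (`d ≥ 1`, so `log d ≥ 0`), hence
`log l' ≤ log C' + log (1 + log d) ≤ C * (1 + log (1 + log d))` with `C = max 1 (log C')`.
-/

set_option autoImplicit false

noncomputable section

namespace Pool.Agent.Clo

private theorem PrimeTwo_union (S T : Finset ℕ) {f : ℕ → ℝ} (hf : ∀ p, 0 ≤ f p) :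
    ∑ p ∈ S ∪ T, f p ≤ ∑ p ∈ S, f p + ∑ p ∈ T, f p := by
  rw [← Finset.sum_union_inter]
  have h := Finset.sum_nonneg (s := S ∩ T) fun p _ => hf p
  linarith

open Chebyshev Nat in
private theorem PrimeTwo_theta : ∃ n₁ : ℕ, ∀ n : ℕ, n₁ ≤ n →
    (n : ℝ) / 2 + Real.log n ≤ θ n := by
  have h1 := (isLittleO_log_rpow_atTop (r := 1 / 2) (by norm_num)).def
    (c := 1 / 100) (by norm_num)
  rw [Filter.eventually_atTop] at h1
  obtain ⟨x₀, hx₀⟩ := h1
  refine ⟨⌈x₀⌉₊ + 1, fun n hn => ?_⟩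
  have hn1 : 1 ≤ n := by omega
  have hn1' : (1 : ℝ) ≤ n := by exact_mod_cast hn1
  have hxn : x₀ ≤ n := by
    have h2 := Nat.le_ceil x₀
    have h3 : ((⌈x₀⌉₊ : ℕ) : ℝ) ≤ n := by exact_mod_cast (by omega : ⌈x₀⌉₊ ≤ n)
    linarith
  have hlog : ∀ x : ℝ, 1 ≤ x → x₀ ≤ x → Real.log x ≤ 1 / 100 * √x := by
    intro x hx hx'
    have h2 := hx₀ x hx'
    rw [Real.norm_eq_abs, Real.norm_eq_abs, abs_of_nonneg (Real.log_nonneg hx),
      abs_of_nonneg (Real.rpow_nonneg (by linarith) _), ← Real.sqrt_eq_rpow] at h2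
    exact h2
  have hsq : √(n : ℝ) * √(n : ℝ) = n := Real.mul_self_sqrt (by linarith)
  have hs1 : 1 ≤ √(n : ℝ) := Real.one_le_sqrt.2 hn1'
  have hsn : √(n : ℝ) ≤ n := by nlinarith
  have hsn' : √((n : ℝ) + 1) ≤ n + 1 := by
    have h2 : √((n : ℝ) + 1) * √((n : ℝ) + 1) = n + 1 := Real.mul_self_sqrt (by linarith)
    have h3 : 1 ≤ √((n : ℝ) + 1) := Real.one_le_sqrt.2 (by linarith)
    nlinarith
  have h2 := hlog n hn1' hxn
  have h3 := hlog (n + 1) (by linarith) (by linarith)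
  have h4 := theta_ge n
  have h5 := Real.log_two_gt_d9
  have h6 : 2 * √(n : ℝ) * Real.log n ≤ 1 / 50 * n := by
    have h7 : √(n : ℝ) * Real.log n ≤ √(n : ℝ) * (1 / 100 * √(n : ℝ)) :=
      mul_le_mul_of_nonneg_left h2 (by linarith)
    nlinarith
  have h8 : (n : ℝ) * 0.69 ≤ n * Real.log 2 :=
    mul_le_mul_of_nonneg_left (by linarith) (by linarith)
  linarith

open Chebyshev Nat in
theorem exists_two_primes (N₀ : ℕ) : ∃ C : ℝ, 0 ≤ C ∧ ∀ d : ℕ, d ≠ 0 → ∃ l l' : ℕ,
    l.Prime ∧ l'.Prime ∧ N₀ < l ∧ l < l' ∧ ¬ l ∣ d ∧ ¬ l' ∣ d ∧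
      Real.log l' ≤ C * (1 + Real.log (1 + Real.log d)) := by
  classical
  obtain ⟨n₁, hn₁⟩ := PrimeTwo_theta
  have hA : 0 ≤ θ (N₀ : ℝ) := theta_nonneg _
  set A := θ (N₀ : ℝ) with hAdef
  set C' : ℝ := n₁ + 2 * A + 2 with hC'
  have hn₁0 : (0 : ℝ) ≤ n₁ := Nat.cast_nonneg _
  have hC'2 : 2 ≤ C' := by rw [hC']; linarith
  refine ⟨max 1 (Real.log C'), zero_le_one.trans (le_max_left _ _), fun d hd => ?_⟩
  have hd1 : (1 : ℝ) ≤ d := by exact_mod_cast Nat.one_le_iff_ne_zero.2 hd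
  have hld : 0 ≤ Real.log d := Real.log_nonneg hd1
  set n : ℕ := n₁ + ⌈2 * (Real.log d + A)⌉₊ + 1 with hn
  have hnle : (n : ℝ) ≤ C' * (1 + Real.log d) := by
    have h1 := (Nat.ceil_lt_add_one (by positivity : 0 ≤ 2 * (Real.log d + A))).le
    have h2 : (n : ℝ) = n₁ + (⌈2 * (Real.log d + A)⌉₊ : ℕ) + 1 := by rw [hn]; push_cast; ring
    have h3 : 2 * Real.log d ≤ C' * Real.log d := mul_le_mul_of_nonneg_right hC'2 hld
    have h4 : C' * (1 + Real.log d) = n₁ + 2 * A + 2 + C' * Real.log d := by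
      rw [mul_add, mul_one, hC']
    rw [h2, h4]
    linarith
  have hnge : 2 * (Real.log d + A) < n := by
    have h1 := Nat.le_ceil (2 * (Real.log d + A))
    have h2 : (n : ℝ) = n₁ + (⌈2 * (Real.log d + A)⌉₊ : ℕ) + 1 := by rw [hn]; push_cast; ring
    rw [h2]
    linarith
  have hn0 : (0 : ℝ) < n := by rw [hn]; positivity
  have hn1 : 1 ≤ n := by omega
  have hth := hn₁ n (by omega)
  set S := (primesLE n).filter (fun p => N₀ < p ∧ ¬ p ∣ d) with hS
  set D := (primesLE n).filter (fun p => N₀ < p ∧ p ∣ d) with hD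
  have hcard : 1 < S.card := by
    by_contra hc
    have hsub : primesLE n ⊆ (primesLE N₀ ∪ D) ∪ S := by
      intro p hp
      rw [Finset.mem_union, Finset.mem_union, hS, hD, Finset.mem_filter, Finset.mem_filter]
      by_cases h1 : N₀ < p
      · by_cases h2 : p ∣ d
        · exact Or.inl (Or.inr ⟨hp, h1, h2⟩)
        · exact Or.inr ⟨hp, h1, h2⟩
      · refine Or.inl (Or.inl ?_)
        rw [mem_primesLE] at hp ⊢
        exact ⟨by omega, hp.2⟩
    have hpos : ∀ p : ℕ, 0 ≤ Real.log p := fun p => Real.log_natCast_nonneg p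
    have h1 : θ (n : ℝ) ≤ A + ∑ p ∈ D, Real.log p + ∑ p ∈ S, Real.log p := by
      rw [theta_eq_sum_primesLE_log, hAdef, theta_eq_sum_primesLE_log]
      refine (Finset.sum_le_sum_of_subset_of_nonneg hsub fun p _ _ => hpos p).trans ?_
      refine (PrimeTwo_union _ _ hpos).trans ?_
      exact add_le_add (PrimeTwo_union _ _ hpos) le_rfl
    have h2 : ∑ p ∈ D, Real.log p ≤ Real.log d := by
      rw [← Real.log_prod (fun p hp => ?_), ← Nat.cast_prod]
      · refine Real.log_le_log ?_ ?_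
        · have h3 : 0 < ∏ p ∈ D, p := Finset.prod_pos fun p hp =>
            (prime_of_mem_primesLE (Finset.mem_filter.1 hp).1).pos
          exact_mod_cast h3
        · have h3 : ∏ p ∈ D, p ∣ d := Finset.prod_primes_dvd d
            (fun p hp => (prime_of_mem_primesLE (Finset.mem_filter.1 hp).1).prime)
            (fun p hp => (Finset.mem_filter.1 hp).2.2)
          exact_mod_cast Nat.le_of_dvd (Nat.pos_of_ne_zero hd) h3
      · have h3 := (prime_of_mem_primesLE (Finset.mem_filter.1 hp).1).pos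
        exact_mod_cast h3.ne'
    have h3 : ∑ p ∈ S, Real.log p ≤ Real.log n := by
      have h4 : ∀ p ∈ S, Real.log p ≤ Real.log n := by
        intro p hp
        have h5 := (Finset.mem_filter.1 hp).1
        refine Real.log_le_log ?_ ?_
        · exact_mod_cast (prime_of_mem_primesLE h5).pos
        · exact_mod_cast le_of_mem_primesLE h5
      refine (Finset.sum_le_card_nsmul S _ _ h4).trans ?_
      rw [nsmul_eq_mul]
      have h5 : (S.card : ℝ) ≤ 1 := by exact_mod_cast not_lt.1 hc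
      have h6 : 0 ≤ Real.log (n : ℝ) := hpos n
      nlinarith
    linarith
  have hfin : ∀ l ∈ S, ∀ l' ∈ S, l < l' → ∃ l l' : ℕ,
      l.Prime ∧ l'.Prime ∧ N₀ < l ∧ l < l' ∧ ¬ l ∣ d ∧ ¬ l' ∣ d ∧
      Real.log l' ≤ max 1 (Real.log C') * (1 + Real.log (1 + Real.log d)) := by
    intro l hl l' hl' hll'
    have h1 := Finset.mem_filter.1 hl
    have h2 := Finset.mem_filter.1 hl'
    refine ⟨l, l', prime_of_mem_primesLE h1.1, prime_of_mem_primesLE h2.1, h1.2.1, hll',
      h1.2.2, h2.2.2, ?_⟩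
    have h3 : Real.log l' ≤ Real.log n := by
      refine Real.log_le_log ?_ ?_
      · exact_mod_cast (prime_of_mem_primesLE h2.1).pos
      · exact_mod_cast le_of_mem_primesLE h2.1
    have h4 : Real.log n ≤ Real.log C' + Real.log (1 + Real.log d) := by
      rw [← Real.log_mul (by linarith) (by linarith)]
      exact Real.log_le_log hn0 hnle
    have h5 : 0 ≤ Real.log (1 + Real.log d) := Real.log_nonneg (by linarith)
    have h6 := le_max_left 1 (Real.log C')
    have h7 := le_max_right 1 (Real.log C')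
    nlinarith
  obtain ⟨l, hl, l', hl', hne⟩ := Finset.one_lt_card.1 hcard
  rcases lt_or_gt_of_ne hne with h | h
  · exact hfin l hl l' hl' h
  · exact hfin l' hl' l hl h

end Pool.Agent.Clo
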