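import Pool.Agent.Clo.OrbB

/-!
# Fields without large alternating groups: a definition in terms of the absolute Galois group
-/

set_option autoImplicit false

noncomputable section

namespace Pool.Agent.Clo

open Pool.Agent.ZCyc Pool.Agent.Dess
open scoped Classical

/-- There is a homomorphism `f` from the subgroup `P` of the absolute Galois group of `ℚ` onto the
alternating group of degree `N`, such that `f ρ = 1` for all `ρ ∈ P` which fix the numbers in `Y`. -/
def AltImage (P : Subgroup Gam) (Y : Finset QQ) (N : ℕ) : Prop :=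
  ∃ f : Gam → Equiv.Perm (Fin N), (∀ ρ ∈ P, ∀ ρ' ∈ P, f (ρ * ρ') = f ρ * f ρ') ∧
    (∀ ρ ∈ P, (∀ c ∈ Y, ρ c = c) → f ρ = 1) ∧ f '' (P : Set Gam) = alternatingGroup (Fin N)

/-- The field `K` is normal over `ℚ`, and the alternating groups of degree `N ≥ n` are not involved
in its Galois group: they are not quotients of subgroups of the Galois groups of finite normal
extensions which are contained in `K`. -/
def NoAltSec (n : ℕ) (K : IntermediateField ℚ QQ) : Prop :=
  Normal ℚ K ∧ ∀ (P : Subgroup Gam) (Y : Finset QQ) (N : ℕ), n ≤ N → (∀ c ∈ Y, c ∈ K) →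
    ¬ AltImage P Y N

/-- The field `K` is contained in the compositum of a mildly ramified field `K1` and of a normal
extension `K2` of `ℚ` such that alternating groups of degree at least `n` are not involved in the
Galois group of `K2`. -/
def TameField (n : ℕ) (K : IntermediateField ℚ QQ) : Prop :=
  ∃ K1 K2 : IntermediateField ℚ QQ, Mild K1 ∧ NoAltSec n K2 ∧ K ≤ K1 ⊔ K2

private theorem core_TameDef {k L : Type} [Field k] [Field L] [Algebra k L] [Normal k L]
    {E : IntermediateField k L} (hn : Normal k E) (hfin : FiniteDimensional k E) {N : ℕ}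
    {P : Subgroup (E ≃ₐ[k] E)} {f : P →* alternatingGroup (Fin N)}
    (hf : Function.Surjective f) :
    ∃ (P' : Subgroup (L ≃ₐ[k] L)) (Y : Finset L) (f' : (L ≃ₐ[k] L) → Equiv.Perm (Fin N)),
      (∀ c ∈ Y, c ∈ E) ∧ (∀ ρ ∈ P', ∀ ρ' ∈ P', f' (ρ * ρ') = f' ρ * f' ρ') ∧
      (∀ ρ ∈ P', (∀ c ∈ Y, ρ c = c) → f' ρ = 1) ∧
      f' '' (P' : Set (L ≃ₐ[k] L)) = alternatingGroup (Fin N) := by
  obtain ⟨T, hT⟩ : ∃ T : Finset L, IntermediateField.adjoin k (T : Set L) = E := by
    have h0 : Module.Finite k E.toSubalgebra.toSubmodule := hfin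
    have h1 : E.FG := IntermediateField.fg_of_fg_toSubalgebra E
      (Subalgebra.fg_of_fg_toSubmodule (Module.Finite.iff_fg.1 h0))
    exact h1
  let res : (L ≃ₐ[k] L) →* (E ≃ₐ[k] E) := AlgEquiv.restrictNormalHom E
  have hres : Function.Surjective res := AlgEquiv.restrictNormalHom_surjective L
  obtain ⟨f', hf'⟩ : ∃ f' : (L ≃ₐ[k] L) → Equiv.Perm (Fin N), ∀ (ρ : L ≃ₐ[k] L)
      (h : res ρ ∈ P), f' ρ = (f ⟨res ρ, h⟩ : Equiv.Perm (Fin N)) :=
    ⟨fun ρ => if h : res ρ ∈ P then (f ⟨res ρ, h⟩ : Equiv.Perm (Fin N)) else 1,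
      fun ρ h => dif_pos h⟩
  refine ⟨P.comap res, T, f', ?_, ?_, ?_, ?_⟩
  · intro c hc
    rw [← hT]
    exact IntermediateField.subset_adjoin k _ hc
  · intro ρ hρ ρ' hρ'
    rw [Subgroup.mem_comap] at hρ hρ'
    have h1 : res (ρ * ρ') ∈ P := by
      rw [map_mul]
      exact P.mul_mem hρ hρ'
    rw [hf' _ h1, hf' _ hρ, hf' _ hρ']
    have h2 : (⟨res (ρ * ρ'), h1⟩ : P) = ⟨res ρ, hρ⟩ * ⟨res ρ', hρ'⟩ :=
      Subtype.ext (map_mul res ρ ρ')
    rw [h2, map_mul]
    rfl
  · intro ρ hρ hfix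
    rw [Subgroup.mem_comap] at hρ
    rw [hf' _ hρ]
    have h1 : ∀ x ∈ E, ρ x = x := by
      intro x hx
      rw [← hT] at hx
      induction hx using IntermediateField.adjoin_induction with
      | mem x hx => exact hfix x hx
      | algebraMap x => exact ρ.commutes x
      | add x y _ _ hx hy => rw [map_add, hx, hy]
      | inv x _ hx => rw [map_inv₀, hx]
      | mul x y _ _ hx hy => rw [map_mul, hx, hy]
    have h2 : res ρ = 1 := by
      ext x
      have h3 := AlgEquiv.restrictNormal_commutes ρ E x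
      have h4 : (algebraMap E L) ((ρ.restrictNormal E) x) = x := h3.trans (h1 x x.2)
      exact h4
    have h3 : (⟨res ρ, hρ⟩ : P) = 1 := Subtype.ext h2
    rw [h3, map_one]
    rfl
  · ext g
    constructor
    · rintro ⟨ρ, hρ, rfl⟩
      have hρ' : res ρ ∈ P := hρ
      rw [hf' _ hρ']
      exact (f ⟨res ρ, hρ'⟩).2
    · intro hg
      obtain ⟨x, hx⟩ := hf ⟨g, hg⟩
      obtain ⟨ρ, hρ⟩ := hres x.1
      have hρ' : res ρ ∈ P := by
        rw [hρ]
        exact x.2
      refine ⟨ρ, hρ', ?_⟩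
      rw [hf' _ hρ']
      have h1 : (⟨res ρ, hρ'⟩ : P) = x := Subtype.ext hρ
      rw [h1, hx]

private theorem transfer_TameDef {F : Type} [Field F] {i j : Algebra ℚ F} {N : ℕ}
    (H : ∀ (P : Subgroup (@AlgEquiv ℚ F F _ _ _ i i)) (f : P →* alternatingGroup (Fin N)),
      ¬ Function.Surjective f) (P : Subgroup (@AlgEquiv ℚ F F _ _ _ j j))
    (f : P →* alternatingGroup (Fin N)) : ¬ Function.Surjective f := by
  have h : i = j := Subsingleton.elim _ _
  subst h
  exact H P f

theorem NoAltSec.noAlt {n : ℕ} {K : IntermediateField ℚ QQ} (h : NoAltSec n K) : NoAlt n K := by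
  refine ⟨h.1, fun E hE hfin hnor N hN => ?_⟩
  have hnor' : @Normal ℚ E _ _ E.algebra' := by
    have e : (E.algebra' : Algebra ℚ E) = DivisionRing.toRatAlgebra := Subsingleton.elim _ _
    rw [e]
    exact hnor
  refine transfer_TameDef (i := E.algebra') fun P f hf => ?_
  obtain ⟨P', Y, f', h1, h2, h3, h4⟩ := core_TameDef (k := ℚ) (L := QQ) hnor' hfin hf
  exact h.2 P' Y N hN (fun c hc => hE (h1 c hc)) ⟨f', h2, h3, h4⟩

theorem TameField.tame {n : ℕ} {K : IntermediateField ℚ QQ} (h : TameField n K) : Tame n K := by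
  obtain ⟨K1, K2, h1, h2, h3⟩ := h
  exact ⟨K1, K2, h1, h2.noAlt, h3⟩

end Pool.Agent.Clo
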