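import Pool.Agent.Clo.QMain
import Pool.Agent.Clo.SigUniv2
import Pool.Agent.Clo.TameDef
import Pool.Agent.Clo.New4

/-!
# Finite sets of points
-/

set_option autoImplicit false

noncomputable section

namespace Pool.Agent.Clo

open Pool.Agent.ZCyc Pool.Agent.Dess NumberField
open scoped Classical

variable {ι : Type} {L : ι → Type} [∀ i, Field (L i)] [∀ i, Algebra QQ (L i)]

/-- There are only finitely many points with bounded heights and degrees. -/
theorem finite_size [Finite ι] (hL : ∀ i, IsCurve QQ (L i)) (B : ∀ i, L i → ℝ) (a : ℝ) (k : ℕ) :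
    {x : ∀ i, Place QQ (L i) | SizeLe B a k x}.Finite := by
  choose f hf _ using id hL
  have h1 : ∀ i, {p : Place QQ (L i) | ∀ c : QQ, p.At (f i) c →
      absLogHeight₁ c ≤ B i (f i) * a ∧
        c ∈ {c : QQ | (minpoly ℚ c).natDegree ≤ ⌊B i (f i) * k⌋₊}}.Finite := fun i =>
    northcott_points (hL i) (hf i) (northcott_degree _) _
  refine (Set.Finite.pi h1).subset ?_
  intro x hx i _ c hc
  obtain ⟨h2, h3⟩ := hx i (f i) c hc
  exact ⟨h2, Nat.le_floor h3⟩

/-- If the cycles can be chosen with points in one finite set, for all number fields, then the cycle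
is torsion. -/
theorem torsion_of_finite [Fintype ι] (hL : ∀ i, IsCurve QQ (L i)) {S : ∀ i, Finset (L i)}
    (hS : ∀ i, IntermediateField.adjoin QQ (S i : Set (L i)) = ⊤)
    {E : Set (∀ i, Place QQ (L i))} (hE : E.Finite) {z : (∀ i, Place QQ (L i)) →₀ ℤ}
    (h : ∀ K : IntermediateField ℚ QQ, NumberField K → ∃ m N : ℕ, 0 < m ∧
      NewSum K S E N (m • z)) : RatTor L z := by
  choose w hw1 hw2 using fun (i : ι) (p : Place QQ (L i)) => exists_pole (hL i) p
  obtain ⟨C, hC⟩ := exists_coeffs_newSum hS fun i => (hE.toFinset.image fun x => x i).image (w i)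
  have hfin : FiniteDimensional ℚ (IntermediateField.adjoin ℚ (C : Set QQ)) :=
    IntermediateField.finiteDimensional_adjoin fun c _ => Algebra.IsIntegral.isIntegral c
  obtain ⟨m, N, hm, hN⟩ := h (IntermediateField.adjoin ℚ (C : Set QQ)) (numberField_Ram _)
  obtain ⟨l, -, hl, hr⟩ := hC _ (fun c hc => IntermediateField.subset_adjoin ℚ _ hc) E N _ hN
  refine ⟨m, hm, ?_⟩
  have h0 : ∀ g ∈ l, g = 0 := by
    intro g hg
    obtain ⟨ρ, r, x, x', i, j, h1, h2, h3, h4, h5, h6, h7⟩ := hl g hg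
    have hx : ∀ l, x' l = x l := by
      intro l
      refine moves_pole (h3 l) ((h2 l).1 _ ?_) (hw1 l _) (hw2 l _)
      exact Finset.mem_image_of_mem (w l) (Finset.mem_image_of_mem (fun x => x l)
        (hE.mem_toFinset.2 h5))
    have h9 : mix x x' i j = 0 := by
      rw [mix_congr (hx i) (hx j), mix_self]
    rcases h7 with h7 | h7
    · rw [h7, h9]
    · rw [h7, h9, neg_zero]
  rw [Multiset.sum_eq_zero h0, zero_sub] at hr
  have h1 := (RatEq L).neg_mem hr
  rwa [neg_neg] at h1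

/-- THEOREM Q. -/
theorem newSum_size [Fintype ι] (hL : ∀ i, IsCurve QQ (L i)) {n : ℕ} (hn : 5 ≤ n)
    {z : (∀ i, Place QQ (L i)) →₀ ℤ} (hz : AlbKer L z) : ∃ (m N : ℕ) (B : ∀ i, L i → ℝ), 0 < m ∧
      ∀ S : ∀ i, Finset (L i), ∃ A : ℝ, ∀ (K K1 K2 : IntermediateField ℚ QQ) (T : Finset ℕ),
        UnrOutside T K1 → NoAltSec n K2 → K ≤ K1 ⊔ K2 → ∀ k : ℕ, 0 < k → NewSum K S
          {x | SizeLe B (1 + (A + Real.log (1 + T.card)) / k) k x} N (m • z) := by
  obtain ⟨m, N, B, hm, h⟩ := albKer_size hL hn hz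
  refine ⟨m, N, B, hm, fun S => ?_⟩
  obtain ⟨A, -, hA⟩ := h S
  exact ⟨A, fun K K1 K2 T hK1 hK2 hK k hk => hA K _ ⟨K1, K2, T, hK1, hK2.noAlt, hK, rfl⟩ k hk⟩

end Pool.Agent.Clo
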