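import Pool.Agent.Clo.SigNew2
import Pool.Agent.Clo.SigState
import Pool.Agent.Clo.HtLin
import Pool.Agent.Clo.DegLin

/-!
# New cycles at points of small height and small degree

As in `SigNew.lean`, but with bounds for both the heights and the degrees of the points.
-/

set_option autoImplicit false

noncomputable section

namespace Pool.Agent.Clo

open Pool.Agent.ZCyc Pool.Agent.Dess Pool.Agent.Dess4
open scoped Classical

section Size

variable {ι : Type} {L : ι → Type} [∀ i, Field (L i)] [∀ i, Algebra QQ (L i)]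

/-- For all functions `f` on the curve `i`, the value of `f` at the coordinate `x i` is infinite or
has height at most `B i f * a` and degree at most `B i f * k`. -/
def SizeLe (B : ∀ i, L i → ℝ) (a : ℝ) (k : ℕ) (x : ∀ i, Place QQ (L i)) : Prop :=
  ∀ (i : ι) (f : L i) (c : QQ), (x i).At f c → NumberField.absLogHeight₁ c ≤ B i f * a ∧
    ((minpoly ℚ c).natDegree : ℝ) ≤ B i f * k

/-- larger bounds -/
theorem SizeLe.mono {B B' : ∀ i, L i → ℝ} {a : ℝ} {k : ℕ} {x : ∀ i, Place QQ (L i)}
    (h : SizeLe B a k x) (hB : ∀ i f, B i f ≤ B' i f) (ha : 0 ≤ a) : SizeLe B' a k x := by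
  intro i f c hc
  obtain ⟨h1, h2⟩ := h i f c hc
  exact ⟨h1.trans (mul_le_mul_of_nonneg_right (hB i f) ha),
    h2.trans (mul_le_mul_of_nonneg_right (hB i f) (Nat.cast_nonneg k))⟩

/-- larger constants -/
theorem SizeLe.scale {B : ∀ i, L i → ℝ} {C a b : ℝ} {k : ℕ} {x : ∀ i, Place QQ (L i)}
    (h : SizeLe B b k x) (hb : b ≤ C * a) (hC : 1 ≤ C) (hk : 0 < k) :
    SizeLe (fun i f => C * B i f) a k x := by
  intro i f c hc
  obtain ⟨h1, h2⟩ := h i f c hc
  have hk' : (0 : ℝ) < k := by exact_mod_cast hk
  have hB : 0 ≤ B i f := by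
    by_contra hcon
    push Not at hcon
    have h3 : B i f * k < 0 := mul_neg_of_neg_of_pos hcon hk'
    have h4 : (0 : ℝ) ≤ ((minpoly ℚ c).natDegree : ℝ) := Nat.cast_nonneg _
    linarith
  refine ⟨h1.trans ?_, h2.trans ?_⟩
  · calc B i f * b ≤ B i f * (C * a) := mul_le_mul_of_nonneg_left hb hB
      _ = C * B i f * a := by ring
  · calc B i f * k = 1 * (B i f * k) := (one_mul _).symm
      _ ≤ C * (B i f * k) := mul_le_mul_of_nonneg_right hC (mul_nonneg hB hk'.le)
      _ = C * B i f * k := by ring

variable {F : Type} [Field F] [Algebra QQ F]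

/-- heights and degrees on the image of a morphism -/
theorem size_pull {Φ : (Bool → Place QQ F) → ∀ i, Place QQ (L i)}
    (hΦ : IsMor (L := fun _ : Bool => F) Φ) (B : F → ℝ) :
    ∃ B' : ∀ i, L i → ℝ, ∀ (a : ℝ) (k : ℕ) (x : Bool → Place QQ F), 1 ≤ a → 0 < k →
      SizeLe (L := fun _ : Bool => F) (fun _ => B) a k x → SizeLe B' a k (Φ x) := by
  have key : ∀ (i : ι) (f : L i), ∃ b : ℝ, ∀ (a : ℝ) (k : ℕ) (x : Bool → Place QQ F), 1 ≤ a →
      0 < k → SizeLe (L := fun _ : Bool => F) (fun _ => B) a k x →
      ∀ c : QQ, (Φ x i).At f c → NumberField.absLogHeight₁ c ≤ b * a ∧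
        ((minpoly ℚ c).natDegree : ℝ) ≤ b * k := by
    intro i f
    rcases hΦ i with ⟨p, hp⟩ | ⟨c, e, he⟩
    · by_cases hf : ∃ c : QQ, p.At f c
      · obtain ⟨c₀, hc₀⟩ := hf
        refine ⟨NumberField.absLogHeight₁ c₀ + (minpoly ℚ c₀).natDegree,
          fun a k x ha hk _ c hc => ?_⟩
        rw [hp] at hc
        rw [hc.unique hc₀]
        have h1 := ht_nonneg c₀
        have h2 : (0 : ℝ) ≤ ((minpoly ℚ c₀).natDegree : ℝ) := Nat.cast_nonneg _
        have hk' : (1 : ℝ) ≤ k := by exact_mod_cast hk
        constructor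
        · nlinarith
        · nlinarith
      · refine ⟨0, fun a k x _ _ _ c hc => ?_⟩
        rw [hp] at hc
        exact absurd ⟨c, hc⟩ hf
    · refine ⟨B (e f), fun a k x _ _ hx d hd => hx c (e f) d ?_⟩
      unfold Place.At at hd ⊢
      rw [Place.vanishes_iff_or] at hd ⊢
      have h1 : ∀ g : L i, g ∈ (Φ x i).ring ↔ e g ∈ (x c).ring := by
        intro g
        rw [he, ValuationSubring.mem_comap]
        rfl
      rw [h1, map_inv₀, map_sub, AlgHom.commutes] at hd
      rcases hd with hd | hd
      · left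
        have h2 := congrArg e hd
        rwa [map_sub, AlgHom.commutes, map_zero] at h2
      · exact Or.inr hd
  choose b hb using key
  exact ⟨b, fun a k x ha hk hx i f c hc => hb i f a k x ha hk hx c hc⟩

end Size

section Main

variable {ι : Type} {L : ι → Type} [∀ i, Field (L i)] [∀ i, Algebra QQ (L i)]

theorem symbol_size [Finite ι] (hL : ∀ i, IsCurve QQ (L i)) {i j : ι} (hij : i ≠ j)
    (a : ∀ l, Place QQ (L l)) {p : Place QQ (L i)} {q : Place QQ (L j)} (hp : a i ≠ p)
    (hq : a j ≠ q) :
    ∃ (F : Type) (_ : Field F) (_ : Algebra QQ F) (P O : Place QQ F), IsCurve QQ F ∧ P ≠ O ∧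
      ∀ (φ y z u : F) (r : Place QQ F) (n1 n2 m e1 e2 e3 : ℕ),
        Fib φ y z u P O r n1 n2 m e1 e2 e3 →
          ∃ (B : ∀ i, L i → ℝ) (Bad : Finset QQ), ∀ S : ∀ i, Finset (L i), ∃ S' : Finset F,
            ∀ (K : IntermediateField ℚ QQ) (b : ℝ) (k : ℕ), 1 ≤ b → 0 < k →
              (∃ t : QQ, t ∉ Bad ∧ 1 + NumberField.absLogHeight₁ t ≤ b ∧
                (minpoly ℚ t).natDegree ≤ k ∧ ∀ x x' : Place QQ F,
                x.At φ t → x'.At φ t → ∃ (ρ : Gam) (r : F ≃+* F), (∀ c ∈ K, ρ c = c) ∧
                  Fixes S' ρ r ∧ Moves r x x') →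
              NewSum K S {x | SizeLe B b k x} ((n1 + n2) * (n1 + n2))
                ((2 * (n1 * n2)) • symb a i j p q) := by
  let s : Bool → ι := fun b => cond b j i
  let A : ∀ b, Place QQ (L (s b)) := fun b => a (s b)
  let B : ∀ b, Place QQ (L (s b)) := fun b => match b with
    | true => q
    | false => p
  obtain ⟨F, _, _, F₀, P, O, f, hF, hgen, hact, hP, hO⟩ := joint (fun b => L (s b))
    (fun b => hL (s b)) A B (by rintro (_ | _); exacts [hp, hq])
  have hPO : P ≠ O := by
    intro hPO
    apply hp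
    apply Place.ext
    have h1 := hP false
    have h2 := hO false
    rw [hPO, h2] at h1
    exact h1.symm
  have hpull : ∀ (b : Bool) (v : Place QQ F), ∃ w : Place QQ (L (s b)),
      v.ring.comap (f b : L (s b) →+* F) = w.ring := fun b v =>
    exists_pull (hL (s b)) hF (RingEquiv.refl QQ) (f b : L (s b) →+* F)
      (fun c => (f b).commutes c) v
  choose g hg using hpull
  have hgP0 : g false P = a i := Place.ext ((hg false P).symm.trans (hP false))
  have hgP1 : g true P = a j := Place.ext ((hg true P).symm.trans (hP true))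
  have hgO0 : g false O = p := Place.ext ((hg false O).symm.trans (hO false))
  have hgO1 : g true O = q := Place.ext ((hg true O).symm.trans (hO true))
  have h1 : two a i j (g false) (g true) (pair (L := fun _ => F) P P) = a := by
    simp only [two, pair, hgP0, hgP1, Function.update_eq_self]
  have h2 : two a i j (g false) (g true) (pair (L := fun _ => F) P O) =
      Function.update a j q := by
    simp only [two, pair, hgP0, hgO1, Function.update_eq_self]
  have h3 : two a i j (g false) (g true) (pair (L := fun _ => F) O P) =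
      Function.update a i p := by
    simp only [two, pair, hgO0, hgP1]
    rw [Function.update_comm hij, Function.update_eq_self]
  have h4 : two a i j (g false) (g true) (pair (L := fun _ => F) O O) =
      Function.update (Function.update a i p) j q := by
    simp only [two, pair, hgO0, hgO1]
  have h5 : symb a i j p q = (square P O).mapDomain (two a i j (g false) (g true)) := by
    rw [symb, map_square, h1, h2, h3, h4]
    abel
  obtain ⟨S', hS'⟩ := two_data' hL hF (P := P) (O := O) a hij (f := f false) (f' := f true)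
    (g := g false) (g' := g true) (fun v => (hg false v).symm) (fun v => (hg true v).symm)
  refine ⟨F, inferInstance, inferInstance, P, O, hF, hPO, ?_⟩
  intro φ y z u r n1 n2 m e1 e2 e3 h
  have htr := h.transc hF
  choose C hC0 hC using fun f : F => height_linear hF f htr
  choose D hD using fun f : F => degree_linear hF f htr
  obtain ⟨B', hB'⟩ := size_pull (two_isMor a hij (f := f false) (f' := f true)
      (fun v => (hg false v).symm) (fun v => (hg true v).symm)) fun f => max (C f) (D f)
  have hBad := finite_crit hF htr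
  refine ⟨B', hBad.toFinset, fun S => ⟨S' S, fun K b k hb hk ⟨t, ht1, ht2, ht3, ht4⟩ => ?_⟩⟩
  rw [h5]
  refine hS' φ y z u r n1 n2 m e1 e2 e3 h K _ S ⟨t, ?_,
    fun x hx => hB' b k (fun _ => x) hb hk ?_, ht4⟩
  · intro v hv
    by_contra hu
    exact ht1 (hBad.mem_toFinset.2 ⟨v, hv, hu⟩)
  intro _ f c hc
  have hb0 : 0 ≤ b := by linarith
  constructor
  · calc NumberField.absLogHeight₁ c ≤ C f * (1 + NumberField.absLogHeight₁ t) :=
        hC f x c t hc hx
      _ ≤ C f * b := mul_le_mul_of_nonneg_left ht2 (hC0 f)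
      _ ≤ max (C f) (D f) * b := mul_le_mul_of_nonneg_right (le_max_left _ _) hb0
  · have h6 : (minpoly ℚ c).natDegree ≤ D f * k :=
      (hD f x c t hc hx).trans (Nat.mul_le_mul_left _ ht3)
    calc ((minpoly ℚ c).natDegree : ℝ) ≤ ((D f * k : ℕ) : ℝ) := by exact_mod_cast h6
      _ = D f * k := by push_cast; ring
      _ ≤ max (C f) (D f) * k := mul_le_mul_of_nonneg_right (le_max_right _ _)
        (Nat.cast_nonneg k)

end Main

end Pool.Agent.Clo
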