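import Pool.Agent.Clo.OrbB

/-!
# Transitivity on the fibres for all parameters

`Param K1 N₀ D t` implies that the automorphisms over `K ≤ K1 ⊔ K2` act transitively on the fibre
over `t`, if large alternating groups are not involved in the Galois group of `K2`.
-/

set_option autoImplicit false

noncomputable section

namespace Pool.Agent.Clo

open Pool.Agent.ZCyc Pool.Agent.Dess Pool.Agent.Dess4
open scoped Classical

variable {F : Type} [Field F] [Algebra QQ F]

/-- the alternating group is transitive -/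
private lemma alt_QTrans {α : Type} [Fintype α] [DecidableEq α] (hα : 3 ≤ Fintype.card α)
    (x x' : α) : ∃ g ∈ alternatingGroup α, g x = x' := by
  by_cases hx : x = x'
  · exact ⟨1, one_mem _, by rw [hx]; rfl⟩
  · obtain ⟨y, hy⟩ : ∃ y : α, y ∉ ({x, x'} : Finset α) := by
      by_contra hc
      push Not at hc
      have h1 : (Finset.univ : Finset α) ⊆ {x, x'} := fun y _ => hc y
      have h2 := Finset.card_le_card h1
      rw [Finset.card_univ] at h2
      have h3 := Finset.card_le_two (a := x) (b := x')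
      omega
    simp only [Finset.mem_insert, Finset.mem_singleton, not_or] at hy
    refine ⟨Equiv.swap x x' * Equiv.swap x' y, ?_, ?_⟩
    · rw [Equiv.Perm.mem_alternatingGroup, map_mul, Equiv.Perm.sign_swap hx,
        Equiv.Perm.sign_swap (Ne.symm hy.2)]
      decide
    · rw [Equiv.Perm.mul_apply, Equiv.swap_apply_of_ne_of_ne hx (Ne.symm hy.1),
        Equiv.swap_apply_left]

/-- an automorphism which fixes `K1` and `K2` fixes their compositum -/
private lemma sup_QTrans {K1 K2 : IntermediateField ℚ QQ} {ρ : Gam} (h1 : ∀ c ∈ K1, ρ c = c)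
    (h2 : ∀ c ∈ K2, ρ c = c) : ∀ c ∈ K1 ⊔ K2, ρ c = c := by
  have key : ∀ (σ : Gam), σ ∈ Subgroup.zpowers ρ → ∀ c : QQ, ρ c = c → σ c = c := by
    rintro σ ⟨n, rfl⟩ c hc
    have h3 : ρ ∈ MulAction.stabilizer Gam c := hc
    exact (MulAction.stabilizer Gam c).zpow_mem h3 n
  have h3 : K1 ⊔ K2 ≤ IntermediateField.fixedField (Subgroup.zpowers ρ) :=
    sup_le (fun c hc σ => key σ.1 σ.2 c (h1 c hc)) fun c hc σ => key σ.1 σ.2 c (h2 c hc)
  intro c hc
  exact h3 hc ⟨ρ, Subgroup.mem_zpowers ρ⟩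

theorem trans_param {n : ℕ} (hn : 5 ≤ n) (hF : IsCurve QQ F) {φ y z u : F} {p q r : Place QQ F}
    {n1 n2 m e1 e2 e3 : ℕ} (h : Fib φ y z u p q r n1 n2 m e1 e2 e3) (hN : (n1 + n2).Prime)
    (hn2 : n2.Prime) (h1 : n1 + n2 < 2 * n2) (h2 : n2 + 3 ≤ n1 + n2) (hX : n ≤ n1 + n2)
    (S : Finset F) (Bad : Finset QQ) : ∃ N₀ : ℕ, ∀ (K K1 K2 : IntermediateField ℚ QQ) (t : QQ),
      NoAlt n K2 → K ≤ K1 ⊔ K2 → Param K1 N₀ (n1 * n2 * m) t → t ∉ Bad ∧
        ∀ x x' : Place QQ F, x.At φ t → x'.At φ t → ∃ (ρ : Gam) (r : F ≃+* F),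
          (∀ c ∈ K, ρ c = c) ∧ Fixes S ρ r ∧ Moves r x x' := by
  have htr := h.transc hF
  have hBad := finite_crit hF htr
  obtain ⟨S', C, N₀, -, -, hS, hφ, hz, hgen, hlift, hcore⟩ :=
    orbit_core hF h S (Bad ∪ hBad.toFinset) ∅
  refine ⟨N₀, fun K K1 K2 t hK2 hK P => ?_⟩
  obtain ⟨ht1, htrans, hval⟩ := hcore K1 t P
  rw [Finset.mem_union, not_or] at ht1
  refine ⟨ht1.1, ?_⟩
  obtain ⟨s, hs⟩ : ∃ s : Finset (Place QQ F), ∀ v, v ∈ s ↔ v.At φ t :=
    ⟨(finite_at hF htr t).toFinset, fun v => by simp⟩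
  have hfib : IsFibre φ p q n1 n2 t s :=
    { curve := hF
      transc := htr
      ne := h.ne
      pole_p := h.ordp
      pole_q := h.ordq
      n1_pos := h.n1_pos
      n2_pos := h.n2_pos
      reg := h.reg
      mem := hs
      unif := by
        intro v hv
        by_contra hu
        exact ht1.2 (hBad.mem_toFinset.2 ⟨v, hv, hu⟩) }
  obtain ⟨E, hE⟩ : ∃ E, E = K1 ⊔ IntermediateField.adjoin ℚ (C : Set QQ) ⊔
    IntermediateField.adjoin ℚ {t} := ⟨_, rfl⟩
  rw [← hE] at htrans hval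
  have htE : t ∈ E := by
    rw [hE]
    exact (le_sup_right : IntermediateField.adjoin ℚ {t} ≤ _)
      (IntermediateField.subset_adjoin ℚ _ (Set.mem_singleton t))
  have hCE : ∀ c ∈ C, c ∈ E := by
    intro c hc
    rw [hE]
    exact (le_sup_right.trans le_sup_left : IntermediateField.adjoin ℚ (C : Set QQ) ≤
      K1 ⊔ IntermediateField.adjoin ℚ (C : Set QQ) ⊔ IntermediateField.adjoin ℚ {t})
      (IntermediateField.subset_adjoin ℚ _ hc)
  have hKE : K1 ≤ E := by
    rw [hE]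
    exact le_sup_left.trans le_sup_left
  obtain ⟨a, ha⟩ := exists_act hF hgen (E := E) (fun ρ hρ => hlift ρ fun c hc => hρ c (hCE c hc))
    hφ htE hs
  obtain ⟨Y, hY⟩ := exists_act_ker hF hgen ha
  have hA := alt_range hF h hN hn2 h1 h2 hz hgen htE hs hfib.card a ha Y hY htrans (hval hn2)
  have hc : Fintype.card s = n1 + n2 := by
    rw [Fintype.card_coe, hfib.card]
  intro x x' hx hx'
  obtain ⟨g, hg, hgx⟩ := alt_QTrans (by omega) (⟨x, (hs x).2 hx⟩ : s) ⟨x', (hs x').2 hx'⟩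
  obtain ⟨ρ, hρ, hρg⟩ := alt_le_of_noAlt hK2 hn (by omega) a Y hY hA hg
  obtain ⟨r', hr', hm⟩ := ha ρ ⟨x, (hs x).2 hx⟩
  rw [hρg, hgx] at hm
  refine ⟨(ρ : Gam), r', fun c hc => ?_, fixes_mono hS hr', hm⟩
  refine sup_QTrans (fun c hc => ?_) hρ c (hK hc)
  exact (IntermediateField.mem_fixingSubgroup_iff E _).1 ρ.2 c (hKE hc)

end Pool.Agent.Clo
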