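import Pool.Agent.Clo.QParam
import Pool.Agent.Clo.QTrans
import Pool.Agent.Clo.QSym

/-!
# The kernel of the Albanese map and points of small height and degree
-/

set_option autoImplicit false

noncomputable section

namespace Pool.Agent.Clo

open Pool.Agent.ZCyc Pool.Agent.Dess Pool.Agent.Dess4 NumberField
open scoped Classical

variable {ι : Type} {L : ι → Type} [∀ i, Field (L i)] [∀ i, Algebra QQ (L i)]

/-- some multiple is a sum of a bounded number of new cycles, with bounds for the sizes of the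
points; `𝒬 K s` says that the field `K` is admissible with `s` ramified primes -/
def GenQ (𝒬 : IntermediateField ℚ QQ → ℕ → Prop) (z : (∀ i, Place QQ (L i)) →₀ ℤ) : Prop :=
  ∃ (m N : ℕ) (B : ∀ i, L i → ℝ), 0 < m ∧ ∀ S : ∀ i, Finset (L i), ∃ A : ℝ, 0 ≤ A ∧
    ∀ (K : IntermediateField ℚ QQ) (s : ℕ), 𝒬 K s → ∀ k : ℕ, 0 < k →
      NewSum K S {x | SizeLe B (1 + (A + Real.log (1 + s)) / k) k x} N (m • z)

/-- the bounds increase with the constants -/
private theorem size_QMain {B B' : ∀ i, L i → ℝ} {A A' : ℝ} (hB : ∀ i f, B i f ≤ B' i f)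
    (hA : A ≤ A') (hA0 : 0 ≤ A) {s k : ℕ} (hk : 0 < k) {x : ∀ i, Place QQ (L i)}
    (h : SizeLe B (1 + (A + Real.log (1 + s)) / k) k x) :
    SizeLe B' (1 + (A' + Real.log (1 + s)) / k) k x := by
  have hk' : (0 : ℝ) < k := by exact_mod_cast hk
  have h0 : 0 ≤ Real.log (1 + (s : ℝ)) := by
    refine Real.log_nonneg ?_
    have h1 : (0 : ℝ) ≤ s := Nat.cast_nonneg s
    linarith
  have h1 : (A + Real.log (1 + s)) / k ≤ (A' + Real.log (1 + s)) / k :=
    div_le_div_of_nonneg_right (by linarith) hk'.le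
  have h2 : 0 ≤ (A' + Real.log (1 + s)) / k := div_nonneg (by linarith) hk'.le
  have h3 := h.scale (C := 1) (a := 1 + (A' + Real.log (1 + s)) / k) (by linarith) le_rfl hk
  simp only [one_mul] at h3
  exact h3.mono hB (by linarith)

section Group

variable {𝒬 : IntermediateField ℚ QQ → ℕ → Prop}

theorem genQ_add {z z' : (∀ i, Place QQ (L i)) →₀ ℤ}
    (h : GenQ 𝒬 z) (h' : GenQ 𝒬 z') : GenQ 𝒬 (z + z') := by
  obtain ⟨m, N, B, hm, h⟩ := h
  obtain ⟨m', N', B', hm', h'⟩ := h'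
  refine ⟨m * m', m' * N + m * N', fun i f => max (B i f) (B' i f), Nat.mul_pos hm hm',
    fun S => ?_⟩
  obtain ⟨A, hA, h⟩ := h S
  obtain ⟨A', hA', h'⟩ := h' S
  refine ⟨max A A', hA.trans (le_max_left _ _), fun K s hK k hk => ?_⟩
  obtain ⟨l, hl, hn, hr⟩ := h K s hK k hk
  obtain ⟨l', hl', hn', hr'⟩ := h' K s hK k hk
  refine ⟨m' • l + m • l', ?_, ?_, ?_⟩
  · rw [Multiset.card_add, Multiset.card_nsmul, Multiset.card_nsmul]
    exact add_le_add (Nat.mul_le_mul_left _ hl) (Nat.mul_le_mul_left _ hl')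
  · intro g hg
    rcases Multiset.mem_add.1 hg with hg | hg
    · exact (hn g (Multiset.mem_of_mem_nsmul hg)).mono fun x hx =>
        size_QMain (fun i f => le_max_left _ _) (le_max_left _ _) hA hk hx
    · exact (hn' g (Multiset.mem_of_mem_nsmul hg)).mono fun x hx =>
        size_QMain (fun i f => le_max_right _ _) (le_max_right _ _) hA' hk hx
  · have h1 : (m' • l + m • l').sum - (m * m') • (z + z') =
        m' • (l.sum - m • z) + m • (l'.sum - m' • z') := by
      rw [Multiset.sum_add, Multiset.sum_nsmul, Multiset.sum_nsmul]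
      module
    rw [h1]
    exact add_mem (AddSubgroup.nsmul_mem _ hr _) (AddSubgroup.nsmul_mem _ hr' _)

theorem genQ_neg {z : (∀ i, Place QQ (L i)) →₀ ℤ} (h : GenQ 𝒬 z) : GenQ 𝒬 (-z) := by
  obtain ⟨m, N, B, hm, h⟩ := h
  refine ⟨m, N, B, hm, fun S => ?_⟩
  obtain ⟨A, hA, h⟩ := h S
  refine ⟨A, hA, fun K s hK k hk => ?_⟩
  obtain ⟨l, hl, hn, hr⟩ := h K s hK k hk
  refine ⟨l.map fun g => -g, ?_, ?_, ?_⟩
  · rwa [Multiset.card_map]
  · intro g hg
    obtain ⟨g', hg', rfl⟩ := Multiset.mem_map.1 hg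
    exact (hn g' hg').neg
  · have h1 : (l.map fun g => -g).sum - m • (-z) = -(l.sum - m • z) := by
      rw [Multiset.sum_map_neg']
      module
    rw [h1]
    exact (RatEq L).neg_mem hr

theorem genQ_of_mem {z : (∀ i, Place QQ (L i)) →₀ ℤ} (h : z ∈ RatEq L) : GenQ 𝒬 z := by
  refine ⟨1, 0, fun _ _ => 0, one_pos, fun S => ⟨0, le_rfl, fun K s hK k hk => ⟨0, ?_, ?_, ?_⟩⟩⟩
  · rw [Multiset.card_zero]
  · intro g hg
    exact absurd hg (Multiset.notMem_zero g)
  · rw [Multiset.sum_zero, zero_sub]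
    exact (RatEq L).neg_mem ((RatEq L).nsmul_mem h _)

variable (𝒬) in
/-- the subgroup of the cycles with this property -/
def genQGroup : AddSubgroup ((∀ i, Place QQ (L i)) →₀ ℤ) where
  carrier := {z | GenQ 𝒬 z}
  zero_mem' := genQ_of_mem (zero_mem _)
  add_mem' := genQ_add
  neg_mem' := genQ_neg

theorem albKer_genQ [Fintype ι]
    (h : ∀ (i j : ι), i ≠ j → ∀ (a : ∀ l, Place QQ (L l)) (p : Place QQ (L i))
      (q : Place QQ (L j)), a i ≠ p → a j ≠ q → GenQ 𝒬 (symb a i j p q))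
    {z : (∀ i, Place QQ (L i)) →₀ ℤ} (hz : AlbKer L z) : GenQ 𝒬 z := by
  have hz' : z ∈ genQGroup (L := L) 𝒬 := by
    refine of_symbols (T := genQGroup 𝒬) (fun w hw => genQ_of_mem hw) ?_ hz
    intro i j hij a p q
    by_cases hp : a i = p
    · have h0 : Finsupp.single a (1 : ℤ) - Finsupp.single (Function.update a i p) 1 -
          Finsupp.single (Function.update a j q) 1 +
          Finsupp.single (Function.update (Function.update a i p) j q) 1 = 0 := by
        rw [← hp, Function.update_eq_self]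
        abel
      rw [h0]
      exact zero_mem _
    by_cases hq : a j = q
    · have h0 : Finsupp.single a (1 : ℤ) - Finsupp.single (Function.update a i p) 1 -
          Finsupp.single (Function.update a j q) 1 +
          Finsupp.single (Function.update (Function.update a i p) j q) 1 = 0 := by
        rw [← hq, Function.update_eq_self, Function.update_comm hij, Function.update_eq_self]
        abel
      rw [h0]
      exact zero_mem _
    exact h i j hij a p q hp hq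
  exact hz'

end Group

/-- the fields `K ≤ K1 ⊔ K2` such that `K1` is unramified outside `s` prime numbers -/
def QData (n : ℕ) (K : IntermediateField ℚ QQ) (s : ℕ) : Prop :=
  ∃ (K1 K2 : IntermediateField ℚ QQ) (T : Finset ℕ), UnrOutside T K1 ∧ NoAlt n K2 ∧
    K ≤ K1 ⊔ K2 ∧ s = T.card

theorem albKer_size [Fintype ι] (hL : ∀ i, IsCurve QQ (L i)) {n : ℕ} (hn : 5 ≤ n)
    {z : (∀ i, Place QQ (L i)) →₀ ℤ} (hz : AlbKer L z) : GenQ (QData n) z := by
  refine albKer_genQ ?_ hz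
  intro i j hij a p q hp hq
  obtain ⟨F, _, _, P, O, hF, hPO, hdata⟩ := symbol_size hL hij a hp hq
  obtain ⟨φ, y, w, u, r, n1, n2, m, e1, e2, e3, h, hN, hn2, hX, h1, h2⟩ :=
    exists_fib_prime hF hPO n
  obtain ⟨B, Bad, hB⟩ := hdata φ y w u r n1 n2 m e1 e2 e3 h
  refine ⟨2 * (n1 * n2), (n1 + n2) * (n1 + n2), fun i f => 2 * B i f,
    Nat.mul_pos two_pos (Nat.mul_pos h.n1_pos h.n2_pos), fun S => ?_⟩
  obtain ⟨S', hS'⟩ := hB S
  obtain ⟨N₀, hN₀⟩ := trans_param hn hF h hN hn2 h1 h2 (by omega) S' Bad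
  obtain ⟨A, hA, hpar⟩ := param_card N₀
  refine ⟨A, hA, ?_⟩
  rintro K _ ⟨K1, K2, T, hK1, hK2, hKK, rfl⟩ k hk
  obtain ⟨t, ⟨P'⟩, ht1, ht2⟩ := hpar T K1 hK1 (n1 * n2 * m) k hk
  obtain ⟨ht3, ht4⟩ := hN₀ K K1 K2 t hK2 hKK P'
  obtain ⟨x, hx⟩ : ∃ x, x = Real.log (1 + (T.card : ℝ)) := ⟨_, rfl⟩
  have hx0 : 0 ≤ x := by
    rw [hx]
    refine Real.log_nonneg ?_
    have h3 : (0 : ℝ) ≤ T.card := Nat.cast_nonneg _
    linarith
  rw [← hx] at ht1 ⊢
  have hk' : (0 : ℝ) < k := by exact_mod_cast hk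
  obtain ⟨b, hb⟩ : ∃ b, b = 1 + (A + 2 * x) / k := ⟨_, rfl⟩
  have h3 : 0 ≤ (A + 2 * x) / k := div_nonneg (by linarith) hk'.le
  have hb1 : 1 ≤ b := by linarith
  have hb2 : b ≤ 2 * (1 + (A + x) / k) := by
    have h4 : (A + 2 * x) / k ≤ (2 * (A + x)) / k :=
      div_le_div_of_nonneg_right (by linarith) hk'.le
    rw [mul_div_assoc] at h4
    linarith
  obtain ⟨l, hl1, hl2, hl3⟩ := hS' K b k hb1 hk ⟨t, ht3, by linarith, ht2, ht4⟩
  exact ⟨l, hl1, fun g hg => (hl2 g hg).mono fun x (hx : SizeLe B b k x) =>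
    hx.scale hb2 one_le_two hk, hl3⟩

end Pool.Agent.Clo
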