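import Pool.Agent.Clo.OrbitB
import Pool.Agent.Clo.PrimeCard
import Pool.Agent.Clo.Ram
import Pool.Agent.Clo.ArHt
import Pool.Agent.Clo.MHt

/-!
# Parameters of small height and small degree

Let `K` be a field of algebraic numbers which is unramified outside `s` prime numbers. Then for
every `k > 0` there is a parameter `t` of degree at most `k` and height at most
`(A + 2 * log (1 + s)) / k`: `t ^ k = l' / l` for two prime numbers outside this set.
-/

set_option autoImplicit false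

noncomputable section

namespace Pool.Agent.Clo

open Pool.Agent.ZCyc Pool.Agent.Dess NumberField

theorem ht_quot {l l' : ℕ} (hl : 0 < l) (hll : l < l') :
    absLogHeight₁ ((l' : QQ) / (l : QQ)) ≤ 1 + Real.log l' := by
  have h1 : (1 : ℝ) ≤ (l' : ℝ) := by exact_mod_cast (by omega : 1 ≤ l')
  have h0 : 0 ≤ Real.log l' := Real.log_nonneg h1
  obtain ⟨k, hk⟩ : ∃ k : ℕ, k = ⌈Real.log l'⌉₊ := ⟨_, rfl⟩
  have h2 : Real.log l' ≤ k := by
    rw [hk]
    exact Nat.le_ceil _
  have h3 : (k : ℝ) < Real.log l' + 1 := by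
    rw [hk]
    exact Nat.ceil_lt_add_one h0
  have hk0 : 0 < k := by
    rw [hk, Nat.ceil_pos]
    refine Real.log_pos ?_
    exact_mod_cast (by omega : 1 < l')
  obtain ⟨s, hs⟩ := IsAlgClosed.exists_pow_nat_eq ((l' : QQ) / (l : QQ)) hk0
  have h4 : absLogHeight₁ s ≤ 1 := by
    refine height_root hk0 hl (by omega) hs ?_
    have h5 : max (l : ℝ) (l' : ℝ) = l' := max_eq_right (by exact_mod_cast hll.le)
    rw [h5]
    exact h2
  rw [← hs, ht_pow]
  have h5 : (k : ℝ) * absLogHeight₁ s ≤ k * 1 :=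
    mul_le_mul_of_nonneg_left h4 (Nat.cast_nonneg k)
  linarith

/-- powers of values -/
private lemma ind_QParam {K : IntermediateField ℚ QQ} {V : ValuationSubring QQ} {d : ℕ}
    (hd : d.Prime) (hV : (d : QQ) ∈ V.nonunits) (hu : UnrAt K V d) {p : ℕ} (hp : p.Prime) :
    ∀ b ∈ K, V.valuation b ^ p ≠ V.valuation (d : QQ) := by
  intro b hb he
  have hd0 : (d : QQ) ≠ 0 := by exact_mod_cast hd.ne_zero
  have h0 : 0 < V.valuation (d : QQ) := zero_lt_iff.2 ((Valuation.ne_zero_iff _).2 hd0)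
  have hlt : V.valuation (d : QQ) < 1 := (V.mem_nonunits_iff).1 hV
  have hb0 : b ≠ 0 := by
    rintro rfl
    rw [map_zero, zero_pow hp.ne_zero] at he
    exact h0.ne he
  obtain ⟨s, hs⟩ := hu b hb hb0
  rw [hs, ← zpow_natCast, ← zpow_mul] at he
  have h4 : V.valuation (d : QQ) ^ (s * p) = V.valuation (d : QQ) ^ (1 : ℤ) := by
    rw [he, zpow_one]
  have h5 := (zpow_right_strictAnti₀ h0 hlt).injective h4
  have h6 : (p : ℤ) ∣ 1 := ⟨s, by rw [mul_comm]; exact h5.symm⟩
  have h7 := Int.natAbs_dvd_natAbs.2 h6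
  rw [Int.natAbs_natCast, Int.natAbs_one, Nat.dvd_one] at h7
  exact hp.one_lt.ne' h7

/-- The parameter `t` with `t ^ k = l' / l`, over a field which is unramified at places above `l`
and `l'`. -/
theorem exists_param_pow {K : IntermediateField ℚ QQ} {N₀ D : ℕ} {l l' : ℕ} (hl : l.Prime)
    (hl' : l'.Prime) (hlN : N₀ < l) (hll : l < l') {W W' : ValuationSubring QQ}
    (hW : (l : QQ) ∈ W.nonunits) (hW' : (l' : QQ) ∈ W'.nonunits) (hKW : UnrAt K W l)
    (hKW' : UnrAt K W' l') {k : ℕ} (hk : 0 < k) :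
    ∃ t : QQ, t ^ k = (l' : QQ) / (l : QQ) ∧ Nonempty (Param K N₀ D t) := by
  have hl0 : (l : QQ) ≠ 0 := by exact_mod_cast hl.ne_zero
  have hl0' : (l' : QQ) ≠ 0 := by exact_mod_cast hl'.ne_zero
  have hcop : l.Coprime l' := (Nat.coprime_primes hl hl').2 hll.ne
  have h2 := val_coprime hcop W hW
  have h3 := val_coprime hcop.symm W' hW'
  obtain ⟨t, ht⟩ := IsAlgClosed.exists_pow_nat_eq ((l' : QQ) / (l : QQ)) hk
  have ht0 : t ≠ 0 := by
    rintro rfl
    rw [zero_pow hk.ne'] at ht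
    exact (div_ne_zero hl0' hl0) ht.symm
  refine ⟨t, ht, ⟨⟨l, l', W, W', l, l', k, hl, hl', hlN, by omega, hW, hW',
    natCast_mem K l, natCast_mem K l', hl0, hl0', hW, hW',
    fun p hp _ => ind_QParam hl hW hKW hp,
    fun p hp _ => ind_QParam hl' hW' hKW' hp, hk, ?_, ht0, ?_, ?_⟩⟩⟩
  · rw [ht]
    exact div_mem (natCast_mem K l') (natCast_mem K l)
  · rw [← map_pow, ht, map_div₀, h2, one_div]
    exact inv_mul_cancel₀ ((Valuation.ne_zero_iff _).2 hl0)
  · rw [← map_pow, inv_pow, ht, inv_div, map_div₀, h3, one_div]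
    exact inv_mul_cancel₀ ((Valuation.ne_zero_iff _).2 hl0')

/-- the degree of a radical -/
theorem degree_pow {k : ℕ} (hk : 0 < k) {t : QQ} {x : ℚ} (ht : t ^ k = algebraMap ℚ QQ x) :
    (minpoly ℚ t).natDegree ≤ k := by
  have h1 : (Polynomial.X ^ k - Polynomial.C x).natDegree = k :=
    Polynomial.natDegree_X_pow_sub_C
  have h2 : (Polynomial.X ^ k - Polynomial.C x : Polynomial ℚ) ≠ 0 :=
    Polynomial.X_pow_sub_C_ne_zero hk x
  conv_rhs => rw [← h1]
  refine Polynomial.natDegree_le_of_dvd (minpoly.dvd ℚ t ?_) h2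
  rw [map_sub, map_pow, Polynomial.aeval_X, Polynomial.aeval_C, ht, sub_self]

/-- The field `K` is unramified outside `T`: for all prime numbers `l` not in `T`, the values of the
elements of `K`, for some valuation ring of the field of algebraic numbers above `l`, are powers of
the value of `l`. -/
def UnrOutside (T : Finset ℕ) (K : IntermediateField ℚ QQ) : Prop :=
  ∀ l : ℕ, l.Prime → l ∉ T → ∃ W : ValuationSubring QQ, (l : QQ) ∈ W.nonunits ∧ UnrAt K W l

/-- number fields are unramified outside the set of the prime factors of the discriminant -/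
theorem unrOutside_discr (K : IntermediateField ℚ QQ) [NumberField K] :
    UnrOutside (discr K).natAbs.primeFactors K := by
  intro l hl hlT
  obtain ⟨W, hW⟩ := exists_over hl
  refine ⟨W, hW, fun c hc hc0 => value_unr hl ?_ hW hc hc0⟩
  intro h1
  apply hlT
  rw [Nat.mem_primeFactors]
  exact ⟨hl, Int.natCast_dvd.1 h1, Int.natAbs_ne_zero.2 (discr_ne_zero K)⟩

theorem param_card (N₀ : ℕ) : ∃ A : ℝ, 0 ≤ A ∧ ∀ (T : Finset ℕ) (K : IntermediateField ℚ QQ),
    UnrOutside T K → ∀ (D k : ℕ), 0 < k → ∃ t : QQ, Nonempty (Param K N₀ D t) ∧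
      absLogHeight₁ t ≤ (A + 2 * Real.log (1 + T.card)) / k ∧ (minpoly ℚ t).natDegree ≤ k := by
  obtain ⟨A, hA, h⟩ := exists_two_primes_card N₀
  refine ⟨1 + A, by linarith, fun T K hK D k hk => ?_⟩
  obtain ⟨l, l', hl, hl', hlN, hll, hlT, hlT', hlog⟩ := h T
  obtain ⟨W, hW, hKW⟩ := hK l hl hlT
  obtain ⟨W', hW', hKW'⟩ := hK l' hl' hlT'
  obtain ⟨t, ht, hP⟩ := exists_param_pow (K := K) (N₀ := N₀) (D := D) hl hl' hlN hll hW hW'
    hKW hKW' hk
  refine ⟨t, hP, ?_, ?_⟩
  · have h1 := ht_quot hl.pos hll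
    rw [← ht, ht_pow] at h1
    have hk0 : (0 : ℝ) < k := by exact_mod_cast hk
    rw [le_div_iff₀ hk0]
    linarith
  · have h1 : t ^ k = algebraMap ℚ QQ ((l' : ℚ) / (l : ℚ)) := by
      rw [ht, map_div₀, map_natCast, map_natCast]
    exact degree_pow hk h1

end Pool.Agent.Clo
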