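import Pool.Agent.Clo.Pull
import Pool.Agent.Dess.Crit

/-!
# Finitely many functions which separate all points of a curve

Let `t` be a nonconstant function. The integral closure `B` of `QQ[t]` is generated by a finite set
`S₁` of functions, and a place with `t ∈ v.ring` is determined by the values of the functions in
`B` (`exists_frac`). The same is true for `t⁻¹`.
-/

set_option autoImplicit false

noncomputable section

namespace Pool.Agent.Clo

open Pool.Agent.ZCyc Pool.Agent.Dess Polynomial
open scoped Classical IntermediateField.algebraAdjoinAdjoin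

variable {F : Type} [Field F] [Algebra QQ F]

private theorem Sep_pid (w : F) : IsPrincipalIdealRing (Algebra.adjoin QQ {w}) := by
  let f : QQ[X] →ₐ[QQ] Algebra.adjoin QQ {w} :=
    aeval (⟨w, Algebra.self_mem_adjoin_singleton QQ w⟩ : Algebra.adjoin QQ {w})
  apply IsPrincipalIdealRing.of_surjective f
  rintro ⟨g, hg⟩
  have hg' := hg
  rw [Algebra.adjoin_singleton_eq_range_aeval] at hg'
  obtain ⟨p, hp⟩ := hg'
  refine ⟨p, Subtype.ext ?_⟩
  change (Algebra.adjoin QQ {w}).val (aeval _ p) = g
  rw [← aeval_algHom_apply]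
  exact hp

private theorem Sep_finite (hF : IsCurve QQ F) {w : F} (hw : Transcendental QQ w) :
    Module.Finite (Algebra.adjoin QQ {w}) (integralClosure (Algebra.adjoin QQ {w}) F) := by
  have h1 := fin_adjoin hF hw
  have h2 := Sep_pid w
  have h3 : CharZero (IntermediateField.adjoin QQ {w}) :=
    charZero_of_injective_algebraMap (algebraMap QQ (IntermediateField.adjoin QQ {w})).injective
  exact IsIntegralClosure.finite (Algebra.adjoin QQ {w}) (IntermediateField.adjoin QQ {w}) F _

/-- the integral functions are polynomials in finitely many functions -/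
private theorem Sep_gens (hF : IsCurve QQ F) {w : F} (hw : Transcendental QQ w) :
    ∃ S : Finset F, w ∈ S ∧ (∀ f ∈ S, IsIntegral (Algebra.adjoin QQ {w}) f) ∧
      ∀ b : F, IsIntegral (Algebra.adjoin QQ {w}) b → b ∈ Algebra.adjoin QQ (S : Set F) := by
  obtain ⟨s, hs⟩ := (Sep_finite hF hw).fg_top
  have hwi : IsIntegral (Algebra.adjoin QQ {w}) w :=
    isIntegral_algebraMap (R := Algebra.adjoin QQ {w}) (A := F)
      (x := ⟨w, Algebra.self_mem_adjoin_singleton QQ w⟩)
  refine ⟨insert w (s.image fun x : integralClosure (Algebra.adjoin QQ {w}) F => (x : F)),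
    Finset.mem_insert_self _ _, ?_, ?_⟩
  · intro f hf
    rcases Finset.mem_insert.1 hf with rfl | hf
    · exact hwi
    · obtain ⟨x, -, rfl⟩ := Finset.mem_image.1 hf
      exact x.2
  · intro b hb
    have h1 : (⟨b, hb⟩ : integralClosure (Algebra.adjoin QQ {w}) F) ∈
        Submodule.span (Algebra.adjoin QQ {w})
          (s : Set (integralClosure (Algebra.adjoin QQ {w}) F)) := by
      rw [hs]
      trivial
    have key : ∀ y ∈ Submodule.span (Algebra.adjoin QQ {w})
        (s : Set (integralClosure (Algebra.adjoin QQ {w}) F)),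
        (y : F) ∈ Algebra.adjoin QQ ((insert w (s.image
          fun x : integralClosure (Algebra.adjoin QQ {w}) F => (x : F)) : Finset F) : Set F) := by
      intro y hy
      induction hy using Submodule.span_induction with
      | mem x hx =>
        refine Algebra.subset_adjoin ?_
        rw [Finset.coe_insert]
        exact Set.mem_insert_of_mem _ (Finset.mem_coe.2 (Finset.mem_image_of_mem _ hx))
      | zero => exact zero_mem _
      | add x y _ _ hx hy => exact add_mem hx hy
      | smul a x _ hx =>
        have h2 : ((a • x : integralClosure (Algebra.adjoin QQ {w}) F) : F) = (a : F) * x := rfl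
        rw [h2]
        refine mul_mem ?_ hx
        refine Algebra.adjoin_mono ?_ a.2
        rw [Finset.coe_insert]
        exact Set.singleton_subset_iff.2 (Set.mem_insert _ _)
    exact key _ h1

/-- one chart -/
private theorem Sep_chart (hF : IsCurve QQ F) {w : F} (hw : Transcendental QQ w) :
    ∃ S : Finset F, ∀ x x' : Place QQ F, w ∈ x.ring →
      (∀ f ∈ S, ∀ c, x.At f c ↔ x'.At f c) → x = x' := by
  obtain ⟨S, hwS, hSi, hS⟩ := Sep_gens hF hw
  refine ⟨S, fun x x' hx h => ?_⟩
  obtain ⟨c, hc⟩ := exists_at hF x hx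
  have hx' : w ∈ x'.ring := ((h w hwS c).1 hc).mem
  have key : ∀ b ∈ Algebra.adjoin QQ (S : Set F), ∃ c, x.At b c ∧ x'.At b c := by
    intro b hb
    induction hb using Algebra.adjoin_induction with
    | mem f hf =>
      obtain ⟨c, hc⟩ := exists_at hF x (int_mem x hx (hSi f hf))
      exact ⟨c, hc, (h f hf c).1 hc⟩
    | algebraMap c => exact ⟨c, Place.at_const c, Place.at_const c⟩
    | add f g _ _ hf hg =>
      obtain ⟨c, h1, h2⟩ := hf
      obtain ⟨d, h3, h4⟩ := hg
      exact ⟨c + d, h1.add h3, h2.add h4⟩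
    | mul f g _ _ hf hg =>
      obtain ⟨c, h1, h2⟩ := hf
      obtain ⟨d, h3, h4⟩ := hg
      exact ⟨c * d, h1.mul h3, h2.mul h4⟩
  refine place_le hF fun f hf => ?_
  obtain ⟨b, s, hb, hs, hs0, rfl⟩ := exists_frac hF hw x hx hf
  obtain ⟨d, h1, h2⟩ := key s (hS s hs)
  have hd : d ≠ 0 := by
    rintro rfl
    exact hs0 (Place.at_zero_iff.1 h1)
  obtain ⟨e, -, h3⟩ := key b (hS b hb)
  exact (h3.div h2 hd).mem

theorem exists_sep (hL : IsCurve QQ F) : ∃ S : Finset F, ∀ x x' : Place QQ F,
    (∀ f ∈ S, (∀ c, x.At f c ↔ x'.At f c)) → x = x' := by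
  obtain ⟨t, ht, _⟩ := id hL
  have ht' : Transcendental QQ t⁻¹ := by
    intro h
    exact ht (by simpa using h.inv)
  obtain ⟨S₁, h1⟩ := Sep_chart hL ht
  obtain ⟨S₂, h2⟩ := Sep_chart hL ht'
  refine ⟨S₁ ∪ S₂, fun x x' h => ?_⟩
  rcases x.ring.mem_or_inv_mem t with hx | hx
  · exact h1 x x' hx fun f hf => h f (Finset.mem_union_left _ hf)
  · exact h2 x x' hx fun f hf => h f (Finset.mem_union_right _ hf)

end Pool.Agent.Clo
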