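import Pool.Agent.Clo.Orbit
import Pool.Agent.Clo.Orth
import Pool.Agent.Clo.Act
import Pool.Agent.Dess.Crit

/-!
# A sequence of fibres which are orthogonal to each other

PROOF of `exists_fibres`. Induction on `M`. `M = 0`: nothing to prove (`Fin 0`). Step: let `s i` be
given for `i < M`, let `T` be the union of all `s i`, and for `y ∈ T` let `w y` be a function with a
pole at `y` only (`exists_pole`, file `Act.lean`). Let `S` be the union of `SA`, `SB` and the
image of `T` under `w`, and `Bad` the finite set of critical values of `φ` (`finite_crit` of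
`Pool/Agent/Dess/Crit.lean`; `φ` is transcendental since it has a pole, see below). By `one_orbit`
there is `t ∉ Bad` with `absLogHeight₁ t ≤ 1` such that any two points `x, x'` with
`φ(x) = φ(x') = t` satisfy `Moves r x x'` with some `Fixes S ρ r`. Let `s M` be the fibre over `t`
(`finite_at`). It is a fibre in the sense of `IsFibre` (all fields from `Fib`; `unif`: `t ∉ Bad`).
Let `x, x' ∈ s M` and `y ∈ s i`, `i < M`; `Moves r x x'` as above. Let `y'` be the image of `y`,
`Moves r y y'` (`moves_act`); `r (w y) = w y`, hence `y' = y` by `moves_pole`. So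
`A x' y = A x y` by `Inv SA A` (with `fixes_mono`), and the same for `B`. Define the new family on
`Fin (M + 1)` by `Fin.snoc` (or `fun i => if h : (i : ℕ) < M then s ⟨i, h⟩ else s M`).
`φ` is transcendental: an algebraic element is a constant (`QQ` is algebraically closed, e.g. as in
the proof of `exists_at`), constants are in `p.ring` but `φ ∉ p.ring`, since the order at `p` is
negative: `φ / π ^ (-n1) = φ π ^ n1` is a unit, so `φ ∈ p.ring` would imply that it vanishes.

`Fib` is the structure of `ArFib.lean`.
-/

set_option autoImplicit false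

noncomputable section

namespace Pool.Agent.Clo

open Pool.Agent.ZCyc Pool.Agent.Dess Pool.Agent.Dess4
open scoped Classical

section Seq

variable {F : Type} [Field F] [Algebra QQ F] {φ y z u : F} {p q r : Place QQ F}
  {n1 n2 m e1 e2 e3 : ℕ}

theorem Fib.transc (hF : IsCurve QQ F) (h : Fib φ y z u p q r n1 n2 m e1 e2 e3) :
    Transcendental QQ φ := by
  exact bel_transc (two_notMem h.phi_ne h.n1_pos h.ordp)

theorem exists_fibres (hF : IsCurve QQ F) (h : Fib φ y z u p q r n1 n2 m e1 e2 e3)
    {A B : Place QQ F → Place QQ F → ℝ} {SA SB : Finset F} (hA : Inv SA A) (hB : Inv SB B)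
    (M : ℕ) :
    ∃ s : Fin M → Finset (Place QQ F),
      (∀ i, ∃ t : QQ, NumberField.absLogHeight₁ t ≤ 1 ∧ IsFibre φ p q n1 n2 t (s i)) ∧
      ∀ i j, i < j → ∀ x ∈ s j, ∀ x' ∈ s j, ∀ y ∈ s i, A x y = A x' y ∧ B x y = B x' y := by
  have htr := h.transc hF
  induction M with
  | zero => exact ⟨fun i => i.elim0, fun i => i.elim0, fun i => i.elim0⟩
  | succ M ih =>
    obtain ⟨s, hs, hs'⟩ := ih
    choose w hw1 hw2 using fun y : Place QQ F => exists_pole hF y
    obtain ⟨T, hT⟩ : ∃ T : Finset (Place QQ F), ∀ i, ∀ y ∈ s i, y ∈ T :=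
      ⟨Finset.univ.biUnion s, fun i y hy =>
        Finset.mem_biUnion.2 ⟨i, Finset.mem_univ i, hy⟩⟩
    have hBad := finite_crit hF htr
    obtain ⟨t, ht1, ht2, ht3⟩ := one_orbit hF h (SA ∪ SB ∪ T.image w) hBad.toFinset
    obtain ⟨sM, hmem⟩ : ∃ sM : Finset (Place QQ F), ∀ v, v ∈ sM ↔ v.At φ t :=
      ⟨(finite_at hF htr t).toFinset, fun v => by simp⟩
    have hfib : IsFibre φ p q n1 n2 t sM :=
      { curve := hF
        transc := htr
        ne := h.ne
        pole_p := h.ordp
        pole_q := h.ordq
        n1_pos := h.n1_pos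
        n2_pos := h.n2_pos
        reg := h.reg
        mem := hmem
        unif := by
          intro v hv
          by_contra hu
          exact ht1 (hBad.mem_toFinset.2 ⟨v, hv, hu⟩) }
    have key : ∀ i : Fin M, ∀ x ∈ sM, ∀ x' ∈ sM, ∀ y ∈ s i,
        A x y = A x' y ∧ B x y = B x' y := by
      intro i x hx x' hx' y hy
      obtain ⟨ρ, r, hr, hm⟩ := ht3 x x' ((hmem x).1 hx) ((hmem x').1 hx')
      have hwy : r (w y) = w y := hr.1 _ (Finset.mem_union_right _
        (Finset.mem_image_of_mem w (hT i y hy)))
      have h1 : Moves r y (act r hr.2 y) := moves_act hr.2 y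
      have h2 := moves_pole h1 hwy (hw1 y) (hw2 y)
      rw [h2] at h1
      refine ⟨(hA ρ r (fixes_mono ?_ hr) x x' y y hm h1).symm,
        (hB ρ r (fixes_mono ?_ hr) x x' y y hm h1).symm⟩
      · exact Finset.subset_union_left.trans Finset.subset_union_left
      · exact Finset.subset_union_right.trans Finset.subset_union_left
    refine ⟨Fin.snoc (α := fun _ => Finset (Place QQ F)) s sM, ?_, ?_⟩
    · refine Fin.lastCases ?_ fun i => ?_
      · rw [Fin.snoc_last]
        exact ⟨t, ht2, hfib⟩
      · rw [Fin.snoc_castSucc]
        exact hs i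
    · intro i j hij
      induction j using Fin.lastCases with
      | last =>
        induction i using Fin.lastCases with
        | last => exact absurd hij (lt_irrefl _)
        | cast i =>
          rw [Fin.snoc_last, Fin.snoc_castSucc]
          exact key i
      | cast j =>
        induction i using Fin.lastCases with
        | last => exact absurd (hij.trans (Fin.castSucc_lt_last j)) (lt_irrefl _)
        | cast i =>
          rw [Fin.snoc_castSucc, Fin.snoc_castSucc]
          exact hs' i j (Fin.castSucc_lt_castSucc_iff.1 hij)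

end Seq

end Pool.Agent.Clo
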