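import Pool.Agent.Clo.QParam
import Pool.Agent.Clo.North
import Pool.Agent.Clo.MHt

/-!
# The primes which are ramified in the field generated by an algebraic number

If the prime number `l` divides the discriminant of `ℚ(a)`, then `log l` is at most a constant times
`1 + h(a)`, where the constant depends only on the degree of `a`.
-/

set_option autoImplicit false

noncomputable section

namespace Pool.Agent.Clo

open Pool.Agent.ZCyc Pool.Agent.Dess NumberField IntermediateField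
open scoped Classical

theorem int_SharpR (x : QQ) : IsIntegral ℚ x :=
  (AlgebraicClosure.isAlgebraic ℚ).isAlgebraic x |>.isIntegral

theorem ht_one : absLogHeight₁ (1 : QQ) = 0 := by
  have h := ht_pow (1 : QQ) 2
  rw [one_pow] at h
  push_cast at h
  linarith

theorem ht_neg_le (x : QQ) : absLogHeight₁ (-x) ≤ absLogHeight₁ x := by
  have h1 : absLogHeight₁ (-1 : QQ) = 0 := by
    have h := ht_pow (-1 : QQ) 2
    rw [neg_one_sq, ht_one] at h
    push_cast at h
    linarith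
  have h2 := ht_mul (-1 : QQ) x
  rw [neg_one_mul, h1, zero_add] at h2
  exact h2

theorem ht_sub_le (x y : QQ) :
    absLogHeight₁ (x - y) ≤ absLogHeight₁ x + absLogHeight₁ y + Real.log 2 := by
  have h := ht_add x (-y)
  rw [← sub_eq_add_neg] at h
  have h2 := ht_neg_le y
  linarith

/-- the height and the height in the field generated by the number -/
theorem def_SharpR (x : QQ) [NumberField ℚ⟮x⟯] :
    (Module.finrank ℚ ℚ⟮x⟯ : ℝ) * absLogHeight₁ x =
      Real.log (Height.mulHeight₁ (AdjoinSimple.gen ℚ x)) := by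
  have hx := int_SharpR x
  have hpos : (0 : ℝ) < Module.finrank ℚ ℚ⟮x⟯ := by
    exact_mod_cast Module.finrank_pos
  unfold absLogHeight₁ absMulHeight₁
  rw [dif_pos hx, Real.log_rpow (Height.mulHeight₁_pos _), ← mul_assoc,
    mul_inv_cancel₀ hpos.ne', one_mul]

/-- the height of a natural number is at least its logarithm -/
theorem ht_nat_ge {n : ℕ} (hn : n ≠ 0) : Real.log n ≤ absLogHeight₁ (n : QQ) := by
  have hx := int_SharpR (n : QQ)
  have : FiniteDimensional ℚ ℚ⟮(n : QQ)⟯ := adjoin.finiteDimensional hx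
  have : NumberField ℚ⟮(n : QQ)⟯ := {}
  have h1 := def_SharpR (n : QQ)
  have h2 : Module.finrank ℚ ℚ⟮(n : QQ)⟯ = 1 := by
    rw [IntermediateField.finrank_adjoin_simple_eq_one_iff]
    exact IntermediateField.natCast_mem _ n
  rw [h2, Nat.cast_one, one_mul] at h1
  obtain ⟨m, hm0, hm, hint⟩ := exists_nat_le_mulHeight₁ (AdjoinSimple.gen ℚ (n : QQ))⁻¹
  rw [Height.mulHeight₁_inv] at hm
  have hgen : AdjoinSimple.gen ℚ (n : QQ) = (n : ℚ⟮(n : QQ)⟯) := rfl
  have h3 : n ≤ m := by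
    have h4 : ((m : ℚ⟮(n : QQ)⟯) * (AdjoinSimple.gen ℚ (n : QQ))⁻¹) =
        algebraMap ℚ ℚ⟮(n : QQ)⟯ ((m : ℚ) / (n : ℚ)) := by
      rw [hgen, map_div₀, map_natCast, map_natCast, div_eq_mul_inv]
    rw [h4, isIntegral_algebraMap_iff (algebraMap ℚ ℚ⟮(n : QQ)⟯).injective] at hint
    obtain ⟨c, hc⟩ := (IsIntegrallyClosed.isIntegral_iff (R := ℤ) (K := ℚ)).1 hint
    have hn' : (n : ℚ) ≠ 0 := Nat.cast_ne_zero.2 hn
    have h5 : ((m : ℤ) : ℚ) = ((c * n : ℤ) : ℚ) := by
      have : algebraMap ℤ ℚ c = (c : ℚ) := rfl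
      rw [this] at hc
      push_cast
      rw [hc]
      field_simp
    have h6 : (m : ℤ) = c * n := by exact_mod_cast h5
    have h7 : (n : ℤ) ∣ m := ⟨c, by rw [h6, mul_comm]⟩
    exact Nat.le_of_dvd (Nat.pos_of_ne_zero hm0) (by exact_mod_cast h7)
  rw [h1]
  refine Real.log_le_log (by exact_mod_cast Nat.pos_of_ne_zero hn) (le_trans ?_ hm)
  exact_mod_cast h3

theorem ht_nat_le {n : ℕ} (hn : n ≠ 0) : absLogHeight₁ (n : QQ) ≤ 1 + Real.log n := by
  rcases Nat.lt_or_ge 1 n with h | h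
  · have h1 := ht_quot (l := 1) (l' := n) one_pos h
    rwa [Nat.cast_one, div_one] at h1
  · have h1 : n = 1 := by omega
    rw [h1, Nat.cast_one, ht_one, Nat.cast_one, Real.log_one]
    norm_num

/-- the denominator -/
theorem exists_denom (a : QQ) : ∃ n : ℕ, n ≠ 0 ∧ IsIntegral ℤ ((n : QQ) * a) ∧
    Real.log n ≤ (minpoly ℚ a).natDegree * absLogHeight₁ a := by
  have hx := int_SharpR a
  have : FiniteDimensional ℚ ℚ⟮a⟯ := adjoin.finiteDimensional hx
  have : NumberField ℚ⟮a⟯ := {}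
  obtain ⟨n, hn0, hn, hint⟩ := exists_nat_le_mulHeight₁ (AdjoinSimple.gen ℚ a)
  refine ⟨n, hn0, ?_, ?_⟩
  · have h := hint.map (IsScalarTower.toAlgHom ℤ ℚ⟮a⟯ QQ)
    simpa using h
  · rw [← IntermediateField.adjoin.finrank hx, def_SharpR a]
    exact Real.log_le_log (by exact_mod_cast Nat.pos_of_ne_zero hn0) hn

/-- products of numbers of bounded height -/
theorem ht_multiset_le {H : ℝ} (s : Multiset QQ) (h : ∀ x ∈ s, absLogHeight₁ x ≤ H) :
    absLogHeight₁ s.prod ≤ Multiset.card s * H := by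
  induction s using Multiset.induction with
  | empty => rw [Multiset.prod_zero, ht_one, Multiset.card_zero, Nat.cast_zero, zero_mul]
  | cons a s ih =>
    rw [Multiset.prod_cons, Multiset.card_cons]
    have h1 := ht_mul a s.prod
    have h2 := h a (Multiset.mem_cons_self a s)
    have h3 := ih fun x hx => h x (Multiset.mem_cons_of_mem hx)
    push_cast
    linarith

/-- the derivative of the minimal polynomial at a conjugate -/
theorem deriv_SharpR {b c : QQ} (hc : c ∈ (minpoly ℚ b).aroots QQ) :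
    absLogHeight₁ (Polynomial.aeval c (Polynomial.derivative (minpoly ℚ b))) ≤
      (minpoly ℚ b).natDegree * (2 * absLogHeight₁ b + Real.log 2) := by
  have hb := int_SharpR b
  have hmon : (minpoly ℚ b).Monic := minpoly.monic hb
  have hconj : ∀ c' ∈ (minpoly ℚ b).aroots QQ, absLogHeight₁ c' = absLogHeight₁ b := by
    intro c' hc'
    have h2 : Polynomial.aeval c' (minpoly ℚ b) = 0 := (Polynomial.mem_aroots.1 hc').2
    exact (ht_conj (minpoly.eq_of_irreducible_of_monic (minpoly.irreducible hb) h2 hmon)).symm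
  have hsp : ((minpoly ℚ b).map (algebraMap ℚ QQ)).Splits := IsAlgClosed.splits _
  have he : Polynomial.aeval c (Polynomial.derivative (minpoly ℚ b)) =
      ((((minpoly ℚ b).aroots QQ).erase c).map (c - ·)).prod := by
    have h := hsp.eval_root_derivative (hmon.map _) hc
    rw [Polynomial.derivative_map] at h
    rw [Polynomial.aeval_def, ← Polynomial.eval_map]
    exact h
  rw [he]
  have hlog2 : 0 ≤ Real.log 2 := Real.log_nonneg (by norm_num)
  have hnn : 0 ≤ 2 * absLogHeight₁ b + Real.log 2 := by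
    have := ht_nonneg b
    linarith
  refine (ht_multiset_le (H := 2 * absLogHeight₁ b + Real.log 2) _ ?_).trans ?_
  · intro x hx
    obtain ⟨y, hy, rfl⟩ := Multiset.mem_map.1 hx
    have h1 := ht_sub_le c y
    rw [hconj c hc, hconj y (Multiset.mem_of_mem_erase hy)] at h1
    linarith
  · refine mul_le_mul_of_nonneg_right ?_ hnn
    rw [Multiset.card_map]
    have h1 : Multiset.card (((minpoly ℚ b).aroots QQ).erase c) ≤
        Multiset.card ((minpoly ℚ b).aroots QQ) := Multiset.card_le_card (Multiset.erase_le _ _)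
    have h2 : Multiset.card ((minpoly ℚ b).aroots QQ) ≤ (minpoly ℚ b).natDegree := by
      refine (Polynomial.card_roots' _).trans ?_
      rw [Polynomial.natDegree_map]
    exact_mod_cast h1.trans h2

theorem AlgebraicClosure_gen_SharpR (b : QQ) : IsIntegral ℚ (AdjoinSimple.gen ℚ b) :=
  (AdjoinSimple.isIntegral_gen ℚ b).2 (int_SharpR b)

private theorem natAbs_SharpR (M : ℤ) :
    absLogHeight₁ ((M.natAbs : ℕ) : QQ) ≤ absLogHeight₁ ((algebraMap ℚ QQ) (M : ℚ)) := by
  rcases Int.eq_nat_or_neg M with ⟨n, rfl | rfl⟩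
  · rw [Int.natAbs_natCast, Int.cast_natCast, map_natCast]
  · rw [Int.natAbs_neg, Int.natAbs_natCast, Int.cast_neg, Int.cast_natCast, map_neg, map_natCast]
    have h := ht_neg_le (-(n : QQ))
    rwa [neg_neg] at h

/-- the integral case -/
theorem discr_int_SharpR {b : QQ} (hb : IsIntegral ℤ b) [NumberField ℚ⟮b⟯] {l : ℕ}
    (hl : l.Prime) (hd : (l : ℤ) ∣ discr ℚ⟮b⟯) : Real.log l ≤
      (minpoly ℚ b).natDegree * ((minpoly ℚ b).natDegree * (2 * absLogHeight₁ b + Real.log 2)) := by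
  have hbq := int_SharpR b
  have hgen : IsIntegral ℤ (AdjoinSimple.gen ℚ b) := by
    have h : IsIntegral ℤ (algebraMap ℚ⟮b⟯ QQ (AdjoinSimple.gen ℚ b)) := hb
    exact (isIntegral_algebraMap_iff (algebraMap ℚ⟮b⟯ QQ).injective).1 h
  obtain ⟨x, hx⟩ : ∃ x : 𝓞 ℚ⟮b⟯, algebraMap (𝓞 ℚ⟮b⟯) ℚ⟮b⟯ x = AdjoinSimple.gen ℚ b :=
    ⟨⟨_, hgen⟩, rfl⟩
  have hadj : Algebra.adjoin ℚ {algebraMap (𝓞 ℚ⟮b⟯) ℚ⟮b⟯ x} = ⊤ := by
    rw [hx]
    exact (adjoin.powerBasis hbq).adjoin_gen_eq_top
  have h1 := aeval_derivative_mem_differentIdeal ℤ ℚ ℚ⟮b⟯ x hadj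
  obtain ⟨δ, hδ⟩ : ∃ δ : 𝓞 ℚ⟮b⟯, δ = Polynomial.aeval x (Polynomial.derivative (minpoly ℤ x)) :=
    ⟨_, rfl⟩
  rw [← hδ] at h1
  have h2 : (discr ℚ⟮b⟯).natAbs ∣ (Algebra.norm ℤ δ).natAbs := by
    rw [← absNorm_differentIdeal (K := ℚ⟮b⟯) (𝒪 := 𝓞 ℚ⟮b⟯), ← Ideal.absNorm_span_singleton]
    exact Ideal.absNorm_dvd_absNorm_of_le ((Ideal.span_singleton_le_iff_mem _).2 h1)
  have h3 : l ∣ (Algebra.norm ℤ δ).natAbs := (Int.natCast_dvd.1 hd).trans h2
  have hmin : (minpoly ℤ x).map (algebraMap ℤ ℚ) = minpoly ℚ b := by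
    have e1 : minpoly ℚ (algebraMap (𝓞 ℚ⟮b⟯) ℚ⟮b⟯ x) = (minpoly ℤ x).map (algebraMap ℤ ℚ) :=
      minpoly.isIntegrallyClosed_eq_field_fractions ℚ ℚ⟮b⟯ (RingOfIntegers.isIntegral x)
    rw [← e1, hx]
    exact minpoly_gen ℚ b
  have hδ' : algebraMap (𝓞 ℚ⟮b⟯) ℚ⟮b⟯ δ =
      Polynomial.aeval (AdjoinSimple.gen ℚ b) (Polynomial.derivative (minpoly ℚ b)) := by
    rw [hδ, ← hx, ← hmin, Polynomial.derivative_map, Polynomial.aeval_map_algebraMap,
      ← Polynomial.aeval_algebraMap_apply]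
  have h4 : (algebraMap ℚ QQ) (Algebra.norm ℤ δ : ℚ) =
      ∏ σ : ℚ⟮b⟯ →ₐ[ℚ] QQ, σ (algebraMap (𝓞 ℚ⟮b⟯) ℚ⟮b⟯ δ) := by
    rw [Algebra.coe_norm_int]
    exact Algebra.norm_eq_prod_embeddings ℚ QQ _
  have hne : Algebra.norm ℤ δ ≠ 0 := by
    intro h0
    have h5 : (Algebra.norm ℚ (algebraMap (𝓞 ℚ⟮b⟯) ℚ⟮b⟯ δ) : ℚ) = 0 := by
      have h6 := Algebra.coe_norm_int δ
      rw [h0] at h6
      rw [← h6]
      exact Int.cast_zero
    rw [Algebra.norm_eq_zero_iff, hδ'] at h5
    have h7 : (minpoly ℚ (AdjoinSimple.gen ℚ b)).Separable :=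
      (minpoly.irreducible (AlgebraicClosure_gen_SharpR b)).separable
    rw [← minpoly_gen ℚ b] at h5
    exact h7.aeval_derivative_ne_zero (minpoly.aeval _ _) h5
  have h5 : (Algebra.norm ℤ δ).natAbs ≠ 0 := Int.natAbs_ne_zero.2 hne
  have h6 : Real.log l ≤ Real.log (Algebra.norm ℤ δ).natAbs :=
    Real.log_le_log (by exact_mod_cast hl.pos)
      (by exact_mod_cast Nat.le_of_dvd (Nat.pos_of_ne_zero h5) h3)
  refine h6.trans ((ht_nat_ge h5).trans ?_)
  refine (natAbs_SharpR _).trans ?_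
  rw [h4]
  have h8 := ht_multiset_le (H := (minpoly ℚ b).natDegree * (2 * absLogHeight₁ b + Real.log 2))
    ((Finset.univ : Finset (ℚ⟮b⟯ →ₐ[ℚ] QQ)).val.map
      fun σ => σ (algebraMap (𝓞 ℚ⟮b⟯) ℚ⟮b⟯ δ)) (by
    intro y hy
    obtain ⟨σ, -, rfl⟩ := Multiset.mem_map.1 hy
    rw [hδ', ← Polynomial.aeval_algHom_apply]
    refine deriv_SharpR ?_
    rw [Polynomial.mem_aroots]
    refine ⟨(minpoly.monic hbq).ne_zero, ?_⟩
    rw [Polynomial.aeval_algHom_apply]
    have h9 : Polynomial.aeval (AdjoinSimple.gen ℚ b) (minpoly ℚ b) = 0 :=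
      aeval_gen_minpoly ℚ b
    rw [h9, map_zero])
  rw [Multiset.card_map, Finset.card_val, Finset.card_univ, AlgHom.card,
    IntermediateField.adjoin.finrank hbq] at h8
  exact h8

/-- The prime numbers which divide the discriminant of the field generated by an algebraic number of
bounded degree are bounded by an exponential function of the height. -/
theorem ram_height (D : ℕ) : ∃ C : ℝ, 0 < C ∧ ∀ a : QQ, (minpoly ℚ a).natDegree ≤ D →
    ∀ (_ : NumberField (IntermediateField.adjoin ℚ {a})) (l : ℕ), l.Prime →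
      (l : ℤ) ∣ discr (IntermediateField.adjoin ℚ {a}) →
        Real.log l ≤ C * (1 + absLogHeight₁ a) := by
  refine ⟨(D + 1) * ((D + 1) * (2 * (D + 1) + 3)), by positivity, fun a hD hK l hl hd => ?_⟩
  obtain ⟨n, hn, hint, hlog⟩ := exists_denom a
  have hn' : (n : QQ) ≠ 0 := Nat.cast_ne_zero.2 hn
  have hab : IntermediateField.adjoin ℚ {a} = IntermediateField.adjoin ℚ {(n : QQ) * a} := by
    apply le_antisymm
    · rw [adjoin_simple_le_iff]
      have h1 : (n : QQ) * a ∈ IntermediateField.adjoin ℚ {(n : QQ) * a} :=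
        mem_adjoin_simple_self ℚ _
      have h2 : (n : QQ)⁻¹ * ((n : QQ) * a) ∈ IntermediateField.adjoin ℚ {(n : QQ) * a} :=
        mul_mem (inv_mem (IntermediateField.natCast_mem _ n)) h1
      rwa [← mul_assoc, inv_mul_cancel₀ hn', one_mul] at h2
    · rw [adjoin_simple_le_iff]
      exact mul_mem (IntermediateField.natCast_mem _ n) (mem_adjoin_simple_self ℚ a)
  have hdeg : (minpoly ℚ ((n : QQ) * a)).natDegree = (minpoly ℚ a).natDegree := by
    rw [← IntermediateField.adjoin.finrank (int_SharpR _), ← hab,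
      IntermediateField.adjoin.finrank (int_SharpR a)]
  have key : ∀ (K : IntermediateField ℚ QQ) (_ : NumberField K),
      K = IntermediateField.adjoin ℚ {(n : QQ) * a} → (l : ℤ) ∣ discr K → Real.log l ≤
        (minpoly ℚ a).natDegree *
          ((minpoly ℚ a).natDegree * (2 * absLogHeight₁ ((n : QQ) * a) + Real.log 2)) := by
    rintro K _ rfl h
    rw [← hdeg]
    exact discr_int_SharpR hint hl h
  refine (key _ hK hab hd).trans ?_
  have h0 := ht_nonneg a
  have h1 := ht_mul (n : QQ) a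
  have h2 := ht_nat_le hn
  have hD' : ((minpoly ℚ a).natDegree : ℝ) ≤ D := by exact_mod_cast hD
  have hd0 : (0 : ℝ) ≤ (minpoly ℚ a).natDegree := Nat.cast_nonneg _
  have h3 : Real.log n ≤ D * absLogHeight₁ a := hlog.trans (mul_le_mul_of_nonneg_right hD' h0)
  have h4 : Real.log 2 ≤ 1 := by
    have := Real.log_two_lt_d9
    linarith
  have h5 : 2 * absLogHeight₁ ((n : QQ) * a) + Real.log 2 ≤
      (2 * (D + 1) + 3) * (1 + absLogHeight₁ a) := by
    nlinarith
  have h6 : 0 ≤ 2 * absLogHeight₁ ((n : QQ) * a) + Real.log 2 := by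
    have := ht_nonneg ((n : QQ) * a)
    have := Real.log_nonneg (by norm_num : (1 : ℝ) ≤ 2)
    linarith
  have h7 : (0 : ℝ) ≤ (2 * (D + 1) + 3) * (1 + absLogHeight₁ a) := h6.trans h5
  have h8 : (D : ℝ) ≤ D + 1 := by linarith
  calc ((minpoly ℚ a).natDegree : ℝ) *
          ((minpoly ℚ a).natDegree * (2 * absLogHeight₁ ((n : QQ) * a) + Real.log 2))
      ≤ (D + 1) * ((D + 1) * ((2 * (D + 1) + 3) * (1 + absLogHeight₁ a))) := by
        have hD1 : (0 : ℝ) ≤ D + 1 := by positivity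
        refine mul_le_mul (hD'.trans h8) (mul_le_mul (hD'.trans h8) h5 h6 hD1) ?_ hD1
        exact mul_nonneg hd0 h6
    _ = (D + 1) * ((D + 1) * (2 * (D + 1) + 3)) * (1 + absLogHeight₁ a) := by ring

end Pool.Agent.Clo
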