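import Pool.Agent.Clo.QFin
import Pool.Agent.Clo.SharpR
import Pool.Agent.Clo.Sep

/-!
# The bound for the heights is sharp, unless the cycle is torsion

If the constant in front of `log (1 + #T)` in the bound for the heights can be made small, then the
cycle is torsion: the points of degree at most `D` and height at most `A + c * log (1 + s)` are
defined over a number field which is unramified outside the first `s` numbers, if `c` is small and
`s` is large.
-/

set_option autoImplicit false

noncomputable section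

namespace Pool.Agent.Clo

open Pool.Agent.ZCyc Pool.Agent.Dess NumberField
open scoped Classical

/-- a compositum of fields unramified at `l` is unramified at `l` -/
theorem unrAt_adjoin (V : Finset QQ) {l : ℕ} (hl : l.Prime) {W : ValuationSubring QQ}
    (hW : (l : QQ) ∈ W.nonunits)
    (h : ∀ a ∈ V, ∀ [NumberField (IntermediateField.adjoin ℚ {a})],
      ¬ (l : ℤ) ∣ discr (IntermediateField.adjoin ℚ {a})) :
    UnrAt (IntermediateField.adjoin ℚ (V : Set QQ)) W l := by
  induction V using Finset.induction with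
  | empty =>
    rw [Finset.coe_empty, IntermediateField.adjoin_empty]
    intro c hc hc0
    have hfin : FiniteDimensional ℚ (⊥ : IntermediateField ℚ QQ) := inferInstance
    have hnf : NumberField (⊥ : IntermediateField ℚ QQ) := numberField_Ram _
    refine value_unr hl ?_ hW hc hc0
    rw [discr_eq_discr_of_ringEquiv _
      (IntermediateField.botEquiv ℚ QQ).toRingEquiv, Rat.numberField_discr]
    intro h1
    have h2 : (l : ℤ) = 1 := Int.eq_one_of_dvd_one (by positivity) h1
    have h3 : l = 1 := by exact_mod_cast h2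
    exact hl.one_lt.ne' h3
  | insert a V ha ih =>
    intro c hc hc0
    have e : IntermediateField.adjoin ℚ ((insert a V : Finset QQ) : Set QQ) =
        IntermediateField.adjoin ℚ (V : Set QQ) ⊔ IntermediateField.adjoin ℚ {a} := by
      rw [← IntermediateField.adjoin_union, Finset.coe_insert, Set.union_singleton]
    rw [e] at hc
    have hfin : FiniteDimensional ℚ (IntermediateField.adjoin ℚ {a}) :=
      IntermediateField.adjoin.finiteDimensional (Algebra.IsIntegral.isIntegral a)
    have hnf : NumberField (IntermediateField.adjoin ℚ {a}) := numberField_Ram _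
    obtain ⟨d, hd, hd0, hcd⟩ := value_sup hl (h a (Finset.mem_insert_self a V)) hW hc hc0
    obtain ⟨m, hm⟩ := ih (fun b hb => h b (Finset.mem_insert_of_mem hb)) d hd hd0
    exact ⟨m, hcd.trans hm⟩

variable {ι : Type} {L : ι → Type} [∀ i, Field (L i)] [∀ i, Algebra QQ (L i)]

theorem torsion_of_small [Fintype ι] (hL : ∀ i, IsCurve QQ (L i)) {S : ∀ i, Finset (L i)}
    (hS : ∀ i, IntermediateField.adjoin QQ (S i : Set (L i)) = ⊤) (B : ∀ i, L i → ℝ) (k : ℕ) :
    ∃ c : ℝ, 0 < c ∧ ∀ (A : ℝ) (z : (∀ i, Place QQ (L i)) →₀ ℤ),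
      (∀ (K : IntermediateField ℚ QQ) (T : Finset ℕ), NumberField K → (∀ l ∈ T, l.Prime) →
        UnrOutside T K → ∃ m N : ℕ, 0 < m ∧
          NewSum K S {x | SizeLe B (A + c * Real.log (1 + T.card)) k x} N (m • z)) →
      RatTor L z := by
  choose Se hSe using fun i => exists_sep (hL i)
  -- the constants
  obtain ⟨M, hM0, hM⟩ : ∃ M : ℝ, 0 < M ∧ ∀ i, ∀ f ∈ Se i, B i f ≤ M := by
    refine ⟨1 + ∑ i, ∑ f ∈ Se i, |B i f|, ?_, fun i f hf => ?_⟩
    · have h1 : 0 ≤ ∑ i, ∑ f ∈ Se i, |B i f| :=
        Finset.sum_nonneg fun i _ => Finset.sum_nonneg fun f _ => abs_nonneg _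
      linarith
    · have h1 : |B i f| ≤ ∑ f ∈ Se i, |B i f| :=
        Finset.single_le_sum (f := fun f => |B i f|) (fun f _ => abs_nonneg _) hf
      have h2 : ∑ f ∈ Se i, |B i f| ≤ ∑ i, ∑ f ∈ Se i, |B i f| :=
        Finset.single_le_sum (f := fun i => ∑ f ∈ Se i, |B i f|)
          (fun i _ => Finset.sum_nonneg fun f _ => abs_nonneg _) (Finset.mem_univ i)
      have h3 := le_abs_self (B i f)
      linarith
  obtain ⟨Cc, hCc⟩ := exists_coeffs_newSum hS Se
  obtain ⟨D, hD⟩ : ∃ D : ℕ, ⌊M * k⌋₊ ≤ D ∧ ∀ c ∈ Cc, (minpoly ℚ c).natDegree ≤ D := by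
    refine ⟨⌊M * k⌋₊ + ∑ c ∈ Cc, (minpoly ℚ c).natDegree, Nat.le_add_right _ _, fun c hc => ?_⟩
    have h1 : (minpoly ℚ c).natDegree ≤ ∑ c ∈ Cc, (minpoly ℚ c).natDegree :=
      Finset.single_le_sum (f := fun c => (minpoly ℚ c).natDegree) (fun _ _ => Nat.zero_le _) hc
    omega
  obtain ⟨R, hR0, hR⟩ := ram_height D
  refine ⟨1 / (2 * R * M), by positivity, fun A z hz => ?_⟩
  -- the heights of the coefficients
  obtain ⟨H₀, hH₀⟩ : ∃ H₀ : ℝ, ∀ c ∈ Cc, absLogHeight₁ c ≤ H₀ := by
    refine ⟨∑ c ∈ Cc, absLogHeight₁ c, fun c hc => ?_⟩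
    exact Finset.single_le_sum (f := fun c => absLogHeight₁ c) (fun c _ => ht_nonneg c) hc
  -- the number `s`
  obtain ⟨s, hs1, hs2⟩ : ∃ s : ℕ, R * (1 + H₀) < Real.log s ∧
      R * (1 + M * |A|) + 1 / 2 * Real.log (1 + s) < Real.log s := by
    have h1 : Filter.Tendsto (fun s : ℕ => Real.log (s : ℝ)) Filter.atTop Filter.atTop :=
      Real.tendsto_log_atTop.comp tendsto_natCast_atTop_atTop
    obtain ⟨s, hs, hs'⟩ := ((h1.eventually_gt_atTop
      (max (R * (1 + H₀)) (2 * (R * (1 + M * |A|)) + Real.log 2))).and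
      (Filter.eventually_ge_atTop 1)).exists
    refine ⟨s, (le_max_left _ _).trans_lt hs, ?_⟩
    have h2 := (le_max_right _ _).trans_lt hs
    have h3 : (1 : ℝ) ≤ s := by exact_mod_cast hs'
    have h4 : Real.log (1 + s) ≤ Real.log 2 + Real.log s := by
      rw [← Real.log_mul (by norm_num) (by linarith)]
      exact Real.log_le_log (by linarith) (by linarith)
    linarith
  obtain ⟨T, hT⟩ : ∃ T, T = (Finset.range s).filter Nat.Prime := ⟨_, rfl⟩
  have hTs : (T.card : ℝ) ≤ s := by
    have h1 : T.card ≤ (Finset.range s).card := by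
      rw [hT]
      exact Finset.card_filter_le _ _
    rw [Finset.card_range] at h1
    exact_mod_cast h1
  obtain ⟨a, ha⟩ : ∃ a : ℝ, a = A + 1 / (2 * R * M) * Real.log (1 + T.card) := ⟨_, rfl⟩
  -- the numbers of small degree and height
  obtain ⟨V, hV⟩ := (northcott D (M * |a|)).exists_finset
  obtain ⟨K, hK⟩ : ∃ K, K = IntermediateField.adjoin ℚ ((V ∪ Cc : Finset QQ) : Set QQ) :=
    ⟨_, rfl⟩
  have hVK : ∀ c ∈ V, c ∈ K := by
    intro c hc
    rw [hK]
    exact IntermediateField.subset_adjoin ℚ _ (by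
      rw [Finset.mem_coe, Finset.mem_union]
      exact Or.inl hc)
  have hCK : ∀ c ∈ Cc, c ∈ K := by
    intro c hc
    rw [hK]
    exact IntermediateField.subset_adjoin ℚ _ (by
      rw [Finset.mem_coe, Finset.mem_union]
      exact Or.inr hc)
  have hfin : FiniteDimensional ℚ K := by
    rw [hK]
    exact IntermediateField.finiteDimensional_adjoin fun c _ => Algebra.IsIntegral.isIntegral c
  have haA : |a| ≤ |A| + 1 / (2 * R * M) * Real.log (1 + s) := by
    rw [ha]
    refine (abs_add_le _ _).trans ?_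
    have h1 : (0 : ℝ) ≤ T.card := Nat.cast_nonneg _
    have h0 : 0 ≤ Real.log (1 + (T.card : ℝ)) := Real.log_nonneg (by linarith)
    have h2 : Real.log (1 + (T.card : ℝ)) ≤ Real.log (1 + s) :=
      Real.log_le_log (by linarith) (by linarith)
    have h3 : 0 ≤ 1 / (2 * R * M) := by positivity
    have h4 := mul_le_mul_of_nonneg_left h2 h3
    rw [abs_of_nonneg (a := 1 / (2 * R * M) * Real.log (1 + T.card)) (mul_nonneg h3 h0)]
    linarith
  have hram : ∀ c ∈ V ∪ Cc, (minpoly ℚ c).natDegree ≤ D ∧
      R * (1 + absLogHeight₁ c) < Real.log s := by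
    intro c hc
    rcases Finset.mem_union.1 hc with hc | hc
    · obtain ⟨h1, h2⟩ := (hV c).1 hc
      refine ⟨h1, lt_of_le_of_lt ?_ hs2⟩
      have h3 : absLogHeight₁ c ≤ M * |A| + M * (1 / (2 * R * M) * Real.log (1 + s)) := by
        refine h2.trans ?_
        rw [← mul_add]
        exact mul_le_mul_of_nonneg_left haA hM0.le
      have h4 : R * (M * (1 / (2 * R * M) * Real.log (1 + s))) = 1 / 2 * Real.log (1 + s) := by
        field_simp
      nlinarith
    · refine ⟨hD.2 c hc, lt_of_le_of_lt ?_ hs1⟩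
      have h1 := hH₀ c hc
      exact mul_le_mul_of_nonneg_left (by linarith) hR0.le
  have hunr : UnrOutside T K := by
    intro l hl hlT
    have hls : l ∉ Finset.range s := fun h1 => hlT (by
      rw [hT, Finset.mem_filter]
      exact ⟨h1, hl⟩)
    obtain ⟨W, hW⟩ := exists_over hl
    refine ⟨W, hW, ?_⟩
    rw [hK]
    refine unrAt_adjoin _ hl hW fun c hc inst hdvd => ?_
    obtain ⟨h1, h2⟩ := hram c hc
    have h3 := hR c h1 inst l hl hdvd
    rw [Finset.mem_range, not_lt] at hls
    have h4 : Real.log s ≤ Real.log l := by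
      have h5 : 0 < s := by
        by_contra h6
        have h7 : s = 0 := by omega
        rw [h7, Nat.cast_zero, Real.log_zero] at h2
        have h8 := ht_nonneg c
        have h9 : 0 ≤ R * (1 + absLogHeight₁ c) := mul_nonneg hR0.le (by linarith)
        linarith
      exact Real.log_le_log (by exact_mod_cast h5) (by exact_mod_cast hls)
    linarith
  obtain ⟨m, N, hm, hN⟩ := hz K T (numberField_Ram K) (fun l hl => by
    rw [hT, Finset.mem_filter] at hl
    exact hl.2) hunr
  rw [← ha] at hN
  obtain ⟨l, -, hl, hr⟩ := hCc K hCK _ N _ hN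
  refine ⟨m, hm, ?_⟩
  have h0 : ∀ g ∈ l, g = 0 := by
    intro g hg
    obtain ⟨ρ, r, x, x', i, j, h1, h2, h3, h4, h5, h6, h7⟩ := hl g hg
    have hx : ∀ l, x' l = x l := by
      intro l
      refine (hSe l _ _ fun f hf c => ?_).symm
      have hval : ∀ c : QQ, (x l).At f c → c ∈ V := by
        intro c hc
        obtain ⟨k1, k2⟩ := h5 l f c hc
        rw [hV]
        refine ⟨?_, ?_⟩
        · refine le_trans ?_ hD.1
          refine Nat.le_floor (k2.trans ?_)
          exact mul_le_mul_of_nonneg_right (hM l f hf) (Nat.cast_nonneg k)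
        · have k3 : (0 : ℝ) ≤ k := Nat.cast_nonneg k
          have k4 : (1 : ℝ) ≤ ((minpoly ℚ c).natDegree : ℝ) := by
            exact_mod_cast minpoly.natDegree_pos (Algebra.IsIntegral.isIntegral c)
          have k5 : 0 ≤ B l f := by
            by_contra hcon
            push Not at hcon
            have k6 := mul_nonpos_of_nonpos_of_nonneg hcon.le k3
            linarith
          calc absLogHeight₁ c ≤ B l f * a := k1
            _ ≤ B l f * |a| := mul_le_mul_of_nonneg_left (le_abs_self a) k5
            _ ≤ M * |a| := mul_le_mul_of_nonneg_right (hM l f hf) (abs_nonneg a)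
      have hat : ∀ c : QQ, (x l).At f c ↔ (x' l).At f (ρ c) := by
        intro c
        have k1 := tuple_at (h3 l) ρ (h2 l).2 f c
        have k2 : ((r l : L l ≃+* L l) : L l →+* L l) f = f := (h2 l).1 f hf
        rw [k2] at k1
        exact k1
      constructor
      · intro hc
        have k1 := (hat c).1 hc
        rwa [h1 c (hVK c (hval c hc))] at k1
      · intro hc
        have k1 : (x l).At f (ρ.symm c) := by
          rw [hat, AlgEquiv.apply_symm_apply]
          exact hc
        have k2 := h1 _ (hVK _ (hval _ k1))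
        rw [AlgEquiv.apply_symm_apply] at k2
        rwa [← k2] at k1
    have h9 : mix x x' i j = 0 := by
      rw [mix_congr (hx i) (hx j), mix_self]
    rcases h7 with h7 | h7
    · rw [h7, h9]
    · rw [h7, h9, neg_zero]
  rw [Multiset.sum_eq_zero h0, zero_sub] at hr
  have h1 := (RatEq L).neg_mem hr
  rwa [neg_neg] at h1

end Pool.Agent.Clo
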