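import Pool.Agent.Clo.SharpR

/-!
# The primes which are ramified in the field generated by an algebraic number: uniform version

If the prime number `l` divides the discriminant of `ℚ(a)` and `d` is the degree of `a`, then
`log l ≤ 28 d ^ 3 (1 + h(a))`.
-/

set_option autoImplicit false

noncomputable section

namespace Pool.Agent.Clo

open Pool.Agent.ZCyc Pool.Agent.Dess NumberField IntermediateField
open scoped Classical

/-- The prime numbers which divide the discriminant of the field generated by an algebraic number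
are bounded in terms of the height and the degree, uniformly in the degree. -/
theorem ram_height_deg (a : QQ) (_ : NumberField (IntermediateField.adjoin ℚ {a})) (l : ℕ)
    (hl : l.Prime) (hd : (l : ℤ) ∣ discr (IntermediateField.adjoin ℚ {a})) :
    Real.log l ≤ 28 * ((minpoly ℚ a).natDegree : ℝ) ^ 3 * (1 + absLogHeight₁ a) := by
  rename_i hK
  obtain ⟨n, hn, hint, hlog⟩ := exists_denom a
  have hn' : (n : QQ) ≠ 0 := Nat.cast_ne_zero.2 hn
  have hab : IntermediateField.adjoin ℚ {a} = IntermediateField.adjoin ℚ {(n : QQ) * a} := by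
    apply le_antisymm
    · rw [adjoin_simple_le_iff]
      have h1 : (n : QQ) * a ∈ IntermediateField.adjoin ℚ {(n : QQ) * a} :=
        mem_adjoin_simple_self ℚ _
      have h2 : (n : QQ)⁻¹ * ((n : QQ) * a) ∈ IntermediateField.adjoin ℚ {(n : QQ) * a} :=
        mul_mem (inv_mem (IntermediateField.natCast_mem _ n)) h1
      rwa [← mul_assoc, inv_mul_cancel₀ hn', one_mul] at h2
    · rw [adjoin_simple_le_iff]
      exact mul_mem (IntermediateField.natCast_mem _ n) (mem_adjoin_simple_self ℚ a)
  have hdeg : (minpoly ℚ ((n : QQ) * a)).natDegree = (minpoly ℚ a).natDegree := by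
    rw [← IntermediateField.adjoin.finrank (int_SharpR _), ← hab,
      IntermediateField.adjoin.finrank (int_SharpR a)]
  have key : ∀ (K : IntermediateField ℚ QQ) (_ : NumberField K),
      K = IntermediateField.adjoin ℚ {(n : QQ) * a} → (l : ℤ) ∣ discr K → Real.log l ≤
        (minpoly ℚ a).natDegree *
          ((minpoly ℚ a).natDegree * (2 * absLogHeight₁ ((n : QQ) * a) + Real.log 2)) := by
    rintro K _ rfl h
    rw [← hdeg]
    exact discr_int_SharpR hint hl h
  refine (key _ hK hab hd).trans ?_
  obtain ⟨D, hD⟩ : ∃ D : ℝ, D = (minpoly ℚ a).natDegree := ⟨_, rfl⟩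
  rw [← hD] at hlog ⊢
  have hD1 : 1 ≤ D := by
    rw [hD]
    exact_mod_cast minpoly.natDegree_pos (int_SharpR a)
  have h0 := ht_nonneg a
  have h1 := ht_mul (n : QQ) a
  have h2 := ht_nat_le hn
  have h4 : Real.log 2 ≤ 1 := by
    have := Real.log_two_lt_d9
    linarith
  have h5 : 2 * absLogHeight₁ ((n : QQ) * a) + Real.log 2 ≤
      28 * D * (1 + absLogHeight₁ a) := by
    have h6 : D * absLogHeight₁ a ≤ D * (1 + absLogHeight₁ a) := by nlinarith
    have h7 : 1 + absLogHeight₁ a ≤ D * (1 + absLogHeight₁ a) := by nlinarith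
    nlinarith
  calc D * (D * (2 * absLogHeight₁ ((n : QQ) * a) + Real.log 2))
      ≤ D * (D * (28 * D * (1 + absLogHeight₁ a))) := by
        refine mul_le_mul_of_nonneg_left (mul_le_mul_of_nonneg_left h5 ?_) ?_ <;> linarith
    _ = 28 * D ^ 3 * (1 + absLogHeight₁ a) := by ring

end Pool.Agent.Clo
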