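import Pool.Agent.Clo.SharpR

/-!
# The primes which are ramified in the field generated by an algebraic number: quadratic version

If the prime number `l` divides the discriminant of `ℚ(a)` and `d` is the degree of `a`, then
`log l ≤ 2 d ^ 2 (1 + h(a))`.
-/

set_option autoImplicit false

noncomputable section

namespace Pool.Agent.Clo

open Pool.Agent.ZCyc Pool.Agent.Dess NumberField IntermediateField
open scoped Classical

/-- the height of a fraction with numerator divisible by `l` and denominator prime to `l` -/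
theorem ht_frac_ge {M : ℤ} {n l k : ℕ} (hM : M ≠ 0) (hn : n ≠ 0) (hl : l.Prime)
    (hlM : (l : ℤ) ∣ M) (hln : ¬ l ∣ n) :
    Real.log l ≤ absLogHeight₁ ((algebraMap ℚ QQ) ((M : ℚ) / (n : ℚ) ^ k)) := by
  obtain ⟨q, hq⟩ : ∃ q : ℚ, q = (M : ℚ) / (n : ℚ) ^ k := ⟨_, rfl⟩
  obtain ⟨y, hy⟩ : ∃ y : QQ, y = (algebraMap ℚ QQ) q := ⟨_, rfl⟩
  rw [← hq, ← hy]
  have hx := int_SharpR y
  have : FiniteDimensional ℚ ℚ⟮y⟯ := adjoin.finiteDimensional hx
  have : NumberField ℚ⟮y⟯ := {}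
  have hM' : (M : ℚ) ≠ 0 := Int.cast_ne_zero.2 hM
  have hn' : (n : ℚ) ≠ 0 := Nat.cast_ne_zero.2 hn
  have hq0 : q ≠ 0 := by
    rw [hq]
    exact div_ne_zero hM' (pow_ne_zero _ hn')
  have h2 : Module.finrank ℚ ℚ⟮y⟯ = 1 := by
    rw [IntermediateField.finrank_adjoin_simple_eq_one_iff, hy]
    exact IntermediateField.algebraMap_mem _ q
  have h1 := def_SharpR y
  rw [h2, Nat.cast_one, one_mul] at h1
  obtain ⟨m, hm0, hm, hint⟩ := exists_nat_le_mulHeight₁ (AdjoinSimple.gen ℚ y)⁻¹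
  rw [Height.mulHeight₁_inv] at hm
  have hgen : AdjoinSimple.gen ℚ y = algebraMap ℚ ℚ⟮y⟯ q := by
    apply (algebraMap ℚ⟮y⟯ QQ).injective
    rw [AdjoinSimple.algebraMap_gen, ← IsScalarTower.algebraMap_apply, hy]
  have h4 : ((m : ℚ⟮y⟯) * (AdjoinSimple.gen ℚ y)⁻¹) =
      algebraMap ℚ ℚ⟮y⟯ ((m : ℚ) * q⁻¹) := by
    rw [hgen, map_mul, map_inv₀, map_natCast]
  rw [h4, isIntegral_algebraMap_iff (algebraMap ℚ ℚ⟮y⟯).injective] at hint
  obtain ⟨c, hc⟩ := (IsIntegrallyClosed.isIntegral_iff (R := ℤ) (K := ℚ)).1 hint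
  have h5 : (((m : ℤ) * (n : ℤ) ^ k : ℤ) : ℚ) = ((c * M : ℤ) : ℚ) := by
    have h6 : algebraMap ℤ ℚ c = (c : ℚ) := rfl
    rw [h6, hq] at hc
    push_cast
    rw [hc]
    field_simp
  have h6 : (m : ℤ) * (n : ℤ) ^ k = c * M := by exact_mod_cast h5
  have h7 : (l : ℤ) ∣ (m : ℤ) * (n : ℤ) ^ k := by
    rw [h6]
    exact Dvd.dvd.mul_left hlM c
  have h8 : l ∣ m := by
    have h9 : l ∣ m * n ^ k := by exact_mod_cast h7
    rcases (Nat.Prime.dvd_mul hl).1 h9 with h | h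
    · exact h
    · exact absurd (hl.dvd_of_dvd_pow h) hln
  rw [h1]
  refine Real.log_le_log (by exact_mod_cast hl.pos) (le_trans ?_ hm)
  exact_mod_cast Nat.le_of_dvd (Nat.pos_of_ne_zero hm0) h8

/-- the derivative of the minimal polynomial of a multiple -/
theorem deriv_mul_SharpW (a : QQ) {n : ℕ} (hn : n ≠ 0) (c : QQ) :
    (n : QQ) * Polynomial.aeval ((n : QQ) * c)
      (Polynomial.derivative (minpoly ℚ ((n : QQ) * a))) =
      (n : QQ) ^ (minpoly ℚ a).natDegree *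
        Polynomial.aeval c (Polynomial.derivative (minpoly ℚ a)) := by
  have hn' : (n : ℚ) ≠ 0 := Nat.cast_ne_zero.2 hn
  have e1 : (n : QQ) * a = (n : ℚ) • a := by
    rw [Algebra.smul_def, map_natCast]
  have e2 : minpoly ℚ ((n : QQ) * a) = (minpoly ℚ a).scaleRoots (n : ℚ) := by
    rw [e1]
    exact IsIntegrallyClosed.minpoly_smul hn' (int_SharpR a)
  have e3 := Polynomial.scaleRoots_eval₂_mul (p := minpoly ℚ a) (Polynomial.C : ℚ →+* _)
    Polynomial.X (n : ℚ)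
  have e4 : ((minpoly ℚ a).scaleRoots (n : ℚ)).comp (Polynomial.C (n : ℚ) * Polynomial.X) =
      Polynomial.C (n : ℚ) ^ (minpoly ℚ a).natDegree * minpoly ℚ a := by
    have h : Polynomial.eval₂ Polynomial.C Polynomial.X (minpoly ℚ a) = minpoly ℚ a :=
      Polynomial.eval₂_C_X
    rw [h] at e3
    exact e3
  have e5 := congrArg Polynomial.derivative e4
  rw [Polynomial.derivative_comp, Polynomial.derivative_C_mul_X, ← Polynomial.C_pow,
    Polynomial.derivative_C_mul] at e5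
  have e6 := congrArg (Polynomial.aeval c) e5
  rw [map_mul, map_mul, Polynomial.aeval_C, Polynomial.aeval_C, Polynomial.aeval_comp, map_mul,
    Polynomial.aeval_C, Polynomial.aeval_X, map_pow, map_natCast] at e6
  rw [e2]
  exact e6

/-- the case of a prime which does not divide the denominator -/
theorem discr_frac_SharpW {a b : QQ} {n : ℕ} (hn : n ≠ 0) (hab : b = (n : QQ) * a)
    (hb : IsIntegral ℤ b) [NumberField ℚ⟮b⟯] {l : ℕ} (hl : l.Prime) (hln : ¬ l ∣ n)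
    (hd : (l : ℤ) ∣ discr ℚ⟮b⟯) : Real.log l ≤
      (minpoly ℚ b).natDegree * ((minpoly ℚ a).natDegree * (2 * absLogHeight₁ a + Real.log 2)) := by
  have hbq := int_SharpR b
  have hgen : IsIntegral ℤ (AdjoinSimple.gen ℚ b) := by
    have h : IsIntegral ℤ (algebraMap ℚ⟮b⟯ QQ (AdjoinSimple.gen ℚ b)) := hb
    exact (isIntegral_algebraMap_iff (algebraMap ℚ⟮b⟯ QQ).injective).1 h
  obtain ⟨x, hx⟩ : ∃ x : 𝓞 ℚ⟮b⟯, algebraMap (𝓞 ℚ⟮b⟯) ℚ⟮b⟯ x = AdjoinSimple.gen ℚ b :=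
    ⟨⟨_, hgen⟩, rfl⟩
  have hadj : Algebra.adjoin ℚ {algebraMap (𝓞 ℚ⟮b⟯) ℚ⟮b⟯ x} = ⊤ := by
    rw [hx]
    exact (adjoin.powerBasis hbq).adjoin_gen_eq_top
  have h1 := aeval_derivative_mem_differentIdeal ℤ ℚ ℚ⟮b⟯ x hadj
  obtain ⟨δ, hδ⟩ : ∃ δ : 𝓞 ℚ⟮b⟯, δ = Polynomial.aeval x (Polynomial.derivative (minpoly ℤ x)) :=
    ⟨_, rfl⟩
  rw [← hδ] at h1
  have h2 : (discr ℚ⟮b⟯).natAbs ∣ (Algebra.norm ℤ δ).natAbs := by
    rw [← absNorm_differentIdeal (K := ℚ⟮b⟯) (𝒪 := 𝓞 ℚ⟮b⟯), ← Ideal.absNorm_span_singleton]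
    exact Ideal.absNorm_dvd_absNorm_of_le ((Ideal.span_singleton_le_iff_mem _).2 h1)
  have h3 : (l : ℤ) ∣ Algebra.norm ℤ δ := Int.natCast_dvd.2 ((Int.natCast_dvd.1 hd).trans h2)
  have hmin : (minpoly ℤ x).map (algebraMap ℤ ℚ) = minpoly ℚ b := by
    have e1 : minpoly ℚ (algebraMap (𝓞 ℚ⟮b⟯) ℚ⟮b⟯ x) = (minpoly ℤ x).map (algebraMap ℤ ℚ) :=
      minpoly.isIntegrallyClosed_eq_field_fractions ℚ ℚ⟮b⟯ (RingOfIntegers.isIntegral x)
    rw [← e1, hx]
    exact minpoly_gen ℚ b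
  have hδ' : algebraMap (𝓞 ℚ⟮b⟯) ℚ⟮b⟯ δ =
      Polynomial.aeval (AdjoinSimple.gen ℚ b) (Polynomial.derivative (minpoly ℚ b)) := by
    rw [hδ, ← hx, ← hmin, Polynomial.derivative_map, Polynomial.aeval_map_algebraMap,
      ← Polynomial.aeval_algebraMap_apply]
  have h4 : (algebraMap ℚ QQ) (Algebra.norm ℤ δ : ℚ) =
      ∏ σ : ℚ⟮b⟯ →ₐ[ℚ] QQ, σ (algebraMap (𝓞 ℚ⟮b⟯) ℚ⟮b⟯ δ) := by
    rw [Algebra.coe_norm_int]
    exact Algebra.norm_eq_prod_embeddings ℚ QQ _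
  have hne : Algebra.norm ℤ δ ≠ 0 := by
    intro h0
    have h5 : (Algebra.norm ℚ (algebraMap (𝓞 ℚ⟮b⟯) ℚ⟮b⟯ δ) : ℚ) = 0 := by
      have h6 := Algebra.coe_norm_int δ
      rw [h0] at h6
      rw [← h6]
      exact Int.cast_zero
    rw [Algebra.norm_eq_zero_iff, hδ'] at h5
    have h7 : (minpoly ℚ (AdjoinSimple.gen ℚ b)).Separable :=
      (minpoly.irreducible (AlgebraicClosure_gen_SharpR b)).separable
    rw [← minpoly_gen ℚ b] at h5
    exact h7.aeval_derivative_ne_zero (minpoly.aeval _ _) h5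
  have hn' : (n : QQ) ≠ 0 := Nat.cast_ne_zero.2 hn
  -- the conjugates of `a`
  have hroot : ∀ σ : ℚ⟮b⟯ →ₐ[ℚ] QQ, Polynomial.aeval
      ((n : QQ)⁻¹ * σ (AdjoinSimple.gen ℚ b)) (minpoly ℚ a) = 0 := by
    intro σ
    have hgb : AdjoinSimple.gen ℚ b = (n : ℚ⟮b⟯) * ((n : ℚ⟮b⟯)⁻¹ * AdjoinSimple.gen ℚ b) := by
      rw [← mul_assoc, mul_inv_cancel₀ (Nat.cast_ne_zero.2 hn), one_mul]
    have e1 : algebraMap ℚ⟮b⟯ QQ ((n : ℚ⟮b⟯)⁻¹ * AdjoinSimple.gen ℚ b) = a := by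
      rw [map_mul, map_inv₀, map_natCast, AdjoinSimple.algebraMap_gen, hab, ← mul_assoc,
        inv_mul_cancel₀ hn', one_mul]
    have e2 : Polynomial.aeval ((n : ℚ⟮b⟯)⁻¹ * AdjoinSimple.gen ℚ b) (minpoly ℚ a) = 0 := by
      apply (algebraMap ℚ⟮b⟯ QQ).injective
      rw [← Polynomial.aeval_algebraMap_apply, e1, minpoly.aeval, map_zero]
    have e3 := congrArg σ e2
    rw [map_zero, ← Polynomial.aeval_algHom_apply, map_mul, map_inv₀, map_natCast] at e3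
    exact e3
  have hfac : ∀ σ : ℚ⟮b⟯ →ₐ[ℚ] QQ, (n : QQ) * σ (algebraMap (𝓞 ℚ⟮b⟯) ℚ⟮b⟯ δ) =
      (n : QQ) ^ (minpoly ℚ a).natDegree * Polynomial.aeval
        ((n : QQ)⁻¹ * σ (AdjoinSimple.gen ℚ b)) (Polynomial.derivative (minpoly ℚ a)) := by
    intro σ
    rw [← deriv_mul_SharpW a hn, ← mul_assoc (n : QQ) (n : QQ)⁻¹, mul_inv_cancel₀ hn', one_mul,
      ← hab, hδ', ← Polynomial.aeval_algHom_apply]
  obtain ⟨g, hg⟩ : ∃ g : ℕ, g = Fintype.card (ℚ⟮b⟯ →ₐ[ℚ] QQ) := ⟨_, rfl⟩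
  have hprod : (n : QQ) ^ g * (algebraMap ℚ QQ) (Algebra.norm ℤ δ : ℚ) =
      ((n : QQ) ^ (minpoly ℚ a).natDegree) ^ g * ∏ σ : ℚ⟮b⟯ →ₐ[ℚ] QQ, Polynomial.aeval
        ((n : QQ)⁻¹ * σ (AdjoinSimple.gen ℚ b)) (Polynomial.derivative (minpoly ℚ a)) := by
    rw [h4, hg, ← Finset.card_univ, ← Finset.prod_const, ← Finset.prod_mul_distrib,
      ← Finset.prod_const, ← Finset.prod_mul_distrib]
    exact Finset.prod_congr rfl fun σ _ => hfac σ
  have hfin : (algebraMap ℚ QQ) ((((n : ℤ) ^ g * Algebra.norm ℤ δ : ℤ) : ℚ) /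
      (n : ℚ) ^ ((minpoly ℚ a).natDegree * g)) = ∏ σ : ℚ⟮b⟯ →ₐ[ℚ] QQ, Polynomial.aeval
        ((n : QQ)⁻¹ * σ (AdjoinSimple.gen ℚ b)) (Polynomial.derivative (minpoly ℚ a)) := by
    rw [map_div₀, div_eq_iff (by
      rw [map_pow, map_natCast]
      exact pow_ne_zero _ hn')]
    have e1 : (algebraMap ℚ QQ) (((n : ℤ) ^ g * Algebra.norm ℤ δ : ℤ) : ℚ) =
        (n : QQ) ^ g * (algebraMap ℚ QQ) (Algebra.norm ℤ δ : ℚ) := by
      rw [Int.cast_mul, Int.cast_pow, Int.cast_natCast, map_mul, map_pow, map_natCast]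
    rw [e1, hprod, map_pow, map_natCast, pow_mul]
    ring
  have h5 := ht_frac_ge (M := (n : ℤ) ^ g * Algebra.norm ℤ δ) (n := n) (l := l)
    (k := (minpoly ℚ a).natDegree * g)
    (mul_ne_zero (pow_ne_zero _ (by exact_mod_cast hn)) hne) hn hl (Dvd.dvd.mul_left h3 _) hln
  rw [hfin] at h5
  refine h5.trans ?_
  have h8 := ht_multiset_le (H := (minpoly ℚ a).natDegree * (2 * absLogHeight₁ a + Real.log 2))
    ((Finset.univ : Finset (ℚ⟮b⟯ →ₐ[ℚ] QQ)).val.map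
      fun σ => Polynomial.aeval ((n : QQ)⁻¹ * σ (AdjoinSimple.gen ℚ b))
        (Polynomial.derivative (minpoly ℚ a))) (by
    intro y hy
    obtain ⟨σ, -, rfl⟩ := Multiset.mem_map.1 hy
    refine deriv_SharpR ?_
    rw [Polynomial.mem_aroots]
    exact ⟨(minpoly.monic (int_SharpR a)).ne_zero, hroot σ⟩)
  rw [Multiset.card_map, Finset.card_val, Finset.card_univ, AlgHom.card,
    IntermediateField.adjoin.finrank hbq] at h8
  exact h8

/-- The prime numbers which divide the discriminant of the field generated by an algebraic number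
are bounded in terms of the height and the square of the degree. -/
theorem ram_height_sq (a : QQ) (_ : NumberField (IntermediateField.adjoin ℚ {a})) (l : ℕ)
    (hl : l.Prime) (hd : (l : ℤ) ∣ discr (IntermediateField.adjoin ℚ {a})) :
    Real.log l ≤ 2 * ((minpoly ℚ a).natDegree : ℝ) ^ 2 * (1 + absLogHeight₁ a) := by
  rename_i hK
  obtain ⟨n, hn, hint, hlog⟩ := exists_denom a
  have hn' : (n : QQ) ≠ 0 := Nat.cast_ne_zero.2 hn
  have hD1 : (1 : ℝ) ≤ (minpoly ℚ a).natDegree := by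
    exact_mod_cast minpoly.natDegree_pos (int_SharpR a)
  have h0 := ht_nonneg a
  have hlog2 : Real.log 2 ≤ 1 := by
    have := Real.log_two_lt_d9
    linarith
  by_cases hln : l ∣ n
  · have h1 : Real.log l ≤ Real.log n := Real.log_le_log (by exact_mod_cast hl.pos)
      (by exact_mod_cast Nat.le_of_dvd (Nat.pos_of_ne_zero hn) hln)
    refine (h1.trans hlog).trans ?_
    have h2 : ((minpoly ℚ a).natDegree : ℝ) * absLogHeight₁ a ≤
        ((minpoly ℚ a).natDegree : ℝ) ^ 2 * (1 + absLogHeight₁ a) := by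
      have h4 : ((minpoly ℚ a).natDegree : ℝ) ≤ ((minpoly ℚ a).natDegree : ℝ) ^ 2 :=
        le_self_pow₀ hD1 (by norm_num)
      exact mul_le_mul h4 (by linarith) h0 (by positivity)
    have h3 : 0 ≤ ((minpoly ℚ a).natDegree : ℝ) ^ 2 * (1 + absLogHeight₁ a) := by positivity
    linarith
  · have hab : IntermediateField.adjoin ℚ {a} = IntermediateField.adjoin ℚ {(n : QQ) * a} := by
      apply le_antisymm
      · rw [adjoin_simple_le_iff]
        have h1 : (n : QQ) * a ∈ IntermediateField.adjoin ℚ {(n : QQ) * a} :=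
          mem_adjoin_simple_self ℚ _
        have h2 : (n : QQ)⁻¹ * ((n : QQ) * a) ∈ IntermediateField.adjoin ℚ {(n : QQ) * a} :=
          mul_mem (inv_mem (IntermediateField.natCast_mem _ n)) h1
        rwa [← mul_assoc, inv_mul_cancel₀ hn', one_mul] at h2
      · rw [adjoin_simple_le_iff]
        exact mul_mem (IntermediateField.natCast_mem _ n) (mem_adjoin_simple_self ℚ a)
    have hdeg : (minpoly ℚ ((n : QQ) * a)).natDegree = (minpoly ℚ a).natDegree := by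
      rw [← IntermediateField.adjoin.finrank (int_SharpR _), ← hab,
        IntermediateField.adjoin.finrank (int_SharpR a)]
    have key : ∀ (K : IntermediateField ℚ QQ) (_ : NumberField K),
        K = IntermediateField.adjoin ℚ {(n : QQ) * a} → (l : ℤ) ∣ discr K → Real.log l ≤
          (minpoly ℚ a).natDegree *
            ((minpoly ℚ a).natDegree * (2 * absLogHeight₁ a + Real.log 2)) := by
      rintro K _ rfl h
      have h1 := discr_frac_SharpW hn rfl hint hl hln h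
      rwa [hdeg] at h1
    refine (key _ hK hab hd).trans ?_
    obtain ⟨D, hD⟩ : ∃ D : ℝ, D = (minpoly ℚ a).natDegree := ⟨_, rfl⟩
    rw [← hD] at hD1 ⊢
    have h5 : 2 * absLogHeight₁ a + Real.log 2 ≤ 2 * (1 + absLogHeight₁ a) := by linarith
    calc D * (D * (2 * absLogHeight₁ a + Real.log 2))
        ≤ D * (D * (2 * (1 + absLogHeight₁ a))) := by
          refine mul_le_mul_of_nonneg_left (mul_le_mul_of_nonneg_left h5 ?_) ?_ <;> linarith
      _ = 2 * D ^ 2 * (1 + absLogHeight₁ a) := by ring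

end Pool.Agent.Clo
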