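import Pool.Agent.Clo.SharpT
import Pool.Agent.Clo.SharpW

/-!
# The bound for the size of the points is sharp: uniform version

If the points can be chosen such that height times the square of the degree is at most
`A + c * log (1 + s)` for a small constant `c`, for all number fields which are unramified outside
`s` prime numbers, then the cycle is torsion.
-/

set_option autoImplicit false

noncomputable section

namespace Pool.Agent.Clo

open Pool.Agent.ZCyc Pool.Agent.Dess NumberField
open scoped Classical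

variable {ι : Type} {L : ι → Type} [∀ i, Field (L i)] [∀ i, Algebra QQ (L i)]

/-- For all functions `f` on the curve `i`, the value of `f` at the coordinate `x i` has height `h`
and degree `d` with `(1 + h) * d ^ 2 ≤ B i f * b`. -/
def GapLe (B : ∀ i, L i → ℝ) (b : ℝ) (x : ∀ i, Place QQ (L i)) : Prop :=
  ∀ (i : ι) (f : L i) (c : QQ), (x i).At f c →
    (1 + absLogHeight₁ c) * ((minpoly ℚ c).natDegree : ℝ) ^ 2 ≤ B i f * b

theorem torsion_of_gap [Fintype ι] (hL : ∀ i, IsCurve QQ (L i)) {S : ∀ i, Finset (L i)}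
    (hS : ∀ i, IntermediateField.adjoin QQ (S i : Set (L i)) = ⊤) (B : ∀ i, L i → ℝ) :
    ∃ c : ℝ, 0 < c ∧ ∀ (A : ℝ) (z : (∀ i, Place QQ (L i)) →₀ ℤ),
      (∀ (K : IntermediateField ℚ QQ) (T : Finset ℕ), NumberField K → (∀ l ∈ T, l.Prime) →
        UnrOutside T K → ∃ m N : ℕ, 0 < m ∧
          NewSum K S {x | GapLe B (A + c * Real.log (1 + T.card)) x} N (m • z)) →
      RatTor L z := by
  choose Se hSe using fun i => exists_sep (hL i)
  -- the constants
  obtain ⟨M, hM0, hM⟩ : ∃ M : ℝ, 0 < M ∧ ∀ i, ∀ f ∈ Se i, |B i f| ≤ M := by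
    refine ⟨1 + ∑ i, ∑ f ∈ Se i, |B i f|, ?_, fun i f hf => ?_⟩
    · have h1 : 0 ≤ ∑ i, ∑ f ∈ Se i, |B i f| :=
        Finset.sum_nonneg fun i _ => Finset.sum_nonneg fun f _ => abs_nonneg _
      linarith
    · have h1 : |B i f| ≤ ∑ f ∈ Se i, |B i f| :=
        Finset.single_le_sum (f := fun f => |B i f|) (fun f _ => abs_nonneg _) hf
      have h2 : ∑ f ∈ Se i, |B i f| ≤ ∑ i, ∑ f ∈ Se i, |B i f| :=
        Finset.single_le_sum (f := fun i => ∑ f ∈ Se i, |B i f|)
          (fun i _ => Finset.sum_nonneg fun f _ => abs_nonneg _) (Finset.mem_univ i)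
      linarith
  obtain ⟨Cc, hCc⟩ := exists_coeffs_newSum hS Se
  refine ⟨1 / (4 * M), by positivity, fun A z hz => ?_⟩
  have hgn : ∀ c : QQ, 0 ≤ (1 + absLogHeight₁ c) * ((minpoly ℚ c).natDegree : ℝ) ^ 2 := by
    intro c
    have := ht_nonneg c
    positivity
  -- the sizes of the coefficients
  obtain ⟨H₀, hH₀⟩ : ∃ H₀ : ℝ, ∀ c ∈ Cc,
      (1 + absLogHeight₁ c) * ((minpoly ℚ c).natDegree : ℝ) ^ 2 ≤ H₀ := by
    refine ⟨∑ c ∈ Cc, (1 + absLogHeight₁ c) * ((minpoly ℚ c).natDegree : ℝ) ^ 2, fun c hc => ?_⟩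
    exact Finset.single_le_sum
      (f := fun c => (1 + absLogHeight₁ c) * ((minpoly ℚ c).natDegree : ℝ) ^ 2)
      (fun c _ => hgn c) hc
  -- the number `s`
  obtain ⟨s, hs1, hs2⟩ : ∃ s : ℕ, 2 * H₀ < Real.log s ∧
      2 * (M * |A|) + 1 / 2 * Real.log (1 + s) < Real.log s := by
    have h1 : Filter.Tendsto (fun s : ℕ => Real.log (s : ℝ)) Filter.atTop Filter.atTop :=
      Real.tendsto_log_atTop.comp tendsto_natCast_atTop_atTop
    obtain ⟨s, hs, hs'⟩ := ((h1.eventually_gt_atTop
      (max (2 * H₀) (2 * (2 * (M * |A|)) + Real.log 2))).and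
      (Filter.eventually_ge_atTop 1)).exists
    refine ⟨s, (le_max_left _ _).trans_lt hs, ?_⟩
    have h2 := (le_max_right _ _).trans_lt hs
    have h3 : (1 : ℝ) ≤ s := by exact_mod_cast hs'
    have h4 : Real.log (1 + s) ≤ Real.log 2 + Real.log s := by
      rw [← Real.log_mul (by norm_num) (by linarith)]
      exact Real.log_le_log (by linarith) (by linarith)
    linarith
  obtain ⟨T, hT⟩ : ∃ T, T = (Finset.range s).filter Nat.Prime := ⟨_, rfl⟩
  have hTs : (T.card : ℝ) ≤ s := by
    have h1 : T.card ≤ (Finset.range s).card := by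
      rw [hT]
      exact Finset.card_filter_le _ _
    rw [Finset.card_range] at h1
    exact_mod_cast h1
  obtain ⟨a, ha⟩ : ∃ a : ℝ, a = A + 1 / (4 * M) * Real.log (1 + T.card) := ⟨_, rfl⟩
  -- the numbers of small size
  obtain ⟨V, hV⟩ : ∃ V : Finset QQ, ∀ c, c ∈ V ↔
      (1 + absLogHeight₁ c) * ((minpoly ℚ c).natDegree : ℝ) ^ 2 ≤ M * |a| := by
    have h1 : {c : QQ | (1 + absLogHeight₁ c) * ((minpoly ℚ c).natDegree : ℝ) ^ 2 ≤
        M * |a|}.Finite := by
      refine (northcott ⌊M * |a|⌋₊ (M * |a|)).subset fun c hc => ?_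
      have h2 : (1 + absLogHeight₁ c) * ((minpoly ℚ c).natDegree : ℝ) ^ 2 ≤ M * |a| := hc
      have h3 := ht_nonneg c
      have h4 : (1 : ℝ) ≤ ((minpoly ℚ c).natDegree : ℝ) := by
        exact_mod_cast minpoly.natDegree_pos (Algebra.IsIntegral.isIntegral c)
      have h5 : ((minpoly ℚ c).natDegree : ℝ) ≤ ((minpoly ℚ c).natDegree : ℝ) ^ 2 :=
        le_self_pow₀ h4 (by norm_num)
      have h6 : ((minpoly ℚ c).natDegree : ℝ) ^ 2 ≤
          (1 + absLogHeight₁ c) * ((minpoly ℚ c).natDegree : ℝ) ^ 2 :=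
        le_mul_of_one_le_left (by positivity) (by linarith)
      have h7 : 1 + absLogHeight₁ c ≤
          (1 + absLogHeight₁ c) * ((minpoly ℚ c).natDegree : ℝ) ^ 2 :=
        le_mul_of_one_le_right (by linarith) (h4.trans h5)
      exact ⟨Nat.le_floor (h5.trans (h6.trans h2)), by linarith⟩
    exact ⟨h1.toFinset, fun c => h1.mem_toFinset⟩
  obtain ⟨K, hK⟩ : ∃ K, K = IntermediateField.adjoin ℚ ((V ∪ Cc : Finset QQ) : Set QQ) :=
    ⟨_, rfl⟩
  have hVK : ∀ c ∈ V, c ∈ K := by
    intro c hc
    rw [hK]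
    exact IntermediateField.subset_adjoin ℚ _ (by
      rw [Finset.mem_coe, Finset.mem_union]
      exact Or.inl hc)
  have hCK : ∀ c ∈ Cc, c ∈ K := by
    intro c hc
    rw [hK]
    exact IntermediateField.subset_adjoin ℚ _ (by
      rw [Finset.mem_coe, Finset.mem_union]
      exact Or.inr hc)
  have hfin : FiniteDimensional ℚ K := by
    rw [hK]
    exact IntermediateField.finiteDimensional_adjoin fun c _ => Algebra.IsIntegral.isIntegral c
  have haA : |a| ≤ |A| + 1 / (4 * M) * Real.log (1 + s) := by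
    rw [ha]
    refine (abs_add_le _ _).trans ?_
    have h1 : (0 : ℝ) ≤ T.card := Nat.cast_nonneg _
    have h0 : 0 ≤ Real.log (1 + (T.card : ℝ)) := Real.log_nonneg (by linarith)
    have h2 : Real.log (1 + (T.card : ℝ)) ≤ Real.log (1 + s) :=
      Real.log_le_log (by linarith) (by linarith)
    have h3 : 0 ≤ 1 / (4 * M) := by positivity
    have h4 := mul_le_mul_of_nonneg_left h2 h3
    rw [abs_of_nonneg (a := 1 / (4 * M) * Real.log (1 + T.card)) (mul_nonneg h3 h0)]
    linarith
  have hram : ∀ c ∈ V ∪ Cc,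
      2 * ((1 + absLogHeight₁ c) * ((minpoly ℚ c).natDegree : ℝ) ^ 2) < Real.log s := by
    intro c hc
    rcases Finset.mem_union.1 hc with hc | hc
    · have h2 := (hV c).1 hc
      refine lt_of_le_of_lt ?_ hs2
      have h3 : M * |a| ≤ M * |A| + M * (1 / (4 * M) * Real.log (1 + s)) := by
        rw [← mul_add]
        exact mul_le_mul_of_nonneg_left haA hM0.le
      have h4 : M * (1 / (4 * M) * Real.log (1 + s)) = 1 / 4 * Real.log (1 + s) := by
        field_simp
      linarith
    · have h1 := hH₀ c hc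
      linarith
  have hunr : UnrOutside T K := by
    intro l hl hlT
    have hls : l ∉ Finset.range s := fun h1 => hlT (by
      rw [hT, Finset.mem_filter]
      exact ⟨h1, hl⟩)
    obtain ⟨W, hW⟩ := exists_over hl
    refine ⟨W, hW, ?_⟩
    rw [hK]
    refine unrAt_adjoin _ hl hW fun c hc inst hdvd => ?_
    have h2 := hram c hc
    have h3 := ram_height_sq c inst l hl hdvd
    rw [Finset.mem_range, not_lt] at hls
    have h4 : Real.log s ≤ Real.log l := by
      have h5 : 0 < s := by
        by_contra h6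
        have h7 : s = 0 := by omega
        rw [h7, Nat.cast_zero, Real.log_zero] at h2
        have h8 := hgn c
        linarith
      exact Real.log_le_log (by exact_mod_cast h5) (by exact_mod_cast hls)
    linarith
  obtain ⟨m, N, hm, hN⟩ := hz K T (numberField_Ram K) (fun l hl => by
    rw [hT, Finset.mem_filter] at hl
    exact hl.2) hunr
  rw [← ha] at hN
  obtain ⟨l, -, hl, hr⟩ := hCc K hCK _ N _ hN
  refine ⟨m, hm, ?_⟩
  have h0 : ∀ g ∈ l, g = 0 := by
    intro g hg
    obtain ⟨ρ, r, x, x', i, j, h1, h2, h3, h4, h5, h6, h7⟩ := hl g hg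
    have hx : ∀ l, x' l = x l := by
      intro l
      refine (hSe l _ _ fun f hf c => ?_).symm
      have hval : ∀ c : QQ, (x l).At f c → c ∈ V := by
        intro c hc
        have k1 := h5 l f c hc
        rw [hV]
        calc (1 + absLogHeight₁ c) * ((minpoly ℚ c).natDegree : ℝ) ^ 2 ≤ B l f * a := k1
          _ ≤ |B l f * a| := le_abs_self _
          _ = |B l f| * |a| := abs_mul _ _
          _ ≤ M * |a| := mul_le_mul_of_nonneg_right (hM l f hf) (abs_nonneg a)
      have hat : ∀ c : QQ, (x l).At f c ↔ (x' l).At f (ρ c) := by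
        intro c
        have k1 := tuple_at (h3 l) ρ (h2 l).2 f c
        have k2 : ((r l : L l ≃+* L l) : L l →+* L l) f = f := (h2 l).1 f hf
        rw [k2] at k1
        exact k1
      constructor
      · intro hc
        have k1 := (hat c).1 hc
        rwa [h1 c (hVK c (hval c hc))] at k1
      · intro hc
        have k1 : (x l).At f (ρ.symm c) := by
          rw [hat, AlgEquiv.apply_symm_apply]
          exact hc
        have k2 := h1 _ (hVK _ (hval _ k1))
        rw [AlgEquiv.apply_symm_apply] at k2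
        rwa [← k2] at k1
    have h9 : mix x x' i j = 0 := by
      rw [mix_congr (hx i) (hx j), mix_self]
    rcases h7 with h7 | h7
    · rw [h7, h9]
    · rw [h7, h9, neg_zero]
  rw [Multiset.sum_eq_zero h0, zero_sub] at hr
  have h1 := (RatEq L).neg_mem hr
  rwa [neg_neg] at h1

end Pool.Agent.Clo
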