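import Pool.Agent.Clo.OrbB
import Mathlib.GroupTheory.SpecificGroups.Alternating.Centralizer

/-!
# The action of a normal subgroup of the Galois group on a fibre
-/

set_option autoImplicit false

noncomputable section

namespace Pool.Agent.Clo

open Pool.Agent.ZCyc Pool.Agent.Dess Pool.Agent.Dess4
open scoped Classical commutatorElement

variable {F : Type} [Field F] [Algebra QQ F]

private lemma fix_adjoin_Sig {A : Set QQ} {ρ : Gam} (h : ∀ c ∈ A, ρ c = c) :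
    ∀ c ∈ IntermediateField.adjoin ℚ A, ρ c = c := by
  intro c hc
  induction hc using IntermediateField.adjoin_induction with
  | mem x hx => exact h x hx
  | algebraMap x => exact ρ.commutes x
  | add x y _ _ hx hy => rw [map_add, hx, hy]
  | inv x _ hx => rw [map_inv₀, hx]
  | mul x y _ _ hx hy => rw [map_mul, hx, hy]

private lemma fix_sup_Sig {K1 K2 : IntermediateField ℚ QQ} {ρ : Gam} (h1 : ∀ c ∈ K1, ρ c = c)
    (h2 : ∀ c ∈ K2, ρ c = c) : ∀ c ∈ K1 ⊔ K2, ρ c = c := by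
  have key : ∀ (σ : Gam), σ ∈ Subgroup.zpowers ρ → ∀ c : QQ, ρ c = c → σ c = c := by
    rintro σ ⟨n, rfl⟩ c hc
    have h3 : ρ ∈ MulAction.stabilizer Gam c := hc
    exact (MulAction.stabilizer Gam c).zpow_mem h3 n
  have h3 : K1 ⊔ K2 ≤ IntermediateField.fixedField (Subgroup.zpowers ρ) :=
    sup_le (fun c hc σ => key σ.1 σ.2 c (h1 c hc)) fun c hc σ => key σ.1 σ.2 c (h2 c hc)
  intro c hc
  exact h3 hc ⟨ρ, Subgroup.mem_zpowers ρ⟩

/-- two automorphisms commute on the roots of unity -/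
private lemma comm_root {k : ℕ} (hk : 0 < k) {ζ : QQ} (hζ : ζ ^ k = 1) (ρ τ : Gam) :
    ρ (τ ζ) = τ (ρ ζ) := by
  have : NeZero k := ⟨hk.ne'⟩
  have h1 : ∀ σ : Gam, ∃ m : ℕ, σ ζ = ζ ^ m := by
    intro σ
    obtain ⟨m, hm⟩ := map_rootsOfUnity_eq_pow_self σ (rootsOfUnity.mkOfPowEq ζ hζ)
    refine ⟨m, ?_⟩
    simpa using hm
  obtain ⟨m, hm⟩ := h1 ρ
  obtain ⟨m', hm'⟩ := h1 τ
  rw [hm, hm', map_pow, map_pow, hm, hm', ← pow_mul, ← pow_mul, mul_comm]

theorem sig_data_gen {n : ℕ} (hn : 5 ≤ n) {K1 K2 : IntermediateField ℚ QQ}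
    (hK2 : NoAlt n K2) (hF : IsCurve QQ F) {φ y z u : F} {p q r : Place QQ F}
    {n1 n2 m e1 e2 e3 : ℕ} (h : Fib φ y z u p q r n1 n2 m e1 e2 e3) {T : QQ → Prop}
    (hO : OrbitData K1 T φ z n2 e2) (hN : (n1 + n2).Prime)
    (hn2 : n2.Prime) (h1 : n1 + n2 < 2 * n2) (h2 : n2 + 3 ≤ n1 + n2) (hX : n ≤ n1 + n2)
    (S : Finset F) (Bad X : Finset QQ) :
    ∃ (t : QQ) (S' : Finset F) (D : Finset QQ) (s : Finset (Place QQ F))
      (H : Subgroup (K1 ⊔ K2).fixingSubgroup) (a : H →* Equiv.Perm s) (Y : Finset QQ),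
      t ∉ Bad ∧ T t ∧ S ⊆ S' ∧ X ⊆ D ∧
      (∀ ρ : (K1 ⊔ K2).fixingSubgroup, ∀ c ∈ D, (ρ : Gam) c ∈ D) ∧
      (∀ ρ, ρ ∈ H ↔ ∀ c ∈ D, (ρ : Gam) c = c) ∧ (∀ v, v ∈ s ↔ v.At φ t) ∧
      s.card = n1 + n2 ∧
      (∀ (ρ : H) (x : s), ∃ r : F ≃+* F, Fixes S' (ρ : Gam) r ∧ Moves r x.1 (a ρ x).1) ∧
      (∀ ρ : H, (∀ c ∈ Y, (ρ : Gam) c = c) → a ρ = 1) ∧ alternatingGroup s ≤ a.range := by
  have htr := h.transc hF
  have hBad := finite_crit hF htr
  obtain ⟨t, S', C, ht1, hXC, hCstab, ⟨k, hk, htk⟩, ht2, hS, hφ, hz, hgen, hlift, htrans, hval⟩ :=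
    hO S (Bad ∪ hBad.toFinset) X
  rw [Finset.mem_union, not_or] at ht1
  obtain ⟨s, hs⟩ : ∃ s : Finset (Place QQ F), ∀ v, v ∈ s ↔ v.At φ t :=
    ⟨(finite_at hF htr t).toFinset, fun v => by simp⟩
  have hfib : IsFibre φ p q n1 n2 t s :=
    { curve := hF
      transc := htr
      ne := h.ne
      pole_p := h.ordp
      pole_q := h.ordq
      n1_pos := h.n1_pos
      n2_pos := h.n2_pos
      reg := h.reg
      mem := hs
      unif := by
        intro v hv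
        by_contra hu
        exact ht1.2 (hBad.mem_toFinset.2 ⟨v, hv, hu⟩) }
  obtain ⟨E, hE⟩ : ∃ E, E = K1 ⊔ IntermediateField.adjoin ℚ (C : Set QQ) ⊔
    IntermediateField.adjoin ℚ {t} := ⟨_, rfl⟩
  rw [← hE] at htrans hval
  have htE : t ∈ E := by
    rw [hE]
    exact (le_sup_right : IntermediateField.adjoin ℚ {t} ≤ _)
      (IntermediateField.subset_adjoin ℚ _ (Set.mem_singleton t))
  have hCE : ∀ c ∈ C, c ∈ E := by
    intro c hc
    rw [hE]
    exact (le_sup_right.trans le_sup_left : IntermediateField.adjoin ℚ (C : Set QQ) ≤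
      K1 ⊔ IntermediateField.adjoin ℚ (C : Set QQ) ⊔ IntermediateField.adjoin ℚ {t})
      (IntermediateField.subset_adjoin ℚ _ hc)
  obtain ⟨a₀, ha₀⟩ := exists_act hF hgen (E := E) (fun ρ hρ => hlift ρ fun c hc => hρ c (hCE c hc))
    hφ htE hs
  obtain ⟨Y, hY⟩ := exists_act_ker hF hgen ha₀
  have hA := alt_range hF h hN hn2 h1 h2 hz hgen htE hs hfib.card a₀ ha₀ Y hY htrans (hval hn2)
  have hcard : Fintype.card s = n1 + n2 := by
    rw [Fintype.card_coe, hfib.card]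
  have ht0 : t ≠ 0 := by
    obtain ⟨W, l, x, b, hl, hW, hx, hb, hbt, hd⟩ := hval hn2
    rintro rfl
    apply hd 0 (zero_mem _)
    rw [map_zero, zero_pow hn2.ne_zero]
  -- the finite set
  obtain ⟨R, hR⟩ : ∃ R : Finset QQ, ∀ c, c ∈ R ↔ c ^ k = t ^ k := by
    refine ⟨(Polynomial.nthRoots k (t ^ k)).toFinset, fun c => ?_⟩
    rw [Multiset.mem_toFinset, Polynomial.mem_nthRoots hk]
  obtain ⟨R', hR'⟩ : ∃ R : Finset QQ, ∀ c, c ∈ R ↔ c ^ k = 1 := by
    refine ⟨(Polynomial.nthRoots k 1).toFinset, fun c => ?_⟩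
    rw [Multiset.mem_toFinset, Polynomial.mem_nthRoots hk]
  obtain ⟨D, hD⟩ : ∃ D : Finset QQ, D = C ∪ R ∪ R' := ⟨_, rfl⟩
  have htD : t ∈ D := by
    rw [hD]
    exact Finset.mem_union_left _ (Finset.mem_union_right _ ((hR t).2 rfl))
  have hCD : C ⊆ D := by
    rw [hD, Finset.union_assoc]
    exact Finset.subset_union_left
  let H : Subgroup (K1 ⊔ K2).fixingSubgroup :=
    { carrier := {ρ | ∀ c ∈ D, (ρ : Gam) c = c}
      mul_mem' := fun {ρ τ} hρ hτ c hc => by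
        show (ρ : Gam) ((τ : Gam) c) = c
        rw [hτ c hc, hρ c hc]
      one_mem' := fun c _ => rfl
      inv_mem' := fun {ρ} hρ c hc => by
        show (ρ : Gam)⁻¹ c = c
        have h3 : (ρ : Gam)⁻¹ ((ρ : Gam) c) = c := AlgEquiv.symm_apply_apply _ _
        rwa [hρ c hc] at h3 }
  have hH : ∀ ρ, ρ ∈ H ↔ ∀ c ∈ D, (ρ : Gam) c = c := fun ρ => Iff.rfl
  have hfixK : ∀ ρ : (K1 ⊔ K2).fixingSubgroup, ∀ c ∈ K1 ⊔ K2, (ρ : Gam) c = c := fun ρ =>
    (IntermediateField.mem_fixingSubgroup_iff _ _).1 ρ.2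
  have hHE : ∀ ρ : H, (ρ : Gam) ∈ E.fixingSubgroup := by
    intro ρ
    rw [IntermediateField.mem_fixingSubgroup_iff, hE]
    refine fix_sup_Sig (fix_sup_Sig (fun c hc => hfixK ρ c (le_sup_left (a := K1) hc)) ?_) ?_
    · exact fix_adjoin_Sig fun c hc => ρ.2 c (hCD hc)
    · refine fix_adjoin_Sig fun c hc => ?_
      rw [Set.mem_singleton_iff] at hc
      subst hc
      exact ρ.2 c htD
  let j : H →* E.fixingSubgroup :=
    { toFun := fun ρ => ⟨(ρ : Gam), hHE ρ⟩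
      map_one' := rfl
      map_mul' := fun _ _ => rfl }
  have hja : ∀ ρ : H, ((j ρ : E.fixingSubgroup) : Gam) = (ρ : Gam) := fun ρ => rfl
  refine ⟨t, S', D, s, H, a₀.comp j, Y, ht1.1, ht2, hS, hXC.trans hCD, ?_, hH, hs, hfib.card,
    fun ρ x => ha₀ (j ρ) x, fun ρ hρ => hY (j ρ) hρ, ?_⟩
  · intro ρ c hc
    rw [hD, Finset.mem_union, Finset.mem_union] at hc ⊢
    rcases hc with (hc | hc) | hc
    · exact Or.inl (Or.inl (hCstab _ c hc))
    · left; right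
      rw [hR] at hc ⊢
      have h3 := congrArg (ρ : Gam) hc
      rw [map_pow] at h3
      rw [h3]
      exact hfixK ρ _ (le_sup_left (a := K1) htk)
    · right
      rw [hR'] at hc ⊢
      rw [← map_pow, hc, map_one]
  · -- the subgroup of the automorphisms over `E` and `K2`
    obtain ⟨E1, hE1⟩ : ∃ E1, E1 = E ⊔ K2 := ⟨_, rfl⟩
    have hE1E : ∀ ρ : E1.fixingSubgroup, (ρ : Gam) ∈ E.fixingSubgroup := by
      intro ρ
      rw [IntermediateField.mem_fixingSubgroup_iff]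
      intro c hc
      refine (IntermediateField.mem_fixingSubgroup_iff _ _).1 ρ.2 c ?_
      rw [hE1]
      exact le_sup_left (a := E) hc
    let i : E1.fixingSubgroup →* E.fixingSubgroup :=
      { toFun := fun ρ => ⟨(ρ : Gam), hE1E ρ⟩
        map_one' := rfl
        map_mul' := fun _ _ => rfl }
    have hA1 : alternatingGroup s ≤ (a₀.comp i).range := by
      intro g hg
      obtain ⟨ρ, hρ, hρg⟩ := alt_le_of_noAlt hK2 hn (by omega) a₀ Y hY hA hg
      have h3 : (ρ : Gam) ∈ E1.fixingSubgroup := by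
        rw [IntermediateField.mem_fixingSubgroup_iff, hE1]
        exact fix_sup_Sig ((IntermediateField.mem_fixingSubgroup_iff _ _).1 ρ.2) hρ
      refine ⟨⟨(ρ : Gam), h3⟩, ?_⟩
      show a₀ (i ⟨(ρ : Gam), h3⟩) = g
      rw [← hρg]
      rfl
    have hA2 : alternatingGroup s ≤ Subgroup.map (a₀.comp i) (commutator E1.fixingSubgroup) := by
      rw [commutator_def, Subgroup.map_commutator]
      have h3 := commutator_alternatingGroup_eq_self (α := s) (by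
        rw [Nat.card_eq_fintype_card]
        omega)
      rw [← h3]
      refine Subgroup.commutator_mono ?_ ?_
      · rwa [MonoidHom.range_eq_map] at hA1
      · rwa [MonoidHom.range_eq_map] at hA1
    intro g hg
    obtain ⟨ρ, hρ, hρg⟩ := hA2 hg
    -- commutators fix the roots
    have hroot : ∀ ζ : QQ, ζ ^ k = 1 → (ρ : Gam) ζ = ζ := by
      intro ζ hζ
      have h3 : commutator E1.fixingSubgroup ≤
          (MulAction.stabilizer Gam ζ).comap E1.fixingSubgroup.subtype := by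
        rw [commutator_def, Subgroup.commutator_le]
        intro α _ β _
        show ((⁅α, β⁆ : E1.fixingSubgroup) : Gam) • ζ = ζ
        have h4 : ∀ τ : Gam, τ • ζ = τ ζ := fun _ => rfl
        have h5 : ((⁅α, β⁆ : E1.fixingSubgroup) : Gam) =
            (α : Gam) * (β : Gam) * (α : Gam)⁻¹ * (β : Gam)⁻¹ := rfl
        rw [h4, h5]
        show (α : Gam) ((β : Gam) ((α : Gam)⁻¹ ((β : Gam)⁻¹ ζ))) = ζ
        have h6 : ((β : Gam)⁻¹ ζ) ^ k = 1 := by
          rw [← map_pow, hζ, map_one]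
        have h7 : ((α : Gam)⁻¹ ((β : Gam)⁻¹ ζ)) ^ k = 1 := by
          rw [← map_pow, h6, map_one]
        rw [comm_root hk h7]
        have h8 : (α : Gam) ((α : Gam)⁻¹ ((β : Gam)⁻¹ ζ)) = (β : Gam)⁻¹ ζ :=
          AlgEquiv.apply_symm_apply _ _
        rw [h8]
        exact AlgEquiv.apply_symm_apply _ _
      exact h3 hρ
    have hfixE : ∀ c ∈ E, (ρ : Gam) c = c :=
      (IntermediateField.mem_fixingSubgroup_iff _ _).1 (hE1E ρ)
    have hfixK2 : ∀ c ∈ K2, (ρ : Gam) c = c := by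
      intro c hc
      refine (IntermediateField.mem_fixingSubgroup_iff _ _).1 ρ.2 c ?_
      rw [hE1]
      exact le_sup_right (a := E) hc
    have hρK : (ρ : Gam) ∈ (K1 ⊔ K2).fixingSubgroup := by
      rw [IntermediateField.mem_fixingSubgroup_iff]
      refine fix_sup_Sig (fun c hc => hfixE c ?_) hfixK2
      rw [hE]
      exact (le_sup_left.trans le_sup_left :
        K1 ≤ K1 ⊔ IntermediateField.adjoin ℚ (C : Set QQ) ⊔ IntermediateField.adjoin ℚ {t}) hc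
    have hρH : (⟨(ρ : Gam), hρK⟩ : (K1 ⊔ K2).fixingSubgroup) ∈ H := by
      rw [hH]
      intro c hc
      rw [hD, Finset.mem_union, Finset.mem_union] at hc
      rcases hc with (hc | hc) | hc
      · exact hfixE c (hCE c hc)
      · rw [hR] at hc
        have h3 : (c / t) ^ k = 1 := by
          rw [div_pow, hc, div_self (pow_ne_zero k ht0)]
        have h4 := hroot _ h3
        have h5 : c = c / t * t := (div_mul_cancel₀ c ht0).symm
        show (ρ : Gam) c = c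
        conv_lhs => rw [h5]
        rw [map_mul, h4, hfixE t htE]
        exact h5.symm
      · exact hroot c ((hR' c).1 hc)
    refine ⟨⟨_, hρH⟩, ?_⟩
    rw [← hρg]
    rfl

theorem sig_data {n : ℕ} (hn : 5 ≤ n) {K1 K2 : IntermediateField ℚ QQ} (hK1 : Mild K1)
    (hK2 : NoAlt n K2) (hF : IsCurve QQ F) {φ y z u : F} {p q r : Place QQ F}
    {n1 n2 m e1 e2 e3 : ℕ} (h : Fib φ y z u p q r n1 n2 m e1 e2 e3) (hN : (n1 + n2).Prime)
    (hn2 : n2.Prime) (h1 : n1 + n2 < 2 * n2) (h2 : n2 + 3 ≤ n1 + n2) (hX : n ≤ n1 + n2)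
    (S : Finset F) (Bad X : Finset QQ) :
    ∃ (t : QQ) (S' : Finset F) (D : Finset QQ) (s : Finset (Place QQ F))
      (H : Subgroup (K1 ⊔ K2).fixingSubgroup) (a : H →* Equiv.Perm s) (Y : Finset QQ),
      t ∉ Bad ∧ NumberField.absLogHeight₁ t ≤ 1 ∧ S ⊆ S' ∧ X ⊆ D ∧
      (∀ ρ : (K1 ⊔ K2).fixingSubgroup, ∀ c ∈ D, (ρ : Gam) c ∈ D) ∧
      (∀ ρ, ρ ∈ H ↔ ∀ c ∈ D, (ρ : Gam) c = c) ∧ (∀ v, v ∈ s ↔ v.At φ t) ∧
      s.card = n1 + n2 ∧
      (∀ (ρ : H) (x : s), ∃ r : F ≃+* F, Fixes S' (ρ : Gam) r ∧ Moves r x.1 (a ρ x).1) ∧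
      (∀ ρ : H, (∀ c ∈ Y, (ρ : Gam) c = c) → a ρ = 1) ∧ alternatingGroup s ≤ a.range :=
  sig_data_gen hn hK2 hF h (orbitData_ht hF h hK1) hN hn2 h1 h2 hX S Bad X

end Pool.Agent.Clo
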