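import Pool.Agent.Dess.Defs

/-!
# Long cycles in a coset of a group which acts through the alternating group

Let `H` be a normal subgroup of `G`, `π : H → Sym(Φ)` a homomorphism the image of which contains
the alternating group, where the number `N` of elements of `Φ` is prime, `N ≥ 5`. Let `g ^ s ∈ H`,
where `s` is odd and not divisible by `N`, and `π (g ^ s)` is even. Then there is `h ∈ H` such that
`π ((g h) ^ s)` is a cycle of length `N` (`long_cycle`).
-/

set_option autoImplicit false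

noncomputable section

namespace Pool.Agent.Clo

open Equiv Equiv.Perm

section Cycles

variable {Φ : Type*} [Fintype Φ] [DecidableEq Φ]

private theorem sigG_cycle (hN : (Fintype.card Φ).Prime) {c : Perm Φ}
    (hc : orderOf c = Fintype.card Φ) : c.IsCycle ∧ c.support.card = Fintype.card Φ := by
  have h1 := isCycle_of_prime_order'' hN hc
  exact ⟨h1, h1.orderOf ▸ hc⟩

/-- cycles of odd length are even -/
private theorem sigG_even (hN : (Fintype.card Φ).Prime) (h5 : 5 ≤ Fintype.card Φ) {c : Perm Φ}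
    (hc : orderOf c = Fintype.card Φ) : c ∈ alternatingGroup Φ := by
  obtain ⟨h1, h2⟩ := sigG_cycle hN hc
  rw [mem_alternatingGroup, h1.sign, h2]
  have h3 : Odd (Fintype.card Φ) := hN.odd_of_ne_two (by omega)
  rw [h3.neg_one_pow, neg_neg]

omit [DecidableEq Φ] in
/-- there is a long cycle -/
private theorem sigG_exists (h5 : 5 ≤ Fintype.card Φ) : ∃ c : Perm Φ,
    orderOf c = Fintype.card Φ := by
  obtain ⟨n, hn⟩ : ∃ n, Fintype.card Φ = n + 2 := ⟨Fintype.card Φ - 2, by omega⟩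
  let e : Fin (n + 2) ≃ Φ := (Fintype.equivFinOfCardEq hn).symm
  refine ⟨e.permCongr (finRotate (n + 2)), ?_⟩
  have h1 : orderOf (finRotate (n + 2)) = n + 2 := by
    rw [isCycle_finRotate.orderOf, support_finRotate, Finset.card_univ, Fintype.card_fin]
  rw [hn]
  exact (MulEquiv.orderOf_eq e.permCongrHom _).trans h1

private theorem sigG_conj (hN : (Fintype.card Φ).Prime) {c c' : Perm Φ}
    (hc : orderOf c = Fintype.card Φ) (hc' : orderOf c' = Fintype.card Φ) :
    ∃ w : Perm Φ, w * c * w⁻¹ = c' := by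
  obtain ⟨h1, h2⟩ := sigG_cycle hN hc
  obtain ⟨h1', h2'⟩ := sigG_cycle hN hc'
  exact isConj_iff.1 (h1.isConj h1' (by rw [h2, h2']))

/-- the centralizer of a long cycle -/
private theorem sigG_cent (hN : (Fintype.card Φ).Prime) {c g : Perm Φ}
    (hc : orderOf c = Fintype.card Φ) (h : g * c * g⁻¹ = c) : ∃ j : ℤ, g = c ^ j := by
  obtain ⟨h1, h2⟩ := sigG_cycle hN hc
  have hsupp : ∀ x, c x ≠ x := by
    intro x
    have h3 : c.support = Finset.univ := Finset.eq_univ_of_card _ h2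
    exact mem_support.1 (h3 ▸ Finset.mem_univ x)
  have hcomm : Commute g c := by
    rw [commute_iff_eq]
    exact mul_inv_eq_iff_eq_mul.1 h
  obtain ⟨x, hx, -⟩ := id h1
  obtain ⟨j, hj⟩ := h1.exists_zpow_eq hx (hsupp (g x))
  refine ⟨j, ?_⟩
  ext y
  obtain ⟨i, hi⟩ := h1.exists_zpow_eq hx (hsupp y)
  have h3 : g * c ^ i = c ^ i * g := (hcomm.zpow_right i).eq
  calc g y = (g * c ^ i) x := by rw [← hi]; rfl
    _ = (c ^ i * g) x := by rw [h3]
    _ = (c ^ i) (g x) := rfl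
    _ = (c ^ i) ((c ^ j) x) := by rw [hj]
    _ = (c ^ i * c ^ j) x := rfl
    _ = (c ^ j * c ^ i) x := by rw [← zpow_add, ← zpow_add, add_comm]
    _ = (c ^ j) ((c ^ i) x) := rfl
    _ = (c ^ j) y := by rw [hi]

/-- only the identity commutes with all even permutations -/
private theorem sigG_center (h5 : 5 ≤ Fintype.card Φ) {p : Perm Φ}
    (h : ∀ w ∈ alternatingGroup Φ, w * p = p * w) : p = 1 := by
  by_contra hp
  obtain ⟨x, hx⟩ : ∃ x, p x ≠ x := by
    by_contra hcon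
    push Not at hcon
    exact hp (Equiv.ext hcon)
  obtain ⟨a, ha⟩ : ∃ a, a ∉ ({x, p x} : Finset Φ) := by
    by_contra hcon
    push Not at hcon
    have h1 := Finset.card_le_card (fun a _ => hcon a : Finset.univ ⊆ ({x, p x} : Finset Φ))
    have h2 := Finset.card_le_two (a := x) (b := p x)
    rw [Finset.card_univ] at h1
    omega
  obtain ⟨b, hb⟩ : ∃ b, b ∉ ({x, p x, a} : Finset Φ) := by
    by_contra hcon
    push Not at hcon
    have h1 := Finset.card_le_card (fun a _ => hcon a : Finset.univ ⊆ ({x, p x, a} : Finset Φ))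
    have h2 := Finset.card_le_three (a := x) (b := p x) (c := a)
    rw [Finset.card_univ] at h1
    omega
  simp only [Finset.mem_insert, Finset.mem_singleton, not_or] at ha hb
  have hw : swap x a * swap a b ∈ alternatingGroup Φ := by
    rw [mem_alternatingGroup, map_mul, sign_swap (Ne.symm ha.1), sign_swap (Ne.symm hb.2.2)]
    rfl
  have h1 := congrArg (fun q : Perm Φ => q x) (h _ hw)
  simp only [Perm.mul_apply] at h1
  rw [swap_apply_of_ne_of_ne (Ne.symm ha.2) (Ne.symm hb.2.1),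
    swap_apply_of_ne_of_ne hx (Ne.symm ha.2),
    swap_apply_of_ne_of_ne (Ne.symm ha.1) (Ne.symm hb.1), swap_apply_left] at h1
  exact ha.1 (p.injective h1.symm)

/-- three long cycles are in two classes -/
private theorem sigG_two (hN : (Fintype.card Φ).Prime) {c c' c'' : Perm Φ}
    (hc : orderOf c = Fintype.card Φ) (hc' : orderOf c' = Fintype.card Φ)
    (hc'' : orderOf c'' = Fintype.card Φ) (h : ¬ ∃ b ∈ alternatingGroup Φ, b * c * b⁻¹ = c')
    (h' : ¬ ∃ b ∈ alternatingGroup Φ, b * c' * b⁻¹ = c'') :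
    ∃ b ∈ alternatingGroup Φ, b * c * b⁻¹ = c'' := by
  obtain ⟨w, hw⟩ := sigG_conj hN hc hc'
  obtain ⟨w', hw'⟩ := sigG_conj hN hc' hc''
  have h1 : Perm.sign w = -1 := by
    rcases Int.units_eq_one_or (Perm.sign w) with h2 | h2
    · exact absurd ⟨w, mem_alternatingGroup.2 h2, hw⟩ h
    · exact h2
  have h1' : Perm.sign w' = -1 := by
    rcases Int.units_eq_one_or (Perm.sign w') with h2 | h2
    · exact absurd ⟨w', mem_alternatingGroup.2 h2, hw'⟩ h'
    · exact h2
  refine ⟨w' * w, ?_, ?_⟩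
  · rw [mem_alternatingGroup, map_mul, h1, h1']
    rfl
  · rw [← hw', ← hw]
    group

end Cycles

section Groups

variable {G : Type*} [Group G] {H : Subgroup G} [H.Normal] {Φ : Type*}

/-- conjugation by `g` respects the kernel of `π` -/
private def Nm (π : H →* Perm Φ) (g : G) : Prop :=
  ∀ x : H, π x = 1 → π (MulAut.conjNormal g x) = 1

variable {π : H →* Perm Φ}

private theorem nm_mul {g g' : G} (h : Nm π g) (h' : Nm π g') : Nm π (g * g') := by
  intro x hx
  rw [map_mul, MulAut.mul_apply]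
  exact h _ (h' _ hx)

private theorem nm_one : Nm π (1 : G) := by
  intro x hx
  rwa [map_one]

private theorem nm_pow {g : G} (h : Nm π g) (n : ℕ) : Nm π (g ^ n) := by
  induction n with
  | zero =>
    rw [pow_zero]
    exact nm_one
  | succ n ih =>
    rw [pow_succ]
    exact nm_mul ih h

private theorem conj_coe (h x : H) : MulAut.conjNormal (h : G) x = h * x * h⁻¹ := by
  apply Subtype.ext
  rw [MulAut.conjNormal_apply]
  rfl

private theorem nm_mem {g : G} (h : g ∈ H) : Nm π g := by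
  intro x hx
  have h1 := conj_coe (⟨g, h⟩ : H) x
  rw [show MulAut.conjNormal g x = ⟨g, h⟩ * x * ⟨g, h⟩⁻¹ from h1]
  rw [map_mul, map_mul, hx, mul_one, map_inv, mul_inv_cancel]

private theorem nm_inv {g : G} (h : Nm π g) {n : ℕ} (hn : 0 < n) (hg : g ^ n ∈ H) :
    Nm π g⁻¹ := by
  have h1 : g⁻¹ = g ^ (n - 1) * (g ^ n)⁻¹ := by
    obtain ⟨k, rfl⟩ : ∃ k, n = k + 1 := ⟨n - 1, by omega⟩
    rw [Nat.add_sub_cancel, pow_succ']
    group
  rw [h1]
  exact nm_mul (nm_pow h _) (nm_mem (H.inv_mem hg))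

/-- the kernel of the conjugate of `π` is equal to the kernel of `π`, if it is contained in it -/
private theorem nm_of_le {g : G}
    (h : ∀ x : H, π (MulAut.conjNormal g⁻¹ x) = 1 → π x = 1) : Nm π g := by
  intro x hx
  apply h
  rw [← MulAut.mul_apply, ← map_mul, inv_mul_cancel, map_one]
  exact hx

private theorem nm_eq {g : G} (h : Nm π g) {x y : H} (hxy : π x = π y) :
    π (MulAut.conjNormal g x) = π (MulAut.conjNormal g y) := by
  have h1 := h (x * y⁻¹) (by rw [map_mul, map_inv, hxy, mul_inv_cancel])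
  rw [map_mul, map_mul, map_inv, map_inv] at h1
  exact mul_inv_eq_one.1 h1

private theorem mem_pow {g h : G} (hh : h ∈ H) {n : ℕ} (hg : g ^ n ∈ H) :
    (g * h) ^ n ∈ H := by
  rw [← QuotientGroup.eq_one_iff] at hg ⊢
  have h1 : ((g * h : G) : G ⧸ H) = (g : G ⧸ H) := by
    rw [QuotientGroup.mk_mul, (QuotientGroup.eq_one_iff h).2 hh, mul_one]
  rw [QuotientGroup.mk_pow, h1, ← QuotientGroup.mk_pow]
  exact hg

/-- The elements `(g h) ^ n` and `(g h') ^ n` differ by an element of the kernel. -/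
private theorem pow_congr {g : G} (hg' : Nm π g⁻¹) {h h' : H} (hh : π h = π h')
    (n : ℕ) : ∃ k : H, π k = 1 ∧ (g * h') ^ n = (g * h) ^ n * k := by
  induction n with
  | zero => exact ⟨1, map_one _, by simp⟩
  | succ n ih =>
    obtain ⟨k, hk, hk'⟩ := ih
    refine ⟨(h⁻¹ * MulAut.conjNormal g⁻¹ k * h) * (h⁻¹ * h'), ?_, ?_⟩
    · rw [map_mul, map_mul, map_mul, hg' k hk, mul_one, ← map_mul, inv_mul_cancel, map_one,
        one_mul, map_mul, map_inv, hh, inv_mul_cancel]
    · rw [pow_succ, hk', pow_succ]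
      push_cast
      rw [MulAut.conjNormal_apply]
      group

variable [Fintype Φ] [DecidableEq Φ]

/-- conjugation preserves the even permutations -/
private theorem nm_even (h5 : 5 ≤ Fintype.card Φ) (hA : alternatingGroup Φ ≤ π.range) {g : G}
    (hg : Nm π g) {x : H} (hx : π x ∈ alternatingGroup Φ) :
    π (MulAut.conjNormal g x) ∈ alternatingGroup Φ := by
  have h5' : 5 ≤ Nat.card Φ := by rwa [Nat.card_eq_fintype_card]
  have h1 : alternatingGroup Φ ≤ Subgroup.map π (commutator H) := by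
    rw [commutator_def, Subgroup.map_commutator, ← MonoidHom.range_eq_map]
    conv_lhs => rw [← commutator_alternatingGroup_eq_self h5']
    exact Subgroup.commutator_mono hA hA
  obtain ⟨y, hy, hyx⟩ := h1 hx
  rw [nm_eq hg hyx.symm, mem_alternatingGroup]
  let f : H →* ℤˣ := (Perm.sign.comp π).comp (MulAut.conjNormal g).toMonoidHom
  have h2 : y ∈ f.ker := by
    have h3 : commutator H ≤ f.ker := Abelianization.commutator_subset_ker f
    exact h3 hy
  exact h2

/-- the case in which `g` respects the kernel -/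
private theorem linked (hN : (Fintype.card Φ).Prime) (h5 : 5 ≤ Fintype.card Φ)
    (hA : alternatingGroup Φ ≤ π.range) {g : G} (hg : Nm π g) {e : ℕ} (he : Odd e)
    (hNe : ¬ Fintype.card Φ ∣ e) (hge : g ^ e ∈ H)
    (hev : π ⟨g ^ e, hge⟩ ∈ alternatingGroup Φ) :
    ∃ h : H, π h ∈ alternatingGroup Φ ∧ ∃ h' : (g * h) ^ e ∈ H,
      orderOf (π ⟨(g * h) ^ e, h'⟩) = Fintype.card Φ := by
  obtain ⟨N, hNdef⟩ : ∃ N, N = Fintype.card Φ := ⟨_, rfl⟩
  have he0 : 0 < e := he.pos
  have hg' : Nm π g⁻¹ := nm_inv hg he0 hge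
  obtain ⟨c₀, hc₀⟩ := sigG_exists h5
  obtain ⟨c, hc⟩ := hA (sigG_even hN h5 hc₀)
  -- the conjugates of the long cycle
  have hord : ∀ n : ℕ, orderOf (π (MulAut.conjNormal (g ^ n) c)) = Fintype.card Φ := by
    intro n
    rw [← hc₀, ← hc]
    rw [orderOf_eq_orderOf_iff]
    intro k
    rw [← map_pow, ← map_pow, ← map_pow]
    constructor
    · intro h1
      have h2 : Nm π (g ^ n)⁻¹ := by
        rw [← inv_pow]
        exact nm_pow hg' n
      have h3 := h2 _ h1
      rwa [← MulAut.mul_apply, ← map_mul, inv_mul_cancel, map_one] at h3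
    · intro h1
      exact nm_pow hg n _ h1
  -- conjugacy is preserved
  have hstep : ∀ n : ℕ, (∃ b ∈ alternatingGroup Φ, b * π (MulAut.conjNormal (g ^ (n + 1)) c) * b⁻¹
      = π (MulAut.conjNormal (g ^ (n + 2)) c)) →
      ∃ b ∈ alternatingGroup Φ, b * π (MulAut.conjNormal (g ^ n) c) * b⁻¹
      = π (MulAut.conjNormal (g ^ (n + 1)) c) := by
    rintro n ⟨b, hb, hbc⟩
    obtain ⟨b, rfl⟩ := hA hb
    refine ⟨π (MulAut.conjNormal g⁻¹ b), nm_even h5 hA hg' hb, ?_⟩
    have h1 := nm_eq (g := g⁻¹) hg' (x := b * MulAut.conjNormal (g ^ (n + 1)) c * b⁻¹)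
      (y := MulAut.conjNormal (g ^ (n + 2)) c) (by rw [map_mul, map_mul, map_inv]; exact hbc)
    rw [map_mul, map_mul, map_mul, map_mul, map_inv (MulAut.conjNormal g⁻¹) b,
      map_inv π] at h1
    have h2 : ∀ k : ℕ, MulAut.conjNormal g⁻¹ (MulAut.conjNormal (g ^ (k + 1)) c) =
        MulAut.conjNormal (g ^ k) c := by
      intro k
      rw [← MulAut.mul_apply, ← map_mul, pow_succ', inv_mul_cancel_left]
    rw [h2, h2] at h1
    exact h1
  have hall : ∀ n : ℕ, (∃ b ∈ alternatingGroup Φ, b * π (MulAut.conjNormal (g ^ n) c) * b⁻¹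
      = π (MulAut.conjNormal (g ^ (n + 1)) c)) →
      ∃ b ∈ alternatingGroup Φ, b * π (MulAut.conjNormal (g ^ 0) c) * b⁻¹
      = π (MulAut.conjNormal (g ^ 1) c) := by
    intro n
    induction n with
    | zero => exact fun h => h
    | succ n ih => exact fun h => ih (hstep n h)
  have h01 : ∃ b ∈ alternatingGroup Φ, b * π (MulAut.conjNormal (g ^ 0) c) * b⁻¹
      = π (MulAut.conjNormal (g ^ 1) c) := by
    by_contra hcon
    have hno : ∀ n : ℕ, ¬ ∃ b ∈ alternatingGroup Φ, b * π (MulAut.conjNormal (g ^ n) c) * b⁻¹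
      = π (MulAut.conjNormal (g ^ (n + 1)) c) := fun n h => hcon (hall n h)
    have heven : ∀ n : ℕ, ∃ b ∈ alternatingGroup Φ, b * π (MulAut.conjNormal (g ^ 0) c) * b⁻¹
      = π (MulAut.conjNormal (g ^ (2 * n)) c) := by
      intro n
      induction n with
      | zero => exact ⟨1, one_mem _, by simp⟩
      | succ n ih =>
        obtain ⟨b, hb, hbc⟩ := ih
        obtain ⟨b', hb', hbc'⟩ := sigG_two hN (hord (2 * n)) (hord (2 * n + 1))
          (hord (2 * n + 1 + 1)) (hno (2 * n)) (hno (2 * n + 1))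
        refine ⟨b' * b, mul_mem hb' hb, ?_⟩
        have h2 : 2 * (n + 1) = 2 * n + 1 + 1 := by ring
        rw [h2, ← hbc', ← hbc]
        group
    obtain ⟨n, hn⟩ := he
    obtain ⟨b, hb, hbc⟩ := heven n
    apply hno (2 * n)
    refine ⟨π ⟨g ^ e, hge⟩ * b⁻¹, mul_mem hev (inv_mem hb), ?_⟩
    have h1 : MulAut.conjNormal (g ^ (2 * n + 1)) c = ⟨g ^ e, hge⟩ * c * ⟨g ^ e, hge⟩⁻¹ := by
      rw [← hn]
      exact conj_coe (⟨g ^ e, hge⟩ : H) c
    rw [h1, map_mul, map_mul, map_inv, ← hbc, pow_zero, map_one, MulAut.one_apply]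
    group
  -- a conjugate element which centralizes the cycle
  obtain ⟨b₁, hb₁, hbc₁⟩ := h01
  rw [pow_zero, map_one, MulAut.one_apply, pow_one] at hbc₁
  obtain ⟨b, rfl⟩ := hA hb₁
  -- `b₂ g` centralizes the cycle
  have hbi : π (b⁻¹) ∈ alternatingGroup Φ := by
    rw [map_inv]
    exact inv_mem hb₁
  obtain ⟨g₂, hg₂⟩ : ∃ g₂ : G, g₂ = b⁻¹ * g := ⟨_, rfl⟩
  obtain ⟨h₁, hh₁⟩ : ∃ h₁ : H, h₁ = MulAut.conjNormal g⁻¹ b⁻¹ := ⟨_, rfl⟩
  have hh₁e : π h₁ ∈ alternatingGroup Φ := by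
    rw [hh₁]
    exact nm_even h5 hA hg' hbi
  have hgh : g * h₁ = g₂ := by
    rw [hh₁, MulAut.conjNormal_apply, hg₂]
    push_cast
    group
  have hge₂ : g₂ ^ e ∈ H := by
    rw [← hgh]
    exact mem_pow h₁.2 hge
  have hn₂ : Nm π g₂ := by
    rw [hg₂]
    exact nm_mul (nm_mem (H.inv_mem b.2)) hg
  have hn₂' : Nm π g₂⁻¹ := nm_inv hn₂ he0 hge₂
  have hcc : π (MulAut.conjNormal g₂ c) = π c := by
    have h1 : MulAut.conjNormal g₂ c = b⁻¹ * MulAut.conjNormal g c * b := by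
      rw [hg₂, map_mul, MulAut.mul_apply]
      have h2 := conj_coe b⁻¹ (MulAut.conjNormal g c)
      rw [inv_inv] at h2
      exact h2
    rw [h1, map_mul, map_mul, ← hbc₁, map_inv]
    group
  have hcc' : π (MulAut.conjNormal g₂⁻¹ c) = π c := by
    have h1 := nm_eq hn₂' hcc
    rw [← MulAut.mul_apply, ← map_mul, inv_mul_cancel, map_one, MulAut.one_apply] at h1
    exact h1.symm
  have hcn : ∀ n : ℕ, π (MulAut.conjNormal (g₂ ^ n) c) = π c := by
    intro n
    induction n with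
    | zero => rw [pow_zero, map_one, MulAut.one_apply]
    | succ n ih =>
      rw [pow_succ', map_mul, MulAut.mul_apply, nm_eq hn₂ ih, hcc]
  obtain ⟨w, hw⟩ : ∃ w : Perm Φ, w = π ⟨g₂ ^ e, hge₂⟩ := ⟨_, rfl⟩
  have hwc : w * c₀ * w⁻¹ = c₀ := by
    have h1 := hcn e
    rw [show MulAut.conjNormal (g₂ ^ e) c = ⟨g₂ ^ e, hge₂⟩ * c * ⟨g₂ ^ e, hge₂⟩⁻¹ from
      conj_coe (⟨g₂ ^ e, hge₂⟩ : H) c, map_mul, map_mul, map_inv, hc, ← hw] at h1
    exact h1
  obtain ⟨j, hj⟩ := sigG_cent hN hc₀ hwc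
  have hprime : ∀ v : Perm Φ, v ≠ 1 → v ^ Fintype.card Φ = 1 → orderOf v = Fintype.card Φ :=
    fun v hv hv' => orderOf_eq_prime_iff (hp := ⟨hN⟩) |>.2 ⟨hv', hv⟩
  by_cases hw1 : w = 1
  · -- multiply by the cycle
    have hmem : (g * (h₁ * c : H)) ^ e ∈ H := mem_pow (h₁ * c).2 hge
    refine ⟨h₁ * c, ?_, hmem, ?_⟩
    · rw [map_mul, hc]
      exact mul_mem hh₁e (sigG_even hN h5 hc₀)
    · have key : ∀ n : ℕ, ∃ x : H, π x = c₀ ^ n ∧ (g * (h₁ * c : H)) ^ n = g₂ ^ n * x := by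
        intro n
        induction n with
        | zero => exact ⟨1, by rw [map_one, pow_zero], by simp⟩
        | succ n ih =>
          obtain ⟨x, hx, hxe⟩ := ih
          refine ⟨MulAut.conjNormal g₂⁻¹ x * c, ?_, ?_⟩
          · have h1 : π x = π (c ^ n) := by rw [hx, map_pow, hc]
            rw [map_mul, nm_eq hn₂' h1, map_pow, map_pow, hcc', hc, pow_succ]
          · rw [pow_succ, hxe, pow_succ]
            push_cast
            rw [MulAut.conjNormal_apply, ← mul_assoc g, hgh]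
            group
      obtain ⟨x, hx, hxe⟩ := key e
      have h1 : (⟨(g * (h₁ * c : H)) ^ e, hmem⟩ : H) = ⟨g₂ ^ e, hge₂⟩ * x :=
        Subtype.ext hxe
      rw [h1, map_mul, ← hw, hw1, one_mul, hx]
      refine hprime _ ?_ ?_
      · intro h2
        apply hNe
        rw [← hc₀]
        exact orderOf_dvd_of_pow_eq_one h2
      · rw [← pow_mul, mul_comm, pow_mul, ← hc₀, pow_orderOf_eq_one, one_pow]
  · have hmem : (g * h₁) ^ e ∈ H := mem_pow h₁.2 hge
    refine ⟨h₁, hh₁e, hmem, ?_⟩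
    have h1 : (⟨(g * h₁) ^ e, hmem⟩ : H) = ⟨g₂ ^ e, hge₂⟩ := by
      apply Subtype.ext
      show (g * h₁) ^ e = g₂ ^ e
      rw [hgh]
    rw [h1, ← hw]
    refine hprime _ hw1 ?_
    rw [hj, ← zpow_natCast, ← zpow_mul, mul_comm, zpow_mul, zpow_natCast, ← hc₀,
      pow_orderOf_eq_one, one_zpow]

/-- the dichotomy for the kernels -/
private theorem nm_dich (h5 : 5 ≤ Fintype.card Φ) (hA : alternatingGroup Φ ≤ π.range) {g : G}
    (hg : ¬ Nm π g) : alternatingGroup Φ ≤
      Subgroup.map π (π.comp (MulAut.conjNormal g⁻¹ : MulAut H).toMonoidHom).ker := by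
  have h5' : 5 ≤ Nat.card Φ := by rwa [Nat.card_eq_fintype_card]
  obtain ⟨A, hAdef⟩ : ∃ A, A = (π.comp (MulAut.conjNormal g⁻¹ : MulAut H).toMonoidHom).ker :=
    ⟨_, rfl⟩
  have hmem : ∀ x : H, x ∈ A ↔ π (MulAut.conjNormal g⁻¹ x) = 1 := by
    intro x
    rw [hAdef, MonoidHom.mem_ker]
    rfl
  have hAn : A.Normal := by
    rw [hAdef]
    infer_instance
  rw [← hAdef]
  have hnorm : ((Subgroup.map π A).subgroupOf (alternatingGroup Φ)).Normal := by
    constructor
    rintro ⟨b, hb⟩ hbA ⟨w, hw⟩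
    rw [Subgroup.mem_subgroupOf] at hbA ⊢
    obtain ⟨a, ha, hab⟩ := hbA
    obtain ⟨y, hy⟩ := hA hw
    refine ⟨y * a * y⁻¹, hAn.conj_mem a ha y, ?_⟩
    rw [map_mul, map_mul, map_inv, hab, hy]
    rfl
  rcases alternatingGroup.normal_subgroup_eq_bot_or_eq_top h5'
    (N := (Subgroup.map π A).subgroupOf (alternatingGroup Φ)) with h1 | h1
  · exfalso
    apply hg
    apply nm_of_le
    intro x hx
    apply sigG_center h5
    intro w hw
    obtain ⟨y, rfl⟩ := hA hw
    have h2 : π (y * x * y⁻¹ * x⁻¹) ∈ Subgroup.map π A :=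
      ⟨_, mul_mem (hAn.conj_mem x ((hmem x).2 hx) y) (inv_mem ((hmem x).2 hx)), rfl⟩
    have h3 : π (y * x * y⁻¹ * x⁻¹) ∈ alternatingGroup Φ := by
      rw [mem_alternatingGroup, map_mul, map_mul, map_mul, map_inv, map_inv, map_mul, map_mul,
        map_mul, map_inv, map_inv, mul_comm (Perm.sign (π y)), mul_assoc (Perm.sign (π x)),
        mul_inv_cancel, mul_one, mul_inv_cancel]
    have h4 : (⟨π (y * x * y⁻¹ * x⁻¹), h3⟩ : alternatingGroup Φ) ∈
        (Subgroup.map π A).subgroupOf (alternatingGroup Φ) := Subgroup.mem_subgroupOf.2 h2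
    rw [h1, Subgroup.mem_bot] at h4
    have h5 : π (y * x * y⁻¹ * x⁻¹) = 1 := congrArg Subtype.val h4
    rw [map_mul, map_mul, map_mul, map_inv, map_inv, mul_inv_eq_one, mul_inv_eq_iff_eq_mul] at h5
    exact h5
  · intro w hw
    have h2 : (⟨w, hw⟩ : alternatingGroup Φ) ∈
        (Subgroup.map π A).subgroupOf (alternatingGroup Φ) := by
      rw [h1]
      exact Subgroup.mem_top _
    exact Subgroup.mem_subgroupOf.1 h2

omit [H.Normal] in
/-- the intersection of two normal subgroups with large image has large image -/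
private theorem inter_large (h5 : 5 ≤ Fintype.card Φ) {A B : Subgroup H} [A.Normal] [B.Normal]
    (hA : alternatingGroup Φ ≤ Subgroup.map π A) (hB : alternatingGroup Φ ≤ Subgroup.map π B) :
    alternatingGroup Φ ≤ Subgroup.map π (A ⊓ B) := by
  have h5' : 5 ≤ Nat.card Φ := by rwa [Nat.card_eq_fintype_card]
  have h1 : Subgroup.map π ⁅A, B⁆ ≤ Subgroup.map π (A ⊓ B) :=
    Subgroup.map_mono (Subgroup.commutator_le_inf A B)
  refine le_trans ?_ h1
  rw [Subgroup.map_commutator]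
  conv_lhs => rw [← commutator_alternatingGroup_eq_self h5']
  exact Subgroup.commutator_mono hA hB

/-- **Lemma G.** A coset of `H` contains an element the `s`-th power of which acts as a long
cycle. -/
theorem long_cycle (hN : (Fintype.card Φ).Prime) (h5 : 5 ≤ Fintype.card Φ)
    (hA : alternatingGroup Φ ≤ π.range) {g : G} {s : ℕ} (hs : Odd s)
    (hNs : ¬ Fintype.card Φ ∣ s) (hgs : g ^ s ∈ H)
    (hev : π ⟨g ^ s, hgs⟩ ∈ alternatingGroup Φ) :
    ∃ h : H, ∃ h' : (g * h) ^ s ∈ H, orderOf (π ⟨(g * h) ^ s, h'⟩) = Fintype.card Φ := by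
  classical
  have hs0 : 0 < s := hs.pos
  have hex : ∃ j : ℕ, 0 < j ∧ Nm π (g ^ j) := ⟨s, hs0, nm_mem hgs⟩
  obtain ⟨d, hd⟩ : ∃ d, d = Nat.find hex := ⟨_, rfl⟩
  obtain ⟨hd0, hdn⟩ : 0 < d ∧ Nm π (g ^ d) := by
    rw [hd]
    exact Nat.find_spec hex
  have hmin : ∀ j : ℕ, 0 < j → j < d → ¬ Nm π (g ^ j) := by
    intro j hj hjd h
    rw [hd] at hjd
    exact Nat.find_min hex hjd ⟨hj, h⟩
  have hpow : ∀ n : ℕ, (g ^ n) ^ s ∈ H := by
    intro n
    rw [← pow_mul, mul_comm, pow_mul]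
    exact pow_mem hgs n
  have hds : d ∣ s := by
    by_contra hcon
    have h1 : s % d ≠ 0 := fun h => hcon (Nat.dvd_of_mod_eq_zero h)
    refine hmin (s % d) (by omega) (Nat.mod_lt _ hd0) ?_
    have h2 : g ^ (s % d) = (g ^ (d * (s / d)))⁻¹ * g ^ s := by
      rw [eq_inv_mul_iff_mul_eq, ← pow_add, Nat.div_add_mod]
    rw [h2]
    refine nm_mul (nm_inv ?_ hs0 (hpow _)) (nm_mem hgs)
    rw [pow_mul]
    exact nm_pow hdn _
  obtain ⟨e, he⟩ := hds
  have hge : (g ^ d) ^ e ∈ H := by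
    rw [← pow_mul, ← he]
    exact hgs
  have hge' : (⟨(g ^ d) ^ e, hge⟩ : H) = ⟨g ^ s, hgs⟩ := by
    apply Subtype.ext
    show (g ^ d) ^ e = g ^ s
    rw [← pow_mul, ← he]
  have heodd : Odd e := by
    rw [he] at hs
    exact (Nat.odd_mul.1 hs).2
  obtain ⟨h₀, hh₀, hm₀, ho₀⟩ := linked hN h5 hA hdn heodd
    (fun h => hNs (he ▸ h.mul_left d)) hge (by rw [hge']; exact hev)
  -- an element of the intersection of the kernels
  have hJ : ∀ n : ℕ, n ≤ d → ∃ J : Subgroup H, J.Normal ∧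
      alternatingGroup Φ ≤ Subgroup.map π J ∧
      ∀ h ∈ J, ∀ j : ℕ, 0 < j → j < n → π (MulAut.conjNormal (g ^ j)⁻¹ h) = 1 := by
    intro n
    induction n with
    | zero =>
      intro _
      refine ⟨⊤, inferInstance, ?_, fun h _ j _ hj => by omega⟩
      rwa [← MonoidHom.range_eq_map]
    | succ n ih =>
      intro hn
      obtain ⟨J, hJn, hJA, hJ⟩ := ih (by omega)
      rcases Nat.eq_zero_or_pos n with rfl | hn0
      · exact ⟨J, hJn, hJA, fun h _ j _ hj => by omega⟩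
      · have h1 := nm_dich h5 hA (hmin n hn0 (by omega))
        refine ⟨J ⊓ (π.comp (MulAut.conjNormal (g ^ n)⁻¹ : MulAut H).toMonoidHom).ker,
          inferInstance, inter_large h5 hJA h1, ?_⟩
        rintro h ⟨hh1, hh2⟩ j hj0 hj
        rcases Nat.lt_succ_iff_lt_or_eq.1 hj with hj | rfl
        · exact hJ h hh1 j hj0 hj
        · exact hh2
  obtain ⟨J, hJn, hJA, hJ⟩ := hJ d le_rfl
  obtain ⟨h, hhJ, hh⟩ := hJA hh₀
  have hkey : ∀ n : ℕ, 0 < n → n ≤ d → ∃ k : H, π k = 1 ∧ (g * h) ^ n = g ^ n * (k * h : H) := by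
    intro n hn0
    induction n, hn0 using Nat.le_induction with
    | base =>
      intro _
      exact ⟨1, map_one _, by simp⟩
    | succ n hn0 ih =>
      intro hn
      obtain ⟨k, hk, hkn⟩ := ih (by omega)
      refine ⟨MulAut.conjNormal (g ^ n)⁻¹ h * k, ?_, ?_⟩
      · rw [map_mul, hk, mul_one]
        exact hJ h hhJ n hn0 (by omega)
      · rw [pow_succ', hkn, pow_succ']
        push_cast
        rw [MulAut.conjNormal_apply]
        group
  obtain ⟨k, hk, hkd⟩ := hkey d hd0 le_rfl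
  obtain ⟨k', hk', hk'e⟩ := pow_congr (g := g ^ d) (nm_inv hdn hs0 (hpow d))
    (h := h₀) (h' := k * h) (by rw [map_mul, hk, one_mul, hh]) e
  have hmem : (g * h) ^ s ∈ H := mem_pow h.2 hgs
  refine ⟨h, hmem, ?_⟩
  have h1 : (⟨(g * h) ^ s, hmem⟩ : H) = ⟨(g ^ d * h₀) ^ e, hm₀⟩ * k' := by
    apply Subtype.ext
    show (g * h) ^ s = (g ^ d * h₀) ^ e * k'
    rw [he, pow_mul, hkd, ← hk'e]
  rw [h1, map_mul, hk', mul_one]
  exact ho₀

end Groups

end Pool.Agent.Clo
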