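import Pool.Agent.Clo.SigStep
import Pool.Agent.Clo.Defs
import Pool.Agent.Dess.Alg

/-!
# One automorphism with infinitely many prescribed actions

`Orbits φ k S Bad σ`: some fibre of `φ` is one orbit of a power of `σ ^ k`. The data of
`SigData.lean` for one field `K` of algebraic numbers allow to change an automorphism which fixes
`K`, and which is prescribed on a finite set, in such a way that it gets the property `Orbits`
(`sig_step`). By compactness there is one automorphism with this property for a sequence of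
functions (`sig_lim`).
-/

set_option autoImplicit false

noncomputable section

namespace Pool.Agent.Clo

open Pool.Agent.ZCyc Pool.Agent.Dess
open scoped Classical

/-- finite sets of algebraic numbers are contained in finite sets which are stable under the
Galois group -/
theorem exists_stable (X : Finset QQ) : ∃ D : Finset QQ, X ⊆ D ∧ ∀ (g : Gam), ∀ c ∈ D, g c ∈ D := by
  refine ⟨X.biUnion fun c => (minpoly ℚ c).rootSet_finite QQ |>.toFinset, ?_, ?_⟩
  · intro c hc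
    rw [Finset.mem_biUnion]
    refine ⟨c, hc, ?_⟩
    rw [Set.Finite.mem_toFinset, Polynomial.mem_rootSet]
    exact ⟨minpoly.ne_zero ((AlgebraicClosure.isAlgebraic ℚ).isAlgebraic c).isIntegral,
      minpoly.aeval ℚ c⟩
  · intro g c hc
    rw [Finset.mem_biUnion] at hc ⊢
    obtain ⟨x, hx, hc⟩ := hc
    refine ⟨x, hx, ?_⟩
    rw [Set.Finite.mem_toFinset, Polynomial.mem_rootSet] at hc ⊢
    refine ⟨hc.1, ?_⟩
    have h1 : Polynomial.aeval (g c) (minpoly ℚ x) = g (Polynomial.aeval c (minpoly ℚ x)) :=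
      Polynomial.aeval_algHom_apply g.toAlgHom c _
    rw [h1, hc.2, map_zero]

section Step

variable {F : Type} [Field F] [Algebra QQ F]

/-- There is a fibre of `φ` over a number `t ∉ Bad` of height at most one such that any two of its
points are conjugate under a power of `σ ^ k` which fixes the functions in `S`. -/
def Orbits (φ : F) (k : ℕ) (S : Finset F) (Bad : Finset QQ) (σ : Gam) : Prop :=
  ∃ t ∉ Bad, NumberField.absLogHeight₁ t ≤ 1 ∧ ∀ x x' : Place QQ F, x.At φ t → x'.At φ t →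
    ∃ (j : ℕ) (r : F ≃+* F), Fixes S (σ ^ (k * j)) r ∧ Moves r x x'

/-- The elements of the absolute Galois group of `K`, prescribed on a finite set and of finite
order there, can be changed to elements with the property `Hold`. The prime number `N` is
the new prime factor of the order. -/
def CanStep (K : IntermediateField ℚ QQ) (N : ℕ) (Hold : Gam → Prop) : Prop :=
  ∀ P : Finset ℕ, 2 ∉ P → N ∉ P → ∀ (g : K.fixingSubgroup) (C : Finset QQ) (s : ℕ), 0 < s →
    s.primeFactors ⊆ P → (∀ c ∈ C, ((g ^ s : K.fixingSubgroup) : Gam) c = c) →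
    ∃ (g' : K.fixingSubgroup) (C' : Finset QQ) (s' : ℕ), 0 < s' ∧
      s'.primeFactors ⊆ insert N P ∧ (∀ c ∈ C', ((g' ^ s' : K.fixingSubgroup) : Gam) c = c) ∧
      C ⊆ C' ∧ (∀ c ∈ C, (g' : Gam) c = (g : Gam) c) ∧
      ∀ g'' : K.fixingSubgroup, (∀ c ∈ C', (g'' : Gam) c = (g' : Gam) c) → Hold g''

theorem sig_step {φ : F} {K : IntermediateField ℚ QQ} {N k : ℕ} (hN : N.Prime) (h5 : 5 ≤ N)
    (hk : ¬ N ∣ k) (S : Finset F) (Bad : Finset QQ)
    (hdata : ∀ X : Finset QQ, ∃ (t : QQ) (S' : Finset F) (D : Finset QQ)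
      (s : Finset (Place QQ F)) (H : Subgroup K.fixingSubgroup) (a : H →* Equiv.Perm s)
      (Y : Finset QQ), t ∉ Bad ∧ NumberField.absLogHeight₁ t ≤ 1 ∧ S ⊆ S' ∧ X ⊆ D ∧
        (∀ ρ : K.fixingSubgroup, ∀ c ∈ D, (ρ : Gam) c ∈ D) ∧
        (∀ ρ : K.fixingSubgroup, ρ ∈ H ↔ ∀ c ∈ D, (ρ : Gam) c = c) ∧
        (∀ v, v ∈ s ↔ v.At φ t) ∧ s.card = N ∧
        (∀ (ρ : H) (x : s), ∃ r : F ≃+* F, Fixes S' ((ρ : K.fixingSubgroup) : Gam) r ∧
          Moves r x.1 (a ρ x).1) ∧
        (∀ ρ : H, (∀ c ∈ Y, ((ρ : K.fixingSubgroup) : Gam) c = c) → a ρ = 1) ∧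
        alternatingGroup s ≤ a.range) : CanStep K N (Orbits φ k S Bad) := by
  intro P hP2 hPN g C s hs hsP hC
  obtain ⟨t, S', D, f, H, a, Y, ht, hht, hS, hCD, hD, hH, hf, hcard, ha, hY, hA⟩ := hdata C
  have hcard' : Fintype.card f = N := by rw [Fintype.card_coe, hcard]
  subst hcard'
  have hclos : ∀ X : Finset QQ, ∃ D : Finset QQ, X ⊆ D ∧
      ∀ (g : K.fixingSubgroup), ∀ c ∈ D, g • c ∈ D := by
    intro X
    obtain ⟨D, h1, h2⟩ := exists_stable X
    exact ⟨D, h1, fun g c hc => h2 g c hc⟩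
  obtain ⟨g', C', s', s₀, hs', hs'P, -, hC', -, hCC', hgg', hfin⟩ :=
    step_abs (G := K.fixingSubgroup) (Ω := QQ) hclos hs hsP hC hP2 hN h5 hPN hCD hD hH a Y hY hA
      ∅
  refine ⟨g', C', s', hs', hs'P, hC', hCC', hgg', fun g'' hg'' => ?_⟩
  obtain ⟨hm, ho⟩ := hfin g'' hg'' k hk
  refine ⟨t, ht, hht, fun x x' hx hx' => ?_⟩
  have hcyc := Equiv.Perm.isCycle_of_prime_order'' hN ho
  have hsupp : ∀ x, (a ⟨g'' ^ (s₀ * k), hm⟩) x ≠ x := by
    intro x
    have h3 : (a ⟨g'' ^ (s₀ * k), hm⟩).support = Finset.univ :=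
      Finset.eq_univ_of_card _ (hcyc.orderOf ▸ ho)
    exact Equiv.Perm.mem_support.1 (h3 ▸ Finset.mem_univ x)
  obtain ⟨m, hm'⟩ := hcyc.exists_pow_eq (hsupp ⟨x, (hf x).2 hx⟩) (hsupp ⟨x', (hf x').2 hx'⟩)
  rw [← map_pow] at hm'
  obtain ⟨r, hr, hmv⟩ := ha (⟨g'' ^ (s₀ * k), hm⟩ ^ m) ⟨x, (hf x).2 hx⟩
  rw [hm'] at hmv
  refine ⟨s₀ * m, r, ?_, hmv⟩
  have h1 : (((⟨g'' ^ (s₀ * k), hm⟩ ^ m : H) : K.fixingSubgroup) : Gam) =
      (g'' : Gam) ^ (k * (s₀ * m)) := by
    rw [Subgroup.coe_pow, Subgroup.coe_pow, Subgroup.coe_pow, ← pow_mul]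
    congr 1
    ring
  rw [h1] at hr
  exact ⟨fun c hc => hr.1 c (hS hc), hr.2⟩

end Step

section Limit

private theorem dep_seq {α : Type*} (I : ℕ → α → Prop) (R : ℕ → α → α → Prop) (h0 : ∃ x, I 0 x)
    (hs : ∀ n x, I n x → ∃ y, I (n + 1) y ∧ R n x y) :
    ∃ f : ℕ → α, ∀ n, I n (f n) ∧ R n (f n) (f (n + 1)) := by
  obtain ⟨x₀, hx₀⟩ := h0
  choose! g hg using hs
  let f : ℕ → α := fun n => Nat.rec x₀ (fun n x => g n x) n
  have hI : ∀ n, I n (f n) := by
    intro n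
    induction n with
    | zero => exact hx₀
    | succ n ih => exact (hg n (f n) ih).1
  exact ⟨f, fun n => ⟨hI n, (hg n (f n) (hI n)).2⟩⟩

/-- a sequence of compatible prescriptions is satisfied by an automorphism -/
private theorem exists_limit {k L : Type} [Field k] [Field L] [Algebra k L] [IsGalois k L]
    (K : IntermediateField k L) (g : ℕ → L ≃ₐ[k] L) (C : ℕ → Finset L)
    (hg : ∀ i, g i ∈ K.fixingSubgroup) (hC : ∀ i, C i ⊆ C (i + 1))
    (hgg : ∀ i, ∀ c ∈ C i, g (i + 1) c = g i c) :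
    ∃ σ ∈ K.fixingSubgroup, ∀ i, ∀ c ∈ C i, σ c = g i c := by
  let T : ℕ → Set (L ≃ₐ[k] L) := fun i =>
    {σ | σ ∈ K.fixingSubgroup ∧ ∀ c ∈ C i, σ c = g i c}
  have hTc : ∀ i, IsClosed (T i) := by
    intro i
    have h1 : IsClosed (K.fixingSubgroup : Set (L ≃ₐ[k] L)) :=
      InfiniteGalois.fixingSubgroup_isClosed K
    have h2 : IsClosed ((fun σ : (L ≃ₐ[k] L) => (g i)⁻¹ * σ) ⁻¹'
        ((IntermediateField.adjoin k (C i : Set L)).fixingSubgroup : Set (L ≃ₐ[k] L))) :=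
      (InfiniteGalois.fixingSubgroup_isClosed _).preimage (continuous_const.mul continuous_id)
    have h3 : T i = (K.fixingSubgroup : Set (L ≃ₐ[k] L)) ∩ ((fun σ : (L ≃ₐ[k] L) =>
        (g i)⁻¹ * σ) ⁻¹' ((IntermediateField.adjoin k (C i : Set L)).fixingSubgroup :
          Set (L ≃ₐ[k] L))) := by
      ext σ
      constructor
      · rintro ⟨h4, h5⟩
        refine ⟨h4, ?_⟩
        show (g i)⁻¹ * σ ∈ (IntermediateField.adjoin k (C i : Set L)).fixingSubgroup
        have h6 : IntermediateField.adjoin k (C i : Set L) ≤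
            IntermediateField.fixedField (Subgroup.zpowers ((g i)⁻¹ * σ)) := by
          rw [IntermediateField.adjoin_le_iff]
          intro c hc
          rintro ⟨τ, m, rfl⟩
          have h7 : (g i)⁻¹ * σ ∈ MulAction.stabilizer (L ≃ₐ[k] L) c := by
            rw [MulAction.mem_stabilizer_iff, mul_smul, inv_smul_eq_iff]
            exact h5 c hc
          exact (MulAction.stabilizer (L ≃ₐ[k] L) c).zpow_mem h7 m
        rw [IntermediateField.mem_fixingSubgroup_iff]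
        intro c hc
        exact h6 hc ⟨_, Subgroup.mem_zpowers _⟩
      · rintro ⟨h4, h5⟩
        refine ⟨h4, fun c hc => ?_⟩
        have h6 : (g i)⁻¹ * σ ∈ (IntermediateField.adjoin k (C i : Set L)).fixingSubgroup := h5
        have h7 := (IntermediateField.mem_fixingSubgroup_iff _ _).1 h6 c
          (IntermediateField.subset_adjoin k _ hc)
        have h8 : (g i)⁻¹ • (σ • c) = c := by
          rw [← mul_smul]
          exact h7
        rw [inv_smul_eq_iff] at h8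
        exact h8
    rw [h3]
    exact h1.inter h2
  have hmono : ∀ i, T (i + 1) ⊆ T i := by
    rintro i σ ⟨h1, h2⟩
    exact ⟨h1, fun c hc => (h2 c (hC i hc)).trans (hgg i c hc)⟩
  obtain ⟨σ, hσ⟩ := IsCompact.nonempty_iInter_of_sequence_nonempty_isCompact_isClosed T hmono
    (fun i => ⟨g i, hg i, fun c _ => rfl⟩) (hTc 0).isCompact hTc
  rw [Set.mem_iInter] at hσ
  exact ⟨σ, (hσ 0).1, fun i => (hσ i).2⟩

theorem sig_lim {K : IntermediateField ℚ QQ} {N : ℕ → ℕ} (hN2 : ∀ i, N i ≠ 2)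
    (hNi : Function.Injective N) {Hold : ℕ → Gam → Prop} (h : ∀ i, CanStep K (N i) (Hold i)) :
    ∃ σ : Gam, (∀ c ∈ K, σ c = c) ∧ ∀ i, Hold i σ := by
  obtain ⟨f, hf⟩ := dep_seq (α := K.fixingSubgroup × Finset QQ × ℕ)
    (fun n x => 0 < x.2.2 ∧ x.2.2.primeFactors ⊆ (Finset.range n).image N ∧
      ∀ c ∈ x.2.1, ((x.1 ^ x.2.2 : K.fixingSubgroup) : Gam) c = c)
    (fun n x y => x.2.1 ⊆ y.2.1 ∧ (∀ c ∈ x.2.1, (y.1 : Gam) c = (x.1 : Gam) c) ∧
      ∀ g'' : K.fixingSubgroup, (∀ c ∈ y.2.1, (g'' : Gam) c = (y.1 : Gam) c) → Hold n g'')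
    ⟨(1, ∅, 1), one_pos, by simp, by simp⟩ (by
      rintro n ⟨g, C, s⟩ ⟨hs, hsP, hC⟩
      obtain ⟨g', C', s', h1, h2, h3, h4, h5, h6⟩ := h n ((Finset.range n).image N)
        (by
          rw [Finset.mem_image]
          rintro ⟨i, -, hi⟩
          exact hN2 i hi)
        (by
          rw [Finset.mem_image]
          rintro ⟨i, hi, hi'⟩
          have h8 := hNi hi'
          rw [h8, Finset.mem_range] at hi
          exact lt_irrefl _ hi) g C s hs hsP hC
      refine ⟨(g', C', s'), ⟨h1, ?_, h3⟩, h4, h5, h6⟩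
      rw [Finset.range_add_one, Finset.image_insert]
      exact h2)
  obtain ⟨σ, hσK, hσ⟩ := exists_limit K (fun i => ((f i).1 : Gam)) (fun i => (f i).2.1)
    (fun i => (f i).1.2) (fun i => (hf i).2.1) fun i => (hf i).2.2.1
  refine ⟨σ, (IntermediateField.mem_fixingSubgroup_iff K σ).1 hσK, fun i => ?_⟩
  exact (hf i).2.2.2 ⟨σ, hσK⟩ fun c hc => hσ (i + 1) c hc

end Limit

end Pool.Agent.Clo
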