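import Pool.Agent.Clo.SigNew
import Pool.Agent.Clo.SigLim
import Pool.Agent.Clo.SigData
import Pool.Agent.Clo.CountPlace

/-!
# One automorphism for all zero-cycles
-/

set_option autoImplicit false

noncomputable section

namespace Pool.Agent.Clo

open Pool.Agent.ZCyc Pool.Agent.Dess Pool.Agent.Dess4
open scoped Classical

variable {ι : Type} {L : ι → Type} [∀ i, Field (L i)] [∀ i, Algebra QQ (L i)]

/-- The zero-cycle `z` is, after multiplication by `m`, rationally equivalent to the sum of at most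
`N` cycles of the form `(x i - ρ x i) × (x j - ρ x j) × ∏ x l` with `ρ` a power of `τ`. -/
def SumNew (τ : Gam) (S : ∀ i, Finset (L i)) (m N : ℕ) (B : ∀ i, L i → ℝ)
    (z : (∀ i, Place QQ (L i)) →₀ ℤ) : Prop :=
  ∃ l : Multiset ((∀ i, Place QQ (L i)) →₀ ℤ), l.card ≤ N ∧
    (∀ g ∈ l, IsNew (IntermediateField.fixedField (Subgroup.zpowers τ)) S {x | HtLe B x} g) ∧
    l.sum - m • z ∈ RatEq L

/-- the data of a symbol: two indices, a point, and two further points -/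
def Sym (L : ι → Type) [∀ i, Field (L i)] [∀ i, Algebra QQ (L i)] : Type :=
  Σ (i j : ι), (∀ l, Place QQ (L l)) × Place QQ (L i) × Place QQ (L j)

/-- the zero-cycle of a symbol -/
def Sym.cyc (τ : Sym L) : (∀ i, Place QQ (L i)) →₀ ℤ :=
  symb τ.2.2.1 τ.1 τ.2.1 τ.2.2.2.1 τ.2.2.2.2

/-- the symbol is not degenerate -/
def Sym.Ok (τ : Sym L) : Prop :=
  τ.1 ≠ τ.2.1 ∧ τ.2.2.1 τ.1 ≠ τ.2.2.2.1 ∧ τ.2.2.1 τ.2.1 ≠ τ.2.2.2.2

theorem countable_sym [Finite ι] (hL : ∀ i, IsCurve QQ (L i)) : Countable (Sym L) := by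
  have h1 : ∀ i, Countable (Place QQ (L i)) := fun i => countable_place (hL i)
  unfold Sym
  infer_instance

theorem canStep_true (K : IntermediateField ℚ QQ) (N : ℕ) : CanStep K N fun _ => True := by
  intro P _ _ g C s hs hsP hC
  exact ⟨g, C, s, hs, hsP.trans (Finset.subset_insert _ _), hC, Finset.Subset.refl _,
    fun _ _ => rfl, fun _ _ => trivial⟩

/-- the data of one task -/
theorem task_data [Finite ι] (hL : ∀ i, IsCurve QQ (L i)) {n : ℕ} (hn : 5 ≤ n) (τ : Sym L)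
    (hτ : τ.Ok) {k : ℕ} (hk : 0 < k) (X : ℕ) :
    ∃ (P m N : ℕ) (B : ∀ i, L i → ℝ), X < P ∧ 0 < m ∧ ∀ K1 K2 : IntermediateField ℚ QQ,
      Mild K1 → NoAlt n K2 → ∀ S : ∀ i, Finset (L i), ∃ Q : Gam → Prop,
        CanStep (K1 ⊔ K2) P Q ∧ ∀ σ : Gam, Q σ → SumNew (σ ^ k) S m N B τ.cyc := by
  obtain ⟨hij, hp, hq⟩ := hτ
  obtain ⟨F, _, _, P, O, hF, hPO, hdata⟩ := symbol_data hL hij τ.2.2.1 hp hq
  obtain ⟨φ, y, z, u, r, n1, n2, m, e1, e2, e3, h, hN, hn2, hX, h1, h2⟩ :=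
    exists_fib_prime hF hPO (X + k + n + 1)
  obtain ⟨B, Bad, hB⟩ := hdata φ y z u r n1 n2 m e1 e2 e3 h
  refine ⟨n1 + n2, 2 * (n1 * n2), (n1 + n2) * (n1 + n2), B, by omega,
    Nat.mul_pos two_pos (Nat.mul_pos h.n1_pos h.n2_pos), fun K1 K2 hK1 hK2 S => ?_⟩
  obtain ⟨S', hS'⟩ := hB S
  refine ⟨Orbits φ k S' Bad, sig_step hN (by omega) (fun hd => ?_) S' Bad fun X' =>
    sig_data hn hK1 hK2 hF h hN hn2 h1 h2 (by omega) S' Bad X', ?_⟩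
  · have := Nat.le_of_dvd hk hd
    omega
  rintro σ ⟨t, ht1, ht2, ht3⟩
  refine hS' _ ⟨t, ht1, ht2, fun x x' hx hx' => ?_⟩
  obtain ⟨e, r, hr1, hr2⟩ := ht3 x x' hx hx'
  refine ⟨_, r, fun c hc => ?_, hr1, hr2⟩
  have h3 := hc ⟨(σ ^ k) ^ e, ⟨e, zpow_natCast _ _⟩⟩
  rw [pow_mul]
  exact h3

theorem sigma_main [Fintype ι] (hL : ∀ i, IsCurve QQ (L i)) {n : ℕ} (hn : 5 ≤ n) :
    ∃ (m N : ((∀ i, Place QQ (L i)) →₀ ℤ) → ℕ → ℕ)
      (B : ((∀ i, Place QQ (L i)) →₀ ℤ) → ℕ → ∀ i, L i → ℝ),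
      ∀ K1 K2 : IntermediateField ℚ QQ, Mild K1 → NoAlt n K2 → ∀ S : ∀ i, Finset (L i),
        ∃ σ : Gam, (∀ c ∈ K1 ⊔ K2, σ c = c) ∧ ∀ z, AlbKer L z → ∀ k, 0 < k →
          0 < m z k ∧ SumNew (σ ^ k) S (m z k) (N z k) (B z k) z := by
  have hc : Countable (Sym L × ℕ) := by
    have := countable_sym hL
    infer_instance
  obtain ⟨f, hf⟩ := hc.exists_injective_nat
  -- the data of all tasks
  have h1 : ∀ i X : ℕ, ∃ (P m N : ℕ) (B : ∀ i, L i → ℝ), X < P ∧ 0 < m ∧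
      ∀ K1 K2 : IntermediateField ℚ QQ, Mild K1 → NoAlt n K2 → ∀ S : ∀ i, Finset (L i),
        ∃ Q : Gam → Prop, CanStep (K1 ⊔ K2) P Q ∧ ∀ τ : Sym L × ℕ, f τ = i → τ.1.Ok →
          ∀ σ : Gam, Q σ → SumNew (σ ^ (τ.2 + 1)) S m N B τ.1.cyc := by
    intro i X
    by_cases hi : ∃ τ : Sym L × ℕ, f τ = i ∧ τ.1.Ok
    · obtain ⟨τ, hτ, hok⟩ := hi
      obtain ⟨P, m, N, B, hX, hm, h⟩ := task_data hL hn τ.1 hok (Nat.succ_pos τ.2) X
      refine ⟨P, m, N, B, hX, hm, fun K1 K2 hK1 hK2 S => ?_⟩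
      obtain ⟨Q, hQ, hQ'⟩ := h K1 K2 hK1 hK2 S
      refine ⟨Q, hQ, fun τ' hτ' _ σ hσ => ?_⟩
      have e : τ' = τ := hf (hτ'.trans hτ.symm)
      rw [e]
      exact hQ' σ hσ
    · refine ⟨X + 1, 1, 0, fun _ _ => 0, Nat.lt_succ_self X, one_pos,
        fun K1 K2 hK1 hK2 S => ⟨fun _ => True, canStep_true _ _, fun τ hτ hok => ?_⟩⟩
      exact absurd ⟨τ, hτ, hok⟩ hi
  choose P m N B hX hm hQ using h1
  -- the primes
  obtain ⟨p, hp0, hp⟩ : ∃ p : ℕ → ℕ, p 0 = 2 ∧ ∀ i, p (i + 1) = P i (p i) :=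
    ⟨fun i => Nat.rec 2 (fun i X => P i X) i, rfl, fun _ => rfl⟩
  have hpm : StrictMono p := strictMono_nat_of_lt_succ fun i => by
    rw [hp i]
    exact hX _ _
  -- the automorphisms
  have h2 : ∀ (K1 K2 : IntermediateField ℚ QQ) (S : ∀ i, Finset (L i)), ∃ σ : Gam,
      Mild K1 → NoAlt n K2 → (∀ c ∈ K1 ⊔ K2, σ c = c) ∧ ∀ τ : Sym L × ℕ, τ.1.Ok →
        SumNew (σ ^ (τ.2 + 1)) S (m (f τ) (p (f τ))) (N (f τ) (p (f τ)))
          (B (f τ) (p (f τ))) τ.1.cyc := by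
    intro K1 K2 S
    by_cases hK1 : Mild K1
    · by_cases hK2 : NoAlt n K2
      · choose Q hQ1 hQ2 using fun i => hQ i (p i) K1 K2 hK1 hK2 S
        obtain ⟨σ, hσ, hσQ⟩ := sig_lim (K := K1 ⊔ K2) (N := fun i => p (i + 1)) (Hold := Q)
          (fun i => by
            show p (i + 1) ≠ 2
            have h6 : p 0 < p (i + 1) := hpm (Nat.succ_pos i)
            omega) (fun i j hij => by
            have h5 := hpm.injective hij
            omega) (fun i => by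
            show CanStep (K1 ⊔ K2) (p (i + 1)) (Q i)
            rw [hp i]
            exact hQ1 i)
        exact ⟨σ, fun _ _ => ⟨hσ, fun τ hok => hQ2 (f τ) τ rfl hok σ (hσQ (f τ))⟩⟩
      · exact ⟨1, fun _ h => absurd h hK2⟩
    · exact ⟨1, fun h => absurd h hK1⟩
  choose σ hσ using h2
  -- the constants
  have h3 : ∀ (z : (∀ i, Place QQ (L i)) →₀ ℤ) (k : ℕ), ∃ (m' N' : ℕ) (B' : ∀ i, L i → ℝ),
      AlbKer L z → 0 < k → 0 < m' ∧ ∀ K1 K2 : IntermediateField ℚ QQ, Mild K1 → NoAlt n K2 →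
        ∀ S : ∀ i, Finset (L i), SumNew (σ K1 K2 S ^ k) S m' N' B' z := by
    intro z k
    by_cases hz : AlbKer L z ∧ 0 < k
    · obtain ⟨hz, hk⟩ := hz
      obtain ⟨m', N', B', hm', h⟩ := albKer_genP (𝒬 := fun K S => ∃ K1 K2, Mild K1 ∧ NoAlt n K2 ∧
          K = IntermediateField.fixedField (Subgroup.zpowers (σ K1 K2 S ^ k))) (by
        intro i j hij a p' q' hp' hq'
        obtain ⟨k, rfl⟩ : ∃ k', k = k' + 1 := ⟨k - 1, by omega⟩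
        obtain ⟨τ, hτ⟩ : ∃ τ : Sym L × ℕ, τ = (⟨i, j, a, p', q'⟩, k) := ⟨_, rfl⟩
        have hok : τ.1.Ok := by
          rw [hτ]
          exact ⟨hij, hp', hq'⟩
        refine ⟨m (f τ) (p (f τ)), N (f τ) (p (f τ)), B (f τ) (p (f τ)), hm _ _, ?_⟩
        rintro K S ⟨K1, K2, hK1, hK2, rfl⟩
        have h4 := (hσ K1 K2 S hK1 hK2).2 τ hok
        rw [hτ] at h4 ⊢
        exact h4) hz
      exact ⟨m', N', B', fun _ _ => ⟨hm', fun K1 K2 hK1 hK2 S =>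
        h _ S ⟨K1, K2, hK1, hK2, rfl⟩⟩⟩
    · exact ⟨0, 0, fun _ _ => 0, fun h1 h2 => absurd ⟨h1, h2⟩ hz⟩
  choose m' N' B' h3 using h3
  refine ⟨m', N', B', fun K1 K2 hK1 hK2 S => ⟨σ K1 K2 S, (hσ K1 K2 S hK1 hK2).1,
    fun z hz k hk => ⟨(h3 z k hz hk).1, (h3 z k hz hk).2 K1 K2 hK1 hK2 S⟩⟩⟩

/-- THEOREM SIGMA. -/
theorem sigma [Fintype ι] (hL : ∀ i, IsCurve QQ (L i)) {n : ℕ} (hn : 5 ≤ n) :
    ∃ (m N : ((∀ i, Place QQ (L i)) →₀ ℤ) → ℕ → ℕ)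
      (B : ((∀ i, Place QQ (L i)) →₀ ℤ) → ℕ → ∀ i, L i → ℝ),
      ∀ K : IntermediateField ℚ QQ, Tame n K → ∀ S : ∀ i, Finset (L i),
        ∃ σ : Gam, (∀ c ∈ K, σ c = c) ∧ ∀ z, AlbKer L z → ∀ k, 0 < k → 0 < m z k ∧
          ∃ l : Multiset ((∀ i, Place QQ (L i)) →₀ ℤ), l.card ≤ N z k ∧
            (∀ g ∈ l, IsNew (IntermediateField.fixedField (Subgroup.zpowers (σ ^ k))) S
              {x | HtLe (B z k) x} g) ∧ l.sum - m z k • z ∈ RatEq L := by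
  obtain ⟨m, N, B, h⟩ := sigma_main hL hn
  refine ⟨m, N, B, ?_⟩
  rintro K ⟨K1, K2, hK1, hK2, hK⟩ S
  obtain ⟨σ, hσ, h⟩ := h K1 K2 hK1 hK2 S
  exact ⟨σ, fun c hc => hσ c (hK hc), h⟩

end Pool.Agent.Clo
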