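import Pool.Agent.Clo.AlbInv
import Pool.Agent.Clo.Pull
import Mathlib.FieldTheory.RatFunc.AsPolynomial

/-!
# Models of curves in a countable field

Every curve over the field of algebraic numbers is isomorphic to the one of a finitely generated
subfield of the algebraic closure `OmX` of the field of rational functions, which is countable.
-/

set_option autoImplicit false

noncomputable section

namespace Pool.Agent.Clo

open Pool.Agent.ZCyc Pool.Agent.Dess
open scoped Cardinal

/-- The algebraic closure of the field of rational functions with algebraic coefficients. -/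
abbrev OmX : Type := AlgebraicClosure (RatFunc QQ)

private theorem countable_QQ' : Countable QQ := by
  have halg : Algebra.IsAlgebraic ℚ QQ := AlgebraicClosure.isAlgebraic ℚ
  have h1 := Algebra.IsAlgebraic.cardinalMk_le_max ℚ QQ
  rw [← Cardinal.mk_le_aleph0_iff]
  refine h1.trans ?_
  rw [max_le_iff]
  exact ⟨Cardinal.mk_le_aleph0, le_rfl⟩

theorem countable_OmX : Countable OmX := by
  have h0 : Countable QQ := countable_QQ'
  have h1 : #(RatFunc QQ) ≤ ℵ₀ := by
    rw [IsFractionRing.cardinalMk (R := Polynomial QQ) (RatFunc QQ)]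
    have h2 := Polynomial.cardinalMk_le_max (R := QQ)
    refine h2.trans ?_
    rw [max_le_iff]
    exact ⟨Cardinal.mk_le_aleph0, le_rfl⟩
  have halg : Algebra.IsAlgebraic (RatFunc QQ) OmX := AlgebraicClosure.isAlgebraic (RatFunc QQ)
  have h3 := Algebra.IsAlgebraic.cardinalMk_le_max (RatFunc QQ) OmX
  rw [← Cardinal.mk_le_aleph0_iff]
  refine h3.trans ?_
  rw [max_le_iff]
  exact ⟨h1, le_rfl⟩

/-- the model given by a finite set -/
abbrev Mod (T : Finset OmX) : Type := IntermediateField.adjoin QQ (T : Set OmX)

theorem exists_Mod {F : Type} [Field F] [Algebra QQ F] (hF : IsCurve QQ F) :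
    ∃ T : Finset OmX, Nonempty (F ≃ₐ[QQ] Mod T) := by
  obtain ⟨t, ht, hfin⟩ := id hF
  obtain ⟨S₁, hS₁⟩ := exists_gens hF
  let e : IntermediateField.adjoin QQ {t} →ₐ[QQ] OmX :=
    (IsScalarTower.toAlgHom QQ (RatFunc QQ) OmX).comp
      (RatFunc.algEquivOfTranscendental t ht).symm.toAlgHom
  let _ : Algebra (IntermediateField.adjoin QQ {t}) OmX := e.toRingHom.toAlgebra
  have halg : Algebra.IsAlgebraic (IntermediateField.adjoin QQ {t}) F :=
    Algebra.IsAlgebraic.of_finite _ _
  let g₀ : F →ₐ[IntermediateField.adjoin QQ {t}] OmX := IsAlgClosed.lift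
  let g : F →ₐ[QQ] OmX :=
    { toRingHom := g₀.toRingHom
      commutes' := fun c => by
        have h1 : algebraMap QQ F c = algebraMap (IntermediateField.adjoin QQ {t}) F
          (algebraMap QQ (IntermediateField.adjoin QQ {t}) c) := rfl
        have h2 := g₀.commutes (algebraMap QQ (IntermediateField.adjoin QQ {t}) c)
        show g₀ (algebraMap QQ F c) = _
        rw [h1, h2]
        exact e.commutes c }
  classical
  have h3 : g.fieldRange = IntermediateField.adjoin QQ ((S₁.image g : Finset OmX) : Set OmX) := by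
    rw [AlgHom.fieldRange_eq_map, ← hS₁, IntermediateField.adjoin_map, Finset.coe_image]
  let e₁ : F ≃ₐ[QQ] g.fieldRange := AlgEquiv.ofInjectiveField g
  exact ⟨S₁.image g, ⟨e₁.trans (IntermediateField.equivOfEq h3)⟩⟩

theorem isCurve_equiv {F F' : Type} [Field F] [Algebra QQ F] [Field F'] [Algebra QQ F']
    (e : F ≃ₐ[QQ] F') (hF : IsCurve QQ F) : IsCurve QQ F' := by
  obtain ⟨t, ht, hfin⟩ := hF
  refine ⟨e t, ?_, ?_⟩
  · intro halg
    apply ht
    exact (isAlgebraic_algHom_iff e.toAlgHom e.injective).1 halg
  · have h3 : (IntermediateField.adjoin QQ {t}).map e.toAlgHom =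
        IntermediateField.adjoin QQ {e t} := by
      rw [IntermediateField.adjoin_map, Set.image_singleton]
      rfl
    let e₁ : IntermediateField.adjoin QQ {t} ≃ₐ[QQ] IntermediateField.adjoin QQ {e t} :=
      ((IntermediateField.adjoin QQ {t}).equivMap e.toAlgHom).trans
        (IntermediateField.equivOfEq h3)
    exact Module.Finite.of_equiv_equiv e₁.toRingEquiv e.toRingEquiv (RingHom.ext fun x => rfl)

end Pool.Agent.Clo
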