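import Pool.Agent.Clo.New3

/-!
# New cycles for classes of pairs `(K, S)`
-/

set_option autoImplicit false

noncomputable section

namespace Pool.Agent.Clo

open Pool.Agent.ZCyc Pool.Agent.Dess Pool.Agent.Dess4
open scoped Classical

section Defs

variable {ι : Type} {L : ι → Type} [∀ i, Field (L i)] [∀ i, Algebra QQ (L i)]
  {𝒬 : IntermediateField ℚ QQ → (∀ i, Finset (L i)) → Prop}

/-- some multiple is a sum of a bounded number of new cycles, for all pairs with the property -/
def GenP (𝒬 : IntermediateField ℚ QQ → (∀ i, Finset (L i)) → Prop)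
    (z : (∀ i, Place QQ (L i)) →₀ ℤ) : Prop :=
  ∃ (m N : ℕ) (B : ∀ i, L i → ℝ), 0 < m ∧ ∀ (K : IntermediateField ℚ QQ)
    (S : ∀ i, Finset (L i)), 𝒬 K S → ∃ l : Multiset ((∀ i, Place QQ (L i)) →₀ ℤ),
      l.card ≤ N ∧ (∀ g ∈ l, IsNew K S {x | HtLe B x} g) ∧ l.sum - m • z ∈ RatEq L

theorem genP_add {z z' : (∀ i, Place QQ (L i)) →₀ ℤ} (h : GenP 𝒬 z) (h' : GenP 𝒬 z') :
    GenP 𝒬 (z + z') := by
  obtain ⟨m, N, B, hm, h⟩ := h
  obtain ⟨m', N', B', hm', h'⟩ := h'
  refine ⟨m * m', m' * N + m * N', fun i f => max (B i f) (B' i f), Nat.mul_pos hm hm',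
    fun K S hK => ?_⟩
  obtain ⟨l, hl, hn, hr⟩ := h K S hK
  obtain ⟨l', hl', hn', hr'⟩ := h' K S hK
  refine ⟨m' • l + m • l', ?_, ?_, ?_⟩
  · rw [Multiset.card_add, Multiset.card_nsmul, Multiset.card_nsmul]
    exact add_le_add (Nat.mul_le_mul_left _ hl) (Nat.mul_le_mul_left _ hl')
  · intro g hg
    rcases Multiset.mem_add.1 hg with hg | hg
    · exact (hn g (Multiset.mem_of_mem_nsmul hg)).mono (HtLe.mono fun i f => le_max_left _ _)
    · exact (hn' g (Multiset.mem_of_mem_nsmul hg)).mono (HtLe.mono fun i f => le_max_right _ _)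
  · have h1 : (m' • l + m • l').sum - (m * m') • (z + z') =
        m' • (l.sum - m • z) + m • (l'.sum - m' • z') := by
      rw [Multiset.sum_add, Multiset.sum_nsmul, Multiset.sum_nsmul]
      module
    rw [h1]
    exact add_mem (AddSubgroup.nsmul_mem _ hr _) (AddSubgroup.nsmul_mem _ hr' _)

theorem genP_neg {z : (∀ i, Place QQ (L i)) →₀ ℤ} (h : GenP 𝒬 z) : GenP 𝒬 (-z) := by
  obtain ⟨m, N, B, hm, h⟩ := h
  refine ⟨m, N, B, hm, fun K S hK => ?_⟩
  obtain ⟨l, hl, hn, hr⟩ := h K S hK
  refine ⟨l.map fun g => -g, ?_, ?_, ?_⟩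
  · rwa [Multiset.card_map]
  · intro g hg
    obtain ⟨g', hg', rfl⟩ := Multiset.mem_map.1 hg
    exact (hn g' hg').neg
  · have h1 : (l.map fun g => -g).sum - m • (-z) = -(l.sum - m • z) := by
      rw [Multiset.sum_map_neg']
      module
    rw [h1]
    exact (RatEq L).neg_mem hr

theorem genP_of_mem {z : (∀ i, Place QQ (L i)) →₀ ℤ} (h : z ∈ RatEq L) : GenP 𝒬 z := by
  refine ⟨1, 0, fun _ _ => 0, one_pos, fun K S hK => ⟨0, ?_, ?_, ?_⟩⟩
  · rw [Multiset.card_zero]
  · intro g hg
    exact absurd hg (Multiset.notMem_zero g)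
  · rw [Multiset.sum_zero, zero_sub]
    exact (RatEq L).neg_mem ((RatEq L).nsmul_mem h _)

variable (𝒬) in
/-- the subgroup of the cycles with this property -/
def genPGroup : AddSubgroup ((∀ i, Place QQ (L i)) →₀ ℤ) where
  carrier := {z | GenP 𝒬 z}
  zero_mem' := genP_of_mem (zero_mem _)
  add_mem' := genP_add
  neg_mem' := genP_neg

theorem mem_genPGroup {z : (∀ i, Place QQ (L i)) →₀ ℤ} : z ∈ genPGroup 𝒬 ↔ GenP 𝒬 z := Iff.rfl

/-- The mixed difference of points: the coordinates `a i`, `a j` are replaced by `p`, `q`. -/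
def symb (a : ∀ l, Place QQ (L l)) (i j : ι) (p : Place QQ (L i)) (q : Place QQ (L j)) :
    (∀ i, Place QQ (L i)) →₀ ℤ :=
  Finsupp.single a (1 : ℤ) - Finsupp.single (Function.update a i p) 1 -
    Finsupp.single (Function.update a j q) 1 +
    Finsupp.single (Function.update (Function.update a i p) j q) 1

end Defs

section Two

variable {F : Type} [Field F] [Algebra QQ F] {ι : Type} {L : ι → Type} [∀ i, Field (L i)]
  [∀ i, Algebra QQ (L i)]

/-- the image of `(P - O) × (P - O)`, for one field `K` -/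
theorem two_data [Finite ι] (hL : ∀ i, IsCurve QQ (L i)) (hF : IsCurve QQ F) {P O : Place QQ F}
    (a : ∀ i, Place QQ (L i)) {i j : ι} (hij : i ≠ j) {f : L i →ₐ[QQ] F}
    {f' : L j →ₐ[QQ] F} {g : Place QQ F → Place QQ (L i)} {g' : Place QQ F → Place QQ (L j)}
    (hg : ∀ v, (g v).ring = v.ring.comap (f : L i →+* F))
    (hg' : ∀ v, (g' v).ring = v.ring.comap (f' : L j →+* F))
    {φ y z u : F} {r : Place QQ F} {n1 n2 m e1 e2 e3 : ℕ}
    (h : Fib φ y z u P O r n1 n2 m e1 e2 e3) :
    ∃ (B : ∀ i, L i → ℝ) (Bad : Finset QQ), ∀ S : ∀ i, Finset (L i), ∃ S' : Finset F,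
      ∀ K : IntermediateField ℚ QQ,
        (∃ t : QQ, t ∉ Bad ∧ NumberField.absLogHeight₁ t ≤ 1 ∧ ∀ x x' : Place QQ F,
          x.At φ t → x'.At φ t → ∃ (ρ : Gam) (r : F ≃+* F), (∀ c ∈ K, ρ c = c) ∧
            Fixes S' ρ r ∧ Moves r x x') →
        ∃ l : Multiset ((∀ i, Place QQ (L i)) →₀ ℤ), l.card ≤ (n1 + n2) * (n1 + n2) ∧
          (∀ w ∈ l, IsNew K S {x | HtLe B x} w) ∧
          l.sum - (2 * (n1 * n2)) • (square P O).mapDomain (two a i j g g') ∈ RatEq L := by
  have hΦ := two_isMor a hij hg hg'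
  have htr := h.transc hF
  choose C hC using fun f : F => height_compare hF (f := f) htr 1
  obtain ⟨B, hB⟩ := ht_pull hΦ C
  have hBad := finite_crit hF htr
  refine ⟨B, hBad.toFinset, fun S => ?_⟩
  obtain ⟨S', hS'⟩ := auto_pull hL hΦ S
  refine ⟨S', fun K ⟨t, ht1, ht2, ht3⟩ => ?_⟩
  obtain ⟨s, hmem⟩ : ∃ s : Finset (Place QQ F), ∀ v, v ∈ s ↔ v.At φ t :=
    ⟨(finite_at hF htr t).toFinset, fun v => by simp⟩
  have hfib : IsFibre φ P O n1 n2 t s :=
    { curve := hF
      transc := htr
      ne := h.ne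
      pole_p := h.ordp
      pole_q := h.ordq
      n1_pos := h.n1_pos
      n2_pos := h.n2_pos
      reg := h.reg
      mem := hmem
      unif := by
        intro v hv
        by_contra hu
        exact ht1 (hBad.mem_toFinset.2 ⟨v, hv, hu⟩) }
  have hht : ∀ x ∈ s, HtLe B (two a i j g g' fun _ => x) := by
    intro x hx
    exact hB (fun _ => x) fun _ f c hc => hC f x c t hc ((hmem x).1 hx) ht2
  refine ⟨(s ×ˢ s).val.map fun z => (square z.1 z.2).mapDomain (two a i j g g'), ?_, ?_, ?_⟩
  · rw [Multiset.card_map, Finset.card_val, Finset.card_product, hfib.card]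
  · intro w hw
    obtain ⟨⟨x, x'⟩, hx, rfl⟩ := Multiset.mem_map.1 hw
    rw [Finset.mem_val, Finset.mem_product] at hx
    obtain ⟨ρ, r, hρ, hfix, hmov⟩ := ht3 x x' ((hmem x).1 hx.1) ((hmem x').1 hx.2)
    obtain ⟨e, he, hm⟩ := hS' ρ r hfix
    obtain ⟨y', hy'⟩ : ∃ y' : ∀ l, Place QQ (L l), ∀ l,
        Moves (e l) (two a i j g g' (fun _ => x) l) (y' l) :=
      ⟨fun l => act (e l) (he l).2 (two a i j g g' (fun _ => x) l), fun l => moves_act _ _⟩
    have hi : y' i = g x' := by
      refine moves_right (hy' i) ?_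
      have h1 := hm i ⟨false, f, fun b => by rw [two_fst a hij]; exact hg _⟩ x x' hmov
      rwa [two_fst a hij (b := fun _ => x')] at h1
    have hj : y' j = g' x' := by
      refine moves_right (hy' j) ?_
      have h1 := hm j ⟨true, f', fun b => by rw [two_snd]; exact hg' _⟩ x x' hmov
      rwa [two_snd (b := fun _ => x')] at h1
    refine ⟨ρ, e, two a i j g g' fun _ => x, y', i, j, hρ, he, hy', hij, hht x hx.1, ?_,
      Or.inl ?_⟩
    · rw [hi, hj, two_corner a hij]
      exact hht x' hx.2
    · exact two_square a hij hi hj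
  · have h1 : ((s ×ˢ s).val.map fun z => (square z.1 z.2).mapDomain (two a i j g g')).sum =
        (2 • zt s).mapDomain (two a i j g g') := by
      rw [zt_square, ← Finset.sum_product']
      exact (Finsupp.mapDomain_finsetSum).symm
    have h2 := map_mem (two a i j g g') hΦ
      (AddSubgroup.nsmul_mem (RatEq fun _ : Bool => F) hfib.zt_ratEq 2)
    have h3 : (2 • (zt s - (n1 * n2) • square P O)).mapDomain (two a i j g g') =
        (2 • zt s).mapDomain (two a i j g g') -
          (2 * (n1 * n2)) • (square P O).mapDomain (two a i j g g') := by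
      have e : ∀ w : (Bool → Place QQ F) →₀ ℤ, w.mapDomain (two a i j g g') =
        Finsupp.mapDomain.addMonoidHom (M := ℤ) (two a i j g g') w := fun _ => rfl
      rw [e, e, e, ← map_nsmul, ← map_sub, smul_sub, smul_smul]
    rw [h1, ← h3]
    exact h2

end Two

section Main

variable {ι : Type} {L : ι → Type} [∀ i, Field (L i)] [∀ i, Algebra QQ (L i)]
  {𝒬 : IntermediateField ℚ QQ → (∀ i, Finset (L i)) → Prop}

theorem symbol_data [Finite ι] (hL : ∀ i, IsCurve QQ (L i)) {i j : ι} (hij : i ≠ j)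
    (a : ∀ l, Place QQ (L l)) {p : Place QQ (L i)} {q : Place QQ (L j)} (hp : a i ≠ p)
    (hq : a j ≠ q) :
    ∃ (F : Type) (_ : Field F) (_ : Algebra QQ F) (P O : Place QQ F), IsCurve QQ F ∧ P ≠ O ∧
      ∀ (φ y z u : F) (r : Place QQ F) (n1 n2 m e1 e2 e3 : ℕ),
        Fib φ y z u P O r n1 n2 m e1 e2 e3 →
          ∃ (B : ∀ i, L i → ℝ) (Bad : Finset QQ), ∀ S : ∀ i, Finset (L i), ∃ S' : Finset F,
            ∀ K : IntermediateField ℚ QQ,
              (∃ t : QQ, t ∉ Bad ∧ NumberField.absLogHeight₁ t ≤ 1 ∧ ∀ x x' : Place QQ F,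
                x.At φ t → x'.At φ t → ∃ (ρ : Gam) (r : F ≃+* F), (∀ c ∈ K, ρ c = c) ∧
                  Fixes S' ρ r ∧ Moves r x x') →
              ∃ l : Multiset ((∀ i, Place QQ (L i)) →₀ ℤ), l.card ≤ (n1 + n2) * (n1 + n2) ∧
                (∀ w ∈ l, IsNew K S {x | HtLe B x} w) ∧
                l.sum - (2 * (n1 * n2)) • symb a i j p q ∈ RatEq L := by
  let s : Bool → ι := fun b => cond b j i
  let A : ∀ b, Place QQ (L (s b)) := fun b => a (s b)
  let B : ∀ b, Place QQ (L (s b)) := fun b => match b with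
    | true => q
    | false => p
  obtain ⟨F, _, _, F₀, P, O, f, hF, hgen, hact, hP, hO⟩ := joint (fun b => L (s b))
    (fun b => hL (s b)) A B (by rintro (_ | _); exacts [hp, hq])
  have hPO : P ≠ O := by
    intro hPO
    apply hp
    apply Place.ext
    have h1 := hP false
    have h2 := hO false
    rw [hPO, h2] at h1
    exact h1.symm
  have hpull : ∀ (b : Bool) (v : Place QQ F), ∃ w : Place QQ (L (s b)),
      v.ring.comap (f b : L (s b) →+* F) = w.ring := fun b v =>
    exists_pull (hL (s b)) hF (RingEquiv.refl QQ) (f b : L (s b) →+* F)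
      (fun c => (f b).commutes c) v
  choose g hg using hpull
  have hgP0 : g false P = a i := Place.ext ((hg false P).symm.trans (hP false))
  have hgP1 : g true P = a j := Place.ext ((hg true P).symm.trans (hP true))
  have hgO0 : g false O = p := Place.ext ((hg false O).symm.trans (hO false))
  have hgO1 : g true O = q := Place.ext ((hg true O).symm.trans (hO true))
  have h1 : two a i j (g false) (g true) (pair (L := fun _ => F) P P) = a := by
    simp only [two, pair, hgP0, hgP1, Function.update_eq_self]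
  have h2 : two a i j (g false) (g true) (pair (L := fun _ => F) P O) =
      Function.update a j q := by
    simp only [two, pair, hgP0, hgO1, Function.update_eq_self]
  have h3 : two a i j (g false) (g true) (pair (L := fun _ => F) O P) =
      Function.update a i p := by
    simp only [two, pair, hgO0, hgP1]
    rw [Function.update_comm hij, Function.update_eq_self]
  have h4 : two a i j (g false) (g true) (pair (L := fun _ => F) O O) =
      Function.update (Function.update a i p) j q := by
    simp only [two, pair, hgO0, hgO1]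
  have h5 : symb a i j p q = (square P O).mapDomain (two a i j (g false) (g true)) := by
    rw [symb, map_square, h1, h2, h3, h4]
    abel
  refine ⟨F, inferInstance, inferInstance, P, O, hF, hPO, ?_⟩
  intro φ y z u r n1 n2 m e1 e2 e3 h
  rw [h5]
  exact two_data hL hF a hij (f := f false) (f' := f true) (g := g false)
    (g' := g true) (fun v => (hg false v).symm) (fun v => (hg true v).symm) h

theorem albKer_genP [Fintype ι]
    (h : ∀ (i j : ι), i ≠ j → ∀ (a : ∀ l, Place QQ (L l)) (p : Place QQ (L i))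
      (q : Place QQ (L j)), a i ≠ p → a j ≠ q → GenP 𝒬 (symb a i j p q))
    {z : (∀ i, Place QQ (L i)) →₀ ℤ} (hz : AlbKer L z) : GenP 𝒬 z := by
  rw [← mem_genPGroup]
  refine of_symbols (T := genPGroup 𝒬) (fun w hw => genP_of_mem hw) ?_ hz
  intro i j hij a p q
  by_cases hp : a i = p
  · have h0 : Finsupp.single a (1 : ℤ) - Finsupp.single (Function.update a i p) 1 -
        Finsupp.single (Function.update a j q) 1 +
        Finsupp.single (Function.update (Function.update a i p) j q) 1 = 0 := by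
      rw [← hp, Function.update_eq_self]
      abel
    rw [h0]
    exact zero_mem _
  by_cases hq : a j = q
  · have h0 : Finsupp.single a (1 : ℤ) - Finsupp.single (Function.update a i p) 1 -
        Finsupp.single (Function.update a j q) 1 +
        Finsupp.single (Function.update (Function.update a i p) j q) 1 = 0 := by
      rw [← hq, Function.update_eq_self, Function.update_comm hij, Function.update_eq_self]
      abel
    rw [h0]
    exact zero_mem _
  exact h i j hij a p q hp hq

end Main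

end Pool.Agent.Clo
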