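import Pool.Agent.Clo.SigNew
import Pool.Agent.Clo.SigModel

/-!
# The data of a symbol in a model

As in `SigNew.lean`, but the auxiliary curve is one of the countably many models of
`SigModel.lean`, the set `S'` is chosen before the function `φ`, and the set `E` of the allowed
points is arbitrary.
-/

set_option autoImplicit false

noncomputable section

namespace Pool.Agent.Clo

open Pool.Agent.ZCyc Pool.Agent.Dess Pool.Agent.Dess4
open scoped Classical

section Size

variable {ι : Type} {L : ι → Type} [∀ i, Field (L i)] [∀ i, Algebra QQ (L i)]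

/-- For all functions `f` on the curve `i`, the size `w` of the value of `f` at the coordinate
`x i` is at most `B i f`. -/
def SzLe (w : QQ → ℝ) (B : ∀ i, L i → ℝ) (x : ∀ i, Place QQ (L i)) : Prop :=
  ∀ (i : ι) (f : L i) (c : QQ), (x i).At f c → w c ≤ B i f

variable {F : Type} [Field F] [Algebra QQ F]

/-- sizes on the image of a morphism -/
theorem sz_pull (w : QQ → ℝ) {Φ : (Bool → Place QQ F) → ∀ i, Place QQ (L i)}
    (hΦ : IsMor (L := fun _ : Bool => F) Φ) (B : F → ℝ) :
    ∃ B' : ∀ i, L i → ℝ, ∀ x : Bool → Place QQ F,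
      SzLe (L := fun _ : Bool => F) w (fun _ => B) x → SzLe w B' (Φ x) := by
  have key : ∀ (i : ι) (f : L i), ∃ b : ℝ, ∀ x : Bool → Place QQ F,
      SzLe (L := fun _ : Bool => F) w (fun _ => B) x →
      ∀ c : QQ, (Φ x i).At f c → w c ≤ b := by
    intro i f
    rcases hΦ i with ⟨p, hp⟩ | ⟨c, e, he⟩
    · by_cases hf : ∃ c : QQ, p.At f c
      · obtain ⟨c₀, hc₀⟩ := hf
        refine ⟨w c₀, fun x _ c hc => ?_⟩
        rw [hp] at hc
        rw [hc.unique hc₀]
      · refine ⟨0, fun x _ c hc => ?_⟩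
        rw [hp] at hc
        exact absurd ⟨c, hc⟩ hf
    · refine ⟨B (e f), fun x hx d hd => hx c (e f) d ?_⟩
      unfold Place.At at hd ⊢
      rw [Place.vanishes_iff_or] at hd ⊢
      have h1 : ∀ g : L i, g ∈ (Φ x i).ring ↔ e g ∈ (x c).ring := by
        intro g
        rw [he, ValuationSubring.mem_comap]
        rfl
      rw [h1, map_inv₀, map_sub, AlgHom.commutes] at hd
      rcases hd with hd | hd
      · left
        have h2 := congrArg e hd
        rwa [map_sub, AlgHom.commutes, map_zero] at h2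
      · exact Or.inr hd
  choose b hb using key
  exact ⟨b, fun x hx i f c hc => hb i f x hx c hc⟩

end Size

section Two

variable {F : Type} [Field F] [Algebra QQ F] {ι : Type} {L : ι → Type} [∀ i, Field (L i)]
  [∀ i, Algebra QQ (L i)]

/-- the number `t` is not a critical value of the function `φ` -/
def NonCrit (φ : F) (t : QQ) : Prop :=
  ∀ v : Place QQ F, v.At φ t → IsUnif v (φ - algebraMap QQ F t)

/-- the image of `(P - O) × (P - O)`, for one field `K` -/
theorem two_data' [Finite ι] (hL : ∀ i, IsCurve QQ (L i)) (hF : IsCurve QQ F) {P O : Place QQ F}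
    (a : ∀ i, Place QQ (L i)) {i j : ι} (hij : i ≠ j) {f : L i →ₐ[QQ] F}
    {f' : L j →ₐ[QQ] F} {g : Place QQ F → Place QQ (L i)} {g' : Place QQ F → Place QQ (L j)}
    (hg : ∀ v, (g v).ring = v.ring.comap (f : L i →+* F))
    (hg' : ∀ v, (g' v).ring = v.ring.comap (f' : L j →+* F)) :
    ∃ S' : (∀ i, Finset (L i)) → Finset F, ∀ (φ y z u : F) (r : Place QQ F)
      (n1 n2 m e1 e2 e3 : ℕ), Fib φ y z u P O r n1 n2 m e1 e2 e3 →
      ∀ (K : IntermediateField ℚ QQ) (E : Set (∀ i, Place QQ (L i))) (S : ∀ i, Finset (L i)),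
        (∃ t : QQ, NonCrit φ t ∧ (∀ x : Place QQ F, x.At φ t → (two a i j g g' fun _ => x) ∈ E) ∧
          ∀ x x' : Place QQ F, x.At φ t → x'.At φ t → ∃ (ρ : Gam) (r : F ≃+* F),
            (∀ c ∈ K, ρ c = c) ∧ Fixes (S' S) ρ r ∧ Moves r x x') →
        ∃ l : Multiset ((∀ i, Place QQ (L i)) →₀ ℤ), l.card ≤ (n1 + n2) * (n1 + n2) ∧
          (∀ w ∈ l, IsNew K S E w) ∧
          l.sum - (2 * (n1 * n2)) • (square P O).mapDomain (two a i j g g') ∈ RatEq L := by
  have hΦ := two_isMor a hij hg hg'
  choose S' hS' using fun S : ∀ i, Finset (L i) => auto_pull hL hΦ S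
  refine ⟨S', fun φ y z u r n1 n2 m e1 e2 e3 h K E S ⟨t, ht1, ht2, ht3⟩ => ?_⟩
  have htr := h.transc hF
  obtain ⟨s, hmem⟩ : ∃ s : Finset (Place QQ F), ∀ v, v ∈ s ↔ v.At φ t :=
    ⟨(finite_at hF htr t).toFinset, fun v => by simp⟩
  have hfib : IsFibre φ P O n1 n2 t s :=
    { curve := hF
      transc := htr
      ne := h.ne
      pole_p := h.ordp
      pole_q := h.ordq
      n1_pos := h.n1_pos
      n2_pos := h.n2_pos
      reg := h.reg
      mem := hmem
      unif := ht1 }
  refine ⟨(s ×ˢ s).val.map fun z => (square z.1 z.2).mapDomain (two a i j g g'), ?_, ?_, ?_⟩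
  · rw [Multiset.card_map, Finset.card_val, Finset.card_product, hfib.card]
  · intro w hw
    obtain ⟨⟨x, x'⟩, hx, rfl⟩ := Multiset.mem_map.1 hw
    rw [Finset.mem_val, Finset.mem_product] at hx
    obtain ⟨ρ, r, hρ, hfix, hmov⟩ := ht3 x x' ((hmem x).1 hx.1) ((hmem x').1 hx.2)
    obtain ⟨e, he, hm⟩ := hS' S ρ r hfix
    obtain ⟨y', hy'⟩ : ∃ y' : ∀ l, Place QQ (L l), ∀ l,
        Moves (e l) (two a i j g g' (fun _ => x) l) (y' l) :=
      ⟨fun l => act (e l) (he l).2 (two a i j g g' (fun _ => x) l), fun l => moves_act _ _⟩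
    have hi : y' i = g x' := by
      refine moves_right (hy' i) ?_
      have h1 := hm i ⟨false, f, fun b => by rw [two_fst a hij]; exact hg _⟩ x x' hmov
      rwa [two_fst a hij (b := fun _ => x')] at h1
    have hj : y' j = g' x' := by
      refine moves_right (hy' j) ?_
      have h1 := hm j ⟨true, f', fun b => by rw [two_snd]; exact hg' _⟩ x x' hmov
      rwa [two_snd (b := fun _ => x')] at h1
    refine ⟨ρ, e, two a i j g g' fun _ => x, y', i, j, hρ, he, hy', hij,
      ht2 x ((hmem x).1 hx.1), ?_, Or.inl ?_⟩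
    · rw [hi, hj, two_corner a hij]
      exact ht2 x' ((hmem x').1 hx.2)
    · exact two_square a hij hi hj
  · have h1 : ((s ×ˢ s).val.map fun z => (square z.1 z.2).mapDomain (two a i j g g')).sum =
        (2 • zt s).mapDomain (two a i j g g') := by
      rw [zt_square, ← Finset.sum_product']
      exact (Finsupp.mapDomain_finsetSum).symm
    have h2 := map_mem (two a i j g g') hΦ
      (AddSubgroup.nsmul_mem (RatEq fun _ : Bool => F) hfib.zt_ratEq 2)
    have h3 : (2 • (zt s - (n1 * n2) • square P O)).mapDomain (two a i j g g') =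
        (2 • zt s).mapDomain (two a i j g g') -
          (2 * (n1 * n2)) • (square P O).mapDomain (two a i j g g') := by
      have e : ∀ w : (Bool → Place QQ F) →₀ ℤ, w.mapDomain (two a i j g g') =
        Finsupp.mapDomain.addMonoidHom (M := ℤ) (two a i j g g') w := fun _ => rfl
      rw [e, e, e, ← map_nsmul, ← map_sub, smul_sub, smul_smul]
    rw [h1, ← h3]
    exact h2

end Two

section Main

variable {ι : Type} {L : ι → Type} [∀ i, Field (L i)] [∀ i, Algebra QQ (L i)]

theorem symbol_model [Finite ι] (hL : ∀ i, IsCurve QQ (L i)) {i j : ι} (hij : i ≠ j)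
    (a : ∀ l, Place QQ (L l)) {p : Place QQ (L i)} {q : Place QQ (L j)} (hp : a i ≠ p)
    (hq : a j ≠ q) :
    ∃ (T : Finset OmX) (P O : Place QQ (Mod T)) (G : Place QQ (Mod T) → ∀ i, Place QQ (L i))
      (S' : (∀ i, Finset (L i)) → Finset (Mod T)), IsCurve QQ (Mod T) ∧ P ≠ O ∧
      (∀ (w : QQ → ℝ) (B₀ : Mod T → ℝ), ∃ B : ∀ i, L i → ℝ, ∀ x : Place QQ (Mod T),
        (∀ (f : Mod T) (c : QQ), x.At f c → w c ≤ B₀ f) → SzLe w B (G x)) ∧
      ∀ (φ y z u : Mod T) (r : Place QQ (Mod T)) (n1 n2 m e1 e2 e3 : ℕ),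
        Fib φ y z u P O r n1 n2 m e1 e2 e3 →
        ∀ (K : IntermediateField ℚ QQ) (E : Set (∀ i, Place QQ (L i)))
          (S : ∀ i, Finset (L i)),
          (∃ t : QQ, NonCrit φ t ∧ (∀ x : Place QQ (Mod T), x.At φ t → G x ∈ E) ∧
            ∀ x x' : Place QQ (Mod T), x.At φ t → x'.At φ t →
              ∃ (ρ : Gam) (r : Mod T ≃+* Mod T), (∀ c ∈ K, ρ c = c) ∧ Fixes (S' S) ρ r ∧
                Moves r x x') →
          ∃ l : Multiset ((∀ i, Place QQ (L i)) →₀ ℤ), l.card ≤ (n1 + n2) * (n1 + n2) ∧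
            (∀ w ∈ l, IsNew K S E w) ∧
            l.sum - (2 * (n1 * n2)) • symb a i j p q ∈ RatEq L := by
  let s : Bool → ι := fun b => cond b j i
  let A : ∀ b, Place QQ (L (s b)) := fun b => a (s b)
  let B : ∀ b, Place QQ (L (s b)) := fun b => match b with
    | true => q
    | false => p
  obtain ⟨F, _, _, F₀, P₀, O₀, f₀, hF₀, hgen, hact, hP₀, hO₀⟩ := joint (fun b => L (s b))
    (fun b => hL (s b)) A B (by rintro (_ | _); exacts [hp, hq])
  obtain ⟨T, ⟨e₀⟩⟩ := exists_Mod hF₀
  have hF : IsCurve QQ (Mod T) := isCurve_equiv e₀ hF₀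
  let f : ∀ b : Bool, L (s b) →ₐ[QQ] Mod T := fun b => (e₀ : F →ₐ[QQ] Mod T).comp (f₀ b)
  let P : Place QQ (Mod T) := P₀.map e₀
  let O : Place QQ (Mod T) := O₀.map e₀
  have hmap : ∀ (Q : Place QQ F) (b : Bool),
      (Q.map e₀).ring.comap (f b : L (s b) →+* Mod T) =
        Q.ring.comap (f₀ b : L (s b) →+* F) := by
    intro Q b
    ext x
    rw [ValuationSubring.mem_comap, ValuationSubring.mem_comap, Place.mem_map]
    have h1 : e₀.symm ((f b : L (s b) →+* Mod T) x) = (f₀ b : L (s b) →+* F) x :=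
      e₀.symm_apply_apply _
    rw [h1]
  have hP : ∀ b, P.ring.comap (f b : L (s b) →+* Mod T) = (A b).ring := fun b =>
    (hmap P₀ b).trans (hP₀ b)
  have hO : ∀ b, O.ring.comap (f b : L (s b) →+* Mod T) = (B b).ring := fun b =>
    (hmap O₀ b).trans (hO₀ b)
  have hPO : P ≠ O := by
    intro hPO
    apply hp
    apply Place.ext
    have h1 := hP false
    have h2 := hO false
    rw [hPO, h2] at h1
    exact h1.symm
  have hpull : ∀ (b : Bool) (v : Place QQ (Mod T)), ∃ w : Place QQ (L (s b)),
      v.ring.comap (f b : L (s b) →+* Mod T) = w.ring := fun b v =>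
    exists_pull (hL (s b)) hF (RingEquiv.refl QQ) (f b : L (s b) →+* Mod T)
      (fun c => (f b).commutes c) v
  choose g hg using hpull
  have hgP0 : g false P = a i := Place.ext ((hg false P).symm.trans (hP false))
  have hgP1 : g true P = a j := Place.ext ((hg true P).symm.trans (hP true))
  have hgO0 : g false O = p := Place.ext ((hg false O).symm.trans (hO false))
  have hgO1 : g true O = q := Place.ext ((hg true O).symm.trans (hO true))
  have h1 : two a i j (g false) (g true) (pair (L := fun _ => Mod T) P P) = a := by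
    simp only [two, pair, hgP0, hgP1, Function.update_eq_self]
  have h2 : two a i j (g false) (g true) (pair (L := fun _ => Mod T) P O) =
      Function.update a j q := by
    simp only [two, pair, hgP0, hgO1, Function.update_eq_self]
  have h3 : two a i j (g false) (g true) (pair (L := fun _ => Mod T) O P) =
      Function.update a i p := by
    simp only [two, pair, hgO0, hgP1]
    rw [Function.update_comm hij, Function.update_eq_self]
  have h4 : two a i j (g false) (g true) (pair (L := fun _ => Mod T) O O) =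
      Function.update (Function.update a i p) j q := by
    simp only [two, pair, hgO0, hgO1]
  have h5 : symb a i j p q = (square P O).mapDomain (two a i j (g false) (g true)) := by
    rw [symb, map_square, h1, h2, h3, h4]
    abel
  obtain ⟨S', hS'⟩ := two_data' hL hF (P := P) (O := O) a hij (f := f false) (f' := f true)
    (g := g false) (g' := g true) (fun v => (hg false v).symm) (fun v => (hg true v).symm)
  refine ⟨T, P, O, fun x => two a i j (g false) (g true) fun _ => x, S', hF, hPO, ?_, ?_⟩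
  · intro w B₀
    obtain ⟨B', hB'⟩ := sz_pull w (two_isMor a hij (f := f false) (f' := f true)
      (fun v => (hg false v).symm) (fun v => (hg true v).symm)) B₀
    exact ⟨B', fun x hx => hB' (fun _ => x) fun _ f c hc => hx f c hc⟩
  · intro φ y z u r n1 n2 m e1 e2 e3 h
    rw [h5]
    exact hS' φ y z u r n1 n2 m e1 e2 e3 h

end Main

end Pool.Agent.Clo
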