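import Pool.Agent.Clo.SigG
import Mathlib.Data.Nat.ChineseRemainder

/-!
# Prescribing the action of one automorphism, one step

A state is an element `g` of a group `G` which acts on `Ω` with finite orbits, a finite stable
subset `C` of `Ω`, and a number `s` with prime factors in `P` such that `g ^ s` fixes `C`. Let `H`
be the pointwise stabilizer of a finite stable set `D ⊇ C`, which acts on a set `Φ` with `N`
elements through a group which contains the alternating group; `N` is prime, `N ≥ 5`, `2` and `N`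
are not in `P`. Then `g` can be replaced by `g'`, equal to `g` on `C`, in such a way that a power
`g' ^ s₀` is in `H` and acts on `Φ` as a cycle of length `N`, `s₀` prime to `N`.
-/

set_option autoImplicit false

noncomputable section

namespace Pool.Agent.Clo

section Arith

private theorem split_part (P : Finset ℕ) (w : ℕ) (hw : 0 < w) :
    ∃ a b : ℕ, w = a * b ∧ 0 < a ∧ 0 < b ∧ a.primeFactors ⊆ P ∧
      ∀ p ∈ P, p.Prime → ¬ p ∣ b := by
  induction w using Nat.strong_induction_on with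
  | _ w ih =>
    by_cases h : ∃ p ∈ P, p.Prime ∧ p ∣ w
    · obtain ⟨p, hp, hpp, w', rfl⟩ := h
      have hw' : 0 < w' := Nat.pos_of_mul_pos_left hw
      obtain ⟨a, b, h1, h2, h3, h4, h5⟩ := ih w' (by
        have := hpp.two_le
        nlinarith) hw'
      refine ⟨p * a, b, by rw [h1, mul_assoc], Nat.mul_pos hpp.pos h2, h3, ?_, h5⟩
      rw [Nat.primeFactors_mul hpp.ne_zero h2.ne', hpp.primeFactors]
      exact Finset.union_subset (Finset.singleton_subset_iff.2 hp) h4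
    · push Not at h
      exact ⟨1, w, by rw [one_mul], one_pos, hw, by simp, fun p hp hpp => h p hp hpp⟩

private theorem exists_exp {P : Finset ℕ} {s w : ℕ} (hs : 0 < s) (hw : 0 < w)
    (hsP : s.primeFactors ⊆ P) : ∃ E a : ℕ, 0 < a ∧ (∃ q, E = 1 + s * q) ∧ w ∣ E * a ∧
      a.primeFactors ⊆ P := by
  obtain ⟨a, b, h1, h2, h3, h4, h5⟩ := split_part P w hw
  have hco : s.Coprime b := by
    refine Nat.coprime_of_dvd fun p hp hps hpb => ?_
    exact h5 p (hsP (Nat.mem_primeFactors.2 ⟨hp, hps, hs.ne'⟩)) hp hpb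
  obtain ⟨E, hE1, hE2⟩ := Nat.chineseRemainder hco 1 0
  have hE3 : E + s * b ≡ 1 [MOD s] := by
    have h6 : E + s * b ≡ E + 0 [MOD s] :=
      Nat.ModEq.add_left E ((Nat.modEq_zero_iff_dvd).2 (dvd_mul_right s b))
    exact h6.trans hE1
  have hE4 : b ∣ E + s * b := dvd_add ((Nat.modEq_zero_iff_dvd).1 hE2) (dvd_mul_left b s)
  have hE5 : 1 ≤ E + s * b := by
    have := Nat.mul_pos hs h3
    omega
  obtain ⟨q, hq⟩ := (Nat.modEq_iff_dvd' hE5).1 hE3.symm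
  refine ⟨E + s * b, a, h2, ⟨q, by omega⟩, ?_, h4⟩
  rw [h1, mul_comm a b]
  exact Nat.mul_dvd_mul_right hE4 a

end Arith

section Step

variable {G Ω : Type*} [Group G] [MulAction G Ω]

private theorem fix_pow_order (g : G) (D : Finset Ω) (hD : ∀ c ∈ D, g • c ∈ D) :
    ∃ w : ℕ, 0 < w ∧ ∀ c ∈ D, g ^ w • c = c := by
  have hinj : Function.Injective (fun c : D => (⟨g • (c : Ω), hD c c.2⟩ : D)) := by
    intro c c' h
    exact Subtype.ext (MulAction.injective g (congrArg Subtype.val h))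
  let e : Equiv.Perm D := Equiv.ofBijective _ (Finite.injective_iff_bijective.1 hinj)
  have he : ∀ (n : ℕ) (c : D), ((e ^ n) c : Ω) = g ^ n • (c : Ω) := by
    intro n
    induction n with
    | zero =>
      intro c
      rw [pow_zero, pow_zero, one_smul]
      rfl
    | succ n ih =>
      intro c
      rw [pow_succ', pow_succ', mul_smul, ← ih c]
      rfl
  refine ⟨orderOf e, orderOf_pos e, fun c hc => ?_⟩
  have h1 := he (orderOf e) ⟨c, hc⟩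
  rw [pow_orderOf_eq_one] at h1
  exact h1.symm

/-- a power of `g` with the same action on `C`, and of finite order with prime factors in `P` on
`D` -/
private theorem adjust {g : G} {s : ℕ} (hs : 0 < s) {P : Finset ℕ}
    (hsP : s.primeFactors ⊆ P) (D : Finset Ω) (hD : ∀ c ∈ D, g • c ∈ D) :
    ∃ E a : ℕ, 0 < a ∧ a.primeFactors ⊆ P ∧ (∃ q, E = 1 + s * q) ∧
      ∀ c ∈ D, (g ^ E) ^ a • c = c := by
  obtain ⟨w, hw, hwD⟩ := fix_pow_order g D hD
  obtain ⟨E, a, h1, h2, ⟨m, hm⟩, h4⟩ := exists_exp hs hw hsP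
  refine ⟨E, a, h1, h4, h2, fun c hc => ?_⟩
  rw [← pow_mul, hm, pow_mul]
  have h5 : g ^ w ∈ MulAction.stabilizer G c := hwD c hc
  exact pow_mem h5 m

private theorem smul_exp {g : G} {c : Ω} {s E : ℕ} (h : g ^ s • c = c) (hE : ∃ q, E = 1 + s * q) :
    g ^ E • c = g • c := by
  obtain ⟨q, rfl⟩ := hE
  rw [pow_add, pow_one, mul_smul, pow_mul]
  have h1 : (g ^ s) ^ q ∈ MulAction.stabilizer G c :=
    pow_mem (show g ^ s ∈ MulAction.stabilizer G c from h) q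
  rw [show (g ^ s) ^ q • c = c from h1]

/-- the pointwise stabilizer of a stable set is normal -/
private theorem normal_fix {H : Subgroup G} {D : Set Ω} (hH : ∀ g : G, g ∈ H ↔ ∀ c ∈ D, g • c = c)
    (hD : ∀ (g : G), ∀ c ∈ D, g • c ∈ D) : H.Normal := by
  constructor
  intro h hh g
  rw [hH] at hh ⊢
  intro c hc
  rw [mul_smul, mul_smul, hh _ (hD g⁻¹ c hc), smul_inv_smul]

/-- elements with the same action on a stable set have powers with the same action -/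
private theorem pow_same {g g' : G} {D : Set Ω} (hD : ∀ (g : G), ∀ c ∈ D, g • c ∈ D)
    (h : ∀ c ∈ D, g' • c = g • c) (n : ℕ) : ∀ c ∈ D, g' ^ n • c = g ^ n • c := by
  induction n with
  | zero =>
    intro c _
    rw [pow_zero, pow_zero]
  | succ n ih =>
    intro c hc
    rw [pow_succ, pow_succ, mul_smul, mul_smul, h c hc, ih _ (hD g c hc)]

theorem step_abs (hclos : ∀ X : Finset Ω, ∃ D : Finset Ω, X ⊆ D ∧ ∀ (g : G), ∀ c ∈ D, g • c ∈ D)
    {g : G} {C : Finset Ω} {s : ℕ} (hs : 0 < s) {P : Finset ℕ} (hsP : s.primeFactors ⊆ P)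
    (hC : ∀ c ∈ C, g ^ s • c = c) (hP2 : 2 ∉ P) {Φ : Type*} [Fintype Φ] [DecidableEq Φ]
    (hN : (Fintype.card Φ).Prime) (h5 : 5 ≤ Fintype.card Φ) (hPN : Fintype.card Φ ∉ P)
    {D : Finset Ω} (hCD : C ⊆ D) (hD : ∀ (g : G), ∀ c ∈ D, g • c ∈ D) {H : Subgroup G}
    (hH : ∀ g : G, g ∈ H ↔ ∀ c ∈ D, g • c = c) (a : H →* Equiv.Perm Φ) (Y : Finset Ω)
    (hY : ∀ h : H, (∀ c ∈ Y, (h : G) • c = c) → a h = 1)
    (hA : alternatingGroup Φ ≤ a.range) (X : Finset Ω) :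
    ∃ (g' : G) (C' : Finset Ω) (s' s₀ : ℕ), 0 < s' ∧ s'.primeFactors ⊆ insert (Fintype.card Φ) P ∧
      (∀ (g : G), ∀ c ∈ C', g • c ∈ C') ∧ (∀ c ∈ C', g' ^ s' • c = c) ∧ X ⊆ C' ∧ C ⊆ C' ∧
      (∀ c ∈ C, g' • c = g • c) ∧ ∀ g'' : G, (∀ c ∈ C', g'' • c = g' • c) →
        ∀ k : ℕ, ¬ Fintype.card Φ ∣ k → ∃ hm : g'' ^ (s₀ * k) ∈ H,
          orderOf (a ⟨g'' ^ (s₀ * k), hm⟩) = Fintype.card Φ := by
  classical
  have hn : H.Normal := normal_fix (D := (D : Set Ω)) hH hD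
  -- finite order on `D`
  obtain ⟨E, s₁, hs₁, hs₁P, hE, hE1⟩ := adjust (g := g) hs hsP D (hD g)
  obtain ⟨g₁, hg₁⟩ : ∃ g₁ : G, g₁ = g ^ E := ⟨_, rfl⟩
  rw [← hg₁] at hE1
  have hg₁C : ∀ c ∈ C, g₁ • c = g • c := by
    intro c hc
    rw [hg₁]
    exact smul_exp (hC c hc) hE
  have hodd : Odd s₁ := by
    rw [← Nat.not_even_iff_odd, even_iff_two_dvd]
    intro h2
    exact hP2 (hs₁P (Nat.mem_primeFactors.2 ⟨Nat.prime_two, h2, hs₁.ne'⟩))
  have hNs : ¬ Fintype.card Φ ∣ s₁ := fun h2 =>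
    hPN (hs₁P (Nat.mem_primeFactors.2 ⟨hN, h2, hs₁.ne'⟩))
  -- even permutations
  obtain ⟨g₂, hg₂⟩ : ∃ g₂ : G, g₂ = g₁ ^ (1 + s₁) := ⟨_, rfl⟩
  have hg₂D : ∀ c ∈ D, g₂ • c = g₁ • c := by
    intro c hc
    rw [hg₂]
    exact smul_exp (hE1 c hc) ⟨1, by rw [mul_one]⟩
  have hm₁ : g₁ ^ s₁ ∈ H := (hH _).2 hE1
  have hm₂ : g₂ ^ s₁ ∈ H := by
    rw [hg₂, ← pow_mul, mul_comm, pow_mul]
    exact pow_mem hm₁ _
  have hev : a ⟨g₂ ^ s₁, hm₂⟩ ∈ alternatingGroup Φ := by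
    have h1 : (⟨g₂ ^ s₁, hm₂⟩ : H) = ⟨g₁ ^ s₁, hm₁⟩ ^ (1 + s₁) := by
      apply Subtype.ext
      show g₂ ^ s₁ = (g₁ ^ s₁) ^ (1 + s₁)
      rw [hg₂, ← pow_mul, ← pow_mul, mul_comm]
    have h2 : Even (1 + s₁) := by
      rw [add_comm]
      exact hodd.add_one
    obtain ⟨j, hj⟩ := h2
    rw [h1, map_pow, hj, ← two_mul, pow_mul', Equiv.Perm.mem_alternatingGroup, map_pow, sq,
      Int.units_mul_self]
  obtain ⟨h, hm₃, ho⟩ := long_cycle hN h5 hA hodd hNs hm₂ hev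
  obtain ⟨g₃, hg₃⟩ : ∃ g₃ : G, g₃ = g₂ * h := ⟨_, rfl⟩
  obtain ⟨c₃, hc₃⟩ : ∃ c₃ : H, (c₃ : G) = g₃ ^ s₁ ∧ orderOf (a c₃) = Fintype.card Φ :=
    ⟨⟨(g₂ * h) ^ s₁, hm₃⟩, by rw [hg₃], ho⟩
  have hg₃D : ∀ c ∈ D, g₃ • c = g₂ • c := by
    intro c hc
    rw [hg₃, mul_smul, (hH _).1 h.2 c hc]
  -- finite order on a larger set
  obtain ⟨D', hD'1, hD'⟩ := hclos (D ∪ Y ∪ X)
  have hprimes : (s₁ * Fintype.card Φ).primeFactors ⊆ insert (Fintype.card Φ) P := by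
    rw [Nat.primeFactors_mul hs₁.ne' hN.ne_zero, hN.primeFactors]
    intro p hp
    rcases Finset.mem_union.1 hp with hp | hp
    · exact Finset.mem_insert_of_mem (hs₁P hp)
    · rw [Finset.mem_singleton.1 hp]
      exact Finset.mem_insert_self _ _
  obtain ⟨E', s', hs', hs'P, hE', hE'1⟩ := adjust (g := g₃) (Nat.mul_pos hs₁ hN.pos) hprimes D'
    (hD' g₃)
  obtain ⟨g₄, hg₄⟩ : ∃ g₄ : G, g₄ = g₃ ^ E' := ⟨_, rfl⟩
  rw [← hg₄] at hE'1
  have hg₃m : g₃ ^ s₁ ∈ H := by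
    rw [← hc₃.1]
    exact c₃.2
  obtain ⟨q, hq⟩ := hE'
  have hg₄D : ∀ c ∈ D, g₄ • c = g₃ • c := by
    intro c hc
    rw [hg₄]
    exact smul_exp ((hH _).1 hg₃m c hc) ⟨Fintype.card Φ * q, by rw [hq, mul_assoc]⟩
  have hg₄C : ∀ c ∈ C, g₄ • c = g • c := by
    intro c hc
    rw [hg₄D c (hCD hc), hg₃D c (hCD hc), hg₂D c (hCD hc), hg₁C c hc]
  have hsub : D ⊆ D' := (Finset.subset_union_left.trans Finset.subset_union_left).trans hD'1
  have hsubY : Y ⊆ D' := (Finset.subset_union_right.trans Finset.subset_union_left).trans hD'1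
  have hsubX : X ⊆ D' := Finset.subset_union_right.trans hD'1
  have hc₄ : g₄ ^ s₁ = ((c₃ ^ E' : H) : G) := by
    rw [hg₄, ← pow_mul, mul_comm, pow_mul, ← hc₃.1]
    rfl
  have hac₄ : a (c₃ ^ E') = a c₃ := by
    rw [map_pow, hq, pow_add, pow_one, mul_comm s₁, mul_assoc, pow_mul, ← hc₃.2,
      pow_orderOf_eq_one, one_pow, mul_one]
  refine ⟨g₄, D', s', s₁, hs', hs'P, hD', hE'1, hsubX, hCD.trans hsub, hg₄C, ?_⟩
  intro g'' hg'' k hk
  obtain ⟨h', hh'⟩ : ∃ h' : G, h' = (g₄ ^ (s₁ * k))⁻¹ * g'' ^ (s₁ * k) := ⟨_, rfl⟩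
  have hfix : ∀ c ∈ D', h' • c = c := by
    intro c hc
    rw [hh', mul_smul, pow_same (D := (D' : Set Ω)) hD' hg'' (s₁ * k) c hc, inv_smul_smul]
  have hh'H : h' ∈ H := (hH _).2 fun c hc => hfix c (hsub hc)
  have hval : g'' ^ (s₁ * k) = (((c₃ ^ E') ^ k * ⟨h', hh'H⟩ : H) : G) := by
    rw [Subgroup.coe_mul, Subgroup.coe_pow, ← hc₄, ← pow_mul]
    show g'' ^ (s₁ * k) = g₄ ^ (s₁ * k) * h'
    rw [hh', mul_inv_cancel_left]
  have hmem : g'' ^ (s₁ * k) ∈ H := by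
    rw [hval]
    exact Subtype.mem _
  refine ⟨hmem, ?_⟩
  have h1 : (⟨g'' ^ (s₁ * k), hmem⟩ : H) = (c₃ ^ E') ^ k * ⟨h', hh'H⟩ := Subtype.ext hval
  have h2 : a ⟨h', hh'H⟩ = 1 := hY _ fun c hc => hfix c (hsubY hc)
  rw [h1, map_mul, h2, mul_one, map_pow, hac₄]
  rw [orderOf_eq_prime_iff (hp := ⟨hN⟩)]
  constructor
  · rw [← pow_mul, mul_comm, pow_mul, ← hc₃.2, pow_orderOf_eq_one, one_pow]
  · intro h3
    apply hk
    rw [← hc₃.2]
    exact orderOf_dvd_of_pow_eq_one h3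

end Step

end Pool.Agent.Clo
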