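import Pool.Agent.Clo.SigNew2
import Pool.Agent.Clo.SigLim
import Pool.Agent.Clo.SigData
import Pool.Agent.Clo.CountPlace
import Pool.Agent.Clo.DegCmp
import Pool.Agent.Clo.MVal

/-!
# One automorphism for all curves

For every curve (more precisely, for every model of `SigModel.lean`), all two points `P`, `O` of
it, every finite set of functions, every exponent `k > 0` and both kinds of sizes (heights and
degrees) there is a task: some fibre of the function `φ` with poles at `P` and `O` has to be one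
orbit of a power of `σ ^ k`. There are only countably many tasks, so one automorphism `σ` satisfies
all of them.
-/

set_option autoImplicit false

noncomputable section

namespace Pool.Agent.Clo

open Pool.Agent.ZCyc Pool.Agent.Dess Pool.Agent.Dess4
open scoped Classical

section Size

/-- the size of an algebraic number: the height or the degree -/
def siz : Bool → QQ → ℝ
  | true => fun c => NumberField.absLogHeight₁ c
  | false => fun c => ((minpoly ℚ c).natDegree : ℝ)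

/-- the property of the parameters: the height is at most one, or the number is rational -/
def Par : Bool → QQ → Prop
  | true => fun t => NumberField.absLogHeight₁ t ≤ 1
  | false => fun t => ∃ x : ℚ, t = algebraMap ℚ QQ x

/-- the property of the field `K1` -/
def Cl : Bool → IntermediateField ℚ QQ → Prop
  | true => Mild
  | false => ManyUnr

theorem Cl.mild {b : Bool} {K : IntermediateField ℚ QQ} (h : Cl b K) : Mild K := by
  cases b
  · exact mild_of_manyUnr h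
  · exact h

/-- The class of the subfields of the composita of a field `K1` with the property `Cl b` and a
normal extension `K2` without alternating groups of degree at least `n`. -/
def TameB (n : ℕ) (b : Bool) (K : IntermediateField ℚ QQ) : Prop :=
  ∃ K1 K2 : IntermediateField ℚ QQ, Cl b K1 ∧ NoAlt n K2 ∧ K ≤ K1 ⊔ K2

variable {F : Type} [Field F] [Algebra QQ F]

theorem size_compare (hF : IsCurve QQ F) {φ : F} (hφ : Transcendental QQ φ) (b : Bool) (f : F) :
    ∃ C : ℝ, ∀ (x : Place QQ F) (t c : QQ), Par b t → x.At φ t → x.At f c → siz b c ≤ C := by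
  cases b
  · obtain ⟨D, hD⟩ := degree_compare hF f hφ
    exact ⟨D, fun x t c ht hx hc => Nat.cast_le.2 (hD x t c ht hx hc)⟩
  · obtain ⟨C, hC⟩ := height_compare hF (f := f) hφ 1
    exact ⟨C, fun x t c ht hx hc => hC x c t hc hx ht⟩

end Size

section Step

variable {F : Type} [Field F] [Algebra QQ F]

/-- There is a fibre of `φ` over a number `t` with the property `T` which is not a critical value,
such that any two of its points are conjugate under a power of `σ ^ k` which fixes the functions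
in `S`. -/
def OrbitsT (T : QQ → Prop) (φ : F) (k : ℕ) (S : Finset F) (σ : Gam) : Prop :=
  ∃ t, NonCrit φ t ∧ T t ∧ ∀ x x' : Place QQ F, x.At φ t → x'.At φ t →
    ∃ (j : ℕ) (r : F ≃+* F), Fixes S (σ ^ (k * j)) r ∧ Moves r x x'

theorem sig_stepT {T : QQ → Prop} {φ : F} {K : IntermediateField ℚ QQ} {N k : ℕ} (hN : N.Prime)
    (h5 : 5 ≤ N) (hk : ¬ N ∣ k) (S : Finset F) (Bad : Finset QQ)
    (hBad : ∀ t, t ∉ Bad → NonCrit φ t)
    (hdata : ∀ X : Finset QQ, ∃ (t : QQ) (S' : Finset F) (D : Finset QQ)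
      (s : Finset (Place QQ F)) (H : Subgroup K.fixingSubgroup) (a : H →* Equiv.Perm s)
      (Y : Finset QQ), t ∉ Bad ∧ T t ∧ S ⊆ S' ∧ X ⊆ D ∧
        (∀ ρ : K.fixingSubgroup, ∀ c ∈ D, (ρ : Gam) c ∈ D) ∧
        (∀ ρ : K.fixingSubgroup, ρ ∈ H ↔ ∀ c ∈ D, (ρ : Gam) c = c) ∧
        (∀ v, v ∈ s ↔ v.At φ t) ∧ s.card = N ∧
        (∀ (ρ : H) (x : s), ∃ r : F ≃+* F, Fixes S' ((ρ : K.fixingSubgroup) : Gam) r ∧
          Moves r x.1 (a ρ x).1) ∧
        (∀ ρ : H, (∀ c ∈ Y, ((ρ : K.fixingSubgroup) : Gam) c = c) → a ρ = 1) ∧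
        alternatingGroup s ≤ a.range) : CanStep K N (OrbitsT T φ k S) := by
  intro P hP2 hPN g C s hs hsP hC
  obtain ⟨t, S', D, f, H, a, Y, ht, hht, hS, hCD, hD, hH, hf, hcard, ha, hY, hA⟩ := hdata C
  have hcard' : Fintype.card f = N := by rw [Fintype.card_coe, hcard]
  subst hcard'
  have hclos : ∀ X : Finset QQ, ∃ D : Finset QQ, X ⊆ D ∧
      ∀ (g : K.fixingSubgroup), ∀ c ∈ D, g • c ∈ D := by
    intro X
    obtain ⟨D, h1, h2⟩ := exists_stable X
    exact ⟨D, h1, fun g c hc => h2 g c hc⟩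
  obtain ⟨g', C', s', s₀, hs', hs'P, -, hC', -, hCC', hgg', hfin⟩ :=
    step_abs (G := K.fixingSubgroup) (Ω := QQ) hclos hs hsP hC hP2 hN h5 hPN hCD hD hH a Y hY hA
      ∅
  refine ⟨g', C', s', hs', hs'P, hC', hCC', hgg', fun g'' hg'' => ?_⟩
  obtain ⟨hm, ho⟩ := hfin g'' hg'' k hk
  refine ⟨t, hBad t ht, hht, fun x x' hx hx' => ?_⟩
  have hcyc := Equiv.Perm.isCycle_of_prime_order'' hN ho
  have hsupp : ∀ x, (a ⟨g'' ^ (s₀ * k), hm⟩) x ≠ x := by
    intro x
    have h3 : (a ⟨g'' ^ (s₀ * k), hm⟩).support = Finset.univ :=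
      Finset.eq_univ_of_card _ (hcyc.orderOf ▸ ho)
    exact Equiv.Perm.mem_support.1 (h3 ▸ Finset.mem_univ x)
  obtain ⟨m, hm'⟩ := hcyc.exists_pow_eq (hsupp ⟨x, (hf x).2 hx⟩) (hsupp ⟨x', (hf x').2 hx'⟩)
  rw [← map_pow] at hm'
  obtain ⟨r, hr, hmv⟩ := ha (⟨g'' ^ (s₀ * k), hm⟩ ^ m) ⟨x, (hf x).2 hx⟩
  rw [hm'] at hmv
  refine ⟨s₀ * m, r, ?_, hmv⟩
  have h1 : (((⟨g'' ^ (s₀ * k), hm⟩ ^ m : H) : K.fixingSubgroup) : Gam) =
      (g'' : Gam) ^ (k * (s₀ * m)) := by
    rw [Subgroup.coe_pow, Subgroup.coe_pow, Subgroup.coe_pow, ← pow_mul]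
    congr 1
    ring
  rw [h1] at hr
  exact ⟨fun c hc => hr.1 c (hS hc), hr.2⟩

theorem canStep_mono {K : IntermediateField ℚ QQ} {N : ℕ} {Hold Hold' : Gam → Prop}
    (h : ∀ σ, Hold σ → Hold' σ) (hN : CanStep K N Hold) : CanStep K N Hold' := by
  intro P hP2 hPN g C s hs hsP hC
  obtain ⟨g', C', s', h1, h2, h3, h4, h5, h6⟩ := hN P hP2 hPN g C s hs hsP hC
  exact ⟨g', C', s', h1, h2, h3, h4, h5, fun g'' hg'' => h _ (h6 g'' hg'')⟩

theorem canStep_of_true {K : IntermediateField ℚ QQ} {N : ℕ} {Hold : Gam → Prop}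
    (h : ∀ σ, Hold σ) : CanStep K N Hold := by
  intro P _ _ g C s hs hsP hC
  exact ⟨g, C, s, hs, hsP.trans (Finset.subset_insert _ _), hC, Finset.Subset.refl _,
    fun _ _ => rfl, fun _ _ => h _⟩

end Step

section Machine

/-- One automorphism for countably many tasks. The data `Δ θ` of the tasks do not depend on the
field. -/
theorem machine {Θ : Type*} [hΘ : Countable Θ] {Δ : Θ → Type*} {A : Type*}
    (Kf : A → IntermediateField ℚ QQ) (Hold : ∀ θ, Δ θ → A → Gam → Prop)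
    (h : ∀ (θ : Θ) (X : ℕ), ∃ (P : ℕ) (δ : Δ θ), X < P ∧ ∀ α, CanStep (Kf α) P (Hold θ δ α)) :
    ∃ δ : ∀ θ, Δ θ, ∀ α : A, ∃ σ : Gam, (∀ c ∈ Kf α, σ c = c) ∧ ∀ θ, Hold θ (δ θ) α σ := by
  obtain ⟨f, hf⟩ := hΘ.exists_injective_nat
  choose P δ hX hP using h
  have h1 : ∀ i X : ℕ, ∃ Q : ℕ, X < Q ∧
      ∀ α, CanStep (Kf α) Q fun σ => ∀ θ, f θ = i → Hold θ (δ θ X) α σ := by
    intro i X
    by_cases hi : ∃ θ, f θ = i
    · obtain ⟨θ₀, rfl⟩ := hi
      refine ⟨P θ₀ X, hX θ₀ X, fun α => canStep_mono ?_ (hP θ₀ X α)⟩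
      intro σ hσ θ hθ
      obtain rfl := hf hθ
      exact hσ
    · refine ⟨X + 1, Nat.lt_succ_self X, fun α => canStep_of_true fun σ θ hθ => ?_⟩
      exact absurd ⟨θ, hθ⟩ hi
  choose Q hQX hQ using h1
  obtain ⟨p, hp0, hp⟩ : ∃ p : ℕ → ℕ, p 0 = 2 ∧ ∀ i, p (i + 1) = Q i (p i) :=
    ⟨fun i => Nat.rec 2 (fun i X => Q i X) i, rfl, fun _ => rfl⟩
  have hpm : StrictMono p := strictMono_nat_of_lt_succ fun i => by
    rw [hp i]
    exact hQX _ _
  refine ⟨fun θ => δ θ (p (f θ)), fun α => ?_⟩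
  obtain ⟨σ, hσ, hσQ⟩ := sig_lim (K := Kf α) (N := fun i => p (i + 1))
    (Hold := fun i σ => ∀ θ, f θ = i → Hold θ (δ θ (p i)) α σ)
    (fun i => by
      show p (i + 1) ≠ 2
      have h6 : p 0 < p (i + 1) := hpm (Nat.succ_pos i)
      omega) (fun i j hij => by
      have h5 := hpm.injective hij
      omega) (fun i => by
      show CanStep (Kf α) (p (i + 1)) _
      rw [hp i]
      exact hQ i (p i) α)
  exact ⟨σ, hσ, fun θ => hσQ (f θ) θ rfl⟩

end Machine

section Univ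

/-- a function with poles at `P` and `O`, with the further data -/
structure FibDat (F : Type) [Field F] [Algebra QQ F] (P O : Place QQ F) where
  φ : F
  y : F
  z : F
  u : F
  r : Place QQ F
  n1 : ℕ
  n2 : ℕ
  m : ℕ
  e1 : ℕ
  e2 : ℕ
  e3 : ℕ
  fib : Fib φ y z u P O r n1 n2 m e1 e2 e3

/-- the tasks: a curve, two points, a finite set of functions, an exponent, the kind of the
sizes -/
def Task : Type :=
  Σ T : {T : Finset OmX // IsCurve QQ (Mod T)},
    {x : Place QQ (Mod T.1) × Place QQ (Mod T.1) // x.1 ≠ x.2} × Finset (Mod T.1) × ℕ × Bool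

theorem countable_task : Countable Task := by
  have h1 : Countable OmX := countable_OmX
  have h2 : ∀ T : Finset OmX, Countable (Mod T) := fun T => Subtype.countable
  have h3 : ∀ T : {T : Finset OmX // IsCurve QQ (Mod T)}, Countable (Place QQ (Mod T.1)) :=
    fun T => countable_place T.2
  unfold Task
  infer_instance

theorem univ_orbits {n : ℕ} (hn : 5 ≤ n) :
    ∃ δ : ∀ θ : Task, FibDat (Mod θ.1.1) θ.2.1.1.1 θ.2.1.1.2,
      ∀ K1 K2 : IntermediateField ℚ QQ, Mild K1 → NoAlt n K2 → ∃ σ : Gam,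
        (∀ c ∈ K1 ⊔ K2, σ c = c) ∧ ∀ θ : Task, 0 < θ.2.2.2.1 → Cl θ.2.2.2.2 K1 →
          OrbitsT (Par θ.2.2.2.2) (δ θ).φ θ.2.2.2.1 θ.2.2.1 σ := by
  have := countable_task
  obtain ⟨δ, hδ⟩ := machine (Θ := Task)
    (Δ := fun θ => FibDat (Mod θ.1.1) θ.2.1.1.1 θ.2.1.1.2)
    (A := {K : IntermediateField ℚ QQ × IntermediateField ℚ QQ // Mild K.1 ∧ NoAlt n K.2})
    (fun α => α.1.1 ⊔ α.1.2)
    (fun θ δ α σ => 0 < θ.2.2.2.1 → Cl θ.2.2.2.2 α.1.1 →
      OrbitsT (Par θ.2.2.2.2) δ.φ θ.2.2.2.1 θ.2.2.1 σ) (by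
    rintro ⟨⟨T, hF⟩, ⟨⟨P, O⟩, hPO⟩, S, k, b⟩ X
    obtain ⟨φ, y, z, u, r, n1, n2, m, e1, e2, e3, h, hN, hn2, hX, h1, h2⟩ :=
      exists_fib_prime hF hPO (X + k + n + 1)
    refine ⟨n1 + n2, ⟨φ, y, z, u, r, n1, n2, m, e1, e2, e3, h⟩, by omega, ?_⟩
    rintro ⟨⟨K1, K2⟩, hK1, hK2⟩
    by_cases hc : 0 < k ∧ Cl b K1
    · obtain ⟨hk, hb⟩ := hc
      have hO : OrbitData K1 (Par b) φ z n2 e2 := by
        cases b
        · exact orbitData_rat hF h hb
        · exact orbitData_ht hF h hb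
      have htr := h.transc hF
      have hBad := finite_crit hF htr
      refine canStep_mono (Hold := OrbitsT (Par b) φ k S) (fun σ hσ _ _ => hσ) ?_
      refine sig_stepT hN (by omega) (fun hd => ?_) S hBad.toFinset ?_ fun X' =>
        sig_data_gen hn hK2 hF h hO hN hn2 h1 h2 (by omega) S hBad.toFinset X'
      · have := Nat.le_of_dvd hk hd
        omega
      · intro t ht v hv
        by_contra hu
        exact ht (hBad.mem_toFinset.2 ⟨v, hv, hu⟩)
    · exact canStep_of_true fun σ h3 h4 => absurd ⟨h3, h4⟩ hc)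
  exact ⟨δ, fun K1 K2 hK1 hK2 => hδ ⟨(K1, K2), hK1, hK2⟩⟩

/-- the family of automorphisms -/
theorem univ_family {n : ℕ} (hn : 5 ≤ n) :
    ∃ (δ : ∀ θ : Task, FibDat (Mod θ.1.1) θ.2.1.1.1 θ.2.1.1.2)
      (σ : IntermediateField ℚ QQ → Gam), ∀ (b : Bool) (K : IntermediateField ℚ QQ),
      TameB n b K → (∀ c ∈ K, σ K c = c) ∧ ∀ θ : Task, 0 < θ.2.2.2.1 → θ.2.2.2.2 = b →
        OrbitsT (Par b) (δ θ).φ θ.2.2.2.1 θ.2.2.1 (σ K) := by
  obtain ⟨δ, hδ⟩ := univ_orbits hn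
  have h1 : ∀ K : IntermediateField ℚ QQ, ∃ σ : Gam, ∀ b : Bool,
      TameB n b K → (∀ c ∈ K, σ c = c) ∧ ∀ θ : Task, 0 < θ.2.2.2.1 → θ.2.2.2.2 = b →
        OrbitsT (Par b) (δ θ).φ θ.2.2.2.1 θ.2.2.1 σ := by
    intro K
    by_cases hU : TameB n false K
    · obtain ⟨K1, K2, hK1, hK2, hK⟩ := hU
      obtain ⟨σ, hσ, h⟩ := hδ K1 K2 hK1.mild hK2
      refine ⟨σ, fun b _ => ⟨fun c hc => hσ c (hK hc), ?_⟩⟩
      rintro θ hk rfl
      refine h θ hk ?_
      rcases hb : θ.2.2.2.2 with _ | _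
      · exact hK1
      · exact hK1.mild
    · by_cases hT : TameB n true K
      · obtain ⟨K1, K2, hK1, hK2, hK⟩ := hT
        obtain ⟨σ, hσ, h⟩ := hδ K1 K2 hK1.mild hK2
        refine ⟨σ, fun b hb => ⟨fun c hc => hσ c (hK hc), ?_⟩⟩
        rintro θ hk rfl
        refine h θ hk ?_
        rcases hb' : θ.2.2.2.2 with _ | _
        · rw [hb'] at hb
          exact absurd hb hU
        · exact hK1
      · refine ⟨1, fun b hb => ?_⟩
        cases b
        · exact absurd hb hU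
        · exact absurd hb hT
  choose σ hσ using h1
  exact ⟨δ, σ, fun b K => hσ K b⟩

end Univ

end Pool.Agent.Clo
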