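import Pool.Agent.Clo.RatAct

/-!
# The Galois group preserves rational equivalence

PROOF. It suffices to consider a generator `DivOf L z` of `RatEq L`: this is the divisor of the
function `g` on the curve with function field `F`, pushed forward by `φ`. Let `F'` be the same field
`F` with the algebra structure over `QQ` in which the constant `c` acts as `algebraMap QQ F
(σ.rho.symm c)` (`RingHom.toAlgebra`; use `@` or a type synonym for `F`). A place of `F` over `QQ`
for
one of the two structures is a place for the other one, with the same valuation ring (the image of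
`QQ` is the same). `IsUnif`, `HasOrd` depend only on the valuation ring. `IsCurve QQ F'`: the same
`t`; it is transcendental over `QQ` for the new structure (apply `σ.rho` to the coefficients of a
polynomial), and the field generated by `t` and the constants is the same field (same carrier), so
`F'` is finite over it (e.g. `Module.Finite` in terms of a finite spanning set; or use that `F` is
finite over it as a subfield: `Subfield.closure`). The new morphism is `φ' v = σ.map (φ v)`, with
components constant, or given by the embedding `f ∘ (σ.r i).symm : L i → F'`, which is linear over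
`QQ` for the new structure, since `f (r⁻¹ (algebraMap c)) = f (algebraMap (ρ⁻¹ c)) =
algebraMap QQ F (ρ⁻¹ c)`; the ring of `σ.map (φ v) i` is `(φ v i).ring.comap (σ.r i).symm`.
The push-forward is `∑ v, single (σ.map (φ v)) (n v)` (`Finsupp.mapDomain_single`), the sum over the
places of `F'` which correspond to the places in the given finset (`Finset.map` by the bijection
between the places, or `Finset.sum_bij`).
-/

set_option autoImplicit false

noncomputable section

namespace Pool.Agent.Clo

open Pool.Agent.ZCyc Pool.Agent.Dess
open scoped Classical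

section Semi

variable {F F' : Type} [Field F] [Algebra QQ F] [Field F'] [Algebra QQ F'] {ρ : Gam}

private theorem symm_Twist {e : F ≃+* F'}
    (h : ∀ c : QQ, e (algebraMap QQ F c) = algebraMap QQ F' (ρ c)) (c : QQ) :
    e.symm (algebraMap QQ F' c) = algebraMap QQ F (ρ.symm c) := by
  rw [RingEquiv.symm_apply_eq, h, AlgEquiv.apply_symm_apply]

private def tr_Twist (e : F ≃+* F')
    (h : ∀ c : QQ, e (algebraMap QQ F c) = algebraMap QQ F' (ρ c)) (v : Place QQ F) :
    Place QQ F' where
  ring := v.ring.comap (e.symm : F' →+* F)
  const_mem := by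
    intro c
    rw [ValuationSubring.mem_comap]
    have h1 : (e.symm : F' →+* F) (algebraMap QQ F' c) = algebraMap QQ F (ρ.symm c) :=
      symm_Twist h c
    rw [h1]
    exact v.const_mem _
  ne_top := by
    intro h0
    apply v.ne_top
    ext x
    constructor
    · intro _
      exact ValuationSubring.mem_top x
    · intro _
      have h1 : e x ∈ v.ring.comap (e.symm : F' →+* F) := by
        rw [h0]
        exact ValuationSubring.mem_top _
      rw [ValuationSubring.mem_comap] at h1
      simpa using h1

variable {e : F ≃+* F'} (h : ∀ c : QQ, e (algebraMap QQ F c) = algebraMap QQ F' (ρ c))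

private theorem mem_Twist (v : Place QQ F) (x : F') :
    x ∈ (tr_Twist e h v).ring ↔ e.symm x ∈ v.ring := ValuationSubring.mem_comap

private theorem mem'_Twist (v : Place QQ F) (x : F) :
    e x ∈ (tr_Twist e h v).ring ↔ x ∈ v.ring := by
  rw [mem_Twist, RingEquiv.symm_apply_apply]

private theorem left_Twist (v : Place QQ F) :
    tr_Twist e.symm (symm_Twist h) (tr_Twist e h v) = v := by
  apply Place.ext
  ext x
  rw [mem_Twist, RingEquiv.symm_symm, mem'_Twist]

private theorem right_Twist (v : Place QQ F') :
    tr_Twist e h (tr_Twist e.symm (symm_Twist h) v) = v := by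
  apply Place.ext
  ext x
  rw [mem_Twist, mem_Twist, RingEquiv.symm_symm, RingEquiv.apply_symm_apply]

private theorem vanishes_Twist (v : Place QQ F) (x : F) :
    (tr_Twist e h v).Vanishes (e x) ↔ v.Vanishes x := by
  rw [Place.vanishes_iff_or, Place.vanishes_iff_or, ← map_inv₀, mem'_Twist]
  simp

private theorem unif_Twist {v : Place QQ F} {x : F} (hu : IsUnif v x) :
    IsUnif (tr_Twist e h v) (e x) := by
  refine ⟨fun h0 => hu.1 (by simpa using h0), (vanishes_Twist h v x).2 hu.2.1, ?_⟩
  intro g hg
  obtain ⟨y, rfl⟩ := e.surjective g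
  rw [vanishes_Twist] at hg
  rw [← map_div₀, mem'_Twist]
  exact hu.2.2 y hg

private theorem ord_Twist {v : Place QQ F} {g : F} {n : ℤ} (ho : HasOrd v g n) :
    HasOrd (tr_Twist e h v) (e g) n := by
  obtain ⟨x, hu, h1, h2⟩ := ho
  refine ⟨e x, unif_Twist h hu, ?_, ?_⟩
  · rw [← map_zpow₀, ← map_div₀, mem'_Twist]
    exact h1
  · rw [← map_zpow₀, ← map_div₀, ← map_inv₀, mem'_Twist]
    exact h2

include h in
private theorem eval_Twist (t : F) (p : Polynomial QQ) :
    e (Polynomial.aeval t p) =
      Polynomial.aeval (e t) (p.map ((ρ : QQ ≃+* QQ) : QQ →+* QQ)) := by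
  induction p using Polynomial.induction_on' with
  | add p q hp hq => rw [map_add, map_add, hp, hq, Polynomial.map_add, map_add]
  | monomial n a =>
    rw [Polynomial.map_monomial, Polynomial.aeval_monomial, Polynomial.aeval_monomial, map_mul,
      map_pow, h]
    rfl

include h in
private theorem transc_Twist {t : F} (ht : Transcendental QQ t) : Transcendental QQ (e t) := by
  rw [transcendental_iff] at ht ⊢
  intro p hp
  have h1 := eval_Twist (e := e.symm) (symm_Twist h) (e t) p
  rw [hp, map_zero, RingEquiv.symm_apply_apply] at h1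
  have h2 := ht _ h1.symm
  rw [Polynomial.map_eq_zero_iff] at h2
  · exact h2
  · exact (RingEquiv.injective _)

include h in
private theorem adjoin_Twist {t x : F} (hx : x ∈ IntermediateField.adjoin QQ {t}) :
    e x ∈ IntermediateField.adjoin QQ {e t} := by
  induction hx using IntermediateField.adjoin_induction with
  | mem x hx =>
    rw [Set.mem_singleton_iff.1 hx]
    exact IntermediateField.mem_adjoin_simple_self QQ (e t)
  | algebraMap c =>
    rw [h]
    exact IntermediateField.algebraMap_mem _ _
  | add x y _ _ hx hy =>
    rw [map_add]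
    exact add_mem hx hy
  | inv x _ hx =>
    rw [map_inv₀]
    exact inv_mem hx
  | mul x y _ _ hx hy =>
    rw [map_mul]
    exact mul_mem hx hy

include h in
private theorem curve_Twist (hF : IsCurve QQ F) : IsCurve QQ F' := by
  obtain ⟨t, ht, hfin⟩ := hF
  refine ⟨e t, transc_Twist h ht, ?_⟩
  obtain ⟨s, hs⟩ := hfin
  refine ⟨s.image e, ?_⟩
  rw [eq_top_iff]
  intro x _
  have h1 : e.symm x ∈ Submodule.span (IntermediateField.adjoin QQ {t}) (s : Set F) := by
    rw [hs]
    exact Submodule.mem_top
  have key : ∀ y ∈ Submodule.span (IntermediateField.adjoin QQ {t}) (s : Set F),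
      e y ∈ Submodule.span (IntermediateField.adjoin QQ {e t}) ((s.image e : Finset F') :
        Set F') := by
    intro y hy
    induction hy using Submodule.span_induction with
    | mem y hy =>
      apply Submodule.subset_span
      simpa using hy
    | zero =>
      rw [map_zero]
      exact Submodule.zero_mem _
    | add y z _ _ hy hz =>
      rw [map_add]
      exact Submodule.add_mem _ hy hz
    | smul a y _ hy =>
      have h2 : e (a • y) =
          (⟨e a, adjoin_Twist h a.2⟩ : IntermediateField.adjoin QQ {e t}) • e y := by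
        rw [Algebra.smul_def, map_mul, Algebra.smul_def]
        rfl
      rw [h2]
      exact Submodule.smul_mem _ _ hy
  have h3 := key _ h1
  rwa [RingEquiv.apply_symm_apply] at h3

end Semi

section Twist

variable {ι : Type} {L : ι → Type} [∀ i, Field (L i)] [∀ i, Algebra QQ (L i)]
  {S : ∀ i, Finset (L i)}

private theorem core_Twist {F F' : Type} [Field F] [Algebra QQ F] [Field F'] [Algebra QQ F']
    (σ : Auto S) (e : F ≃+* F')
    (h : ∀ c : QQ, e (algebraMap QQ F c) = algebraMap QQ F' (σ.rho c))
    (φ : Place QQ F → ∀ i, Place QQ (L i)) (g : F) (T : Finset (Place QQ F))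
    (n : Place QQ F → ℤ) (hF : IsCurve QQ F) (hφ : IsMorphism φ) (hg : g ≠ 0)
    (h1 : ∀ v ∈ T, HasOrd v g (n v)) (h2 : ∀ v ∉ T, HasOrd v g 0) :
    DivOf L ((∑ v ∈ T, Finsupp.single (φ v) (n v)).mapDomain σ.map) := by
  have hinj : Function.Injective (tr_Twist e h) := fun v w hvw => by
    rw [← left_Twist h v, ← left_Twist h w, hvw]
  refine ⟨F', inferInstance, inferInstance,
    fun v => σ.map (φ (tr_Twist e.symm (symm_Twist h) v)), e g, T.image (tr_Twist e h),
    fun v => n (tr_Twist e.symm (symm_Twist h) v), curve_Twist h hF, ?_, ?_, ?_, ?_, ?_⟩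
  · intro i
    rcases hφ i with ⟨p, hp⟩ | ⟨f, hf⟩
    · left
      exact ⟨act (σ.r i) (σ.fix i).2 p, fun v => congrArg (act (σ.r i) (σ.fix i).2) (hp _)⟩
    · right
      have hr : ∀ c : QQ, (σ.r i).symm (algebraMap QQ (L i) c) =
          algebraMap QQ (L i) (σ.rho.symm c) := symm_Twist (σ.fix i).2
      let f' : L i →ₐ[QQ] F' :=
        { toRingHom := ((e : F →+* F').comp (f : L i →+* F)).comp
            ((σ.r i).symm : L i →+* L i)
          commutes' := by
            intro c
            change e (f ((σ.r i).symm (algebraMap QQ (L i) c))) = _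
            rw [hr, f.commutes, h, AlgEquiv.apply_symm_apply] }
      refine ⟨f', fun v => ?_⟩
      ext x
      have e1 : x ∈ (σ.map (φ (tr_Twist e.symm (symm_Twist h) v)) i).ring ↔
          (σ.r i).symm x ∈ (φ (tr_Twist e.symm (symm_Twist h) v) i).ring :=
        ValuationSubring.mem_comap
      rw [e1, hf, ValuationSubring.mem_comap, mem_Twist, RingEquiv.symm_symm,
        ValuationSubring.mem_comap]
      rfl
  · intro h0
    exact hg (by simpa using h0)
  · intro v hv
    obtain ⟨w, hw, rfl⟩ := Finset.mem_image.1 hv
    change HasOrd (tr_Twist e h w) (e g)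
      (n (tr_Twist e.symm (symm_Twist h) (tr_Twist e h w)))
    rw [left_Twist]
    exact ord_Twist h (h1 w hw)
  · intro v hv
    rw [← right_Twist h v]
    apply ord_Twist h
    apply h2
    intro hw
    exact hv (Finset.mem_image.2 ⟨_, hw, right_Twist h v⟩)
  · rw [Finset.sum_image fun v _ w _ hvw => hinj hvw, Finsupp.mapDomain_finsetSum]
    refine Finset.sum_congr rfl fun v _ => ?_
    rw [Finsupp.mapDomain_single]
    change _ = Finsupp.single (σ.map (φ (tr_Twist e.symm (symm_Twist h) (tr_Twist e h v))))
      (n (tr_Twist e.symm (symm_Twist h) (tr_Twist e h v)))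
    rw [left_Twist]

/-- the Galois group preserves rational equivalence -/
theorem Auto.map_mem' (σ : Auto S) {z : (∀ i, Place QQ (L i)) →₀ ℤ} (hz : z ∈ RatEq L) :
    z.mapDomain σ.map ∈ RatEq L := by
  unfold RatEq at hz
  induction hz using AddSubgroup.closure_induction with
  | mem z hz =>
    obtain ⟨F, iF, iA, φ, g, T, n, hF, hφ, hg, h1, h2, rfl⟩ := hz
    let alg : Algebra QQ F :=
      ((algebraMap QQ F).comp ((σ.rho.symm : QQ ≃+* QQ) : QQ →+* QQ)).toAlgebra
    refine AddSubgroup.subset_closure ?_
    refine @core_Twist ι L _ _ S F F iF iA iF alg σ (RingEquiv.refl F) ?_ φ g T n hF hφ hg h1 h2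
    intro c
    change (@algebraMap QQ F _ _ iA) c = (@algebraMap QQ F _ _ iA) (σ.rho.symm (σ.rho c))
    rw [AlgEquiv.symm_apply_apply]
  | zero =>
    rw [Finsupp.mapDomain_zero]
    exact zero_mem _
  | add x y _ _ hx hy =>
    rw [Finsupp.mapDomain_add]
    exact add_mem hx hy
  | neg x _ hx =>
    have h1 : (-x).mapDomain σ.map = -(x.mapDomain σ.map) := by
      rw [eq_neg_iff_add_eq_zero, ← Finsupp.mapDomain_add, neg_add_cancel,
        Finsupp.mapDomain_zero]
    rw [h1]
    exact neg_mem hx

end Twist

end Pool.Agent.Clo
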