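import Pool.Agent.Clo.UnrDef
import Pool.Agent.Clo.ArUnr
import Pool.Agent.Clo.ArAlm

/-!
# Adjoining an integral element of which the discriminant is a unit

PROOF of `values_adjoin`. Let `M = K(θ)`, `R = K ∩ W` (a subring of `QQ`), and `P = {x ∈ R[θ] | x`
is a
nonunit of `W}`. `R` is a discrete valuation ring with uniformizer `l` (or prove directly what is
needed: every nonzero element of `K` is a power of `l` times a unit of `R`). `R[θ] ⊆ W` (`θ` is
integral over `ℤ`) is a finite `R`-module, so it is noetherian. Claim: `P` is generated by `l` in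
the
localization at `P`. Let `k` be the residue field of `R` (a subfield of the residue field of `W`),
`g ∈ k[X]` the minimal polynomial of the residue class `τ` of `θ`, `G ∈ R[X]` a lift of `g`. If
`x = A(θ) ∈ P` with `A ∈ R[X]`, then `A(τ) = 0`, so `g` divides the reduction of `A`:
`A = G B + l C` with `B, C ∈ R[X]` (an element of `R` which is a nonunit of `W` is divisible by `l`
in `R`); so `P = (l, G(θ))`. The reduction of `f` is divisible by `g`: `f = G H + l C`, and `τ` is a
simple root of the reduction of `f` as `f'(θ)` is a unit of `W`, so `H(τ) ≠ 0`, i.e. `H(θ) ∉ P`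
(differentiate `f = G H + l C` and evaluate at `θ`: `f'(θ)` is `G'(θ) H(θ) + G(θ) H'(θ)` up to
`l C'(θ)`; if `H(θ)` was a nonunit of `W`, then so would be `f'(θ)`). `0 = f(θ)` gives
`G(θ) H(θ) ∈ l R[θ]`. So every `x ∈ P` has the form `x = l y / s` with `y, s ∈ R[θ]`, `s = H(θ) ∉
P`.
Krull: if `x ≠ 0` was divisible infinitely often, `x s ^ n ∈ l ^ n R[θ]` for all `n`; then `x = 0`
by
the Krull intersection theorem in the noetherian local domain `R[θ]_P`
(`Ideal.iInf_pow_eq_bot_of_isLocalRing`), or `exists_pow` of `Pool/Agent/ZCyc/Unique.lean`. So every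
nonzero `x ∈ R[θ]` is `l ^ n y / s` with `y, s ∉ P`, units of `W`, hence
`W.valuation x = W.valuation l ^ n`. Every element of `M` is a quotient of elements of `R[θ]`.
(Alternative: `Algebra.FormallyUnramified` and `IsDiscreteValuationRing` of Mathlib for the
localization of `R[X] / (f)`.)

-/

set_option autoImplicit false

noncomputable section

namespace Pool.Agent.Clo

open Pool.Agent.ZCyc Pool.Agent.Dess

theorem values_adjoin {K : IntermediateField ℚ QQ} {W : ValuationSubring QQ} {l : ℕ}
    (hl : l.Prime) (hW : (l : QQ) ∈ W.nonunits) (hK : UnrAt K W l) {f : Polynomial ℤ}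
    (hf : f.Monic) {θ : QQ} (h0 : Polynomial.aeval θ f = 0)
    (h1 : Polynomial.aeval θ f.derivative ∉ W.nonunits) :
    UnrAt (K ⊔ IntermediateField.adjoin ℚ {θ}) W l := by
  sorry

end Pool.Agent.Clo
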